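import Pool.Agent.Work.MP_3d425c_gt.To.Axis

/-! Invariant classes of non separated points, the order of germs, normalisers of a skewering
element. -/

namespace Pool.Agent.Work.MP_3d425c_gt.To.Ax
open Set Filter Topology Pool.Agent.Work.MP_3d425c_gt.Cy

variable {G X : Type*} [Group G] [MulAction G X] {C : Set (ℝ → X)} {up : X → X → Prop}

section
variable (h : Om G C up)
include h

theorem sep_low {k : ℕ} {x z y x' : X} (h1 : Asc C z x) (h2 : Cmp C z y)
    (e : Chn (Cmp C) univ k y x') (hm : ∀ j < k + 2, ¬ Chn (Cmp C) univ j x x') :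
    ∃ m n, LG C m n ∧ m ≠ n ∧ Uc up m x ∧ Uc up n x' := by
  obtain ⟨m, n, l, ne, -, a2, -, -, a5⟩ := valley h (mem_univ x) h1 h2 e hm
  exact ⟨m, n, l, ne, le_uc h a2, a5⟩

/-- incomparable points are separated by a pair of non separated points -/
theorem sep_pair {x x' : X} (nc : ¬ Cmp C x x') :
    (∃ m n, LG C m n ∧ m ≠ n ∧ Uc up m x ∧ Uc up n x') ∨
      ∃ m n, LG (dualC C) m n ∧ m ≠ n ∧ Uc (dualU up) m x ∧ Uc (dualU up) n x' := by
  classical
  have ex := chn_univ h x x'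
  obtain ⟨N, e, hm⟩ : ∃ N, Chn (Cmp C) univ N x x' ∧ ∀ j < N, ¬ Chn (Cmp C) univ j x x' :=
    ⟨Nat.find ex, Nat.find_spec ex, fun j a => Nat.find_min ex a⟩
  rcases N with _ | _ | k
  · exact absurd (e.zero ▸ cmp_refl x) nc
  · obtain ⟨y, r, e'⟩ := e.succ
    exact absurd (e'.zero ▸ r) nc
  obtain ⟨z, r, e⟩ := e.succ
  obtain ⟨y, r', e⟩ := e.succ
  rcases r with (r | r) | r | r
  · exact absurd (.cons trivial (r ▸ r') e) (hm (k + 1) (by omega))
  · have := sep_low h.dual (asc_dual.2 r) (k := k) (y := y) (x' := x')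
    rw [cmp_dual] at this
    exact .inr (this r' e hm)
  · exact absurd (.cons trivial (r ▸ r') e) (hm (k + 1) (by omega))
  · exact .inl (sep_low h r r' e hm)

/-- a point that is fixed by every element moving both `x` and `x'` along charts -/
theorem sep_fix {x x' : X} (nc : ¬ Cmp C x x') : ∃ m : X,
    (∀ a : G, Cmp C x (a • x) → Cmp C x' (a • x') → a • m = m) ∧
      ∀ p : G, p • m = m → p • x ≠ x' := by
  rcases sep_pair h nc with ⟨m, n, l, ne, a1, a2⟩ | ⟨m, n, l, ne, a1, a2⟩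
  · refine ⟨m, fun a b1 b2 => (fix_pair h l ne a1 a2 b1 b2).1, fun p e q => ne ?_⟩
    exact lg_disj h l (by simpa only [e, q] using uc_smul h p a1) a2
  · refine ⟨m, fun a b1 b2 => (fix_pair h.dual l ne a1 a2 (cmp_dual (C := C) ▸ b1)
      (cmp_dual (C := C) ▸ b2)).1, fun p e q => ne ?_⟩
    exact lg_disj h.dual l (by simpa only [e, q] using uc_smul h.dual p a1) a2

theorem germ_cmp {c : ℝ → X} (hc : c ∈ C) {a : G} (l : LG C (a • c 0) (c 0)) :
    ∀ᶠ u in 𝓝[<] (0 : ℝ), Cmp C (c u) (a • c u) :=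
  (h.lg_near (h.smul a c hc) hc l univ_mem).mono fun _ ⟨_, _, _, e⟩ => e ▸ cmp_chart hc _ _

theorem class_above {c : ℝ → X} (hc : c ∈ C) {x : X} (nl : ¬ LG C x (c 0)) :
    (∃ ν, LG C ν (c 0) ∧ ∀ a : G, LG C (a • c 0) (c 0) → LG C (a • x) x → a • ν = ν) ∨
      ∀ᶠ u in 𝓝[<] (0 : ℝ), ¬ up (c u) x := by
  by_cases k : ∀ t < (0 : ℝ), up (c t) x
  · obtain ⟨ν, l, e⟩ := h.cut hc k
    have e' : up ν x := e.resolve_right fun q => nl (q ▸ l)
    exact .inl ⟨ν, l, fun a a1 a2 => lg_disj h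
      (h.lg_trans (h.lg_smul a l) (h.lg_trans a1 (Om.lg_symm l)))
      (.inl (h.lg_up a2 (h.ups a _ _ e'))) (.inl e')⟩
  · push Not at k
    obtain ⟨t, t0, e⟩ := k
    refine .inr (mem_of_superset (Ioo_mem_nhdsLT t0) fun u hu q => e ?_)
    exact (asc_nest h ⟨c, hc, t, u, hu.1, rfl, rfl⟩).sub h (.inl q)

/-- two different classes kept by `a` and `b` give a common fixed point -/
theorem two_class {c d : ℝ → X} (hc : c ∈ C) (hd : d ∈ C) (nl : ¬ LG C (d 0) (c 0)) {a b : G}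
    (a1 : LG C (a • c 0) (c 0)) (a2 : LG C (a • d 0) (d 0)) (b1 : LG C (b • c 0) (c 0))
    (b2 : LG C (b • d 0) (d 0)) : ∃ ν, a • ν = ν ∧ b • ν = ν ∧
      (LG C ν (c 0) ∨ LG C ν (d 0) ∨ ∃ u, ∀ p : G, p • ν = ν → p • c u ≠ d u) := by
  rcases class_above h hc nl with ⟨ν, l, f⟩ | e1
  · exact ⟨ν, f a a1 a2, f b b1 b2, .inl l⟩
  rcases class_above h hd fun q => nl (Om.lg_symm q) with ⟨ν, l, f⟩ | e2
  · exact ⟨ν, f a a2 a1, f b b2 b1, .inr (.inl l)⟩
  obtain ⟨u, ⟨⟨⟨⟨⟨k1, k2⟩, k3⟩, k4⟩, k5⟩, k6⟩, u0⟩ := ((((((e1.and e2).and (germ_cmp h hc a1)).and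
    (germ_cmp h hd a2)).and (germ_cmp h hc b1)).and (germ_cmp h hd b2)).and
    self_mem_nhdsWithin).exists
  obtain ⟨m, f1, f2⟩ := sep_fix h (x := c u) (x' := d u) fun q => q.elim
    (fun q => k1 (asc_nest h (le_asc h q ⟨d, hd, u, 0, u0, rfl, rfl⟩)).1)
    fun q => k2 (asc_nest h (le_asc h q ⟨c, hc, u, 0, u0, rfl, rfl⟩)).1
  exact ⟨m, f1 a k3 k4, f1 b k5 k6, .inr (.inr ⟨u, f2⟩)⟩

theorem chart0 (μ : X) : ∃ c ∈ C, c 0 = μ := by
  obtain ⟨c, hc, -, -, e, -⟩ := h.lg_refl μ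
  exact ⟨c, hc, e⟩

theorem full {μ : X} {a b p : G} (a1 : LG C (a • μ) μ) (b1 : LG C (b • μ) μ)
    (ca : a * p = p * a) (cb : b * p = p * b) (hZ : ∀ y : X, a • y = y → b • y = y → p • y = y) :
    LG C (p • μ) μ := by
  by_contra nl
  obtain ⟨c, hc, rfl⟩ := chart0 h μ
  have k : ∀ a : G, a * p = p * a → LG C (a • c 0) (c 0) → LG C (a • p • c 0) (p • c 0) :=
    fun a e l => by
      rw [← mul_smul, e, mul_smul]
      exact h.lg_smul p l
  obtain ⟨ν, f1, f2, l | l | ⟨u, f⟩⟩ :=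
    two_class h hc (h.smul p c hc) nl a1 (k a ca a1) b1 (k b cb b1)
  · have := h.lg_smul p l
    rw [hZ ν f1 f2] at this
    exact nl (h.lg_trans (Om.lg_symm this) l)
  · have := h.lg_smul p⁻¹ l
    rw [inv_smul_smul, inv_smul_eq_iff.2 (hZ ν f1 f2).symm] at this
    exact nl (h.lg_trans (Om.lg_symm l) this)
  · exact f p (hZ ν f1 f2) rfl

theorem fin_index {μ : X} (H : Subgroup G) [H.FiniteIndex] (hH : ∀ g ∈ H, LG C (g • μ) μ)
    (ab : ∀ (x : X) (a b : G), a • x = x → b • x = x → a * b = b * a)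
    (nva : ∀ N : Subgroup G, N.FiniteIndex → ∃ a ∈ N, ∃ b ∈ N, a * b ≠ b * a) (g : G) :
    LG C (g • μ) μ := by
  by_contra nl
  obtain ⟨c, hc, rfl⟩ := chart0 h μ
  obtain ⟨a, ha, b, hb, ne⟩ := nva H.normalCore inferInstance
  have k : ∀ a ∈ H.normalCore, LG C (a • g • c 0) (g • c 0) := fun a e => by
    have := h.lg_smul g (hH _ (e g⁻¹))
    rwa [inv_inv, mul_smul, mul_smul, smul_inv_smul] at this
  obtain ⟨ν, f1, f2, -⟩ := two_class h hc (h.smul g c hc) nl (hH a (H.normalCore_le ha)) (k a ha)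
    (hH b (H.normalCore_le hb)) (k b hb)
  exact ne (ab ν a b f1 f2)

/-- the order of germs -/
theorem germ_ord {μ : X} (hH : ∀ g : G, LG C (g • μ) μ)
    (nf : ∀ g : G, g ≠ 1 → ∀ c ∈ C, ∀ u v : ℝ, u < v → ∃ t ∈ Icc u v, g • c t ≠ c t) :
    ∃ r : G → G → Prop, IsStrictTotalOrder G r ∧ (∀ a b c, r a b ↔ r (c * a) (c * b)) ∧
      ∀ x p q : G, (∀ y : X, Asc C y (p • y) → ¬ Asc C (q • y) y) → q ≠ 1 →
        r x (p * x) → r x (q * x) := by
  obtain ⟨c, hc, rfl⟩ := chart0 h μ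
  have : (𝓝[<] (0 : ℝ) ⊓ residual ℝ).NeBot := Filter.inf_neBot_iff.2 fun s hs t ht => by
    obtain ⟨l, hl, e⟩ := mem_nhdsLT_iff_exists_Ioo_subset.1 hs
    exact ((dense_of_mem_residual ht).inter_open_nonempty _ isOpen_Ioo (nonempty_Ioo.2 hl)).mono
      (inter_subset_inter_left _ e)
  let U := Ultrafilter.of (𝓝[<] (0 : ℝ) ⊓ residual ℝ)
  have mv : ∀ g : G, g ≠ 1 → ∀ᶠ t in U, ∃ t', t' ≠ t ∧ g • c t = c t' := fun g hg => by
    have op : IsOpen {t | ∃ t', t' ≠ t ∧ g • c t = c t'} := isOpen_iff_mem_nhds.2 fun t ht => by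
      obtain ⟨t', ne, e⟩ := ht
      obtain ⟨A, B, hA, hB, a1, a2, dj⟩ := t2_separation ne
      filter_upwards [h.near (h.smul g c hc) hc e (hA.mem_nhds a1), hB.mem_nhds a2] with u k1 k2
      obtain ⟨v, k3, k4⟩ := k1
      exact ⟨v, fun q => disjoint_left.1 dj k3 (q ▸ k2), k4⟩
    obtain ⟨l, hl, e⟩ := mem_nhdsLT_iff_exists_Ioo_subset.1
      (h.lg_near (h.smul g c hc) hc (hH g) univ_mem)
    have de : Dense ({t | ∃ t', t' ≠ t ∧ g • c t = c t'} ∪ (Icc l 0)ᶜ) := by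
      refine dense_iff_exists_between.2 fun u v uv => ?_
      by_cases k : ∀ t ∈ Ioo u v, t ∈ Icc l 0
      · obtain ⟨u', a1, a2⟩ := exists_between uv
        obtain ⟨w, a3, a4⟩ := exists_between a1
        obtain ⟨w0, a5, a6⟩ := exists_between a3
        obtain ⟨v', a7, a8⟩ := exists_between a2
        obtain ⟨t, ⟨b1, b2⟩, ne⟩ := nf g hg c hc w u' a4
        obtain ⟨t', -, -, q⟩ := e (a := t)
          ⟨(k w0 ⟨a5, by linarith⟩).1.trans_lt (by linarith),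
            lt_of_lt_of_le (by linarith) (k v' ⟨by linarith, a8⟩).2⟩
        exact ⟨t, .inl ⟨t', fun z => ne (z ▸ q), q⟩, by linarith, by linarith⟩
      · push Not at k
        obtain ⟨t, a1, a2⟩ := k
        exact ⟨t, .inr a2, a1⟩
    refine Ultrafilter.of_le _ ?_
    filter_upwards [mem_inf_of_left (Ioo_mem_nhdsLT hl), mem_inf_of_right
      (residual_of_dense_open (op.union isClosed_Icc.isOpen_compl) de)] with t k1 k2
    exact k2.resolve_right fun q => q (Ioo_subset_Icc_self k1)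
  have tot : ∀ x y : G, x ≠ y → (∀ᶠ t in U, Asc C (x • c t) (y • c t)) ∨
      ∀ᶠ t in U, Asc C (y • c t) (x • c t) := fun x y ne => by
    refine Ultrafilter.eventually_or.1 ((mv (x⁻¹ * y) fun q => ne (inv_mul_eq_one.1 q)).mono ?_)
    rintro t ⟨t', n, e⟩
    rw [mul_smul, inv_smul_eq_iff] at e
    rw [e]
    rcases n.lt_or_gt with q | q
    exacts [.inr ⟨_, h.smul x c hc, t', t, q, rfl, rfl⟩, .inl ⟨_, h.smul x c hc, t, t', q, rfl, rfl⟩]
  refine ⟨fun x y => ∀ᶠ t in U, Asc C (x • c t) (y • c t),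
    { trichotomous := fun x y k1 k2 => by_contra fun q => (tot x y q).elim k1 k2
      irrefl := fun x k => asc_irr h _ k.exists.choose_spec
      trans := fun x y z k1 k2 => (k1.and k2).mono fun _ q => asc_trans h q.1 q.2 },
    fun x y z => ⟨fun k => k.mono fun t q => ?_, fun k => k.mono fun t q => ?_⟩,
    fun x p q k1 k2 k3 => ?_⟩
  · simpa only [mul_smul] using asc_smul h z q
  · simpa only [mul_smul, inv_smul_smul] using asc_smul h z⁻¹ q
  · refine (tot x (q * x) fun e => k2 (by simpa using e)).resolve_right fun k4 => ?_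
    obtain ⟨t, b1, b2⟩ := (k3.and k4).exists
    rw [mul_smul] at b1 b2
    exact k1 _ b1 b2

variable {p : G} {m n : X}

/-- an element that commutes with a skewering element and fixes a point fixes the pair -/
theorem Skew.fix (e : Skew C up p m n) {q : G} (c : p * q = q * p) {y : X} (f : q • y = y) :
    q • m = m ∧ q • n = n := by
  rcases e.tri h c with k | k | k
  · exact k
  · exact absurd (f.symm ▸ cmp_refl y) (k.not_cmp h y)
  · exact absurd ((inv_smul_eq_iff.2 f.symm).symm ▸ cmp_refl y) (k.not_cmp h y)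

theorem Skew.normal (e : Skew C up p m n) {τ g : G} (c : p * τ = τ * p) (f : τ • n = n)
    (hg : g * p * g⁻¹ = p ∨ g * p * g⁻¹ = p⁻¹) :
    p * (g⁻¹ * τ * g) = g⁻¹ * τ * g * p ∧ (g⁻¹ * τ * g) • n = n := by
  have c' : p * (g⁻¹ * τ * g) = g⁻¹ * τ * g * p := by
    have k : g * p * g⁻¹ * τ = τ * (g * p * g⁻¹) := by
      rcases hg with q | q <;> rw [q]
      exacts [c, (Commute.inv_left c).eq]
    calc _ = g⁻¹ * (g * p * g⁻¹ * τ) * g := by group
      _ = _ := by rw [k]; group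
  exact ⟨c', (e.fix h c' (y := g⁻¹ • n) (by rw [mul_smul, mul_smul, smul_inv_smul, f])).2⟩

/-- the cyclic group of an element commuting with a normal skewering element is normal -/
theorem Skew.zz (e : Skew C up p m n) (hg : ∀ g : G, g * p * g⁻¹ = p ∨ g * p * g⁻¹ = p⁻¹)
    (cyc : ∃ z : G, ∀ a : G, a • n = n → a ∈ Subgroup.zpowers z) {τ : G} (c : p * τ = τ * p)
    (f : τ • n = n) : (Subgroup.zpowers τ).Normal := by
  obtain ⟨z, hz⟩ := cyc
  let K : Subgroup G := Subgroup.centralizer {p} ⊓ MulAction.stabilizer G n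
  have mk : ∀ a : G, a ∈ K ↔ p * a = a * p ∧ a • n = n := fun a => by
    simp only [K, Subgroup.mem_inf, Subgroup.mem_centralizer_iff, mem_singleton_iff, forall_eq,
      MulAction.mem_stabilizer_iff]
  have : IsCyclic K := Subgroup.isCyclic_of_le (H' := Subgroup.zpowers z) fun a ha =>
    hz a ((mk a).1 ha).2
  obtain ⟨⟨w, hw⟩, e1⟩ := IsCyclic.exists_generator (α := K)
  have e2 : ∀ a ∈ K, ∃ j : ℤ, w ^ j = a := fun a ha =>
    (e1 ⟨a, ha⟩).imp fun j q => congrArg Subtype.val q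
  refine ⟨?_⟩
  rintro _ ⟨k, rfl⟩ g
  obtain ⟨i, rfl⟩ := e2 τ ((mk τ).2 ⟨c, f⟩)
  obtain ⟨j, q⟩ := e2 _ ((mk _).2 (e.normal h ((mk w).1 hw).1 ((mk w).1 hw).2 (hg g⁻¹)))
  rw [inv_inv] at q
  refine ⟨j * k, ?_⟩
  simp only [← conj_zpow, ← q, ← zpow_mul]
  congr 1
  ring

end

end Pool.Agent.Work.MP_3d425c_gt.To.Ax
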