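import Pool.Agent.Work.MP_3d425c_gt.To.AxB

/-! Two commuting elements without a common fixed point: a line with a slope, or a zigzag. -/

namespace Pool.Agent.Work.MP_3d425c_gt.To.Ax
open Set Filter Topology Pool.Agent.Work.MP_3d425c_gt.Cy

theorem cone_pos (S : AddSubmonoid (ℤ × ℤ)) (h1 : (1, 0) ∈ S) (h2 : (0, 1) ∈ S)
    (nt : ∃ v, v ∉ S) :
    ∃ α β : ℝ, (α ≠ 0 ∨ β ≠ 0) ∧ ∀ v ∈ S, 0 ≤ v.1 * α + v.2 * β := by
  have sm : ∀ (k : ℤ) v, 0 ≤ k → v ∈ S → k • v ∈ S := fun k v hk hv => by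
    lift k to ℕ using hk
    rw [natCast_zsmul]
    exact S.nsmul_mem hv k
  have mo : ∀ i j i' j' : ℤ, (i, j) ∈ S → i ≤ i' → j ≤ j' → (i', j') ∈ S :=
    fun i j i' j' q a b => by
      have := S.add_mem (S.add_mem q (sm (i' - i) _ (by omega) h1)) (sm (j' - j) _ (by omega) h2)
      simpa using this
  have nb : (-1, 0) ∈ S → (0, -1) ∉ S := fun a b => by
    obtain ⟨v, hv⟩ := nt
    have := S.add_mem (sm |v.1| _ (abs_nonneg _) a) (sm |v.2| _ (abs_nonneg _) b)
    exact hv (mo _ _ v.1 v.2 this (by simpa using neg_abs_le v.1) (by simpa using neg_abs_le v.2))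
  obtain ⟨β, hL, hU⟩ := exists_between_of_forall_le
    (s := {x : ℝ | ∃ i j : ℤ, 0 ≤ i ∧ 0 ≤ j ∧ 0 < i + j ∧ (-i, j) ∈ S ∧ x = i / (i + j)})
    (t := {x : ℝ | ∃ i j : ℤ, 0 ≤ i ∧ 0 ≤ j ∧ 0 < i + j ∧ (i, -j) ∈ S ∧ x = i / (i + j)})
    ⟨_, 0, 1, le_rfl, zero_le_one, one_pos, h2, rfl⟩ ⟨_, 1, 0, zero_le_one, le_rfl, one_pos, h1, rfl⟩
    (by
      rintro _ ⟨i, j, a1, a2, a3, a4, rfl⟩ _ ⟨i', j', b1, b2, b3, b4, rfl⟩
      have k : i * j' ≤ i' * j := by
        by_contra q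
        have c1 : (-1, 0) ∈ S := mo _ _ _ _ (S.add_mem (sm j' _ b2 a4) (sm j _ a2 b4))
          (show j' * -i + j * i' ≤ -1 by nlinarith) (show j' * j + j * -j' ≤ 0 by nlinarith)
        have c2 : 0 < j' := by
          rcases b2.eq_or_lt with e | e
          · rw [← e] at q
            exact absurd (by simpa using mul_nonneg b1 a2) q
          · exact e
        exact nb c1 (mo _ _ _ _ (S.add_mem b4 (sm i' _ b1 c1)) (by simp) (by simp; omega))
      have k' : (i : ℝ) * j' ≤ i' * j := by exact_mod_cast k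
      rw [div_le_div_iff₀ (by exact_mod_cast a3) (by exact_mod_cast b3)]
      nlinarith)
  have β0 : 0 ≤ β := by simpa using hL ⟨0, 1, le_rfl, zero_le_one, one_pos, h2, rfl⟩
  have β1 : β ≤ 1 := by simpa using hU ⟨1, 0, zero_le_one, le_rfl, one_pos, h1, rfl⟩
  refine ⟨1 - β, β, ?_, ?_⟩
  · by_contra q
    push Not at q
    linarith [q.1, q.2]
  · rintro ⟨i, j⟩ hv
    show 0 ≤ (i : ℝ) * (1 - β) + j * β
    rcases le_or_gt 0 i with a | a <;> rcases le_or_gt 0 j with b | b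
    · have a' : (0 : ℝ) ≤ i := by exact_mod_cast a
      have b' : (0 : ℝ) ≤ j := by exact_mod_cast b
      have := sub_nonneg.2 β1
      positivity
    · have := hU ⟨i, -j, a, by omega, by omega, by simpa using hv, rfl⟩
      rw [le_div_iff₀ (by exact_mod_cast (by omega : 0 < i + -j))] at this
      push_cast at this
      linarith
    · have := hL ⟨-i, j, by omega, b, by omega, by simpa using hv, rfl⟩
      rw [div_le_iff₀ (by exact_mod_cast (by omega : 0 < -i + j))] at this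
      push_cast at this
      linarith
    · exact absurd (mo _ _ _ _ hv (by omega) (by omega)) (nb (mo _ _ _ _ hv (by omega) (by omega)))

theorem cone_z2 (S : AddSubmonoid (ℤ × ℤ)) (tot : ∀ v, v ∈ S ∨ -v ∈ S) (nt : ∃ v, v ∉ S) :
    ∃ α β : ℝ, (α ≠ 0 ∨ β ≠ 0) ∧ ∀ v ∈ S, 0 ≤ v.1 * α + v.2 * β := by
  obtain ⟨ε, e1, e2⟩ : ∃ ε : ℤ, ε * ε = 1 ∧ (ε, 0) ∈ S :=
    (tot (1, 0)).elim (fun q => ⟨1, rfl, q⟩) fun q => ⟨-1, rfl, q⟩
  obtain ⟨δ, d1, d2⟩ : ∃ δ : ℤ, δ * δ = 1 ∧ (0, δ) ∈ S :=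
    (tot (0, 1)).elim (fun q => ⟨1, rfl, q⟩) fun q => ⟨-1, rfl, q⟩
  have ee : ∀ v : ℤ × ℤ, (ε * (ε * v.1), δ * (δ * v.2)) = v := fun v => by
    rw [← mul_assoc, ← mul_assoc, e1, d1, one_mul, one_mul]
  obtain ⟨v, hv⟩ := nt
  obtain ⟨α, β, a, b⟩ := cone_pos
    (S.comap ((AddMonoidHom.mulLeft ε).prodMap (AddMonoidHom.mulLeft δ)))
    (by simpa using e2) (by simpa using d2) ⟨(ε * v.1, δ * v.2), fun q => hv (ee v ▸ q)⟩
  have e0 : (ε : ℝ) ≠ 0 := fun q => by simp [Int.cast_eq_zero.1 q] at e1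
  have d0 : (δ : ℝ) ≠ 0 := fun q => by simp [Int.cast_eq_zero.1 q] at d1
  refine ⟨ε * α, δ * β, a.imp (mul_ne_zero e0) (mul_ne_zero d0), fun w hw => ?_⟩
  have := b (ε * w.1, δ * w.2) (show (ε * (ε * w.1), δ * (δ * w.2)) ∈ S from (ee w).symm ▸ hw)
  push_cast at this
  linarith

variable {G X : Type*} [Group G] [MulAction G X] {C : Set (ℝ → X)} {up : X → X → Prop}
variable {a b : G} {P : Subgroup G} {s : G → ℝ}

theorem pair_mul (hab : a * b = b * a) (i j i' j' : ℤ) :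
    a ^ (i + i') * b ^ (j + j') = a ^ i * b ^ j * (a ^ i' * b ^ j') := by
  rw [zpow_add, zpow_add]
  exact (Commute.zpow_zpow hab i' j).mul_mul_mul_comm _ _

theorem pair_neg (hab : a * b = b * a) (i j : ℤ) : a ^ (-i) * b ^ (-j) = (a ^ i * b ^ j)⁻¹ :=
  eq_inv_of_mul_eq_one_left (by rw [← pair_mul hab]; simp)

theorem mem_pair (hab : a * b = b * a) {p : G} :
    p ∈ Subgroup.closure {a, b} ↔ ∃ i j : ℤ, p = a ^ i * b ^ j := by
  constructor
  · intro hp
    induction hp using Subgroup.closure_induction with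
    | mem x hx =>
      rcases hx with rfl | rfl
      exacts [⟨1, 0, by simp⟩, ⟨0, 1, by simp⟩]
    | one => exact ⟨0, 0, by simp⟩
    | mul x y _ _ hx hy =>
      obtain ⟨i, j, rfl⟩ := hx
      obtain ⟨i', j', rfl⟩ := hy
      exact ⟨_, _, (pair_mul hab _ _ _ _).symm⟩
    | inv x _ hx =>
      obtain ⟨i, j, rfl⟩ := hx
      exact ⟨_, _, (pair_neg hab _ _).symm⟩
  · rintro ⟨i, j, rfl⟩
    exact mul_mem (zpow_mem (Subgroup.subset_closure (.inl rfl)) _)
      (zpow_mem (Subgroup.subset_closure (.inr rfl)) _)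

theorem pair_comm (hab : a * b = b * a) : ∀ p ∈ Subgroup.closure {a, b},
    ∀ q ∈ Subgroup.closure {a, b}, p * q = q * p := fun p hp q hq => by
  obtain ⟨i, j, rfl⟩ := (mem_pair hab).1 hp
  obtain ⟨i', j', rfl⟩ := (mem_pair hab).1 hq
  rw [← pair_mul hab, ← pair_mul hab, add_comm i, add_comm j]

/-- a total cone in a group with two commuting generators has a slope -/
theorem slope (hab : a * b = b * a) (Pos : G → Prop) (mul : ∀ p q, Pos p → Pos q → Pos (p * q))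
    (tot : ∀ p ∈ Subgroup.closure {a, b}, Pos p ∨ Pos p⁻¹)
    (nt : ∃ p ∈ Subgroup.closure {a, b}, ¬ Pos p) :
    ∃ s : G → ℝ, (∀ p ∈ Subgroup.closure {a, b}, ∀ q ∈ Subgroup.closure {a, b},
      s (p * q) = s p + s q) ∧ (∃ p ∈ Subgroup.closure {a, b}, 0 < s p) ∧
      ∀ p ∈ Subgroup.closure {a, b}, Pos p → 0 ≤ s p := by
  classical
  have one : Pos 1 := by simpa using tot 1 (one_mem _)
  obtain ⟨p₀, h0, h1⟩ := nt
  obtain ⟨i₀, j₀, rfl⟩ := (mem_pair hab).1 h0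
  obtain ⟨α, β, h2, h3⟩ := cone_z2
    { carrier := {v | Pos (a ^ v.1 * b ^ v.2)}
      add_mem' := fun {v w} hv hw => show Pos (a ^ (v.1 + w.1) * b ^ (v.2 + w.2)) from
        (pair_mul hab v.1 v.2 w.1 w.2).symm ▸ mul _ _ hv hw
      zero_mem' := by simpa using one }
    (fun v => (tot _ ((mem_pair hab).2 ⟨v.1, v.2, rfl⟩)).imp_right fun q =>
      (pair_neg hab v.1 v.2).symm ▸ q) ⟨(i₀, j₀), h1⟩
  have le : ∀ i j i' j' : ℤ, a ^ i * b ^ j = a ^ i' * b ^ j' →
      i * α + j * β ≤ i' * α + j' * β := fun i j i' j' e => by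
    have := h3 (i' + -i, j' + -j) (by
      show Pos (a ^ (i' + -i) * b ^ (j' + -j))
      rwa [pair_mul hab, pair_neg hab, e, mul_inv_cancel])
    push_cast at this
    linarith
  obtain ⟨s, hs⟩ : ∃ s : G → ℝ, ∀ i j : ℤ, s (a ^ i * b ^ j) = i * α + j * β :=
    ⟨fun p => if q : ∃ v : ℤ × ℤ, p = a ^ v.1 * b ^ v.2 then q.choose.1 * α + q.choose.2 * β else 0,
      fun i j => by
        have q : ∃ v : ℤ × ℤ, a ^ i * b ^ j = a ^ v.1 * b ^ v.2 := ⟨(i, j), rfl⟩
        simp only [dif_pos q]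
        exact le_antisymm (le _ _ _ _ q.choose_spec.symm) (le _ _ _ _ q.choose_spec)⟩
  refine ⟨s, fun p hp q hq => ?_, ?_, fun p hp q => ?_⟩
  · obtain ⟨i, j, rfl⟩ := (mem_pair hab).1 hp
    obtain ⟨i', j', rfl⟩ := (mem_pair hab).1 hq
    rw [← pair_mul hab, hs, hs, hs]
    push_cast
    ring
  · by_contra q
    push Not at q
    have k := fun i j => hs i j ▸ q _ ((mem_pair hab).2 ⟨i, j, rfl⟩)
    have k1 := k 1 0
    have k2 := k (-1) 0
    have k3 := k 0 1
    have k4 := k 0 (-1)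
    push_cast at k1 k2 k3 k4
    exact h2.elim (fun e => e (by linarith)) fun e => e (by linarith)
  · obtain ⟨i, j, rfl⟩ := (mem_pair hab).1 hp
    exact hs i j ▸ h3 (i, j) q

section add
variable (hs : ∀ p ∈ P, ∀ q ∈ P, s (p * q) = s p + s q)
include hs

theorem add_one : s 1 = 0 := by
  have := hs 1 (one_mem _) 1 (one_mem _)
  rw [mul_one] at this
  linarith

theorem add_inv {p : G} (hp : p ∈ P) : s p⁻¹ = -s p := by
  have := hs p hp _ (inv_mem hp)
  rw [mul_inv_cancel, add_one hs] at this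
  linarith

theorem add_zpow {p : G} (hp : p ∈ P) (k : ℤ) : s (p ^ k) = k * s p := by
  induction k using Int.induction_on with
  | zero => simpa using add_one hs
  | succ k ih =>
    rw [zpow_add_one, hs _ (zpow_mem hp _) _ hp, ih]
    push_cast
    ring
  | pred k ih =>
    rw [zpow_sub_one, hs _ (zpow_mem hp _) _ (inv_mem hp), ih, add_inv hs hp]
    push_cast
    ring

theorem ker_aux (hab : a * b = b * a) (ha : a ∈ P) (hb : b ∈ P) (h0 : s a ≠ 0) :
    ∃ κ ∈ P, s κ = 0 ∧ ∀ i j : ℤ, s (a ^ i * b ^ j) = 0 → a ^ i * b ^ j ∈ Subgroup.zpowers κ := by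
  have e : ∀ i j : ℤ, s (a ^ i * b ^ j) = i * s a + j * s b := fun i j => by
    rw [hs _ (zpow_mem ha _) _ (zpow_mem hb _), add_zpow hs ha, add_zpow hs hb]
  obtain ⟨j₀, hj⟩ := Int.subgroup_cyclic
    { carrier := {j : ℤ | ∃ i : ℤ, i * s a + j * s b = 0}
      add_mem' := fun ⟨i, hi⟩ ⟨i', hi'⟩ => ⟨i + i', by push_cast; linarith⟩
      zero_mem' := ⟨0, by simp⟩
      neg_mem' := fun ⟨i, hi⟩ => ⟨-i, by push_cast; linarith⟩ }
  obtain ⟨i₀, hi⟩ : ∃ i : ℤ, i * s a + j₀ * s b = 0 :=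
    hj.ge (AddSubgroup.subset_closure (mem_singleton _))
  refine ⟨a ^ i₀ * b ^ j₀, mul_mem (zpow_mem ha _) (zpow_mem hb _), (e _ _).trans hi,
    fun i j q => ?_⟩
  rw [e] at q
  obtain ⟨k, rfl⟩ := AddSubgroup.mem_closure_singleton.1 (hj.le ⟨i, q⟩)
  have : i = k * i₀ := by
    have k1 : (i : ℝ) * s a = (k * i₀ : ℤ) * s a := by
      simp only [smul_eq_mul] at q
      push_cast at q ⊢
      linear_combination q - k * hi
    exact_mod_cast mul_right_cancel₀ h0 k1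
  refine ⟨k, ?_⟩
  show (a ^ i₀ * b ^ j₀) ^ k = _
  rw [(Commute.zpow_zpow hab _ _).mul_zpow, ← zpow_mul, ← zpow_mul, this, smul_eq_mul,
    mul_comm i₀, mul_comm j₀]

end add

/-- the kernel of a nonzero slope is cyclic -/
theorem ker_cyc (hab : a * b = b * a)
    (hs : ∀ p ∈ Subgroup.closure {a, b}, ∀ q ∈ Subgroup.closure {a, b}, s (p * q) = s p + s q)
    (h0 : ∃ p ∈ Subgroup.closure {a, b}, 0 < s p) :
    ∃ κ ∈ Subgroup.closure {a, b}, s κ = 0 ∧
      ∀ p ∈ Subgroup.closure {a, b}, s p = 0 → p ∈ Subgroup.zpowers κ := by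
  have ha : a ∈ Subgroup.closure {a, b} := Subgroup.subset_closure (.inl rfl)
  have hb : b ∈ Subgroup.closure {a, b} := Subgroup.subset_closure (.inr rfl)
  by_cases q : s a = 0
  · have q' : s b ≠ 0 := fun e => by
      obtain ⟨p, hp, k⟩ := h0
      obtain ⟨i, j, rfl⟩ := (mem_pair hab).1 hp
      rw [hs _ (zpow_mem ha _) _ (zpow_mem hb _), add_zpow hs ha, add_zpow hs hb, q, e] at k
      simp at k
    obtain ⟨κ, k1, k2, k3⟩ := ker_aux hs hab.symm hb ha q'
    refine ⟨κ, k1, k2, fun p hp e => ?_⟩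
    obtain ⟨i, j, rfl⟩ := (mem_pair hab).1 hp
    rw [(Commute.zpow_zpow hab i j).eq] at e ⊢
    exact k3 _ _ e
  · obtain ⟨κ, k1, k2, k3⟩ := ker_aux hs hab ha hb q
    refine ⟨κ, k1, k2, fun p hp e => ?_⟩
    obtain ⟨i, j, rfl⟩ := (mem_pair hab).1 hp
    exact k3 _ _ e

section
variable (h : Om G C up)
include h

theorem le_mul {p q : G} {y : X} (e : Le C y (p • y)) (e' : Le C y (q • y)) :
    Le C y ((p * q) • y) :=
  mul_smul p q y ▸ le_tr h e (le_smul h p e')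

theorem le_inv {p : G} {y : X} (e : Le C (p • y) y) : Le C y (p⁻¹ • y) := by
  simpa only [inv_smul_smul] using le_smul h p⁻¹ e

theorem orbit_cmp (hab : a * b = b * a) {y : X} (ca : Cmp C y (a • y)) (cb : Cmp C y (b • y)) :
    ∀ p ∈ Subgroup.closure {a, b}, Cmp C y (p • y) := by
  have cm := pair_comm hab
  have k : ∀ p ∈ Subgroup.closure {a, b}, ∃ u ∈ Subgroup.closure {a, b},
      ∃ v ∈ Subgroup.closure {a, b}, Le C y (u • y) ∧ Le C y (v • y) ∧ v * p = u := by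
    have o : Le C y ((1 : G) • y) := .inl (one_smul _ _).symm
    intro p hp
    induction hp using Subgroup.closure_induction with
    | mem x hx =>
      have hx' : x ∈ Subgroup.closure {a, b} := Subgroup.subset_closure hx
      have : Cmp C y (x • y) := by
        rcases hx with rfl | rfl
        exacts [ca, cb]
      exact this.elim (fun q => ⟨x, hx', 1, one_mem _, q, o, one_mul _⟩)
        fun q => ⟨1, one_mem _, x⁻¹, inv_mem hx', o, le_inv h q, inv_mul_cancel _⟩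
    | one => exact ⟨1, one_mem _, 1, one_mem _, o, o, one_mul _⟩
    | mul x z hx _ k1 k2 =>
      obtain ⟨u, -, v, hv, a1, a2, rfl⟩ := k1
      obtain ⟨u', hu', v', hv', b1, b2, e⟩ := k2
      refine ⟨_, mul_mem (mul_mem hv hx) hu', _, mul_mem hv hv', le_mul h a1 b1, le_mul h a2 b2, ?_⟩
      rw [← e, mul_assoc v, mul_assoc v, ← mul_assoc v', cm v' hv' x hx, mul_assoc]
    | inv x _ k1 =>
      obtain ⟨u, hu, v, hv, a1, a2, e⟩ := k1
      exact ⟨v, hv, u, hu, a2, a1, by rw [← e, mul_inv_cancel_right]⟩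
  intro p hp
  obtain ⟨u, hu, v, hv, a1, a2, e⟩ := k p hp
  have b1 := le_smul h u a2
  have b2 := le_smul h v a1
  rw [← mul_smul] at b1 b2
  rw [cm v hv u hu] at b2
  have := cmp_smul h v⁻¹ (seg h a2 b2 a1 b1)
  rwa [inv_smul_smul, ← e, mul_smul, inv_smul_smul] at this

variable {p q : G} {m n : X}

theorem Skew.mul (e : Skew C up p m n) (e' : Skew C up q m n) : Skew C up (p * q) m n :=
  ⟨e.lg, e.ne, mul_smul p q n ▸ ((e.nest h).trans h ((e'.nest h).smul h p)).1,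
    mul_smul p q m ▸ (((e'.nest' h).smul h p).trans h (e.nest' h)).1⟩

theorem Skew.tri (e : Skew C up p m n) (c : p * q = q * p) :
    (q • m = m ∧ q • n = n) ∨ Skew C up q m n ∨ Skew C up q⁻¹ m n := by
  have k : ∀ {p : G} {m n : X}, Skew C up p m n → p * q = q * p →
      ∃ y, Uc up n y ∧ Uc up (q • n) y := fun {p m n} e c => by
    obtain ⟨k, hk⟩ := e.exh h (q • n)
    refine ⟨_, .inl hk, .inl ?_⟩
    rw [← mul_smul, (Commute.pow_left c _).eq, mul_smul]
    exact (((e.nest h).pow h k).smul h q).1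
  obtain ⟨y, a1, a2⟩ := k e c
  obtain ⟨x, b1, b2⟩ := k (e.inv h) (Commute.inv_left c).eq
  exact (fix_or_skew h e.lg e.ne b1 b2 a1 a2).imp_right (Or.imp_right fun q => q.inv h)

/-- the slope of a zigzag -/
theorem zigzag (hab : a * b = b * a) (hp : p ∈ Subgroup.closure {a, b}) (e : Skew C up p m n) :
    ∃ s : G → ℝ, (∀ p ∈ Subgroup.closure {a, b}, ∀ q ∈ Subgroup.closure {a, b},
      s (p * q) = s p + s q) ∧ (∃ t ∈ Subgroup.closure {a, b}, s t = 1) ∧
      ∀ q ∈ Subgroup.closure {a, b}, (∃ k : ℤ, s q = k) ∧ (0 < s q ↔ Skew C up q m n) ∧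
        (s q = 0 ↔ q • m = m ∧ q • n = n) := by
  have tri := fun q hq => e.tri h (pair_comm hab p hp q hq)
  have no : ∀ q : G, Skew C up q m n → ¬ Skew C up q⁻¹ m n := fun q a b => by
    have := (a.mul h b).un
    rw [mul_inv_cancel, one_smul] at this
    exact h.irr _ this
  have nf : ∀ q : G, Skew C up q m n → q • n ≠ n := fun q a b => h.irr n (by
    have := a.un
    rwa [b] at this)
  obtain ⟨s, hs, ⟨t, ht, t0⟩, pos⟩ := slope hab
    (fun q => (q • m = m ∧ q • n = n) ∨ Skew C up q m n) (by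
      rintro u v (⟨a1, a2⟩ | a1) (⟨b1, b2⟩ | b1)
      · exact .inl ⟨by rw [mul_smul, b1, a1], by rw [mul_smul, b2, a2]⟩
      · refine .inr ⟨e.lg, e.ne, ?_, ?_⟩
        · simpa only [a2, mul_smul] using h.ups u _ _ b1.un
        · simpa only [a1, mul_smul] using h.ups u _ _ b1.um
      · exact .inr ⟨e.lg, e.ne, by rw [mul_smul, b2]; exact a1.un, by rw [mul_smul, b1]; exact a1.um⟩
      · exact .inr (a1.mul h b1))
    (fun q hq => (tri q hq).elim (fun a => .inl (.inl a))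
      (Or.elim · (fun a => .inl (.inr a)) fun a => .inr (.inr a)))
    ⟨p⁻¹, inv_mem hp, fun q => q.elim (fun q => nf p e (inv_smul_eq_iff.1 q.2).symm) (no p e)⟩
  have fz : ∀ q ∈ Subgroup.closure {a, b}, q • m = m ∧ q • n = n → s q = 0 := fun q hq k => by
    have k1 := pos q hq (.inl k)
    have k2 := pos q⁻¹ (inv_mem hq)
      (.inl ⟨inv_smul_eq_iff.2 k.1.symm, inv_smul_eq_iff.2 k.2.symm⟩)
    rw [add_inv hs hq] at k2
    linarith
  have ps : ∀ q ∈ Subgroup.closure {a, b}, 0 < s q → Skew C up q m n := fun q hq k => by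
    rcases tri q hq with a | a | a
    · exact absurd (fz q hq a) k.ne'
    · exact a
    · have := pos q⁻¹ (inv_mem hq) (.inr a)
      rw [add_inv hs hq] at this
      linarith
  have sp : ∀ q ∈ Subgroup.closure {a, b}, Skew C up q m n → 0 < s q := fun q hq k => by
    refine (pos q hq (.inr k)).lt_of_ne fun z => ?_
    obtain ⟨j, hj⟩ := k.shrink h (t • n)
    have := h.ups (q ^ j) _ _ (ps ((q ^ j)⁻¹ * t) (mul_mem (inv_mem (pow_mem hq j)) ht) (by
      rw [hs _ (inv_mem (pow_mem hq j)) _ ht, add_inv hs (pow_mem hq j), ← zpow_natCast,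
        add_zpow hs hq, ← z]
      simpa using t0)).un
    rw [mul_smul, smul_inv_smul] at this
    exact hj (.inl this)
  have zf : ∀ q ∈ Subgroup.closure {a, b}, s q = 0 → q • m = m ∧ q • n = n := fun q hq k => by
    rcases tri q hq with a | a | a
    · exact a
    · exact absurd k (sp q hq a).ne'
    · have := sp q⁻¹ (inv_mem hq) a
      rw [add_inv hs hq] at this
      linarith
  have df : ∀ u ∈ Subgroup.closure {a, b}, ∀ v ∈ Subgroup.closure {a, b},
      s (u⁻¹ * v) = s v - s u := fun u hu v hv => by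
    rw [hs _ (inv_mem hu) _ hv, add_inv hs hu]
    ring
  have fin : {x | ∃ q ∈ Subgroup.closure {a, b}, 0 < s q ∧ s q ≤ s t ∧ x = q • n}.Finite := by
    refine (exit_fin h m (t • n)).subset ?_
    rintro _ ⟨q, hq, a1, a2, rfl⟩
    refine ⟨q • m, h.lg_smul q e.lg, fun k => e.ne (smul_left_cancel q k),
      .inl (ps q hq a1).um, ?_⟩
    have hm := mul_mem (inv_mem hq) ht
    have : Uc up n ((q⁻¹ * t) • n) := by
      rcases a2.eq_or_lt with k | k
      · exact .inr (zf _ hm (by rw [df q hq t ht, k, sub_self])).2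
      · exact .inl (ps _ hm (by rw [df q hq t ht]; linarith)).un
    simpa only [mul_smul, smul_inv_smul] using uc_smul h q this
  obtain ⟨u, hu, u0, um⟩ : ∃ u ∈ Subgroup.closure {a, b}, 0 < s u ∧
      ∀ q ∈ Subgroup.closure {a, b}, 0 < s q → s u ≤ s q := by
    choose! f f1 f2 f3 f4 using fun x (hx : x ∈ {x | ∃ q ∈ Subgroup.closure {a, b},
      0 < s q ∧ s q ≤ s t ∧ x = q • n}) => hx
    obtain ⟨x, hx, mn⟩ := Set.exists_min_image _ (fun x => s (f x)) fin ⟨_, t, ht, t0, le_rfl, rfl⟩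
    refine ⟨f x, f1 x hx, f2 x hx, fun q hq k => ?_⟩
    rcases le_total (s q) (s t) with k1 | k1
    · have hq' : q • n ∈ {x | ∃ q ∈ Subgroup.closure {a, b}, 0 < s q ∧ s q ≤ s t ∧ x = q • n} :=
        ⟨q, hq, k, k1, rfl⟩
      refine (mn _ hq').trans (le_of_not_gt fun z => ?_)
      refine nf _ (ps (q⁻¹ * f (q • n)) (mul_mem (inv_mem hq) (f1 _ hq'))
        (by rw [df q hq _ (f1 _ hq')]; linarith)) ?_
      rw [mul_smul, ← f4 _ hq', inv_smul_smul]
    · exact (f3 x hx).trans k1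
  refine ⟨fun q => s q / s u, fun p hp q hq => by simp only [hs p hp q hq, add_div],
    ⟨u, hu, div_self u0.ne'⟩, fun q hq => ⟨⟨⌊s q / s u⌋, ?_⟩, ?_, ?_⟩⟩
  · have k1 := (le_div_iff₀ u0).1 (Int.floor_le (s q / s u))
    have k2 := (div_lt_iff₀ u0).1 (Int.lt_floor_add_one (s q / s u))
    have k3 := df _ (zpow_mem hu ⌊s q / s u⌋) q hq
    rw [add_zpow hs hu] at k3
    rw [div_eq_iff u0.ne']
    by_contra z
    have := um _ (mul_mem (inv_mem (zpow_mem hu ⌊s q / s u⌋)) hq)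
      (by rw [k3]; exact sub_pos.2 (k1.lt_of_ne (Ne.symm z)))
    linarith
  · rw [div_pos_iff_of_pos_right u0]
    exact ⟨ps q hq, sp q hq⟩
  · rw [div_eq_zero_iff, or_iff_left u0.ne']
    exact ⟨zf q hq, fz q hq⟩

/-- the slope of a line -/
theorem line (hab : a * b = b * a) {y : X} (ca : Cmp C y (a • y)) (cb : Cmp C y (b • y))
    (nf : ¬ (a • y = y ∧ b • y = y)) :
    ∃ s : G → ℝ, (∀ p ∈ Subgroup.closure {a, b}, ∀ q ∈ Subgroup.closure {a, b},
      s (p * q) = s p + s q) ∧ (∃ p ∈ Subgroup.closure {a, b}, 0 < s p) ∧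
      ∀ p ∈ Subgroup.closure {a, b}, 0 < s p → Asc C y (p • y) := by
  have cm := orbit_cmp h hab ca cb
  obtain ⟨s, hs, h0, pos⟩ := slope hab (fun p => Le C y (p • y)) (fun _ _ => le_mul h)
    (fun p hp => (cm p hp).imp_right (le_inv h)) (by
      by_contra k
      push Not at k
      have : ∀ p ∈ Subgroup.closure {a, b}, p • y = y := fun p hp => le_anti h
        (by simpa only [smul_inv_smul] using le_smul h p (k _ (inv_mem hp))) (k p hp)
      exact nf ⟨this a (Subgroup.subset_closure (.inl rfl)),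
        this b (Subgroup.subset_closure (.inr rfl))⟩)
  refine ⟨s, hs, h0, fun p hp k => ?_⟩
  have : ¬ Le C (p • y) y := fun q => by
    have := pos _ (inv_mem hp) (le_inv h q)
    rw [add_inv hs hp] at this
    linarith
  exact ((cm p hp).resolve_right this).resolve_left fun q => this (.inl q.symm)

/-- the dichotomy -/
theorem axis (hab : a * b = b * a) (x₀ : X) (nf : ∀ y : X, ¬ (a • y = y ∧ b • y = y)) :
    ∃ s : G → ℝ, (∀ p ∈ Subgroup.closure {a, b}, ∀ q ∈ Subgroup.closure {a, b},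
      s (p * q) = s p + s q) ∧ (∃ p ∈ Subgroup.closure {a, b}, 0 < s p) ∧
      ((∃ y, ∀ p ∈ Subgroup.closure {a, b}, Cmp C y (p • y) ∧ (0 < s p → Asc C y (p • y))) ∨
        ∃ m n, (∃ t ∈ Subgroup.closure {a, b}, s t = 1) ∧ ∀ q ∈ Subgroup.closure {a, b},
          (∃ k : ℤ, s q = k) ∧ (0 < s q ↔ Skew C up q m n) ∧
            (s q = 0 ↔ q • m = m ∧ q • n = n)) := by
  by_cases k : ∃ p ∈ Subgroup.closure {a, b}, ∃ m n, Skew C up p m n
  · obtain ⟨p, hp, m, n, e⟩ := k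
    obtain ⟨s, h1, ⟨t, ht, h2⟩, h3⟩ := zigzag h hab hp e
    exact ⟨s, h1, ⟨t, ht, h2 ▸ one_pos⟩, .inr ⟨m, n, ⟨t, ht, h2⟩, h3⟩⟩
  rcases cmp_two h hab x₀ with ⟨y, ca, cb⟩ | e | e
  · obtain ⟨s, h1, h2, h3⟩ := line h hab ca cb (nf y)
    exact ⟨s, h1, h2, .inl ⟨y, fun p hp => ⟨orbit_cmp h hab ca cb p hp, h3 p hp⟩⟩⟩
  · exact absurd ⟨a, Subgroup.subset_closure (.inl rfl), e⟩ k
  · exact absurd ⟨b, Subgroup.subset_closure (.inr rfl), e⟩ k

end

end Pool.Agent.Work.MP_3d425c_gt.To.Ax
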