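import Pool.Agent.Work.MP_3d425c_gt.Cy.U2

-- merged part: Pool.Agent.Work.MP_3d425c_gt.To.Om
section
/-! Oriented simply connected one-manifolds with a group action, no condition on the action. -/

namespace Pool.Agent.Work.MP_3d425c_gt.To
open Set Filter Topology Pool.Agent.Work.MP_3d425c_gt.Cy

structure Om (G : Type*) {X : Type*} [Group G] [MulAction G X] (C : Set (ℝ → X))
    (up : X → X → Prop) : Prop where
  cover : ∀ x, ∃ c ∈ C, ∃ t, c t = x
  smul : ∀ g : G, ∀ c ∈ C, (fun t => g • c t) ∈ C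
  conn : ∀ P : X → Prop, (∀ c ∈ C, ∀ s t, P (c s) → P (c t)) → ∀ x y, P x → P y
  opn' : ∀ c ∈ C, ∀ d ∈ C, IsOpen {u | ∃ v, c u = d v}
  upc' : ∀ c ∈ C, ∀ s t, up (c s) (c t) ↔ s < t
  upk' : ∀ c ∈ C, ∀ x, (∀ t, x ≠ c t) → ∀ s t, up x (c s) → up x (c t)
  ups : ∀ (g : G) x y, up x y → up (g • x) (g • y)
  sat : ∀ a, LocChart C a → a ∈ C

variable {G X : Type*} [Group G] [MulAction G X] {C : Set (ℝ → X)} {up : X → X → Prop}

theorem om_of_OM (h : OM G C up) : Om G C up :=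
  ⟨h.pre.cover, h.pre.smul, h.pre.conn, h.good.opn, h.good.upc, h.good.upk, h.good.ups, h.sat⟩

namespace Om
variable (h : Om G C up)
include h

theorem upc {c} (hc : c ∈ C) (s t : ℝ) : up (c s) (c t) ↔ s < t := h.upc' c hc s t

theorem upk {c} (hc : c ∈ C) {x} (hx : ∀ t, x ≠ c t) (s t : ℝ) : up x (c s) → up x (c t) :=
  h.upk' c hc x hx s t

theorem opn {c d} (hc : c ∈ C) (hd : d ∈ C) : IsOpen {u | ∃ v, c u = d v} :=
  h.opn' c hc d hd

theorem inj {c} (hc : c ∈ C) {s t : ℝ} (e : c s = c t) : s = t := by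
  rcases lt_trichotomy s t with hl | hl | hl
  · have h1 := (h.upc hc s t).2 hl
    rw [e] at h1
    exact absurd ((h.upc hc t t).1 h1) (lt_irrefl _)
  · exact hl
  · have h1 := (h.upc hc t s).2 hl
    rw [e] at h1
    exact absurd ((h.upc hc t t).1 h1) (lt_irrefl _)

theorem irr (x : X) : ¬ up x x := by
  obtain ⟨c, hc, t, rfl⟩ := h.cover x
  intro h1
  exact lt_irrefl _ ((h.upc hc t t).1 h1)

theorem ups_iff (g : G) (x y : X) : up (g • x) (g • y) ↔ up x y := by
  refine ⟨fun h1 => ?_, h.ups g x y⟩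
  have h2 := h.ups g⁻¹ _ _ h1
  simpa using h2

theorem mono {c} (hc : c ∈ C) {w} {s t : ℝ} (hst : s ≤ t) (hw : up w (c s)) : up w (c t) := by
  by_cases hw' : ∃ r, w = c r
  · obtain ⟨r, rfl⟩ := hw'
    exact (h.upc hc r t).2 (lt_of_lt_of_le ((h.upc hc r s).1 hw) hst)
  · exact h.upk hc (fun r hr => hw' ⟨r, hr⟩) s t hw

/-- Overlaps are convex. -/
theorem conv {c d} (hc : c ∈ C) (hd : d ∈ C) {u u' w v v' : ℝ} (e : c u = d v)
    (e' : c u' = d v') (h1 : u ≤ w) (h2 : w ≤ u') : ∃ z, v ≤ z ∧ z ≤ v' ∧ c w = d z := by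
  have hvv : v ≤ v' := by
    rcases (h1.trans h2).eq_or_lt with huu | huu
    · subst huu
      exact (h.inj hd (e.symm.trans e')).le
    · have h3 := (h.upc hc u u').2 huu
      rw [e, e'] at h3
      exact ((h.upc hd v v').1 h3).le
  rcases h1.eq_or_lt with h1 | h1
  · subst h1
    exact ⟨v, le_rfl, hvv, e⟩
  rcases h2.eq_or_lt with h2 | h2
  · subst h2
    exact ⟨v', hvv, le_rfl, e'⟩
  have a1 := (h.upc hc u w).2 h1
  have a2 := (h.upc hc w u').2 h2
  by_cases hz : ∃ z, c w = d z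
  · obtain ⟨z, hz⟩ := hz
    rw [e, hz] at a1
    rw [e', hz] at a2
    exact ⟨z, ((h.upc hd v z).1 a1).le, ((h.upc hd z v').1 a2).le, hz⟩
  · exfalso
    rw [e'] at a2
    have a3 := h.upk hd (fun r hr => hz ⟨r, hr⟩) v' v a2
    rw [← e] at a3
    exact lt_asymm h1 ((h.upc hc w u).1 a3)

theorem near {c d} (hc : c ∈ C) (hd : d ∈ C) {u v : ℝ} (e : c u = d v) {N : Set ℝ}
    (hN : N ∈ 𝓝 v) : ∀ᶠ u' in 𝓝 u, ∃ v' ∈ N, c u' = d v' := by
  have ho : {v | ∃ u, d v = c u} ∈ 𝓝 v := (h.opn hd hc).mem_nhds ⟨u, e.symm⟩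
  obtain ⟨ε, hε, hb⟩ := Metric.mem_nhds_iff.1 (inter_mem hN ho)
  have hin : ∀ z, v - ε / 2 ≤ z → z ≤ v + ε / 2 → z ∈ N ∩ {v | ∃ u, d v = c u} := by
    intro z hz1 hz2
    apply hb
    rw [Metric.mem_ball, Real.dist_eq, abs_lt]
    constructor <;> linarith
  obtain ⟨u1, e1⟩ := (hin (v - ε / 2) le_rfl (by linarith)).2
  obtain ⟨u2, e2⟩ := (hin (v + ε / 2) (by linarith) le_rfl).2
  have l1 : u1 < u := by
    have a := (h.upc hd (v - ε / 2) v).2 (by linarith)
    rw [e1, ← e] at a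
    exact (h.upc hc u1 u).1 a
  have l2 : u < u2 := by
    have a := (h.upc hd v (v + ε / 2)).2 (by linarith)
    rw [e2, ← e] at a
    exact (h.upc hc u u2).1 a
  filter_upwards [Ioo_mem_nhds l1 l2] with w hw
  obtain ⟨z, hz1, hz2, hz⟩ := h.conv hc hd e1.symm e2.symm hw.1.le hw.2.le
  exact ⟨z, (hin z hz1 hz2).1, hz⟩

theorem reparam {c} (hc : c ∈ C) {f : ℝ → ℝ} (hf : StrictMono f) (hf' : Continuous f) :
    (fun t => c (f t)) ∈ C := by
  apply h.sat
  intro t
  exact ⟨c, hc, f, 1, one_pos, hf.strictMonoOn _, hf'.continuousOn, fun _ _ => rfl⟩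

theorem shrink {c} (hc : c ∈ C) {u : ℝ} {N : Set ℝ} (hN : N ∈ 𝓝 u) :
    ∃ f : ℝ → ℝ, StrictMono f ∧ Continuous f ∧ f 0 = u ∧ ∀ t, f t ∈ N := by
  obtain ⟨ε, hε, hb⟩ := Metric.mem_nhds_iff.1 hN
  refine ⟨fun t => u + ε / 2 * Real.arctan t, ?_, ?_, by simp, ?_⟩
  · intro s t hst
    have := Real.arctan_strictMono hst
    have h2 : 0 < ε / 2 := by linarith
    show u + ε / 2 * Real.arctan s < u + ε / 2 * Real.arctan t
    nlinarith
  · exact continuous_const.add (continuous_const.mul Real.continuous_arctan)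
  · intro t
    apply hb
    have a1 := Real.arctan_lt_pi_div_two t
    have a2 := Real.neg_pi_div_two_lt_arctan t
    have a3 := Real.pi_le_four
    rw [Metric.mem_ball, Real.dist_eq, abs_lt]
    constructor <;> nlinarith

/-- Separation: if `x` is outside the closed upper side of `n` and `y` is inside, then `x`
sees `y` and `n` on the same side. Hint: the set of bad `y` is closed along charts (`conn`). -/
theorem sep {x y n : X} (h1 : ¬ up n x) (h2 : x ≠ n) (hy : up n y ∨ y = n) :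
    up x y ↔ up x n := by
  refine h.conn (fun y => (up n y ∨ y = n) → (up x y ↔ up x n)) ?_ n y
    (fun _ => Iff.rfl) hy
  intro c hc s t hs ht
  by_cases hn : ∃ r, n = c r
  · obtain ⟨r, rfl⟩ := hn
    have hrt : r ≤ t := by
      rcases ht with ht | ht
      · exact ((h.upc hc r t).1 ht).le
      · exact (h.inj hc ht).ge
    by_cases hx : ∃ q, x = c q
    · obtain ⟨q, rfl⟩ := hx
      have hq : q < r := by
        rcases lt_trichotomy q r with a | a | a
        · exact a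
        · exact absurd (congrArg c a) h2
        · exact absurd ((h.upc hc r q).2 a) h1
      exact iff_of_true ((h.upc hc q t).2 (lt_of_lt_of_le hq hrt)) ((h.upc hc q r).2 hq)
    · have hx' : ∀ q, x ≠ c q := fun q hq => hx ⟨q, hq⟩
      exact ⟨h.upk hc hx' t r, h.upk hc hx' r t⟩
  · have hn' : ∀ q, n ≠ c q := fun q hq => hn ⟨q, hq⟩
    have ht' : up n (c t) := ht.resolve_right (fun a => hn' t a.symm)
    have hx' : ∀ q, x ≠ c q := by
      rintro q rfl
      exact h1 (h.upk hc hn' t q ht')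
    have := hs (Or.inl (h.upk hc hn' t s ht'))
    exact ⟨fun a => this.1 (h.upk hc hx' t s a), fun a => h.upk hc hx' s t (this.2 a)⟩

/-- The dual separation lemma. -/
theorem sep' {x y n : X} (h1 : up n x) (hy : ¬ up n y) : up x y ↔ up x n := by
  refine h.conn (fun y => ¬ up n y → (up x y ↔ up x n)) ?_ n y (fun _ => Iff.rfl) hy
  intro c hc s t hs ht
  by_cases hn : ∃ r, n = c r
  · obtain ⟨r, rfl⟩ := hn
    have hrt : t ≤ r := le_of_not_gt (fun a => ht ((h.upc hc r t).2 a))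
    by_cases hx : ∃ q, x = c q
    · obtain ⟨q, rfl⟩ := hx
      have hq : r < q := (h.upc hc r q).1 h1
      refine iff_of_false (fun a => ?_) (fun a => ?_)
      · have := (h.upc hc q t).1 a
        linarith
      · have := (h.upc hc q r).1 a
        linarith
    · have hx' : ∀ q, x ≠ c q := fun q hq => hx ⟨q, hq⟩
      exact ⟨h.upk hc hx' t r, h.upk hc hx' r t⟩
  · have hn' : ∀ q, n ≠ c q := fun q hq => hn ⟨q, hq⟩
    have hx' : ∀ q, x ≠ c q := by
      rintro q rfl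
      exact ht (h.upk hc hn' q t h1)
    have := hs (fun a => ht (h.upk hc hn' s t a))
    exact ⟨fun a => this.1 (h.upk hc hx' t s a), fun a => h.upk hc hx' s t (this.2 a)⟩

theorem sub {x y z : X} (h1 : up x y) (h2 : ¬ up y x) (h3 : up y z) : up x z := by
  have hne : x ≠ y := by
    rintro rfl
    exact h2 h1
  exact (h.sep h2 hne (Or.inl h3)).2 h1

theorem disj {x y z : X} (h1 : ¬ up x y) (h2 : ¬ up y x) (hne : x ≠ y) (hx : up x z ∨ z = x)
    (hy : up y z ∨ z = y) : False := by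
  have a := h.sep h2 hne hy
  rcases hx with hx | hx
  · exact h1 (a.1 hx)
  · subst hx
    rcases hy with hy | hy
    · exact h2 hy
    · exact hne hy

theorem asc {x y : X} (hxy : Relation.TransGen (Asc C) x y) : up x y ∧ ¬ up y x := by
  have one : ∀ a b, Asc C a b → up a b ∧ ¬ up b a := by
    rintro a b ⟨c, hc, s, t, hst, rfl, rfl⟩
    exact ⟨(h.upc hc s t).2 hst, fun a => lt_asymm hst ((h.upc hc t s).1 a)⟩
  induction hxy with
  | single a => exact one _ _ a
  | tail _ a ih =>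
    have b := one _ _ a
    exact ⟨h.sub ih.1 ih.2 b.1, fun c => ih.2 (h.sub b.1 b.2 c)⟩

theorem objB_shift {c} (hc : c ∈ C) (t : ℝ) : (fun u => c (t + u)) ∈ C :=
  h.reparam hc (f := fun u => t + u) (fun _ _ e => by linarith) (continuous_const.add continuous_id)

/-- General splice. -/
theorem splice {c e} (hc : c ∈ C) (he : e ∈ C)
    (h1 : ∃ ε > 0, ∀ u ∈ Ioo (-ε) (0 : ℝ), ∃ w < 0, c u = e w)
    (h2 : ∀ w < (0 : ℝ), ∃ u < 0, ∃ w', w < w' ∧ c u = e w') :
    (fun u => if u < 0 then c u else e u) ∈ C := by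
  classical
  obtain ⟨ε, hε, h1⟩ := h1
  choose! φ hφ0 hφ using h1
  have hm : ∀ u ∈ Ioo (-ε) (0 : ℝ), ∀ u' w', u' < u → c u' = e w' → w' < φ u := by
    intro u hu u' w' huu hw
    have a := (h.upc hc u' u).2 huu
    rw [hw, hφ u hu] at a
    exact (h.upc he _ _).1 a
  refine h.sat _ fun t => ?_
  rcases lt_trichotomy t 0 with ht | rfl | ht
  · refine ⟨c, hc, id, -t, by linarith, strictMonoOn_id, continuousOn_id, fun u hu => ?_⟩
    exact if_pos (by linarith [hu.2])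
  · refine ⟨e, he, fun u => if u < 0 then φ u else u, ε, hε, ?_, ?_, ?_⟩
    · intro u hu u' hu' huu
      rw [zero_sub, zero_add] at hu hu'
      by_cases a : u < 0
      · by_cases a' : u' < 0
        · simp only [if_pos a, if_pos a']
          exact hm u' ⟨hu'.1, a'⟩ u _ huu (hφ u ⟨hu.1, a⟩)
        · simp only [if_pos a, if_neg a']
          exact (hφ0 u ⟨hu.1, a⟩).trans_le (not_lt.1 a')
      · have a' : ¬ u' < 0 := fun a' => a (huu.trans a')
        simp only [if_neg a, if_neg a']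
        exact huu
    · intro u hu
      rw [zero_sub, zero_add] at hu
      refine ContinuousAt.continuousWithinAt ?_
      rcases lt_trichotomy u 0 with a | rfl | a
      · intro N hN
        simp only [if_pos a] at hN
        have b := h.near hc he (hφ u ⟨hu.1, a⟩) hN
        rw [mem_map]
        filter_upwards [b, Ioo_mem_nhds hu.1 a] with u' b1 b2
        obtain ⟨v', b3, b4⟩ := b1
        have b5 : φ u' = v' := h.inj he ((hφ u' b2).symm.trans b4)
        simp only [mem_preimage, if_pos b2.2, b5]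
        exact b3
      · intro N hN
        simp only [lt_irrefl, if_false] at hN
        obtain ⟨l, r, ⟨b1, b2⟩, b3⟩ := mem_nhds_iff_exists_Ioo_subset.1 hN
        obtain ⟨u0, b4, w', b5, b6⟩ := h2 l b1
        rw [mem_map]
        filter_upwards [Ioo_mem_nhds (max_lt b4 hu.1) b2] with u' b7
        refine b3 ?_
        by_cases a : u' < 0
        · have b8 : u' ∈ Ioo (-ε) (0 : ℝ) := ⟨(le_max_right _ _).trans_lt b7.1, a⟩
          simp only [if_pos a]
          exact ⟨b5.trans (hm u' b8 u0 w' ((le_max_left _ _).trans_lt b7.1) b6),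
            (hφ0 u' b8).trans b2⟩
        · simp only [if_neg a]
          exact ⟨b1.trans_le (not_lt.1 a), b7.2⟩
      · refine continuousAt_id.congr ?_
        filter_upwards [Ioi_mem_nhds a] with u' b
        exact (if_neg (not_lt.2 (le_of_lt b))).symm
    · intro u hu
      rw [zero_sub, zero_add] at hu
      by_cases a : u < 0
      · simp only [if_pos a]
        exact hφ u ⟨hu.1, a⟩
      · simp only [if_neg a]
  · refine ⟨e, he, id, t, ht, strictMonoOn_id, continuousOn_id, fun u hu => ?_⟩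
    exact if_neg (not_lt.2 (by linarith [hu.1]))

theorem lg_refl (x : X) : LG C x x := by
  obtain ⟨c, hc, t, rfl⟩ := h.cover x
  have a := h.objB_shift hc t
  exact ⟨_, a, _, a, by simp only [add_zero], by simp only [add_zero], fun _ _ => rfl⟩

omit h in
theorem lg_symm {x y : X} (hxy : LG C x y) : LG C y x := by
  obtain ⟨c, hc, d, hd, h1, h2, h3⟩ := hxy
  exact ⟨d, hd, c, hc, h2, h1, fun u hu => (h3 u hu).symm⟩

theorem lg_smul (g : G) {x y : X} (hxy : LG C x y) : LG C (g • x) (g • y) := by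
  obtain ⟨c, hc, d, hd, h1, h2, h3⟩ := hxy
  exact ⟨_, h.smul g c hc, _, h.smul g d hd, congrArg (g • ·) h1, congrArg (g • ·) h2,
    fun u hu => congrArg (g • ·) (h3 u hu)⟩

theorem lg_near {c d} (hc : c ∈ C) (hd : d ∈ C) {u v : ℝ} (e : LG C (c u) (d v)) {N : Set ℝ}
    (hN : N ∈ 𝓝 v) : ∀ᶠ u' in 𝓝[<] u, ∃ v' ∈ N, v' < v ∧ c u' = d v' := by
  obtain ⟨c1, hc1, d1, hd1, h1, h2, h3⟩ := e
  have a := h.near hc hc1 h1.symm (h.near hd1 hd h2 hN)
  filter_upwards [nhdsWithin_le_nhds a, self_mem_nhdsWithin] with u' b1 b2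
  obtain ⟨s, ⟨v', b3, b4⟩, b5⟩ := b1
  have b6 : s < 0 := by
    have := (h.upc hc u' u).2 b2
    rw [b5, ← h1] at this
    exact (h.upc hc1 _ _).1 this
  refine ⟨v', b3, ?_, b5.trans ((h3 s b6).trans b4)⟩
  have := (h.upc hd1 s 0).2 b6
  rw [b4, h2] at this
  exact (h.upc hd _ _).1 this

theorem lg_splice {c d} (hc : c ∈ C) (hd : d ∈ C) {s t : ℝ} (e : LG C (c s) (d t)) :
    ∃ a ∈ C, (∀ u < 0, a u = c (s + u)) ∧ ∀ u ≥ 0, a u = d (t + u) := by
  refine ⟨_, h.splice (h.objB_shift hc s) (h.objB_shift hd t) ?_ ?_, fun u hu => if_pos hu,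
    fun u hu => if_neg (not_lt.2 hu)⟩
  · obtain ⟨l, a1, a2⟩ := mem_nhdsLT_iff_exists_Ioo_subset.1 (h.lg_near hc hd e univ_mem)
    have a3 : l < s := a1
    refine ⟨s - l, by linarith, fun u hu => ?_⟩
    obtain ⟨v', -, b1, b2⟩ := a2 (show s + u ∈ Ioo l s from ⟨by linarith [hu.1], by linarith [hu.2]⟩)
    exact ⟨v' - t, by linarith, by rw [b2, add_sub_cancel]⟩
  · intro w hw
    obtain ⟨u', ⟨v', b1, -, b2⟩, b3⟩ := ((h.lg_near hc hd e
      (Ioi_mem_nhds (show t + w < t by linarith))).and self_mem_nhdsWithin).exists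
    have b4 : t + w < v' := b1
    have b5 : u' < s := b3
    exact ⟨u' - s, by linarith, v' - t, by linarith, by rw [add_sub_cancel, add_sub_cancel, b2]⟩

theorem lg_trans {x y z : X} (hxy : LG C x y) (hyz : LG C y z) : LG C x z := by
  obtain ⟨c, hc, d, hd, h1, h2, h3⟩ := hxy
  obtain ⟨d', hd', t, rfl⟩ := h.cover z
  obtain ⟨a, ha, a1, a2⟩ := h.lg_splice hd hd' (h2 ▸ hyz)
  refine ⟨c, hc, a, ha, h1, by rw [a2 0 le_rfl, add_zero], fun u hu => ?_⟩
  rw [a1 u hu, zero_add, h3 u hu]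

theorem lg_not_up {x y : X} (hxy : LG C x y) : ¬ up x y := by
  obtain ⟨c, hc, d, hd, rfl, rfl, h3⟩ := hxy
  intro hu
  by_cases a : ∃ t, c 0 = d t
  · obtain ⟨t, ht⟩ := a
    have b : t < 0 := (h.upc hd _ _).1 (ht ▸ hu)
    exact b.ne' (h.inj hc (ht.trans (h3 t b).symm))
  · have b := h.upk hd (fun t e => a ⟨t, e⟩) 0 (-1) hu
    rw [← h3 (-1) (by norm_num)] at b
    linarith [(h.upc hc _ _).1 b]

theorem lg_up {x y w : X} (hxy : LG C x y) (hw : up w x) : up w y := by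
  obtain ⟨c, hc, d, hd, rfl, rfl, h3⟩ := hxy
  by_cases a : ∃ t, w = c t
  · obtain ⟨t, rfl⟩ := a
    have b : t < 0 := (h.upc hc _ _).1 hw
    rw [h3 t b]
    exact (h.upc hd _ _).2 b
  · have b := h.upk hc (fun t e => a ⟨t, e⟩) 0 (-1) hw
    rw [h3 (-1) (by norm_num)] at b
    exact h.mono hd (by norm_num) b

/-- Cut lemma. Hint: the set of `z` above every `c t` with `t < v` and outside the closed upper
side of every point not separated from `c v` is closed along charts. -/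
theorem cut {c} (hc : c ∈ C) {v : ℝ} {x : X} (hx : ∀ t < v, up (c t) x) :
    ∃ μ, LG C μ (c v) ∧ (up μ x ∨ x = μ) := by
  by_contra hn
  have key := h.conn (fun z => (∀ t < v, up (c t) z) ∧
      ¬ ∃ μ, LG C μ (c v) ∧ (up μ z ∨ z = μ)) (fun d hd s s' hP => ?_) x (c (v - 1)) ⟨hx, hn⟩
  · exact h.irr _ (key.1 (v - 1) (by linarith))
  obtain ⟨p1, p2⟩ := hP
  by_cases a : ∃ t0 < v, ∃ r0, c t0 = d r0
  · exfalso
    obtain ⟨t0, a1, r0, a2⟩ := a
    have b : ∀ t ∈ Ico t0 v, ∃ r, c t = d r := by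
      intro t ht
      by_contra hr
      have b1 := h.upk hd (fun r e => hr ⟨r, e⟩) s r0 (p1 t ht.2)
      rw [← a2] at b1
      exact ht.1.not_gt ((h.upc hc _ _).1 b1)
    choose! φ hφ using b
    have b2 : ∀ t ∈ Ico t0 v, φ t ≤ s := fun t ht =>
      ((h.upc hd _ _).1 (hφ t ht ▸ p1 t ht.2)).le
    have b3 : BddAbove (φ '' Ico t0 v) := ⟨s, forall_mem_image.2 b2⟩
    have b4 : (φ '' Ico t0 v).Nonempty := ⟨_, t0, ⟨le_rfl, a1⟩, rfl⟩
    have b5 : sSup (φ '' Ico t0 v) ≤ s := csSup_le b4 (forall_mem_image.2 b2)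
    have b6 := h.splice (h.objB_shift hc v) (h.objB_shift hd (sSup (φ '' Ico t0 v)))
      ⟨v - t0, by linarith, fun u hu => by
        have c1 : v + u ∈ Ico t0 v := ⟨by linarith [hu.1], by linarith [hu.2]⟩
        have c2 : v + u / 2 ∈ Ico t0 v := ⟨by linarith [hu.1, hu.2], by linarith [hu.2]⟩
        have c3 := (h.upc hc (v + u) (v + u / 2)).2 (by linarith [hu.2])
        rw [hφ _ c1, hφ _ c2] at c3
        have c4 := (h.upc hd _ _).1 c3
        have c5 := le_csSup b3 ⟨_, c2, rfl⟩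
        exact ⟨φ (v + u) - sSup (φ '' Ico t0 v), by linarith, by rw [add_sub_cancel, hφ _ c1]⟩⟩
      fun w hw => by
        obtain ⟨_, ⟨t, c1, rfl⟩, c2⟩ := exists_lt_of_lt_csSup b4
          (show sSup (φ '' Ico t0 v) + w < sSup (φ '' Ico t0 v) by linarith)
        exact ⟨t - v, by linarith [c1.2], φ t - sSup (φ '' Ico t0 v), by linarith,
          by rw [add_sub_cancel, add_sub_cancel, hφ t c1]⟩
    refine p2 ⟨d (sSup (φ '' Ico t0 v)), ⟨_, b6, _, h.objB_shift hc v, ?_, ?_,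
      fun u hu => if_pos hu⟩, ?_⟩
    · simp only [lt_irrefl, if_false, add_zero]
    · simp only [add_zero]
    · rcases b5.eq_or_lt with e | e
      · exact .inr (by rw [e])
      · exact .inl ((h.upc hd _ _).2 e)
  · refine ⟨fun t ht => h.upk hd (fun r e => a ⟨t, ht, r, e⟩) s s' (p1 t ht), ?_⟩
    rintro ⟨μ, b1, b2⟩
    have b3 : ∀ r, μ ≠ d r := by
      rintro r rfl
      obtain ⟨u', v', -, c1, c2⟩ := (h.lg_near hd hc b1 univ_mem).exists
      exact a ⟨v', c1, u', c2.symm⟩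
    rcases b2 with b2 | b2
    · exact p2 ⟨μ, b1, .inl (h.upk hd b3 s' s b2)⟩
    · exact b3 s' b2.symm

theorem dual : Om G (dualC C) (dualU up) := by
  have k0 : ∀ c ∈ dualC C, ∀ s t, up (c s) (c t) ↔ t < s := fun c hc s t => by
    have := h.upc hc (-s) (-t)
    simpa only [neg_neg, neg_lt_neg_iff] using this
  refine ⟨fun x => ?_, fun g a ha => h.smul g _ ha, fun P k => h.conn P fun c hc s t => ?_,
    fun c hc d hd => ?_, fun c hc s t => ?_, fun c hc x hx s t q => ?_, fun g x y q => ?_,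
    fun a k => h.sat _ fun t => ?_⟩
  · obtain ⟨c, hc, t, rfl⟩ := h.cover x
    exact ⟨_, oc_neg hc, -t, by simp only [neg_neg]⟩
  · simpa only [neg_neg] using k _ (oc_neg hc) (-s) (-t)
  · have e : {u | ∃ v, c u = d v} = Neg.neg ⁻¹' {u | ∃ v, c (-u) = d (-v)} := by
      ext u
      refine ⟨fun ⟨v, k⟩ => ⟨-v, ?_⟩, fun ⟨v, k⟩ => ⟨-v, ?_⟩⟩
      · rwa [neg_neg, neg_neg]
      · rwa [neg_neg] at k
    rw [e]
    exact (h.opn hc hd).preimage continuous_neg
  · refine ⟨fun q => ?_, fun q => ⟨fun a => lt_asymm q ((k0 c hc s t).1 a), fun a => ?_⟩⟩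
    · refine lt_of_le_of_ne (not_lt.1 fun a => q.1 ((k0 c hc s t).2 a)) ?_
      rintro rfl
      exact q.2 rfl
    · exact lt_irrefl t ((k0 c hc t t).1 (a ▸ (k0 c hc t s).2 q))
  · refine ⟨fun a => q.1 ?_, hx t⟩
    have := h.upk hc (x := x) (fun t => hx (-t)) (-t) (-s)
    simp only [neg_neg] at this
    exact this a
  · exact ⟨fun a => q.1 ((h.ups_iff g _ _).1 a), fun a => q.2 (smul_left_cancel g a)⟩
  · obtain ⟨d, hd, f, ε, hε, h1, h2, h3⟩ := k (-t)
    have m : MapsTo Neg.neg (Ioo (t - ε) (t + ε)) (Ioo (-t - ε) (-t + ε)) := fun u q =>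
      ⟨by linarith [q.2], by linarith [q.1]⟩
    refine ⟨_, hd, fun u => -f (-u), ε, hε,
      fun u a v b q => neg_lt_neg (h1 (m b) (m a) (neg_lt_neg q)),
      (h2.comp continuous_neg.continuousOn m).neg, fun u q => ?_⟩
    simp only [neg_neg]
    exact h3 _ (m q)

end Om

end Pool.Agent.Work.MP_3d425c_gt.To
end

-- merged part: Pool.Agent.Work.MP_3d425c_gt.To.AxA
section
/-! Comparable points, branching, and elements that skewer a pair of non separated points. -/

namespace Pool.Agent.Work.MP_3d425c_gt.To.Ax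
open Set Filter Topology Pool.Agent.Work.MP_3d425c_gt.Cy

variable {G X : Type*} [Group G] [MulAction G X] {C : Set (ℝ → X)} {up : X → X → Prop}

/-- below or equal -/
def Le (C : Set (ℝ → X)) (x y : X) : Prop := x = y ∨ Asc C x y

/-- comparable -/
def Cmp (C : Set (ℝ → X)) (x y : X) : Prop := Le C x y ∨ Le C y x

/-- closed upper side -/
def Uc (up : X → X → Prop) (n x : X) : Prop := up n x ∨ x = n

/-- the closed upper side of `y` lies in the open upper side of `x` -/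
def Nest (up : X → X → Prop) (x y : X) : Prop := up x y ∧ ¬ up y x

/-- `p` skewers the pair `m`, `n` -/
structure Skew (C : Set (ℝ → X)) (up : X → X → Prop) (p : G) (m n : X) : Prop where
  lg : LG C m n
  ne : m ≠ n
  un : up n (p • n)
  um : up (p • m) m

theorem Cmp.symm {x y : X} (e : Cmp C x y) : Cmp C y x := Or.symm e

theorem cmp_refl (x : X) : Cmp C x x := Or.inl (Or.inl rfl)

theorem asc_dual {x y : X} : Asc (dualC C) x y ↔ Asc C y x := by
  constructor
  · rintro ⟨c, hc, s, t, st, rfl, rfl⟩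
    exact ⟨_, hc, -t, -s, neg_lt_neg st, by simp only [neg_neg], by simp only [neg_neg]⟩
  · rintro ⟨c, hc, s, t, st, rfl, rfl⟩
    exact ⟨_, oc_neg hc, -t, -s, neg_lt_neg st, by simp only [neg_neg], by simp only [neg_neg]⟩

theorem cmp_dual : Cmp (dualC C) = Cmp C := by
  funext x y
  simp only [Cmp, Le, asc_dual, eq_iff_iff]
  constructor <;> rintro ((e | e) | e | e)
  exacts [.inl (.inl e), .inr (.inr e), .inr (.inl e), .inl (.inr e), .inl (.inl e),
    .inr (.inr e), .inr (.inl e), .inl (.inr e)]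

section
variable (h : Om G C up)
include h

omit h in
theorem cmp_chart {c : ℝ → X} (hc : c ∈ C) (s t : ℝ) : Cmp C (c s) (c t) := by
  rcases lt_trichotomy s t with e | rfl | e
  exacts [.inl (.inr ⟨c, hc, s, t, e, rfl, rfl⟩), cmp_refl _, .inr (.inr ⟨c, hc, t, s, e, rfl, rfl⟩)]

theorem asc_lg {z m n : X} (e : Asc C z m) (l : LG C m n) : Asc C z n := by
  obtain ⟨c, hc, s, t, st, rfl, rfl⟩ := e
  obtain ⟨d, hd, v, rfl⟩ := h.cover n
  obtain ⟨a, ha, h1, h2⟩ := h.lg_splice hc hd l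
  exact ⟨a, ha, s - t, 0, by linarith, by rw [h1 _ (by linarith), add_sub_cancel],
    by rw [h2 _ le_rfl, add_zero]⟩

/-- three ascending points lie in one chart -/
theorem asc_three {x y z : X} (e : Asc C x y) (e' : Asc C y z) :
    ∃ a ∈ C, ∃ s t : ℝ, s < 0 ∧ 0 < t ∧ a s = x ∧ a 0 = y ∧ a t = z := by
  obtain ⟨c, hc, s, t, st, rfl, rfl⟩ := e
  obtain ⟨d, hd, s', t', st', e, rfl⟩ := e'
  obtain ⟨a, ha, h1, h2⟩ := h.lg_splice hc hd (s := t) (t := s') (e ▸ h.lg_refl _)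
  exact ⟨a, ha, s - t, t' - s', by linarith, by linarith,
    by rw [h1 _ (by linarith), add_sub_cancel], by rw [h2 _ le_rfl, add_zero, e],
    by rw [h2 _ (by linarith), add_sub_cancel]⟩

theorem asc_trans {x y z : X} (e : Asc C x y) (e' : Asc C y z) : Asc C x z := by
  obtain ⟨a, ha, s, t, h1, h2, rfl, -, rfl⟩ := asc_three h e e'
  exact ⟨a, ha, s, t, h1.trans h2, rfl, rfl⟩

theorem asc_le {x y z : X} (e : Asc C x y) (e' : Le C y z) : Asc C x z :=
  e'.elim (fun q => q ▸ e) (asc_trans h e)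

theorem le_asc {x y z : X} (e : Le C x y) (e' : Asc C y z) : Asc C x z :=
  e.elim (fun q => q ▸ e') fun q => asc_trans h q e'

theorem le_tr {x y z : X} (e : Le C x y) (e' : Le C y z) : Le C x z :=
  e.elim (fun q => q ▸ e') fun q => .inr (asc_le h q e')

theorem asc_nest {x y : X} (e : Asc C x y) : Nest up x y := h.asc (.single e)

theorem asc_irr (x : X) : ¬ Asc C x x := fun e => h.irr x (asc_nest h e).1

theorem le_anti {x y : X} (e : Le C x y) (e' : Le C y x) : x = y :=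
  e.elim id fun q => absurd (asc_le h q e') (asc_irr h x)

theorem asc_smul (g : G) {x y : X} (e : Asc C x y) : Asc C (g • x) (g • y) := by
  obtain ⟨c, hc, s, t, st, rfl, rfl⟩ := e
  exact ⟨_, h.smul g c hc, s, t, st, rfl, rfl⟩

theorem le_smul (g : G) {x y : X} (e : Le C x y) : Le C (g • x) (g • y) :=
  e.imp (congrArg _) (asc_smul h g)

theorem cmp_smul (g : G) {x y : X} (e : Cmp C x y) : Cmp C (g • x) (g • y) :=
  e.imp (le_smul h g) (le_smul h g)

theorem uc_smul (g : G) {n x : X} (e : Uc up n x) : Uc up (g • n) (g • x) :=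
  e.imp (h.ups g _ _) (congrArg _)

theorem uc_asc {n x y : X} (e : Uc up n x) (e' : Asc C x y) : up n y := by
  rcases e with e | rfl
  · obtain ⟨c, hc, s, t, st, rfl, rfl⟩ := e'
    exact h.mono hc st.le e
  · exact (asc_nest h e').1

theorem uc_le {n x y : X} (e : Uc up n x) (e' : Le C x y) : Uc up n y :=
  e'.elim (fun q => q ▸ e) fun q => .inl (uc_asc h e q)

theorem le_uc {n x : X} (e : Le C n x) : Uc up n x := uc_le h (.inr rfl) e

theorem asc_not_uc {z n : X} (e : Asc C z n) : ¬ Uc up n z := fun q =>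
  h.irr n (uc_asc h q e)

theorem lg_disj {m n x : X} (l : LG C m n) (hm : Uc up m x) (hn : Uc up n x) : m = n :=
  by_contra fun q => h.disj (h.lg_not_up l) (h.lg_not_up (Om.lg_symm l)) q hm hn

/-- an ascending step enters a closed upper side through its boundary point -/
theorem enter {n x y : X} (e : Asc C x y) (hx : ¬ Uc up n x) (hy : Uc up n y) :
    Asc C x n ∧ Le C n y := by
  obtain ⟨c, hc, s, t, st, rfl, rfl⟩ := e
  by_cases q : ∃ r, n = c r
  · obtain ⟨r, rfl⟩ := q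
    have h1 : s < r := by
      by_contra k
      rcases (not_lt.1 k).eq_or_lt with k | k
      exacts [hx (.inr (by rw [k])), hx (.inl ((h.upc hc _ _).2 k))]
    refine ⟨⟨c, hc, s, r, h1, rfl, rfl⟩, ?_⟩
    rcases hy with k | k
    exacts [.inr ⟨c, hc, r, t, (h.upc hc _ _).1 k, rfl, rfl⟩, .inl k.symm]
  · rcases hy with k | k
    · exact absurd (.inl (h.upk hc (fun r e => q ⟨r, e⟩) t s k)) hx
    · exact absurd ⟨t, k.symm⟩ q

/-- segments are chains -/
theorem seg {u v z z' : X} (h1 : Le C u z) (h2 : Le C z v) (h3 : Le C u z') (h4 : Le C z' v) :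
    Cmp C z z' := by
  rcases h1 with rfl | h1
  · exact .inl h3
  rcases h2 with rfl | h2
  · exact .inr h4
  rcases h3 with rfl | h3
  · exact .inr (.inr h1)
  rcases h4 with rfl | h4
  · exact .inl (.inr h2)
  obtain ⟨a, ha, s, t, s0, t0, rfl, rfl, rfl⟩ := asc_three h h1 h2
  obtain ⟨b, hb, s', t', -, -, e1, rfl, e2⟩ := asc_three h h3 h4
  obtain ⟨w, -, -, e⟩ := h.conv ha hb e1.symm e2.symm s0.le t0.le
  rw [e]
  exact cmp_chart hb _ _

/-- two ascending steps from one point with incomparable ends branch -/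
theorem branch {z u v : X} (h1 : Asc C z u) (h2 : Asc C z v) (hn : ¬ Cmp C u v) :
    ∃ m n, LG C m n ∧ m ≠ n ∧ Asc C z m ∧ Le C m u ∧ Asc C z n ∧ Le C n v := by
  obtain ⟨c, hc, s, t, st, rfl, rfl⟩ := h1
  have h2' := h2
  obtain ⟨d, hd, s', t', st', e, rfl⟩ := h2'
  have cl : IsClosed ({w | ∃ v, c w = d v}ᶜ ∩ Icc s t) :=
    (h.opn hc hd).isClosed_compl.inter isClosed_Icc
  have tm : t ∈ {w | ∃ v, c w = d v}ᶜ ∩ Icc s t :=
    ⟨fun ⟨v, q⟩ => hn (q ▸ cmp_chart hd _ _), st.le, le_rfl⟩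
  obtain ⟨w, ⟨⟨w1, w2, w3⟩, w4⟩⟩ : ∃ w, IsLeast ({w | ∃ v, c w = d v}ᶜ ∩ Icc s t) w :=
    ⟨_, cl.isLeast_csInf ⟨t, tm⟩ ⟨s, fun _ q => q.2.1⟩⟩
  have sw : s < w := lt_of_le_of_ne w2 fun q => w1 ⟨s', q ▸ e.symm⟩
  have zm : Asc C (c s) (c w) := ⟨c, hc, s, w, sw, rfl, rfl⟩
  obtain ⟨μ, l, hμ⟩ := h.cut hc (v := w) (x := d t') fun r hr => by
    rcases lt_or_ge r s with q | q
    · exact (asc_nest h (asc_trans h ⟨c, hc, r, s, q, rfl, rfl⟩ h2)).1
    · obtain ⟨v, ev⟩ : ∃ v, c r = d v := by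
        by_contra k
        exact (w4 ⟨k, q, hr.le.trans w3⟩).not_gt hr
      rw [ev]
      refine (h.upc hd _ _).2 (lt_of_not_ge fun k => hn ?_)
      obtain ⟨y, -, -, ey⟩ := h.conv hd hc e ev.symm st'.le k
      rw [ey]
      exact cmp_chart hc _ _
  have zn := asc_lg h zm (Om.lg_symm l)
  have k := enter h h2 (asc_not_uc h zn) hμ
  refine ⟨c w, μ, Om.lg_symm l, fun q => w1 ?_, zm, ?_, zn, k.2⟩
  · rcases k.2 with k2 | k2
    · exact ⟨t', q.trans k2⟩
    · obtain ⟨a, ha, s1, t1, s0, t0, e1, e2, e3⟩ := asc_three h zn k2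
      obtain ⟨y, -, -, ey⟩ := h.conv ha hd (e1.trans e.symm) e3 s0.le t0.le
      exact ⟨y, q.trans (e2.symm.trans ey)⟩
  · rcases w3.eq_or_lt with q | q
    exacts [.inl (by rw [q]), .inr ⟨c, hc, w, t, q, rfl, rfl⟩]

/-- a point just below `n` -/
theorem germ {z z' n : X} (h1 : Asc C z n) (h2 : Asc C z' n) :
    ∃ w, Asc C z w ∧ Asc C z' w ∧ Asc C w n := by
  obtain ⟨c, hc, s, t, st, rfl, rfl⟩ := h1
  obtain ⟨d, hd, s', t', st', rfl, e⟩ := h2
  have k : ∀ᶠ u in 𝓝[<] t, (∃ v ∈ Ioi s', c u = d v) ∧ u ∈ Ioo s t :=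
    ((h.near hc hd e.symm (Ioi_mem_nhds st')).filter_mono nhdsWithin_le_nhds).and
      (Ioo_mem_nhdsLT st)
  obtain ⟨u, ⟨v, hv, ev⟩, u1, u2⟩ := k.exists
  exact ⟨c u, ⟨c, hc, s, u, u1, rfl, rfl⟩, ⟨d, hd, s', v, hv, rfl, ev.symm⟩, c, hc, u, t, u2, rfl, rfl⟩

/-- a point just below `m` that is comparable with its image -/
theorem germ_fix {z m : X} {a : G} (h1 : Asc C z m) (l : LG C (a • m) m) :
    ∃ w, Asc C z w ∧ Asc C w m ∧ Cmp C w (a • w) := by
  obtain ⟨c, hc, s, t, st, rfl, rfl⟩ := h1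
  have k : ∀ᶠ u in 𝓝[<] t, (∃ v ∈ univ, v < t ∧ a • c u = c v) ∧ u ∈ Ioo s t :=
    (h.lg_near (h.smul a c hc) hc l univ_mem).and (Ioo_mem_nhdsLT st)
  obtain ⟨u, ⟨v, -, -, ev⟩, u1, u2⟩ := k.exists
  exact ⟨c u, ⟨c, hc, s, u, u1, rfl, rfl⟩, ⟨c, hc, u, t, u2, rfl, rfl⟩, ev ▸ cmp_chart hc _ _⟩

theorem Nest.sub {x y z : X} (e : Nest up x y) (hz : Uc up y z) : up x z :=
  hz.elim (h.sub e.1 e.2) fun q => q ▸ e.1

theorem Nest.trans {x y z : X} (e : Nest up x y) (e' : Nest up y z) : Nest up x z :=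
  ⟨h.sub e.1 e.2 e'.1, fun q => e.2 (h.sub e'.1 e'.2 q)⟩

theorem Nest.smul (g : G) {x y : X} (e : Nest up x y) : Nest up (g • x) (g • y) :=
  ⟨h.ups g _ _ e.1, fun q => e.2 ((h.ups_iff g _ _).1 q)⟩

theorem Nest.pow {p : G} {x : X} (e : Nest up x (p • x)) (k : ℕ) : Nest up x (p ^ (k + 1) • x) := by
  induction k with
  | zero => simpa using e
  | succ k ih =>
    rw [pow_succ', mul_smul]
    exact e.trans h (ih.smul h p)

variable {p : G} {m n : X}

theorem Skew.inv (s : Skew C up p m n) : Skew C up p⁻¹ n m :=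
  ⟨Om.lg_symm s.lg, s.ne.symm, by simpa using h.ups p⁻¹ _ _ s.um,
    by simpa using h.ups p⁻¹ _ _ s.un⟩

theorem Skew.nest (s : Skew C up p m n) : Nest up n (p • n) :=
  ⟨s.un, fun q => s.ne (smul_left_cancel p
    (lg_disj h (h.lg_smul p s.lg) (.inl (h.lg_up s.lg s.um)) (.inl q)))⟩

theorem Skew.nest' (s : Skew C up p m n) : Nest up (p • m) m := by
  simpa using ((s.inv h).nest h).smul h p

/-- finitely many junctions separate two points -/
theorem exit_fin (x y : X) :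
    {n | ∃ m, LG C m n ∧ m ≠ n ∧ Uc up m x ∧ Uc up n y}.Finite := by
  refine h.conn (fun y => {n | ∃ m, LG C m n ∧ m ≠ n ∧ Uc up m x ∧ Uc up n y}.Finite)
    (fun c hc s t k => ?_) x y ?_
  · have a : {n | (∃ r, n = c r) ∧ ∃ m, LG C m n ∧ m ≠ n ∧ Uc up m x}.Subsingleton := by
      have b : ∀ r r' : ℝ, r < r' → (∃ m, LG C m (c r) ∧ m ≠ c r ∧ Uc up m x) →
          ¬ ∃ m, LG C m (c r') ∧ m ≠ c r' ∧ Uc up m x := by
        rintro r r' e ⟨m, l, ne, u⟩ ⟨m', l', -, u'⟩
        exact ne (lg_disj h l u (.inl ((asc_nest h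
          (asc_lg h ⟨c, hc, r, r', e, rfl, rfl⟩ (Om.lg_symm l'))).sub h u')))
      rintro _ ⟨⟨r, rfl⟩, e⟩ _ ⟨⟨r', rfl⟩, e'⟩
      rcases lt_trichotomy r r' with q | q | q
      exacts [absurd e' (b r r' q e), by rw [q], absurd e (b r' r q e')]
    refine (k.union a.finite).subset ?_
    rintro n ⟨m, l, ne, u, v⟩
    by_cases q : ∃ r, n = c r
    · exact .inr ⟨q, m, l, ne, u⟩
    · refine .inl ⟨m, l, ne, u, .inl (h.upk hc (fun r e => q ⟨r, e⟩) t s ?_)⟩
      exact v.resolve_right fun e => q ⟨t, e.symm⟩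
  · refine Set.finite_empty.subset ?_
    rintro n ⟨m, l, ne, u, v⟩
    exact ne (lg_disj h l u v)

theorem jump_fin {I : Type*} [Infinite I] (f g : I → X) (l : ∀ i, LG C (f i) (g i))
    (ne : ∀ i, f i ≠ g i) (inj : Function.Injective g) {x y : X}
    (hx : ∀ i, Uc up (f i) x) (hy : ∀ i, Uc up (g i) y) : False :=
  Set.infinite_of_injective_forall_mem
    (s := {n | ∃ m, LG C m n ∧ m ≠ n ∧ Uc up m x ∧ Uc up n y}) inj
    (fun i => ⟨f i, l i, ne i, hx i, hy i⟩) (exit_fin h x y)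

theorem Skew.shrink (s : Skew C up p m n) (x : X) : ∃ k : ℕ, ¬ Uc up (p ^ k • n) x := by
  by_contra k
  push Not at k
  have a : ∀ i j : ℕ, i < j → p ^ i • n ≠ p ^ j • n := fun i j e l => by
    obtain ⟨r, rfl⟩ := Nat.exists_eq_add_of_lt e
    have := (((s.nest h).pow h r).smul h (p ^ i)).1
    rw [← mul_smul, ← pow_add, ← add_assoc, ← l] at this
    exact h.irr _ this
  refine jump_fin h (fun k : ℕ => p ^ k • m) (fun k => p ^ k • n)
    (fun i => h.lg_smul _ s.lg) (fun i e => s.ne (smul_left_cancel _ e))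
    (fun i j l => ?_) (x := m) (fun i => ?_) k
  · rcases lt_trichotomy i j with e | e | e
    exacts [absurd l (a i j e), e, absurd l.symm (a j i e)]
  · rcases i with _ | i
    · exact .inr (by simp)
    · have := (((s.inv h).nest h).pow h i).smul h (p ^ (i + 1))
      rw [inv_pow, smul_inv_smul] at this
      exact .inl this.1

theorem Skew.cover (s : Skew C up p m n) {x : X} (hx : ¬ Uc up n x) : up (p • m) x :=
  (h.sep' (h.lg_up (h.lg_smul p (Om.lg_symm s.lg)) s.un) fun q => hx (.inl q)).2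
    (h.lg_up s.lg s.um)

/-- every point is moved into the upper side of `n` -/
theorem Skew.exh (s : Skew C up p m n) (x : X) : ∃ k : ℕ, up n (p ^ (k + 1) • x) := by
  obtain ⟨k, hk⟩ := (s.inv h).shrink h x
  have k1 : ¬ Uc up m (p ^ k • x) := fun q => hk (by
    have := uc_smul h (p⁻¹ ^ k) q
    rwa [inv_pow, inv_smul_smul, ← inv_pow] at this)
  have k2 := h.ups p _ _ ((s.inv h).cover h k1)
  rw [smul_inv_smul, ← mul_smul, ← pow_succ'] at k2
  exact ⟨k, k2⟩

theorem le_pow {x : X} (e : Le C x (p • x)) (k : ℕ) : Le C x (p ^ k • x) := by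
  induction k with
  | zero => exact .inl (by simp)
  | succ k ih =>
    rw [pow_succ', mul_smul]
    exact le_tr h e (le_smul h p ih)

theorem Skew.not_le (s : Skew C up p m n) (x : X) : ¬ Le C x (p • x) := fun e => by
  obtain ⟨k, hk⟩ := s.exh h x
  obtain ⟨j, hj⟩ := (s.inv h).exh h x
  have e1 := le_smul h (p⁻¹ ^ (j + 1)) (le_pow h e (j + 1))
  rw [inv_pow, inv_smul_smul, ← inv_pow] at e1
  exact s.ne (lg_disj h s.lg (uc_le h (.inl hj) (le_tr h e1 (le_pow h e _))) (.inl hk))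

theorem Skew.not_cmp (s : Skew C up p m n) (x : X) : ¬ Cmp C x (p • x) := by
  rintro (e | e)
  · exact s.not_le h x e
  · exact (s.inv h).not_le h (p • x) (by rwa [inv_smul_smul])

/-- if both sides meet their images then `a` fixes or skewers the pair -/
theorem fix_or_skew {a : G} (l : LG C m n) (ne : m ≠ n) {x y : X} (h1 : Uc up m x)
    (h2 : Uc up (a • m) x) (h3 : Uc up n y) (h4 : Uc up (a • n) y) :
    (a • m = m ∧ a • n = n) ∨ Skew C up a m n ∨ Skew C up a n m := by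
  have l' := h.lg_smul a l
  have ne' : a • m ≠ a • n := fun e => ne (smul_left_cancel a e)
  by_cases e : a • m = m
  · exact .inl ⟨e, lg_disj h (h.lg_trans (Om.lg_symm l') (e.symm ▸ l)) h4 h3⟩
  have e' : a • n ≠ n := fun q => e (lg_disj h (h.lg_trans l' (q.symm ▸ Om.lg_symm l)) h2 h1)
  have k1 : up m (a • m) ∨ up (a • m) m := by
    by_contra k
    rw [not_or] at k
    exact h.disj k.1 k.2 (Ne.symm e) h1 h2
  have k2 : up n (a • n) ∨ up (a • n) n := by
    by_contra k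
    rw [not_or] at k
    exact h.disj k.1 k.2 (Ne.symm e') h3 h4
  rcases k1 with k1 | k1 <;> rcases k2 with k2 | k2
  · exact absurd (lg_disj h l (.inl (h.lg_up l' k1)) (.inl k2)) ne
  · exact .inr (.inr ⟨Om.lg_symm l, ne.symm, k1, k2⟩)
  · exact .inr (.inl ⟨l, ne, k2, k1⟩)
  · exact absurd (lg_disj h l' (.inl (h.lg_up l k1)) (.inl k2)) ne'

theorem cmp_both {a : G} {x : X} (hx : Uc up m x) (e : Cmp C x (a • x)) :
    ∃ y, Uc up m y ∧ Uc up (a • m) y :=
  e.elim (fun e => ⟨_, uc_le h hx e, uc_smul h a hx⟩) fun e => ⟨_, hx, uc_le h (uc_smul h a hx) e⟩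

/-- a pair that separates two points comparable with their images is fixed -/
theorem fix_pair {a : G} (l : LG C m n) (ne : m ≠ n) {x y : X} (h1 : Uc up m x) (h2 : Uc up n y)
    (cx : Cmp C x (a • x)) (cy : Cmp C y (a • y)) : a • m = m ∧ a • n = n := by
  obtain ⟨x', a1, a2⟩ := cmp_both h h1 cx
  obtain ⟨y', a3, a4⟩ := cmp_both h h2 cy
  rcases fix_or_skew h l ne a1 a2 a3 a4 with e | e | e
  exacts [e, absurd cx (e.not_cmp h x), absurd cx (e.not_cmp h x)]

end

end Pool.Agent.Work.MP_3d425c_gt.To.Ax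
end

-- merged part: Pool.Agent.Work.MP_3d425c_gt.To.AxB
section
/-! Chains of comparable points; commuting elements that skewer nothing move one point along a
chart. -/

namespace Pool.Agent.Work.MP_3d425c_gt.To.Ax
open Set Filter Topology Pool.Agent.Work.MP_3d425c_gt.Cy

variable {G X : Type*} [Group G] [MulAction G X] {C : Set (ℝ → X)} {up : X → X → Prop}

/-- chains of `R`-related points of `Z` -/
inductive Chn (R : X → X → Prop) (Z : Set X) : ℕ → X → X → Prop
  | nil {x} : x ∈ Z → Chn R Z 0 x x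
  | cons {k x y z} : x ∈ Z → R x y → Chn R Z k y z → Chn R Z (k + 1) x z

variable {R : X → X → Prop} {Z : Set X}

theorem Chn.mem {k : ℕ} {x y : X} (e : Chn R Z k x y) : x ∈ Z := by
  cases e <;> assumption

theorem Chn.snoc {k : ℕ} {x y z : X} (e : Chn R Z k x y) (r : R y z) (hz : z ∈ Z) :
    Chn R Z (k + 1) x z := by
  induction e with
  | nil hx => exact .cons hx r (.nil hz)
  | cons hx q _ ih => exact .cons hx q (ih r)

theorem Chn.symm (hR : ∀ x y, R x y → R y x) {k : ℕ} {x y : X} (e : Chn R Z k x y) :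
    Chn R Z k y x := by
  induction e with
  | nil hx => exact .nil hx
  | cons hx q _ ih => exact ih.snoc (hR _ _ q) hx

theorem Chn.map {f : X → X} (hR : ∀ x y, R x y → R (f x) (f y)) (hZ : ∀ x ∈ Z, f x ∈ Z) {k : ℕ}
    {x y : X} (e : Chn R Z k x y) : Chn R Z k (f x) (f y) := by
  induction e with
  | nil hx => exact .nil (hZ _ hx)
  | cons hx q _ ih => exact .cons (hZ _ hx) (hR _ _ q) ih

theorem Chn.zero {x y : X} (e : Chn R Z 0 x y) : x = y := by
  cases e
  rfl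

theorem Chn.succ {k : ℕ} {x z : X} (e : Chn R Z (k + 1) x z) : ∃ y, R x y ∧ Chn R Z k y z := by
  cases e with
  | cons _ q r => exact ⟨_, q, r⟩

section
variable (h : Om G C up)
include h

theorem chn_univ (x y : X) : ∃ k, Chn (Cmp C) univ k x y :=
  h.conn (fun y => ∃ k, Chn (Cmp C) univ k x y)
    (fun _ hc s t ⟨_, e⟩ => ⟨_, e.snoc (cmp_chart hc s t) trivial⟩) x y ⟨0, .nil trivial⟩

/-- a chain leaves a closed upper side below its boundary point -/
theorem chn_exit {n : X} {k : ℕ} {u v : X} (e : Chn (Cmp C) Z k u v) (hu : Uc up n u)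
    (hv : ¬ Uc up n v) : ∃ j q, j < k ∧ Asc C q n ∧ Chn (Cmp C) Z j q v := by
  induction e with
  | nil => exact absurd hu hv
  | @cons k x y z _ r e ih =>
    by_cases hy : Uc up n y
    · obtain ⟨j, q, a, b⟩ := ih hy hv
      exact ⟨j, q, a.trans k.lt_succ_self, b⟩
    · rcases r with r | r | r
      · exact absurd (uc_le h hu r) hy
      · exact absurd (r ▸ hu) hy
      · exact ⟨k, y, k.lt_succ_self, (enter h r hy hu).1, e⟩

/-- a shortest chain that starts downwards branches at once -/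
theorem valley {k : ℕ} {x z y x' : X} (hx : x ∈ Z) (h1 : Asc C z x) (h2 : Cmp C z y)
    (e : Chn (Cmp C) Z k y x') (hm : ∀ j < k + 2, ¬ Chn (Cmp C) Z j x x') :
    ∃ m n, LG C m n ∧ m ≠ n ∧ Asc C z m ∧ Le C m x ∧ Asc C z n ∧ Le C n y ∧ Uc up n x' := by
  have nc : ¬ Cmp C x y := fun q => hm _ (by omega) (.cons hx q e)
  have zy : Asc C z y := by
    rcases h2 with (q | q) | q
    exacts [absurd (.inr (.inr (q ▸ h1))) nc, q, absurd (.inr (.inr (le_asc h q h1))) nc]
  obtain ⟨m, n, l, ne, a1, a2, a3, a4⟩ := branch h h1 zy nc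
  refine ⟨m, n, l, ne, a1, a2, a3, a4, by_contra fun q => ?_⟩
  obtain ⟨j, w, b1, b2, b3⟩ := chn_exit h e (le_uc h a4) q
  exact hm (j + 1) (by omega)
    (.cons hx (.inr (.inr (asc_le h (asc_lg h b2 (Om.lg_symm l)) a2))) b3)

theorem val_fix {a : G} {k : ℕ} {x z y x' : X} (h1 : Asc C z x) (h2 : Cmp C z y)
    (e : Chn (Cmp C) univ k y x') (hm : ∀ j < k + 2, ¬ Chn (Cmp C) univ j x x')
    (cx : Cmp C x (a • x)) (cx' : Cmp C x' (a • x')) :
    ∃ w, Cmp C w (a • w) ∧ Cmp C x w ∧ Cmp C w y := by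
  obtain ⟨m, n, l, ne, a1, a2, -, a4, a5⟩ := valley h (mem_univ x) h1 h2 e hm
  have f := (fix_pair h l ne (le_uc h a2) a5 cx cx').1
  obtain ⟨w, -, b2, b3⟩ := germ_fix h (a := a) a1 (f.symm ▸ h.lg_refl m)
  exact ⟨w, b3, .inr (.inr (asc_le h b2 a2)), .inl (.inr (asc_le h (asc_lg h b2 l) a4))⟩

/-- the points that are comparable with their images are connected by chains -/
theorem cmp_conn (a : G) {x x' : X} (cx : Cmp C x (a • x)) (cx' : Cmp C x' (a • x')) :
    ∃ k, Chn (Cmp C) {y | Cmp C y (a • y)} k x x' := by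
  obtain ⟨k, e⟩ := chn_univ h x x'
  induction k using Nat.strong_induction_on generalizing x with
  | _ k ih =>
    by_cases hm : ∃ j < k, Chn (Cmp C) univ j x x'
    · obtain ⟨j, a, b⟩ := hm
      exact ih j a cx b
    have hm' : ∀ j < k, ¬ Chn (Cmp C) univ j x x' := fun j a b => hm ⟨j, a, b⟩
    rcases k with _ | k
    · exact ⟨0, e.zero ▸ .nil cx⟩
    obtain ⟨z, r, e⟩ := e.succ
    rcases k with _ | k
    · exact ⟨1, .cons cx (e.zero ▸ r) (.nil cx')⟩
    obtain ⟨y, r', e⟩ := e.succ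
    obtain ⟨w, w1, w2, w3⟩ : ∃ w, Cmp C w (a • w) ∧ Cmp C x w ∧ Cmp C w y := by
      rcases r with (r | r) | r | r
      · exact absurd (.cons trivial (r ▸ r') e) (hm' _ (by omega))
      · have := val_fix h.dual (a := a) (asc_dual.2 r) (k := k) (y := y) (x' := x')
        rw [cmp_dual] at this
        exact this r' e hm' cx cx'
      · exact absurd (.cons trivial (r ▸ r') e) (hm' _ (by omega))
      · exact val_fix h r r' e hm' cx cx'
    obtain ⟨j, b⟩ := ih (k + 1) (by omega) w1 (.cons trivial w3 e)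
    exact ⟨_, .cons cx w2 b⟩

theorem cmp_convex {a : G} {u w v : X} (h1 : Le C u w) (h2 : Le C w v) (cu : Cmp C u (a • u))
    (cv : Cmp C v (a • v)) : Cmp C w (a • w) := by
  have h3 := le_smul h a h1
  have h4 := le_smul h a h2
  rcases cu with cu | cu <;> rcases cv with cv | cv
  · exact seg h h1 (le_tr h h2 cv) (le_tr h cu h3) h4
  · exact seg h h1 h2 (le_tr h cu h3) (le_tr h h4 cv)
  · exact seg h (le_tr h cu h1) (le_tr h h2 cv) h3 h4
  · exact seg h (le_tr h cu h1) h2 h3 (le_tr h h4 cv)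

theorem one_side {p : G} {x z m n : X} (l : LG C m n) (a1 : Asc C z m) (a2 : Le C m x)
    (a3 : Asc C z n) (a5 : Uc up n (p • x)) (nc : ∀ w, Le C z w → Le C w x → ¬ Cmp C w (p • w)) :
    up n (p • n) := by
  have zx := asc_le h a1 a2
  by_cases q : Uc up n (p • z)
  · exact uc_asc h q (asc_smul h p a3)
  obtain ⟨b1, b2⟩ := enter h (asc_smul h p zx) q a5
  obtain ⟨w, w1, w2, w3⟩ := germ h a3 b1
  have wx := asc_le h (asc_lg h w3 (Om.lg_symm l)) a2
  exact absurd (seg h (.inr w2) (.inr (asc_le h w3 b2)) (.inr (asc_smul h p w1))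
    (.inr (asc_smul h p wx))) (nc w (.inr w1) (.inr wx))

/-- least displacement inside an invariant, convex, connected set -/
theorem min_disp {p : G} (i1 : ∀ x ∈ Z, p • x ∈ Z) (i2 : ∀ x ∈ Z, p⁻¹ • x ∈ Z)
    (cv : ∀ u ∈ Z, ∀ v ∈ Z, ∀ w, Le C u w → Le C w v → w ∈ Z)
    (ex : ∃ k x, Chn (Cmp C) Z k x (p • x)) :
    (∃ x ∈ Z, Cmp C x (p • x)) ∨ ∃ m n, Skew C up p m n := by
  classical
  by_cases c : ∃ x ∈ Z, Cmp C x (p • x)
  · exact .inl c
  have c' : ∀ x ∈ Z, ¬ Cmp C x (p • x) := fun x a b => c ⟨x, a, b⟩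
  refine .inr ?_
  obtain ⟨N, ⟨x, e⟩, hm⟩ : ∃ N, (∃ x, Chn (Cmp C) Z N x (p • x)) ∧
      ∀ j < N, ∀ x, ¬ Chn (Cmp C) Z j x (p • x) :=
    ⟨Nat.find ex, Nat.find_spec ex, fun j a x b => Nat.find_min ex a ⟨x, b⟩⟩
  rcases N with _ | _ | k
  · exact absurd (e.zero ▸ cmp_refl x) (c' x e.mem)
  · obtain ⟨y, r, e'⟩ := e.succ
    exact absurd (e'.zero ▸ r) (c' x e.mem)
  have main : ∀ x z, x ∈ Z → Asc C z x → Chn (Cmp C) Z (k + 1) z (p • x) →
      ∃ m n, Skew C up p m n := by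
    intro x z hx zx e
    have hz := e.mem
    obtain ⟨y, r, e⟩ := e.succ
    have hy := e.mem
    obtain ⟨m, n, l, ne, a1, a2, a3, a4, a5⟩ := valley h hx zx r e fun j a => hm j a x
    refine ⟨m, n, l, ne, one_side h l a1 a2 a3 a5
      fun w b1 b2 => c' w (cv z hz x hx w b1 b2), ?_⟩
    have e2 : Chn (Cmp C) Z k x (p⁻¹ • y) := by
      simpa only [inv_smul_smul] using
        (e.map (f := fun t => p⁻¹ • t) (fun _ _ q => cmp_smul h p⁻¹ q) i2).symm fun _ _ => Cmp.symm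
    have a6 : Uc up m (p⁻¹ • y) := by
      by_contra q
      obtain ⟨j, w, b1, b2, b3⟩ := chn_exit h e2 (le_uc h a2) q
      refine hm (j + 1) (by omega) (p⁻¹ • y) ?_
      rw [smul_inv_smul]
      exact b3.symm (fun _ _ => Cmp.symm) |>.snoc (.inl (.inr (asc_le h (asc_lg h b2 l) a4))) hy
    have := one_side h (p := p⁻¹) (Om.lg_symm l) a3 a4 a1 a6 fun w b1 b2 q =>
      c' w (cv z hz y hy w b1 b2) (by simpa only [smul_inv_smul] using (cmp_smul h p q).symm)
    simpa only [smul_inv_smul] using h.ups p _ _ this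
  have hx := e.mem
  obtain ⟨z, r, e⟩ := e.succ
  rcases r with (r | r) | r | r
  · exact absurd (r ▸ e) (hm (k + 1) (by omega) x)
  · have hz := e.mem
    obtain ⟨y, r', e⟩ := e.succ
    refine main z y hz ?_ (e.snoc (.inl (.inr (asc_smul h p r))) (i1 z hz))
    rcases r' with r' | r' | r'
    · exact absurd (.cons hx (.inl (.inr (asc_le h r r'))) e) (hm _ (by omega) x)
    · exact absurd (.cons hx (.inl (.inr (r' ▸ r))) e) (hm _ (by omega) x)
    · exact r'
  · exact absurd (r ▸ e) (hm (k + 1) (by omega) x)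
  · exact main x z hx r e

theorem cmp_or_skew (p : G) (x₀ : X) : (∃ x, Cmp C x (p • x)) ∨ ∃ m n, Skew C up p m n := by
  obtain ⟨k, e⟩ := chn_univ h x₀ (p • x₀)
  exact (min_disp h (Z := univ) (fun _ _ => trivial) (fun _ _ => trivial)
    (fun _ _ _ _ _ _ _ => trivial) ⟨k, x₀, e⟩).imp_left fun ⟨x, _, q⟩ => ⟨x, q⟩

theorem cmp_two {a b : G} (hab : a * b = b * a) (x₀ : X) :
    (∃ y, Cmp C y (a • y) ∧ Cmp C y (b • y)) ∨ (∃ m n, Skew C up a m n) ∨
      ∃ m n, Skew C up b m n := by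
  rcases cmp_or_skew h a x₀ with ⟨x, e⟩ | e
  swap
  · exact .inr (.inl e)
  have inv : ∀ g : G, a * g = g * a → ∀ y ∈ {y | Cmp C y (a • y)}, g • y ∈ {y | Cmp C y (a • y)} :=
    fun g q y hy => by
      have := cmp_smul h g hy
      rwa [← mul_smul, ← q, mul_smul] at this
  obtain ⟨k, c⟩ := cmp_conn h a e (inv b hab x e)
  rcases min_disp h (inv b hab) (inv b⁻¹ (Commute.inv_right hab).eq)
    (fun u hu v hv w h1 h2 => cmp_convex h h1 h2 hu hv) ⟨k, x, c⟩ with ⟨y, h1, h2⟩ | q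
  exacts [.inl ⟨y, h1, h2⟩, .inr (.inr q)]

end

end Pool.Agent.Work.MP_3d425c_gt.To.Ax
end
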