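import Mathlib
import Pool.Agent.Work.MP_3d425c_gt.Cy.U2
import Pool.Agent.Work.MP_3d425c_gt.To.AxB

-- merged part: Pool.Agent.Work.MP_3d425c_gt.Cy.Defs
section
/-! The leaf space of an invariant co-oriented foliation of a simply connected space. -/

namespace Pool.Agent.Work.MP_3d425c_gt.Cy
open Set Filter Topology

/-- `q : Y → L` is the map to the space of leaves; `A` is an oriented invariant atlas making `L`
a one-manifold (not assumed Hausdorff). -/
structure Leaves (G : Type*) {Y L : Type*} [Group G] [MulAction G Y] [MulAction G L]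
    [TopologicalSpace Y] [TopologicalSpace L] (q : Y → L) (A : Set (ℝ → L)) : Prop where
  quot : IsOpenQuotientMap q
  conn : ∀ x, IsPreconnected (q ⁻¹' {x})
  equi : ∀ (g : G) y, q (g • y) = g • q y
  chart : ∀ c ∈ A, IsOpenEmbedding c
  cover : ∀ x, ∃ c ∈ A, ∃ t, c t = x
  inv : ∀ g : G, ∀ c ∈ A, (fun t => g • c t) ∈ A
  orient : ∀ c ∈ A, ∀ d ∈ A, ∀ s t, c s = d t →
    ∀ᶠ u in 𝓝 s, ∀ v, c u = d v → (s < u ↔ t < v)

/-- `y` lies above `x`: a chain of positive arcs in charts leads from `x` to `y`. -/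
def Above {L : Type*} (A : Set (ℝ → L)) : L → L → Prop :=
  Relation.TransGen fun a b => ∃ c ∈ A, ∃ s t : ℝ, s < t ∧ c s = a ∧ c t = b

end Pool.Agent.Work.MP_3d425c_gt.Cy
end

-- merged part: Pool.Agent.Work.MP_3d425c_gt.Cy.U3
section
/-! Reduced chains of folds: equivalent points are never above one another. -/

namespace Pool.Agent.Work.MP_3d425c_gt.Cy
open Set Filter Topology

variable {G X : Type*} [Group G] [MulAction G X] {C : Set (ℝ → X)} {up : X → X → Prop}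

/-- Data of a fold. -/
structure FD (C : Set (ℝ → X)) (up : X → X → Prop) (μ : X) (g : G) (k : ℕ) (A : ℝ → X)
    (ρ : II ≃o II) : Prop where
  om : OM G C up
  hA : A ∈ C
  A0 : A 0 = μ
  hL : LG C (g • μ) μ
  inj : ∀ i j : ℤ, g ^ i = g ^ j → i = j
  tau : ∀ s : II, s < 1 → g ^ k • A (io s) = A (io ((ρ ^ k) s))
  hst : ∀ γ : G, γ • μ = μ → ∃ n : ℤ, γ = (g ^ k) ^ n

/-- One step of the fold, from the arm `p` to the arm `q`. -/
def St (g : G) (A : ℝ → X) (ρ : II ≃o II) (p q : G) (x y : X) : Prop :=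
  ∃ (s : II) (i : ℤ), s < 1 ∧ p = q * g ^ i ∧ x = p • A (io s) ∧ y = q • A (io ((ρ ^ i) s))

def SS (g : G) (q p : G) : Prop := ∃ e : ℤ, p = q * g ^ e

def FR (g : G) (A : ℝ → X) (ρ : II ≃o II) : X → X → Prop :=
  Relation.ReflTransGen fun x y => ∃ p q, St g A ρ p q x y

theorem zp_add (ρ : II ≃o II) (i j : ℤ) (s : II) : (ρ ^ (i + j)) s = (ρ ^ i) ((ρ ^ j) s) := by
  rw [zpow_add]; rfl

theorem zp_zero (ρ : II ≃o II) (i : ℤ) : (ρ ^ i) (0 : II) = 0 := (ρ ^ i).map_bot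

theorem St.symm {g : G} {A : ℝ → X} {ρ : II ≃o II} {p q : G} {x y : X} (h : St g A ρ p q x y) :
    St g A ρ q p y x := by
  obtain ⟨s, i, hs, rfl, rfl, rfl⟩ := h
  refine ⟨(ρ ^ i) s, -i, zpow_lt_one ρ i hs, by simp, rfl, ?_⟩
  rw [← zp_add]; simp

theorem St.smul {g : G} {A : ℝ → X} {ρ : II ≃o II} {p q : G} {x y : X} (h : St g A ρ p q x y)
    (γ : G) : St g A ρ (γ * p) (γ * q) (γ • x) (γ • y) := by
  obtain ⟨s, i, hs, rfl, rfl, rfl⟩ := h
  exact ⟨s, i, hs, by simp [mul_assoc], by simp [mul_smul], by simp [mul_smul]⟩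

namespace FD
variable {μ : X} {g : G} {k : ℕ} {A : ℝ → X} {ρ : II ≃o II} (F : FD C up μ g k A ρ)
include F

theorem arm (b : G) : (fun t => b • A t) ∈ C := F.om.pre.smul b A F.hA

theorem lg_pow (i : ℤ) : LG C (g ^ i • μ) μ := by
  induction i using Int.induction_on with
  | zero => simpa using F.om.lg_refl μ
  | succ i ih =>
    have := F.om.lg_smul (g ^ (i : ℤ)) F.hL
    rw [← mul_smul, ← zpow_add_one] at this
    exact F.om.lg_trans this ih
  | pred i ih =>
    have := F.om.lg_smul (g ^ (-(i : ℤ) - 1)) F.hL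
    rw [← mul_smul, ← zpow_add_one, sub_add_cancel] at this
    exact F.om.lg_trans (OM.lg_symm this) ih

theorem lg_ss {p q : G} (h : SS g q p) : LG C (p • μ) (q • μ) := by
  obtain ⟨e, rfl⟩ := h
  rw [mul_smul]
  exact F.om.lg_smul q (F.lg_pow e)

theorem tau_zpow (n : ℤ) (s : II) (hs : s < 1) :
    (g ^ k) ^ n • A (io s) = A (io ((ρ ^ ((k : ℤ) * n)) s)) := by
  induction n using Int.induction_on with
  | zero => simp
  | succ n ih =>
    rw [add_comm, zpow_add, zpow_one, mul_smul, ih, F.tau _ (zpow_lt_one ρ _ hs), mul_add,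
      mul_one, zp_add, zpow_natCast]
  | pred n ih =>
    have h1 := F.tau ((ρ ^ ((k : ℤ) * (-(n : ℤ) - 1))) s) (zpow_lt_one ρ _ hs)
    rw [← zpow_natCast ρ k, ← zp_add, show (k : ℤ) + k * (-(n : ℤ) - 1) = k * (-(n : ℤ)) by ring,
      ← ih] at h1
    rw [sub_eq_add_neg, add_comm, zpow_add, mul_smul, ← h1, zpow_neg, zpow_one, inv_smul_smul]
    congr 4; ring

theorem io_inj {s t : II} (hs : s < 1) (ht : t < 1) (e : A (io s) = A (io t)) : s = t := by
  have := F.om.inj F.hA e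
  rcases lt_trichotomy s t with h | h | h
  · exact absurd this ((io_lt hs ht).2 h).ne
  · exact h
  · exact absurd this ((io_lt ht hs).2 h).ne'

theorem same_apex {p q : G} (e : p • μ = q • μ) : ∃ n : ℤ, p = q * (g ^ k) ^ n := by
  obtain ⟨n, hn⟩ := F.hst (q⁻¹ * p) (by rw [mul_smul, e, inv_smul_smul])
  exact ⟨n, by rw [← hn]; simp⟩

theorem triv {p q : G} {x y : X} (h : St g A ρ p q x y) (e : p • μ = q • μ) : x = y := by
  obtain ⟨s, i, hs, rfl, rfl, rfl⟩ := h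
  obtain ⟨n, hn⟩ := F.same_apex e
  have h1 : g ^ i = (g ^ k) ^ n := mul_left_cancel hn
  have h2 : i = k * n := F.inj _ _ (by rw [h1, zpow_mul, zpow_natCast])
  rw [mul_smul, h1, F.tau_zpow n s hs, h2]

theorem mem_up (b : G) (s : II) : up (b • μ) (b • A (io s)) ∨ b • A (io s) = b • μ := by
  rcases (io_nonneg s).eq_or_lt with h | h
  · right; rw [← h, F.A0]
  · left; rw [← F.A0]; exact (F.om.upc (F.arm b) 0 _).2 h

theorem not_up (b : G) (s : II) : ¬ up (b • A (io s)) (b • μ) := by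
  rw [← F.A0]
  intro h
  exact absurd ((F.om.upc (F.arm b) _ 0).1 h) (not_lt.2 (io_nonneg s))

theorem lg_disj {a b z : X} (h : LG C a b) (hne : a ≠ b) (ha : up a z ∨ z = a)
    (hb : up b z ∨ z = b) : False :=
  F.om.disj (F.om.lg_not_up h) (F.om.lg_not_up (OM.lg_symm h)) hne ha hb

theorem merge {p q p' q' : G} {x y z : X} (h : St g A ρ p q x y) (h' : St g A ρ p' q' y z)
    (hs : SS g q p') : St g A ρ p q' x z := by
  obtain ⟨s, i, hs1, rfl, rfl, rfl⟩ := h
  obtain ⟨s', i', hs1', hp', hy, rfl⟩ := h'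
  have e : p' • μ = q • μ := by
    by_contra hne
    exact F.lg_disj (F.lg_ss hs) hne (hy ▸ F.mem_up p' s') (F.mem_up q _)
  obtain ⟨n, hn⟩ := F.same_apex e
  rw [hn, mul_smul, F.tau_zpow n s' hs1'] at hy
  have h1 := F.io_inj (zpow_lt_one ρ _ hs1) (zpow_lt_one ρ _ hs1') (smul_left_cancel q hy)
  refine ⟨s, i' + (-((k : ℤ) * n) + i), hs1, ?_, rfl, ?_⟩
  · rw [zpow_add, ← mul_assoc, ← hp', hn, zpow_add, ← zpow_natCast g k, ← zpow_mul]
    simp [mul_assoc]
  · rw [zp_add, zp_add, h1, ← zp_add ρ (-((k : ℤ) * n))]; simp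

end FD

/-- Reduced chains. -/
structure Red (μ : X) (g : G) (A : ℝ → X) (ρ : II ≃o II) (n : ℕ) (x : ℕ → X) (p q : ℕ → G) :
    Prop where
  st : ∀ j < n, St g A ρ (p j) (q j) (x j) (x (j + 1))
  ne : ∀ j < n, p j • μ ≠ q j • μ
  ss : ∀ j, j + 1 < n → ¬ SS g (q j) (p (j + 1))

theorem Red.le {μ : X} {g : G} {A : ℝ → X} {ρ : II ≃o II} {n m : ℕ} {x : ℕ → X} {p q : ℕ → G}
    (h : Red μ g A ρ n x p q) (hm : m ≤ n) : Red μ g A ρ m x p q :=
  ⟨fun j hj => h.st j (by omega), fun j hj => h.ne j (by omega), fun j hj => h.ss j (by omega)⟩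

theorem Red.snoc {μ : X} {g : G} {A : ℝ → X} {ρ : II ≃o II} {n : ℕ} {x : ℕ → X} {p q : ℕ → G}
    (h : Red μ g A ρ n x p q) {p' q' : G} {z : X} (hst : St g A ρ p' q' (x n) z)
    (hne : p' • μ ≠ q' • μ) (hss : ∀ j, j + 1 = n → ¬ SS g (q j) p') :
    Red μ g A ρ (n + 1) (fun j => if j = n + 1 then z else x j) (fun j => if j = n then p' else p j)
      (fun j => if j = n then q' else q j) := by
  refine ⟨fun j hj => ?_, fun j hj => ?_, fun j hj => ?_⟩
  · by_cases e : j = n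
    · subst e; simpa using hst
    · have h1 : j ≠ n + 1 := by omega
      simpa [e, h1] using h.st j (by omega)
  · by_cases e : j = n
    · subst e; simpa using hne
    · simpa [e] using h.ne j (by omega)
  · have h1 : j ≠ n := by omega
    by_cases e : j + 1 = n
    · simpa [e, h1] using hss j e
    · simpa [e, h1] using h.ss j (by omega)

/-- The invariant of a reduced chain between positions `i < n`. -/
def Inv (C : Set (ℝ → X)) (up : X → X → Prop) (μ : X) (x : ℕ → X) (q : ℕ → G) (i n : ℕ) : Prop :=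
  ∃ a b : X, LG C a b ∧ a ≠ b ∧ (up a (x i) ∨ x i = a) ∧ ¬ up (x i) a ∧
    (∃ j, i ≤ j ∧ j < n ∧ b = q j • μ) ∧ ∃ e ∈ C, ∃ s₁ s₂ : ℝ, s₁ ≤ s₂ ∧ e s₁ = b ∧ e s₂ = x n

namespace FD
variable {μ : X} {g : G} {k : ℕ} {A : ℝ → X} {ρ : II ≃o II} (F : FD C up μ g k A ρ)
include F

theorem red_exists {x₀ y : X} (h : FR g A ρ x₀ y) :
    ∃ n x p q, Red μ g A ρ n x p q ∧ x 0 = x₀ ∧ x n = y := by
  induction h with
  | refl =>
    exact ⟨0, fun _ => x₀, fun _ => 1, fun _ => 1,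
      ⟨fun j hj => by omega, fun j hj => by omega, fun j hj => by omega⟩, rfl, rfl⟩
  | tail _ hst ih =>
    obtain ⟨p', q', hst⟩ := hst
    obtain ⟨n, x, p, q, hR, h0, hn⟩ := ih
    by_cases e : p' • μ = q' • μ
    · exact ⟨n, x, p, q, hR, h0, hn.trans (F.triv hst e)⟩
    by_cases hss : ∀ j, j + 1 = n → ¬ SS g (q j) p'
    · exact ⟨n + 1, _, _, _, hR.snoc (hn ▸ hst) e hss, by simpa using h0, by simp⟩
    push Not at hss
    obtain ⟨j, rfl, hss⟩ := hss
    have hm := F.merge (hR.st j (by omega)) (hn ▸ hst) hss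
    by_cases e' : p j • μ = q' • μ
    · exact ⟨j, x, p, q, hR.le (by omega), h0, F.triv hm e'⟩
    · refine ⟨j + 1, _, _, _, (hR.le (Nat.le_succ j)).snoc hm e' ?_, by simpa using h0, by simp⟩
      intro i hi
      subst hi
      exact hR.ss i (by omega)

theorem inv_out {x : ℕ → X} {q : ℕ → G} {i n : ℕ} (h : Inv C up μ x q i n) :
    x i ≠ x n ∧ ¬ up (x i) (x n) ∧ ¬ up (x n) (x i) := by
  obtain ⟨a, b, hl, hne, h1, h2, -, e, he, s₁, s₂, hs, e1, e2⟩ := h
  have h3 : up b (x n) ∨ x n = b := by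
    rcases hs.eq_or_lt with h | h
    · right; rw [← e2, ← e1, h]
    · left; rw [← e2, ← e1]; exact (F.om.upc he _ _).2 h
  have h4 : ¬ up (x n) b := by
    rw [← e2, ← e1]; intro h; exact absurd ((F.om.upc he _ _).1 h) (not_lt.2 hs)
  refine ⟨fun e => F.lg_disj hl hne h1 (e ▸ h3), fun hu => ?_, fun hu => ?_⟩
  · rcases h1 with h1 | h1
    · exact F.lg_disj hl hne (Or.inl (F.om.sub h1 h2 hu)) h3
    · exact F.lg_disj hl hne (Or.inl (h1 ▸ hu)) h3
  · rcases h3 with h3 | h3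
    · exact F.lg_disj hl hne h1 (Or.inl (F.om.sub h3 h4 hu))
    · exact F.lg_disj hl hne h1 (Or.inl (h3 ▸ hu))

theorem inv_all {x : ℕ → X} {p q : ℕ → G} :
    ∀ n, Red μ g A ρ n x p q → ∀ i < n, Inv C up μ x q i n := by
  intro n
  induction n with
  | zero => intro _ i hi; omega
  | succ n ih =>
    intro hR i hi
    have ih' := ih (hR.le (Nat.le_succ n))
    obtain ⟨s, i₀, hs, hp, hx, hy⟩ := hR.st n (by omega)
    have hl : LG C (p n • μ) (q n • μ) := F.lg_ss ⟨i₀, hp⟩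
    have hne := hR.ne n (by omega)
    have new : (up (p n • μ) (x i) ∨ x i = p n • μ) → ¬ up (x i) (p n • μ) →
        Inv C up μ x q i (n + 1) := fun h1 h2 =>
      ⟨_, _, hl, hne, h1, h2, ⟨n, by omega, by omega, rfl⟩, _, F.arm (q n), 0, _, io_nonneg _,
        by simp [F.A0], hy.symm⟩
    rcases (Nat.lt_succ_iff.1 hi).eq_or_lt with e | hin
    · subst e
      exact new (hx ▸ F.mem_up _ s) (hx ▸ F.not_up _ s)
    obtain ⟨a, b, hab, hne', h1, h2, ⟨j, hij, hjn, hb⟩, e, he, s₁, s₂, hs12, e1, e2⟩ := ih' i hin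
    by_cases hon : ∃ t, s₁ ≤ t ∧ t ≤ s₂ ∧ e t = p n • μ
    · obtain ⟨t, ht1, -, het⟩ := hon
      rcases ht1.eq_or_lt with e' | ht1
      · exfalso
        subst e'
        obtain ⟨N, hN⟩ := F.same_apex (het.symm.trans (e1.trans hb))
        by_cases hj : j + 1 = n
        · subst hj
          exact hR.ss j (by omega) ⟨k * N, by rw [hN, zpow_mul, zpow_natCast]⟩
        · obtain ⟨o1, o2, o3⟩ := F.inv_out (ih' (j + 1) (by omega))
          obtain ⟨s', i', -, -, -, hy'⟩ := hR.st j (by omega)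
          rw [hN, mul_smul, F.tau_zpow N s hs] at hx
          rw [hx, hy'] at o1 o2 o3
          rcases lt_trichotomy (io ((ρ ^ i') s')) (io ((ρ ^ ((k : ℤ) * N)) s)) with h | h | h
          · exact o2 ((F.om.upc (F.arm (q j)) _ _).2 h)
          · exact o1 (by rw [h])
          · exact o3 ((F.om.upc (F.arm (q j)) _ _).2 h)
      · have hl' : LG C (e t) ((fun t => q n • A t) 0) := by
          simpa [het, F.A0] using hl
        obtain ⟨e', he', k1, k2⟩ := F.om.lg_splice he (F.arm (q n)) hl'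
        refine ⟨a, b, hab, hne', h1, h2, ⟨j, hij, by omega, hb⟩, e', he', s₁ - t,
          io ((ρ ^ i₀) s), by linarith [io_nonneg ((ρ ^ i₀) s)], ?_, ?_⟩
        · rw [k1 _ (by linarith), ← e1]; congr 1; ring
        · rw [k2 _ (io_nonneg _), hy]; simp
    · have u1 : up (p n • μ) (x n) := by
        rcases F.mem_up (p n) s with h | h
        · exact hx ▸ h
        · exact absurd ⟨s₂, hs12, le_rfl, by rw [e2, hx, h]⟩ hon
      have u2 : up (p n • μ) b := by
        rw [← e1]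
        by_cases hr : ∃ v, p n • μ = e v
        · obtain ⟨v, hv⟩ := hr
          rw [hv, ← e2] at u1
          have hv2 := (F.om.upc he _ _).1 u1
          rw [hv]
          refine (F.om.upc he _ _).2 (not_le.1 fun hv1 => hon ⟨v, hv1, hv2.le, hv.symm⟩)
        · push Not at hr
          exact F.om.upk he hr s₂ s₁ (e2 ▸ u1)
      have u3 : up (p n • μ) a := F.om.lg_up (OM.lg_symm hab) u2
      have u4 : ¬ up a (p n • μ) := by
        intro hu
        have h5 : up a (x n) := by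
          rw [hx]
          exact F.om.mono (F.arm (p n)) (io_nonneg s) (by simpa [F.A0] using hu)
        refine F.lg_disj hab hne' (Or.inl h5) ?_
        rcases hs12.eq_or_lt with h | h
        · right; rw [← e2, ← e1, h]
        · left; rw [← e2, ← e1]; exact (F.om.upc he _ _).2 h
      rcases h1 with h1 | h1
      · exact new (Or.inl (F.om.sub u3 u4 h1)) fun hu => u4 (F.om.sub h1 h2 hu)
      · exact new (Or.inl (h1 ▸ u3)) (h1 ▸ u4)

theorem not_up_of_fr {x y : X} (h : FR g A ρ x y) : ¬ up x y := by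
  obtain ⟨n, z, p, q, hR, rfl, rfl⟩ := F.red_exists h
  rcases Nat.eq_zero_or_pos n with e | e
  · subst e; exact F.om.irr _
  · exact (F.inv_out (F.inv_all n hR 0 e)).2.1

end FD

end Pool.Agent.Work.MP_3d425c_gt.Cy

/-! The fold theorem. -/

namespace Pool.Agent.Work.MP_3d425c_gt.Cy
open Set Filter Topology

variable {G X : Type*} [Group G] [MulAction G X] {C : Set (ℝ → X)} {up : X → X → Prop}

theorem fr_symm {g : G} {A : ℝ → X} {ρ : II ≃o II} {x y : X} (h : FR g A ρ x y) :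
    FR g A ρ y x := by
  induction h with
  | refl => exact .refl
  | tail _ hst ih =>
    obtain ⟨p, q, hst⟩ := hst
    exact Relation.ReflTransGen.head ⟨q, p, hst.symm⟩ ih

theorem fr_smul {g : G} {A : ℝ → X} {ρ : II ≃o II} (γ : G) {x y : X} (h : FR g A ρ x y) :
    FR g A ρ (γ • x) (γ • y) := by
  induction h with
  | refl => exact .refl
  | tail _ hst ih =>
    obtain ⟨p, q, hst⟩ := hst
    exact Relation.ReflTransGen.tail ih ⟨_, _, hst.smul γ⟩

/-- The groupoid of the arm. -/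
def AO (A : ℝ → X) (b : G) (s t : II) : Prop := s < 1 ∧ t < 1 ∧ b • A (io s) = A (io t)

theorem fr_rel {g : G} {A : ℝ → X} {ρ : II ≃o II} {x y : X} (h : FR g A ρ x y) :
    x = y ∨ ∃ (b b' : G) (s s' : II), s < 1 ∧ s' < 1 ∧ x = b • A (io s) ∧ y = b' • A (io s') ∧
      Rel (AO A) g ρ (b'⁻¹ * b) s s' := by
  induction h with
  | refl => exact Or.inl rfl
  | tail _ hst ih =>
    obtain ⟨p, q, σ, i, hσ, hp, hy, hz⟩ := hst
    right
    rcases ih with e | ⟨b, b', s, s', hs, hs', hx, hy', hrel⟩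
    · refine ⟨p, q, σ, _, hσ, zpow_lt_one ρ i hσ, e.trans hy, hz, ?_⟩
      rw [hp, inv_mul_cancel_left]
      exact Rel.mv i hσ
    · refine ⟨b, q, s, _, hs, zpow_lt_one ρ i hσ, hx, hz, ?_⟩
      have h1 : AO A (p⁻¹ * b') s' σ := ⟨hs', hσ, by rw [mul_smul, ← hy', hy, inv_smul_smul]⟩
      have h2 := Rel.comp (Rel.comp hrel (Rel.arr h1)) (Rel.mv (O := AO A) (g := g) i hσ)
      convert h2 using 1
      rw [hp]; group

theorem fr_loop {g : G} {A : ℝ → X} {ρ : II ≃o II} {γ b : G} {s : II} (hs : s < 1)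
    (h : FR g A ρ (γ • b • A (io s)) (b • A (io s))) : Rel (AO A) g ρ (b⁻¹ * γ * b) s s := by
  rcases fr_rel h with e | ⟨b₁, b', s₁, s', hs₁, hs', hx, hy, hrel⟩
  · exact Rel.arr ⟨hs, hs, by rw [mul_smul, mul_smul, e, inv_smul_smul]⟩
  · have h1 : AO A (b₁⁻¹ * γ * b) s s₁ :=
      ⟨hs, hs₁, by rw [mul_smul, mul_smul, hx, inv_smul_smul]⟩
    have h2 : AO A (b⁻¹ * b') s' s := ⟨hs', hs, by rw [mul_smul, ← hy, inv_smul_smul]⟩
    have h3 := Rel.comp (Rel.comp (Rel.arr h1) hrel) (Rel.arr h2)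
    convert h3 using 1
    group

theorem fr_off {g : G} {A : ℝ → X} {ρ : II ≃o II} {x y : X} (h : FR g A ρ x y)
    (hy : ¬ ∃ (b : G) (s : II), s < 1 ∧ y = b • A (io s)) : x = y := by
  rcases fr_rel h with e | ⟨b₁, b', s₁, s', -, hs', -, hy', -⟩
  · exact e
  · exact absurd ⟨b', s', hs', hy'⟩ hy

/-- Some chart at `x` is related into every chart at `y`. -/
def Et (C : Set (ℝ → X)) (r : X → X → Prop) (x y : X) : Prop :=
  ∀ d ∈ C, ∀ v, d v = y → ∃ c ∈ C, c 0 = x ∧ ∀ u, ∃ v', r (c u) (d v')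

namespace FD
variable {μ : X} {g : G} {k : ℕ} {A : ℝ → X} {ρ : II ≃o II} (F : FD C up μ g k A ρ)
include F

theorem cross {c d : ℝ → X} (hc : c ∈ C) (hd : d ∈ C) (hl : LG C (c 0) (d 0)) {s t : ℝ}
    (ht : 0 ≤ t) {w : X} (h1 : up w (c s)) (h2 : ¬ up w (d t)) :
    ∃ u, 0 ≤ u ∧ u < s ∧ w = c u := by
  have h3 : ¬ up w (c 0) := fun h => h2 (F.om.mono hd ht (F.om.lg_up hl h))
  by_cases hr : ∃ u, w = c u
  · obtain ⟨u, rfl⟩ := hr
    exact ⟨u, not_lt.1 fun h => h3 ((F.om.upc hc _ _).2 h), (F.om.upc hc _ _).1 h1, rfl⟩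
  · push Not at hr
    exact absurd (F.om.upk hc hr s 0 h1) h3

theorem up_step {p q : G} {y z w : X} (hst : St g A ρ p q y z) (hw : up w y) :
    ∃ w', FR g A ρ w w' ∧ up w' z := by
  obtain ⟨s, i, hs, hp, hy, hz⟩ := hst
  by_cases h : up w z
  · exact ⟨w, .refl, h⟩
  have hl : LG C ((fun t => p • A t) 0) ((fun t => q • A t) 0) := by
    simpa [F.A0] using F.lg_ss ⟨i, hp⟩
  obtain ⟨u, hu0, hus, rfl⟩ := F.cross (F.arm p) (F.arm q) hl (io_nonneg ((ρ ^ i) s))
    (s := io s) (w := w) (hy ▸ hw) (hz ▸ h)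
  obtain ⟨s', hs', rfl⟩ := io_surj hu0
  refine ⟨q • A (io ((ρ ^ i) s')), .single ⟨p, q, s', i, hs', hp, rfl, rfl⟩, ?_⟩
  rw [hz]
  refine (F.om.upc (F.arm q) _ _).2 ((io_lt (zpow_lt_one ρ i hs') (zpow_lt_one ρ i hs)).2 ?_)
  exact (ρ ^ i).strictMono ((io_lt hs' hs).1 hus)

theorem up_fr {y z w : X} (h : FR g A ρ y z) (hw : up w y) : ∃ w', FR g A ρ w w' ∧ up w' z := by
  induction h with
  | refl => exact ⟨w, .refl, hw⟩
  | tail _ hst ih =>
    obtain ⟨p, q, hst⟩ := hst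
    obtain ⟨w', h1, h2⟩ := ih
    obtain ⟨w'', h3, h4⟩ := F.up_step hst h2
    exact ⟨w'', h1.trans h3, h4⟩

theorem et_step {p q : G} {x y : X} (hst : St g A ρ p q x y) : Et C (FR g A ρ) x y := by
  obtain ⟨s, i, hs, hp, rfl, rfl⟩ := hst
  intro d hd v hv
  have key : ∀ᶠ u in 𝓝 (io s), ∃ v', FR g A ρ (p • A u) (d v') := by
    have h1 : {w | ∃ v', q • A w = d v'} ∈ 𝓝 (io ((ρ ^ i) s)) :=
      (F.om.opn (F.arm q) hd).mem_nhds ⟨v, hv.symm⟩
    have h2 : ContinuousAt (fun s' : II => io ((ρ ^ i) s')) s :=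
      (io_cont (zpow_lt_one ρ i hs)).comp (ρ ^ i).continuous.continuousAt
    have h3 := io_near hs (h2 h1)
    have h4 : ∀ᶠ u in 𝓝 (io s), u < 0 → ∃ v', p • A u = d v' := by
      rcases (io_nonneg s).eq_or_lt with e | e
      · have hs0 : s = 0 := by
          by_contra hne
          have := (io_lt (zero_lt_one' II) hs).2 (lt_of_le_of_ne bot_le (Ne.symm hne))
          rw [io_zero] at this
          exact this.ne e
        subst hs0
        rw [zp_zero, io_zero, F.A0] at hv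
        have hl : LG C ((fun t => p • A t) 0) (d v) := by
          simpa [F.A0, hv] using F.lg_ss ⟨i, hp⟩
        have := F.om.lg_near (F.arm p) hd hl univ_mem
        rw [eventually_nhdsWithin_iff] at this
        rw [io_zero]
        filter_upwards [this] with u hu hu0
        obtain ⟨v', -, -, e⟩ := hu hu0
        exact ⟨v', e⟩
      · filter_upwards [lt_mem_nhds e] with u hu hu0
        exact absurd hu0 (not_lt.2 hu.le)
    filter_upwards [h3, h4] with u hu hu'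
    rcases lt_or_ge u 0 with h | h
    · obtain ⟨v', e⟩ := hu' h
      exact ⟨v', e ▸ .refl⟩
    · obtain ⟨s', ⟨v', e⟩, hs', rfl⟩ := hu h
      exact ⟨v', .single ⟨p, q, s', i, hs', hp, rfl, e.symm⟩⟩
  obtain ⟨f, f1, f2, f3, f4⟩ := F.om.shrink (F.arm p) key
  exact ⟨_, F.om.reparam (F.arm p) f1 f2, by simp [f3], fun u => f4 u⟩

theorem et_fr {x y : X} (h : FR g A ρ x y) : Et C (FR g A ρ) x y := by
  induction h with
  | refl =>
    intro d hd v hv
    refine ⟨fun t => d (v + t), F.om.reparam hd (fun a b h => by linarith) (by fun_prop),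
      by simpa using hv, fun u => ⟨_, .refl⟩⟩
  | tail _ hst ih =>
    obtain ⟨p, q, hst⟩ := hst
    intro d hd v hv
    obtain ⟨e, he, e0, he'⟩ := F.et_step hst d hd v hv
    obtain ⟨c, hc, c0, hc'⟩ := ih e he 0 e0
    refine ⟨c, hc, c0, fun u => ?_⟩
    obtain ⟨w, hw⟩ := hc' u
    obtain ⟨v', hv'⟩ := he' w
    exact ⟨v', hw.trans hv'⟩

theorem good (hab : ∀ s a b, Rel (AO A) g ρ a s s → Rel (AO A) g ρ b s s → a * b = b * a)
    (hnf : ∀ a : G, a ≠ 1 → NI {s | Rel (AO A) g ρ a s s}) :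
    Good G C (FR g A ρ) (fun x y => ∃ x', FR g A ρ x x' ∧ up x' y) where
  eqv := ⟨fun _ => .refl, fr_symm, fun h1 h2 => h1.trans h2⟩
  rsm γ _ _ h := fr_smul γ h
  opn c hc d hd := by
    rw [isOpen_iff_mem_nhds]
    rintro u ⟨v, hv⟩
    obtain ⟨c', hc', c0, h⟩ := F.et_fr hv d hd v rfl
    filter_upwards [(F.om.opn hc hc').mem_nhds ⟨0, c0.symm⟩] with u' hu'
    obtain ⟨w, e⟩ := hu'
    exact e ▸ h w
  upl x x' y h := fun ⟨w, h1, h2⟩ => ⟨w, (fr_symm h).trans h1, h2⟩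
  upr x y y' h := fun ⟨w, h1, h2⟩ => by
    obtain ⟨w', h3, h4⟩ := F.up_fr h h2
    exact ⟨w', h1.trans h3, h4⟩
  upc c hc s t := by
    refine ⟨fun ⟨w, h1, h2⟩ => not_le.1 fun hts => ?_, fun h => ⟨_, .refl, (F.om.upc hc _ _).2 h⟩⟩
    exact F.not_up_of_fr (fr_symm h1) (F.om.mono hc hts h2)
  upk c hc x hx s t := fun ⟨w, h1, h2⟩ =>
    ⟨w, h1, F.om.upk hc (fun u e => hx u (e ▸ h1)) s t h2⟩
  ups γ x y := fun ⟨w, h1, h2⟩ => ⟨γ • w, fr_smul γ h1, F.om.good.ups γ _ _ h2⟩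
  ab x γ δ h1 h2 := by
    by_cases hx : ∃ (b : G) (s : II), s < 1 ∧ x = b • A (io s)
    · obtain ⟨b, s, hs, rfl⟩ := hx
      have := hab s _ _ (fr_loop hs h1) (fr_loop hs h2)
      calc γ * δ = b * (b⁻¹ * γ * b * (b⁻¹ * δ * b)) * b⁻¹ := by group
        _ = δ * γ := by rw [this]; group
    · exact F.om.good.ab x γ δ (fr_off h1 hx) (fr_off h2 hx)
  nf γ hγ c hc u v huv := by
    by_contra hcon
    push Not at hcon
    by_cases hx : ∃ t ∈ Ioo u v, ∃ (b : G) (s : II), s < 1 ∧ c t = b • A (io s)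
    · obtain ⟨t, ht, b, s, hs, e⟩ := hx
      have h1 := F.om.near (F.arm b) hc e.symm (isOpen_Ioo.mem_nhds ht)
      have h2 := (io_cont hs) h1
      obtain ⟨l, hl, hsub⟩ := exists_Ico_subset_of_mem_nhds' h2 hs
      obtain ⟨m, hm1, hm2⟩ := exists_between hl.1
      obtain ⟨s', hs', hn⟩ := hnf (b⁻¹ * γ * b) (fun e => hγ (by
        calc γ = b * (b⁻¹ * γ * b) * b⁻¹ := by group
          _ = 1 := by rw [e]; group)) s m hm1
      have hs'l : s' < l := hs'.2.trans_lt hm2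
      obtain ⟨t', ht', e'⟩ := hsub ⟨hs'.1, hs'l⟩
      refine hn (fr_loop (hs'l.trans_le hl.2) ?_)
      have e'' : b • A (io s') = c t' := e'
      rw [e'']
      exact hcon t' ⟨ht'.1.le, ht'.2.le⟩
    · obtain ⟨t, ht, hn⟩ := F.om.good.nf γ hγ c hc ((2 * u + v) / 3) ((u + 2 * v) / 3)
        (by linarith)
      have ht' : t ∈ Ioo u v := ⟨by linarith [ht.1], by linarith [ht.2]⟩
      exact hn (fr_off (hcon t ⟨ht'.1.le, ht'.2.le⟩) fun h => hx ⟨t, ht', h⟩)

end FD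

theorem OM.fold [Countable G] (hG : Hyp G) (h : OM G C up) {μ : X} {g : G} {k : ℕ} (hk : 0 < k)
    (hg : g ≠ 1) (hL : LG C (g • μ) μ) (hfix : g ^ k • μ = μ)
    (hst : ∀ γ : G, γ • μ = μ → ∃ n : ℤ, γ = (g ^ k) ^ n) :
    ∃ r up', Good G C r up' ∧ r (g • μ) μ := by
  obtain ⟨A, hA, A0, T, hT⟩ := h.armI hfix
  have hT1 : ∀ s : II, s < 1 → T s < 1 := fun s hs => by simpa using zpow_lt_one T 1 hs
  obtain ⟨ρ, rfl, hab, hnf⟩ := generic hG (h.grpd hA) hg hk T fun s hs => ⟨hs, hT1 s hs, hT s hs⟩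
  have F : FD C up μ g k A ρ := ⟨h, hA, A0, hL, fun _ _ => hG.zpow_inj hg, hT, hst⟩
  refine ⟨_, _, F.good hab hnf, .single ⟨g, 1, 0, 1, zero_lt_one, by simp, ?_, ?_⟩⟩
  · rw [io_zero, A0]
  · rw [zp_zero, io_zero, A0, one_smul]

end Pool.Agent.Work.MP_3d425c_gt.Cy

/-! From simple connectivity to the side relation. -/

namespace Pool.Agent.Work.MP_3d425c_gt.Cy
open Set Filter Topology

variable {G Y L : Type*} [Group G] [MulAction G Y] [MulAction G L] [TopologicalSpace Y]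
  [TopologicalSpace L] {q : Y → L} {A : Set (ℝ → L)}

theorem Leaves.chain [PreconnectedSpace Y] (h : Leaves G q A) (P : L → Prop)
    (hP : ∀ c ∈ A, ∀ s t, P (c s) → P (c t)) (x y : L) (hx : P x) : P y := by
  have key : ∀ Q : L → Prop, (∀ c ∈ A, ∀ s t, Q (c s) → Q (c t)) → IsOpen {z | Q z} := by
    intro Q hQ
    refine isOpen_iff_forall_mem_open.2 fun z hz => ?_
    obtain ⟨c, hc, s, rfl⟩ := h.cover z
    exact ⟨range c, by rintro _ ⟨t, rfl⟩; exact hQ c hc s t hz, (h.chart c hc).isOpen_range, s, rfl⟩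
  have h1 : IsClopen (q ⁻¹' {z | P z}) :=
    IsClopen.preimage ⟨⟨key (fun z => ¬ P z) fun c hc s t h1 h2 => h1 (hP c hc t s h2)⟩, key P hP⟩
      h.quot.continuous
  obtain ⟨x', rfl⟩ := h.quot.surjective x
  obtain ⟨y', rfl⟩ := h.quot.surjective y
  have h2 := h1.eq_univ ⟨x', hx⟩
  exact (h2.symm ▸ mem_univ y' : y' ∈ q ⁻¹' {z | P z})

/-- A locally constant transition function on the overlap of two open sets that cover a simply
connected space is a coboundary. -/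
theorem brA_cob [SimplyConnectedSpace Y] [LocallyPathConnectedSpace Y] (V : Bool → Set Y)
    (hV : ∀ i, IsOpen (V i)) (hc : ∀ y, ∃ i, y ∈ V i) (σ : Y → Bool)
    (hσ : ContinuousOn σ (V false ∩ V true)) :
    ∃ f : Bool → Y → Bool, (∀ i, ContinuousOn (f i) (V i)) ∧
      ∀ y, f false y = xor (f true y) (σ y) := by
  choose ix hix using hc
  let Z : FiberBundleCore Bool Y Bool :=
    { baseSet := V
      isOpen_baseSet := hV
      indexAt := ix
      mem_baseSet_at := hix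
      coordChange := fun i j y v => xor v (xor i j && σ y)
      coordChange_self := fun i y _ v => by simp
      continuousOn_coordChange := fun i j => by
        have h1 : Continuous fun p : Bool × Bool => xor p.2 (xor i j && p.1) :=
          continuous_of_discreteTopology
        by_cases e : i = j
        · subst e
          simpa using continuous_snd.continuousOn
        · refine h1.comp_continuousOn (f := fun p : Y × Bool => (σ p.1, p.2))
            (ContinuousOn.prodMk (hσ.comp continuous_fst.continuousOn fun p hp => ?_)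
              continuous_snd.continuousOn)
          have h2 := hp.1
          cases i <;> cases j
          · exact absurd rfl e
          · exact h2
          · exact ⟨h2.2, h2.1⟩
          · exact absurd rfl e
      coordChange_comp := fun i j k y _ v => by
        cases i <;> cases j <;> cases k <;> cases v <;> cases σ y <;> rfl }
  have hcov : IsCoveringMap Z.proj :=
    IsFiberBundle.isCoveringMap fun y => ⟨Z.localTriv (ix y), hix y⟩
  obtain ⟨y0⟩ : Nonempty Y := inferInstance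
  obtain ⟨F, ⟨-, hF⟩, -⟩ := hcov.existsUnique_continuousMap_lifts (ContinuousMap.id Y) y0
    ⟨y0, false⟩ rfl
  have hp : ∀ y, (F y).1 = y := fun y => congrFun hF y
  refine ⟨fun i y => (Z.localTriv i (F y)).2, fun i => ?_, fun y => ?_⟩
  · refine continuous_snd.comp_continuousOn
      ((Z.localTriv i).continuousOn.comp F.continuous.continuousOn fun y hy => ?_)
    show (F y).1 ∈ V i
    rwa [hp]
  · show xor (F y).2 (xor (ix (F y).1) false && σ (F y).1) =
      xor (xor (F y).2 (xor (ix (F y).1) true && σ (F y).1)) (σ y)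
    have e : σ (F y).1 = σ y := by rw [hp]
    rw [e]
    generalize ix (F y).1 = a
    generalize σ y = b
    generalize hv : (show Bool from (F y).2) = v
    have e2 : ∀ a b v : Bool, xor v (xor a false && b) = xor (xor v (xor a true && b)) b := by
      decide
    exact e2 _ _ _

/-- descent of a locally constant function along connected fibres -/
theorem brA_desc (hq : IsOpenQuotientMap q) (hconn : ∀ x, IsPreconnected (q ⁻¹' {x})) {O : Set L}
    (hO : IsOpen O) {f : Y → Bool} (hf : ContinuousOn f (q ⁻¹' O)) (k : Bool) :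
    ∃ W : Set L, W ⊆ O ∧ IsOpen W ∧ IsOpen (O \ W) ∧ ∀ y, q y ∈ O → (q y ∈ W ↔ f y = k) := by
  have h1 : ∀ s : Set Bool, IsOpen (q '' (q ⁻¹' O ∩ f ⁻¹' s)) := fun s =>
    hq.isOpenMap _ (hf.isOpen_inter_preimage (hO.preimage hq.continuous) (isOpen_discrete s))
  have h2 : ∀ (s : Set Bool) y, q y ∈ O → (q y ∈ q '' (q ⁻¹' O ∩ f ⁻¹' s) ↔ f y ∈ s) := by
    refine fun s y hy => ⟨?_, fun h => ⟨y, ⟨hy, h⟩, rfl⟩⟩
    rintro ⟨y', ⟨-, h3⟩, h4⟩
    have h5 : f y' = f y := (hconn (q y)).constant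
      (hf.mono fun z (hz : q z = q y) => show q z ∈ O from hz ▸ hy) h4 rfl
    exact h5 ▸ h3
  refine ⟨q '' (q ⁻¹' O ∩ f ⁻¹' {k}), by rintro _ ⟨y, hy, rfl⟩; exact hy.1, h1 _, ?_, h2 _⟩
  have e : O \ q '' (q ⁻¹' O ∩ f ⁻¹' {k}) = q '' (q ⁻¹' O ∩ f ⁻¹' {k}ᶜ) := by
    ext z
    obtain ⟨y, rfl⟩ := hq.surjective z
    refine ⟨fun h => (h2 _ y h.1).2 fun h3 => h.2 ((h2 _ y h.1).2 h3), fun h => ?_⟩
    have hy : q y ∈ O := by
      obtain ⟨y', h3, h4⟩ := h
      exact h4 ▸ h3.1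
    exact ⟨hy, fun h3 => (h2 _ y hy).1 h ((h2 _ y hy).1 h3)⟩
  rw [e]
  exact h1 _

/-- Every point separates. Hint: glue the double cover of `Y` over the open sets
`q ⁻¹' {x}ᶜ` and `q ⁻¹' range c` with the transition given by the side of `x = c t₀`,
lift the identity (`IsCoveringMap.existsUnique_continuousMap_lifts`), and descend along the
connected fibres. -/
theorem Leaves.side [SimplyConnectedSpace Y] [LocallyPathConnectedSpace Y] (h : Leaves G q A)
    {c : ℝ → L} (hc : c ∈ A) (t₀ : ℝ) :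
    ∃ U : Set L, IsOpen U ∧ IsOpen (Uᶜ \ {c t₀}) ∧ ∀ t, c t ∈ U ↔ t₀ < t := by
  classical
  have hch := h.chart c hc
  have hx : IsOpen ({c t₀}ᶜ : Set L) := by
    refine isOpen_iff_forall_mem_open.2 fun z hz => ?_
    obtain ⟨d, hd, s, rfl⟩ := h.cover z
    have h1 : (d ⁻¹' {c t₀}).Subsingleton :=
      subsingleton_singleton.preimage (h.chart d hd).injective
    refine ⟨d '' (d ⁻¹' {c t₀})ᶜ, ?_, (h.chart d hd).isOpenMap _ h1.isClosed.isOpen_compl, s, hz, rfl⟩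
    rintro _ ⟨u, hu, rfl⟩
    exact hu
  have hup : ∀ t, c t ∈ c '' Ioi t₀ ↔ t₀ < t := fun t => hch.injective.mem_set_image
  let σ : Y → Bool := fun y => decide (q y ∈ c '' Ioi t₀)
  obtain ⟨f, hf, hfσ⟩ := brA_cob (fun i => q ⁻¹' (cond i (range c) {c t₀}ᶜ))
    (fun i => by
      cases i
      · exact hx.preimage h.quot.continuous
      · exact hch.isOpen_range.preimage h.quot.continuous)
    (fun y => by
      by_cases e : q y = c t₀
      · exact ⟨true, t₀, e.symm⟩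
      · exact ⟨false, e⟩) σ
    (by
      rintro y ⟨h1, t, h2⟩
      have h3 : t ≠ t₀ := fun e => h1 (by rw [← h2, e]; rfl)
      refine ContinuousAt.continuousWithinAt (EventuallyEq.continuousAt (y := σ y) ?_)
      rcases h3.lt_or_gt with h4 | h4
      · filter_upwards [((hch.isOpenMap _ (isOpen_Iio (a := t₀))).preimage
          h.quot.continuous).mem_nhds (show y ∈ _ from ⟨t, h4, h2⟩)] with z hz
        obtain ⟨u, h5, h6⟩ := hz
        refine decide_eq_decide.2 ?_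
        rw [← h6, ← h2, hup, hup]
        exact iff_of_false (not_lt.2 (le_of_lt h5)) (not_lt.2 h4.le)
      · filter_upwards [((hch.isOpenMap _ (isOpen_Ioi (a := t₀))).preimage
          h.quot.continuous).mem_nhds (show y ∈ _ from ⟨t, h4, h2⟩)] with z hz
        exact decide_eq_decide.2 (iff_of_true hz ⟨t, h4, h2⟩))
  obtain ⟨y0, hy0⟩ := h.quot.surjective (c t₀)
  obtain ⟨W1, -, a1, a2, a3⟩ := brA_desc h.quot h.conn hch.isOpen_range (hf true) (f true y0)
  have a4 : IsClopen (c ⁻¹' W1) := by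
    refine ⟨⟨?_⟩, a1.preimage hch.continuous⟩
    have e : (c ⁻¹' W1)ᶜ = c ⁻¹' (range c \ W1) := by
      ext t
      simp
    rw [e]
    exact a2.preimage hch.continuous
  have a5 := a4.eq_univ ⟨t₀, show c t₀ ∈ W1 from hy0 ▸ (a3 y0 ⟨t₀, hy0.symm⟩).2 rfl⟩
  have a6 : ∀ y t, q y = c t → f true y = f true y0 := fun y t e =>
    (a3 y ⟨t, e.symm⟩).1 (e ▸ (a5.symm ▸ mem_univ t : t ∈ c ⁻¹' W1))
  obtain ⟨U, b0, b1, b2, b3⟩ := brA_desc h.quot h.conn hx (hf false) (!f true y0)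
  refine ⟨U, b1, ?_, fun t => ?_⟩
  · have e : Uᶜ \ {c t₀} = {c t₀}ᶜ \ U := by
      ext z
      exact and_comm
    rwa [e]
  · by_cases e : t = t₀
    · exact iff_of_false (fun h1 => b0 h1 (by rw [e]; rfl)) (by rw [e]; exact lt_irrefl _)
    · obtain ⟨y, hy⟩ := h.quot.surjective (c t)
      have h1 : q y ∈ ({c t₀}ᶜ : Set L) := fun h2 => e (hch.injective (hy.symm.trans h2))
      rw [← hup, ← hy, b3 y h1, hfσ, a6 y t hy]
      have e2 : ∀ a b : Bool, xor a b = !a ↔ b = true := by decide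
      rw [e2]
      exact decide_eq_true_iff

end Pool.Agent.Work.MP_3d425c_gt.Cy

/-! From simple connectivity to the side relation. -/

namespace Pool.Agent.Work.MP_3d425c_gt.Cy
open Set Filter Topology

variable {G Y L : Type*} [Group G] [MulAction G Y] [MulAction G L] [TopologicalSpace Y]
  [TopologicalSpace L] {q : Y → L} {A : Set (ℝ → L)}

/-- `U` is an upper side of `x`, described by charts only. -/
def brBSide (A : Set (ℝ → L)) (x : L) (U : Set L) : Prop :=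
  (∀ c ∈ A, ∀ s t, c s = x → (c t ∈ U ↔ s < t)) ∧
    ∀ c ∈ A, (∀ t, x ≠ c t) → ∀ s t, c s ∈ U → c t ∈ U

theorem brB_exists [SimplyConnectedSpace Y] [LocallyPathConnectedSpace Y] (h : Leaves G q A)
    (x : L) : ∃ U, brBSide A x U := by
  obtain ⟨c, hc, t₀, rfl⟩ := h.cover x
  obtain ⟨U, h1, h2, h3⟩ := h.side hc t₀
  have key : ∀ d ∈ A, ∀ S : Set ℝ, IsPreconnected S → (∀ t ∈ S, d t ≠ c t₀) →
      ∀ s ∈ S, ∀ t ∈ S, d s ∈ U → d t ∈ U := by
    intro d hd S hS hne s hs t ht hU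
    have hcont := (h.chart d hd).continuous
    refine hS.subset_left_of_subset_union (h1.preimage hcont) (h2.preimage hcont) ?_ ?_
      ⟨s, hs, hU⟩ ht
    · exact disjoint_left.2 fun u a b => b.1 a
    · intro u hu
      by_cases e : d u ∈ U
      · exact Or.inl e
      · exact Or.inr ⟨e, hne u hu⟩
  refine ⟨U, fun d hd s t e => ?_, fun d hd hx s t =>
    key d hd univ isPreconnected_univ (fun u _ a => hx u a.symm) s trivial t trivial⟩
  have hinj := (h.chart d hd).injective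
  have ev : ∀ᶠ u in 𝓝 s, (d u ∈ U ↔ s < u) := by
    have a : ∀ᶠ u in 𝓝 s, d u ∈ range c :=
      ((h.chart c hc).isOpen_range.preimage (h.chart d hd).continuous).mem_nhds ⟨t₀, e.symm⟩
    filter_upwards [a, h.orient d hd c hc s t₀ e] with u a1 a2
    obtain ⟨v, hv⟩ := a1
    rw [a2 v hv.symm, ← hv, h3]
  rcases lt_trichotomy s t with hl | hl | hl
  · obtain ⟨u, a1, a2⟩ := ((ev.filter_mono (nhdsWithin_le_nhds (s := Ioi s))).and
      self_mem_nhdsWithin).exists
    exact iff_of_true (key d hd (Ioi s) isPreconnected_Ioi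
      (fun v hv a => (ne_of_gt hv) (hinj (a.trans e.symm))) u a2 t hl (a1.2 a2)) hl
  · subst hl
    exact ev.self_of_nhds
  · obtain ⟨u, a1, a2⟩ := ((ev.filter_mono (nhdsWithin_le_nhds (s := Iio s))).and
      self_mem_nhdsWithin).exists
    refine iff_of_false (fun b => ?_) (not_lt.2 hl.le)
    exact lt_asymm a2 (a1.1 (key d hd (Iio s) isPreconnected_Iio
      (fun v hv a => (ne_of_lt hv) (hinj (a.trans e.symm))) t hl u a2 b))

theorem Leaves.exists_up [SimplyConnectedSpace Y] [LocallyPathConnectedSpace Y]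
    (h : Leaves G q A) :
    ∃ up : L → L → Prop, (∀ c ∈ A, ∀ s t, up (c s) (c t) ↔ s < t) ∧
      (∀ c ∈ A, ∀ x, (∀ t, x ≠ c t) → ∀ s t, up x (c s) → up x (c t)) ∧
      ∀ (g : G) x y, up x y → up (g • x) (g • y) := by
  refine ⟨fun x y => ∃ U, brBSide A x U ∧ y ∈ U, fun c hc s t => ⟨?_, fun hst => ?_⟩, ?_, ?_⟩
  · rintro ⟨U, h1, h2⟩
    exact (h1.1 c hc s t rfl).1 h2
  · obtain ⟨U, hU⟩ := brB_exists h (c s)
    exact ⟨U, hU, (hU.1 c hc s t rfl).2 hst⟩
  · rintro c hc x hx s t ⟨U, h1, h2⟩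
    exact ⟨U, h1, h1.2 c hc hx s t h2⟩
  · rintro g x y ⟨U, h1, h2⟩
    refine ⟨{z | g⁻¹ • z ∈ U}, ⟨fun c hc s t e => ?_, fun c hc hx s t => ?_⟩, ?_⟩
    · exact h1.1 _ (h.inv g⁻¹ c hc) s t (by simp [e])
    · exact h1.2 _ (h.inv g⁻¹ c hc) (fun u e => hx u (by simp [e])) s t
    · simpa using h2

end Pool.Agent.Work.MP_3d425c_gt.Cy

/-! A cocycle detecting point stabilisers, and blown-up lines. -/

namespace Pool.Agent.Work.MP_3d425c_gt.Cy
open Set Filter Topology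

theorem blA_nu {G X : Type*} [Group G] [MulAction G X] (hG : Hyp G)
    (hab : ∀ (x : X) (a b : G), a • x = x → b • x = x → a * b = b * a) (x : X) :
    ∃ ν : G → ℤ, (∀ a b, a • x = x → b • x = x → ν (a * b) = ν a + ν b) ∧
      ∀ a, a • x = x → ν a = 0 → a = 1 := by
  by_cases hs : ∃ b : G, b • x = x ∧ b ≠ 1
  · obtain ⟨b, hb, hb1⟩ := hs
    obtain ⟨z, -, hz⟩ := grpA_gen hG hb1
    have hz1 : z ≠ 1 := fun e => by
      obtain ⟨n, hn⟩ := hz b rfl
      exact hb1 (by rw [hn, e, one_zpow])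
    have hex : ∀ a : G, ∃ n : ℤ, a • x = x → a = z ^ n := fun a => by
      by_cases ha : a • x = x
      · obtain ⟨n, hn⟩ := hz a (hab x a b ha hb)
        exact ⟨n, fun _ => hn⟩
      · exact ⟨0, fun e => absurd e ha⟩
    choose ν hν using hex
    refine ⟨ν, fun a c ha hc => grpA_inj hG hz1 ?_, fun a ha h0 => ?_⟩
    · rw [zpow_add, ← hν a ha, ← hν c hc, ← hν (a * c) (by rw [mul_smul, hc, ha])]
    · rw [hν a ha, h0, zpow_zero]
  · exact ⟨fun _ => 0, fun _ _ _ _ => rfl, fun a ha _ => by_contra fun e => hs ⟨a, ha, e⟩⟩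

/-- Hint: choose a representative `x₀` of every orbit, `σ x` with `σ x • x₀ = x`, and an
injective homomorphism from the (trivial or infinite cyclic) stabiliser of `x₀` to the integers;
apply it to `(σ (γ • x))⁻¹ * γ * σ x`. -/
theorem exists_cocycle {G X : Type*} [Group G] [MulAction G X] (hG : Hyp G)
    (hab : ∀ (x : X) (a b : G), a • x = x → b • x = x → a * b = b * a) :
    ∃ N : G → X → ℤ, (∀ γ δ x, N (γ * δ) x = N γ (δ • x) + N δ x) ∧
      ∀ γ x, γ • x = x → N γ x = 0 → γ = 1 := by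
  choose ν hν1 hν2 using blA_nu hG hab
  obtain ⟨p, hp1, hp2⟩ : ∃ p : X → X, (∀ (g : G) x, p (g • x) = p x) ∧
      ∀ x, ∃ s : G, s • p x = x := by
    refine ⟨fun x => (Quotient.mk (MulAction.orbitRel G X) x).out, fun g x => ?_, fun x => ?_⟩
    · have e : Quotient.mk (MulAction.orbitRel G X) (g • x) = Quotient.mk _ x :=
        Quotient.sound ⟨g, rfl⟩
      simp only [e]
    · obtain ⟨g, hg⟩ := Quotient.mk_out (s := MulAction.orbitRel G X) x
      exact ⟨g⁻¹, inv_smul_eq_iff.2 hg.symm⟩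
  choose σ hσ using hp2
  have fx : ∀ (γ : G) x, ((σ (γ • x))⁻¹ * γ * σ x) • p x = p x := fun γ x => by
    rw [mul_smul, mul_smul, hσ, inv_smul_eq_iff, ← hp1 γ x, hσ]
  refine ⟨fun γ x => ν (p x) ((σ (γ • x))⁻¹ * γ * σ x), fun γ δ x => ?_, fun γ x hx h0 => ?_⟩
  · have h1 := fx γ (δ • x)
    rw [hp1] at h1
    simp only [hp1, mul_smul]
    rw [← hν1 _ _ _ h1 (fx δ x)]
    congr 1
    group
  · have h1 := hν2 _ _ (fx γ x) h0
    rw [hx] at h1
    calc γ = σ x * ((σ x)⁻¹ * γ * σ x) * (σ x)⁻¹ := by group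
      _ = 1 := by rw [h1]; group

theorem exists_free_iso : ∃ f : II ≃o II, ∀ s : II, 0 < s → s < 1 → f s ≠ s := by
  have hm : StrictMono fun s : II => s * s := fun s t hst =>
    Subtype.coe_lt_coe.1 (by
      have h1 : (s : ℝ) < t := hst
      have h2 := s.2.1
      simp only [Set.Icc.coe_mul]
      nlinarith)
  have hs : Function.Surjective fun s : II => s * s := fun t =>
    ⟨⟨Real.sqrt t, Real.sqrt_nonneg _, Real.sqrt_le_one.2 t.2.2⟩,
      Subtype.ext (Real.mul_self_sqrt t.2.1)⟩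
  refine ⟨hm.orderIsoOfSurjective _ hs, fun s h0 h1 e => ?_⟩
  have e' : (s : ℝ) * s = s := congrArg Subtype.val e
  have a0 : (0 : ℝ) < s := h0
  have a1 : (s : ℝ) < 1 := h1
  nlinarith

end Pool.Agent.Work.MP_3d425c_gt.Cy

/-! The real line blown up along a countable set is again a real line. -/

namespace Pool.Agent.Work.MP_3d425c_gt.Cy
open Set Filter Topology

theorem blowB_abs {S : Set ℝ} {L R : ℝ → ℝ} (h1 : ∀ t, L t ≤ R t) (h2 : ∀ t t', t < t' → R t < L t')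
    (h3 : ∀ t ∈ S, L t < R t) (h4 : ∀ t, t ∉ S → L t = R t) (h5 : ∀ u, ∃ t, L t ≤ u ∧ u ≤ R t) :
    ∃ (τ : ℝ → ℝ) (σ : ℝ → II), (∀ u, τ u ∉ S → σ u = 0) ∧
      (∀ u u', u < u' → τ u < τ u' ∨ (τ u = τ u' ∧ σ u < σ u')) ∧
      ∀ (t : ℝ) (s : II), (t ∉ S → s = 0) → ∃ u, τ u = t ∧ σ u = s := by
  have lo : ∀ (t : ℝ) (s : II), L t ≤ L t + s * (R t - L t) := fun t s =>
    le_add_of_nonneg_right (mul_nonneg s.2.1 (sub_nonneg.2 (h1 t)))
  have hi : ∀ (t : ℝ) (s : II), L t + s * (R t - L t) ≤ R t := fun t s => by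
    have := mul_le_of_le_one_left (sub_nonneg.2 (h1 t)) s.2.2
    linarith
  have lt : ∀ (t t' : ℝ) (s s' : II), t < t' →
      L t + s * (R t - L t) < L t' + s' * (R t' - L t') := fun t t' s s' h =>
    (hi t s).trans_lt ((h2 t t' h).trans_le (lo t' s'))
  have ex : ∀ u, ∃ (t : ℝ) (s : II), (t ∉ S → s = 0) ∧ u = L t + s * (R t - L t) := fun u => by
    obtain ⟨t, a, b⟩ := h5 u
    by_cases ht : t ∈ S
    · have hp := sub_pos.2 (h3 t ht)
      refine ⟨t, ⟨(u - L t) / (R t - L t), div_nonneg (sub_nonneg.2 a) hp.le,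
        (div_le_one hp).2 (by linarith)⟩, fun h => absurd ht h, ?_⟩
      rw [Subtype.coe_mk, div_mul_cancel₀ _ hp.ne']
      ring
    · refine ⟨t, 0, fun _ => rfl, ?_⟩
      have := h4 t ht
      rw [Icc.coe_zero]
      linarith
  choose τ σ e1 e2 using ex
  refine ⟨τ, σ, e1, fun u u' h => ?_, fun t s hs => ⟨L t + s * (R t - L t), ?_⟩⟩
  · rcases lt_trichotomy (τ u) (τ u') with h6 | h6 | h6
    · exact Or.inl h6
    · refine Or.inr ⟨h6, not_le.1 fun h7 => ?_⟩
      have h8 := mul_le_mul_of_nonneg_right (Subtype.coe_le_coe.2 h7) (sub_nonneg.2 (h1 (τ u')))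
      have h9 := e2 u
      have h10 := e2 u'
      rw [h6] at h9
      linarith
    · have h7 := lt _ _ (σ u') (σ u) h6
      rw [← e2 u, ← e2 u'] at h7
      exact absurd h7 h.not_gt
  · have h6 := e2 (L t + s * (R t - L t))
    have h7 : τ (L t + s * (R t - L t)) = t := by
      rcases lt_trichotomy (τ (L t + s * (R t - L t))) t with h7 | h7 | h7
      · exact absurd h6 (lt _ _ _ s h7).ne'
      · exact h7
      · exact absurd h6 (lt _ _ s _ h7).ne
    refine ⟨h7, ?_⟩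
    by_cases ht : t ∈ S
    · rw [h7] at h6
      exact Subtype.ext (mul_right_cancel₀ (sub_pos.2 (h3 t ht)).ne' (add_left_cancel h6)).symm
    · rw [e1 _ (h7.symm ▸ ht), hs ht]

open Classical in
/-- The total weight of the indices in a set. -/
noncomputable def blowW (A : Set ℕ) : ℝ := ∑' n, if n ∈ A then (1 / 2 : ℝ) ^ n else 0

open Classical in
theorem blowB_le (A : Set ℕ) (n : ℕ) :
    0 ≤ (if n ∈ A then (1 / 2 : ℝ) ^ n else 0) ∧
      (if n ∈ A then (1 / 2 : ℝ) ^ n else 0) ≤ (1 / 2 : ℝ) ^ n := by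
  split_ifs
  · exact ⟨by positivity, le_rfl⟩
  · exact ⟨le_rfl, by positivity⟩

open Classical in
theorem blowB_sum (A : Set ℕ) : Summable fun n => if n ∈ A then (1 / 2 : ℝ) ^ n else 0 :=
  summable_geometric_two.of_nonneg_of_le (fun n => (blowB_le A n).1) fun n => (blowB_le A n).2

open Classical in
theorem blowB_term {A B : Set ℕ} (h : A ⊆ B) (n : ℕ) :
    (if n ∈ A then (1 / 2 : ℝ) ^ n else 0) ≤ if n ∈ B then (1 / 2 : ℝ) ^ n else 0 := by
  by_cases hn : n ∈ A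
  · rw [if_pos hn, if_pos (h hn)]
  · rw [if_neg hn]
    exact (blowB_le B n).1

theorem blowB_mono {A B : Set ℕ} (h : A ⊆ B) : blowW A ≤ blowW B :=
  (blowB_sum A).tsum_le_tsum (blowB_term h) (blowB_sum B)

theorem blowB_lt {A B : Set ℕ} (h : A ⊆ B) {n : ℕ} (h1 : n ∉ A) (h2 : n ∈ B) :
    blowW A < blowW B :=
  (blowB_sum A).tsum_lt_tsum (i := n) (blowB_term h) (by
    rw [if_neg h1, if_pos h2]
    positivity) (blowB_sum B)

theorem blowB_nn (A : Set ℕ) : 0 ≤ blowW A := tsum_nonneg fun n => (blowB_le A n).1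

theorem blowB_lim {F : Filter ℝ} {A : ℝ → Set ℕ} {B : Set ℕ}
    (h : ∀ n, ∀ᶠ s in F, n ∈ A s ↔ n ∈ B) : Tendsto (fun s => blowW (A s)) F (𝓝 (blowW B)) := by
  refine tendsto_tsum_of_dominated_convergence summable_geometric_two (fun n => ?_)
    (Eventually.of_forall fun s n => ?_)
  · refine tendsto_const_nhds.congr' ((h n).mono fun s hs => ?_)
    by_cases hn : n ∈ B
    · exact (if_pos hn).trans (if_pos (hs.2 hn)).symm
    · exact (if_neg hn).trans (if_neg fun h' => hn (hs.1 h')).symm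
  · rw [Real.norm_of_nonneg (blowB_le _ n).1]
    exact (blowB_le _ n).2

/-- Hint: positive summable weights `w` on `S`, `F t = t + ∑ (s < t) w s`; the map
`(t, σ) ↦ F t + σ * w t` is strictly increasing for the lexicographic order and onto; for `u`
take `t = sSup {t | F t ≤ u}`. -/
theorem exists_line {S : Set ℝ} (hS : S.Countable) :
    ∃ (τ : ℝ → ℝ) (σ : ℝ → II), (∀ u, τ u ∉ S → σ u = 0) ∧
      (∀ u u', u < u' → τ u < τ u' ∨ (τ u = τ u' ∧ σ u < σ u')) ∧
      ∀ (t : ℝ) (s : II), (t ∉ S → s = 0) → ∃ u, τ u = t ∧ σ u = s := by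
  obtain ⟨f, hf⟩ := Set.countable_iff_exists_subset_range.1 hS
  have h1 : ∀ t, t + blowW {n | f n ∈ S ∧ f n < t} ≤ t + blowW {n | f n ∈ S ∧ f n ≤ t} :=
    fun t => add_le_add le_rfl (blowB_mono fun n hn => ⟨hn.1, hn.2.le⟩)
  refine blowB_abs (L := fun t => t + blowW {n | f n ∈ S ∧ f n < t})
    (R := fun t => t + blowW {n | f n ∈ S ∧ f n ≤ t}) h1
    (fun t t' h => add_lt_add_of_lt_of_le h (blowB_mono fun n hn => ⟨hn.1, hn.2.trans_lt h⟩))
    (fun t ht => ?_) (fun t ht => ?_) fun u => ?_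
  · obtain ⟨n, rfl⟩ := hf ht
    exact add_lt_add_of_le_of_lt le_rfl (blowB_lt (n := n) (fun n hn => ⟨hn.1, hn.2.le⟩)
      (fun h => lt_irrefl _ h.2) ⟨ht, le_rfl⟩)
  · refine (h1 t).antisymm (add_le_add le_rfl (blowB_mono fun n hn => ⟨hn.1, ?_⟩))
    exact lt_of_le_of_ne hn.2 fun e => ht (e ▸ hn.1)
  · have hne : {t | t + blowW {n | f n ∈ S ∧ f n < t} ≤ u}.Nonempty := by
      refine ⟨u - blowW univ, ?_⟩
      have := blowB_mono (subset_univ {n | f n ∈ S ∧ f n < u - blowW univ})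
      exact (add_le_add le_rfl this).trans_eq (sub_add_cancel _ _)
    have hbd : BddAbove {t | t + blowW {n | f n ∈ S ∧ f n < t} ≤ u} :=
      ⟨u, fun t ht => (le_add_of_nonneg_right (blowB_nn _)).trans ht⟩
    obtain ⟨t, ht⟩ : ∃ t, IsLUB {t | t + blowW {n | f n ∈ S ∧ f n < t} ≤ u} t :=
      ⟨_, isLUB_csSup hne hbd⟩
    refine ⟨t, ?_, ?_⟩
    · have h2 : Tendsto (fun s => s + blowW {n | f n ∈ S ∧ f n < s}) (𝓝[<] t)
          (𝓝 (t + blowW {n | f n ∈ S ∧ f n < t})) := by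
        refine (tendsto_id.mono_left nhdsWithin_le_nhds).add (blowB_lim fun n => ?_)
        by_cases h : f n < t
        · filter_upwards [Ioo_mem_nhdsLT h] with s hs
          exact and_congr_right fun _ => iff_of_true hs.1 h
        · filter_upwards [self_mem_nhdsWithin] with s hs
          exact and_congr_right fun _ => iff_of_false (fun h' => h (h'.trans hs)) h
      refine le_of_tendsto h2 ?_
      filter_upwards [self_mem_nhdsWithin] with s hs
      obtain ⟨s', h3, h4, -⟩ := ht.exists_between hs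
      exact le_trans (add_le_add h4.le (blowB_mono fun n hn => And.intro hn.1 (hn.2.trans h4))) h3
    · have h2 : Tendsto (fun s => s + blowW {n | f n ∈ S ∧ f n ≤ s}) (𝓝[>] t)
          (𝓝 (t + blowW {n | f n ∈ S ∧ f n ≤ t})) := by
        refine (tendsto_id.mono_left nhdsWithin_le_nhds).add (blowB_lim fun n => ?_)
        by_cases h : f n ≤ t
        · filter_upwards [self_mem_nhdsWithin] with s hs
          exact and_congr_right fun _ => iff_of_true (h.trans (le_of_lt hs)) h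
        · filter_upwards [Ioo_mem_nhdsGT (not_le.1 h)] with s hs
          exact and_congr_right fun _ => iff_of_false hs.2.not_ge h
      refine ge_of_tendsto h2 ?_
      filter_upwards [self_mem_nhdsWithin] with s hs
      have h3 : ¬ s + blowW {n | f n ∈ S ∧ f n < s} ≤ u := fun h => not_le.2 hs (ht.1 h)
      exact (not_le.1 h3).le.trans (h1 s)

end Pool.Agent.Work.MP_3d425c_gt.Cy

/-! Blowing up a countable dense invariant set makes all fixed sets nowhere dense. -/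

namespace Pool.Agent.Work.MP_3d425c_gt.Cy
open Set Filter Topology

universe u
variable {G : Type*} {X : Type u} [Group G] [MulAction G X]

/-- The blown-up space. -/
def Bl (D : Set X) : Type u := {p : X × II // p.1 ∉ D → p.2 = 0}

/-- `a` is the blow-up of the chart `c`, with collapsing map `τ`. -/
structure Lifts (D : Set X) (c : ℝ → X) (τ : ℝ → ℝ) (a : ℝ → Bl D) : Prop where
  base : ∀ u, (a u).1.1 = c (τ u)
  lex : ∀ u u', u < u' → τ u < τ u' ∨ (τ u = τ u' ∧ (a u).1.2 < (a u').1.2)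
  onto : ∀ (t : ℝ) (s : II), (c t ∉ D → s = 0) → ∃ u, τ u = t ∧ (a u).1.2 = s

namespace Lifts
variable {D : Set X} {c : ℝ → X} {τ : ℝ → ℝ} {a : ℝ → Bl D} (h : Lifts D c τ a)
include h

theorem mono : Monotone τ := fun u u' e => by
  rcases e.eq_or_lt with e | e
  · rw [e]
  · rcases h.lex u u' e with k | k
    · exact k.le
    · exact k.1.le

theorem surj : Function.Surjective τ := fun t => by
  obtain ⟨u, e, -⟩ := h.onto t 0 fun _ => rfl
  exact ⟨u, e⟩

theorem lex_iff (u u' : ℝ) :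
    (τ u < τ u' ∨ (τ u = τ u' ∧ (a u).1.2 < (a u').1.2)) ↔ u < u' := by
  refine ⟨fun k => not_le.1 fun e => ?_, h.lex u u'⟩
  rcases e.eq_or_lt with e | e
  · subst e; rcases k with k | k
    · exact lt_irrefl _ k
    · exact lt_irrefl _ k.2
  · rcases h.lex u' u e with k' | k' <;> rcases k with k | k
    · exact lt_asymm k k'
    · exact k'.ne' k.1
    · exact k.ne' k'.1
    · exact lt_asymm k.2 k'.2

theorem hit {p : Bl D} {t : ℝ} (e : p.1.1 = c t) : ∃ u, τ u = t ∧ a u = p := by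
  obtain ⟨u, e1, e2⟩ := h.onto t p.1.2 fun k => p.2 (e ▸ k)
  exact ⟨u, e1, Subtype.ext (Prod.ext (by rw [h.base, e1, e]) e2)⟩

end Lifts

theorem exists_lifts {D : Set X} (hD : D.Countable) {c : ℝ → X} (hc : Function.Injective c) :
    ∃ τ a, Lifts D c τ a := by
  obtain ⟨τ, σ, h1, h2, h3⟩ := exists_line (S := c ⁻¹' D) (hD.preimage_of_injOn hc.injOn)
  exact ⟨τ, fun u => ⟨(c (τ u), σ u), h1 u⟩, fun _ => rfl, h2, h3⟩

/-- The action on the blown-up space. -/
@[reducible] def blAct (D : Set X) (hD : ∀ (g : G) x, x ∈ D → g • x ∈ D) (f : II ≃o II)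
    (N : G → X → ℤ) (hN : ∀ γ δ x, N (γ * δ) x = N γ (δ • x) + N δ x) : MulAction G (Bl D) where
  smul γ p := ⟨(γ • p.1.1, (f ^ N γ p.1.1) p.1.2), fun k => by
    rw [p.2 fun k' => k (hD γ _ k')]; exact (f ^ N γ p.1.1).map_bot⟩
  one_smul p := by
    have : N 1 p.1.1 = 0 := by
      have := hN 1 1 p.1.1
      rw [one_mul, one_smul] at this
      omega
    refine Subtype.ext (Prod.ext (one_smul G _) ?_)
    change (f ^ N 1 p.1.1) p.1.2 = p.1.2
    rw [this]; rfl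
  mul_smul γ δ p := by
    refine Subtype.ext (Prod.ext (mul_smul γ δ _) ?_)
    change (f ^ N (γ * δ) p.1.1) p.1.2 = (f ^ N γ (δ • p.1.1)) ((f ^ N δ p.1.1) p.1.2)
    rw [hN, zpow_add]; rfl

theorem blow_up (hG : Hyp G) {C : Set (ℝ → X)} {up : X → X → Prop} (hP : Pre G C)
    (opn : ∀ c ∈ C, ∀ d ∈ C, IsOpen {u | ∃ v, c u = d v})
    (upc : ∀ c ∈ C, ∀ s t, up (c s) (c t) ↔ s < t)
    (upk : ∀ c ∈ C, ∀ x, (∀ t, x ≠ c t) → ∀ s t, up x (c s) → up x (c t))
    (ups : ∀ (g : G) x y, up x y → up (g • x) (g • y))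
    (ab : ∀ (x : X) (a b : G), a • x = x → b • x = x → a * b = b * a)
    {D : Set X} (hD : D.Countable) (hinv : ∀ (g : G) x, x ∈ D → g • x ∈ D)
    (hden : ∀ c ∈ C, ∀ u v : ℝ, u < v → ∃ t ∈ Ioo u v, c t ∈ D) (x₀ : X) :
    ∃ (Y : Type u) (_ : MulAction G Y) (_ : Y) (C' : Set (ℝ → Y)) (up' : Y → Y → Prop),
      Pre G C' ∧ Good G C' Eq up' := by
  obtain ⟨N, hN, hN'⟩ := exists_cocycle hG ab
  obtain ⟨f, hf⟩ := exists_free_iso
  have inj : ∀ c ∈ C, Function.Injective c := fun c hc s t e => by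
    rcases lt_trichotomy s t with k | k | k
    · exact absurd ((upc c hc t t).1 (e ▸ (upc c hc s t).2 k)) (lt_irrefl _)
    · exact k
    · exact absurd ((upc c hc s s).1 (e ▸ (upc c hc t s).2 k)) (lt_irrefl _)
  letI := blAct D hinv f N hN
  have sm1 : ∀ (γ : G) (p : Bl D), (γ • p).1.1 = γ • p.1.1 := fun _ _ => rfl
  have sm2 : ∀ (γ : G) (p : Bl D), (γ • p).1.2 = (f ^ N γ p.1.1) p.1.2 := fun _ _ => rfl
  have lift : ∀ c ∈ C, ∃ τ a, Lifts D c τ a := fun c hc => exists_lifts hD (inj c hc)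
  refine ⟨Bl D, inferInstance, ⟨(x₀, 0), fun _ => rfl⟩, {a | ∃ c ∈ C, ∃ τ, Lifts D c τ a},
    fun p p' => up p.1.1 p'.1.1 ∨ (p.1.1 = p'.1.1 ∧ p.1.2 < p'.1.2), ⟨?_, ?_, ?_, ?_⟩,
    ⟨eq_equivalence, fun g x y e => by rw [e], ?_, fun x x' y e a => e ▸ a,
      fun x y y' e a => e ▸ a, ?_, ?_, ?_, ?_, ?_⟩⟩
  · intro p
    obtain ⟨c, hc, t, e⟩ := hP.cover p.1.1
    obtain ⟨τ, a, h⟩ := lift c hc
    obtain ⟨u, -, e'⟩ := h.hit e.symm
    exact ⟨a, ⟨c, hc, τ, h⟩, u, e'⟩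
  · rintro γ a ⟨c, hc, τ, h⟩
    refine ⟨_, hP.smul γ c hc, τ, fun u => by rw [sm1, h.base], fun u u' e => ?_,
      fun t s k => ?_⟩
    · rcases h.lex u u' e with k | k
      · exact Or.inl k
      · refine Or.inr ⟨k.1, ?_⟩
        rw [sm2, sm2, h.base, h.base, k.1]
        exact (f ^ _).strictMono k.2
    · obtain ⟨u, e1, e2⟩ := h.onto t ((f ^ N γ (c t)).symm s) fun k' => by
        rw [k fun k'' => k' (by simpa using hinv γ⁻¹ _ k'')]
        exact (f ^ N γ (c t)).symm.map_bot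
      exact ⟨u, e1, by rw [sm2, h.base, e1, e2]; simp⟩
  · intro P hP' p p' hp
    have fib : ∀ p p' : Bl D, p.1.1 = p'.1.1 → P p → P p' := fun p p' e hp => by
      obtain ⟨c, hc, t, e'⟩ := hP.cover p.1.1
      obtain ⟨τ, a, h⟩ := lift c hc
      obtain ⟨u, -, e1⟩ := h.hit e'.symm
      obtain ⟨u', -, e2⟩ := h.hit (p := p') (e.symm.trans e'.symm)
      exact e2 ▸ hP' a ⟨c, hc, τ, h⟩ u u' (e1 ▸ hp)
    refine fib ⟨(p'.1.1, 0), fun _ => rfl⟩ p' rfl ?_
    refine hP.conn (fun x => P ⟨(x, 0), fun _ => rfl⟩) (fun c hc s t k => ?_) p.1.1 p'.1.1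
      (fib p _ rfl hp)
    obtain ⟨τ, a, h⟩ := lift c hc
    obtain ⟨u, -, e1⟩ := h.hit (p := ⟨(c s, 0), fun _ => rfl⟩) rfl
    obtain ⟨u', -, e2⟩ := h.hit (p := ⟨(c t, 0), fun _ => rfl⟩) rfl
    exact e2 ▸ hP' a ⟨c, hc, τ, h⟩ u u' (e1 ▸ k)
  · intro p
    obtain ⟨γ, hγ⟩ := hP.taut p.1.1
    have one : ∀ p p' : Bl D, Asc C p.1.1 p'.1.1 →
        Asc {a | ∃ c ∈ C, ∃ τ, Lifts D c τ a} p p' := by
      rintro p p' ⟨c, hc, s, t, hst, e1, e2⟩
      obtain ⟨τ, a, h⟩ := lift c hc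
      obtain ⟨u, k1, k2⟩ := h.hit e1.symm
      obtain ⟨u', k3, k4⟩ := h.hit e2.symm
      exact ⟨a, ⟨c, hc, τ, h⟩, u, u', (h.lex_iff u u').1 (Or.inl (k1 ▸ k3 ▸ hst)), k2, k4⟩
    have all : ∀ y, Relation.TransGen (Asc C) p.1.1 y → ∀ p' : Bl D, p'.1.1 = y →
        Relation.TransGen (Asc {a | ∃ c ∈ C, ∃ τ, Lifts D c τ a}) p p' := by
      intro y hy
      induction hy with
      | single k => exact fun p' e => .single (one p p' (e ▸ k))
      | @tail b _ _ k ih =>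
        exact fun p' e => .tail (ih ⟨(b, 0), fun _ => rfl⟩ rfl) (one _ p' (e ▸ k))
    exact ⟨γ, all _ hγ _ rfl⟩
  · rintro a ⟨c, hc, τ, h⟩ a' ⟨c', hc', τ', h'⟩
    have e : {u | ∃ v, a u = a' v} = τ ⁻¹' {t | ∃ v, c t = c' v} := by
      ext u
      refine ⟨fun ⟨v, k⟩ => ⟨τ' v, by rw [← h.base, k, h'.base]⟩, fun ⟨v, k⟩ => ?_⟩
      obtain ⟨w, -, k'⟩ := h'.hit (p := a u) ((h.base u).trans k)
      exact ⟨w, k'.symm⟩
    rw [e]
    exact (opn c hc c' hc').preimage (h.mono.continuous_of_surjective h.surj)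
  · rintro a ⟨c, hc, τ, h⟩ s t
    rw [h.base, h.base, upc c hc, (inj c hc).eq_iff]
    exact h.lex_iff s t
  · rintro a ⟨c, hc, τ, h⟩ p hp s t k
    have hx : ∀ t, p.1.1 ≠ c t := fun t e => by
      obtain ⟨u, -, e'⟩ := h.hit e
      exact hp u e'.symm
    rw [h.base] at k ⊢
    exact Or.inl (upk c hc _ hx _ _ (k.resolve_right fun k' => hx _ k'.1))
  · rintro γ p p' (k | k)
    · exact Or.inl (ups γ _ _ k)
    · refine Or.inr ⟨by rw [sm1, sm1, k.1], ?_⟩
      rw [sm2, sm2, k.1]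
      exact (f ^ _).strictMono k.2
  · intro p a b ha hb
    exact ab p.1.1 a b (by rw [← sm1, ha]) (by rw [← sm1, hb])
  · rintro γ hγ a ⟨c, hc, τ, h⟩ u v huv
    have key : ∀ w, 0 < (a w).1.2 → (a w).1.2 < 1 → ¬ γ • a w = a w := fun w h0 h1 e => by
      have e1 : γ • (a w).1.1 = (a w).1.1 := by rw [← sm1, e]
      have e2 : (f ^ N γ (a w).1.1) (a w).1.2 = (a w).1.2 := by rw [← sm2, e]
      exact hf _ h0 h1 (zpow_fix (fun k => hγ (hN' γ _ e1 k)) e2)
    rcases h.lex u v huv with k | k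
    · obtain ⟨t, ht, htD⟩ := hden c hc _ _ k
      obtain ⟨s, hs0, hs1⟩ := exists_between (zero_lt_one' II)
      obtain ⟨w, e1, e2⟩ := h.onto t s fun k' => absurd htD k'
      exact ⟨w, ⟨((h.lex_iff u w).1 (Or.inl (e1 ▸ ht.1))).le,
        ((h.lex_iff w v).1 (Or.inl (e1 ▸ ht.2))).le⟩, key w (e2 ▸ hs0) (e2 ▸ hs1)⟩
    · obtain ⟨s, hs0, hs1⟩ := exists_between k.2
      have hD' : c (τ v) ∈ D := by
        by_contra k'
        have := (a v).2 (by rwa [h.base])
        rw [this] at hs1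
        exact not_lt_bot hs1
      obtain ⟨w, e1, e2⟩ := h.onto (τ v) s fun k' => absurd hD' k'
      exact ⟨w, ⟨((h.lex_iff u w).1 (Or.inr ⟨k.1.trans e1.symm, e2 ▸ hs0⟩)).le,
        ((h.lex_iff w v).1 (Or.inr ⟨e1, e2 ▸ hs1⟩)).le⟩,
        key w (e2 ▸ bot_le.trans_lt hs0) (e2 ▸ hs1.trans_le le_top)⟩

end Pool.Agent.Work.MP_3d425c_gt.Cy

/-! Assembly. -/

namespace Pool.Agent.Work.MP_3d425c_gt.Cy
open Set Filter Topology

theorem lo_of_good {G X : Type*} [Group G] [Countable G] [MulAction G X] (hG : Hyp G)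
    (hB : Big G) {C : Set (ℝ → X)} {up : X → X → Prop} (hP : Pre G C) (hg : Good G C Eq up)
    (x₀ : X) :
    ∃ r : G → G → Prop, IsStrictTotalOrder G r ∧ ∀ a b c, r a b ↔ r (c * a) (c * b) := by
  obtain ⟨Y, _, y₀, C', up', hO, hmax⟩ := exists_max hP hg x₀
  have h1 : NoFold G C' := by
    intro μ g k hk hL hfix hst
    by_cases hg1 : g = 1
    · simp [hg1]
    obtain ⟨r, up'', hr, hrel⟩ := OM.fold hG hO hk hg1 hL hfix hst
    exact hmax r up'' hr _ _ hrel
  have h2 : NoFold G (dualC C') := by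
    intro μ g k hk hL hfix hst
    by_cases hg1 : g = 1
    · simp [hg1]
    obtain ⟨r, up'', hr, hrel⟩ := OM.fold hG hO.dual hk hg1 hL hfix hst
    exact hmax r _ hr.undual _ _ hrel
  obtain ⟨lo, hlo⟩ := exists_classOrd hG hB hO h1
  obtain ⟨hi, hhi⟩ := exists_classOrd hG hB hO.dual h2
  obtain ⟨lt, hlt, hinv⟩ := wind hO hlo hhi
  exact lo_of_action hG lt hlt hinv y₀ (fun a b ha hb => hO.good.ab y₀ a b ha hb)

theorem main {M Y L G : Type*} [TopologicalSpace M] [TopologicalSpace Y] [TopologicalSpace L]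
    [SimplyConnectedSpace Y] [LocallyPathConnectedSpace Y] [Group G] [Countable G]
    [MulAction G Y] [MulAction G L] (p : Y → M) (hp : IsQuotientCoveringMap p G)
    (tf : ∀ a : G, a ≠ 1 → ¬ IsOfFinOrder a)
    (cent : ∀ a : G, a ≠ 1 → IsCyclic (Subgroup.centralizer ({a} : Set G)))
    (big : ∀ E : Subgroup G, E.FG → IsCyclic E ∨ E.FiniteIndex ∨
      ∃ f : E →* Multiplicative (ℤ × ℤ), Function.Surjective f)
    (q : Y → L) (A : Set (ℝ → L)) (hq : Leaves G q A) (taut : ∀ x, ∃ g : G, Above A x (g • x))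
    (cyc : ∀ x : L, IsCyclic (MulAction.stabilizer G x))
    (free : ∀ g : G, g ≠ 1 → ∀ c ∈ A, ∀ s t : ℝ, s < t → ∃ u ∈ Icc s t, g • c u ≠ c u) (m : M) :
    Nontrivial (FundamentalGroup M m) ∧
      ∃ r : FundamentalGroup M m → FundamentalGroup M m → Prop,
        IsStrictTotalOrder _ r ∧ ∀ a b c, r a b ↔ r (c * a) (c * b) := by
  obtain ⟨up, u1, u2, u3⟩ := hq.exists_up
  have hP : Pre G A := ⟨hq.cover, hq.inv, hq.chain, taut⟩
  have hg : Good G A Eq up :=
    { eqv := eq_equivalence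
      rsm := fun g x y e => by rw [e]
      opn := fun c hc d hd => by
        have e : {u | ∃ v, c u = d v} = c ⁻¹' range d := by
          ext u
          exact ⟨fun ⟨v, a⟩ => ⟨v, a.symm⟩, fun ⟨v, a⟩ => ⟨v, a.symm⟩⟩
        rw [e]
        exact (hq.chart d hd).isOpen_range.preimage (hq.chart c hc).continuous
      upl := fun x x' y e a => e ▸ a
      upr := fun x y y' e a => e ▸ a
      upc := u1
      upk := u2
      ups := u3
      ab := fun x g h a b => by
        have := cyc x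
        obtain ⟨z, hz⟩ := IsCyclic.exists_generator (α := MulAction.stabilizer G x)
        obtain ⟨i, hi⟩ := hz ⟨g, a⟩
        obtain ⟨j, hj⟩ := hz ⟨h, b⟩
        have e : (⟨g, a⟩ * ⟨h, b⟩ : MulAction.stabilizer G x) = ⟨h, b⟩ * ⟨g, a⟩ := by
          rw [← hi, ← hj]
          exact zpow_mul_comm z i j
        exact congrArg Subtype.val e
      nf := free }
  obtain ⟨y, hy⟩ := hp.surjective m
  let φ : FundamentalGroup M m ≃* G :=
    (hp.fundamentalGroupEquiv ⟨y, hy⟩).trans (MulEquiv.inv' G).symm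
  obtain ⟨r, hr, hinv⟩ := lo_of_good ⟨tf, cent⟩ big hP hg (q y)
  refine ⟨?_, fun a b => r (φ a) (φ b), ?_, fun a b c => ?_⟩
  · obtain ⟨g, hxg⟩ := taut (q y)
    obtain ⟨hO, hsub⟩ := saturate hP hg
    have hle : Asc A ≤ Asc {a | LocChart A a} := fun a b ⟨c, hc, h1⟩ => ⟨c, hsub hc, h1⟩
    have a := hO.asc (Relation.TransGen.mono hle _ _ hxg)
    refine ⟨φ.symm g, φ.symm 1, fun e => ?_⟩
    rw [φ.symm.injective e, one_smul] at a
    exact a.2 a.1
  · exact
      { trichotomous := fun a b h1 h2 => φ.injective (hr.trichotomous _ _ h1 h2)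
        irrefl := fun a => hr.irrefl _
        trans := fun a b c => hr.trans _ _ _ }
  · simp only [map_mul]
    exact hinv _ _ _

end Pool.Agent.Work.MP_3d425c_gt.Cy

/-! The theorem without a hypothesis on fixed intervals. -/

namespace Pool.Agent.Work.MP_3d425c_gt.Cy
open Set Filter Topology

theorem countable_deck {M Y G : Type*} [TopologicalSpace M] [TopologicalSpace Y]
    [TopologicalSpace.SeparableSpace Y] [Group G] [MulAction G Y] {p : Y → M}
    (hp : IsQuotientCoveringMap p G) (y : Y) : Countable G := by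
  obtain ⟨U, hU, hd⟩ := hp.disjoint y
  have := hp.toContinuousConstSMul
  have h := Set.PairwiseDisjoint.countable_of_isOpen (a := (univ : Set G))
    (s := fun g : G => (fun z => g⁻¹ • z) ⁻¹' interior U) ?_
    (fun g _ => isOpen_interior.preimage (continuous_const_smul _))
    (fun g _ => ⟨g • y, by simpa using mem_interior_iff_mem_nhds.2 hU⟩)
  · exact Set.countable_univ_iff.1 h
  · intro a _ b _ hab
    refine Set.disjoint_left.2 fun z ha hb => hab ?_
    have := hd (b⁻¹ * a) ⟨b⁻¹ • z, ⟨a⁻¹ • z, interior_subset ha, by simp [mul_smul]⟩,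
      interior_subset hb⟩
    rw [inv_mul_eq_one] at this
    exact this.symm

theorem main2 {M Y L G : Type*} [TopologicalSpace M] [TopologicalSpace Y] [TopologicalSpace L]
    [SimplyConnectedSpace Y] [LocallyPathConnectedSpace Y] [TopologicalSpace.SeparableSpace Y]
    [Group G] [MulAction G Y] [MulAction G L] (p : Y → M) (hp : IsQuotientCoveringMap p G)
    (tf : ∀ a : G, a ≠ 1 → ¬ IsOfFinOrder a)
    (cent : ∀ a : G, a ≠ 1 → IsCyclic (Subgroup.centralizer ({a} : Set G)))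
    (big : ∀ E : Subgroup G, E.FG → IsCyclic E ∨ E.FiniteIndex ∨
      ∃ f : E →* Multiplicative (ℤ × ℤ), Function.Surjective f)
    (q : Y → L) (A : Set (ℝ → L)) (hq : Leaves G q A) (taut : ∀ x, ∃ g : G, Above A x (g • x))
    (cyc : ∀ x : L, IsCyclic (MulAction.stabilizer G x)) (m : M) :
    Nontrivial (FundamentalGroup M m) ∧
      ∃ r : FundamentalGroup M m → FundamentalGroup M m → Prop,
        IsStrictTotalOrder _ r ∧ ∀ a b c, r a b ↔ r (c * a) (c * b) := by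
  obtain ⟨up, u1, u2, u3⟩ := hq.exists_up
  obtain ⟨y, hy⟩ := hp.surjective m
  have := countable_deck hp y
  have hP : Pre G A := ⟨hq.cover, hq.inv, hq.chain, taut⟩
  have opn : ∀ c ∈ A, ∀ d ∈ A, IsOpen {u | ∃ v, c u = d v} := fun c hc d hd => by
    have e : {u | ∃ v, c u = d v} = c ⁻¹' range d := by
      ext u
      exact ⟨fun ⟨v, a⟩ => ⟨v, a.symm⟩, fun ⟨v, a⟩ => ⟨v, a.symm⟩⟩
    rw [e]
    exact (hq.chart d hd).isOpen_range.preimage (hq.chart c hc).continuous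
  have ab : ∀ (x : L) (g h : G), g • x = x → h • x = x → g * h = h * g := fun x g h a b => by
    have := cyc x
    obtain ⟨z, hz⟩ := IsCyclic.exists_generator (α := MulAction.stabilizer G x)
    obtain ⟨i, hi⟩ := hz ⟨g, a⟩
    obtain ⟨j, hj⟩ := hz ⟨h, b⟩
    have e : (⟨g, a⟩ * ⟨h, b⟩ : MulAction.stabilizer G x) = ⟨h, b⟩ * ⟨g, a⟩ := by
      rw [← hi, ← hj]
      exact zpow_mul_comm z i j
    exact congrArg Subtype.val e
  obtain ⟨S, hSc, hSd⟩ := TopologicalSpace.exists_countable_dense Y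
  have hD : (⋃ g : G, (fun z => g • q z) '' S).Countable :=
    Set.countable_iUnion fun g => hSc.image _
  obtain ⟨Z, _, z₀, C', up', hP', hg'⟩ := blow_up ⟨tf, cent⟩ hP opn u1 u2 u3 ab hD
    (fun g x hx => by
      obtain ⟨b, z, hz, rfl⟩ := mem_iUnion.1 hx
      exact mem_iUnion.2 ⟨g * b, z, hz, by simp [mul_smul]⟩)
    (fun c hc u v huv => by
      have ho : IsOpen (q ⁻¹' (c '' Ioo u v)) :=
        ((hq.chart c hc).isOpenMap _ isOpen_Ioo).preimage hq.quot.continuous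
      obtain ⟨t, ht1, ht2⟩ := exists_between huv
      obtain ⟨w, hw⟩ := hq.quot.surjective (c t)
      obtain ⟨z, hzS, s, hs, e⟩ := hSd.exists_mem_open ho ⟨w, t, ⟨ht1, ht2⟩, hw.symm⟩
      exact ⟨s, hs, mem_iUnion.2 ⟨1, z, hzS, by simp [e]⟩⟩) (q y)
  let φ : FundamentalGroup M m ≃* G :=
    (hp.fundamentalGroupEquiv ⟨y, hy⟩).trans (MulEquiv.inv' G).symm
  obtain ⟨r, hr, hinv⟩ := lo_of_good ⟨tf, cent⟩ big hP' hg' z₀
  refine ⟨?_, fun a b => r (φ a) (φ b), ?_, fun a b c => ?_⟩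
  · obtain ⟨g, hxg⟩ := hP'.taut z₀
    obtain ⟨hO, hsub⟩ := saturate hP' hg'
    have hle : Asc C' ≤ Asc {a | LocChart C' a} := fun a b ⟨c, hc, h1⟩ => ⟨c, hsub hc, h1⟩
    have a := hO.asc (Relation.TransGen.mono hle _ _ hxg)
    refine ⟨φ.symm g, φ.symm 1, fun e => ?_⟩
    rw [φ.symm.injective e, one_smul] at a
    exact a.2 a.1
  · exact
      { trichotomous := fun a b h1 h2 => φ.injective (hr.trichotomous _ _ h1 h2)
        irrefl := fun a => hr.irrefl _
        trans := fun a b c => hr.trans _ _ _ }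
  · simp only [map_mul]
    exact hinv _ _ _

end Pool.Agent.Work.MP_3d425c_gt.Cy
end

-- merged part: Pool.Agent.Work.MP_3d425c_gt.To.Bl
section
/-! Saturation, collapsing maps, and the blow-up along a countable invariant set with an arbitrary
cocycle of order isomorphisms of the inserted intervals. -/

namespace Pool.Agent.Work.MP_3d425c_gt.To
open Set Filter Topology Pool.Agent.Work.MP_3d425c_gt.Cy

universe u
variable {G : Type*} {X : Type u} [Group G] [MulAction G X] {C : Set (ℝ → X)}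
  {up : X → X → Prop}

/-- An object whose atlas is not yet saturated. -/
structure Om0 (G : Type*) {X : Type*} [Group G] [MulAction G X] (C : Set (ℝ → X))
    (up : X → X → Prop) : Prop where
  cover : ∀ x, ∃ c ∈ C, ∃ t, c t = x
  smul : ∀ g : G, ∀ c ∈ C, (fun t => g • c t) ∈ C
  conn : ∀ P : X → Prop, (∀ c ∈ C, ∀ s t, P (c s) → P (c t)) → ∀ x y, P x → P y
  opn : ∀ c ∈ C, ∀ d ∈ C, IsOpen {u | ∃ v, c u = d v}
  upc : ∀ c ∈ C, ∀ s t, up (c s) (c t) ↔ s < t
  upk : ∀ c ∈ C, ∀ x, (∀ t, x ≠ c t) → ∀ s t, up x (c s) → up x (c t)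
  ups : ∀ (g : G) x y, up x y → up (g • x) (g • y)

theorem Om0.sat (h : Om0 G C up) : Om G {a | LocChart C a} up := by
  have hG : Good (⊥ : Subgroup G) C Eq up :=
    ⟨eq_equivalence, fun g x y e => by rw [e], h.opn, fun x x' y e a => e ▸ a,
      fun x y y' e a => e ▸ a, h.upc, h.upk, fun g => h.ups g,
      fun _ _ _ _ _ => Subsingleton.elim _ _, fun g hg => absurd (Subsingleton.elim _ _) hg⟩
  refine ⟨fun x => ?_, fun g a ha t => ?_, fun P k => h.conn P fun c hc => k c (za_sub hc),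
    fun a ha b hb => za_opn hG ha hb, fun a ha => za_upc hG ha, fun a ha => za_upk hG ha, h.ups,
    fun a ha => za_sat ha⟩
  · obtain ⟨c, hc, k⟩ := h.cover x
    exact ⟨c, za_sub hc, k⟩
  · obtain ⟨d, hd, f, ε, hε, hm, hf, e⟩ := ha t
    exact ⟨_, h.smul g d hd, f, ε, hε, hm, hf, fun u hu => congrArg (g • ·) (e u hu)⟩

/-- Two points with the same lower germ are not separated from below. -/
theorem Om.lg_of (h : Om G C up) {c d} (hc : c ∈ C) (hd : d ∈ C) {s t : ℝ}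
    (h1 : ∃ l < s, ∀ u ∈ Ioo l s, ∃ w < t, c u = d w)
    (h2 : ∀ w < t, ∃ u < s, ∃ w', w < w' ∧ c u = d w') : LG C (c s) (d t) := by
  refine ⟨_, h.objB_shift hc s, _, h.splice (h.objB_shift hc s) (h.objB_shift hd t) ?_ ?_,
    by simp only [add_zero], by simp only [lt_irrefl, if_false, add_zero],
    fun u hu => (if_pos hu).symm⟩
  · obtain ⟨l, a1, a2⟩ := h1
    refine ⟨s - l, by linarith, fun u hu => ?_⟩
    obtain ⟨w, b1, b2⟩ := a2 (s + u) ⟨by linarith [hu.1], by linarith [hu.2]⟩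
    exact ⟨w - t, by linarith, by rw [b2, add_sub_cancel]⟩
  · intro w hw
    obtain ⟨u, b1, w', b2, b3⟩ := h2 (t + w) (by linarith)
    exact ⟨u - s, by linarith, w' - t, by linarith, by rw [add_sub_cancel, add_sub_cancel, b3]⟩

/-- `π` collapses intervals of the object with charts `C'` to points. -/
structure Cl {Y : Type*} (C : Set (ℝ → X)) (C' : Set (ℝ → Y)) (π : Y → X) : Prop where
  surj : Function.Surjective π
  lift : ∀ c ∈ C, ∃ a ∈ C', ∃ τ : ℝ → ℝ, Monotone τ ∧ (∀ u, π (a u) = c (τ u)) ∧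
    ∀ p t, π p = c t → ∃ u, τ u = t ∧ a u = p

/-- lowest point of its fibre -/
def Low {Y : Type*} (up' : Y → Y → Prop) (π : Y → X) (p : Y) : Prop := ∀ q, π q = π p → ¬ up' q p

section
variable {Y : Type*} {C' : Set (ℝ → Y)} {up' : Y → Y → Prop} {π : Y → X}

theorem Cl.dual (k : Cl C C' π) : Cl (dualC C) (dualC C') π := by
  refine ⟨k.surj, fun c hc => ?_⟩
  obtain ⟨a, ha, τ, h1, h2, h3⟩ := k.lift _ hc
  refine ⟨_, oc_neg ha, fun u => -τ (-u), fun u v e => neg_le_neg (h1 (neg_le_neg e)),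
    fun u => h2 _, fun p t e => ?_⟩
  obtain ⟨u, e1, e2⟩ := h3 p (-t) (by rwa [neg_neg])
  exact ⟨-u, by simp only [neg_neg, e1], by simp only [neg_neg, e2]⟩

theorem Cl.asc (k : Cl C C' π) {p q : Y} (h : Asc C (π p) (π q)) : Asc C' p q := by
  obtain ⟨c, hc, s, t, hst, e1, e2⟩ := h
  obtain ⟨a, ha, τ, h1, -, h3⟩ := k.lift c hc
  obtain ⟨u, rfl, k2⟩ := h3 p s e1.symm
  obtain ⟨v, rfl, k4⟩ := h3 q t e2.symm
  exact ⟨a, ha, u, v, h1.reflect_lt hst, k2, k4⟩

theorem Cl.above (k : Cl C C' π) {p q : Y} (h : Relation.TransGen (Asc C) (π p) (π q)) :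
    Relation.TransGen (Asc C') p q := by
  generalize e : π q = y at h
  induction h generalizing q with
  | single a => exact .single (k.asc (e ▸ a))
  | @tail b _ _ a ih =>
    obtain ⟨b, rfl⟩ := k.surj b
    exact .tail (ih rfl) (k.asc (e ▸ a))

variable [MulAction G Y]

theorem Cl.low_lt (h' : Om G C' up') {c : ℝ → X} {a} (ha : a ∈ C') {τ : ℝ → ℝ}
    (h1 : Monotone τ) (h2 : ∀ u, π (a u) = c (τ u)) {u v : ℝ} (hl : Low up' π (a v))
    (huv : u < v) : τ u < τ v :=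
  (h1 huv.le).lt_of_ne fun e => hl (a u) (by rw [h2, h2, e]) ((h'.upc ha u v).2 huv)

theorem Cl.lg_low (k : Cl C C' π) (h : Om G C up) (h' : Om G C' up') {p q : Y} (e : LG C' p q)
    (hne : π p ≠ π q) : Low up' π p := by
  intro r hr hu
  obtain ⟨c, hc, s, hs⟩ := h.cover (π p)
  obtain ⟨d, hd, t, ht⟩ := h.cover (π q)
  obtain ⟨a, ha, τ, h1, h2, h3⟩ := k.lift c hc
  obtain ⟨b, hb, σ, k1, k2, k3⟩ := k.lift d hd
  obtain ⟨u, rfl, rfl⟩ := h3 p s hs.symm
  obtain ⟨v, rfl, rfl⟩ := k3 q t ht.symm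
  obtain ⟨u1, e1, rfl⟩ := h3 r _ (hr.trans hs.symm)
  have cont : Continuous σ := k1.continuous_of_surjective fun t => by
    obtain ⟨p, hp⟩ := k.surj (d t)
    exact (k3 p t hp).imp fun _ k => k.1
  have hN : {w | d (σ w) ≠ π (a u)} ∈ 𝓝 v := by
    by_cases x : ∃ t, d t = π (a u)
    · obtain ⟨t, x⟩ := x
      have : σ v ≠ t := fun y => hne (by rw [← x, ← y, k2])
      filter_upwards [cont.continuousAt.eventually_ne this] with w hw y
      exact hw (h.inj hd (y.trans x.symm))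
    · exact Eventually.of_forall fun w y => x ⟨_, y⟩
  obtain ⟨w, ⟨v', b1, -, b2⟩, b3⟩ := ((h'.lg_near ha hb e hN).and
    (Ioo_mem_nhdsLT ((h'.upc ha _ _).1 hu))).exists
  exact b1 (by rw [← k2, ← b2, h2, h2, (h1 b3.2.le).antisymm (e1 ▸ h1 b3.1.le)])

/-- Points not separated from below upstairs. -/
theorem Cl.lg_iff (k : Cl C C' π) (h : Om G C up) (h' : Om G C' up') {p q : Y} :
    LG C' p q ↔ p = q ∨ (Low up' π p ∧ Low up' π q ∧ LG C (π p) (π q)) := by
  obtain ⟨c, hc, s, hs⟩ := h.cover (π p)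
  obtain ⟨d, hd, t, ht⟩ := h.cover (π q)
  obtain ⟨a, ha, τ, h1, h2, h3⟩ := k.lift c hc
  obtain ⟨b, hb, σ, k1, k2, k3⟩ := k.lift d hd
  obtain ⟨u, rfl, rfl⟩ := h3 p s hs.symm
  obtain ⟨v, rfl, rfl⟩ := k3 q t ht.symm
  have s1 : ∀ t, ∃ u, τ u = t := fun t => by
    obtain ⟨p, hp⟩ := k.surj (c t)
    exact (h3 p t hp).imp fun _ k => k.1
  have s2 : ∀ t, ∃ u, σ u = t := fun t => by
    obtain ⟨p, hp⟩ := k.surj (d t)
    exact (k3 p t hp).imp fun _ k => k.1
  constructor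
  · intro e
    by_cases x : π (a u) = π (b v)
    · obtain ⟨w, -, y⟩ := h3 (b v) _ (x.symm.trans hs.symm)
      rw [← y] at e ⊢
      exact Or.inl (congrArg a (le_antisymm
        (not_lt.1 fun z => h'.lg_not_up (Om.lg_symm e) ((h'.upc ha _ _).2 z))
        (not_lt.1 fun z => h'.lg_not_up e ((h'.upc ha _ _).2 z))))
    · have l1 := k.lg_low h h' e x
      have l2 := k.lg_low h h' (Om.lg_symm e) (Ne.symm x)
      refine Or.inr ⟨l1, l2, ?_⟩
      rw [h2, k2]
      refine h.lg_of hc hd ?_ fun w hw => ?_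
      · obtain ⟨l, a1, a2⟩ := mem_nhdsLT_iff_exists_Ioo_subset.1 (h'.lg_near ha hb e univ_mem)
        refine ⟨τ l, Cl.low_lt h' ha h1 h2 l1 a1, fun t ht => ?_⟩
        obtain ⟨w, rfl⟩ := s1 t
        obtain ⟨v', -, b1, b2⟩ := a2 ⟨h1.reflect_lt ht.1, h1.reflect_lt ht.2⟩
        exact ⟨σ v', Cl.low_lt h' hb k1 k2 l2 b1, by rw [← h2, b2, k2]⟩
      · obtain ⟨w', a1, a2⟩ := exists_between hw
        obtain ⟨v1, rfl⟩ := s2 w'
        obtain ⟨u', ⟨v', b1, -, b2⟩, b3⟩ := ((h'.lg_near ha hb e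
          (Ioi_mem_nhds (k1.reflect_lt a2))).and self_mem_nhdsWithin).exists
        exact ⟨τ u', Cl.low_lt h' ha h1 h2 l1 b3, σ v', a1.trans_le (k1 (le_of_lt b1)),
          by rw [← h2, b2, k2]⟩
  · rintro (e | ⟨l1, l2, e⟩)
    · exact e ▸ h'.lg_refl _
    · rw [h2, k2] at e
      refine h'.lg_of ha hb ?_ fun w hw => ?_
      · obtain ⟨l, a1, a2⟩ := mem_nhdsLT_iff_exists_Ioo_subset.1 (h.lg_near hc hd e univ_mem)
        obtain ⟨l', a3, a4⟩ := exists_between (show l < τ u from a1)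
        obtain ⟨l, rfl⟩ := s1 l'
        refine ⟨l, h1.reflect_lt a4, fun w hw => ?_⟩
        obtain ⟨t, -, b1, b2⟩ := a2 ⟨a3.trans_le (h1 hw.1.le), Cl.low_lt h' ha h1 h2 l1 hw.2⟩
        obtain ⟨v', rfl, b3⟩ := k3 (a w) t ((h2 w).trans b2)
        exact ⟨v', k1.reflect_lt b1, b3.symm⟩
      · obtain ⟨s, ⟨t, b1, -, b2⟩, b3⟩ := ((h.lg_near hc hd e
          (Ioi_mem_nhds (Cl.low_lt h' hb k1 k2 l2 hw))).and self_mem_nhdsWithin).exists
        obtain ⟨u', rfl⟩ := s1 s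
        obtain ⟨v', rfl, b4⟩ := k3 (a u') t ((h2 u').trans b2)
        exact ⟨u', h1.reflect_lt b3, v', k1.reflect_lt b1, b4.symm⟩

end

/-- The action on the blown-up space given by a cocycle. -/
@[reducible] def blAct2 (D : Set X) (hD : ∀ (g : G) x, x ∈ D → g • x ∈ D)
    (κ : G → X → II ≃o II) (hκ : ∀ g h x, κ (g * h) x = κ g (h • x) * κ h x) :
    MulAction G (Bl D) where
  smul γ p := ⟨(γ • p.1.1, κ γ p.1.1 p.1.2), fun k => by
    rw [p.2 fun k' => k (hD γ _ k')]; exact (κ γ p.1.1).map_bot⟩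
  one_smul p := by
    have : κ 1 p.1.1 = 1 := by
      have := hκ 1 1 p.1.1
      rw [one_mul, one_smul] at this
      exact left_eq_mul.1 this
    refine Subtype.ext (Prod.ext (one_smul G _) ?_)
    change κ 1 p.1.1 p.1.2 = p.1.2
    rw [this]; rfl
  mul_smul γ δ p := by
    refine Subtype.ext (Prod.ext (mul_smul γ δ _) ?_)
    change κ (γ * δ) p.1.1 p.1.2 = κ γ (δ • p.1.1) (κ δ p.1.1 p.1.2)
    rw [hκ]; rfl

/-- The action on `Bl D` covers the action on `X` and acts by `κ` on the fibres. -/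
structure BlA (D : Set X) (κ : G → X → II ≃o II) [MulAction G (Bl D)] : Prop where
  inv : ∀ (g : G) x, x ∈ D → g • x ∈ D
  sm1 : ∀ (g : G) (p : Bl D), (g • p).1.1 = g • p.1.1
  sm2 : ∀ (g : G) (p : Bl D), (g • p).1.2 = κ g p.1.1 p.1.2

theorem blA_act (D : Set X) (hD : ∀ (g : G) x, x ∈ D → g • x ∈ D)
    (κ : G → X → II ≃o II) (hκ : ∀ g h x, κ (g * h) x = κ g (h • x) * κ h x) :
    @BlA G X _ _ D κ (blAct2 D hD κ hκ) :=
  @BlA.mk G X _ _ D κ (blAct2 D hD κ hκ) hD (fun _ _ => rfl) fun _ _ => rfl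

/-- lifted charts -/
def blC0 (C : Set (ℝ → X)) (D : Set X) : Set (ℝ → Bl D) := {a | ∃ c ∈ C, ∃ τ, Lifts D c τ a}

/-- the saturated atlas of the blow-up -/
def blC (C : Set (ℝ → X)) (D : Set X) : Set (ℝ → Bl D) := {a | LocChart (blC0 C D) a}

/-- sides in the blow-up -/
def blU (up : X → X → Prop) (D : Set X) (p q : Bl D) : Prop :=
  up p.1.1 q.1.1 ∨ (p.1.1 = q.1.1 ∧ p.1.2 < q.1.2)

/-- the bottom point over `x` -/
def blB (D : Set X) (x : X) : Bl D := ⟨(x, 0), fun _ => rfl⟩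

open Classical in
/-- the top point over `x` -/
noncomputable def blT (D : Set X) (x : X) : Bl D := ⟨(x, if x ∈ D then 1 else 0), fun k => if_neg k⟩

variable {D : Set X}

theorem bl_ext {p q : Bl D} (h1 : p.1.1 = q.1.1) (h2 : p.1.2 = q.1.2) : p = q :=
  Subtype.ext (Prod.ext h1 h2)

theorem Lifts_mem {c τ} {a : ℝ → Bl D} (hc : c ∈ C) (h : Lifts D c τ a) : a ∈ blC C D :=
  za_sub ⟨c, hc, τ, h⟩

theorem Om.lifts (h : Om G C up) (hD : D.Countable) {c} (hc : c ∈ C) :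
    ∃ τ a, Lifts D c τ a ∧ a ∈ blC C D := by
  obtain ⟨τ, a, k⟩ := exists_lifts hD (c := c) fun _ _ e => h.inj hc e
  exact ⟨τ, a, k, Lifts_mem hc k⟩

theorem Om.bl_cl (h : Om G C up) (hD : D.Countable) : Cl C (blC C D) fun p => p.1.1 := by
  refine ⟨fun x => ⟨blB D x, rfl⟩, fun c hc => ?_⟩
  obtain ⟨τ, a, k, ha⟩ := h.lifts hD hc
  exact ⟨a, ha, τ, k.mono, k.base, fun p t e => k.hit e⟩

theorem Om.bl_low (h : Om G C up) {p : Bl D} : Low (blU up D) (fun p => p.1.1) p ↔ p.1.2 = 0 := by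
  refine ⟨fun k => by_contra fun e => k (blB D p.1.1) rfl (Or.inr ⟨rfl, ?_⟩), fun e q k => ?_⟩
  · exact bot_lt_iff_ne_bot.2 e
  · rintro (a | a)
    · exact h.irr _ ((show q.1.1 = p.1.1 from k) ▸ a)
    · exact not_lt_bot (e ▸ a.2)

theorem Om.bl_high (h : Om G C up) {p : Bl D} :
    Low (dualU (blU up D)) (fun p => p.1.1) p ↔ p = blT D p.1.1 := by
  have t : p.1.2 ≤ (blT D p.1.1).1.2 := by
    by_cases k : p.1.1 ∈ D
    · exact le_top.trans_eq (if_pos k).symm
    · exact (p.2 k).trans_le bot_le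
  refine ⟨fun k => by_contra fun e => k (blT D p.1.1) rfl ⟨?_, Ne.symm e⟩, fun e q k a => ?_⟩
  · rintro (a | a)
    · exact h.irr _ a
    · exact not_lt.2 t a.2
  · have k' : q.1.1 = p.1.1 := k
    refine a.1 (Or.inr ⟨k', lt_of_le_of_ne ?_ fun b => a.2 (bl_ext k' b)⟩)
    by_cases x : p.1.1 ∈ D
    · rw [e]
      exact le_top.trans_eq (if_pos x).symm
    · exact (q.2 (k' ▸ x)).trans_le bot_le

variable {κ : G → X → II ≃o II} [MulAction G (Bl D)]

theorem BlA.bot (A : BlA D κ) (g : G) (x : X) : g • blB D x = blB D (g • x) :=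
  bl_ext (A.sm1 _ _) ((A.sm2 _ _).trans (κ g x).map_bot)

theorem BlA.inv_iff (A : BlA D κ) (g : G) (x : X) : g • x ∈ D ↔ x ∈ D :=
  ⟨fun k => by simpa using A.inv g⁻¹ _ k, A.inv g x⟩

theorem BlA.top (A : BlA D κ) (g : G) (x : X) : g • blT D x = blT D (g • x) := by
  refine bl_ext (A.sm1 _ _) ((A.sm2 _ _).trans ?_)
  by_cases k : x ∈ D
  · simp only [blT, if_pos k, if_pos (A.inv g x k)]
    exact (κ g x).map_top
  · simp only [blT, if_neg k, if_neg (mt (A.inv_iff g x).1 k)]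
    exact (κ g x).map_bot

theorem Om.blow0 (h : Om G C up) (hD : D.Countable) (A : BlA D κ) :
    Om0 G (blC0 C D) (blU up D) := by
  refine ⟨?_, ?_, ?_, ?_, ?_, ?_, ?_⟩
  · intro p
    obtain ⟨c, hc, t, e⟩ := h.cover p.1.1
    obtain ⟨τ, a, k, -⟩ := h.lifts hD hc
    obtain ⟨u, -, e'⟩ := k.hit e.symm
    exact ⟨a, ⟨c, hc, τ, k⟩, u, e'⟩
  · rintro γ a ⟨c, hc, τ, l⟩
    refine ⟨_, h.smul γ c hc, τ, fun u => by rw [A.sm1, l.base], fun u u' e => ?_,
      fun t s k => ?_⟩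
    · rcases l.lex u u' e with k | k
      · exact Or.inl k
      · refine Or.inr ⟨k.1, ?_⟩
        rw [A.sm2, A.sm2, l.base, l.base, k.1]
        exact (κ _ _).strictMono k.2
    · obtain ⟨u, e1, e2⟩ := l.onto t ((κ γ (c t)).symm s) fun k' => by
        rw [k fun k'' => k' ((A.inv_iff γ _).1 k'')]
        exact (κ γ (c t)).symm.map_bot
      exact ⟨u, e1, by rw [A.sm2, l.base, e1, e2]; simp⟩
  · intro P hP' p p' hp
    have fib : ∀ p p' : Bl D, p.1.1 = p'.1.1 → P p → P p' := fun p p' e hp => by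
      obtain ⟨c, hc, t, e'⟩ := h.cover p.1.1
      obtain ⟨τ, a, l, -⟩ := h.lifts hD hc
      obtain ⟨u, -, e1⟩ := l.hit e'.symm
      obtain ⟨u', -, e2⟩ := l.hit (p := p') (e.symm.trans e'.symm)
      exact e2 ▸ hP' a ⟨c, hc, τ, l⟩ u u' (e1 ▸ hp)
    refine fib (blB D p'.1.1) p' rfl ?_
    refine h.conn (fun x => P (blB D x)) (fun c hc s t k => ?_) p.1.1 p'.1.1 (fib p _ rfl hp)
    obtain ⟨τ, a, l, -⟩ := h.lifts hD hc
    obtain ⟨u, -, e1⟩ := l.hit (p := blB D (c s)) rfl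
    obtain ⟨u', -, e2⟩ := l.hit (p := blB D (c t)) rfl
    exact e2 ▸ hP' a ⟨c, hc, τ, l⟩ u u' (e1 ▸ k)
  · rintro a ⟨c, hc, τ, l⟩ a' ⟨c', hc', τ', l'⟩
    have e : {u | ∃ v, a u = a' v} = τ ⁻¹' {t | ∃ v, c t = c' v} := by
      ext u
      refine ⟨fun ⟨v, k⟩ => ⟨τ' v, by rw [← l.base, k, l'.base]⟩, fun ⟨v, k⟩ => ?_⟩
      obtain ⟨w, -, k'⟩ := l'.hit (p := a u) ((l.base u).trans k)
      exact ⟨w, k'.symm⟩
    rw [e]
    exact (h.opn hc hc').preimage (l.mono.continuous_of_surjective l.surj)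
  · rintro a ⟨c, hc, τ, l⟩ s t
    rw [blU, l.base, l.base, h.upc hc, (show Function.Injective c from fun _ _ e => h.inj hc e).eq_iff]
    exact l.lex_iff s t
  · rintro a ⟨c, hc, τ, l⟩ p hp s t k
    have hx : ∀ t, p.1.1 ≠ c t := fun t e => by
      obtain ⟨u, -, e'⟩ := l.hit e
      exact hp u e'.symm
    rw [blU, l.base] at k ⊢
    exact Or.inl (h.upk hc hx _ _ (k.resolve_right fun k' => hx _ k'.1))
  · rintro γ p p' (k | k)
    · exact Or.inl (by rw [A.sm1, A.sm1]; exact h.ups γ _ _ k)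
    · refine Or.inr ⟨by rw [A.sm1, A.sm1, k.1], ?_⟩
      rw [A.sm2, A.sm2, k.1]
      exact (κ _ _).strictMono k.2

/-- The blow-up is again an object. -/
theorem Om.blow (h : Om G C up) (hD : D.Countable) (A : BlA D κ) : Om G (blC C D) (blU up D) :=
  (h.blow0 hD A).sat

theorem Om.bl_lg (h : Om G C up) (hD : D.Countable) (A : BlA D κ) {p q : Bl D} :
    LG (blC C D) p q ↔ p = q ∨ (p.1.2 = 0 ∧ q.1.2 = 0 ∧ LG C p.1.1 q.1.1) := by
  rw [(h.bl_cl hD).lg_iff h (h.blow hD A), h.bl_low, h.bl_low]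

theorem Om.bl_ug (h : Om G C up) (hD : D.Countable) (A : BlA D κ) {p q : Bl D} :
    LG (dualC (blC C D)) p q ↔
      p = q ∨ (p = blT D p.1.1 ∧ q = blT D q.1.1 ∧ LG (dualC C) p.1.1 q.1.1) := by
  rw [(h.bl_cl hD).dual.lg_iff h.dual (h.blow hD A).dual, h.bl_high, h.bl_high]

end Pool.Agent.Work.MP_3d425c_gt.To
end
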