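import Pool.Agent.Work.MP_3d425c_gt.To.AxB

-- merged part: Pool.Agent.Work.MP_3d425c_gt.To.Proj
section
/-! Projection of a point to the axis of a finitely generated abelian group. -/

namespace Pool.Agent.Work.MP_3d425c_gt.To
open Set Filter Topology Pool.Agent.Work.MP_3d425c_gt.Cy

variable {G X : Type*} [Group G] [MulAction G X] {C : Set (ℝ → X)} {up : X → X → Prop}

/-- the closed upper side of `y` lies in the open upper side of `x` -/
def Lt (up : X → X → Prop) (x y : X) : Prop := up x y ∧ ¬ up y x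

/-- nested upper sides -/
def Le (up : X → X → Prop) (x y : X) : Prop := x = y ∨ Lt up x y

/-- the upper sides of the points of the orbit are nested -/
def Axial (up : X → X → Prop) (P : Subgroup G) (y : X) : Prop :=
  ∀ p ∈ P, Le up y (p • y) ∨ Le up (p • y) y

/-- `x` lies between two translates of an axial point -/
def Band (up : X → X → Prop) (P : Subgroup G) (x : X) : Prop :=
  ∃ y, ∃ p ∈ P, Axial up P y ∧ Lt up y (p • y) ∧ up y x ∧ dualU up (p • y) x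

/-- `x` lies behind a moving point of an invariant class -/
def End (C : Set (ℝ → X)) (up : X → X → Prop) (P : Subgroup G) (x : X) : Prop :=
  ∃ ν, (∀ p ∈ P, LG C (p • ν) ν) ∧ (∃ p ∈ P, p • ν ≠ ν) ∧ (up ν x ∨ x = ν)

/-- the two open sides -/
def Hf (up : X → X → Prop) (β : Bool) (n x : X) : Prop := if β then up n x else dualU up n x

/-- some element of `P` moves `z` to a point facing it on the side `β` -/
def Ty (up : X → X → Prop) (P : Subgroup G) (β : Bool) (z : X) : Prop :=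
  ∃ p ∈ P, Hf up β z (p • z) ∧ Hf up β (p • z) z

theorem hf_t {n x : X} : Hf up true n x ↔ up n x := Iff.rfl
theorem hf_f {n x : X} : Hf up false n x ↔ ¬ up n x ∧ n ≠ x := Iff.rfl

theorem dualC_dualC : dualC (dualC C) = C := by
  ext a
  show (fun t => a (- -t)) ∈ C ↔ a ∈ C
  simp only [neg_neg]

namespace Om
variable (h : Om G C up)
include h

theorem dd : dualU (dualU up) = up := by
  funext x y
  refine propext ⟨fun k => ?_, fun k => ⟨fun a => a.1 k, fun e => h.irr y (e ▸ k)⟩⟩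
  by_contra a
  exact k.1 ⟨a, k.2⟩

theorem hf_dual (β : Bool) (n x : X) : Hf (dualU up) β n x ↔ Hf up (!β) n x := by
  cases β
  · show dualU (dualU up) n x ↔ up n x
    rw [h.dd]
  · rfl

theorem ty_dual (P : Subgroup G) (β : Bool) (z : X) : Ty (dualU up) P β z ↔ Ty up P (!β) z := by
  simp only [Ty, h.hf_dual]

theorem lt_dual (x y : X) : Lt (dualU up) x y ↔ Lt up y x := by
  refine ⟨fun k => ⟨?_, k.1.1⟩, fun k => ⟨⟨k.2, ?_⟩, fun a => a.1 k.1⟩⟩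
  · by_contra a
    exact k.2 ⟨a, k.1.2.symm⟩
  · rintro rfl
    exact k.2 k.1

theorem le_dual (x y : X) : Le (dualU up) x y ↔ Le up y x := by
  simp only [Le, h.lt_dual, eq_comm]

theorem axial_dual (P : Subgroup G) (y : X) : Axial (dualU up) P y ↔ Axial up P y := by
  simp only [Axial, h.le_dual, or_comm]

theorem hf_ne {β n x} (k : Hf up β n x) : n ≠ x := by
  cases β
  · exact k.2
  · rintro rfl
    exact h.irr _ k

omit h in
theorem hf_not {β n x} (k : Hf up β n x) : ¬ Hf up (!β) n x := by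
  cases β
  · exact k.1
  · exact fun a => a.1 k

omit h in
theorem hf_tri (β) {n x : X} (k : n ≠ x) : Hf up β n x ∨ Hf up (!β) n x := by
  by_cases a : up n x
  · cases β
    · exact Or.inr a
    · exact Or.inl a
  · cases β
    · exact Or.inl ⟨a, k⟩
    · exact Or.inr ⟨a, k⟩

theorem hf_smul (g : G) {β n x} : Hf up β (g • n) (g • x) ↔ Hf up β n x := by
  cases β
  · simp only [hf_f, h.ups_iff, ne_eq, smul_left_cancel_iff]
  · exact h.ups_iff g n x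

theorem hf_sep {β γ n x y} (k1 : Hf up β n x) (k2 : ¬ Hf up β n y) (k3 : Hf up γ x n) :
    Hf up γ x y := by
  have e : up x y ↔ up x n := by
    cases β
    · refine h.sep k1.1 k1.2.symm ?_
      by_contra a
      exact k2 ⟨fun b => a (Or.inl b), fun b => a (Or.inr b.symm)⟩
    · exact h.sep' k1 k2
  cases γ
  · exact ⟨fun a => k3.1 (e.1 a), fun a => k2 (a ▸ k1)⟩
  · exact e.2 k3

theorem hf_chart {c} (hc : c ∈ C) {β z} (hz : ∀ t, z ≠ c t) (s t : ℝ) (k : Hf up β z (c s)) :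
    Hf up β z (c t) := by
  cases β
  · exact ⟨fun a => k.1 (h.upk hc hz t s a), hz t⟩
  · exact h.upk hc hz s t k

theorem hf_cf {c} (hc : c ∈ C) (s t : ℝ) : Hf up false (c s) (c t) ↔ t < s := by
  rw [hf_f, h.upc hc]
  refine ⟨fun k => lt_of_le_of_ne (not_lt.1 k.1) fun e => k.2 (by rw [e]),
    fun k => ⟨not_lt.2 k.le, fun e => k.ne' (h.inj hc e)⟩⟩

theorem lt_chart {c} (hc : c ∈ C) {s t : ℝ} (k : s < t) : Lt up (c s) (c t) :=
  ⟨(h.upc hc s t).2 k, fun a => lt_asymm k ((h.upc hc t s).1 a)⟩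

theorem le_chart {c} (hc : c ∈ C) {s t : ℝ} (k : s ≤ t) : Le up (c s) (c t) :=
  k.eq_or_lt.elim (fun e => Or.inl (by rw [e])) fun a => Or.inr (h.lt_chart hc a)

theorem lt_up {x y z} (k : Lt up x y) (a : up y z) : up x z := h.sub k.1 k.2 a

theorem le_up {x y z} (k : Le up x y) (a : up y z) : up x z :=
  k.elim (fun e => e ▸ a) fun k => h.lt_up k a

theorem lt_trans' {x y z} (k : Lt up x y) (l : Lt up y z) : Lt up x z :=
  ⟨h.lt_up k l.1, fun a => k.2 (h.lt_up l a)⟩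

theorem le_trans' {x y z} (k : Le up x y) (l : Le up y z) : Le up x z := by
  rcases k with rfl | k
  · exact l
  · rcases l with rfl | l
    · exact Or.inr k
    · exact Or.inr (h.lt_trans' k l)

theorem lt_smul (g : G) {x y} : Lt up (g • x) (g • y) ↔ Lt up x y := by
  simp only [Lt, h.ups_iff]

theorem le_smul (g : G) {x y} : Le up (g • x) (g • y) ↔ Le up x y := by
  simp only [Le, h.lt_smul, smul_left_cancel_iff]

/-- Two sides of the same kind with a common inner and a common outer point are nested. -/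
theorem nested {β y z w x} (a : Hf up β y w) (b : Hf up β z w) (a' : ¬ Hf up β y x)
    (b' : ¬ Hf up β z x) : Le up y z ∨ Le up z y := by
  by_cases e : y = z
  · exact Or.inl (Or.inl e)
  have n1 : ¬ (Hf up β y z ∧ Hf up β z y) := fun k => a' (h.hf_sep k.2 b' k.1)
  have n2 : ¬ (Hf up (!β) y z ∧ Hf up (!β) z y) := fun k =>
    hf_not a (h.hf_sep k.2 (hf_not b) k.1)
  by_cases p : up y z <;> by_cases q : up z y
  · cases β
    · exact (n2 ⟨p, q⟩).elim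
    · exact (n1 ⟨p, q⟩).elim
  · exact Or.inl (Or.inr ⟨p, q⟩)
  · exact Or.inr (Or.inr ⟨q, p⟩)
  · cases β
    · exact (n1 ⟨⟨p, e⟩, ⟨q, Ne.symm e⟩⟩).elim
    · exact (n2 ⟨⟨p, e⟩, ⟨q, Ne.symm e⟩⟩).elim

/-- An interval of the order is a chain. -/
theorem le_total' {z x y w} (a : Le up z x) (b : Le up z y) (a' : Le up x w) (b' : Le up y w) :
    Le up x y ∨ Le up y x := by
  obtain ⟨c, hc, t, rfl⟩ := h.cover w
  have u := (h.upc hc t (t + 1)).2 (by linarith)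
  have f : ∀ v, Le up z v → ¬ up v z := fun v k =>
    k.elim (fun e => e ▸ h.irr z) fun k => k.2
  exact h.nested (β := true) (h.le_up a' u) (h.le_up b' u) (f x a) (f y b)

theorem incl {β γ y z w x} (a : Hf up β y w) (b : Hf up γ z w) (a' : ¬ Hf up β y x)
    (b' : ¬ Hf up γ z x) : (∀ u, Hf up β y u → Hf up γ z u) ∨ ∀ u, Hf up γ z u → Hf up β y u := by
  by_cases e : y = z
  · subst e
    have : β = γ := by
      by_contra k
      have : γ = !β := by cases β <;> cases γ <;> simp_all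
      exact hf_not a (this ▸ b)
    exact Or.inl fun u k => this ▸ k
  rcases hf_tri γ (up := up) (Ne.symm e) with p | p <;> rcases hf_tri β (up := up) e with q | q
  · exact (a' (h.hf_sep p b' q)).elim
  · exact Or.inl fun u k => by_contra fun l => hf_not k (h.hf_sep p l q)
  · exact Or.inr fun u k => by_contra fun l => hf_not k (h.hf_sep q l p)
  · exact (hf_not a (h.hf_sep p (hf_not b) q)).elim

theorem hf_nb {γ z y} (β) (k : Hf up γ z y) : ∃ w, Hf up β y w ∧ Hf up γ z w := by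
  obtain ⟨c, hc, t, rfl⟩ := h.cover y
  by_cases a : ∃ r, z = c r
  · obtain ⟨r, rfl⟩ := a
    cases γ <;> cases β
    · have := (h.hf_cf hc _ _).1 k
      exact ⟨c (t - 1), (h.hf_cf hc _ _).2 (by linarith), (h.hf_cf hc _ _).2 (by linarith)⟩
    · have := (h.hf_cf hc _ _).1 k
      exact ⟨c ((t + r) / 2), (h.upc hc _ _).2 (by linarith), (h.hf_cf hc _ _).2 (by linarith)⟩
    · have := (h.upc hc _ _).1 k
      exact ⟨c ((t + r) / 2), (h.hf_cf hc _ _).2 (by linarith), (h.upc hc _ _).2 (by linarith)⟩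
    · have := (h.upc hc _ _).1 k
      exact ⟨c (t + 1), (h.upc hc _ _).2 (by linarith), (h.upc hc _ _).2 (by linarith)⟩
  · have a' : ∀ r, z ≠ c r := fun r e => a ⟨r, e⟩
    cases β
    · exact ⟨c (t - 1), (h.hf_cf hc _ _).2 (by linarith), h.hf_chart hc a' _ _ k⟩
    · exact ⟨c (t + 1), (h.upc hc _ _).2 (by linarith), h.hf_chart hc a' _ _ k⟩

theorem push {β z w} {p : G} (a : Hf up β z (p • z)) (b : Hf up β (p • z) z)
    (k : ¬ Hf up β z w) : Hf up β z (p • w) :=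
  h.hf_sep b (fun l => k ((h.hf_smul p).1 l)) a

variable {P : Subgroup G} (hP : ∀ p ∈ P, ∀ q ∈ P, p * q = q * p)

theorem ty_or (z : X) : Axial up P z ∨ Ty up P true z ∨ Ty up P false z := by
  by_contra k
  refine k (Or.inl fun p hp => ?_)
  by_cases e : z = p • z
  · exact Or.inl (Or.inl e)
  by_cases a : up z (p • z) <;> by_cases b : up (p • z) z
  · exact (k (Or.inr (Or.inl ⟨p, hp, a, b⟩))).elim
  · exact Or.inl (Or.inr ⟨a, b⟩)
  · exact Or.inr (Or.inr ⟨b, a⟩)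
  · exact (k (Or.inr (Or.inr ⟨p, hp, ⟨a, e⟩, ⟨b, Ne.symm e⟩⟩))).elim

theorem ty_move {β z} (k : Ty up P β z) : ∃ p ∈ P, p • z ≠ z :=
  let ⟨p, hp, _, b⟩ := k
  ⟨p, hp, h.hf_ne b⟩

/-- Axial points lie on the chosen side. -/
theorem ty_ax {β z y} (k : Ty up P β z) (hy : Axial up P y) : Hf up β z y := by
  obtain ⟨p, hp, a, b⟩ := k
  by_contra n
  have a' : Hf up β z (p⁻¹ • z) := by simpa using (h.hf_smul p⁻¹).2 b
  have b' : Hf up β (p⁻¹ • z) z := by simpa using (h.hf_smul p⁻¹).2 a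
  have k1 := h.push a b n
  have k2 := h.push a' b' n
  have same : ∀ δ, Hf up δ y (p • y) → ¬ Hf up δ y (p⁻¹ • y) := fun δ l1 l2 => by
    have l3 : Hf up δ (p • y) y := by simpa using (h.hf_smul p).2 l2
    cases δ
    · rcases hy p hp with (e | e) | (e | e)
      · exact l1.2 e
      · exact l1.1 e.1
      · exact l1.2 e.symm
      · exact l3.1 e.1
    · rcases hy p hp with (e | e) | (e | e)
      · exact h.hf_ne l1 e
      · exact e.2 l3
      · exact h.hf_ne l1 e.symm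
      · exact e.2 l1
  by_cases e : z = y
  · subst e
    exact same β k1 k2
  have q := (hf_tri β (up := up) e).resolve_left n
  rcases hf_tri true (up := up) (Ne.symm e) with l | l
  · exact same _ (h.hf_sep q (hf_not k1) l) (h.hf_sep q (hf_not k2) l)
  · exact same _ (h.hf_sep q (hf_not k1) l) (h.hf_sep q (hf_not k2) l)

theorem ty_nax {β z} (k : Ty up P β z) : ¬ Axial up P z := fun a => h.hf_ne (h.ty_ax k a) rfl

include hP

theorem ty_smul {β z} {g : G} (hg : g ∈ P) (k : Ty up P β z) : Ty up P β (g • z) := by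
  obtain ⟨p, hp, a, b⟩ := k
  have e : p • g • z = g • p • z := by rw [← mul_smul, hP p hp g hg, mul_smul]
  exact ⟨p, hp, e ▸ (h.hf_smul g).2 a, e ▸ (h.hf_smul g).2 b⟩

theorem ax_smul {z} {g : G} (hg : g ∈ P) (k : Axial up P z) : Axial up P (g • z) := fun p hp => by
  have e : p • g • z = g • p • z := by rw [← mul_smul, hP p hp g hg, mul_smul]
  rw [e, h.le_smul, h.le_smul]
  exact k p hp

theorem ty_not {β z} (k : Ty up P β z) : ¬ Ty up P (!β) z := by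
  rintro ⟨q, hq, a', b'⟩
  obtain ⟨p, hp, a, b⟩ := k
  have k1 := h.push a b (w := q • z) fun l => hf_not l a'
  have k2 := h.push a' b' (w := p • z) (hf_not a)
  rw [← mul_smul, ← hP p hp q hq, mul_smul] at k2
  exact hf_not k1 k2

/-- The chosen sides meet pairwise. -/
theorem ty_meet {β γ y z} (k : Ty up P β y) (l : Ty up P γ z) :
    ∃ w, Hf up β y w ∧ Hf up γ z w := by
  by_contra n
  obtain ⟨p, hp, a, b⟩ := k
  obtain ⟨q, hq, a', b'⟩ := l
  have n1 : ¬ Hf up γ z y := fun k => n (h.hf_nb β k)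
  by_cases e : Hf up β y ((p * q)⁻¹ • y)
  · have k1 := h.push a' b' fun l => n ⟨_, e, l⟩
    have k2 := h.push a b fun l => n ⟨_, l, k1⟩
    rw [← mul_smul, smul_inv_smul] at k2
    exact h.hf_ne k2 rfl
  · have k1 := h.push a b e
    have k2 := h.push a' b' fun l => n ⟨_, k1, l⟩
    rw [← mul_smul, ← hP p hp q hq, smul_inv_smul] at k2
    exact n1 k2

theorem ty_lt {y z} (k : Ty up P false y) (l : Ty up P true z) : ¬ Le up y z := fun e =>
  let ⟨_, a, b⟩ := h.ty_meet hP k l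
  a.1 (h.le_up e b)

theorem ax_gen {S : Set G} (hS : Subgroup.closure S = P) {z : X}
    (k : ∀ g ∈ S, Le up z (g • z) ∨ Le up (g • z) z) : Axial up P z := by
  have mul : ∀ u v : G, Le up z (u • z) → Le up z (v • z) → Le up z ((u * v) • z) :=
    fun u v a b => by
      rw [mul_smul]
      exact h.le_trans' a ((h.le_smul u).2 b)
  have key : ∀ p ∈ Subgroup.closure S, ∃ u ∈ P, ∃ v ∈ P, Le up z (u • z) ∧ Le up z (v • z) ∧
      v * p = u := by
    intro p hp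
    have one : Le up z ((1 : G) • z) := Or.inl (one_smul G z).symm
    induction hp using Subgroup.closure_induction with
    | mem g hg =>
      have gP : g ∈ P := hS ▸ Subgroup.subset_closure hg
      rcases k g hg with a | a
      · exact ⟨g, gP, 1, P.one_mem, a, one, one_mul g⟩
      · exact ⟨1, P.one_mem, g⁻¹, P.inv_mem gP, one, by simpa using (h.le_smul g⁻¹).2 a,
          inv_mul_cancel g⟩
    | one => exact ⟨1, P.one_mem, 1, P.one_mem, one, one, one_mul 1⟩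
    | mul p q hp hq i j =>
      obtain ⟨u, hu, v, hv, a, b, e⟩ := i
      obtain ⟨u', hu', v', hv', a', b', e'⟩ := j
      refine ⟨u * u', P.mul_mem hu hu', v * v', P.mul_mem hv hv', mul _ _ a a', mul _ _ b b', ?_⟩
      rw [← e, ← e', mul_assoc, mul_assoc, ← mul_assoc v', ← mul_assoc p,
        hP v' hv' p (hS ▸ hp)]
    | inv p hp i =>
      obtain ⟨u, hu, v, hv, a, b, e⟩ := i
      exact ⟨v, hv, u, hu, b, a, by rw [← e, mul_inv_cancel_right]⟩
  intro p hp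
  obtain ⟨u, hu, v, hv, a, b, e⟩ := key p (hS ▸ hp)
  have c1 : Le up (u • z) ((u * v) • z) := by
    rw [mul_smul]
    exact (h.le_smul u).2 b
  have c2 : Le up (v • z) ((u * v) • z) := by
    rw [hP u hu v hv, mul_smul]
    exact (h.le_smul v).2 a
  have := h.le_total' b a c2 c1
  rwa [← e, mul_smul, h.le_smul, h.le_smul] at this

/-- The germ below an invariant class consists of axial points. -/
theorem ax_germ {S : Set G} (hS : Subgroup.closure S = P) (hf : S.Finite) {c} (hc : c ∈ C) {s : ℝ}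
    (k : ∀ p ∈ P, LG C (p • c s) (c s)) : ∀ᶠ u in 𝓝[<] s, Axial up P (c u) := by
  have a : ∀ᶠ u in 𝓝[<] s, ∀ g ∈ S, ∃ v ∈ (univ : Set ℝ), v < s ∧ g • c u = c v :=
    (eventually_all_finite hf).2 fun g hg =>
      h.lg_near (h.smul g c hc) hc (k g (hS ▸ Subgroup.subset_closure hg)) univ_mem
  refine a.mono fun u hu => h.ax_gen hP hS fun g hg => ?_
  obtain ⟨v, -, -, e⟩ := hu g hg
  rw [e]
  exact (le_total u v).imp (h.le_chart hc) (h.le_chart hc)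

theorem keep_fin {c} (hc : c ∈ C) {s : ℝ} (k : ∀ g ∈ P, ∀ u < s, up (c u) (g • c s))
    (hJ : ∀ ν, LG C ν (c s) → Ty up P false ν) : ∀ g ∈ P, LG C (g • c s) (c s) := by
  intro g hg
  obtain ⟨μ, m1, m2⟩ := h.cut hc (k g hg)
  obtain ⟨ν, n1, n2⟩ := h.cut hc (k g⁻¹ (P.inv_mem hg))
  rcases m2 with m2 | m2
  swap
  · exact m2 ▸ m1
  have n3 := h.lg_smul g n1
  rcases n2 with n2 | n2
  swap
  · rw [← n2, smul_inv_smul] at n3
    exact lg_symm n3
  have n4 : up (g • ν) (c s) := by simpa using h.ups g _ _ n2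
  obtain ⟨w, a, b⟩ := h.ty_meet hP (hJ μ m1) (h.ty_smul hP hg (hJ ν n1))
  exact (a.1 ((h.sep' (h.lg_up (lg_symm m1) n4) b.1).2 (h.lg_up (lg_symm n3) m2))).elim

theorem keep_one {c} (hc : c ∈ C) {r s : ℝ} (hr : r < s)
    (hA : ∀ u ∈ Ico r s, Ty up P true (c u)) (hJ : ∀ ν, LG C ν (c s) → Ty up P false ν) :
    ∀ g ∈ P, ∀ u < s, up (c u) (g • c s) := by
  have key : ∀ g ∈ P, ∀ u ∈ Ico r s, up (c u) (g • c s) := by
    intro g hg u hu
    by_contra n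
    have hd := h.smul g c hc
    have t1 := hA u hu
    have t2 := h.ty_smul hP hg (hJ _ (h.lg_refl _))
    have all : ∀ v ∈ Ico r s, up (g • c v) (c u) ∨ c u = g • c v := by
      intro v hv
      by_contra m
      obtain ⟨w, a, b⟩ := h.ty_meet hP (h.ty_smul hP hg (hA v hv)) t1
      have m1 : ¬ up (g • c v) (c u) := fun l => m (Or.inl l)
      have m2 : c u ≠ g • c v := fun l => m (Or.inr l)
      exact n ((h.sep m1 m2 (Or.inl ((h.upc hd v s).2 hv.2))).2 ((h.sep m1 m2 (Or.inl a)).1 b))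
    obtain ⟨μ, m1, m2⟩ := h.cut hd (v := s) (x := c u) fun v hv => by
      have l1 : (max r v + s) / 2 ∈ Ico r s :=
        ⟨by linarith [le_max_left r v, max_lt hr hv], by linarith [max_lt hr hv]⟩
      have l2 := h.lt_chart hd (show v < (max r v + s) / 2 by
        linarith [le_max_right r v, max_lt hr hv])
      rcases all _ l1 with l | l
      · exact h.lt_up l2 l
      · exact l ▸ l2.1
    have t3 : Ty up P false μ := by
      have := h.ty_smul hP hg (hJ (g⁻¹ • μ) (by simpa using h.lg_smul g⁻¹ m1))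
      rwa [smul_inv_smul] at this
    refine h.ty_lt hP t3 t1 ?_
    rcases m2 with m2 | m2
    · exact Or.inr ⟨m2, fun l => n (h.lg_up m1 l)⟩
    · exact Or.inl m2.symm
  intro g hg u hu
  exact h.le_up (h.le_chart hc (le_max_right r u)) (key g hg _ ⟨le_max_left _ _, max_lt hr hu⟩)

omit hP in
theorem up_near {c} (hc : c ∈ C) {w s} (k : up w (c s)) : ∀ᶠ u in 𝓝 s, up w (c u) := by
  by_cases a : ∃ r, w = c r
  · obtain ⟨r, rfl⟩ := a
    filter_upwards [Ioi_mem_nhds ((h.upc hc r s).1 k)] with u hu using (h.upc hc r u).2 hu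
  · exact Eventually.of_forall fun u => h.upk hc (fun r e => a ⟨r, e⟩) s u k

theorem key {S : Set G} (hS : Subgroup.closure S = P) (hf : S.Finite) {c} (hc : c ∈ C)
    {r t : ℝ} {x : X} (h1 : Ty up P true (c r)) (h2 : ¬ up (c r) x)
    (nb : ¬ Band up P x) (ne : ¬ End (dualC C) (dualU up) P x) :
    ∃ z β, Ty up P β z ∧ ¬ Hf up β z x ∧ ¬ Hf up β z (c t) := by
  by_contra N
  have F2 : ∀ u, r ≤ u → ¬ up (c u) x := fun u hu a => h2 (h.le_up (h.le_chart hc hu) a)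
  have F3 : ∀ u, r < u → c u ≠ x := fun u hu e => h2 (e ▸ (h.upc hc r u).2 hu)
  set A := {u | r ≤ u ∧ Ty up P true (c u)} with hA
  have lt : ∀ u ∈ A, u < t := fun u hu => by
    by_contra a
    exact N ⟨c u, true, hu.2, F2 u hu.1, fun b => a ((h.upc hc u t).1 b)⟩
  have bd : BddAbove A := ⟨t, fun u hu => (lt u hu).le⟩
  have nA : A.Nonempty := ⟨r, le_rfl, h1⟩
  set s := sSup A with hs
  have rs : r ≤ s := le_csSup bd ⟨le_rfl, h1⟩
  have st : s ≤ t := csSup_le nA fun u hu => (lt u hu).le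
  have F1 : ∀ u ∈ Ico r s, Ty up P true (c u) := fun u hu => by
    obtain ⟨v, hv, uv⟩ := exists_lt_of_lt_csSup nA hu.2
    rcases h.ty_or (P := P) (c u) with a | a | a
    · exact absurd ((h.upc hc v u).1 (h.ty_ax hv.2 a)) (lt_asymm uv)
    · exact a
    · exact (h.ty_lt hP a hv.2 (h.le_chart hc uv.le)).elim
  by_cases sA : Ty up P true (c s)
  · have st' : s < t := lt s ⟨rs, sA⟩
    have hd := h.dual
    have hc' := oc_neg hc
    have e0 : (fun u => c (-u)) (-s) = c s := by simp only [neg_neg]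
    have fin : (∀ p ∈ P, LG (dualC C) (p • c s) (c s)) → False := fun k =>
      ne ⟨c s, k, h.ty_move sA, by
        by_cases e : c s = x
        · exact Or.inr e.symm
        · exact Or.inl ⟨F2 s rs, e⟩⟩
    have uu : ∀ ω, LG (dualC C) ω (c s) → ω ≠ c s → up ω (c s) ∧ up (c s) ω ∧ up ω x := by
      intro ω a b
      have a1 : up ω (c s) := by_contra fun l => hd.lg_not_up a ⟨l, b⟩
      have a2 : up (c s) ω := by_contra fun l => hd.lg_not_up (lg_symm a) ⟨l, b.symm⟩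
      exact ⟨a1, a2, by_contra fun l => F2 s rs ((h.sep' a1 l).2 a2)⟩
    have hJ : ∀ ω, LG (dualC C) ω (c s) → Ty up P true ω := by
      intro ω a
      by_cases b : ω = c s
      · exact b ▸ sA
      obtain ⟨a1, a2, a3⟩ := uu ω a b
      rcases h.ty_or (P := P) ω with k | k | k
      · exfalso
        by_cases m : ∃ q ∈ P, Lt up ω (q • ω)
        · obtain ⟨q, hq, m⟩ := m
          have l1 : dualU up (q • ω) (c s) := hd.lg_up a ⟨m.2, fun e => m.2 (by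
            have l := m.1
            rw [e] at l ⊢
            exact l)⟩
          have l2 : up (c s) (q • ω) := h.ty_ax sA (h.ax_smul hP hq k)
          exact nb ⟨ω, q, hq, k, m, a3, fun l => F2 s rs (h.sub l2 l1.1 l),
            fun e => F2 s rs (e ▸ l2)⟩
        · refine fin fun p hp => ?_
          have e : p • ω = ω := by
            rcases k p hp with (e | e) | (e | e)
            · exact e.symm
            · exact (m ⟨p, hp, e⟩).elim
            · exact e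
            · exact (m ⟨p⁻¹, P.inv_mem hp, by simpa using (h.lt_smul p⁻¹).2 e⟩).elim
          exact hd.lg_trans (hd.lg_smul p (lg_symm a)) (e.symm ▸ a)
      · exact k
      · exact (N ⟨ω, false, k, fun l => l.1 a3, fun l => l.1 (h.mono hc st a1)⟩).elim
    have hJ' : ∀ ν, LG (dualC C) ν ((fun u => c (-u)) (-s)) → Ty (dualU up) P false ν :=
      fun ν k => (h.ty_dual P false ν).2 (hJ ν (e0 ▸ k))
    have nt : ∀ u, s < u → ¬ Ty up P true (c u) := fun u hu a =>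
      hu.not_ge (le_csSup bd ⟨rs.trans hu.le, a⟩)
    refine fin fun p hp => e0 ▸ hd.keep_fin hP hc' (s := -s) ?_ hJ' p hp
    by_cases ex : ∃ u, s < u ∧ Axial up P (c u)
    · obtain ⟨u1, su, ax⟩ := ex
      have ax' : ∀ u, s < u → u ≤ u1 → Axial up P (c u) := fun u a b => by
        rcases h.ty_or (P := P) (c u) with k | k | k
        · exact k
        · exact (nt u a k).elim
        · exact absurd ((h.hf_cf hc _ _).1 (h.ty_ax k ax)) b.not_gt
      have main : ∀ g ∈ P, ∀ u, s < u → u ≤ u1 → dualU up (c u) (g • c s) := by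
        intro g hg u a b
        have az := ax' u a b
        have t1 := h.ty_smul hP hg sA
        refine ⟨fun l => ?_, fun e => h.ty_nax t1 (e ▸ az)⟩
        have l1 : up (g⁻¹ • c u) (c s) := by simpa using h.ups g⁻¹ _ _ l
        have az' := h.ax_smul hP (P.inv_mem hg) az
        have l2 : up (c s) (g⁻¹ • c u) := h.ty_ax sA az'
        have l3 : ¬ up (c u) (c s) := (h.lt_chart hc a).2
        rcases az g⁻¹ (P.inv_mem hg) with k | k | k
        · exact l3 (h.le_up k l1)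
        · exact l3 (k ▸ l1)
        · have l4 : ¬ up (g⁻¹ • c u) x := fun m => nb ⟨_, g, hg, az', by rwa [smul_inv_smul], m,
            by
              rw [smul_inv_smul]
              exact ⟨F2 u (rs.trans a.le), F3 u (rs.trans_lt a)⟩⟩
          exact F2 s rs ((h.sep' l1 l4).2 l2)
      intro g hg u hu
      have a : s < -u := by linarith
      have k := main g hg (min (-u) u1) (lt_min a su) (min_le_right _ _)
      show dualU up (c (-u)) (g • c (- -s))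
      rw [neg_neg]
      exact hd.le_up ((h.le_dual _ _).2 (h.le_chart hc (min_le_left _ _))) k
    · refine hd.keep_one hP hc' (r := -s - 1) (by linarith) (fun u hu => ?_) hJ'
      have a : s < -u := by linarith [hu.2]
      rcases h.ty_or (P := P) (c (-u)) with k | k | k
      · exact (ex ⟨_, a, k⟩).elim
      · exact (nt _ a k).elim
      · exact (h.ty_dual P true _).2 k
  · have rs' : r < s := lt_of_le_of_ne rs fun e => sA (e ▸ h1)
    have fin : (∀ p ∈ P, LG C (p • c s) (c s)) → False := fun k => by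
      obtain ⟨u, a, b⟩ := ((h.ax_germ hP hS hf hc k).and (Ioo_mem_nhdsLT rs')).exists
      exact h.ty_nax (F1 u ⟨b.1.le, b.2⟩) a
    have dd : ∀ ν, LG C ν (c s) → Lt up (c r) ν := fun ν a =>
      ⟨h.lg_up (lg_symm a) ((h.upc hc r s).2 rs'), fun l => h.lg_not_up a (h.mono hc rs l)⟩
    have hJ : ∀ ν, LG C ν (c s) → Ty up P false ν := by
      intro ν a
      have a1 := dd ν a
      have a2 : ¬ up ν x := fun l => h2 (h.lt_up a1 l)
      rcases h.ty_or (P := P) ν with k | k | k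
      · exfalso
        by_cases m : ∃ q ∈ P, Lt up (q⁻¹ • ν) ν
        · obtain ⟨q, hq, m⟩ := m
          have az := h.ax_smul hP (P.inv_mem hq) k
          have l1 : ¬ up (q⁻¹ • ν) x := fun l => nb ⟨_, q, hq, az, by rwa [smul_inv_smul], l,
            by
              rw [smul_inv_smul]
              exact ⟨a2, fun e => h2 (e ▸ a1.1)⟩⟩
          obtain ⟨u, b1, b2⟩ := (((h.up_near hc (h.lg_up a m.1)).filter_mono
            nhdsWithin_le_nhds).and (Ioo_mem_nhdsLT rs')).exists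
          exact F2 u b2.1.le ((h.sep' b1 l1).2 (h.ty_ax (F1 u ⟨b2.1.le, b2.2⟩) az))
        · refine fin fun p hp => ?_
          have e : p • ν = ν := by
            rcases k p hp with (e | e) | (e | e)
            · exact e.symm
            · exact (m ⟨p, hp, by simpa using (h.lt_smul p⁻¹).2 e⟩).elim
            · exact e
            · exact (m ⟨p⁻¹, P.inv_mem hp, by rwa [inv_inv]⟩).elim
          exact h.lg_trans (h.lg_smul p (lg_symm a)) (e.symm ▸ a)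
      · refine (N ⟨ν, true, k, a2, fun l => ?_⟩).elim
        refine h.disj (h.lg_not_up a) (h.lg_not_up (lg_symm a)) (fun e => sA (e ▸ k)) (Or.inl l) ?_
        exact st.eq_or_lt.elim (fun e => Or.inr (by rw [e])) fun e => Or.inl ((h.upc hc s t).2 e)
      · exact k
    exact fin (h.keep_fin hP hc (h.keep_one hP hc rs' F1 hJ) hJ)

theorem band_dual {x : X} (k : Band (dualU up) P x) : Band up P x := by
  obtain ⟨y, p, hp, a, b, c, d⟩ := k
  rw [h.axial_dual] at a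
  rw [h.lt_dual] at b
  rw [h.dd] at d
  exact ⟨p • y, p⁻¹, P.inv_mem hp, h.ax_smul hP hp a, by rwa [inv_smul_smul], d,
    by rwa [inv_smul_smul]⟩

/-- The projection lemma. -/
theorem proj {S : Set G} (hS : Subgroup.closure S = P) (hf : S.Finite) (x : X) :
    Axial up P x ∨ Band up P x ∨ End C up P x ∨ End (dualC C) (dualU up) P x := by
  by_contra N
  have nb : ¬ Band up P x := fun a => N (Or.inr (Or.inl a))
  have n1 : ¬ End C up P x := fun a => N (Or.inr (Or.inr (Or.inl a)))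
  have n2 : ¬ End (dualC C) (dualU up) P x := fun a => N (Or.inr (Or.inr (Or.inr a)))
  have x0 : ∃ β, Ty up P β x := by
    rcases h.ty_or (P := P) x with k | k | k
    · exact (N (Or.inl k)).elim
    · exact ⟨_, k⟩
    · exact ⟨_, k⟩
  obtain ⟨β0, x0⟩ := x0
  have all : ∀ w, ∃ z β, Ty up P β z ∧ ¬ Hf up β z x ∧ ¬ Hf up β z w := by
    intro w
    refine h.conn (fun w => ∃ z β, Ty up P β z ∧ ¬ Hf up β z x ∧ ¬ Hf up β z w) ?_ x w
      ⟨x, β0, x0, fun a => h.hf_ne a rfl, fun a => h.hf_ne a rfl⟩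
    rintro c hc s t ⟨z, β, a1, a2, a3⟩
    by_cases b : ∃ r, z = c r
    · obtain ⟨r, rfl⟩ := b
      cases β
      · obtain ⟨z, β, b1, b2, b3⟩ := h.dual.key hP hS hf (oc_neg hc) (r := -r) (t := -t) (x := x)
          ((h.ty_dual P true _).2 (by
            simp only [neg_neg]
            exact a1))
          (by
            simp only [neg_neg]
            exact a2) (fun k => nb (h.band_dual hP k))
          (by rwa [dualC_dualC, h.dd])
        rw [h.ty_dual] at b1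
        rw [h.hf_dual] at b2 b3
        exact ⟨z, !β, b1, b2, by simpa only [neg_neg] using b3⟩
      · exact h.key hP hS hf hc a1 a2 nb n2
    · exact ⟨z, β, a1, a2, fun k => a3 (h.hf_chart hc (fun r e => b ⟨r, e⟩) t s k)⟩
  have fin : ∀ T : Set G, T.Finite → ∃ z β, Ty up P β z ∧ ¬ Hf up β z x ∧
      ∀ g ∈ T, ¬ Hf up β z (g • x) := by
    intro T hT
    induction T, hT using Set.Finite.induction_on with
    | empty => exact ⟨x, β0, x0, fun a => h.hf_ne a rfl, fun _ a => a.elim⟩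
    | @insert g T _ _ ih =>
      obtain ⟨z, β, a1, a2, a3⟩ := ih
      obtain ⟨z', β', b1, b2, b3⟩ := all (g • x)
      obtain ⟨w, c1, c2⟩ := h.ty_meet hP a1 b1
      rcases h.incl c1 c2 a2 b2 with k | k
      · exact ⟨z, β, a1, a2, forall_mem_insert.2 ⟨fun l => b3 (k _ l), a3⟩⟩
      · exact ⟨z', β', b1, b2, forall_mem_insert.2 ⟨b3, fun g hg l => a3 g hg (k _ l)⟩⟩
  obtain ⟨z, β, a1, a2, a3⟩ := fin S hf
  refine h.ty_nax a1 (h.ax_gen hP hS fun g hg => ?_)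
  have gP : g ∈ P := hS ▸ Subgroup.subset_closure hg
  have b1 := h.ty_smul hP (P.inv_mem gP) a1
  obtain ⟨w, c1, c2⟩ := h.ty_meet hP a1 b1
  have := h.nested c1 c2 a2 fun l => a3 g hg (by simpa using (h.hf_smul g).2 l)
  rw [← h.le_smul g, ← h.le_smul g (x := g⁻¹ • z), smul_inv_smul] at this
  exact this.symm

/-- An axial point exists. -/
theorem exists_axial {S : Set G} (hS : Subgroup.closure S = P) (hf : S.Finite) (x : X) :
    ∃ y, Axial up P y := by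
  rcases h.proj hP hS hf x with k | ⟨y, -, -, k, -⟩ | ⟨ν, k, -⟩ | ⟨ν, k, -⟩
  · exact ⟨x, k⟩
  · exact ⟨y, k⟩
  · obtain ⟨c, hc, s, rfl⟩ := h.cover ν
    exact let ⟨u, a⟩ := (h.ax_germ hP hS hf hc k).exists; ⟨_, a⟩
  · obtain ⟨c, hc, s, rfl⟩ := h.dual.cover ν
    exact let ⟨u, a⟩ := (h.dual.ax_germ hP hS hf hc k).exists; ⟨_, (h.axial_dual P _).1 a⟩

end Om

end Pool.Agent.Work.MP_3d425c_gt.To
end

-- merged part: Pool.Agent.Work.MP_3d425c_gt.To.SfQa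
section
/-! Compactness of the set of points separating two given points; packing numbers. -/

namespace Pool.Agent.Work.MP_3d425c_gt.To
open Set Filter Topology Pool.Agent.Work.MP_3d425c_gt.Cy

variable {G X : Type*} [Group G] [MulAction G X] {C : Set (ℝ → X)} {up : X → X → Prop}

/-- `w` has `q` on its closed upper side and `p` on its closed lower side -/
def QSp (up : X → X → Prop) (p q w : X) : Prop := (up w q ∨ q = w) ∧ ¬ up w p

/-- `A` is a neighbourhood of `μ` -/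
def Nb (C : Set (ℝ → X)) (μ : X) (A : Set X) : Prop :=
  ∃ d ∈ C, ∃ r, d r = μ ∧ ∀ᶠ t in 𝓝 r, d t ∈ A

/-- finite subcover property -/
def Cpt (C : Set (ℝ → X)) (A : Set X) : Prop :=
  ∀ R : X → Set X, (∀ μ ∈ A, Nb C μ (R μ)) →
    ∃ T : Set X, T.Finite ∧ T ⊆ A ∧ ∀ w ∈ A, ∃ μ ∈ T, w ∈ R μ

theorem Cpt.biUnion {ι : Type*} {I : Set ι} (hI : I.Finite) {A : ι → Set X}
    (hA : ∀ i ∈ I, Cpt C (A i)) : Cpt C (⋃ i ∈ I, A i) := by
  intro R hR
  have k : ∀ i ∈ I, ∃ T : Set X, T.Finite ∧ T ⊆ A i ∧ ∀ w ∈ A i, ∃ μ ∈ T, w ∈ R μ :=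
    fun i hi => hA i hi R fun μ hμ => hR μ (mem_biUnion hi hμ)
  choose! T h1 h2 h3 using k
  refine ⟨⋃ i ∈ I, T i, hI.biUnion h1, iUnion₂_mono h2, fun w hw => ?_⟩
  obtain ⟨i, hi, hw⟩ := mem_iUnion₂.1 hw
  obtain ⟨μ, a, b⟩ := h3 i hi w hw
  exact ⟨μ, mem_biUnion hi a, b⟩

theorem Nb.mono {μ : X} {A B : Set X} (k : Nb C μ A) (e : A ⊆ B) : Nb C μ B := by
  obtain ⟨d, hd, r, e', k⟩ := k
  exact ⟨d, hd, r, e', k.mono fun _ a => e a⟩

theorem Nb.dual {μ : X} {A : Set X} (k : Nb C μ A) : Nb (dualC C) μ A := by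
  obtain ⟨d, hd, r, e, k⟩ := k
  refine ⟨_, oc_neg hd, -r, by simpa using e, ?_⟩
  have t : Tendsto (fun t : ℝ => -t) (𝓝 (-r)) (𝓝 r) := by
    simpa using (continuous_neg.tendsto (-r))
  exact t.eventually k

namespace Om
variable (h : Om G C up)
include h

theorem sp_dual (p q w : X) : QSp (dualU up) q p w ↔ QSp up p q w := by
  unfold QSp dualU
  constructor
  · rintro ⟨a, b⟩
    refine ⟨?_, ?_⟩
    · by_contra k
      exact b ⟨fun e => k (Or.inl e), fun e => k (Or.inr e.symm)⟩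
    · rcases a with a | rfl
      · exact a.1
      · exact h.irr _
  · rintro ⟨a, b⟩
    refine ⟨?_, fun k => ?_⟩
    · by_cases e : p = w
      · exact Or.inr e
      · exact Or.inl ⟨b, fun k => e k.symm⟩
    · rcases a with a | a
      · exact k.1 a
      · exact k.2 a.symm

theorem sp_smul (g : G) {p q w : X} (k : QSp up p q w) : QSp up (g • p) (g • q) (g • w) :=
  ⟨k.1.imp (h.ups g _ _) (fun e => by rw [e]), fun a => k.2 ((h.ups_iff g _ _).1 a)⟩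

theorem nb_chart {μ : X} {A : Set X} (k : Nb C μ A) {c} (hc : c ∈ C) {u : ℝ} (e : c u = μ) :
    ∀ᶠ t in 𝓝 u, c t ∈ A := by
  obtain ⟨d, hd, r, e', k⟩ := k
  filter_upwards [h.near hc hd (e.trans e'.symm) k] with t ht
  obtain ⟨v, a, b⟩ := ht
  exact b ▸ a

theorem nb_lg {μ : X} {A : Set X} (k : Nb C μ A) {c} (hc : c ∈ C) {u : ℝ} (e : LG C (c u) μ) :
    ∀ᶠ t in 𝓝[<] u, c t ∈ A := by
  obtain ⟨d, hd, r, rfl, k⟩ := k
  filter_upwards [h.lg_near hc hd e k] with t ht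
  obtain ⟨v, a, -, b⟩ := ht
  exact b ▸ a

theorem nb_smul (g : G) {μ : X} {A : Set X} (k : Nb C μ A) : Nb C (g • μ) {w | g⁻¹ • w ∈ A} := by
  obtain ⟨d, hd, r, rfl, k⟩ := k
  exact ⟨_, h.smul g d hd, r, rfl, k.mono fun t ht => by simpa using ht⟩

theorem qm_lg_lt {c} (hc : c ∈ C) {t v : ℝ} (htv : t < v) {μ : X} (e : LG C (c v) μ) :
    Lt up (c t) μ := by
  obtain ⟨d, hd, r, rfl⟩ := h.cover μ
  obtain ⟨a, ha, a1, a2⟩ := h.lg_splice hc hd e
  have k := h.lt_chart ha (show t - v < 0 by linarith)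
  rwa [a1 _ (by linarith), a2 0 le_rfl, add_zero, add_sub_cancel] at k

theorem qm_path (p q : X) : ∃ T : Set ((ℝ → X) × ℝ × ℝ), T.Finite ∧ (∀ e ∈ T, e.1 ∈ C) ∧
    ∀ w, (w = q ∨ ¬ (up w p ↔ up w q)) → ∃ e ∈ T, ∃ t ∈ Icc e.2.1 e.2.2, w = e.1 t := by
  refine h.conn (fun q => ∃ T : Set ((ℝ → X) × ℝ × ℝ), T.Finite ∧ (∀ e ∈ T, e.1 ∈ C) ∧
    ∀ w, (w = q ∨ ¬ (up w p ↔ up w q)) → ∃ e ∈ T, ∃ t ∈ Icc e.2.1 e.2.2, w = e.1 t) ?_ p q ?_
  · rintro d hd s t ⟨T, h1, h2, h3⟩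
    refine ⟨insert (d, min s t, max s t) T, h1.insert _, forall_mem_insert.2 ⟨hd, h2⟩, ?_⟩
    rintro w (rfl | hw)
    · exact ⟨_, mem_insert _ _, t, ⟨min_le_right _ _, le_max_right _ _⟩, rfl⟩
    by_cases a : up w (d s) ↔ up w (d t)
    · obtain ⟨e, b, k⟩ := h3 w (Or.inr fun k => hw (k.trans a))
      exact ⟨e, mem_insert_of_mem _ b, k⟩
    · have b : ∃ r, w = d r := by
        by_contra b
        have b' : ∀ r, w ≠ d r := fun r e => b ⟨r, e⟩
        exact a ⟨h.upk hd b' s t, h.upk hd b' t s⟩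
      obtain ⟨r, rfl⟩ := b
      rw [h.upc hd, h.upc hd] at a
      refine ⟨_, mem_insert _ _, r, ⟨?_, ?_⟩, rfl⟩
      · by_contra k
        have k' := not_le.1 k
        rw [lt_min_iff] at k'
        exact a (iff_of_true k'.1 k'.2)
      · by_contra k
        have k' := not_le.1 k
        rw [max_lt_iff] at k'
        exact a (iff_of_false k'.1.not_gt k'.2.not_gt)
  · obtain ⟨c, hc, t, rfl⟩ := h.cover p
    refine ⟨{(c, t, t)}, finite_singleton _, by simpa using hc, ?_⟩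
    rintro w (rfl | hw)
    · exact ⟨_, rfl, t, ⟨le_rfl, le_rfl⟩, rfl⟩
    · exact absurd Iff.rfl hw

theorem qm_left (p q : X) (R : X → Set X) (hR : ∀ μ, QSp up p q μ → Nb C μ (R μ)) {c}
    (hc : c ∈ C) (v : ℝ) : ∃ T : Set X, T.Finite ∧ (∀ μ ∈ T, QSp up p q μ) ∧
      ∀ᶠ t in 𝓝[<] v, QSp up p q (c t) → ∃ μ ∈ T, c t ∈ R μ := by
  by_cases a : ∃ᶠ t in 𝓝[<] v, QSp up p q (c t)
  · have b : ∀ t < v, ∃ t', t < t' ∧ t' < v ∧ QSp up p q (c t') := fun t ht => by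
      obtain ⟨t', b1, b2⟩ := (a.and_eventually (Ioo_mem_nhdsLT ht)).exists
      exact ⟨t', b2.1, b2.2, b1⟩
    obtain ⟨μ, b1, b2⟩ := h.cut hc (v := v) (x := q) fun t ht => by
      obtain ⟨t', c1, -, c3⟩ := b t ht
      rcases c3.1 with c4 | c4
      · exact h.lt_up (h.lt_chart hc c1) c4
      · rw [c4]
        exact (h.upc hc _ _).2 c1
    have b3 : QSp up p q μ := by
      refine ⟨b2, fun k => ?_⟩
      obtain ⟨t', -, c2, c3⟩ := b (v - 1) (by linarith)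
      exact c3.2 (h.lt_up (h.qm_lg_lt hc c2 (lg_symm b1)) k)
    refine ⟨{μ}, finite_singleton _, by simpa using b3, ?_⟩
    filter_upwards [h.nb_lg (hR μ b3) hc (lg_symm b1)] with t ht _
    exact ⟨μ, rfl, ht⟩
  · refine ⟨∅, finite_empty, by simp, ?_⟩
    filter_upwards [not_frequently.1 a] with t ht k
    exact absurd k ht

theorem qm_loc (p q : X) (R : X → Set X) (hR : ∀ μ, QSp up p q μ → Nb C μ (R μ)) {c}
    (hc : c ∈ C) (v : ℝ) : ∃ T : Set X, T.Finite ∧ (∀ μ ∈ T, QSp up p q μ) ∧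
      ∀ᶠ t in 𝓝 v, QSp up p q (c t) → ∃ μ ∈ T, c t ∈ R μ := by
  obtain ⟨T1, a1, a2, a3⟩ := h.qm_left p q R hR hc v
  obtain ⟨T2, b1, b2, b3⟩ := h.dual.qm_left q p R
    (fun μ k => (hR μ ((h.sp_dual p q μ).1 k)).dual) (oc_neg hc) (-v)
  have b4 : ∀ᶠ t in 𝓝[>] v, QSp up p q (c t) → ∃ μ ∈ T2, c t ∈ R μ := by
    filter_upwards [(tendsto_neg_nhdsGT (a := v)).eventually b3] with t ht k
    simp only [neg_neg] at ht
    exact ht ((h.sp_dual p q _).2 k)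
  refine ⟨T1 ∪ T2 ∪ {μ | μ = c v ∧ QSp up p q μ}, (a1.union b1).union
    ((finite_singleton (c v)).subset fun μ k => k.1), ?_, ?_⟩
  · rintro μ ((k | k) | k)
    · exact a2 μ k
    · exact (h.sp_dual p q μ).1 (b2 μ k)
    · exact k.2
  · have k : ∀ᶠ t in 𝓝[≠] v, QSp up p q (c t) →
        ∃ μ ∈ T1 ∪ T2 ∪ {μ | μ = c v ∧ QSp up p q μ}, c t ∈ R μ := by
      rw [← nhdsLT_sup_nhdsGT, eventually_sup]
      constructor
      · filter_upwards [a3] with t ht k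
        obtain ⟨μ, c1, c2⟩ := ht k
        exact ⟨μ, Or.inl (Or.inl c1), c2⟩
      · filter_upwards [b4] with t ht k
        obtain ⟨μ, c1, c2⟩ := ht k
        exact ⟨μ, Or.inl (Or.inr c1), c2⟩
    filter_upwards [eventually_nhdsWithin_iff.1 k] with t ht k'
    by_cases e : t = v
    · subst e
      exact ⟨c t, Or.inr ⟨rfl, k'⟩, (h.nb_chart (hR _ k') hc rfl).self_of_nhds⟩
    · exact ht e k'

theorem cpt_sp (p q : X) : Cpt C {w | QSp up p q w} := by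
  intro R hR
  obtain ⟨T, h1, h2, h3⟩ := h.qm_path p q
  have k : ∀ e ∈ T, ∃ U : Set X, U.Finite ∧ (∀ μ ∈ U, QSp up p q μ) ∧
      ∀ t ∈ Icc e.2.1 e.2.2, QSp up p q (e.1 t) → ∃ μ ∈ U, e.1 t ∈ R μ := by
    intro e he
    refine IsCompact.induction_on (p := fun S : Set ℝ => ∃ U : Set X, U.Finite ∧
      (∀ μ ∈ U, QSp up p q μ) ∧ ∀ t ∈ S, QSp up p q (e.1 t) → ∃ μ ∈ U, e.1 t ∈ R μ)
      isCompact_Icc ⟨∅, finite_empty, by simp, by simp⟩ ?_ ?_ ?_
    · rintro s t hst ⟨U, a1, a2, a3⟩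
      exact ⟨U, a1, a2, fun r hr => a3 r (hst hr)⟩
    · rintro s t ⟨U, a1, a2, a3⟩ ⟨V, b1, b2, b3⟩
      refine ⟨U ∪ V, a1.union b1, fun μ k => k.elim (a2 μ) (b2 μ), ?_⟩
      rintro r (hr | hr) k
      · obtain ⟨μ, c1, c2⟩ := a3 r hr k
        exact ⟨μ, Or.inl c1, c2⟩
      · obtain ⟨μ, c1, c2⟩ := b3 r hr k
        exact ⟨μ, Or.inr c1, c2⟩
    · intro v _
      obtain ⟨U, a1, a2, a3⟩ := h.qm_loc p q R hR (h2 e he) v
      exact ⟨_, mem_nhdsWithin_of_mem_nhds a3, U, a1, a2, fun t ht => ht⟩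
  choose! U a1 a2 a3 using k
  refine ⟨⋃ e ∈ T, U e, h1.biUnion a1, ?_, fun w hw => ?_⟩
  · intro μ hμ
    obtain ⟨e, he, k⟩ := mem_iUnion₂.1 hμ
    exact a2 e he μ k
  · obtain ⟨e, he, t, ht, rfl⟩ := h3 w (by
      rcases hw.1 with k | k
      · exact Or.inr fun a => hw.2 (a.2 k)
      · exact Or.inl k.symm)
    obtain ⟨μ, c1, c2⟩ := a3 e he t ht hw
    exact ⟨μ, mem_biUnion he c1, c2⟩

/-- points separating the same pair are nested -/
theorem qm_tot {p q w w' : X} (a : up w q) (b : ¬ up w p) (a' : up w' q) (b' : ¬ up w' p) :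
    Le up w w' ∨ Lt up w' w := by
  by_cases e : w = w'
  · exact Or.inl (Or.inl e)
  by_cases k : up w w'
  · by_cases k' : up w' w
    · exact absurd ((h.sep' k b).2 k') b'
    · exact Or.inl (Or.inr ⟨k, k'⟩)
  · by_cases k' : up w' w
    · exact Or.inr ⟨k', k⟩
    · exact (h.disj k k' e (Or.inl a) (Or.inl a')).elim

theorem qm_btw {c} (hc : c ∈ C) {s t : ℝ} {w : X} (a : Le up (c s) w) (b : Le up w (c t)) :
    ∃ r ∈ Icc s t, w = c r := by
  by_cases k : ∃ r, w = c r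
  · obtain ⟨r, rfl⟩ := k
    refine ⟨r, ⟨?_, ?_⟩, rfl⟩
    · rcases a with a | a
      · exact (h.inj hc a).le
      · exact ((h.upc hc _ _).1 a.1).le
    · rcases b with b | b
      · exact (h.inj hc b).le
      · exact ((h.upc hc _ _).1 b.1).le
  · have k' : ∀ r, w ≠ c r := fun r e => k ⟨r, e⟩
    rcases a with a | a
    · exact absurd a.symm (k' s)
    rcases b with b | b
    · exact absurd b (k' t)
    exact absurd (h.upk hc k' t s b.1) a.2

/-- no nesting -/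
theorem qm_nn {F : Set X} (hi : ∀ (g : G) x, x ∈ F → g • x ∈ F)
    (fin : ∀ x ∈ F, ∀ g : G, g • x = x → ∃ n > 0, ∀ y ∈ F, g ^ n • y = y) {c} (hc : c ∈ C)
    {g : G} {u v a b : ℝ} (hF : ∀ t ∈ Icc u v, c t ∉ F → Nb C (c t) Fᶜ) (huv : u ≤ v) (ha : u < a) (hb : b < v) (e1 : g • c u = c a)
    (e2 : g • c v = c b) (hu : c u ∈ F) : False := by
  have hg := h.smul g c hc
  have k : ∀ t ∈ Icc u v, ∃ z, a ≤ z ∧ z ≤ b ∧ g • c t = c z := fun t ht =>
    h.conv hg hc e1 e2 ht.1 ht.2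
  choose! φ k1 k2 k3 using k
  have hm : ∀ s ∈ Icc u v, ∀ t ∈ Icc u v, s < t → φ s < φ t := fun s hs t ht hst => by
    have := (h.upc hg s t).2 hst
    rw [k3 s hs, k3 t ht] at this
    exact (h.upc hc _ _).1 this
  have hI : ∀ t ∈ Icc u v, φ t ∈ Icc u v := fun t ht =>
    ⟨ha.le.trans (k1 t ht), (k2 t ht).trans hb.le⟩
  set S : Set ℝ := {t | t ∈ Icc u v ∧ c t ∈ F ∧ t < φ t} with hS
  have s0 : u ∈ S := ⟨⟨le_rfl, huv⟩, hu, ha.trans_le (k1 u ⟨le_rfl, huv⟩)⟩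
  have s1 : ∀ t ∈ S, φ t ∈ S := fun t ht =>
    ⟨hI t ht.1, k3 t ht.1 ▸ hi g _ ht.2.1, hm _ ht.1 _ (hI t ht.1) ht.2.2⟩
  have sb : BddAbove S := ⟨v, fun t ht => ht.1.2⟩
  have m1 : sSup S ∈ Icc u v := ⟨le_csSup sb s0, csSup_le ⟨u, s0⟩ fun t ht => ht.1.2⟩
  have m2 : c (sSup S) ∈ F := by
    by_contra k
    obtain ⟨t, c1, c2⟩ := ((mem_closure_iff_frequently.1
      (csSup_mem_closure ⟨u, s0⟩ sb)).and_eventually (h.nb_chart (hF _ m1 k) hc rfl)).exists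
    exact c2 c1.2.1
  have m3 : φ (sSup S) = sSup S := by
    refine le_antisymm (not_lt.1 fun a => ?_) (csSup_le ⟨u, s0⟩ fun t ht => ?_)
    · exact a.not_ge (le_csSup sb (s1 _ ⟨m1, m2, a⟩))
    · rcases (le_csSup sb ht).eq_or_lt with e | e
      · rw [← e]
        exact ht.2.2.le
      · exact (ht.2.2.trans (hm _ ht.1 _ m1 e)).le
  obtain ⟨n, hn, m4⟩ := fin _ m2 g (by rw [k3 _ m1, m3])
  have m5 : ∀ n : ℕ, ∃ t ∈ S, u < t ∧ g ^ (n + 1) • c u = c t := by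
    intro n
    induction n with
    | zero => exact ⟨φ u, s1 u s0, s0.2.2, by rw [zero_add, pow_one, k3 u s0.1]⟩
    | succ n ih =>
      obtain ⟨t, c1, c2, c3⟩ := ih
      exact ⟨φ t, s1 t c1, c2.trans c1.2.2, by rw [pow_succ', mul_smul, c3, k3 t c1.1]⟩
  obtain ⟨m, rfl⟩ : ∃ m, n = m + 1 := ⟨n - 1, by omega⟩
  obtain ⟨t, -, c2, c3⟩ := m5 m
  exact c2.ne (h.inj hc ((m4 _ hu).symm.trans c3))

end Om

/-- a packing of `A` by `n` disjoint tiles -/
def Pk (τ : G → Set X) (A : Set X) (n : ℕ) : Prop :=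
  ∃ T : Finset G, T.card = n ∧ (∀ g ∈ T, τ g ⊆ A) ∧
    ∀ g ∈ T, ∀ g' ∈ T, g ≠ g' → Disjoint (τ g) (τ g')

/-- the packing number -/
noncomputable def pkN (τ : G → Set X) (A : Set X) : ℕ := sSup {n | Pk τ A n}

omit [Group G] [MulAction G X] in
theorem pk_mem {τ : G → Set X} {A : Set X} (hb : BddAbove {n | Pk τ A n}) : Pk τ A (pkN τ A) :=
  Nat.sSup_mem (s := {n | Pk τ A n}) ⟨0, ∅, rfl, by simp, by simp⟩ hb

omit [Group G] [MulAction G X] in
theorem pk_mono {τ : G → Set X} {A B : Set X} (k : A ⊆ B) (hb : BddAbove {n | Pk τ B n}) :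
    BddAbove {n | Pk τ A n} :=
  hb.mono fun n (hn : Pk τ A n) => by
    obtain ⟨T, a, b, c⟩ := hn
    exact ⟨T, a, fun g hg => (b g hg).trans k, c⟩

omit [Group G] [MulAction G X] in
theorem pk_empty {τ : G → Set X} (hne : ∀ g, (τ g).Nonempty) {A : Set X} (k : ∀ w, w ∉ A) :
    pkN τ A = 0 := by
  have : {n | Pk τ A n} = {0} := by
    ext n
    refine ⟨?_, ?_⟩
    · rintro ⟨T, rfl, b, -⟩
      refine Finset.card_eq_zero.2 (Finset.eq_empty_of_forall_notMem fun g hg => ?_)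
      obtain ⟨w, hw⟩ := hne g
      exact k w (b g hg hw)
    · rintro rfl
      exact ⟨∅, rfl, by simp, by simp⟩
  rw [pkN, this, csSup_singleton]

omit [Group G] [MulAction G X] in
theorem pk_add {τ : G → Set X} (hne : ∀ g, (τ g).Nonempty) {A A1 A2 : Set X} {e : ℕ}
    (hb : BddAbove {n | Pk τ A n}) (h1 : A1 ⊆ A) (h2 : A2 ⊆ A) (hd : Disjoint A1 A2)
    (hs : ∀ T : Finset G, (∀ g ∈ T, τ g ⊆ A ∧ ¬ τ g ⊆ A1 ∧ ¬ τ g ⊆ A2) →
      (∀ g ∈ T, ∀ g' ∈ T, g ≠ g' → Disjoint (τ g) (τ g')) → T.card ≤ e) :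
    pkN τ A1 + pkN τ A2 ≤ pkN τ A ∧ pkN τ A ≤ pkN τ A1 + pkN τ A2 + e := by
  classical
  constructor
  · obtain ⟨T1, a1, a2, a3⟩ := pk_mem (pk_mono h1 hb)
    obtain ⟨T2, b1, b2, b3⟩ := pk_mem (pk_mono h2 hb)
    have d : Disjoint T1 T2 := Finset.disjoint_left.2 fun g c1 c2 => by
      obtain ⟨w, hw⟩ := hne g
      exact Set.disjoint_left.1 hd (a2 g c1 hw) (b2 g c2 hw)
    refine le_csSup hb ⟨T1 ∪ T2, by rw [Finset.card_union_of_disjoint d, a1, b1], ?_, ?_⟩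
    · intro g hg
      rcases Finset.mem_union.1 hg with k | k
      · exact (a2 g k).trans h1
      · exact (b2 g k).trans h2
    · intro g hg g' hg' ne
      rcases Finset.mem_union.1 hg with k | k <;> rcases Finset.mem_union.1 hg' with k' | k'
      · exact a3 g k g' k' ne
      · exact hd.mono (a2 g k) (b2 g' k')
      · exact hd.symm.mono (b2 g k) (a2 g' k')
      · exact b3 g k g' k' ne
  · obtain ⟨T, a1, a2, a3⟩ := pk_mem hb
    have sub : ∀ U ⊆ T, ∀ g ∈ U, ∀ g' ∈ U, g ≠ g' → Disjoint (τ g) (τ g') :=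
      fun U hU g hg g' hg' => a3 g (hU hg) g' (hU hg')
    have c1 : (T.filter fun g => τ g ⊆ A1).card ≤ pkN τ A1 :=
      le_csSup (pk_mono h1 hb) ⟨_, rfl, fun g hg => (Finset.mem_filter.1 hg).2,
        sub _ (Finset.filter_subset _ _)⟩
    have c2 : (T.filter fun g => τ g ⊆ A2).card ≤ pkN τ A2 :=
      le_csSup (pk_mono h2 hb) ⟨_, rfl, fun g hg => (Finset.mem_filter.1 hg).2,
        sub _ (Finset.filter_subset _ _)⟩
    have c3 : (T.filter fun g => ¬ τ g ⊆ A1 ∧ ¬ τ g ⊆ A2).card ≤ e :=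
      hs _ (fun g hg => ⟨a2 g (Finset.mem_filter.1 hg).1, (Finset.mem_filter.1 hg).2⟩)
        (sub _ (Finset.filter_subset _ _))
    have c4 : T ⊆ (T.filter fun g => τ g ⊆ A1) ∪ (T.filter fun g => τ g ⊆ A2) ∪
        (T.filter fun g => ¬ τ g ⊆ A1 ∧ ¬ τ g ⊆ A2) := fun g hg => by
      simp only [Finset.mem_union, Finset.mem_filter, hg, true_and]
      tauto
    have c5 := Finset.card_le_card c4
    have c6 := Finset.card_union_le ((T.filter fun g => τ g ⊆ A1) ∪ (T.filter fun g => τ g ⊆ A2))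
      (T.filter fun g => ¬ τ g ⊆ A1 ∧ ¬ τ g ⊆ A2)
    have c7 := Finset.card_union_le (T.filter fun g => τ g ⊆ A1) (T.filter fun g => τ g ⊆ A2)
    omega

omit [MulAction G X] in
/-- uniformly almost additive sequences are bounded when no character exists -/
theorem qm_bdd (E : G → Prop) (NH : ∀ χ : G → ℝ, (∀ a b, χ (a * b) = χ a + χ b) →
      (∀ g, E g → χ g = 0) → ∀ g, χ g = 0) (q : ℕ → G → ℝ) (D : ℝ)
    (h1 : ∀ m a b, |q m a + q m b - q m (a * b)| ≤ D) (h2 : ∀ m g, E g → |q m g| ≤ D) (g : G) :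
    ∃ M, ∀ m, |q m g| ≤ M := by
  let W : Submodule ℝ (ℕ → ℝ) :=
    { carrier := {u | ∃ M, ∀ m, |u m| ≤ M}
      add_mem' := fun ⟨M, a⟩ ⟨N, b⟩ => ⟨M + N, fun m =>
        (abs_add_le _ _).trans (add_le_add (a m) (b m))⟩
      zero_mem' := ⟨0, by simp⟩
      smul_mem' := fun r u ⟨M, a⟩ => ⟨|r| * M, fun m => by
        rw [Pi.smul_apply, smul_eq_mul, abs_mul]
        exact mul_le_mul_of_nonneg_left (a m) (abs_nonneg r)⟩ }
  by_contra k
  obtain ⟨f, f1, f2⟩ := W.exists_dual_map_eq_bot_of_notMem (x := fun m => q m g) k inferInstance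
  have f3 : ∀ u ∈ W, f u = 0 := fun u hu => by
    have : f u ∈ W.map f := ⟨u, hu, rfl⟩
    rwa [f2, Submodule.mem_bot] at this
  refine f1 (NH (fun a => f fun m => q m a) (fun a b => ?_) (fun a ha => f3 _ ⟨D, fun m => h2 m a ha⟩) g)
  have := f3 ((fun m => q m a) + (fun m => q m b) - fun m => q m (a * b)) ⟨D, fun m => h1 m a b⟩
  rw [map_sub, map_add] at this
  linarith

end Pool.Agent.Work.MP_3d425c_gt.To
end

-- merged part: Pool.Agent.Work.MP_3d425c_gt.To.SfQm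
section
/-! A closed invariant set with finite order stabilisers and no character contains a discrete
orbit. -/

namespace Pool.Agent.Work.MP_3d425c_gt.To
open Set Filter Topology Pool.Agent.Work.MP_3d425c_gt.Cy

variable {G X : Type*} [Group G] [MulAction G X] {C : Set (ℝ → X)} {up : X → X → Prop}

/-- points of `Λ` separating `p` from `q` -/
def Sx (up : X → X → Prop) (Λ : Set X) (p q : X) : Set X := {w | w ∈ Λ ∧ up w q ∧ ¬ up w p}

/-- translates of a segment -/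
def Tl (G : Type*) [Group G] [MulAction G X] (Λ : Set X) (c : ℝ → X) (u v : ℝ) (g : G) : Set X :=
  {w | w ∈ Λ ∧ ∃ t ∈ Icc u v, w = g • c t}

/-- signed packing number -/
noncomputable def qF (up : X → X → Prop) (Λ : Set X) (τ : G → Set X) (p q : X) : ℝ :=
  (pkN τ (Sx up Λ p q) : ℝ) - pkN τ (Sx up Λ q p)

omit [Group G] [MulAction G X] in
theorem qF_anti (Λ : Set X) (τ : G → Set X) (p q : X) : qF up Λ τ p q = -qF up Λ τ q p := by
  simp only [qF, neg_sub]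

omit [Group G] [MulAction G X] in
theorem qF_split {Λ : Set X} {τ : G → Set X} (hne : ∀ g, (τ g).Nonempty) {e : ℕ} {O : Set X}
    (hb : ∀ p ∈ O, ∀ q ∈ O, BddAbove {n | Pk τ (Sx up Λ p q) n})
    (hs : ∀ p q r, ∀ T : Finset G, (∀ g ∈ T, τ g ⊆ Sx up Λ p q ∧ (∃ w ∈ τ g, ¬ up w r) ∧
      ∃ w ∈ τ g, up w r) → (∀ g ∈ T, ∀ g' ∈ T, g ≠ g' → Disjoint (τ g) (τ g')) → T.card ≤ e)
    {p q r : X} (hp : p ∈ O) (hq : q ∈ O) (hr : r ∈ O) :
    |qF up Λ τ p q + qF up Λ τ q r - qF up Λ τ p r| ≤ 3 * e := by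
  let S : X → X → X → Set X := fun p q r => {w | w ∈ Λ ∧ ¬ up w p ∧ up w q ∧ up w r}
  let T : X → X → X → Set X := fun p q r => {w | w ∈ Λ ∧ up w p ∧ ¬ up w q ∧ ¬ up w r}
  have s1 : ∀ p q r, S p q r = S p r q := fun p q r => by
    ext w
    simp only [S, mem_ofPred_eq]
    tauto
  have t1 : ∀ p q r, T p q r = T p r q := fun p q r => by
    ext w
    simp only [T, mem_ofPred_eq]
    tauto
  have k : ∀ p ∈ O, ∀ q ∈ O, ∀ r, (pkN τ (S p q r) : ℝ) + pkN τ (T q p r) ≤ pkN τ (Sx up Λ p q) ∧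
      (pkN τ (Sx up Λ p q) : ℝ) ≤ pkN τ (S p q r) + pkN τ (T q p r) + e := by
    intro p hp q hq r
    have := pk_add hne (hb p hp q hq) (A1 := S p q r) (A2 := T q p r) (e := e)
      (fun w a => ⟨a.1, a.2.2.1, a.2.1⟩) (fun w a => ⟨a.1, a.2.1, a.2.2.1⟩)
      (Set.disjoint_left.2 fun w a b => b.2.2.2 a.2.2.2) fun U a b => hs p q r U (fun g hg => by
        obtain ⟨a1, a2, a3⟩ := a g hg
        obtain ⟨w, b1, b2⟩ := not_subset.1 a2
        obtain ⟨w', c1, c2⟩ := not_subset.1 a3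
        refine ⟨a1, ⟨w, b1, fun k => b2 ⟨(a1 b1).1, (a1 b1).2.2, (a1 b1).2.1, k⟩⟩, w', c1, ?_⟩
        by_contra k
        exact c2 ⟨(a1 c1).1, (a1 c1).2.1, (a1 c1).2.2, k⟩) b
    exact_mod_cast this
  have k1 := k p hp q hq r
  have k2 := k q hq p hp r
  have k3 := k q hq r hr p
  have k4 := k r hr q hq p
  have k5 := k p hp r hr q
  have k6 := k r hr p hp q
  rw [s1 q r p, t1 r q p] at k3
  rw [s1 r q p, t1 q r p] at k4
  rw [s1 p r q] at k5
  rw [t1 p r q] at k6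
  unfold qF
  rw [abs_le]
  constructor <;> linarith [k1.1, k1.2, k2.1, k2.2, k3.1, k3.2, k4.1, k4.2, k5.1, k5.2, k6.1, k6.2]

namespace Om
variable (h : Om G C up) {Λ : Set X} (hi : ∀ (g : G) x, x ∈ Λ → g • x ∈ Λ)
include h hi

theorem pk_smul {c : ℝ → X} {u v : ℝ} (γ : G) {p q : X} {n : ℕ}
    (k : Pk (Tl G Λ c u v) (Sx up Λ p q) n) : Pk (Tl G Λ c u v) (Sx up Λ (γ • p) (γ • q)) n := by
  obtain ⟨T, a1, a2, a3⟩ := k
  have m : ∀ g w, w ∈ Tl G Λ c u v (γ * g) → γ⁻¹ • w ∈ Tl G Λ c u v g := by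
    rintro g w ⟨b1, t, b2, rfl⟩
    exact ⟨hi _ _ b1, t, b2, by rw [mul_smul, inv_smul_smul]⟩
  refine ⟨T.map (Equiv.mulLeft γ).toEmbedding, by rw [Finset.card_map, a1], ?_, ?_⟩
  · intro g hg w hw
    obtain ⟨g, b, rfl⟩ := Finset.mem_map.1 hg
    obtain ⟨-, b2, b3⟩ := a2 g b (m g w hw)
    refine ⟨hw.1, ?_, fun k => b3 ?_⟩
    · simpa using h.ups γ _ _ b2
    · simpa using h.ups γ⁻¹ _ _ k
  · intro g hg g' hg' ne
    obtain ⟨g, b, rfl⟩ := Finset.mem_map.1 hg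
    obtain ⟨g', b', rfl⟩ := Finset.mem_map.1 hg'
    exact Set.disjoint_left.2 fun w k k' => Set.disjoint_left.1
      (a3 g b g' b' fun e => ne (by rw [e])) (m g w k) (m g' w k')

theorem pkN_smul {c : ℝ → X} {u v : ℝ} (γ : G) (p q : X) :
    pkN (Tl G Λ c u v) (Sx up Λ (γ • p) (γ • q)) = pkN (Tl G Λ c u v) (Sx up Λ p q) := by
  unfold pkN
  congr 1
  ext n
  exact ⟨fun k => by simpa using h.pk_smul hi γ⁻¹ k, fun k => h.pk_smul hi γ k⟩

theorem qF_smul {c : ℝ → X} {u v : ℝ} (γ : G) (p q : X) :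
    qF up Λ (Tl G Λ c u v) (γ • p) (γ • q) = qF up Λ (Tl G Λ c u v) p q := by
  simp only [qF, h.pkN_smul hi]

omit hi in
theorem tl_str {c} (hc : c ∈ C) {u v : ℝ} (p q r : X) (T : Finset G)
    (a : ∀ g ∈ T, Tl G Λ c u v g ⊆ Sx up Λ p q ∧ (∃ w ∈ Tl G Λ c u v g, ¬ up w r) ∧
      ∃ w ∈ Tl G Λ c u v g, up w r)
    (b : ∀ g ∈ T, ∀ g' ∈ T, g ≠ g' → Disjoint (Tl G Λ c u v g) (Tl G Λ c u v g')) :
    T.card ≤ 1 := by
  have key : ∀ g ∈ T, ∀ g' ∈ T, g ≠ g' → ∀ w ∈ Tl G Λ c u v g, ∀ w' ∈ Tl G Λ c u v g',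
      up w' r → ¬ Le up w w' := by
    intro g hg g' hg' ne w hw w' hw' k l
    obtain ⟨a1, ⟨z, a2, a3⟩, -⟩ := a g hg
    have a4 := (a g' hg').1 hw'
    have a5 : Le up w' z := by
      rcases h.qm_tot a4.2.1 a4.2.2 (a1 a2).2.1 (a1 a2).2.2 with e | e
      · exact e
      · exact absurd (h.lt_up e k) a3
    obtain ⟨-, s, s1, rfl⟩ := hw
    obtain ⟨-, t, t1, rfl⟩ := a2
    obtain ⟨y, y1, y2⟩ := h.qm_btw (h.smul g c hc) l a5
    exact Set.disjoint_left.1 (b g hg g' hg' ne)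
      ⟨hw'.1, y, ⟨s1.1.trans y1.1, y1.2.trans t1.2⟩, y2⟩ hw'
  refine Finset.card_le_one.2 fun g hg g' hg' => ?_
  by_contra ne
  obtain ⟨a1, -, w, a2, a3⟩ := a g hg
  obtain ⟨b1, -, w', b2, b3⟩ := a g' hg'
  rcases h.qm_tot (a1 a2).2.1 (a1 a2).2.2 (b1 b2).2.1 (b1 b2).2.2 with e | e
  · exact key g hg g' hg' ne w a2 w' b2 b3 e
  · exact key g' hg' g hg (Ne.symm ne) w' b2 w a2 a3 (Or.inr e)

theorem tl_bdd {c} {u v : ℝ} (huv : u ≤ v) (hu : c u ∈ Λ) {p q : X}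
    (hR : ∀ μ, QSp up p q μ → ∃ A, Nb C μ A ∧ ∀ g g' : G, Tl G Λ c u v g ⊆ Sx up Λ p q →
      Tl G Λ c u v g' ⊆ Sx up Λ p q → Disjoint (Tl G Λ c u v g) (Tl G Λ c u v g') →
      g • c u ∈ A → g' • c u ∉ A) : BddAbove {n | Pk (Tl G Λ c u v) (Sx up Λ p q) n} := by
  classical
  choose! R h1 h2 using hR
  obtain ⟨U, a1, a2, a3⟩ := h.cpt_sp p q R h1
  choose! f f1 f2 using a3
  refine ⟨a1.toFinset.card, ?_⟩
  rintro n ⟨T, rfl, b2, b3⟩
  have m : ∀ g ∈ T, g • c u ∈ {w | QSp up p q w} := fun g hg =>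
    have k := b2 g hg ⟨hi g _ hu, u, ⟨le_rfl, huv⟩, rfl⟩
    ⟨Or.inl k.2.1, k.2.2⟩
  refine Finset.card_le_card_of_injOn (fun g => f (g • c u))
    (fun g hg => by simpa using f1 _ (m g hg)) fun g hg g' hg' e => ?_
  by_contra ne
  have e' : f (g • c u) = f (g' • c u) := e
  exact h2 _ (a2 (f1 _ (m g hg))) g g' (b2 g hg) (b2 g' hg') (b3 g hg g' hg' ne) (f2 _ (m g hg))
    (e' ▸ f2 _ (m g' hg'))

theorem qF_all {c} {u v : ℝ} (huv : u ≤ v) (hu : c u ∈ Λ) {e : ℕ} {O : Set X}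
    (hO : ∀ (g : G) x, x ∈ O → g • x ∈ O)
    (hb : ∀ p ∈ O, ∀ q ∈ O, BddAbove {n | Pk (Tl G Λ c u v) (Sx up Λ p q) n})
    (hs : ∀ p q r, ∀ T : Finset G, (∀ g ∈ T, Tl G Λ c u v g ⊆ Sx up Λ p q ∧
      (∃ w ∈ Tl G Λ c u v g, ¬ up w r) ∧ ∃ w ∈ Tl G Λ c u v g, up w r) →
      (∀ g ∈ T, ∀ g' ∈ T, g ≠ g' → Disjoint (Tl G Λ c u v g) (Tl G Λ c u v g')) → T.card ≤ e)
    {x : X} (hx : x ∈ O) :
    (∀ a b : G, |qF up Λ (Tl G Λ c u v) x (a • x) + qF up Λ (Tl G Λ c u v) x (b • x) -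
      qF up Λ (Tl G Λ c u v) x ((a * b) • x)| ≤ 6 * e) ∧
    ∀ g : G, (∃ z ∈ O, ∀ w ∈ Λ, up w z ↔ up w (g • z)) →
      |qF up Λ (Tl G Λ c u v) x (g • x)| ≤ 6 * e := by
  have hne : ∀ g, (Tl G Λ c u v g).Nonempty := fun g => ⟨_, hi g _ hu, u, ⟨le_rfl, huv⟩, rfl⟩
  have e0 : (0 : ℝ) ≤ e := Nat.cast_nonneg e
  constructor
  · intro a b
    have k := qF_split hne hb hs hx (hO a x hx) (hO (a * b) x hx)
    rw [mul_smul, h.qF_smul hi, ← mul_smul] at k
    linarith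
  · rintro g ⟨z, hz, k⟩
    have k0 : qF up Λ (Tl G Λ c u v) z (g • z) = 0 := by
      unfold qF
      rw [pk_empty hne fun w (a : w ∈ Sx up Λ z (g • z)) => a.2.2 ((k w a.1).2 a.2.1),
        pk_empty hne fun w (a : w ∈ Sx up Λ (g • z) z) => a.2.2 ((k w a.1).1 a.2.1), sub_self]
    have k1 := qF_split hne hb hs hx hz (hO g x hx)
    have k2 := qF_split hne hb hs hz (hO g z hz) (hO g x hx)
    rw [k0, h.qF_smul hi, qF_anti _ _ z x] at k2
    rw [abs_le] at k1 k2 ⊢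
    constructor <;> linarith [k1.1, k1.2, k2.1, k2.2]

end Om

namespace Om
variable (h : Om G C up)
include h

theorem qm_min {F K Z : Set X} (hi : ∀ (g : G) x, x ∈ F → g • x ∈ F)
    (hF : ∀ μ ∈ Z, μ ∉ F → Nb C μ Fᶜ) (hK : Cpt C K) (hZ : K ⊆ Z)
    (hne : (F ∩ K).Nonempty) : ∃ Λ : Set X, Λ ⊆ F ∧ (∀ (g : G) x, x ∈ Λ → g • x ∈ Λ) ∧
      (∀ μ ∈ Z, μ ∉ Λ → Nb C μ Λᶜ) ∧
      (Λ ∩ K).Nonempty ∧ ∀ μ ∈ Λ, (∃ g : G, g • μ ∈ K) → ∀ d ∈ C, ∀ a t b : ℝ, a < t → t < b →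
        d t ∈ Λ → ∃ γ : G, ∃ t' ∈ Ioo a b, γ • μ = d t' := by
  obtain ⟨Λ, h1, h2⟩ := zorn_superset_nonempty
    {Λ : Set X | (∀ (g : G) x, x ∈ Λ → g • x ∈ Λ) ∧ (∀ μ ∈ Z, μ ∉ Λ → Nb C μ Λᶜ) ∧
      (Λ ∩ K).Nonempty}
    (fun c hc hch hn => by
      have k0 : ∀ μ, μ ∉ ⋂₀ c → ∃ s ∈ c, μ ∉ s := fun μ k => by
        by_contra k2
        exact k fun s hs => by_contra fun a => k2 ⟨s, hs, a⟩
      refine ⟨⋂₀ c, ⟨fun g x hx s hs => (hc hs).1 g x (hx s hs), fun μ hμ k => ?_, ?_⟩,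
        fun s hs => sInter_subset_of_mem hs⟩
      · obtain ⟨s, s1, s2⟩ := k0 μ k
        exact ((hc s1).2.1 μ hμ s2).mono (compl_subset_compl.2 (sInter_subset_of_mem s1))
      · by_contra k
        have k1 : ∀ μ ∈ K, ∃ s ∈ c, μ ∉ s := fun μ hμ => k0 μ fun a => k ⟨μ, a, hμ⟩
        choose! R r1 r2 using k1
        obtain ⟨T, t1, t2, t3⟩ := hK (fun μ => (R μ)ᶜ) fun μ hμ =>
          (hc (r1 μ hμ)).2.1 μ (hZ hμ) (r2 μ hμ)
        have k3 : ∀ U : Set X, U.Finite → U ⊆ K → ∃ s ∈ c, ∀ μ ∈ U, s ⊆ R μ := by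
          intro U hU
          induction U, hU using Set.Finite.induction_on with
          | empty => exact fun _ => hn.imp fun s hs => ⟨hs, by simp⟩
          | @insert a U _ _ ih =>
            intro k4
            obtain ⟨s, s1, s2⟩ := ih ((subset_insert _ _).trans k4)
            have s3 := r1 a (k4 (mem_insert _ _))
            rcases hch.total s1 s3 with e | e
            · exact ⟨s, s1, forall_mem_insert.2 ⟨e, s2⟩⟩
            · exact ⟨R a, s3, forall_mem_insert.2 ⟨Subset.rfl, fun μ k => e.trans (s2 μ k)⟩⟩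
        obtain ⟨s, s1, s2⟩ := k3 T t1 t2
        obtain ⟨w, w1, w2⟩ := (hc s1).2.2
        obtain ⟨μ, m1, m2⟩ := t3 w w2
        exact m2 (s2 μ m1 w1)) F ⟨hi, hF, hne⟩
  refine ⟨Λ, h1, h2.1.1, h2.1.2.1, h2.1.2.2, ?_⟩
  rintro μ hμ ⟨g, hg⟩ d hd a t b hat htb ht
  by_contra k
  let L : Set X := {w | w ∈ Λ ∧ ¬ ∃ γ : G, ∃ t' ∈ Ioo a b, γ • w = d t'}
  have l1 : ∀ (g : G) x, x ∈ L → g • x ∈ L := fun g x hx =>
    ⟨h2.1.1 g x hx.1, fun ⟨γ, t', c1, c2⟩ => hx.2 ⟨γ * g, t', c1, by rw [mul_smul, c2]⟩⟩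
  have l2 : ∀ ν ∈ Z, ν ∉ L → Nb C ν Lᶜ := fun ν hν k => by
    by_cases e : ν ∈ Λ
    · obtain ⟨γ, t', c1, c2⟩ := not_not.1 fun a => k ⟨e, a⟩
      refine ⟨_, h.smul γ⁻¹ d hd, t', by rw [← c2, inv_smul_smul], ?_⟩
      filter_upwards [Ioo_mem_nhds c1.1 c1.2] with s hs a
      exact a.2 ⟨γ, s, hs, smul_inv_smul _ _⟩
    · exact (h2.1.2.1 ν hν e).mono fun w a b => a b.1
  have l3 : Λ ⊆ L := h2.2 (y := L) ⟨l1, l2, g • μ, l1 g μ ⟨hμ, k⟩, hg⟩ fun w hw => hw.1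
  exact (l3 ht).2 ⟨1, t, ⟨hat, htb⟩, one_smul _ _⟩

theorem qm_mon {x y : X} (k : Relation.TransGen (Asc C) x y) (w : X) (a : up w x) : up w y := by
  have one : ∀ x y, Asc C x y → up w x → up w y := by
    rintro _ _ ⟨c, hc, s, t, hst, rfl, rfl⟩
    exact h.mono hc hst.le
  induction k with
  | single b => exact one _ _ b a
  | tail _ b ih => exact one _ _ b ih

theorem qm_cov {S : Set G} (hS : S.Finite) (hc : Subgroup.closure S = ⊤) {B : Set X}
    (hB : B.Finite) {y : X} (hy : y ∈ B) : ∃ K O : Set X, Cpt C K ∧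
      (∀ w ∈ K, ∃ a b : G, ∃ p ∈ B, ∃ q ∈ B, QSp up (a • p) (b • q) w) ∧ B ⊆ O ∧ K ⊆ O ∧
      (∀ (g : G) x, x ∈ O → g • x ∈ O) ∧
      ∀ p ∈ O, ∀ q ∈ O, ∀ w, QSp up p q w → ∃ g : G, g • w ∈ K := by
  let B' : Set X := B ∪ (fun s => s • y) '' S
  have b1 : B'.Finite := hB.union (hS.image _)
  let K : Set X := ⋃ e ∈ B' ×ˢ B', {w | QSp up e.1 e.2 w}
  let R : X → X → Prop := fun p q => ∀ w, QSp up p q w → ∃ g : G, g • w ∈ K
  have r0 : ∀ p ∈ B', ∀ q ∈ B', R p q := fun p hp q hq w hw =>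
    ⟨1, by rw [one_smul]; exact mem_biUnion (x := (p, q)) ⟨hp, hq⟩ hw⟩
  have r1 : ∀ {p q r}, R p q → R q r → R p r := fun {p q r} a b w hw => by
    by_cases k : up w q
    · exact a w ⟨Or.inl k, hw.2⟩
    · exact b w ⟨hw.1, k⟩
  have r2 : ∀ (g : G) {p q}, R p q → R (g • p) (g • q) := fun g p q a w hw => by
    obtain ⟨γ, k⟩ := a (g⁻¹ • w) (by simpa using h.sp_smul g⁻¹ hw)
    exact ⟨γ * g⁻¹, by rwa [mul_smul]⟩
  have y1 : y ∈ B' := Or.inl hy
  have r3 : ∀ g : G, R y (g • y) ∧ R (g • y) y := fun g => by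
    have hg : g ∈ Subgroup.closure S := hc ▸ Subgroup.mem_top g
    induction hg using Subgroup.closure_induction with
    | mem s hs => exact ⟨r0 _ y1 _ (Or.inr ⟨s, hs, rfl⟩), r0 _ (Or.inr ⟨s, hs, rfl⟩) _ y1⟩
    | one => rw [one_smul]; exact ⟨r0 _ y1 _ y1, r0 _ y1 _ y1⟩
    | mul a b _ _ ia ib =>
      rw [mul_smul]
      exact ⟨r1 ia.1 (r2 a ib.1), r1 (r2 a ib.2) ia.2⟩
    | inv a _ ia => exact ⟨by simpa using r2 a⁻¹ ia.2, by simpa using r2 a⁻¹ ia.1⟩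
  have b2 : ∀ p ∈ B', ∃ a : G, ∃ p' ∈ B, p = a • p' := by
    rintro p (hp | ⟨s, -, rfl⟩)
    · exact ⟨1, p, hp, (one_smul _ _).symm⟩
    · exact ⟨s, y, hy, rfl⟩
  refine ⟨K, {p | R y p ∧ R p y}, Cpt.biUnion (b1.prod b1) fun e _ => h.cpt_sp e.1 e.2, ?_,
    fun p hp => ⟨r0 _ y1 _ (Or.inl hp), r0 _ (Or.inl hp) _ y1⟩, ?_,
    fun g x hx => ⟨r1 (r3 g).1 (r2 g hx.1), r1 (r2 g hx.2) (r3 g).2⟩,
    fun p hp q hq => r1 hp.2 hq.1⟩
  · intro w hw
    obtain ⟨e, he, k⟩ := mem_iUnion₂.1 hw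
    obtain ⟨a, p, hp, e1⟩ := b2 _ he.1
    obtain ⟨b, q, hq, e2⟩ := b2 _ he.2
    exact ⟨a, b, p, hp, q, hq, e1 ▸ e2 ▸ k⟩
  · intro x hx
    obtain ⟨⟨p, q⟩, he, k⟩ := mem_iUnion₂.1 hx
    have k' : QSp up p q x := k
    have s : ∀ w, w ≠ x → (up w p ↔ up w x) ∨ (up w q ↔ up w x) := fun w ne => by
      by_cases a : up x w
      · exact Or.inl (h.sep' a k'.2)
      · exact Or.inr (h.sep a ne k'.1)
    constructor
    · intro w hw
      by_cases e : w = x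
      · exact ⟨1, by rw [one_smul, e]; exact hx⟩
      have a : up w x := hw.1.resolve_right fun a => e a.symm
      rcases s w e with b | b
      · exact r0 _ y1 _ he.1 w ⟨Or.inl (b.2 a), hw.2⟩
      · exact r0 _ y1 _ he.2 w ⟨Or.inl (b.2 a), hw.2⟩
    · intro w hw
      by_cases e : w = x
      · exact ⟨1, by rw [one_smul, e]; exact hx⟩
      rcases s w e with b | b
      · exact r0 _ he.1 _ y1 w ⟨hw.1, fun a => hw.2 (b.1 a)⟩
      · exact r0 _ he.2 _ y1 w ⟨hw.1, fun a => hw.2 (b.1 a)⟩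

/-- a minimal set without isolated points gives a character -/
theorem qm_perf {Λ O : Set X} (hi : ∀ (g : G) x, x ∈ Λ → g • x ∈ Λ)
    (hF : ∀ p ∈ O, ∀ q ∈ O, ∀ μ, QSp up p q μ → μ ∉ Λ → Nb C μ Λᶜ)
    (fin : ∀ x ∈ Λ, ∀ g : G, g • x = x → ∃ n > 0, ∀ y ∈ Λ, g ^ n • y = y)
    (hO : ∀ (g : G) x, x ∈ O → g • x ∈ O) (hΛ : Λ ⊆ O)
    (den : ∀ μ ∈ Λ, ∀ d ∈ C, ∀ a t b : ℝ, a < t → t < b →
      d t ∈ Λ → ∃ γ : G, ∃ t' ∈ Ioo a b, γ • μ = d t')
    (NH : ∀ χ : G → ℝ, (∀ a b, χ (a * b) = χ a + χ b) →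
      (∀ g, (∃ z ∈ O, ∀ w ∈ Λ, up w z ↔ up w (g • z)) → χ g = 0) → ∀ g, χ g = 0)
    {x : X} (hx : x ∈ Λ)
    (hA : ∀ c ∈ C, ∀ a t b : ℝ, a < t → t < b → c t ∈ Λ → ∃ t' ∈ Ioo a b, t' ≠ t ∧ c t' ∈ Λ) :
    False := by
  classical
  obtain ⟨c, hc, r, rfl⟩ := h.cover x
  have hx' := hΛ hx
  have two : ∀ a t b : ℝ, a < t → t < b → c t ∈ Λ →
      ∃ u v, a < u ∧ u < v ∧ v < b ∧ c u ∈ Λ ∧ c v ∈ Λ := fun a t b a1 a2 a3 => by
    obtain ⟨t', b1, b2, b3⟩ := hA c hc a t b a1 a2 a3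
    rcases b2.lt_or_gt with e | e
    · exact ⟨t', t, b1.1, e, a2, b3, a3⟩
    · exact ⟨t, t', a1, e, b1.2, a3, b3⟩
  have three : ∀ a t b : ℝ, a < t → t < b → c t ∈ Λ →
      ∃ u w v, a < u ∧ u < w ∧ w < v ∧ v < b ∧ c u ∈ Λ ∧ c w ∈ Λ ∧ c v ∈ Λ :=
    fun a t b a1 a2 a3 => by
      obtain ⟨u, v, b1, b2, b3, b4, b5⟩ := two a t b a1 a2 a3
      obtain ⟨w, z, c1, c2, c3, c4, c5⟩ := two u v b b2 b3 b5
      exact ⟨u, w, z, b1, c1, c2, c3, b4, c4, c5⟩
  have many : ∀ m : ℕ, ∀ a t b : ℝ, a < t → t < b → c t ∈ Λ → ∃ T : Finset G, T.card = m ∧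
      ∃ N ∈ 𝓝 r, (∀ g ∈ T, ∀ s ∈ N, ∃ z ∈ Ioo a b, g • c s = c z) ∧
        ∀ g ∈ T, ∀ g' ∈ T, g ≠ g' → ∀ s ∈ N, ∀ s' ∈ N, g • c s ≠ g' • c s' := by
    intro m
    induction m with
    | zero => exact fun a t b _ _ _ => ⟨∅, rfl, univ, univ_mem, by simp, by simp⟩
    | succ m ih =>
      intro a t b a1 a2 a3
      obtain ⟨u, v, b1, b2, b3, b4, b5⟩ := two a t b a1 a2 a3
      obtain ⟨T, c1, N, c2, c3, c4⟩ := ih a u ((u + v) / 2) b1 (by linarith) b4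
      obtain ⟨γ, t', d1, d2⟩ := den _ hx c hc ((u + v) / 2) v b (by linarith) b3 b5
      have d3 := h.near (h.smul γ c hc) hc d2 (Ioo_mem_nhds d1.1 d1.2)
      have d4 : ∀ g ∈ T, ∀ s ∈ N, ∀ s', (∃ z ∈ Ioo ((u + v) / 2) b, γ • c s' = c z) →
          g • c s ≠ γ • c s' := by
        rintro g hg s hs s' ⟨z, e1, e2⟩ e
        obtain ⟨z', e3, e4⟩ := c3 g hg s hs
        have := h.inj hc (e4.symm.trans (e.trans e2))
        linarith [e1.1, e3.2]
      have d5 : γ ∉ T := fun k => d4 γ k r (mem_of_mem_nhds c2) r ⟨t', d1, d2⟩ rfl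
      refine ⟨insert γ T, by rw [Finset.card_insert_of_notMem d5, c1], _, inter_mem c2 d3, ?_, ?_⟩
      · intro g hg s hs
        rcases Finset.mem_insert.1 hg with rfl | hg
        · obtain ⟨z, e1, e2⟩ := hs.2
          exact ⟨z, ⟨by linarith [e1.1], e1.2⟩, e2⟩
        · obtain ⟨z, e1, e2⟩ := c3 g hg s hs.1
          exact ⟨z, ⟨e1.1, by linarith [e1.2]⟩, e2⟩
      · intro g hg g' hg' ne s hs s' hs'
        rcases Finset.mem_insert.1 hg with e | e <;> rcases Finset.mem_insert.1 hg' with e' | e'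
        · exact absurd (e.trans e'.symm) ne
        · exact e ▸ (d4 g' e' s' hs'.1 s hs.2).symm
        · exact e' ▸ d4 g e s hs.1 s' hs'.2
        · exact c4 g e g' e' ne s hs.1 s' hs'.1
  obtain ⟨a, b, e, -, a1, a2, -, a3, a4, a5⟩ := three (r - 1) r (r + 1) (by linarith) (by linarith) hx
  obtain ⟨g1, a', b1, b2⟩ := den _ hx c hc (a - 1) a b (by linarith) a1 a3
  obtain ⟨g2, e', b3, b4⟩ := den _ hx c hc b e (e + 1) a2 (by linarith) a5
  have tile : ∀ m : ℕ, ∃ u v, u ≤ v ∧ c u ∈ Λ ∧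
      (∀ p ∈ O, ∀ q ∈ O, BddAbove {n | Pk (Tl G Λ c u v) (Sx up Λ p q) n}) ∧
      Pk (Tl G Λ c u v) (Sx up Λ (c a') (c e')) m := by
    intro m
    obtain ⟨T, c1, N, c2, c3, c4⟩ := many m a' b e' b1.2 b3.1 a4
    obtain ⟨l, l', ⟨c5, c6⟩, c7⟩ := mem_nhds_iff_exists_Ioo_subset.1 c2
    obtain ⟨u, w, v, d1, d2, d3, d4, d5, d6, d7⟩ := three l r l' c5 c6 hx
    have huv : u ≤ v := (d2.trans d3).le
    have d8 : ∀ t ∈ Icc u v, t ∈ N := fun t ht => c7 ⟨d1.trans_le ht.1, ht.2.trans_lt d4⟩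
    refine ⟨u, v, huv, d5, fun p hp q hq => h.tl_bdd hi huv d5 fun μ hμ => ?_, T, c1, ?_, ?_⟩
    · by_cases k : μ ∈ Λ
      · obtain ⟨γ, t', e1, e2⟩ := den μ k c hc u w v d2 d3 d6
        have key : ∀ g g' : G, Tl G Λ c u v g ⊆ Sx up Λ p q → Tl G Λ c u v g' ⊆ Sx up Λ p q →
            Disjoint (Tl G Λ c u v g) (Tl G Λ c u v g') → ∀ s ∈ Ioo u v, ∀ s' ∈ Ioo u v,
            g • c u = γ⁻¹ • c s → g' • c u = γ⁻¹ • c s' → ¬ s ≤ s' := by
          intro g g' f1 f2 f3 s hs s' hs' f4 f5 f6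
          have m1 : g • c v ∈ Tl G Λ c u v g := ⟨hi _ _ d7, v, ⟨huv, le_rfl⟩, rfl⟩
          have m2 : g' • c u ∈ Tl G Λ c u v g' := ⟨hi _ _ d5, u, ⟨le_rfl, huv⟩, rfl⟩
          have hγ := h.smul γ⁻¹ c hc
          have l1 : Le up (g • c u) (g' • c u) := by
            rw [f4, f5]
            exact h.le_chart hγ f6
          rcases h.qm_tot (f2 m2).2.1 (f2 m2).2.2 (f1 m1).2.1 (f1 m1).2.2 with f7 | f7
          · obtain ⟨y, y1, y2⟩ := h.qm_btw (h.smul g c hc) l1 f7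
            exact Set.disjoint_left.1 f3 ⟨m2.1, y, y1, y2⟩ m2
          · have l2 : Le up (γ⁻¹ • c s) (g • c v) := f4 ▸ h.le_chart (h.smul g c hc) huv
            obtain ⟨y, y1, y2⟩ := h.qm_btw hγ l2 (f5 ▸ Or.inr f7)
            refine h.qm_nn hi fin hc (g := γ * g) (fun t ht => hF _ (hΛ d5) _ (hΛ d7) _
              ⟨ht.2.eq_or_lt.symm.imp (h.upc hc _ _).2 fun e => by rw [e], fun a =>
                ht.1.not_gt ((h.upc hc _ _).1 a)⟩) huv hs.1 (y1.2.trans_lt hs'.2) ?_ ?_ d5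
            · rw [mul_smul, f4, smul_inv_smul]
            · rw [mul_smul, y2, smul_inv_smul]
        refine ⟨{z | ∃ s ∈ Ioo u v, z = γ⁻¹ • c s}, ⟨_, h.smul γ⁻¹ c hc, t',
          by rw [← e2, inv_smul_smul], ?_⟩, ?_⟩
        · filter_upwards [Ioo_mem_nhds e1.1 e1.2] with s hs
          exact ⟨s, hs, rfl⟩
        · rintro g g' f1 f2 f3 ⟨s, hs, f4⟩ ⟨s', hs', f5⟩
          rcases le_total s s' with f6 | f6
          · exact key g g' f1 f2 f3 s hs s' hs' f4 f5 f6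
          · exact key g' g f2 f1 f3.symm s' hs' s hs f5 f4 f6
      · exact ⟨Λᶜ, hF p hp q hq μ hμ k, fun g g' _ _ _ f => absurd (hi g _ d5) f⟩
    · rintro g hg _ ⟨f1, t, f2, rfl⟩
      obtain ⟨z, z1, z2⟩ := c3 g hg t (d8 t f2)
      refine ⟨f1, ?_, ?_⟩ <;> rw [z2, h.upc hc]
      · exact z1.2
      · exact z1.1.not_gt
    · intro g hg g' hg' ne
      refine Set.disjoint_left.2 ?_
      rintro _ ⟨-, t, f2, rfl⟩ ⟨-, t', f3, f4⟩
      exact c4 g hg g' hg' ne t (d8 t f2) t' (d8 t' f3) f4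
  choose u v t1 t2 t3 t4 using tile
  have o1 : c a' ∈ O := b2 ▸ hO g1 _ hx'
  have o2 : c e' ∈ O := b4 ▸ hO g2 _ hx'
  have q := fun m => h.qF_all hi (t1 m) (t2 m) (e := 1) hO (t3 m) (h.tl_str hc) o1
  obtain ⟨M, hM⟩ := qm_bdd _ NH (fun m g => qF up Λ (Tl G Λ c (u m) (v m)) (c a') (g • c a')) _
    (fun m => (q m).1) (fun m => (q m).2) (g2 * g1⁻¹)
  obtain ⟨m, hm⟩ := exists_nat_gt M
  have k := hM m
  have e1 : (g2 * g1⁻¹) • c a' = c e' := by rw [← b2, mul_smul, inv_smul_smul, b4]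
  simp only [e1] at k
  unfold qF at k
  rw [pk_empty (τ := Tl G Λ c (u m) (v m))
    (fun g => ⟨_, hi g _ (t2 m), u m, ⟨le_rfl, t1 m⟩, rfl⟩) fun w (a : w ∈ Sx up Λ (c e') (c a')) =>
      a.2.2 (h.mono hc (b1.2.trans b3.1).le a.2.1)] at k
  have k2 : m ≤ pkN (Tl G Λ c (u m) (v m)) (Sx up Λ (c a') (c e')) :=
    le_csSup (t3 m _ o1 _ o2) (t4 m)
  have k3 : (m : ℝ) ≤ pkN (Tl G Λ c (u m) (v m)) (Sx up Λ (c a') (c e')) := by exact_mod_cast k2
  have k4 := (abs_le.1 k).2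
  simp only [Nat.cast_zero, sub_zero] at k4
  linarith

/-- The discrete orbit. -/
theorem qm {F : Set X} (hi : ∀ (g : G) x, x ∈ F → g • x ∈ F)
    (fin : ∀ x ∈ F, ∀ g : G, g • x = x → ∃ n > 0, ∀ y ∈ F, g ^ n • y = y)
    {S : Set G} (hS : S.Finite) (hc : Subgroup.closure S = ⊤) {B : Set X} (hB : B.Finite)
    (hF : ∀ a b : G, ∀ p ∈ B, ∀ q ∈ B, ∀ μ, QSp up (a • p) (b • q) μ → μ ∉ F → Nb C μ Fᶜ)
    (NH : ∀ χ : G → ℝ, (∀ a b, χ (a * b) = χ a + χ b) →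
      (∀ g, (∃ z ∈ B, ∀ w ∈ F, up w z ↔ up w (g • z)) → χ g = 0) → ∀ g, χ g = 0)
    (hne : ∃ w ∈ F, ∃ a b : G, ∃ p ∈ B, ∃ q ∈ B, QSp up (a • p) (b • q) w) :
    ∃ x ∈ F, (∃ a b : G, ∃ p ∈ B, ∃ q ∈ B, QSp up (a • p) (b • q) x) ∧
      (∀ a b : G, ∀ p ∈ insert x B, ∀ q ∈ insert x B,
        {w | (∃ g : G, w = g • x) ∧ QSp up (a • p) (b • q) w}.Finite) ∧
      ∀ g : G, ¬ Relation.TransGen (Asc C) x (g • x) := by
  obtain ⟨w0, w1, a0, b0, p0, w2, q0, w3, w4⟩ := hne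
  obtain ⟨K, O, k1, k2, k3, k4, k5, k6⟩ := h.qm_cov hS hc hB w2
  obtain ⟨γ0, w5⟩ := k6 _ (k5 a0 _ (k3 w2)) _ (k5 b0 _ (k3 w3)) _ w4
  have z0 : ∀ w ∈ K, ∃ g : G, g • w ∈ K := fun w a => ⟨1, by rwa [one_smul]⟩
  obtain ⟨Λ, l0, l2, l3, ⟨x, hx, hx'⟩, den'⟩ := h.qm_min (F := F ∩ {w | ∃ g : G, g • w ∈ K})
    (Z := {w | ∃ g : G, g • w ∈ K})
    (fun g x ⟨a, γ, b⟩ => ⟨hi g x a, γ * g⁻¹, by rwa [mul_smul, inv_smul_smul]⟩)
    (fun μ ⟨γ, a⟩ b => by
      obtain ⟨a1, a2, p, a3, q, a4, a5⟩ := k2 _ a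
      have a6 := h.sp_smul γ⁻¹ a5
      rw [inv_smul_smul, ← mul_smul, ← mul_smul] at a6
      exact (hF _ _ p a3 q a4 μ a6 fun e => b ⟨e, γ, a⟩).mono fun w c d => c d.1)
    k1 z0 ⟨_, ⟨hi γ0 _ w1, z0 _ w5⟩, w5⟩
  have l1 : Λ ⊆ F := fun w a => (l0 a).1
  have den := fun μ (a : μ ∈ Λ) => den' μ a (l0 a).2
  have l4 : Λ ⊆ O := fun w a => by
    obtain ⟨γ, b⟩ := (l0 a).2
    simpa using k5 γ⁻¹ _ (k4 b)
  have NH' : ∀ χ : G → ℝ, (∀ a b, χ (a * b) = χ a + χ b) →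
      (∀ g, (∃ z ∈ O, ∀ w ∈ Λ, up w z ↔ up w (g • z)) → χ g = 0) → ∀ g, χ g = 0 :=
    fun χ a b => NH χ a fun g ⟨z, c1, c2⟩ => b g ⟨z, k3 c1, fun w hw => c2 w (l1 hw)⟩
  have hA : ¬ ∀ c ∈ C, ∀ a t b : ℝ, a < t → t < b → c t ∈ Λ →
      ∃ t' ∈ Ioo a b, t' ≠ t ∧ c t' ∈ Λ :=
    h.qm_perf l2 (fun p a q b μ c => l3 μ (k6 p a q b μ c))
      (fun x a g b => (fin x (l1 a) g b).imp fun n c =>
      ⟨c.1, fun y d => c.2 y (l1 d)⟩) k5 l4 den NH' hx
  have iso : ∀ p ∈ O, ∀ q ∈ O, ∀ μ, QSp up p q μ → Nb C μ {w | w ∈ Λ → w = μ} := by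
    intro p hp q hq μ hμ
    by_cases k : μ ∈ Λ
    · simp only [not_forall, not_exists, not_and] at hA
      obtain ⟨c, hc, a, t, b, a1, a2, a3, a4⟩ := hA
      have a5 : ∀ s ∈ Ioo a b, c s ∈ Λ → s = t := fun s hs k => by_contra fun e => a4 s hs e k
      obtain ⟨γ, t', e1, e2⟩ := den μ k c hc a t b a1 a2 a3
      obtain rfl := a5 t' e1 (e2 ▸ l2 γ μ k)
      refine ⟨_, h.smul γ⁻¹ c hc, t', by rw [← e2, inv_smul_smul], ?_⟩
      filter_upwards [Ioo_mem_nhds a1 a2] with s hs k'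
      rw [a5 s hs (by simpa using l2 γ _ k'), ← e2, inv_smul_smul]
    · exact (l3 μ (k6 p hp q hq μ hμ) k).mono fun s hs a => absurd a hs
  refine ⟨x, l1 hx, k2 x hx', fun a b p hp q hq => ?_, fun g hg => ?_⟩
  · have o : ∀ p ∈ insert x B, p ∈ O := forall_mem_insert.2 ⟨k4 hx', k3⟩
    obtain ⟨T, t1, -, t3⟩ := h.cpt_sp (a • p) (b • q) _
      (iso _ (k5 a _ (o p hp)) _ (k5 b _ (o q hq)))
    refine t1.subset ?_
    rintro _ ⟨⟨g, rfl⟩, k⟩
    obtain ⟨μ, m1, m2⟩ := t3 _ k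
    exact m2 (l2 g x hx) ▸ m1
  · obtain ⟨c, hc, u, rfl⟩ := h.cover x
    have hb : ∀ p ∈ O, ∀ q ∈ O, BddAbove {n | Pk (Tl G Λ c u u) (Sx up Λ p q) n} :=
      fun p hp q hq => h.tl_bdd l2 le_rfl hx fun μ hμ => ⟨_, iso p hp q hq μ hμ,
        fun g g' _ _ f3 f4 f5 => Set.disjoint_left.1 f3 ⟨l2 g _ hx, u, ⟨le_rfl, le_rfl⟩, rfl⟩
          ⟨l2 g _ hx, u, ⟨le_rfl, le_rfl⟩, (f4 (l2 g _ hx)).trans (f5 (l2 g' _ hx)).symm⟩⟩
    have q := h.qF_all l2 le_rfl hx (e := 0) k5 hb (fun p q r T a _ => by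
      refine (Finset.card_eq_zero.2 (Finset.eq_empty_of_forall_notMem fun g hg => ?_)).le
      obtain ⟨-, ⟨_, ⟨-, s, s1, rfl⟩, s2⟩, _, ⟨-, t, t1, rfl⟩, t2⟩ := a g hg
      rw [le_antisymm s1.2 s1.1] at s2
      rw [le_antisymm t1.2 t1.1] at t2
      exact s2 t2) (k4 hx')
    simp only [Nat.cast_zero, mul_zero, abs_nonpos_iff] at q
    have z := NH' (fun g => qF up Λ (Tl G Λ c u u) (c u) (g • c u))
      (fun a b => by linarith [q.1 a b]) q.2 g
    unfold qF at z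
    rw [pk_empty (τ := Tl G Λ c u u) (fun g => ⟨_, l2 g _ hx, u, ⟨le_rfl, le_rfl⟩, rfl⟩)
      fun w (a : w ∈ Sx up Λ (g • c u) (c u)) => a.2.2 (h.qm_mon hg w a.2.1)] at z
    have k : 1 ≤ pkN (Tl G Λ c u u) (Sx up Λ (c u) (g • c u)) := by
      refine le_csSup (hb _ (k4 hx') _ (k5 g _ (k4 hx'))) ⟨{1}, rfl, ?_, by simp⟩
      intro g' hg'
      rw [Finset.mem_singleton.1 hg']
      rintro _ ⟨-, t, t1, rfl⟩
      rw [le_antisymm t1.2 t1.1, one_smul]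
      exact ⟨hx, (h.asc hg).1, h.irr _⟩
    simp only [Nat.cast_zero, sub_zero, Nat.cast_eq_zero] at z
    omega

end Om

end Pool.Agent.Work.MP_3d425c_gt.To
end

-- merged part: Pool.Agent.Work.MP_3d425c_gt.To.SfQf
section
/-! The discrete orbit inside the fixed point set of a normal cyclic subgroup. -/

namespace Pool.Agent.Work.MP_3d425c_gt.To
open Set Filter Topology Pool.Agent.Work.MP_3d425c_gt.Cy

variable {G X : Type*} [Group G] [MulAction G X] {C : Set (ℝ → X)} {up : X → X → Prop}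

namespace Om
variable (h : Om G C up)
include h

theorem qf_not_up {c} (hc : c ∈ C) {g : G} {v : ℝ}
    (a : ∀ t < v, ∃ t', t < t' ∧ t' < v ∧ g • c t' = c t') :
    ¬ up (c v) (g • c v) := by
  intro k
  have hg := h.smul g c hc
  obtain ⟨t0, -, b1, b2⟩ := a (v - 1) (by linarith)
  by_cases e : ∃ r, c v = g • c r
  · obtain ⟨r, e⟩ := e
    have b3 : r < v := (h.upc hg r v).1 (e ▸ k)
    obtain ⟨t, c1, c2, c3⟩ := a r b3
    have c4 := (h.upc hg r t).2 c1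
    rw [← e, c3] at c4
    exact c2.not_gt ((h.upc hc _ _).1 c4)
  · have b3 := h.upk hg (fun r e' => e ⟨r, e'⟩) v t0 k
    rw [b2] at b3
    exact b1.not_gt ((h.upc hc _ _).1 b3)

theorem qf_left {c} (hc : c ∈ C) {f : G} {v : ℝ} {z : X} (hz : up (c v) z ∨ z = c v)
    (cz : Ax.Cmp C z (f • z)) (ne : f • c v ≠ c v) : ∀ᶠ t in 𝓝[<] v, f • c t ≠ c t := by
  by_contra k
  have a : ∀ t < v, ∃ t', t < t' ∧ t' < v ∧ f • c t' = c t' := fun t ht => by
    obtain ⟨t', b1, b2⟩ := ((not_eventually.1 k).and_eventually (Ioo_mem_nhdsLT ht)).exists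
    exact ⟨t', b2.1, b2.2, not_not.1 b1⟩
  have n1 := h.qf_not_up hc a
  have n2 := h.qf_not_up hc (g := f⁻¹) fun t ht => (a t ht).imp fun t' b =>
    ⟨b.1, b.2.1, inv_smul_eq_iff.2 b.2.2.symm⟩
  have n3 : ¬ up (f • c v) (c v) := fun e => n2 (by simpa using h.ups f⁻¹ _ _ e)
  have u := Ax.uc_smul h f (n := c v) hz
  rcases cz with e | e
  · exact h.disj n1 n3 ne.symm (Ax.uc_le h hz e) u
  · exact h.disj n1 n3 ne.symm hz (Ax.uc_le h u e)

/-- between points comparable with their translates the fixed set is closed -/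
theorem qf_closed {f : G} {p q μ : X} (cp : Ax.Cmp C p (f • p)) (cq : Ax.Cmp C q (f • q))
    (k : QSp up p q μ) (ne : f • μ ≠ μ) : Nb C μ {w | f • w = w}ᶜ := by
  obtain ⟨c, hc, v, rfl⟩ := h.cover μ
  have a1 := h.qf_left hc k.1 cq ne
  have a2 := h.dual.qf_left (oc_neg hc) (f := f) (v := -v) (z := p)
    (by simpa only [neg_neg] using ((h.sp_dual p q _).2 k).1) (Ax.cmp_dual (C := C) ▸ cp)
    (by simpa only [neg_neg] using ne)
  have a3 : ∀ᶠ t in 𝓝[>] v, f • c t ≠ c t := by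
    filter_upwards [(tendsto_neg_nhdsGT (a := v)).eventually a2] with t ht
    simpa only [neg_neg] using ht
  have a4 : ∀ᶠ t in 𝓝[≠] v, f • c t ≠ c t := by
    rw [← nhdsLT_sup_nhdsGT, eventually_sup]
    exact ⟨a1, a3⟩
  refine ⟨c, hc, v, rfl, ?_⟩
  filter_upwards [eventually_nhdsWithin_iff.1 a4] with t ht
  by_cases e : t = v
  · exact e ▸ ne
  · exact ht e

omit h in
theorem qf_inv {f g : G} (nm : g⁻¹ * f * g⁻¹⁻¹ = f ∨ g⁻¹ * f * g⁻¹⁻¹ = f⁻¹) {x : X}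
    (k : f • x = x) : f • g • x = g • x := by
  have e : f • g • x = g • (g⁻¹ * f * g⁻¹⁻¹) • x := by simp [mul_smul]
  rcases nm with a | a <;> rw [e, a]
  · rw [k]
  · rw [inv_smul_eq_iff.2 k.symm]

theorem qf_cmp {f g : G} (nm : g⁻¹ * f * g⁻¹⁻¹ = f ∨ g⁻¹ * f * g⁻¹⁻¹ = f⁻¹) {x : X}
    (k : Ax.Cmp C x (f • x)) : Ax.Cmp C (g • x) (f • g • x) := by
  have e : f • g • x = g • (g⁻¹ * f * g⁻¹⁻¹) • x := by simp [mul_smul]
  rcases nm with a | a <;> rw [e, a]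
  · exact Ax.cmp_smul h g k
  · exact Ax.cmp_smul h g (by simpa using (Ax.cmp_smul h f⁻¹ k).symm)

/-- The discrete orbit of fixed points of the fibre. -/
theorem qm_fix {f : G} (nm : ∀ g, g * f * g⁻¹ = f ∨ g * f * g⁻¹ = f⁻¹)
    (dep : ∀ (x : X) (g : G), f • x = x → g • x = x → ∃ n > 0, g ^ n ∈ Subgroup.zpowers f)
    {S : Set G} (hS : S.Finite) (hc : Subgroup.closure S = ⊤) {B : Set X} (hB : B.Finite)
    (cB : ∀ z ∈ B, Ax.Cmp C z (f • z))
    (NH : ∀ χ : G → ℝ, (∀ a b, χ (a * b) = χ a + χ b) →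
      (∀ g, (∃ z ∈ B, ∀ w : X, f • w = w → (up w z ↔ up w (g • z))) → χ g = 0) → ∀ g, χ g = 0)
    (hne : ∃ w : X, f • w = w ∧ ∃ a b : G, ∃ p ∈ B, ∃ q ∈ B, QSp up (a • p) (b • q) w) :
    ∃ x : X, f • x = x ∧ (∃ a b : G, ∃ p ∈ B, ∃ q ∈ B, QSp up (a • p) (b • q) x) ∧
      (∀ a b : G, ∀ p ∈ insert x B, ∀ q ∈ insert x B,
        {w | (∃ g : G, w = g • x) ∧ QSp up (a • p) (b • q) w}.Finite) ∧
      ∀ g : G, ¬ Relation.TransGen (Asc C) x (g • x) :=
  h.qm (F := {w | f • w = w}) (fun g _ k => qf_inv (nm g⁻¹) k)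
    (fun x a g b => (dep x g a b).imp fun _ k => ⟨k.1, fun y (e : f • y = y) =>
      (Subgroup.zpowers_le_of_mem (H := MulAction.stabilizer G y) e) k.2⟩) hS hc hB
    (fun a b p hp q hq _ k ne => h.qf_closed (h.qf_cmp (nm a⁻¹) (cB p hp))
      (h.qf_cmp (nm b⁻¹) (cB q hq)) k ne) NH hne

omit h in
theorem qf_sub (h : Om G C up) (V : Subgroup G) : Om V C up :=
  ⟨h.cover, fun g => h.smul g.1, h.conn, h.opn', h.upc', h.upk', fun g => h.ups g.1, h.sat⟩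

/-- The same for a finitely generated subgroup. -/
theorem qm_sub {V : Subgroup G} {f : G} (hf : f ∈ V)
    (nm : ∀ g ∈ V, g * f * g⁻¹ = f ∨ g * f * g⁻¹ = f⁻¹)
    (dep : ∀ (x : X), ∀ g ∈ V, f • x = x → g • x = x → ∃ n > 0, g ^ n ∈ Subgroup.zpowers f)
    {S : Set G} (hS : S.Finite) (hc : V = Subgroup.closure S) {B : Set X} (hB : B.Finite)
    (cB : ∀ z ∈ B, Ax.Cmp C z (f • z))
    (NH : ∀ χ : G → ℝ, (∀ a ∈ V, ∀ b ∈ V, χ (a * b) = χ a + χ b) →
      (∀ g ∈ V, (∃ z ∈ B, ∀ w : X, f • w = w → (up w z ↔ up w (g • z))) → χ g = 0) →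
      ∀ g ∈ V, χ g = 0)
    (hne : ∃ w : X, f • w = w ∧ ∃ a ∈ V, ∃ b ∈ V, ∃ p ∈ B, ∃ q ∈ B, QSp up (a • p) (b • q) w) :
    ∃ x : X, f • x = x ∧ (∃ a ∈ V, ∃ b ∈ V, ∃ p ∈ B, ∃ q ∈ B, QSp up (a • p) (b • q) x) ∧
      (∀ a ∈ V, ∀ b ∈ V, ∀ p ∈ insert x B, ∀ q ∈ insert x B,
        {w | (∃ g ∈ V, g • x = w) ∧ QSp up (a • p) (b • q) w}.Finite) ∧
      ∀ g ∈ V, ¬ Asc C x (g • x) := by
  classical
  subst hc
  obtain ⟨w, w1, a, ha, b, hb, w2⟩ := hne
  obtain ⟨x, x1, ⟨a', b', x2⟩, x3, x4⟩ := (qf_sub h (Subgroup.closure S)).qm_fix (f := ⟨f, hf⟩)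
    (fun g => (nm g.1 g.2).imp Subtype.ext Subtype.ext)
    (fun x g k1 k2 => (dep x g.1 g.2 k1 k2).imp fun n ⟨n0, m, e⟩ => ⟨n0, m, Subtype.ext e⟩)
    (hS.preimage (Subgroup.closure S).subtype_injective.injOn)
    (Subgroup.closure_preimage_eq_top S) hB cB
    (fun χ k1 k2 g => by
      have := NH (fun g => if k : g ∈ Subgroup.closure S then χ ⟨g, k⟩ else 0)
        (fun a ha b hb => by
          simp only [dif_pos ha, dif_pos hb, dif_pos (mul_mem ha hb)]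
          exact k1 ⟨a, ha⟩ ⟨b, hb⟩)
        (fun g hg k => by
          simp only [dif_pos hg]
          exact k2 ⟨g, hg⟩ k) g.1 g.2
      simpa only [dif_pos g.2] using this)
    ⟨w, w1, ⟨a, ha⟩, ⟨b, hb⟩, w2⟩
  refine ⟨x, x1, ⟨a'.1, a'.2, b'.1, b'.2, x2⟩, fun a ha b hb p hp q hq => ?_,
    fun g hg k => x4 ⟨g, hg⟩ (.single k)⟩
  refine (x3 ⟨a, ha⟩ ⟨b, hb⟩ p hp q hq).subset ?_
  rintro _ ⟨⟨g, hg, rfl⟩, k⟩
  exact ⟨⟨⟨g, hg⟩, rfl⟩, k⟩

end Om

end Pool.Agent.Work.MP_3d425c_gt.To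
end
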