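import Pool.Agent.Work.MP_3d425c_gt.To.AxB

/-! The abstract fold theorem: arms with non separated apexes are identified along a cocycle. -/

namespace Pool.Agent.Work.MP_3d425c_gt.To
open Set Filter Topology Pool.Agent.Work.MP_3d425c_gt.Cy

/-- An invariant equivalence relation whose quotient is again an object. -/
structure Gq (G : Type*) {X : Type*} [Group G] [MulAction G X] (C : Set (ℝ → X))
    (r up : X → X → Prop) : Prop where
  eqv : Equivalence r
  rsm : ∀ (g : G) x y, r x y → r (g • x) (g • y)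
  opn : ∀ c ∈ C, ∀ d ∈ C, IsOpen {u | ∃ v, r (c u) (d v)}
  upl : ∀ x x' y, r x x' → up x y → up x' y
  upr : ∀ x y y', r y y' → up x y → up x y'
  upc : ∀ c ∈ C, ∀ s t, up (c s) (c t) ↔ s < t
  upk : ∀ c ∈ C, ∀ x, (∀ t, ¬ r x (c t)) → ∀ s t, up x (c s) → up x (c t)
  ups : ∀ (g : G) x y, up x y → up (g • x) (g • y)

/-- Data of a fold: prongs `S`, arms, stars `E`, cocycle `θ`. -/
structure PF (G : Type*) {X S : Type*} [Group G] [MulAction G X] (C : Set (ℝ → X))
    (up : X → X → Prop) (arm : S → ℝ → X) (E : S → S → Prop) (θ : S → S → II ≃o II) : Prop where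
  om : Om G C up
  mem : ∀ p, arm p ∈ C
  eqv : Equivalence E
  lg : ∀ p q, E p q → LG C (arm p 0) (arm q 0)
  coc : ∀ p q r, E p q → E q r → ∀ s, s < 1 → θ p r s = θ q r (θ p q s)
  same : ∀ p q, arm p 0 = arm q 0 →
    E p q ∧ ∀ s, s < 1 → arm p (io s) = arm q (io (θ p q s))
  smul : ∀ (g : G) p q, E p q → ∃ p' q', E p' q' ∧ ∀ s, s < 1 →
    arm p' (io s) = g • arm p (io s) ∧ arm q' (io (θ p' q' s)) = g • arm q (io (θ p q s))

variable {G X S : Type*} [Group G] [MulAction G X] {C : Set (ℝ → X)} {up : X → X → Prop}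
  {arm : S → ℝ → X} {E : S → S → Prop} {θ : S → S → II ≃o II}

/-- One step of the fold, from the arm `p` to the arm `q`. -/
def St (arm : S → ℝ → X) (E : S → S → Prop) (θ : S → S → II ≃o II) (p q : S) (x y : X) : Prop :=
  E p q ∧ ∃ s : II, s < 1 ∧ x = arm p (io s) ∧ y = arm q (io (θ p q s))

def FR (arm : S → ℝ → X) (E : S → S → Prop) (θ : S → S → II ≃o II) : X → X → Prop :=
  Relation.ReflTransGen fun x y => ∃ p q, St arm E θ p q x y

theorem iso_lt_one (ρ : II ≃o II) {s : II} (hs : s < 1) : ρ s < 1 := by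
  simpa using zpow_lt_one ρ 1 hs

/-- Reduced chains. -/
structure Red (arm : S → ℝ → X) (E : S → S → Prop) (θ : S → S → II ≃o II) (n : ℕ) (x : ℕ → X)
    (p q : ℕ → S) : Prop where
  st : ∀ j < n, St arm E θ (p j) (q j) (x j) (x (j + 1))
  ne : ∀ j < n, arm (p j) 0 ≠ arm (q j) 0
  ss : ∀ j, j + 1 < n → ¬ E (q j) (p (j + 1))

theorem Red.le {n m : ℕ} {x : ℕ → X} {p q : ℕ → S} (h : Red arm E θ n x p q) (hm : m ≤ n) :
    Red arm E θ m x p q :=
  ⟨fun j hj => h.st j (by omega), fun j hj => h.ne j (by omega), fun j hj => h.ss j (by omega)⟩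

theorem Red.snoc {n : ℕ} {x : ℕ → X} {p q : ℕ → S} (h : Red arm E θ n x p q) {p' q' : S} {z : X}
    (hst : St arm E θ p' q' (x n) z) (hne : arm p' 0 ≠ arm q' 0)
    (hss : ∀ j, j + 1 = n → ¬ E (q j) p') :
    Red arm E θ (n + 1) (fun j => if j = n + 1 then z else x j)
      (fun j => if j = n then p' else p j) (fun j => if j = n then q' else q j) := by
  refine ⟨fun j hj => ?_, fun j hj => ?_, fun j hj => ?_⟩
  · by_cases e : j = n
    · subst e; simpa using hst
    · have h1 : j ≠ n + 1 := by omega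
      simpa [e, h1] using h.st j (by omega)
  · by_cases e : j = n
    · subst e; simpa using hne
    · simpa [e] using h.ne j (by omega)
  · have h1 : j ≠ n := by omega
    by_cases e : j + 1 = n
    · simpa [e, h1] using hss j e
    · simpa [e, h1] using h.ss j (by omega)

/-- The invariant of a reduced chain between positions `i < n`. -/
def Inv (C : Set (ℝ → X)) (up : X → X → Prop) (arm : S → ℝ → X) (x : ℕ → X) (p q : ℕ → S)
    (i n : ℕ) : Prop :=
  ∃ j, i ≤ j ∧ j < n ∧ (up (arm (p j) 0) (x i) ∨ x i = arm (p j) 0) ∧ ¬ up (x i) (arm (p j) 0) ∧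
    ∃ e ∈ C, ∃ s₁ s₂ : ℝ, s₁ ≤ s₂ ∧ e s₁ = arm (q j) 0 ∧ e s₂ = x n

theorem fr_off {x y : X} (h : FR arm E θ x y) (hy : ¬ ∃ p s, s < 1 ∧ y = arm p (io s))
    : x = y := by
  rcases Relation.ReflTransGen.cases_tail h with e | ⟨z, -, p, q, -, s, hs, -, e⟩
  · exact e.symm
  · exact absurd ⟨q, _, iso_lt_one _ hs, e⟩ hy

theorem fr_arm {p q : S} (h : E p q) {s : II} (hs : s < 1) :
    FR arm E θ (arm p (io s)) (arm q (io (θ p q s))) := .single ⟨p, q, h, s, hs, rfl, rfl⟩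

theorem fr_apex {p q : S} (h : E p q) : FR arm E θ (arm p 0) (arm q 0) := by
  have := fr_arm (arm := arm) (θ := θ) h (zero_lt_one' II)
  rwa [show θ p q 0 = 0 from (θ p q).map_bot, io_zero] at this

namespace PF
variable (F : PF G C up arm E θ)
include F

theorem io_inj (p : S) {s t : II} (hs : s < 1) (ht : t < 1) (e : arm p (io s) = arm p (io t)) :
    s = t := by
  have := F.om.inj (F.mem p) e
  rcases lt_trichotomy s t with h | h | h
  · exact absurd this ((io_lt hs ht).2 h).ne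
  · exact h
  · exact absurd this ((io_lt ht hs).2 h).ne'

theorem th_self (p : S) {s : II} (hs : s < 1) : θ p p s = s :=
  (F.io_inj p hs (iso_lt_one _ hs) ((F.same p p rfl).2 s hs)).symm

theorem th_inv {p q : S} (h : E p q) {s : II} (hs : s < 1) : θ q p (θ p q s) = s := by
  rw [← F.coc p q p h (F.eqv.symm h) s hs, F.th_self p hs]

theorem st_symm {p q : S} {x y : X} (h : St arm E θ p q x y) : St arm E θ q p y x := by
  obtain ⟨hE, s, hs, rfl, rfl⟩ := h
  exact ⟨F.eqv.symm hE, θ p q s, iso_lt_one _ hs, rfl, by rw [F.th_inv hE hs]⟩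

theorem st_smul {p q : S} {x y : X} (h : St arm E θ p q x y) (g : G) :
    ∃ p' q', St arm E θ p' q' (g • x) (g • y) := by
  obtain ⟨hE, s, hs, rfl, rfl⟩ := h
  obtain ⟨p', q', h1, h2⟩ := F.smul g p q hE
  exact ⟨p', q', h1, s, hs, (h2 s hs).1.symm, (h2 s hs).2.symm⟩

theorem triv {p q : S} {x y : X} (h : St arm E θ p q x y) (e : arm p 0 = arm q 0) : x = y := by
  obtain ⟨-, s, hs, rfl, rfl⟩ := h
  exact (F.same p q e).2 s hs

theorem mem_up (p : S) (s : II) : up (arm p 0) (arm p (io s)) ∨ arm p (io s) = arm p 0 := by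
  rcases (io_nonneg s).eq_or_lt with h | h
  · right; rw [← h]
  · left; exact (F.om.upc (F.mem p) 0 _).2 h

theorem not_up (p : S) (s : II) : ¬ up (arm p (io s)) (arm p 0) := fun h =>
  absurd ((F.om.upc (F.mem p) _ 0).1 h) (not_lt.2 (io_nonneg s))

theorem lg_disj {a b z : X} (h : LG C a b) (hne : a ≠ b) (ha : up a z ∨ z = a)
    (hb : up b z ∨ z = b) : False :=
  F.om.disj (F.om.lg_not_up h) (F.om.lg_not_up (Om.lg_symm h)) hne ha hb

theorem merge {p q p' q' : S} {x y z : X} (h : St arm E θ p q x y) (h' : St arm E θ p' q' y z)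
    (hs : E q p') : St arm E θ p q' x z := by
  obtain ⟨hE, s, hs1, rfl, rfl⟩ := h
  obtain ⟨hE', s', hs1', hy, rfl⟩ := h'
  have e : arm p' 0 = arm q 0 := by
    by_contra hne
    exact F.lg_disj (F.lg _ _ (F.eqv.symm hs)) hne (hy ▸ F.mem_up p' s') (F.mem_up q _)
  rw [(F.same p' q e).2 s' hs1'] at hy
  have h1 := F.io_inj q (iso_lt_one _ hs1) (iso_lt_one _ hs1') hy
  have h2 : E q q' := F.eqv.trans hs hE'
  refine ⟨F.eqv.trans hE h2, s, hs1, rfl, ?_⟩
  rw [F.coc p q q' hE h2 s hs1, h1, ← F.coc p' q q' (F.eqv.symm hs) h2 s' hs1']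

theorem red_exists {x₀ y : X} (h : FR arm E θ x₀ y) :
    x₀ = y ∨ ∃ n x p q, 0 < n ∧ Red arm E θ n x p q ∧ x 0 = x₀ ∧ x n = y := by
  induction h with
  | refl => exact Or.inl rfl
  | @tail b _ _ hst ih =>
    obtain ⟨p', q', hst⟩ := hst
    by_cases e : arm p' 0 = arm q' 0
    · exact F.triv hst e ▸ ih
    obtain ⟨n, x, p, q, hR, h0, hn⟩ : ∃ n x p q, Red arm E θ n x p q ∧ x 0 = x₀ ∧ x n = b := by
      rcases ih with ih | ⟨n, x, p, q, -, k⟩
      · exact ⟨0, fun _ => x₀, fun _ => p', fun _ => p',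
          ⟨fun j hj => by omega, fun j hj => by omega, fun j hj => by omega⟩, rfl, ih⟩
      · exact ⟨n, x, p, q, k⟩
    by_cases hss : ∀ j, j + 1 = n → ¬ E (q j) p'
    · exact Or.inr ⟨n + 1, _, _, _, n.succ_pos, hR.snoc (hn ▸ hst) e hss, by simpa using h0,
        by simp⟩
    push Not at hss
    obtain ⟨j, rfl, hss⟩ := hss
    have hm := F.merge (hR.st j (by omega)) (hn ▸ hst) hss
    by_cases e' : arm (p j) 0 = arm q' 0
    · rcases Nat.eq_zero_or_pos j with rfl | hj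
      · exact Or.inl (h0.symm.trans (F.triv hm e'))
      · exact Or.inr ⟨j, x, p, q, hj, hR.le (by omega), h0, F.triv hm e'⟩
    · refine Or.inr ⟨j + 1, _, _, _, j.succ_pos, (hR.le (Nat.le_succ j)).snoc hm e' ?_,
        by simpa using h0, by simp⟩
      intro i hi
      subst hi
      exact hR.ss i (by omega)

theorem seg_up {e : ℝ → X} (he : e ∈ C) {s₁ s₂ : ℝ} (hs : s₁ ≤ s₂) :
    (up (e s₁) (e s₂) ∨ e s₂ = e s₁) ∧ ¬ up (e s₂) (e s₁) := by
  refine ⟨?_, fun h => absurd ((F.om.upc he _ _).1 h) (not_lt.2 hs)⟩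
  rcases hs.eq_or_lt with h | h
  · right; rw [h]
  · left; exact (F.om.upc he _ _).2 h

theorem inv_out {x : ℕ → X} {p q : ℕ → S} {i n : ℕ} (hR : Red arm E θ n x p q)
    (h : Inv C up arm x p q i n) : x i ≠ x n ∧ ¬ up (x i) (x n) ∧ ¬ up (x n) (x i) := by
  obtain ⟨j, -, hj, h1, h2, e, he, s₁, s₂, hs, e1, e2⟩ := h
  have hl := F.lg _ _ (hR.st j hj).1
  have hne := hR.ne j hj
  obtain ⟨h3, h4⟩ := F.seg_up he hs
  rw [e1, e2] at h3 h4
  refine ⟨fun e => F.lg_disj hl hne h1 (e ▸ h3), fun hu => ?_, fun hu => ?_⟩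
  · rcases h1 with h1 | h1
    · exact F.lg_disj hl hne (Or.inl (F.om.sub h1 h2 hu)) h3
    · exact F.lg_disj hl hne (Or.inl (h1 ▸ hu)) h3
  · rcases h3 with h3 | h3
    · exact F.lg_disj hl hne h1 (Or.inl (F.om.sub h3 h4 hu))
    · exact F.lg_disj hl hne h1 (Or.inl (h3 ▸ hu))

theorem inv_all {x : ℕ → X} {p q : ℕ → S} :
    ∀ n, Red arm E θ n x p q → ∀ i < n, Inv C up arm x p q i n := by
  intro n
  induction n with
  | zero => intro _ i hi; omega
  | succ n ih =>
    intro hR i hi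
    have ih' := ih (hR.le (Nat.le_succ n))
    obtain ⟨hE, s, hs, hx, hy⟩ := hR.st n (by omega)
    have hl : LG C (arm (p n) 0) (arm (q n) 0) := F.lg _ _ hE
    have new : (up (arm (p n) 0) (x i) ∨ x i = arm (p n) 0) → ¬ up (x i) (arm (p n) 0) →
        Inv C up arm x p q i (n + 1) := fun h1 h2 =>
      ⟨n, by omega, by omega, h1, h2, _, F.mem (q n), 0, _, io_nonneg _, rfl, hy.symm⟩
    rcases (Nat.lt_succ_iff.1 hi).eq_or_lt with e | hin
    · subst e
      exact new (hx ▸ F.mem_up _ s) (hx ▸ F.not_up _ s)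
    obtain ⟨j, hij, hjn, h1, h2, e, he, s₁, s₂, hs12, e1, e2⟩ := ih' i hin
    have hab := F.lg _ _ (hR.st j (by omega)).1
    have hne' := hR.ne j (by omega)
    by_cases hon : ∃ t, s₁ ≤ t ∧ t ≤ s₂ ∧ e t = arm (p n) 0
    · obtain ⟨t, ht1, -, het⟩ := hon
      rcases ht1.eq_or_lt with e' | ht1
      · exfalso
        subst e'
        obtain ⟨k1, k2⟩ := F.same _ _ (het.symm.trans e1)
        by_cases hj : j + 1 = n
        · subst hj
          exact hR.ss j (by omega) (F.eqv.symm k1)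
        · obtain ⟨o1, o2, o3⟩ := F.inv_out (hR.le (Nat.le_succ n)) (ih' (j + 1) (by omega))
          obtain ⟨-, s', -, -, hy'⟩ := hR.st j (by omega)
          rw [k2 s hs] at hx
          rw [hx, hy'] at o1 o2 o3
          rcases lt_trichotomy (io (θ (p j) (q j) s')) (io (θ (p n) (q j) s)) with h | h | h
          · exact o2 ((F.om.upc (F.mem (q j)) _ _).2 h)
          · exact o1 (by rw [h])
          · exact o3 ((F.om.upc (F.mem (q j)) _ _).2 h)
      · obtain ⟨e', he', k1, k2⟩ := F.om.lg_splice he (F.mem (q n)) (het ▸ hl)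
        refine ⟨j, hij, by omega, h1, h2, e', he', s₁ - t,
          io (θ (p n) (q n) s), by linarith [io_nonneg (θ (p n) (q n) s)], ?_, ?_⟩
        · rw [k1 _ (by linarith), ← e1]; congr 1; ring
        · rw [k2 _ (io_nonneg _), hy]; simp
    · have u1 : up (arm (p n) 0) (x n) := by
        rcases F.mem_up (p n) s with h | h
        · exact hx ▸ h
        · exact absurd ⟨s₂, hs12, le_rfl, by rw [e2, hx, h]⟩ hon
      have u2 : up (arm (p n) 0) (arm (q j) 0) := by
        rw [← e1]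
        by_cases hr : ∃ v, arm (p n) 0 = e v
        · obtain ⟨v, hv⟩ := hr
          rw [hv, ← e2] at u1
          have hv2 := (F.om.upc he _ _).1 u1
          rw [hv]
          refine (F.om.upc he _ _).2 (not_le.1 fun hv1 => hon ⟨v, hv1, hv2.le, hv.symm⟩)
        · push Not at hr
          exact F.om.upk he hr s₂ s₁ (e2 ▸ u1)
      have u3 : up (arm (p n) 0) (arm (p j) 0) := F.om.lg_up (Om.lg_symm hab) u2
      have u4 : ¬ up (arm (p j) 0) (arm (p n) 0) := by
        intro hu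
        have h5 : up (arm (p j) 0) (x n) := by
          rw [hx]
          exact F.om.mono (F.mem (p n)) (io_nonneg s) hu
        refine F.lg_disj hab hne' (Or.inl h5) ?_
        have := (F.seg_up he hs12).1
        rwa [e1, e2] at this
      rcases h1 with h1 | h1
      · exact new (Or.inl (F.om.sub u3 u4 h1)) fun hu => u4 (F.om.sub h1 h2 hu)
      · exact new (Or.inl (h1 ▸ u3)) (h1 ▸ u4)

/-- Equivalent points are never above one another. -/
theorem not_up_of_fr {x y : X} (h : FR arm E θ x y) : ¬ up x y := by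
  rcases F.red_exists h with rfl | ⟨n, z, p, q, hn, hR, rfl, rfl⟩
  · exact F.om.irr _
  · exact (F.inv_out hR (F.inv_all n hR 0 hn)).2.1

/-- Two distinct equivalent points are separated by two distinct apexes of one star. -/
theorem sep_of_fr {x y : X} (h : FR arm E θ x y) : x = y ∨ ∃ p q, E p q ∧ arm p 0 ≠ arm q 0 ∧
    (up (arm p 0) x ∨ x = arm p 0) ∧ ¬ up x (arm p 0) ∧
    ∃ e ∈ C, ∃ s₁ s₂ : ℝ, s₁ ≤ s₂ ∧ e s₁ = arm q 0 ∧ e s₂ = y := by
  rcases F.red_exists h with rfl | ⟨n, z, p, q, hn, hR, rfl, rfl⟩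
  · exact Or.inl rfl
  · obtain ⟨j, -, hj, k⟩ := F.inv_all n hR 0 hn
    exact Or.inr ⟨p j, q j, (hR.st j hj).1, hR.ne j hj, k⟩

/-- Equivalent points that are not separated from below are apexes of one star. -/
theorem lg_of_fr {x y : X} (h : FR arm E θ x y) (hl : LG C x y) :
    x = y ∨ ∃ p q, E p q ∧ x = arm p 0 ∧ y = arm q 0 := by
  rcases F.sep_of_fr h with e | ⟨p, q, hE, hne, h1, -, e, he, s₁, s₂, hs, e1, e2⟩
  · exact Or.inl e
  have h3 := (F.seg_up he hs).1
  rw [e1, e2] at h3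
  have hl' := F.lg _ _ hE
  refine Or.inr ⟨p, q, hE, ?_, ?_⟩
  · exact h1.resolve_left fun hu => F.lg_disj hl' hne (Or.inl (F.om.lg_up hl hu)) h3
  · exact h3.resolve_left fun hu =>
      F.lg_disj hl' hne h1 (Or.inl (F.om.lg_up (Om.lg_symm hl) hu))

theorem fr_symm {x y : X} (h : FR arm E θ x y) : FR arm E θ y x := by
  induction h with
  | refl => exact .refl
  | tail _ hst ih =>
    obtain ⟨p, q, hst⟩ := hst
    exact Relation.ReflTransGen.head ⟨q, p, F.st_symm hst⟩ ih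

theorem fr_smul (γ : G) {x y : X} (h : FR arm E θ x y) : FR arm E θ (γ • x) (γ • y) := by
  induction h with
  | refl => exact .refl
  | tail _ hst ih =>
    obtain ⟨p, q, hst⟩ := hst
    exact Relation.ReflTransGen.tail ih (F.st_smul hst γ)

theorem cross {c d : ℝ → X} (hc : c ∈ C) (hd : d ∈ C) (hl : LG C (c 0) (d 0)) {s t : ℝ}
    (ht : 0 ≤ t) {w : X} (h1 : up w (c s)) (h2 : ¬ up w (d t)) :
    ∃ u, 0 ≤ u ∧ u < s ∧ w = c u := by
  have h3 : ¬ up w (c 0) := fun h => h2 (F.om.mono hd ht (F.om.lg_up hl h))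
  by_cases hr : ∃ u, w = c u
  · obtain ⟨u, rfl⟩ := hr
    exact ⟨u, not_lt.1 fun h => h3 ((F.om.upc hc _ _).2 h), (F.om.upc hc _ _).1 h1, rfl⟩
  · push Not at hr
    exact absurd (F.om.upk hc hr s 0 h1) h3

theorem up_step {p q : S} {y z w : X} (hst : St arm E θ p q y z) (hw : up w y) :
    ∃ w', FR arm E θ w w' ∧ up w' z := by
  obtain ⟨hE, s, hs, hy, hz⟩ := hst
  by_cases h : up w z
  · exact ⟨w, .refl, h⟩
  obtain ⟨u, hu0, hus, rfl⟩ := F.cross (F.mem p) (F.mem q) (F.lg _ _ hE) (io_nonneg (θ p q s))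
    (s := io s) (w := w) (hy ▸ hw) (hz ▸ h)
  obtain ⟨s', hs', rfl⟩ := io_surj hu0
  refine ⟨arm q (io (θ p q s')), fr_arm hE hs', ?_⟩
  rw [hz]
  refine (F.om.upc (F.mem q) _ _).2 ((io_lt (iso_lt_one _ hs') (iso_lt_one _ hs)).2 ?_)
  exact (θ p q).strictMono ((io_lt hs' hs).1 hus)

theorem up_fr {y z w : X} (h : FR arm E θ y z) (hw : up w y) :
    ∃ w', FR arm E θ w w' ∧ up w' z := by
  induction h with
  | refl => exact ⟨w, .refl, hw⟩
  | tail _ hst ih =>
    obtain ⟨p, q, hst⟩ := hst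
    obtain ⟨w', h1, h2⟩ := ih
    obtain ⟨w'', h3, h4⟩ := F.up_step hst h2
    exact ⟨w'', h1.trans h3, h4⟩

theorem et_step {p q : S} {x y : X} (hst : St arm E θ p q x y) :
    ∀ d ∈ C, ∀ v, d v = y → ∃ c ∈ C, c 0 = x ∧ ∀ u, ∃ v', FR arm E θ (c u) (d v') := by
  obtain ⟨hE, s, hs, rfl, rfl⟩ := hst
  intro d hd v hv
  have key : ∀ᶠ u in 𝓝 (io s), ∃ v', FR arm E θ (arm p u) (d v') := by
    have h1 : {w | ∃ v', arm q w = d v'} ∈ 𝓝 (io (θ p q s)) :=
      (F.om.opn (F.mem q) hd).mem_nhds ⟨v, hv.symm⟩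
    have h2 : ContinuousAt (fun s' : II => io (θ p q s')) s :=
      (io_cont (iso_lt_one _ hs)).comp (θ p q).continuous.continuousAt
    have h3 := io_near hs (h2 h1)
    have h4 : ∀ᶠ u in 𝓝 (io s), u < 0 → ∃ v', arm p u = d v' := by
      rcases (io_nonneg s).eq_or_lt with e | e
      · have hs0 : s = 0 := by
          by_contra hne
          have := (io_lt (zero_lt_one' II) hs).2 (lt_of_le_of_ne bot_le (Ne.symm hne))
          rw [io_zero] at this
          exact this.ne e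
        subst hs0
        rw [show θ p q 0 = 0 from (θ p q).map_bot, io_zero] at hv
        have := F.om.lg_near (F.mem p) hd (hv ▸ F.lg _ _ hE) univ_mem
        rw [eventually_nhdsWithin_iff] at this
        rw [io_zero]
        filter_upwards [this] with u hu hu0
        obtain ⟨v', -, -, e⟩ := hu hu0
        exact ⟨v', e⟩
      · filter_upwards [lt_mem_nhds e] with u hu hu0
        exact absurd hu0 (not_lt.2 hu.le)
    filter_upwards [h3, h4] with u hu hu'
    rcases lt_or_ge u 0 with h | h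
    · obtain ⟨v', e⟩ := hu' h
      exact ⟨v', e ▸ .refl⟩
    · obtain ⟨s', ⟨v', e⟩, hs', rfl⟩ := hu h
      exact ⟨v', e ▸ fr_arm hE hs'⟩
  obtain ⟨f, f1, f2, f3, f4⟩ := F.om.shrink (F.mem p) key
  exact ⟨_, F.om.reparam (F.mem p) f1 f2, by simp [f3], fun u => f4 u⟩

theorem et_fr {x y : X} (h : FR arm E θ x y) :
    ∀ d ∈ C, ∀ v, d v = y → ∃ c ∈ C, c 0 = x ∧ ∀ u, ∃ v', FR arm E θ (c u) (d v') := by
  induction h with
  | refl =>
    intro d hd v hv
    refine ⟨fun t => d (v + t), F.om.objB_shift hd v, by simpa using hv, fun u => ⟨_, .refl⟩⟩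
  | tail _ hst ih =>
    obtain ⟨p, q, hst⟩ := hst
    intro d hd v hv
    obtain ⟨e, he, e0, he'⟩ := F.et_step hst d hd v hv
    obtain ⟨c, hc, c0, hc'⟩ := ih e he 0 e0
    refine ⟨c, hc, c0, fun u => ?_⟩
    obtain ⟨w, hw⟩ := hc' u
    obtain ⟨v', hv'⟩ := he' w
    exact ⟨v', hw.trans hv'⟩

/-- The fold theorem. -/
theorem gq : Gq G C (FR arm E θ) (fun x y => ∃ x', FR arm E θ x x' ∧ up x' y) where
  eqv := ⟨fun _ => .refl, F.fr_symm, fun h1 h2 => h1.trans h2⟩
  rsm γ _ _ h := F.fr_smul γ h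
  opn c hc d hd := by
    rw [isOpen_iff_mem_nhds]
    rintro u ⟨v, hv⟩
    obtain ⟨c', hc', c0, h⟩ := F.et_fr hv d hd v rfl
    filter_upwards [(F.om.opn hc hc').mem_nhds ⟨0, c0.symm⟩] with u' hu'
    obtain ⟨w, e⟩ := hu'
    exact e ▸ h w
  upl x x' y h := fun ⟨w, h1, h2⟩ => ⟨w, (F.fr_symm h).trans h1, h2⟩
  upr x y y' h := fun ⟨w, h1, h2⟩ => by
    obtain ⟨w', h3, h4⟩ := F.up_fr h h2
    exact ⟨w', h1.trans h3, h4⟩
  upc c hc s t := by
    refine ⟨fun ⟨w, h1, h2⟩ => not_le.1 fun hts => ?_, fun h => ⟨_, .refl, (F.om.upc hc _ _).2 h⟩⟩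
    exact F.not_up_of_fr (F.fr_symm h1) (F.om.mono hc hts h2)
  upk c hc x hx s t := fun ⟨w, h1, h2⟩ =>
    ⟨w, h1, F.om.upk hc (fun u e => hx u (e ▸ h1)) s t h2⟩
  ups γ x y := fun ⟨w, h1, h2⟩ => ⟨γ • w, F.fr_smul γ h1, F.om.ups γ _ _ h2⟩

end PF

end Pool.Agent.Work.MP_3d425c_gt.To
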