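import Pool.Agent.Work.MP_3d425c_gt.To.Fold

/-! Quotients, unions of chains and maximal folds for objects with an arbitrary invariant. -/

namespace Pool.Agent.Work.MP_3d425c_gt.To
open Set Filter Topology Pool.Agent.Work.MP_3d425c_gt.Cy

universe u
variable {G : Type*} {X : Type u} [Group G] [MulAction G X] {C : Set (ℝ → X)}
  {r up : X → X → Prop}

/-- No nontrivial element fixes an interval modulo `r`. -/
def Nf (G : Type*) {X : Type*} [Group G] [MulAction G X] (C : Set (ℝ → X)) (r : X → X → Prop) :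
    Prop :=
  ∀ g : G, g ≠ 1 → ∀ c ∈ C, ∀ u v : ℝ, u < v → ∃ t ∈ Icc u v, ¬ r (g • c t) (c t)

/-- The action of the trivial group. -/
@[reducible] def trivAct (X : Type*) : MulAction PUnit.{1} X where
  smul _ x := x
  one_smul _ := rfl
  mul_smul _ _ _ := rfl

theorem Gq.good (h : Gq G C r up) : letI := trivAct X; Good PUnit.{1} C r up :=
  letI := trivAct X
  ⟨h.eqv, fun _ _ _ k => k, h.opn, h.upl, h.upr, h.upc, h.upk, fun _ _ _ k => k,
    fun _ _ _ _ _ => rfl, fun _ hg => absurd rfl hg⟩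

theorem gq_of_good (h : Good G C r up) : Gq G C r up :=
  ⟨h.eqv, h.rsm, h.opn, h.upl, h.upr, h.upc, h.upk, h.ups⟩

theorem Om.gq (h : Om G C up) : Gq G C Eq up :=
  ⟨eq_equivalence, fun _ _ _ e => e ▸ rfl, h.opn', fun _ _ _ e k => e ▸ k, fun _ _ _ e k => e ▸ k,
    h.upc', h.upk', h.ups⟩

/-- Reversal of the orientation. -/
theorem Gq.flip {D : Set (ℝ → X)} (hD : ∀ c ∈ C, (fun t => c (-t)) ∈ D) (h : Gq G D r up) :
    Gq G C r (fun x y => ¬ up x y ∧ ¬ r x y) := by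
  let := trivAct X
  have k := oc_flip hD h.good
  refine ⟨k.eqv, h.rsm, k.opn, k.upl, k.upr, k.upc, k.upk, fun g x y q => ⟨fun a => q.1 ?_,
    fun a => q.2 ?_⟩⟩
  · simpa only [inv_smul_smul] using h.ups g⁻¹ _ _ a
  · simpa only [inv_smul_smul] using h.rsm g⁻¹ _ _ a

theorem Gq.undual (h : Gq G (dualC C) r up) : Gq G C r (fun x y => ¬ up x y ∧ ¬ r x y) :=
  h.flip fun _ => oc_neg

theorem Gq.dual (h : Gq G C r up) : Gq G (dualC C) r (fun x y => ¬ up x y ∧ ¬ r x y) :=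
  h.flip fun _ k => k

theorem Nf.flip {D : Set (ℝ → X)} (hD : ∀ c ∈ C, (fun t => c (-t)) ∈ D) (h : Nf G D r) :
    Nf G C r := fun g hg c hc u v q => by
  obtain ⟨t, a, b⟩ := h g hg _ (hD c hc) (-v) (-u) (neg_lt_neg q)
  exact ⟨-t, ⟨le_neg.1 a.2, neg_le.1 a.1⟩, b⟩

theorem Nf.undual (h : Nf G (dualC C) r) : Nf G C r := h.flip fun _ => oc_neg

theorem Nf.dual (h : Nf G C r) : Nf G (dualC C) r := h.flip fun _ k => k

/-- The side relation is determined by the equivalence relation. -/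
theorem Gq.unique {up0 up' : X → X → Prop} (h0 : Om G C up0) (h : Gq G C r up)
    (h' : Gq G C r up') (x y : X) : up x y ↔ up' x y := by
  have on : ∀ c ∈ C, ∀ w, r x (c w) → ∀ t, up x (c t) ↔ up' x (c t) := fun c hc w k t =>
    ⟨fun a => h'.upl _ _ _ (h.eqv.symm k) ((h'.upc c hc _ _).2 ((h.upc c hc _ _).1
      (h.upl _ _ _ k a))), fun a => h.upl _ _ _ (h.eqv.symm k) ((h.upc c hc _ _).2
      ((h'.upc c hc _ _).1 (h'.upl _ _ _ k a)))⟩
  refine h0.conn (fun y => up x y ↔ up' x y) (fun c hc s t k => ?_) x y ?_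
  · by_cases a : ∃ w, r x (c w)
    · obtain ⟨w, a⟩ := a
      exact on c hc w a t
    · push Not at a
      exact ⟨fun b => h'.upk c hc x a s t (k.1 (h.upk c hc x a t s b)),
        fun b => h.upk c hc x a s t (k.2 (h'.upk c hc x a t s b))⟩
  · obtain ⟨c, hc, t, e⟩ := h0.cover x
    have := on c hc t (e ▸ h.eqv.refl x) t
    rwa [e] at this

theorem saturate (h1 : ∀ x, ∃ c ∈ C, ∃ t, c t = x)
    (h2 : ∀ g : G, ∀ c ∈ C, (fun t => g • c t) ∈ C)
    (h3 : ∀ P : X → Prop, (∀ c ∈ C, ∀ s t, P (c s) → P (c t)) → ∀ x y, P x → P y)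
    (h : Gq G C Eq up) : Om G {a | LocChart C a} up := by
  let := trivAct X
  have hG := h.good
  refine ⟨fun x => ?_, fun g a ha t => ?_, fun P k => h3 P fun c hc => k c (za_sub hc),
    fun a ha b hb => za_opn hG ha hb, fun a ha => za_upc hG ha, fun a ha => za_upk hG ha, h.ups,
    fun a ha => za_sat ha⟩
  · obtain ⟨c, hc, k⟩ := h1 x
    exact ⟨c, za_sub hc, k⟩
  · obtain ⟨d, hd, f, ε, hε, hm, hf, e⟩ := ha t
    exact ⟨_, h2 g d hd, f, ε, hε, hm, hf, fun u hu => congrArg (g • ·) (e u hu)⟩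

theorem Nf.sat (h : Nf G C Eq) : Nf G {a | LocChart C a} Eq := fun g hg a ha u v huv => by
  obtain ⟨d, hd, f, ε, hε, hm, hf, e⟩ := ha u
  have h1 : u < min v (u + ε / 2) := lt_min huv (by linarith)
  have m2 : min v (u + ε / 2) ∈ Ioo (u - ε) (u + ε) :=
    ⟨by linarith, (min_le_right _ _).trans_lt (by linarith)⟩
  have hsub : Icc u (min v (u + ε / 2)) ⊆ Ioo (u - ε) (u + ε) := Icc_subset_Ioo (by linarith) m2.2
  obtain ⟨w, hw, h2⟩ := h g hg d hd _ _ (hm (za_self hε) m2 h1)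
  obtain ⟨t, ht, rfl⟩ := intermediate_value_Icc h1.le (hf.mono hsub) hw
  exact ⟨t, ⟨ht.1, ht.2.trans (min_le_left _ _)⟩, by rwa [e t (hsub ht)]⟩

/-- The images of the charts. -/
def imC {Y : Type*} (π : X → Y) (C : Set (ℝ → X)) : Set (ℝ → Y) :=
  {b | ∃ c ∈ C, b = fun t => π (c t)}

/-- An equivariant quotient map of objects. -/
structure Qt (G : Type*) {X Y : Type u} [Group G] [MulAction G X] [MulAction G Y]
    (C : Set (ℝ → X)) (π : X → Y) (C' : Set (ℝ → Y)) (up' : Y → Y → Prop) : Prop where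
  om : Om G C' up'
  surj : Function.Surjective π
  smul : ∀ (g : G) x, π (g • x) = g • π x
  eqC : C' = {a | LocChart (imC π C) a}

theorem Qt.mem {Y : Type u} [MulAction G Y] {π : X → Y} {C' : Set (ℝ → Y)} {up' : Y → Y → Prop}
    (Q : Qt G C π C' up') {c : ℝ → X} (hc : c ∈ C) : (fun t => π (c t)) ∈ C' := by
  rw [Q.eqC]
  exact za_sub (C := imC π C) ⟨c, hc, rfl⟩

theorem Qt.nf {Y : Type u} [MulAction G Y] {π : X → Y} {C' : Set (ℝ → Y)} {up' : Y → Y → Prop}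
    (Q : Qt G C π C' up') (h : Nf G C fun x y => π x = π y) : Nf G C' Eq := by
  rw [Q.eqC]
  refine Nf.sat ?_
  rintro g hg _ ⟨c, hc, rfl⟩ u v huv
  obtain ⟨t, ht, k⟩ := h g hg c hc u v huv
  exact ⟨t, ht, fun e => k ((Q.smul g _).trans e)⟩

theorem Qt.lg {Y : Type u} [MulAction G Y] {π : X → Y} {C' : Set (ℝ → Y)} {up' : Y → Y → Prop}
    (Q : Qt G C π C' up') {x y : X} (h : LG C x y) : LG C' (π x) (π y) := by
  obtain ⟨c, hc, d, hd, rfl, rfl, k⟩ := h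
  exact ⟨_, Q.mem hc, _, Q.mem hd, rfl, rfl, fun u hu => congrArg π (k u hu)⟩

theorem Qt.asc {Y : Type u} [MulAction G Y] {π : X → Y} {C' : Set (ℝ → Y)} {up' : Y → Y → Prop}
    (Q : Qt G C π C' up') {x y : X} (h : Asc C x y) : Asc C' (π x) (π y) := by
  obtain ⟨c, hc, s, t, hst, rfl, rfl⟩ := h
  exact ⟨_, Q.mem hc, s, t, hst, rfl, rfl⟩

/-- The quotient by a good relation. -/
theorem Gq.exists_quot {up0 : X → X → Prop} (h0 : Om G C up0) (hG : Gq G C r up) :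
    ∃ (Y : Type u) (_ : MulAction G Y) (π : X → Y) (C' : Set (ℝ → Y)) (up' : Y → Y → Prop),
      Qt G C π C' up' ∧ (∀ x y, π x = π y ↔ r x y) ∧ ∀ x y, up' (π x) (π y) ↔ up x y := by
  let S : Setoid X := ⟨r, hG.eqv⟩
  let A : MulAction G (Quotient S) :=
    { smul := fun g => Quotient.map (g • ·) fun x y h => hG.rsm g x y h
      one_smul := fun y => Quotient.inductionOn y fun x => congrArg (Quotient.mk S) (one_smul G x)
      mul_smul := fun g h y => Quotient.inductionOn y fun x =>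
        congrArg (Quotient.mk S) (mul_smul g h x) }
  obtain ⟨π, hs, hr, he⟩ : ∃ π : X → Quotient S, Function.Surjective π ∧
      (∀ x y, π x = π y ↔ r x y) ∧ ∀ (g : G) x, π (g • x) = g • π x :=
    ⟨Quotient.mk S, Quotient.mk_surjective, fun x y => Quotient.eq, fun _ _ => rfl⟩
  have hu : ∀ x y, (∃ z z', π z = π x ∧ π z' = π y ∧ up z z') ↔ up x y := fun x y =>
    ⟨fun ⟨z, z', h1, h2, h3⟩ => hG.upl _ _ _ ((hr _ _).1 h1) (hG.upr _ _ _ ((hr _ _).1 h2) h3),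
      fun h => ⟨x, y, rfl, rfl, h⟩⟩
  refine ⟨Quotient S, A, π, _, fun y y' => ∃ x x', π x = y ∧ π x' = y' ∧ up x x',
    ⟨saturate (fun y => ?_) ?_ (fun P h y y' => ?_)
      ⟨eq_equivalence, ?_, ?_, ?_, ?_, ?_, ?_, ?_⟩, hs, he, rfl⟩, hr, hu⟩
  · obtain ⟨x, rfl⟩ := hs y
    obtain ⟨c, hc, t, rfl⟩ := h0.cover x
    exact ⟨_, ⟨c, hc, rfl⟩, t, rfl⟩
  · rintro g _ ⟨c, hc, rfl⟩
    exact ⟨_, h0.smul g c hc, funext fun t => (he g _).symm⟩
  · obtain ⟨x, rfl⟩ := hs y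
    obtain ⟨x', rfl⟩ := hs y'
    exact h0.conn (fun x => P (π x)) (fun c hc => h _ ⟨c, hc, rfl⟩) x x'
  · rintro g y _ rfl
    rfl
  · rintro _ ⟨c, hc, rfl⟩ _ ⟨d, hd, rfl⟩
    simpa only [hr] using hG.opn c hc d hd
  · rintro y _ y' rfl h
    exact h
  · rintro y y' _ rfl h
    exact h
  · rintro _ ⟨c, hc, rfl⟩ s t
    exact (hu _ _).trans (hG.upc c hc s t)
  · rintro _ ⟨c, hc, rfl⟩ y hy s t h
    obtain ⟨x, rfl⟩ := hs y
    exact (hu _ _).2 (hG.upk c hc x (fun t h' => hy t ((hr _ _).2 h')) s t ((hu _ _).1 h))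
  · rintro g _ _ ⟨x, x', rfl, rfl, h⟩
    exact ⟨_, _, he g x, he g x', hG.ups g x x' h⟩

theorem Gq.pull {Y : Type*} [MulAction G Y] {C' : Set (ℝ → Y)} {r up : Y → Y → Prop}
    (hG : Gq G C' r up) (π : X → Y) (he : ∀ (g : G) x, π (g • x) = g • π x)
    (hc : ∀ c ∈ C, (fun t => π (c t)) ∈ C') :
    Gq G C (fun x y => r (π x) (π y)) fun x y => up (π x) (π y) where
  eqv := ⟨fun _ => hG.eqv.refl _, fun h => hG.eqv.symm h, fun h h' => hG.eqv.trans h h'⟩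
  rsm g x y h := by
    rw [he, he]
    exact hG.rsm g _ _ h
  opn c h d h' := hG.opn _ (hc c h) _ (hc d h')
  upl _ _ _ := hG.upl _ _ _
  upr _ _ _ := hG.upr _ _ _
  upc c h := hG.upc _ (hc c h)
  upk c h _ := hG.upk _ (hc c h) _
  ups g x y h := by
    rw [he, he]
    exact hG.ups g _ _ h

theorem Nf.pull {Y : Type*} [MulAction G Y] {C' : Set (ℝ → Y)} {r : Y → Y → Prop}
    (h : Nf G C' r) (π : X → Y) (he : ∀ (g : G) x, π (g • x) = g • π x)
    (hc : ∀ c ∈ C, (fun t => π (c t)) ∈ C') : Nf G C fun x y => r (π x) (π y) :=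
  fun g hg c k u v huv => by
    obtain ⟨t, ht, h1⟩ := h g hg _ (hc c k) u v huv
    exact ⟨t, ht, fun e => h1 (he g _ ▸ e)⟩

/-- Union of a family of relations. -/
def unR (S : Set (X → X → Prop)) (x y : X) : Prop := ∃ r ∈ S, r x y

/-- Eventual value along a chain. -/
def evU (S : Set (X → X → Prop)) (U : (X → X → Prop) → X → X → Prop) (x y : X) : Prop :=
  ∃ r ∈ S, ∀ r' ∈ S, r ≤ r' → U r' x y

section Chain
variable {S : Set (X → X → Prop)} {U : (X → X → Prop) → X → X → Prop}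

theorem chain_max (hch : IsChain (· ≤ ·) S) {r r' : X → X → Prop} (a : r ∈ S) (b : r' ∈ S) :
    ∃ m ∈ S, r ≤ m ∧ r' ≤ m :=
  (hch.total a b).elim (fun k => ⟨r', b, k, le_rfl⟩) fun k => ⟨r, a, le_rfl, k⟩

theorem evU_of_all (hne : S.Nonempty) {x y : X} (h : ∀ r ∈ S, U r x y) : evU S U x y :=
  hne.elim fun r a => ⟨r, a, fun r' b _ => h r' b⟩

theorem evU.ex {x y : X} (h : evU S U x y) : ∃ r ∈ S, U r x y :=
  h.elim fun r k => ⟨r, k.1, k.2 r k.1 le_rfl⟩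

theorem gq_chain (hne : S.Nonempty) (hch : IsChain (· ≤ ·) S) (hU : ∀ r ∈ S, Gq G C r (U r)) :
    Gq G C (unR S) (evU S U) := by
  obtain ⟨r0, h0⟩ := hne
  refine ⟨⟨fun x => ⟨r0, h0, (hU r0 h0).eqv.refl x⟩,
      fun ⟨r, a, k⟩ => ⟨r, a, (hU r a).eqv.symm k⟩, ?_⟩,
    fun g x y ⟨r, a, k⟩ => ⟨r, a, (hU r a).rsm g x y k⟩, fun c hc d hd => ?_, ?_, ?_,
    fun c hc s t => ⟨fun ⟨r, a, k⟩ => ((hU r a).upc c hc s t).1 (k r a le_rfl),
      fun k => ⟨r0, h0, fun r a _ => ((hU r a).upc c hc s t).2 k⟩⟩,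
    fun c hc x hx s t ⟨r, a, k⟩ => ⟨r, a, fun r' b q =>
      (hU r' b).upk c hc x (fun t p => hx t ⟨r', b, p⟩) s t (k r' b q)⟩,
    fun g x y ⟨r, a, k⟩ => ⟨r, a, fun r' b q => (hU r' b).ups g x y (k r' b q)⟩⟩
  · rintro x y z ⟨r, a, k⟩ ⟨r', b, q⟩
    obtain ⟨m, c, p, p'⟩ := chain_max hch a b
    exact ⟨m, c, (hU m c).eqv.trans (p _ _ k) (p' _ _ q)⟩
  · have e : {u | ∃ v, unR S (c u) (d v)} = ⋃ r ∈ S, {u | ∃ v, r (c u) (d v)} := by
      ext u
      simp only [mem_iUnion]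
      exact ⟨fun ⟨v, r, a, k⟩ => ⟨r, a, v, k⟩, fun ⟨r, a, v, k⟩ => ⟨v, r, a, k⟩⟩
    rw [e]
    exact isOpen_biUnion fun r a => (hU r a).opn c hc d hd
  · rintro x x' y ⟨r, a, k⟩ ⟨r', b, q⟩
    obtain ⟨m, c, p, p'⟩ := chain_max hch a b
    exact ⟨m, c, fun n e f => (hU n e).upl _ _ _ (f _ _ (p _ _ k)) (q n e (p'.trans f))⟩
  · rintro x y y' ⟨r, a, k⟩ ⟨r', b, q⟩
    obtain ⟨m, c, p, p'⟩ := chain_max hch a b
    exact ⟨m, c, fun n e f => (hU n e).upr _ _ _ (f _ _ (p _ _ k)) (q n e (p'.trans f))⟩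

theorem Gq.fix (h : Gq G C r up) {c d : ℝ → X} (hc : c ∈ C) (hd : d ∈ C) {a b : ℝ}
    (ha : r (d a) (c a)) (hb : r (d b) (c b)) : IsClosed ({t | r (d t) (c t)} ∩ Icc a b) :=
  letI := trivAct X
  zb_fix h.good hc hd ha hb

theorem nf_chain (hs : ∀ g : G, ∀ c ∈ C, (fun t => g • c t) ∈ C) (hch : IsChain (· ≤ ·) S)
    (hU : ∀ r ∈ S, Gq G C r (U r)) (hN : ∀ r ∈ S, Nf G C r) : Nf G C (unR S) := by
  intro g hg c hc u v huv
  by_contra k
  have k1 : ∀ t ∈ Icc u v, ∃ r ∈ S, r (g • c t) (c t) := fun t a =>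
    by_contra fun b => k ⟨t, a, b⟩
  obtain ⟨r1, a1, b1⟩ := k1 u ⟨le_rfl, huv.le⟩
  obtain ⟨r2, a2, b2⟩ := k1 v ⟨huv.le, le_rfl⟩
  obtain ⟨m, hm, p1, p2⟩ := chain_max hch a1 a2
  have cl : ∀ r ∈ S, m ≤ r → IsOpen ({t | r (g • c t) (c t)} ∩ Icc u v)ᶜ := fun r a q =>
    ((hU r a).fix hc (hs g c hc) (q _ _ (p1 _ _ b1)) (q _ _ (p2 _ _ b2))).isOpen_compl
  have de : ∀ r ∈ S, Dense ({t | r (g • c t) (c t)} ∩ Icc u v)ᶜ := fun r a =>
    dense_of_exists_between fun s t q => by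
      obtain ⟨w, e, f⟩ := hN r a g hg c hc ((2 * s + t) / 3) ((s + 2 * t) / 3) (by linarith)
      exact ⟨w, fun z => f z.1, by linarith [e.1], by linarith [e.2]⟩
  have k2 : ∀ q : ℚ, ∃ r ∈ S, m ≤ r ∧ ((q : ℝ) ∈ Icc u v → r (g • c q) (c q)) := fun q => by
    by_cases e : (q : ℝ) ∈ Icc u v
    · obtain ⟨r, a, b⟩ := k1 q e
      obtain ⟨n, hn, p, p'⟩ := chain_max hch hm a
      exact ⟨n, hn, p, fun _ => p' _ _ b⟩
    · exact ⟨m, hm, le_rfl, fun f => absurd f e⟩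
  choose R R1 R2 R3 using k2
  obtain ⟨t, e, f⟩ := (dense_iInter_of_isOpen (fun q => cl _ (R1 q) (R2 q))
    fun q => de _ (R1 q)).exists_mem_open isOpen_Ioo (nonempty_Ioo.2 huv)
  obtain ⟨r, a, b⟩ := k1 t (Ioo_subset_Icc_self f)
  have le : ∀ q, R q ≤ r := fun q => (hch.total (R1 q) a).resolve_right fun p =>
    mem_iInter.1 e q ⟨p _ _ b, Ioo_subset_Icc_self f⟩
  obtain ⟨w, w1, w2⟩ := (de r a).exists_mem_open isOpen_Ioo (nonempty_Ioo.2 huv)
  obtain ⟨q, w3, w4⟩ := Rat.denseRange_cast.exists_mem_open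
    ((cl r a ((R2 0).trans (le 0))).inter isOpen_Ioo) ⟨w, w1, w2⟩
  exact w3 ⟨le q _ _ (R3 q (Ioo_subset_Icc_self w4)), Ioo_subset_Icc_self w4⟩

end Chain

/-- A quotient that is maximal for an invariant `I` closed under unions of chains. -/
theorem exists_max (h : Om G C up) (I : (X → X → Prop) → (X → X → Prop) → Prop) (h0 : I Eq up)
    (hI : ∀ (S : Set (X → X → Prop)) (U : (X → X → Prop) → X → X → Prop), S.Nonempty →
      IsChain (· ≤ ·) S → (∀ r ∈ S, Gq G C r (U r) ∧ I r (U r)) → I (unR S) (evU S U)) :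
    ∃ (Y : Type u) (_ : MulAction G Y) (π : X → Y) (C' : Set (ℝ → Y)) (up' : Y → Y → Prop),
      Qt G C π C' up' ∧ I (fun x y => π x = π y) (fun x y => up' (π x) (π y)) ∧
      ∀ r u', Gq G C' r u' → I (fun x y => r (π x) (π y)) (fun x y => u' (π x) (π y)) →
        ∀ y y', r y y' → y = y' := by
  obtain ⟨m, -, hm⟩ := zorn_le_nonempty₀ {r : X → X → Prop | ∃ up, Gq G C r up ∧ I r up}
    (fun S hS hch r hr => by
      have hS' : ∀ r ∈ S, ∃ up, Gq G C r up ∧ I r up := fun r a => hS a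
      choose! U hU using hS'
      exact ⟨unR S, ⟨evU S U, gq_chain ⟨r, hr⟩ hch fun r a => (hU r a).1,
        hI S U ⟨r, hr⟩ hch hU⟩, fun z hz x y k => ⟨z, hz, k⟩⟩) Eq ⟨up, h.gq, h0⟩
  obtain ⟨up1, h1, i1⟩ := hm.prop
  obtain ⟨Y, A, π, C', up', Q, hr, hu⟩ := h1.exists_quot h
  refine ⟨Y, A, π, C', up', Q, ?_, fun r u' h3 i3 y y' k => ?_⟩
  · rw [show (fun x y => π x = π y) = m from funext₂ fun x y => propext (hr x y),
      show (fun x y => up' (π x) (π y)) = up1 from funext₂ fun x y => propext (hu x y)]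
    exact i1
  obtain ⟨x, rfl⟩ := Q.surj y
  obtain ⟨x', rfl⟩ := Q.surj y'
  have h4 : (fun x y => r (π x) (π y)) ≤ m :=
    hm.le_of_ge ⟨_, h3.pull π Q.smul fun c hc => Q.mem hc, i3⟩ fun a b hab => by
      rw [(hr a b).2 hab]
      exact h3.eqv.refl _
  exact (hr x x').2 (h4 x x' k)

/-- No interval is fixed after a fold, given the condition on the arms. -/
theorem PF.nf {S : Type*} {arm : S → ℝ → X} {E : S → S → Prop} {θ : S → S → II ≃o II}
    (F : PF G C up arm E θ) (h : Nf G C Eq)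
    (hnf : ∀ γ : G, γ ≠ 1 → ∀ p, NI {s | FR arm E θ (γ • arm p (io s)) (arm p (io s))}) :
    Nf G C (FR arm E θ) := by
  intro γ hγ c hc u v huv
  by_contra hcon
  push Not at hcon
  by_cases hx : ∃ t ∈ Ioo u v, ∃ (p : S) (s : II), s < 1 ∧ c t = arm p (io s)
  · obtain ⟨t, ht, p, s, hs, e⟩ := hx
    have h1 := F.om.near (F.mem p) hc e.symm (isOpen_Ioo.mem_nhds ht)
    have h2 := (io_cont hs) h1
    obtain ⟨l, hl, hsub⟩ := exists_Ico_subset_of_mem_nhds' h2 hs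
    obtain ⟨m, hm1, hm2⟩ := exists_between hl.1
    obtain ⟨s', hs', hn⟩ := hnf γ hγ p s m hm1
    obtain ⟨t', ht', e'⟩ := hsub ⟨hs'.1, hs'.2.trans_lt hm2⟩
    have e'' : arm p (io s') = c t' := e'
    refine hn ?_
    show FR arm E θ (γ • arm p (io s')) (arm p (io s'))
    rw [e'']
    exact hcon t' ⟨ht'.1.le, ht'.2.le⟩
  · obtain ⟨t, ht, hn⟩ := h γ hγ c hc ((2 * u + v) / 3) ((u + 2 * v) / 3) (by linarith)
    have ht' : t ∈ Ioo u v := ⟨by linarith [ht.1], by linarith [ht.2]⟩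
    exact hn (fr_off (hcon t ⟨ht'.1.le, ht'.2.le⟩) fun k => hx ⟨t, ht', k⟩)

end Pool.Agent.Work.MP_3d425c_gt.To
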