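import Pool.Agent.Work.MP_3d425c_gt.To.AxB

/-! Junctions and the winding number on an oriented simply connected one-manifold. -/

namespace Pool.Agent.Work.MP_3d425c_gt.To
open Set Filter Topology Pool.Agent.Work.MP_3d425c_gt.Cy

variable {G X : Type*} [Group G] [MulAction G X] {C : Set (ℝ → X)} {up : X → X → Prop}

namespace Om
section Junction
variable (h : Om G C up)
include h

theorem windA_self (a : X × Bool) : hm up a a.1 := by
  obtain ⟨a, _ | _⟩ := a
  · simpa [hm] using h.irr a
  · simp [hm]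

theorem windA_dual (a x : X) : (dualU up a x ∨ x = a) ↔ ¬ up a x := by
  constructor
  · rintro (e | rfl)
    · exact e.1
    · exact h.irr _
  · intro e
    by_cases q : x = a
    · exact Or.inr q
    · exact Or.inl ⟨e, fun r => q r.symm⟩

theorem hE_equiv : Equivalence (hE C) := by
  refine ⟨?_, ?_, ?_⟩
  · rintro ⟨a, _ | _⟩
    · simpa [hE] using h.dual.lg_refl a
    · simpa [hE] using h.lg_refl a
  · rintro ⟨a, _ | _⟩ ⟨b, _ | _⟩ e <;> simp only [hE] at e ⊢
    · exact ⟨trivial, by simpa using lg_symm (by simpa using e.2)⟩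
    · simp at e
    · simp at e
    · exact ⟨trivial, by simpa using lg_symm (by simpa using e.2)⟩
  · rintro ⟨a, _ | _⟩ ⟨b, _ | _⟩ ⟨d, _ | _⟩ e e' <;> simp [hE] at e e' ⊢
    · exact h.dual.lg_trans e e'
    · exact h.lg_trans e e'

theorem windA_disj {a b x : X} (e : LG C a b) (ha : up a x ∨ x = a) (hb : up b x ∨ x = b) :
    a = b := by
  by_contra q
  exact h.disj (h.lg_not_up e) (h.lg_not_up (lg_symm e)) q ha hb

theorem hm_unique {a b : X × Bool} {x : X} (e : hE C a b) (ha : hm up a x) (hb : hm up b x) :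
    a = b := by
  obtain ⟨a, _ | _⟩ := a <;> obtain ⟨b, _ | _⟩ := b <;> simp [hE, hm] at e ha hb ⊢
  · exact h.dual.windA_disj e ((h.windA_dual a x).2 ha) ((h.windA_dual b x).2 hb)
  · exact h.windA_disj e ha hb

/-- A half-space missing `a` lies on one side of `a`. -/
theorem windA_nest {b : X × Bool} {a p : X} (ha : ¬ hm up b a) (hp : hm up b p) :
    up a p ↔ up a b.1 := by
  obtain ⟨b, _ | _⟩ := b <;> simp [hm] at ha hp ⊢
  · exact h.sep' ha hp
  · exact h.sep ha.1 ha.2 hp

theorem windA_nest' {b : X × Bool} {a p : X} (β : Bool) (ha : ¬ hm up b a) (hp : hm up b p) :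
    hm up (a, β) p ↔ hm up (a, β) b.1 := by
  have k := h.windA_nest ha hp
  have k1 : p ≠ a := fun q => ha (q ▸ hp)
  have k2 : b.1 ≠ a := fun q => ha (q ▸ h.windA_self b)
  cases β <;> simp [hm, k, k1, k2]

omit h in
theorem windA_compl {b p : X} {β : Bool} (hp : ¬ hm up (b, β) p) : hm up (b, !β) p := by
  cases β <;> simp [hm] at hp ⊢
  · exact Or.inl hp
  · exact hp.1

omit h in
theorem windA_compl' {b p : X} {β : Bool} (hp : hm up (b, β) p) (q : p ≠ b) :
    ¬ hm up (b, !β) p := by
  cases β <;> simp [hm, q] at hp ⊢ <;> exact hp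

/-- The points of a junction lie on the same side of a half-space of another junction. -/
theorem windA_side {a n n' : X × Bool} (e : hE C n n') (q : ¬ hE C a n) :
    hm up a n.1 → hm up a n'.1 := by
  have q' : ¬ hE C a n' := fun r => q (h.hE_equiv.trans r (h.hE_equiv.symm e))
  have r1 : a ≠ n := fun r => q (r ▸ h.hE_equiv.refl a)
  have r2 : a ≠ n' := fun r => q' (r ▸ h.hE_equiv.refl a)
  obtain ⟨a, _ | _⟩ := a <;> obtain ⟨n, _ | _⟩ := n <;> obtain ⟨n', _ | _⟩ := n' <;>
    simp [hE, hm] at e r1 r2 ⊢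
  · intro k
    exact (h.dual.lg_up e ⟨k, r1⟩).1
  · exact fun k k' => k (h.lg_up (lg_symm e) k')
  · intro k
    by_contra k'
    push Not at k'
    have := h.dual.lg_up (lg_symm e) (⟨k'.1, fun r => k'.2 r.symm⟩ : dualU up a n')
    rcases k with k | k
    · exact this.1 k
    · exact this.2 k.symm
  · rintro (k | k)
    · exact Or.inl (h.lg_up e k)
    · exact absurd k.symm r1

theorem windA_same {j a : X × Bool} {x y : X} (e : hE C j a) (hx : hm up a x) (hy : hm up a y) :
    Same C up j x y := fun b eb =>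
  have k := h.hE_equiv.trans (h.hE_equiv.symm e) eb
  ⟨fun q => h.hm_unique k hx q ▸ hy, fun q => h.hm_unique k hy q ▸ hx⟩

theorem windA_up {a b : X × Bool} {x : X} (e : hE C a b) (ha : ¬ hm up a x) (hb : ¬ hm up b x) :
    up x a.1 ↔ up x b.1 := by
  obtain ⟨a, _ | _⟩ := a <;> obtain ⟨b, _ | _⟩ := b <;> simp [hE, hm] at e ha hb ⊢
  · have k1 : x ≠ a := fun q => h.irr a (q ▸ ha)
    have k2 : x ≠ b := fun q => h.irr b (q ▸ hb)
    constructor
    · intro k
      by_contra k'
      exact (h.dual.lg_up (lg_symm e) (⟨k', k2⟩ : dualU up x b)).1 k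
    · intro k
      by_contra k'
      exact (h.dual.lg_up e (⟨k', k1⟩ : dualU up x a)).1 k
  · exact ⟨h.lg_up e, h.lg_up (lg_symm e)⟩

/-- With a centre no point separates the other two. Hint: if `x` lies in a half-space `μ` of the
junction, `y` and `z` do not, use `sep`, `sep'`; otherwise `y`, `z` lie in half-spaces with
points `ν`, `ν'` not separated, and `x` sees `y` like `ν`. -/
theorem centre_sep {j : X × Bool} {x y z : X} (hc : Centre C up j x y z) : up x y ↔ up x z := by
  obtain ⟨h1, -, h3⟩ := hc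
  by_cases q : ∃ a, hE C j a ∧ hm up a x
  · obtain ⟨⟨a, β⟩, e, hx⟩ := q
    have hy : ¬ hm up (a, β) y := fun k => h1 (h.windA_same e hx k)
    have hz : ¬ hm up (a, β) z := fun k => h3 (h.windA_same e k hx)
    by_cases r : x = a
    · subst r
      cases β <;> simp [hm] at hy hz
      · exact ⟨fun _ => hz, fun _ => hy⟩
      · exact ⟨fun k => absurd k hy.1, fun k => absurd k hz.1⟩
    · have k := windA_compl' hx r
      exact (h.windA_nest k (windA_compl hy)).trans (h.windA_nest k (windA_compl hz)).symm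
  · have q' : ∀ a, hE C j a → ¬ hm up a x := fun a e k => q ⟨a, e, k⟩
    obtain ⟨a, ea, ha⟩ : ∃ a, hE C j a ∧ hm up a y := by
      by_contra r
      exact h1 fun a e => ⟨fun k => absurd k (q' a e), fun k => absurd ⟨a, e, k⟩ r⟩
    obtain ⟨b, eb, hb⟩ : ∃ b, hE C j b ∧ hm up b z := by
      by_contra r
      exact h3 fun a e => ⟨fun k => absurd ⟨a, e, k⟩ r, fun k => absurd k (q' a e)⟩
    exact (h.windA_nest (q' a ea) ha).trans ((h.windA_up
      (h.hE_equiv.trans (h.hE_equiv.symm ea) eb) (q' a ea) (q' b eb)).trans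
        (h.windA_nest (q' b eb) hb).symm)

theorem windA_pos {j j' : X × Bool} {p : X} (q : ¬ hE C j j') (hp : ¬ Same C up j' p j.1) :
    Same C up j p j'.1 := by
  have E := h.hE_equiv
  obtain ⟨⟨b, γ⟩, eb, hb⟩ : ∃ b, hE C j' b ∧ ¬ (hm up b p ↔ hm up b j.1) := by
    by_contra r
    exact hp fun b e => by_contra fun k => r ⟨b, e, k⟩
  rintro ⟨a, β⟩ ea
  have n1 : ¬ hE C (b, γ) j := fun r => q (E.symm (E.trans eb r))
  have n2 : ¬ hE C (b, γ) (a, β) := fun r => n1 (E.trans r (E.symm ea))
  have n3 : ¬ hE C (a, β) j' := fun r => q (E.trans ea r)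
  have k1 : hm up (b, γ) j.1 ↔ hm up (b, γ) a :=
    ⟨h.windA_side ea n1, h.windA_side (E.symm ea) n2⟩
  have k2 : hm up (a, β) b ↔ hm up (a, β) j'.1 :=
    ⟨h.windA_side (E.symm eb) fun r => n2 (E.symm r), h.windA_side eb n3⟩
  refine Iff.trans ?_ k2
  rw [k1] at hb
  by_cases r : hm up (b, γ) a
  · have r' : ¬ hm up (b, γ) p := fun k => hb ⟨fun _ => r, fun _ => k⟩
    by_cases w : a = b
    · subst w
      have : β = !γ := by
        cases β <;> cases γ <;> first | rfl | exact absurd (E.refl _) n2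
      subst this
      exact ⟨fun _ => h.windA_self (a, !γ), fun _ => windA_compl r'⟩
    · exact h.windA_nest' (b := (b, !γ)) β (windA_compl' r w) (windA_compl r')
  · have r' : hm up (b, γ) p := by
      by_contra k
      exact hb ⟨fun k' => absurd k' k, fun k' => absurd k' r⟩
    exact h.windA_nest' (b := (b, γ)) β r r'

/-- Hint: for different junctions `j`, `j'` all points of `j'` have the same position `o` for
`j`, all points of `j` the same position `o'` for `j'`, and a point whose position for `j'` is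
not `o'` has position `o` for `j`. -/
theorem centre_unique {j j' : X × Bool} {x y z : X} (hc : Centre C up j x y z)
    (hc' : Centre C up j' x y z) : hE C j j' := by
  by_contra q
  have tr : ∀ {i : X × Bool} {u v w : X}, Same C up i u w → Same C up i v w → Same C up i u v :=
    fun a b c e => (a c e).trans (b c e).symm
  by_cases hx : Same C up j' x j.1
  · exact hc.2.1 (tr (h.windA_pos q fun k => hc'.1 (tr hx k))
      (h.windA_pos q fun k => hc'.2.2 (tr k hx)))
  · by_cases hy : Same C up j' y j.1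
    · exact hc.2.2 (tr (h.windA_pos q fun k => hc'.2.1 (tr hy k)) (h.windA_pos q hx))
    · exact hc.1 (tr (h.windA_pos q hx) (h.windA_pos q hy))

theorem windA_mono {c} (hc : c ∈ C) {a : X × Bool} {s t : ℝ}
    (hst : if a.2 = true then s ≤ t else t ≤ s) (ha : hm up a (c s)) : hm up a (c t) := by
  obtain ⟨a, _ | _⟩ := a <;> simp [hm] at hst ha ⊢
  · exact fun k => ha (h.mono hc hst k)
  · rcases ha with k | k
    · exact Or.inl (h.mono hc hst k)
    · rcases hst.eq_or_lt with rfl | w
      · exact Or.inr k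
      · exact Or.inl (k ▸ (h.upc hc s t).2 w)

theorem windA_chart {c} (hc : c ∈ C) (β : Bool) (v t : ℝ) :
    hm up (c v, β) (c t) ↔ if β = true then v ≤ t else t ≤ v := by
  cases β <;> simp [hm, h.upc hc]
  constructor
  · rintro (k | k)
    · exact k.le
    · exact (h.inj hc k).ge
  · intro k
    rcases k.eq_or_lt with rfl | w
    · exact Or.inr rfl
    · exact Or.inl w

omit h in
theorem windA_total (β : Bool) (s t : ℝ) :
    (if β = true then s ≤ t else t ≤ s) ∨ (if β = true then t ≤ s else s ≤ t) := by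
  cases β <;> simp [le_total]

theorem chart_in {c} (hc : c ∈ C) (j : X × Bool) (s t : ℝ) : ¬ Jump C up j (c s) (c t) := by
  rintro ⟨a, b, ea, eb, ne, ha, hb⟩
  have e := h.hE_equiv.trans (h.hE_equiv.symm ea) eb
  rcases windA_total a.2 s t with k | k
  · exact ne (h.hm_unique e (h.windA_mono hc k ha) hb)
  · exact ne (h.hm_unique e ha (h.windA_mono hc (e.1 ▸ k) hb))

theorem windA_free {c} (hc : c ∈ C) {x : X} {j : X × Bool}
    (q : ¬ ∃ a b v, hE C j a ∧ hE C j b ∧ a ≠ b ∧ hm up a x ∧ b.1 = c v) (s t : ℝ) :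
    Jump C up j x (c s) → Jump C up j x (c t) := by
  rintro ⟨a, ⟨b, β⟩, ea, eb, ne, ha, hb⟩
  have k : ∀ v, b ≠ c v := fun v r => q ⟨a, (b, β), v, ea, eb, ne, ha, r⟩
  refine ⟨a, (b, β), ea, eb, ne, ha, ?_⟩
  cases β <;> simp [hm] at hb ⊢
  · exact fun r => hb (h.upk hc k t s r)
  · rcases hb with r | r
    · exact Or.inl (h.upk hc k s t r)
    · exact absurd r.symm (k s)

theorem windA_att {c} (hc : c ∈ C) {x : X} {j a : X × Bool} {β : Bool} {v : ℝ} (ea : hE C j a)
    (eb : hE C j (c v, β)) (ne : a ≠ (c v, β)) (ha : hm up a x) (t : ℝ) :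
    (Jump C up j x (c t) ↔ if β = true then v ≤ t else t ≤ v) ∧
      (up (c t) x ↔ if β = true then t < v else t ≤ v) := by
  have E := h.hE_equiv
  have e : hE C a (c v, β) := E.trans (E.symm ea) eb
  have e2 : a.2 = β := e.1
  have out : ¬ hm up a (c t) := fun k => by
    rcases windA_total β t v with w | w
    · exact ne (h.hm_unique e (h.windA_mono hc (e2 ▸ w) k) (h.windA_self (c v, β)))
    · exact ne (h.hm_unique e k ((h.windA_chart hc β v t).2 w))
  constructor
  · constructor
    · rintro ⟨a', b', ea', eb', -, -, hb'⟩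
      have e' : hE C b' (c v, β) := E.trans (E.symm eb') eb
      rcases windA_total β v t with w | w
      · exact w
      · have := h.hm_unique e' (h.windA_mono hc ((show b'.2 = β from e'.1) ▸ w) hb')
          (h.windA_self (c v, β))
        exact (h.windA_chart hc β v t).1 (this ▸ hb')
    · exact fun w => ⟨a, (c v, β), ea, eb, ne, ha, (h.windA_chart hc β v t).2 w⟩
  · rw [h.windA_nest out ha]
    have k : c t ≠ a.1 := fun r => out (r ▸ h.windA_self a)
    obtain ⟨a, γ⟩ := a
    dsimp only at e2 k ⊢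
    subst e2
    cases γ <;> simp [hE] at e ⊢
    · constructor
      · intro r
        by_contra w
        push Not at w
        exact (h.dual.lg_up (lg_symm e) (⟨fun z => lt_asymm w ((h.upc hc t v).1 z),
          fun z => w.ne' (h.inj hc z)⟩ : dualU up (c t) (c v))).1 r
      · intro w
        by_contra r
        have z := h.dual.lg_up e (⟨r, k⟩ : dualU up (c t) a)
        rcases w.eq_or_lt with rfl | w
        · exact z.2 rfl
        · exact z.1 ((h.upc hc t v).2 w)
    · exact ⟨fun r => (h.upc hc t v).1 (h.lg_up e r),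
        fun w => h.lg_up (lg_symm e) ((h.upc hc t v).2 w)⟩

theorem windA_ex {c} (hc : c ∈ C) {x : X} (hx : ∀ t, x ≠ c t) {s t : ℝ} (hs : up (c s) x)
    (ht : ¬ up (c t) x) :
    ∃ j a b v, hE C j a ∧ hE C j b ∧ a ≠ b ∧ hm up a x ∧ b.1 = c v := by
  have E := h.hE_equiv
  have down : ∀ u u', u ≤ u' → up (c u') x → up (c u) x := fun u u' w k => by
    rcases w.eq_or_lt with rfl | w
    · exact k
    · exact h.sub ((h.upc hc u u').2 w) (fun z => lt_asymm w ((h.upc hc u' u).1 z)) k
  have bd : BddAbove {u | up (c u) x} :=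
    ⟨t, fun u k => le_of_not_gt fun w => ht (down t u w.le k)⟩
  have ne : {u | up (c u) x}.Nonempty := ⟨s, hs⟩
  obtain ⟨v, hv⟩ : ∃ v, v = sSup {u | up (c u) x} := ⟨_, rfl⟩
  by_cases q : up (c v) x
  · have hc' : (fun u => c (-u)) ∈ dualC C := by simpa [dualC] using hc
    obtain ⟨μ, e, k⟩ := h.dual.cut hc' (v := -v) (x := x) fun u w =>
      ⟨fun z => by
        have : -u ≤ v := hv ▸ le_csSup bd z
        linarith, fun z => hx _ z.symm⟩
    have k' := (h.windA_dual μ x).1 k
    simp only [neg_neg] at e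
    refine ⟨(c v, false), (μ, false), (c v, false), v, ?_, E.refl _, ?_, ?_, rfl⟩
    · simpa [hE] using lg_symm e
    · intro r
      exact k' ((Prod.mk.inj r).1 ▸ q)
    · simpa [hm] using k'
  · obtain ⟨μ, e, k⟩ := h.cut hc (v := v) (x := x) fun u w => by
      obtain ⟨u', z, w'⟩ := exists_lt_of_lt_csSup ne (hv ▸ w)
      exact down u u' w'.le z
    refine ⟨(c v, true), (μ, true), (c v, true), v, ?_, E.refl _, ?_, ?_, rfl⟩
    · simpa [hE] using lg_symm e
    · intro r
      have r' : μ = c v := (Prod.mk.inj r).1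
      rcases k with k | k
      · exact q (r' ▸ k)
      · exact hx v (k.trans r')
    · simpa [hm] using k

/-- Along a chart missing `x` at most one junction is attached. Hint: call `j` attached if it has
half-spaces `a ≠ b` with `x` in `a` and the point of `b` equal to `c v`; then `up (c t) x` holds
iff `t < v` (upper type) or iff `t ≤ v` (lower type). If none is attached, `cut` and its dual show
that `up (c t) x` does not depend on `t`. -/
theorem chart_out {c} (hc : c ∈ C) {x : X} (hx : ∀ t, x ≠ c t) (s t : ℝ) :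
    ((∀ j, Jump C up j x (c s) ↔ Jump C up j x (c t)) ∧ (up (c s) x ↔ up (c t) x)) ∨
    ∃ j₀, (∀ j, ¬ hE C j j₀ → (Jump C up j x (c s) ↔ Jump C up j x (c t))) ∧
      ¬ (Jump C up j₀ x (c s) ↔ Jump C up j₀ x (c t)) ∧ ¬ (up (c s) x ↔ up (c t) x) := by
  have E := h.hE_equiv
  have key : ∀ j, (∃ a b v, hE C j a ∧ hE C j b ∧ a ≠ b ∧ hm up a x ∧ b.1 = c v) →
      ((Jump C up j x (c s) ↔ Jump C up j x (c t)) ↔ (up (c s) x ↔ up (c t) x)) := by
    rintro j ⟨a, ⟨b, β⟩, v, ea, eb, ne, ha, rfl⟩
    have k1 := h.windA_att hc ea eb ne ha s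
    have k2 := h.windA_att hc ea eb ne ha t
    rw [k1.1, k1.2, k2.1, k2.2]
    cases β
    · simp
    · simp only [if_true, ← not_lt (a := v)]
      simp only [← not_le]
      exact not_iff_not.symm
  by_cases q : up (c s) x ↔ up (c t) x
  · refine Or.inl ⟨fun j => ?_, q⟩
    by_cases r : ∃ a b v, hE C j a ∧ hE C j b ∧ a ≠ b ∧ hm up a x ∧ b.1 = c v
    · exact (key j r).2 q
    · exact ⟨h.windA_free hc r s t, h.windA_free hc r t s⟩
  · obtain ⟨j₀, r₀⟩ : ∃ j a b v, hE C j a ∧ hE C j b ∧ a ≠ b ∧ hm up a x ∧ b.1 = c v := by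
      by_cases w : up (c s) x
      · exact h.windA_ex hc hx w fun z => q ⟨fun _ => z, fun _ => w⟩
      · exact h.windA_ex hc hx (s := t) (t := s)
          (by_contra fun z => q ⟨fun y => absurd y w, fun y => absurd y z⟩) w
    refine Or.inr ⟨j₀, fun j n => ?_, fun z => q ((key j₀ r₀).1 z), q⟩
    have r : ¬ ∃ a b v, hE C j a ∧ hE C j b ∧ a ≠ b ∧ hm up a x ∧ b.1 = c v := by
      rintro ⟨a, ⟨b, β⟩, v, ea, eb, ne, ha, rfl⟩
      obtain ⟨a', ⟨b', β'⟩, v', ea', eb', ne', ha', rfl⟩ := r₀
      have k : ∀ u, (if β = true then u < v else u ≤ v) ↔ (if β' = true then u < v' else u ≤ v') :=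
        fun u => (h.windA_att hc ea eb ne ha u).2.symm.trans (h.windA_att hc ea' eb' ne' ha' u).2
      have k' : v = v' ∧ β = β' := by
        have k1 := k v
        have k2 := k v'
        have k3 := k ((v + v') / 2)
        cases β <;> cases β' <;> simp at k1 k2 k3 ⊢
        · exact le_antisymm k1 k2
        · exact absurd (k3.2 (by linarith)) (by linarith)
        · exact absurd (k3.1 (by linarith)) (by linarith)
        · exact le_antisymm k2 k1
      obtain ⟨rfl, rfl⟩ := k'
      exact n (E.trans eb (E.symm eb'))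
    exact ⟨h.windA_free hc r s t, h.windA_free hc r t s⟩

end Junction

theorem wd_hE_smul (h : Om G C up) (g : G) {a b : X × Bool} (e : hE C a b) :
    hE C (g • a.1, a.2) (g • b.1, b.2) := by
  obtain ⟨a, s⟩ := a
  obtain ⟨b, t⟩ := b
  obtain ⟨rfl, e⟩ : s = t ∧ _ := e
  refine ⟨rfl, ?_⟩
  cases s
  · simpa using h.dual.lg_smul g (x := a) (y := b) (by simpa using e)
  · simpa using h.lg_smul g (x := a) (y := b) (by simpa using e)

theorem wd_hm_smul (h : Om G C up) (g : G) {a : X × Bool} {x : X} (e : hm up a x) :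
    hm up (g • a.1, a.2) (g • x) := by
  obtain ⟨a, _ | _⟩ := a
  · simpa [hm, h.ups_iff] using e
  · simpa [hm, h.ups_iff] using e

theorem wd_jump_congr (h : Om G C up) {j j' : X × Bool} (e : hE C j j') {x y : X}
    (hj : Jump C up j x y) : Jump C up j' x y := by
  obtain ⟨a, b, h1, h2, h3⟩ := hj
  exact ⟨a, b, h.hE_equiv.trans (h.hE_equiv.symm e) h1, h.hE_equiv.trans (h.hE_equiv.symm e) h2, h3⟩

theorem wd_pos_congr (h : Om G C up) {lo hi : X → X → Prop} {j j' : X × Bool} (e : hE C j j')
    {x y : X} (hj : wdPos C up lo hi j x y) : wdPos C up lo hi j' x y := by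
  obtain ⟨a, b, h1, h2, h3⟩ := hj
  exact ⟨a, b, h.hE_equiv.trans (h.hE_equiv.symm e) h1, h.hE_equiv.trans (h.hE_equiv.symm e) h2, h3⟩

section Pos
variable (h : Om G C up) {lo hi : X → X → Prop} (hlo : ClassOrd G (LG C) lo)
  (hhi : ClassOrd G (LG (dualC C)) hi)
include h hlo hhi

theorem wd_pos_tr {j : X × Bool} {x y z : X} (h1 : wdPos C up lo hi j x y)
    (h2 : wdPos C up lo hi j y z) : wdPos C up lo hi j x z := by
  obtain ⟨a, b, ha, hb, hx, hy, o⟩ := h1
  obtain ⟨b', c, hb', hc, hy', hz, o'⟩ := h2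
  have E := h.hE_equiv
  obtain rfl : b = b' := h.hm_unique (E.trans (E.symm hb) hb') hy hy'
  exact ⟨a, c, ha, hc, hx, hz,
    wdOrd_tr hlo hhi (E.trans (E.symm ha) hb) (E.trans (E.symm hb) hc) o o'⟩

theorem wd_pos_irr (j : X × Bool) (x : X) : ¬ wdPos C up lo hi j x x := by
  rintro ⟨a, b, ha, hb, hx, hy, o⟩
  have E := h.hE_equiv
  obtain rfl : a = b := h.hm_unique (E.trans (E.symm ha) hb) hx hy
  exact wdOrd_irr hlo hhi a o

theorem wd_pos_asymm {j : X × Bool} {x y : X} (h1 : wdPos C up lo hi j x y) :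
    ¬ wdPos C up lo hi j y x := fun h2 => wd_pos_irr h hlo hhi j x (wd_pos_tr h hlo hhi h1 h2)

theorem wd_jump_iff (j : X × Bool) (x y : X) :
    Jump C up j x y ↔ wdPos C up lo hi j x y ∨ wdPos C up lo hi j y x := by
  have E := h.hE_equiv
  constructor
  · rintro ⟨a, b, ha, hb, hne, hx, hy⟩
    rcases wdOrd_tri hlo hhi (E.trans (E.symm ha) hb) hne with o | o
    · exact Or.inl ⟨a, b, ha, hb, hx, hy, o⟩
    · exact Or.inr ⟨b, a, hb, ha, hy, hx, o⟩
  · rintro (⟨a, b, ha, hb, hx, hy, o⟩ | ⟨a, b, ha, hb, hx, hy, o⟩)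
    · exact ⟨a, b, ha, hb, fun e => wdOrd_irr hlo hhi a (by rw [← e] at o; exact o), hx, hy⟩
    · exact ⟨b, a, hb, ha, fun e => wdOrd_irr hlo hhi a (by rw [e] at o; exact o), hy, hx⟩

theorem wd_pos_smul (g : G) {j : X × Bool} {x y : X} (h1 : wdPos C up lo hi j x y) :
    wdPos C up lo hi (g • j.1, j.2) (g • x) (g • y) := by
  obtain ⟨a, b, ha, hb, hx, hy, o⟩ := h1
  exact ⟨_, _, wd_hE_smul h g ha, wd_hE_smul h g hb, wd_hm_smul h g hx, wd_hm_smul h g hy,
    wdOrd_smul hlo hhi g o⟩

end Pos

section Trip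
variable (h : Om G C up) {lo hi : X → X → Prop} (hlo : ClassOrd G (LG C) lo)
  (hhi : ClassOrd G (LG (dualC C)) hi)
include h hlo hhi

theorem wdD_same {j : X × Bool} {x y : X} (s : Same C up j x y) (z : X) :
    wdD C up lo hi j x y z = 0 := by
  have h1 : ¬ wdPos C up lo hi j x y := fun e =>
    wd_pos_irr h hlo hhi j y ((wd_same_left s y).1 e)
  have h2 : ¬ wdPos C up lo hi j y x := fun e =>
    wd_pos_irr h hlo hhi j y ((wd_same_right s y).1 e)
  unfold wdD
  rw [wdI_neg h1, wdI_neg h2, wdI_iff (wd_same_left s z), wdI_iff (wd_same_right s z)]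
  ring

theorem wdD_zero {j : X × Bool} {x y z : X} (hc : ¬ Centre C up j x y z) :
    wdD C up lo hi j x y z = 0 := by
  by_cases s1 : Same C up j x y
  · exact wdD_same h hlo hhi s1 z
  by_cases s2 : Same C up j y z
  · rw [wdD_cyc]
    exact wdD_same h hlo hhi s2 x
  by_cases s3 : Same C up j z x
  · rw [wdD_cyc, wdD_cyc]
    exact wdD_same h hlo hhi s3 y
  exact absurd ⟨s1, s2, s3⟩ hc

theorem wdD_le (j : X × Bool) (x y z : X) : wdD C up lo hi j x y z ≤ 1 := by
  have t1 := wd_pos_tr h hlo hhi (j := j) (x := x) (y := y) (z := z)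
  have t2 := wd_pos_tr h hlo hhi (j := j) (x := y) (y := z) (z := x)
  have t3 := wd_pos_tr h hlo hhi (j := j) (x := z) (y := x) (z := y)
  have t4 := wd_pos_asymm h hlo hhi (j := j) (x := x) (y := z)
  unfold wdD
  rcases wdI_cases (wdPos C up lo hi j x y) with a | a <;>
    rcases wdI_cases (wdPos C up lo hi j y x) with b | b <;>
    rcases wdI_cases (wdPos C up lo hi j y z) with c | c <;>
    rcases wdI_cases (wdPos C up lo hi j z y) with d | d <;>
    rcases wdI_cases (wdPos C up lo hi j z x) with e | e <;>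
    rcases wdI_cases (wdPos C up lo hi j x z) with f | f <;> first | omega | tauto

end Trip

/-- The junctions. -/
def wdS (h : Om G C up) : Setoid (X × Bool) := ⟨hE C, h.hE_equiv⟩

theorem wd_out (h : Om G C up) (j : X × Bool) : hE C (Quotient.mk (wdS h) j).out j :=
  Quotient.mk_out (s := wdS h) j

theorem wd_ne (h : Om G C up) {J : Quotient (wdS h)} {j : X × Bool}
    (hJ : J ≠ Quotient.mk (wdS h) j) : ¬ hE C J.out j := fun e =>
  hJ (by rw [← Quotient.out_eq J]; exact Quotient.sound (s := wdS h) e)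

theorem wd_fin (h : Om G C up) (x y : X) :
    {J : Quotient (wdS h) | Jump C up J.out x y}.Finite := by
  have h0 : ∀ c ∈ C, ∀ u t, {J : Quotient (wdS h) | Jump C up J.out (c u) (c t)}.Finite :=
    fun c hc u t => Set.finite_empty.subset fun J hJ => h.chart_in hc _ u t hJ
  refine h.conn (fun y => {J : Quotient (wdS h) | Jump C up J.out x y}.Finite) ?_ x y ?_
  · intro c hc s t hs
    by_cases hx : ∀ u, x ≠ c u
    · rcases h.chart_out hc hx s t with ⟨e, -⟩ | ⟨j₀, e, -⟩
      · exact hs.subset fun J hJ => (e _).2 hJ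
      · refine (hs.insert (Quotient.mk (wdS h) j₀)).subset fun J hJ => ?_
        by_cases hJ0 : J = Quotient.mk (wdS h) j₀
        · exact Or.inl hJ0
        · exact Or.inr ((e _ (wd_ne h hJ0)).2 hJ)
    · push Not at hx
      obtain ⟨u, rfl⟩ := hx
      exact h0 c hc u t
  · obtain ⟨c, hc, u, rfl⟩ := h.cover x
    exact h0 c hc u u

theorem wd_odd (h : Om G C up) {x y : X} (hxy : x ≠ y) :
    (wdN (fun J : Quotient (wdS h) => Jump C up J.out x y) + wdI (up x y) + wdI (up y x)) % 2
      = 1 := by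
  refine h.conn (fun y => x ≠ y → (wdN (fun J : Quotient (wdS h) => Jump C up J.out x y) +
    wdI (up x y) + wdI (up y x)) % 2 = 1) ?_ x y (fun e => absurd rfl e) hxy
  intro c hc s t hs hne
  by_cases hx : ∀ u, x ≠ c u
  · have h1 := hs (hx s)
    rw [wdI_iff (⟨h.upk hc hx s t, h.upk hc hx t s⟩ : up x (c s) ↔ up x (c t))] at h1
    rcases h.chart_out hc hx s t with ⟨e, e'⟩ | ⟨j₀, e, e', e''⟩
    · rw [wdI_iff e'] at h1
      have h2 : (fun J : Quotient (wdS h) => Jump C up J.out x (c s)) =
          fun J : Quotient (wdS h) => Jump C up J.out x (c t) :=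
        funext fun J => propext (e _)
      rwa [h2] at h1
    · have h2 := wdN_flip (p := fun J : Quotient (wdS h) => Jump C up J.out x (c s))
        (q := fun J : Quotient (wdS h) => Jump C up J.out x (c t)) (wd_fin h x (c s))
        (Quotient.mk (wdS h) j₀) (fun J hJ => e _ (wd_ne h hJ)) (fun e3 => e'
          ⟨fun a => wd_jump_congr h (wd_out h j₀)
            (e3.1 (wd_jump_congr h (h.hE_equiv.symm (wd_out h j₀)) a)),
           fun a => wd_jump_congr h (wd_out h j₀)
            (e3.2 (wd_jump_congr h (h.hE_equiv.symm (wd_out h j₀)) a))⟩)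
      rcases wdI_cases (up (c s) x) with a | a <;> rcases wdI_cases (up (c t) x) with b | b <;>
        first | omega | tauto
  · push Not at hx
    obtain ⟨u, rfl⟩ := hx
    have hut : u ≠ t := fun e => hne (by rw [e])
    rw [wdN_zero fun J : Quotient (wdS h) => h.chart_in hc J.out u t, wdI_iff (h.upc hc u t),
      wdI_iff (h.upc hc t u)]
    rcases lt_or_gt_of_ne hut with l | l
    · rw [wdI_pos l, wdI_neg (not_lt.2 l.le)]; rfl
    · rw [wdI_pos l, wdI_neg (not_lt.2 l.le)]; rfl

/-- The number of positive jumps. -/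
noncomputable def wdP (h : Om G C up) (lo hi : X → X → Prop) (x y : X) : ℤ :=
  wdN fun J : Quotient (wdS h) => wdPos C up lo hi J.out x y

/-- The action on junctions. -/
def wdA (h : Om G C up) (g : G) : Quotient (wdS h) → Quotient (wdS h) :=
  Quotient.map (sa := wdS h) (sb := wdS h) (fun j => (g • j.1, j.2)) fun _ _ e => wd_hE_smul h g e

theorem wdA_inv (h : Om G C up) (g : G) (J : Quotient (wdS h)) : wdA h g⁻¹ (wdA h g J) = J := by
  obtain ⟨j, rfl⟩ := Quotient.exists_rep J
  change Quotient.mk (wdS h) (g⁻¹ • g • j.1, j.2) = _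
  rw [inv_smul_smul]

theorem wdA_out (h : Om G C up) (g : G) (J : Quotient (wdS h)) :
    hE C (wdA h g J).out (g • J.out.1, J.out.2) := by
  have e : wdA h g J = Quotient.mk (wdS h) (g • J.out.1, J.out.2) := by
    conv_lhs => rw [← Quotient.out_eq J]
    rfl
  rw [e]
  exact wd_out h _

section Fin
variable (h : Om G C up) {lo hi : X → X → Prop} (hlo : ClassOrd G (LG C) lo)
  (hhi : ClassOrd G (LG (dualC C)) hi)
include hlo hhi

theorem wdP_smul (g : G) (x y : X) : wdP h lo hi (g • x) (g • y) = wdP h lo hi x y := by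
  have hb : Function.Bijective (wdA h g) :=
    Function.bijective_iff_has_inverse.2 ⟨wdA h g⁻¹, wdA_inv h g, fun J => by
      simpa using wdA_inv h g⁻¹ J⟩
  refine (finsum_eq_of_bijective (wdA h g) hb fun J => wdI_iff ⟨fun a => ?_, fun a => ?_⟩).symm
  · exact wd_pos_congr h (h.hE_equiv.symm (wdA_out h g J)) (wd_pos_smul h hlo hhi g a)
  · simpa using wd_pos_smul h hlo hhi g⁻¹ (wd_pos_congr h (wdA_out h g J) a)

theorem wdP_add (x y : X) : wdN (fun J : Quotient (wdS h) => Jump C up J.out x y) =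
    wdP h lo hi x y + wdP h lo hi y x :=
  wdN_or (wd_fin h x y) (fun J => wd_jump_iff h hlo hhi J.out x y)
    fun _ a => wd_pos_asymm h hlo hhi a

theorem wdP_triple (x y z : X) : ∃ T : Finset (Quotient (wdS h)),
    wdP h lo hi x y - wdP h lo hi y x + (wdP h lo hi y z - wdP h lo hi z y) +
      (wdP h lo hi z x - wdP h lo hi x z) = ∑ J ∈ T, wdD C up lo hi J.out x y z := by
  have hf := ((wd_fin h x y).union (wd_fin h y z)).union (wd_fin h z x)
  have ji := fun (J : Quotient (wdS h)) a b => (wd_jump_iff h hlo hhi J.out a b).2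
  refine ⟨hf.toFinset, ?_⟩
  unfold wdP wdD
  rw [wdN_sum (T := hf.toFinset) fun J hJ =>
      hf.mem_toFinset.2 (Or.inl (Or.inl (ji J x y (Or.inl hJ)))),
    wdN_sum (T := hf.toFinset) fun J hJ =>
      hf.mem_toFinset.2 (Or.inl (Or.inl (ji J x y (Or.inr hJ)))),
    wdN_sum (T := hf.toFinset) fun J hJ =>
      hf.mem_toFinset.2 (Or.inl (Or.inr (ji J y z (Or.inl hJ)))),
    wdN_sum (T := hf.toFinset) fun J hJ =>
      hf.mem_toFinset.2 (Or.inl (Or.inr (ji J y z (Or.inr hJ)))),
    wdN_sum (T := hf.toFinset) fun J hJ =>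
      hf.mem_toFinset.2 (Or.inr (ji J z x (Or.inl hJ))),
    wdN_sum (T := hf.toFinset) fun J hJ =>
      hf.mem_toFinset.2 (Or.inr (ji J z x (Or.inr hJ)))]
  simp only [Finset.sum_add_distrib, Finset.sum_sub_distrib]

theorem wd_triple (x y z : X) :
    2 * (wdP h lo hi x y - wdP h lo hi y x + (wdP h lo hi y z - wdP h lo hi z y) +
      (wdP h lo hi z x - wdP h lo hi x z)) + (wdI (up x y) - wdI (up y x) +
      (wdI (up y z) - wdI (up z y)) + (wdI (up z x) - wdI (up x z))) ≤ 2 := by
  obtain ⟨T, hT⟩ := wdP_triple h hlo hhi x y z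
  rw [hT]
  by_cases hc : ∃ j, Centre C up j x y z
  · obtain ⟨j, hj⟩ := hc
    have e1 := wdI_iff (h.centre_sep hj)
    have e2 := wdI_iff (h.centre_sep (j := j) ⟨hj.2.1, hj.2.2, hj.1⟩)
    have e3 := wdI_iff (h.centre_sep (j := j) ⟨hj.2.2, hj.1, hj.2.1⟩)
    have hs : ∑ J ∈ T, wdD C up lo hi J.out x y z ≤ 1 := by
      have z0 : ∀ J : Quotient (wdS h), J ≠ Quotient.mk (wdS h) j →
          wdD C up lo hi J.out x y z = 0 := fun J hJ =>
        wdD_zero h hlo hhi fun hc => wd_ne h hJ (h.centre_unique hc hj)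
      by_cases hm : Quotient.mk (wdS h) j ∈ T
      · rw [Finset.sum_eq_single_of_mem _ hm fun J _ hJ => z0 J hJ]
        exact wdD_le h hlo hhi _ x y z
      · rw [Finset.sum_eq_zero fun J hJ => z0 J fun e => hm (e ▸ hJ)]
        exact zero_le_one
    omega
  · rw [Finset.sum_eq_zero fun J _ => wdD_zero h hlo hhi fun a => hc ⟨_, a⟩]
    have t := h.sub (x := x) (y := y) (z := z)
    rcases wdI_cases (up x y) with a | a <;> rcases wdI_cases (up y x) with b | b <;>
      rcases wdI_cases (up y z) with c | c <;> rcases wdI_cases (up z y) with d | d <;>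
      rcases wdI_cases (up z x) with e | e <;> rcases wdI_cases (up x z) with f | f <;>
      first | omega | tauto

end Fin

/-- The signed number of jumps. -/
noncomputable def wdW (h : Om G C up) (lo hi : X → X → Prop) (x y : X) : ℤ :=
  wdP h lo hi x y - wdP h lo hi y x

/-- The number of junctions with a jump. -/
noncomputable def wdJ (h : Om G C up) (x y : X) : ℤ :=
  wdN fun J : Quotient (wdS h) => Jump C up J.out x y

/-- The winding number. -/
noncomputable def phi (h : Om G C up) (lo hi : X → X → Prop) (x y : X) : ℤ :=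
  2 * wdW h lo hi x y + (wdI (up x y) - wdI (up y x))

theorem wdW_anti (h : Om G C up) (lo hi : X → X → Prop) (x y : X) :
    wdW h lo hi x y = -wdW h lo hi y x := by
  unfold wdW
  ring

theorem wdW_self (h : Om G C up) (lo hi : X → X → Prop) (x : X) : wdW h lo hi x x = 0 := by
  unfold wdW
  ring

theorem phi_anti (h : Om G C up) (lo hi : X → X → Prop) (x y : X) :
    phi h lo hi x y = -phi h lo hi y x := by
  unfold phi wdW
  ring

theorem phi_self (h : Om G C up) (lo hi : X → X → Prop) (x : X) : phi h lo hi x x = 0 := by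
  unfold phi wdW
  ring

theorem wdI_nonneg (p : Prop) : 0 ≤ wdI p := by
  rcases wdI_cases p with a | a <;> omega

theorem wdP_nonneg (h : Om G C up) (lo hi : X → X → Prop) (x y : X) : 0 ≤ wdP h lo hi x y :=
  finsum_nonneg fun _ => wdI_nonneg _

theorem wdJ_nonneg (h : Om G C up) (x y : X) : 0 ≤ wdJ h x y :=
  finsum_nonneg fun _ => wdI_nonneg _

theorem wdJ_odd (h : Om G C up) {x y : X} (hxy : x ≠ y) :
    (wdJ h x y + wdI (up x y) + wdI (up y x)) % 2 = 1 := wd_odd h hxy

/-- A half-space through `n` separating `y` from `z` leaves no centre. -/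
theorem no_centre (h : Om G C up) {n y z : X} {β : Bool} (hy : hm up (n, β) y)
    (hz : ¬ hm up (n, β) z) (j : X × Bool) : ¬ Centre C up j n y z := by
  intro hc
  have e := h.centre_sep hc
  cases β
  · simp only [hm, Bool.false_eq_true, if_false] at hy hz
    exact hz fun a => hy (e.2 a)
  · simp only [hm, if_true] at hy hz
    rcases hy with hy | rfl
    · exact hz (Or.inl (e.1 hy))
    · exact hc.1 fun _ _ => Iff.rfl

section Phi
variable (h : Om G C up) {lo hi : X → X → Prop} (hlo : ClassOrd G (LG C) lo)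
  (hhi : ClassOrd G (LG (dualC C)) hi)
include hlo hhi

theorem wdW_smul (g : G) (x y : X) : wdW h lo hi (g • x) (g • y) = wdW h lo hi x y := by
  unfold wdW
  rw [wdP_smul h hlo hhi, wdP_smul h hlo hhi]

theorem phi_smul (g : G) (x y : X) : phi h lo hi (g • x) (g • y) = phi h lo hi x y := by
  unfold phi
  rw [wdW_smul h hlo hhi, wdI_iff (h.ups_iff g x y), wdI_iff (h.ups_iff g y x)]

theorem wdJ_eq (x y : X) : wdJ h x y = wdP h lo hi x y + wdP h lo hi y x :=
  wdP_add h hlo hhi x y

theorem wdW_le (x y : X) : wdW h lo hi x y ≤ wdJ h x y ∧ -wdJ h x y ≤ wdW h lo hi x y := by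
  have a := wdJ_eq h hlo hhi x y
  have b := wdP_nonneg h lo hi x y
  have c := wdP_nonneg h lo hi y x
  unfold wdW
  omega

theorem phi_ne {x y : X} (hxy : x ≠ y) : phi h lo hi x y ≠ 0 := by
  have h1 := wd_odd h hxy
  rw [wdP_add h hlo hhi] at h1
  unfold phi wdW
  rcases wdI_cases (up x y) with a | a <;> rcases wdI_cases (up y x) with b | b <;> omega

theorem phi_triple (x y z : X) : phi h lo hi x y + phi h lo hi y z + phi h lo hi z x ≤ 2 := by
  have t := wd_triple h hlo hhi x y z
  unfold phi wdW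
  omega

/-- The winding number is a quasi cocycle. -/
theorem phi_defect (x y z : X) :
    phi h lo hi x y + phi h lo hi y z - 2 ≤ phi h lo hi x z ∧
      phi h lo hi x z ≤ phi h lo hi x y + phi h lo hi y z + 2 := by
  have a := phi_triple h hlo hhi x y z
  have b := phi_triple h hlo hhi z y x
  have c := phi_anti h lo hi x z
  have d := phi_anti h lo hi x y
  have e := phi_anti h lo hi y z
  omega

theorem phi_trans {x y z : X} (h1 : 0 < phi h lo hi x y) (h2 : 0 < phi h lo hi y z) :
    0 < phi h lo hi x z := by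
  have t := phi_triple h hlo hhi x y z
  have c := phi_anti h lo hi x z
  by_cases hxz : x = z
  · subst hxz
    have := phi_anti h lo hi x y
    omega
  · have := phi_ne h hlo hhi hxz
    omega

theorem phi_order : IsStrictTotalOrder X fun x y => 0 < phi h lo hi x y where
  trichotomous x y h1 h2 := by
    by_contra hxy
    have := phi_ne h hlo hhi hxy
    have := phi_anti h lo hi x y
    omega
  irrefl x := by
    rw [phi_self]
    exact lt_irrefl _
  trans _ _ _ h1 h2 := phi_trans h hlo hhi h1 h2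

include h in
theorem wind : ∃ lt : X → X → Prop, IsStrictTotalOrder X lt ∧
    ∀ (g : G) x y, lt x y → lt (g • x) (g • y) :=
  ⟨_, phi_order h hlo hhi, fun g x y h1 => by rwa [phi_smul h hlo hhi]⟩

/-- Without a centre the signed number of jumps is a cocycle. -/
theorem wdW_cocycle {x y z : X} (hc : ∀ j, ¬ Centre C up j x y z) :
    wdW h lo hi x y + wdW h lo hi y z + wdW h lo hi z x = 0 := by
  obtain ⟨T, hT⟩ := wdP_triple h hlo hhi x y z
  unfold wdW
  rw [hT]
  exact Finset.sum_eq_zero fun J _ => wdD_zero h hlo hhi (hc _)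

/-- Additivity across a separating half-space. -/
theorem wdW_add {n y z : X} {β : Bool} (hy : hm up (n, β) y) (hz : ¬ hm up (n, β) z) :
    wdW h lo hi z y = wdW h lo hi z n + wdW h lo hi n y := by
  have a := wdW_cocycle h hlo hhi (no_centre h hy hz)
  have b := wdW_anti h lo hi z y
  omega

end Phi

end Om

end Pool.Agent.Work.MP_3d425c_gt.To
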