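import Pool.Agent.Work.MP_3d425c_gt.To.SfQf
import Pool.Agent.Work.MP_3d425c_gt.To.Wind
import Pool.Agent.Work.MP_3d425c_gt.To.Quot
import Pool.Agent.Work.MP_3d425c_gt.To.AxC
import Pool.Agent.Work.MP_3d425c_gt.To.Axis
import Pool.Agent.Work.MP_3d425c_gt.To.Fold
import Pool.Agent.Work.MP_3d425c_gt.To.AxB
import Pool.Agent.Work.MP_3d425c_gt.To.Bl

-- merged part: Pool.Agent.Work.MP_3d425c_gt.To.Str
section
/-! Structure of actions of rank two abelian groups: ends of chains, bad points, jumps. -/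

namespace Pool.Agent.Work.MP_3d425c_gt.To
open Set Filter Topology Pool.Agent.Work.MP_3d425c_gt.Cy

variable {G X : Type*} [Group G] [MulAction G X] {C : Set (ℝ → X)} {up : X → X → Prop}

/-- a nontrivial relation between powers -/
def Dep (a b : G) : Prop := ∃ m n : ℤ, ¬ (m = 0 ∧ n = 0) ∧ a ^ m = b ^ n

/-- an open cone of `P` -/
structure Cone (P : Subgroup G) (Z : Set G) : Prop where
  sub : ∀ a ∈ Z, a ∈ P
  mul : ∀ a ∈ Z, ∀ b ∈ Z, a * b ∈ Z
  one : (1 : G) ∉ Z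
  arch : ∀ a ∈ Z, ∀ p ∈ P, ∃ N : ℕ, a ^ N * p ∈ Z

/-- `a` and `b` move `y` in opposite directions, one of them possibly not at all -/
def Bad (up : X → X → Prop) (a b : G) (y : X) : Prop :=
  (Le up y (a • y) ∧ Lt up (b • y) y) ∨ (Le up (a • y) y ∧ Lt up y (b • y))

/-- points fixed by a rank two subgroup of `P` are fixed by `P` -/
def FixAll (X : Type*) [MulAction G X] (P : Subgroup G) : Prop :=
  ∀ ν : X, ∀ a ∈ P, ∀ b ∈ P, a • ν = ν → b • ν = ν → ¬ Dep a b → ∀ p ∈ P, p • ν = ν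

theorem Cone.pow {P : Subgroup G} {Z : Set G} (k : Cone P Z) {a : G} (ha : a ∈ Z) (n : ℕ) :
    a ^ (n + 1) ∈ Z := by
  induction n with
  | zero => simpa using ha
  | succ n ih =>
    rw [pow_succ]
    exact k.mul _ ih _ ha

theorem Cone.zpow {P : Subgroup G} {Z : Set G} (k : Cone P Z) {a : G} (ha : a ∈ Z) {n : ℤ}
    (hn : 0 < n) : a ^ n ∈ Z := by
  obtain ⟨m, rfl⟩ : ∃ m : ℕ, n = (m + 1 : ℕ) := ⟨(n - 1).toNat, by omega⟩
  rw [zpow_natCast]
  exact k.pow ha m

/-- dependent elements of a cone have a common positive power -/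
theorem Cone.dep {P : Subgroup G} {Z : Set G} (k : Cone P Z) {a b : G} (ha : a ∈ Z) (hb : b ∈ Z)
    (d : Dep a b) : ∃ m n : ℕ, a ^ (m + 1) = b ^ (n + 1) := by
  have key : ∀ m n : ℤ, 0 < m → a ^ m = b ^ n → 0 < n := fun m n hm e => by
    by_contra hn
    rcases (not_lt.1 hn).eq_or_lt with l | l
    · have := k.zpow ha hm
      rw [e, l, zpow_zero] at this
      exact k.one this
    · have := k.mul _ (k.zpow ha hm) _ (k.zpow hb (neg_pos.2 l))
      rw [e, ← zpow_add, add_neg_cancel, zpow_zero] at this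
      exact k.one this
  have fin : ∀ m n : ℤ, 0 < m → a ^ m = b ^ n → ∃ m n : ℕ, a ^ (m + 1) = b ^ (n + 1) :=
    fun m n hm e => by
      have hn := key m n hm e
      refine ⟨(m - 1).toNat, (n - 1).toNat, ?_⟩
      rw [← zpow_natCast, ← zpow_natCast, show (((m - 1).toNat + 1 : ℕ) : ℤ) = m by omega,
        show (((n - 1).toNat + 1 : ℕ) : ℤ) = n by omega, e]
  obtain ⟨m, n, hmn, e⟩ := d
  rcases lt_trichotomy m 0 with l | l | l
  · exact fin (-m) (-n) (neg_pos.2 l) (by rw [zpow_neg, zpow_neg, e])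
  · subst l
    have hn : n ≠ 0 := fun l => hmn ⟨rfl, l⟩
    exfalso
    rw [zpow_zero] at e
    rcases hn.lt_or_gt with l | l
    · exact k.one (by simpa [← e] using k.zpow hb (neg_pos.2 l))
    · exact k.one (e ▸ k.zpow hb l)
  · exact fin m n l e

namespace Om
variable (h : Om G C up)
include h

theorem lt_irr (x : X) : ¬ Lt up x x := fun k => k.2 k.1

theorem lt_le {x y z} (k : Lt up x y) (l : Le up y z) : Lt up x z :=
  l.elim (fun e => e ▸ k) (h.lt_trans' k)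

theorem le_lt {x y z} (k : Le up x y) (l : Lt up y z) : Lt up x z :=
  k.elim (fun e => e ▸ l) fun k => h.lt_trans' k l

theorem le_not {x y} (k : Le up x y) : ¬ up y x := k.elim (fun e => e ▸ h.irr x) fun k => k.2

theorem le_pow {a : G} {y} (k : Le up y (a • y)) (n : ℕ) : Le up y (a ^ n • y) := by
  induction n with
  | zero => exact Or.inl (by simp)
  | succ n ih =>
    rw [pow_succ, mul_smul]
    exact h.le_trans' ih ((h.le_smul _).2 k)

theorem lt_pow {a : G} {y} (k : Lt up y (a • y)) (n : ℕ) : Lt up y (a ^ (n + 1) • y) := by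
  rw [pow_succ, mul_smul]
  exact h.le_lt (h.le_pow (Or.inr k) n) ((h.lt_smul _).2 k)

theorem ge_pow {a : G} {y} (k : Le up (a • y) y) (n : ℕ) : Le up (a ^ n • y) y :=
  (h.le_dual _ _).1 (h.dual.le_pow ((h.le_dual _ _).2 k) n)

theorem gt_pow {a : G} {y} (k : Lt up (a • y) y) (n : ℕ) : Lt up (a ^ (n + 1) • y) y :=
  (h.lt_dual _ _).1 (h.dual.lt_pow ((h.lt_dual _ _).2 k) n)

theorem bad_dual (a b : G) (y : X) : Bad (dualU up) a b y ↔ Bad up a b y := by
  simp only [Bad, h.le_dual, h.lt_dual, or_comm]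

theorem bad_smul {a b g : G} {y : X} (ha : a * g = g * a) (hb : b * g = g * b)
    (k : Bad up a b y) : Bad up a b (g • y) := by
  simp only [Bad, ← mul_smul, ha, hb]
  simp only [mul_smul, h.le_smul, h.lt_smul]
  exact k

/-- An element that keeps a class and nests or fixes a point behind `ν` fixes `ν`. -/
theorem sym {p : G} {ν y : X} (k : LG C (p • ν) ν) (hy : up ν y ∨ y = ν)
    (c : Le up y (p • y) ∨ Le up (p • y) y) : p • ν = ν := by
  by_contra n
  have k' : LG C (p⁻¹ • ν) ν := lg_symm (by simpa using h.lg_smul p⁻¹ k)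
  have sm : ∀ g : G, up (g • ν) (g • y) ∨ g • y = g • ν := fun g =>
    hy.imp (h.ups g _ _) fun e => by rw [e]
  have o1 : ¬ (up ν (p • y) ∨ p • y = ν) := fun l => n (h.windA_disj k (sm p) l)
  have o2 : ¬ (up ν (p⁻¹ • y) ∨ p⁻¹ • y = ν) := fun l =>
    n (by simpa using (congrArg (p • ·) (h.windA_disj k' (sm p⁻¹) l)).symm)
  rcases hy with hy | rfl
  · have e1 := h.sep' hy fun l => o1 (Or.inl l)
    have e2 := h.sep' hy fun l => o2 (Or.inl l)
    have e3 : up y (p⁻¹ • y) ↔ up (p • y) y := by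
      rw [← h.ups_iff p, smul_inv_smul]
    rcases c with (c | c) | (c | c)
    · exact o1 (Or.inl (c ▸ hy))
    · exact c.2 (e3.1 (e2.2 (e1.1 c.1)))
    · exact o1 (Or.inl (c.symm ▸ hy))
    · exact c.2 (e1.2 (e2.1 (e3.2 c.1)))
  · rcases c with (c | c) | (c | c)
    · exact n c.symm
    · exact h.lg_not_up (lg_symm k) c.1
    · exact n c
    · exact h.lg_not_up k c.1

variable {P : Subgroup G} (hP : ∀ p ∈ P, ∀ q ∈ P, p * q = q * p)

theorem ax_move {z : X} (az : Axial up P z) (mv : ∃ p ∈ P, p • z ≠ z) :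
    ∃ p ∈ P, Lt up z (p • z) := by
  obtain ⟨p, hp, n⟩ := mv
  rcases az p hp with (e | e) | (e | e)
  · exact (n e.symm).elim
  · exact ⟨p, hp, e⟩
  · exact (n e).elim
  · exact ⟨p⁻¹, P.inv_mem hp, by simpa using (h.lt_smul p⁻¹).2 e⟩

theorem ax_total {z : X} (az : Axial up P z) {p q : G} (hp : p ∈ P) (hq : q ∈ P) :
    Le up (p • z) (q • z) ∨ Le up (q • z) (p • z) := by
  have := az (p⁻¹ * q) (P.mul_mem (P.inv_mem hp) hq)
  rwa [← h.le_smul p, ← h.le_smul p (y := z), mul_smul, smul_inv_smul] at this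

/-- The upper end of the orbit of an axial point. -/
theorem top {z w : X} (az : Axial up P z) (mv : ∃ p ∈ P, p • z ≠ z)
    (hw : ∀ q ∈ P, up (q • z) w) :
    ∃ ν, (∀ p ∈ P, LG C (p • ν) ν) ∧ (up ν w ∨ w = ν) ∧
      ∀ c ∈ C, ∀ s, c s = ν → ∃ᶠ u in 𝓝[<] s, ∃ q ∈ P, c u = q • z := by
  obtain ⟨t, ht, tz⟩ := h.ax_move az mv
  have nxt : ∀ q ∈ P, ∃ q' ∈ P, Lt up (q • z) (q' • z) := fun q hq =>
    ⟨q * t, P.mul_mem hq ht, by
      rw [mul_smul]
      exact (h.lt_smul q).2 tz⟩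
  have ex : ∃ c ∈ C, ∃ s r, (∀ q ∈ P, up (q • z) (c s)) ∧ ¬ ∀ q ∈ P, up (q • z) (c r) := by
    by_contra n
    refine h.irr z ?_
    have := h.conn (fun w => ∀ q ∈ P, up (q • z) w)
      (fun c hc s r a => by_contra fun b => n ⟨c, hc, s, r, a, b⟩) w z hw 1 P.one_mem
    rwa [one_smul] at this
  obtain ⟨c, hc, s1, r, a1, a2⟩ := ex
  set A := {u | ∀ q ∈ P, up (q • z) (c u)} with hA
  have bd : ∀ u ∈ A, r ≤ u := fun u hu => by
    by_contra l
    exact a2 fun q hq => h.mono hc (not_le.1 l).le (hu q hq)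
  have nA : A.Nonempty := ⟨s1, a1⟩
  set s := sInf A with hs
  have on : ∀ u, u ∉ A → ∃ q ∈ P, ∃ v, u ≤ v ∧ v ≤ s ∧ q • z = c v := fun u hu => by
    obtain ⟨q, hq⟩ := not_forall.1 hu
    obtain ⟨hq, n⟩ := Classical.not_imp.1 hq
    by_cases l : ∃ v, q • z = c v
    · obtain ⟨v, e⟩ := l
      refine ⟨q, hq, v, not_lt.1 fun l => n (e ▸ (h.upc hc v u).2 l),
        le_csInf nA fun u' hu' => ((h.upc hc v u').1 (e ▸ hu' q hq)).le, e⟩
    · exact (n (h.upk hc (fun v e => l ⟨v, e⟩) s1 u (a1 q hq))).elim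
  have sA : s ∈ A := by
    by_contra n
    obtain ⟨q, hq, v, l1, l2, e⟩ := on s n
    obtain ⟨q', hq', l⟩ := nxt q hq
    rw [e, le_antisymm l2 l1] at l
    by_cases m : ∃ v, q' • z = c v
    · obtain ⟨v', e'⟩ := m
      rw [e'] at l
      exact ((h.upc hc s v').1 l.1).not_ge
        (le_csInf nA fun u' hu' => ((h.upc hc v' u').1 (e' ▸ hu' q' hq')).le)
    · exact l.2 (h.upk hc (fun v e => m ⟨v, e⟩) s1 s (a1 q' hq'))
  have on' : ∀ u < s, ∃ q ∈ P, ∃ v, u ≤ v ∧ v < s ∧ q • z = c v := fun u hu => by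
    obtain ⟨q, hq, v, l1, l2, e⟩ := on u fun l => hu.not_ge (csInf_le ⟨r, bd⟩ l)
    exact ⟨q, hq, v, l1, (h.upc hc v s).1 (e ▸ sA q hq), e⟩
  have below : ∀ x, (∀ q ∈ P, up (q • z) x) → ∀ u < s, up (c u) x := fun x hx u hu => by
    obtain ⟨q, hq, v, l1, -, e⟩ := on' u hu
    exact h.le_up (h.le_chart hc l1) (e ▸ hx q hq)
  have inv : ∀ p ∈ P, LG C (p • c s) (c s) := by
    intro p hp
    obtain ⟨μ, m1, m2⟩ := h.cut hc (below (p • c s) fun q hq => by
      have := h.ups p _ _ (sA (p⁻¹ * q) (P.mul_mem (P.inv_mem hp) hq))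
      rwa [mul_smul, smul_inv_smul] at this)
    rcases m2 with m2 | m2
    swap
    · exact m2 ▸ m1
    exfalso
    obtain ⟨l, l1, l2⟩ := mem_nhdsLT_iff_exists_Ioo_subset.1
      ((h.up_near (h.smul p c hc) m2).filter_mono nhdsWithin_le_nhds)
    have l1 : l < s := l1
    obtain ⟨q, hq, v, b1, b2, e⟩ := on' ((l + s) / 2) (by linarith)
    have b3 : up μ (p • q • z) := e ▸ l2 ⟨by linarith, b2⟩
    obtain ⟨q', hq', b4⟩ := nxt (p * q) (P.mul_mem hp hq)
    rw [mul_smul] at b4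
    obtain ⟨u, c1, c2⟩ := (((h.up_near hc (sA q' hq')).filter_mono nhdsWithin_le_nhds).and
      (self_mem_nhdsWithin (s := Iio s))).exists
    obtain ⟨q'', hq'', v', c3, c4, e'⟩ := on' u c2
    have c5 : Le up (q' • z) (q'' • z) := (h.ax_total az hq' hq'').resolve_right fun l =>
      h.le_not l (e' ▸ h.mono hc c3 c1)
    have b5 : up (q'' • z) μ := h.lg_up (lg_symm m1) (sA q'' hq'')
    have b6 : ¬ up μ (q'' • z) := fun l => h.lg_not_up m1 (h.mono hc c4.le (e' ▸ l))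
    exact (h.lt_le b4 c5).2 ((h.sep b6 (fun e => h.irr _ (e ▸ b5)) (Or.inl b3)).2 b5)
  obtain ⟨ν, n1, n2⟩ := h.cut hc (below w hw)
  refine ⟨ν, fun p hp => h.lg_trans (h.lg_smul p n1) (h.lg_trans (inv p hp) (lg_symm n1)), n2,
    fun d hd s' e => ?_⟩
  subst e
  rw [frequently_iff]
  intro U hU
  obtain ⟨l, l1, l2⟩ := mem_nhdsLT_iff_exists_Ioo_subset.1 hU
  obtain ⟨l', l3, l4⟩ := mem_nhdsLT_iff_exists_Ioo_subset.1
    (h.lg_near hc hd (lg_symm n1) (Ioi_mem_nhds l1))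
  have l3 : l' < s := l3
  obtain ⟨q, hq, v, b1, b2, e⟩ := on' ((l' + s) / 2) (by linarith)
  obtain ⟨v', b3, b4, b5⟩ := l4 (show v ∈ Ioo l' s from ⟨by linarith, b2⟩)
  exact ⟨v', l2 ⟨b3, b4⟩, q, hq, by rw [e, b5]⟩

/-- `y` lies between two points of the orbit of `z` -/
theorem out_or {z y : X} (n : ¬ ∃ p ∈ P, ∃ q ∈ P, up (p • z) y ∧ dualU up (q • z) y)
    (az : Axial up P z) (mv : ∃ p ∈ P, p • z ≠ z) :
    (∀ q ∈ P, up (q • z) y) ∨ ∀ q ∈ P, dualU up (q • z) y := by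
  obtain ⟨t, ht, tz⟩ := h.ax_move az mv
  by_cases a : ∃ p ∈ P, up (p • z) y
  · obtain ⟨p, hp, a⟩ := a
    refine Or.inl fun q hq => ?_
    have l : Lt up (q • z) ((q * t) • z) := by
      rw [mul_smul]
      exact (h.lt_smul q).2 tz
    by_cases b : up ((q * t) • z) y
    · exact h.lt_up l b
    · by_cases e : (q * t) • z = y
      · exact e ▸ l.1
      · exact (n ⟨p, hp, q * t, P.mul_mem hq ht, a, b, e⟩).elim
  · refine Or.inr fun q hq => ⟨fun b => a ⟨q, hq, b⟩, fun e => a ⟨q * t⁻¹,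
      P.mul_mem hq (P.inv_mem ht), ?_⟩⟩
    rw [← e, mul_smul, h.ups_iff]
    simpa using ((h.lt_smul t⁻¹).2 tz).1

variable {Z : Set G} (hZ : Cone P Z)
include hP hZ

theorem up_far {z : X} (u : ∀ a ∈ Z, Lt up z (a • z)) {a p q : G} (ha : a ∈ Z) (hp : p ∈ P)
    (hq : q ∈ P) : ∃ N : ℕ, Lt up (q • z) (a ^ (N + 1) • p • z) := by
  obtain ⟨N, k⟩ := hZ.arch a ha (p * q⁻¹) (P.mul_mem hp (P.inv_mem hq))
  have l := (h.lt_smul q).2 (u _ (hZ.mul _ ha _ k))
  refine ⟨N, ?_⟩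
  have aP := hZ.sub a ha
  rw [← mul_smul, hP q hq _ (hZ.sub _ (hZ.mul _ ha _ k)), ← mul_assoc, ← pow_succ', mul_assoc,
    mul_assoc, inv_mul_cancel, mul_one, mul_smul] at l
  exact l

theorem up_axial {z : X} (u : ∀ a ∈ Z, Lt up z (a • z)) (ne : Z.Nonempty) : Axial up P z := by
  intro p hp
  obtain ⟨a, ha⟩ := ne
  have aP := hZ.sub a ha
  obtain ⟨N, k⟩ := h.up_far hP hZ u ha hp P.one_mem
  rw [one_smul] at k
  have k1 := u _ (hZ.pow ha N)
  have c : ∀ g ∈ P, a ^ (N + 1) • g • z = g • a ^ (N + 1) • z := fun g hg => by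
    rw [← mul_smul, hP _ (P.pow_mem aP _) g hg, mul_smul]
  have l1 : Le up (a ^ (N + 1) • z) (a ^ (N + 1) • a ^ (N + 1) • p • z) :=
    Or.inr ((h.lt_smul _).2 k)
  have l2 : Le up (a ^ (N + 1) • p • z) (a ^ (N + 1) • a ^ (N + 1) • p • z) := by
    rw [h.le_smul, c p hp]
    exact Or.inr ((h.lt_smul _).2 k1)
  have := h.le_total' (Or.inr k1) (Or.inr k) l1 l2
  rwa [h.le_smul, h.le_smul] at this

/-- No bad point between two points of a good orbit. -/
theorem band_up {z y : X} (u : ∀ a ∈ Z, Lt up z (a • z)) {p q a b : G} (hp : p ∈ P) (hq : q ∈ P)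
    (y1 : up (p • z) y) (y2 : dualU up (q • z) y) (ha : a ∈ Z) (hb : b ∈ Z) :
    ¬ Bad up a b y := by
  have far : ∀ a ∈ Z, ∃ N : ℕ, up (q • z) (a ^ (N + 1) • y) := fun a ha =>
    let ⟨N, k⟩ := h.up_far hP hZ u ha hp hq
    ⟨N, h.lt_up k (h.ups _ _ _ y1)⟩
  obtain ⟨N, k1⟩ := far a ha
  obtain ⟨M, k2⟩ := far b hb
  have e1 := h.sep y2.1 y2.2.symm (Or.inl k1)
  have e2 := h.sep y2.1 y2.2.symm (Or.inl k2)
  have n1 : a ^ (N + 1) • y ≠ y := fun e => y2.1 (e ▸ k1)
  rintro (⟨l1, l2⟩ | ⟨l1, l2⟩)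
  · exact (h.gt_pow l2 M).2 (e2.2 (e1.1 ((h.le_pow l1 (N + 1)).resolve_left n1.symm).1))
  · exact ((h.ge_pow l1 (N + 1)).resolve_left n1).2 (e1.2 (e2.1 (h.lt_pow l2 M).1))

omit hP in
theorem bad_ind {y : X} {a b : G} (ha : a ∈ Z) (hb : b ∈ Z) (k : Bad up a b y) : ¬ Dep a b := by
  intro d
  obtain ⟨m, n, e⟩ := hZ.dep ha hb d
  rcases k with ⟨l1, l2⟩ | ⟨l1, l2⟩
  · exact h.lt_irr _ (h.le_lt (e ▸ h.le_pow l1 (m + 1)) (h.gt_pow l2 n))
  · exact h.lt_irr _ (h.lt_le (h.lt_pow l2 n) (e ▸ h.ge_pow l1 (m + 1)))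

/-- A bad point beside a good orbit forces a common fixed point. -/
theorem bad_fix {z y : X} (u : ∀ a ∈ Z, Lt up z (a • z)) {a b : G} (ha : a ∈ Z) (hb : b ∈ Z)
    (k : Bad up a b y) : ∃ f : X, a • f = f ∧ b • f = f := by
  have az := h.up_axial hP hZ u ⟨a, ha⟩
  have mv : ∃ p ∈ P, p • z ≠ z := ⟨a, hZ.sub a ha, fun e => h.lt_irr z (by simpa [e] using u a ha)⟩
  have ca : Le up y (a • y) ∨ Le up (a • y) y := k.imp And.left And.left
  have cb : Le up y (b • y) ∨ Le up (b • y) y :=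
    k.elim (fun l => Or.inr (Or.inr l.2)) fun l => Or.inl (Or.inr l.2)
  rcases h.out_or (fun ⟨p, hp, q, hq, y1, y2⟩ => h.band_up hP hZ u hp hq y1 y2 ha hb k) az mv
    with o | o
  · obtain ⟨ν, n1, n2, -⟩ := h.top az mv o
    exact ⟨ν, h.sym (n1 a (hZ.sub a ha)) n2 ca, h.sym (n1 b (hZ.sub b hb)) n2 cb⟩
  · obtain ⟨ν, n1, n2, -⟩ := h.dual.top ((h.axial_dual P z).2 az) mv o
    simp only [← h.le_dual y, ← h.le_dual _ y] at ca cb
    exact ⟨ν, h.dual.sym (n1 a (hZ.sub a ha)) n2 ca.symm,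
      h.dual.sym (n1 b (hZ.sub b hb)) n2 cb.symm⟩

omit hP hZ in
/-- Bad points accumulate at a common fixed point. -/
theorem bad_acc {y f : X} {a b : G} (ab : a * b = b * a) (fa : a • f = f) (fb : b • f = f)
    (k : Bad up a b y) : ∃ ν : X, a • ν = ν ∧ b • ν = ν ∧
      ∀ c ∈ C, ∀ s, c s = ν → ∃ᶠ u in 𝓝[≠] s, Bad up a b (c u) := by
  let Q := Subgroup.closure ({a, b} : Set G)
  have aQ : a ∈ Q := Subgroup.subset_closure (Or.inl rfl)
  have bQ : b ∈ Q := Subgroup.subset_closure (Or.inr rfl)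
  have c1 : ∀ q ∈ Q, a * q = q * a ∧ b * q = q * b := fun q hq => by
    have : Q ≤ Subgroup.centralizer {a, b} := (Subgroup.closure_le _).2 (by
      rintro x (rfl | rfl) y (rfl | rfl)
      exacts [rfl, ab.symm, ab, rfl])
    exact ⟨this hq a (Or.inl rfl), this hq b (Or.inr rfl)⟩
  have hQ : ∀ p ∈ Q, ∀ q ∈ Q, p * q = q * p := fun p hp q hq => by
    have : Q ≤ Subgroup.centralizer {q} := (Subgroup.closure_le _).2 (by
      rintro x (rfl | rfl) y rfl
      exacts [(c1 _ hq).1.symm, (c1 _ hq).2.symm])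
    exact (this hp q rfl).symm
  have fQ : ∀ q ∈ Q, q • f = f := fun q hq =>
    (Subgroup.closure_le (MulAction.stabilizer G f)).2 (by
      rintro x (rfl | rfl)
      exacts [fa, fb]) hq
  have ay : Axial up Q y := h.ax_gen hQ rfl (by
    rintro x (rfl | rfl)
    · exact k.imp And.left And.left
    · exact k.elim (fun l => Or.inr (Or.inr l.2)) fun l => Or.inl (Or.inr l.2))
  have mv : ∃ p ∈ Q, p • y ≠ y := ⟨b, bQ, fun e => h.lt_irr y (by
    rcases k with l | l <;> simpa [e] using l.2)⟩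
  have bd : ∀ q ∈ Q, Bad up a b (q • y) := fun q hq => h.bad_smul (c1 q hq).1 (c1 q hq).2 k
  have nb : ¬ ∃ p ∈ Q, ∃ q ∈ Q, up (p • y) f ∧ dualU up (q • y) f := by
    rintro ⟨p, hp, q, hq, l1, l2⟩
    have := h.ups (q * p⁻¹) _ _ l1
    rw [fQ _ (Q.mul_mem hq (Q.inv_mem hp)), mul_smul, inv_smul_smul] at this
    exact l2.1 this
  rcases h.out_or nb ay mv with o | o
  · obtain ⟨ν, n1, n2, n3⟩ := h.top ay mv o
    refine ⟨ν, h.sym (n1 a aQ) n2 (Or.inl (Or.inl fa.symm)),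
      h.sym (n1 b bQ) n2 (Or.inl (Or.inl fb.symm)), fun c hc s e => ?_⟩
    exact ((n3 c hc s e).mono fun u ⟨q, hq, l⟩ => l ▸ bd q hq).filter_mono (nhdsLT_le_nhdsNE s)
  · obtain ⟨ν, n1, n2, n3⟩ := h.dual.top ((h.axial_dual Q y).2 ay) mv o
    refine ⟨ν, h.dual.sym (n1 a aQ) n2 (Or.inl (Or.inl fa.symm)),
      h.dual.sym (n1 b bQ) n2 (Or.inl (Or.inl fb.symm)), fun c hc s e => ?_⟩
    have l := (n3 _ (oc_neg hc) (-s) (by simpa only [neg_neg] using e)).mono
      fun u ⟨q, hq, l⟩ => (l ▸ bd q hq : Bad up a b (c (-u)))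
    have t : Tendsto (fun u : ℝ => -u) (𝓝[<] (-s)) (𝓝[≠] s) := by
      refine tendsto_nhdsWithin_iff.2 ⟨?_, ?_⟩
      · have := (continuous_neg.tendsto (-s)).mono_left (nhdsWithin_le_nhds (s := Iio (-s)))
        rwa [neg_neg] at this
      · filter_upwards [self_mem_nhdsWithin] with u hu
        have : u < -s := hu
        exact fun e => by
          have : -u = s := e
          linarith
    exact t.frequently l

/-- Lemma B. -/
theorem lemB (fx : FixAll X P) (g : (∃ z, ∀ a ∈ Z, Lt up z (a • z)) ∨ ∃ f : X, ∀ p ∈ P, p • f = f)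
    {y : X} {a b : G} (ha : a ∈ Z) (hb : b ∈ Z) (k : Bad up a b y) :
    ∃ ν : X, (∀ p ∈ P, p • ν = ν) ∧
      ∀ c ∈ C, ∀ s, c s = ν → ∃ᶠ u in 𝓝[≠] s, Bad up a b (c u) := by
  have aP := hZ.sub a ha
  have bP := hZ.sub b hb
  obtain ⟨f, fa, fb⟩ : ∃ f : X, a • f = f ∧ b • f = f := by
    rcases g with ⟨z, u⟩ | ⟨f, u⟩
    · exact h.bad_fix hP hZ u ha hb k
    · exact ⟨f, u a aP, u b bP⟩
  obtain ⟨ν, n1, n2, n3⟩ := h.bad_acc (hP a aP b bP) fa fb k
  exact ⟨ν, fx ν a aP b bP n1 n2 (h.bad_ind hZ ha hb k), n3⟩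

/-- No bad points when stabilisers have rank one. -/
theorem lemB1 (rk : ∀ ν : X, ∀ a ∈ P, ∀ b ∈ P, a • ν = ν → b • ν = ν → Dep a b) {z : X}
    (u : ∀ a ∈ Z, Lt up z (a • z)) {a b : G} (ha : a ∈ Z) (hb : b ∈ Z) (y : X) :
    ¬ Bad up a b y := fun k =>
  let ⟨f, fa, fb⟩ := h.bad_fix hP hZ u ha hb k
  h.bad_ind hZ ha hb k (rk f a (hZ.sub a ha) b (hZ.sub b hb) fa fb)

end Om

end Pool.Agent.Work.MP_3d425c_gt.To
end

-- merged part: Pool.Agent.Work.MP_3d425c_gt.To.R0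
section
/-! Definitions for the relative theorem: groups with centralisers of rank at most two, class
functions, moves by an abelian group, and the extra invariants of a fold. -/

namespace Pool.Agent.Work.MP_3d425c_gt.To
open Set Filter Topology Pool.Agent.Work.MP_3d425c_gt.Cy

section Grp
variable {G : Type*} [Group G]

/-- Torsion-free, centralisers of rank one or two, malnormal. -/
structure Hy (G : Type*) [Group G] : Prop where
  tf : ∀ a : G, a ≠ 1 → ¬ IsOfFinOrder a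
  cent : ∀ a : G, a ≠ 1 → IsCyclic (Subgroup.centralizer ({a} : Set G)) ∨
    Nonempty (Subgroup.centralizer ({a} : Set G) ≃* Multiplicative (ℤ × ℤ))
  mn : ∀ a g : G, a ≠ 1 → g * a * g⁻¹ * a = a * (g * a * g⁻¹) → g * a = a * g

/-- A class function that is additive on commuting pairs. -/
structure Cf (s : G → ℝ) : Prop where
  conj : ∀ g a, s (g * a * g⁻¹) = s a
  add : ∀ a b, a * b = b * a → s (a * b) = s a + s b

/-- A slope function: it vanishes on centralisers of rank one. -/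
structure Sp (s : G → ℝ) : Prop where
  cf : Cf s
  two : ∀ a, s a ≠ 0 → ∃ b, b * a = a * b ∧ ¬ Dep a b

/-- A class function without zeros. -/
structure Sj (S : G → ℝ) : Prop where
  cf : Cf S
  inj : ∀ a, S a = 0 → a = 1

def Pos (s S : G → ℝ) (a : G) : Prop := 0 < s a ∧ 0 < S a

/-- Enough characters on subgroups of infinite index. -/
def Bg2 (G : Type*) [Group G] : Prop :=
  ∀ S : G → ℝ, Cf S → ∀ E : Subgroup G, E.FG → (∀ a ∈ E, ∀ b ∈ E, a * b = b * a) ∨
    E.FiniteIndex ∨ ∀ κ ∈ E, ∃ χ : G → ℝ, (∀ a ∈ E, ∀ b ∈ E, χ (a * b) = χ a + χ b) ∧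
      (∃ a ∈ E, χ a ≠ 0) ∧ χ κ = 0 ∧ ∀ a ∈ E, ∀ b ∈ E, a * b = b * a → χ a * S b = χ b * S a

/-- A left order in which commuting elements of `Q` move each element to the same side. -/
def LO (Q : G → Prop) : Prop :=
  ∃ r : G → G → Prop, IsStrictTotalOrder G r ∧ (∀ a b c, r a b ↔ r (c * a) (c * b)) ∧
    ∀ x a b, Q a → Q b → a * b = b * a → r x (a * x) → r x (b * x)

/-- An action of `Γ` on the unit interval in which `τ` acts by `T` and the elements with
positive `θ` move points like `T`. -/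
structure Mv (Γ : Subgroup G) (τ : G) (T : II ≃o II) (θ : G → ℝ) (ρ : G → II ≃o II) : Prop where
  mul : ∀ a ∈ Γ, ∀ b ∈ Γ, ρ (a * b) = ρ a * ρ b
  tau : ρ τ = T
  sgn : ∀ a ∈ Γ, 0 < θ a → ∀ t,
    (T t = t → ρ a t = t) ∧ (t < T t → t < ρ a t) ∧ (T t < t → ρ a t < t)

inductive Rl (O : G → II → II → Prop) (Γ : Subgroup G) (ρ : G → II ≃o II) : G → II → II → Prop
  | arr {b s t} : O b s t → Rl O Γ ρ b s t
  | mv {γ s} : γ ∈ Γ → s < 1 → Rl O Γ ρ γ s (ρ γ s)
  | comp {a b s t u} : Rl O Γ ρ a s t → Rl O Γ ρ b t u → Rl O Γ ρ (b * a) s u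

theorem Hy.zinj (h : Hy G) {g : G} (hg : g ≠ 1) {i j : ℤ} (e : g ^ i = g ^ j) : i = j :=
  injective_zpow_iff_not_isOfFinOrder.mpr (h.tf g hg) e

theorem Hy.zne (h : Hy G) {g : G} (hg : g ≠ 1) {i : ℤ} (hi : i ≠ 0) : g ^ i ≠ 1 := fun e =>
  hi (h.zinj hg (e.trans (zpow_zero g).symm))

/-- Commutation is transitive through nontrivial elements. -/
theorem Hy.ct (h : Hy G) {a b c : G} (hb : b ≠ 1) (h1 : a * b = b * a) (h2 : c * b = b * c) :
    a * c = c * a := by
  have k : ∀ x y : Subgroup.centralizer ({b} : Set G), x * y = y * x := by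
    rcases h.cent b hb with k | ⟨⟨e⟩⟩
    · exact fun x y => k.commGroup.mul_comm x y
    · exact fun x y => e.injective (by rw [map_mul, map_mul, mul_comm])
  exact congrArg Subtype.val (k ⟨a, Subgroup.mem_centralizer_singleton_iff.2 h1⟩
    ⟨c, Subgroup.mem_centralizer_singleton_iff.2 h2⟩)

theorem Dep.symm {a b : G} (k : Dep a b) : Dep b a :=
  let ⟨m, n, h1, h2⟩ := k
  ⟨n, m, fun e => h1 e.symm, h2.symm⟩

theorem dep_one (a : G) : Dep a 1 := ⟨0, 1, by simp, by simp⟩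

theorem dep_self (a : G) : Dep a a := ⟨1, 1, by simp, rfl⟩

theorem ne_one_of_not_dep {a b : G} (k : ¬ Dep a b) : a ≠ 1 ∧ b ≠ 1 :=
  ⟨fun e => k (e ▸ (dep_one b).symm), fun e => k (e ▸ dep_one a)⟩

theorem Dep.conj {a b : G} (k : Dep a b) (c : G) : Dep (c * a * c⁻¹) (c * b * c⁻¹) :=
  let ⟨m, n, h1, h2⟩ := k
  ⟨m, n, h1, by rw [conj_zpow, conj_zpow, h2]⟩

theorem dep_conj {a b : G} (c : G) : Dep (c * a * c⁻¹) (c * b * c⁻¹) ↔ Dep a b :=
  ⟨fun k => by simpa [mul_assoc] using k.conj c⁻¹, fun k => k.conj c⟩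

/-- For nontrivial elements both exponents are nonzero. -/
theorem Hy.dep_ne (h : Hy G) {a b : G} (ha : a ≠ 1) (hb : b ≠ 1) (k : Dep a b) :
    ∃ m n : ℤ, m ≠ 0 ∧ n ≠ 0 ∧ a ^ m = b ^ n := by
  obtain ⟨m, n, h1, h2⟩ := k
  refine ⟨m, n, fun e => ?_, fun e => ?_, h2⟩
  · rw [e, zpow_zero] at h2
    exact h.zne hb (fun k => h1 ⟨e, k⟩) h2.symm
  · rw [e, zpow_zero] at h2
    exact h.zne ha (fun k => h1 ⟨k, e⟩) h2

theorem Hy.dep_comm (h : Hy G) {a b : G} (k : Dep a b) : a * b = b * a := by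
  by_cases ha : a = 1
  · simp [ha]
  by_cases hb : b = 1
  · simp [hb]
  obtain ⟨m, n, h1, -, h2⟩ := h.dep_ne ha hb k
  exact h.ct (h.zne ha h1) (Commute.self_zpow a m).eq (h2 ▸ (Commute.self_zpow b n).eq)

theorem Hy.dep_trans (h : Hy G) {a b c : G} (hb : b ≠ 1) (k : Dep a b) (l : Dep b c) :
    Dep a c := by
  by_cases ha : a = 1
  · exact ha ▸ (dep_one c).symm
  by_cases hc : c = 1
  · exact hc ▸ dep_one a
  obtain ⟨m, n, h1, -, h2⟩ := h.dep_ne ha hb k
  obtain ⟨m', n', h3, -, h4⟩ := h.dep_ne hb hc l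
  exact ⟨m * m', n' * n, fun e => mul_ne_zero h1 h3 e.1, by
    rw [zpow_mul, h2, zpow_mul, ← h4, ← zpow_mul, ← zpow_mul, mul_comm]⟩

theorem Cf.one {s : G → ℝ} (h : Cf s) : s 1 = 0 := by
  have := h.add 1 1 rfl
  rw [mul_one] at this
  linarith

theorem Cf.inv {s : G → ℝ} (h : Cf s) (a : G) : s a⁻¹ = -s a := by
  have := h.add a a⁻¹ (by simp)
  rw [mul_inv_cancel, h.one] at this
  linarith

theorem Cf.zpow {s : G → ℝ} (h : Cf s) (a : G) (n : ℤ) : s (a ^ n) = n * s a := by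
  induction n using Int.induction_on with
  | zero => simp [h.one]
  | succ n ih =>
    rw [zpow_add_one, h.add _ _ (Commute.self_zpow a n).eq.symm, ih]
    push_cast
    ring
  | pred n ih =>
    rw [zpow_sub_one, h.add _ _ ((Commute.self_zpow a _).symm.inv_right).eq, ih, h.inv]
    push_cast
    ring

theorem Cf.neg {s : G → ℝ} (h : Cf s) : Cf fun a => -s a :=
  ⟨fun g a => by rw [h.conj], fun a b k => by rw [h.add a b k]; ring⟩

theorem Sp.neg {s : G → ℝ} (h : Sp s) : Sp fun a => -s a :=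
  ⟨h.cf.neg, fun a k => h.two a (neg_ne_zero.1 k)⟩

theorem Sj.neg {S : G → ℝ} (h : Sj S) : Sj fun a => -S a :=
  ⟨h.cf.neg, fun a k => h.inj a (neg_eq_zero.1 k)⟩

end Grp

variable {G X : Type*} [Group G] [MulAction G X]

/-- The extra invariants of a fold. -/
structure Ex (s S : G → ℝ) (β : G → X) (r up : X → X → Prop) : Prop where
  z : ∀ x (a b p : G), r (a • x) x → r (b • x) x → ¬ Dep a b → p * a = a * p → r (p • x) x
  d : ∀ a p : G, 0 < s a → p * a = a * p → 0 < s p → Lt up (β a) (p • β a)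
  sg : ∀ (a b : G) x, Pos s S a → Pos s S b → a * b = b * a →
    (r (a • x) x ∨ Lt up x (a • x) → ¬ Lt up (b • x) x) ∧
      (r (a • x) x ∨ Lt up (a • x) x → ¬ Lt up x (b • x))

/-- An object with all invariants. -/
structure Ob (C : Set (ℝ → X)) (up : X → X → Prop) (s S : G → ℝ) (β : G → X) : Prop where
  om : Om G C up
  good : Good G C Eq up
  ex : Ex s S β Eq up

/-- Stabilisers are full in the stabilisers of classes. -/
def Mx (G : Type*) [Group G] [MulAction G X] (E : X → X → Prop) : Prop :=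
  ∀ (μ : X) (κ g : G), κ ≠ 1 → κ • μ = μ → g * κ = κ * g → E (g • μ) μ → g • μ = μ

/-- The order of the classes does not separate commuting elements with positive `S`. -/
def Pr (S : G → ℝ) (E lo : X → X → Prop) : Prop :=
  ∀ (ν : X) (a b : G), 0 < S a → 0 < S b → a * b = b * a → E (a • ν) ν → E (b • ν) ν →
    lo ν (a • ν) → lo ν (b • ν)

/-- A subgroup of finite index keeps a class. -/
def Fi (G : Type*) [Group G] [MulAction G X] (E : X → X → Prop) : Prop :=
  ∃ (μ : X) (H : Subgroup G), H.FiniteIndex ∧ ∀ g ∈ H, E (g • μ) μ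

end Pool.Agent.Work.MP_3d425c_gt.To
end

-- merged part: Pool.Agent.Work.MP_3d425c_gt.To.RGrp
section
/-! Group theory for the relative theorem. -/

namespace Pool.Agent.Work.MP_3d425c_gt.To
open Set Filter Topology Pool.Agent.Work.MP_3d425c_gt.Cy

variable {G X : Type*} [Group G] [MulAction G X]

/-- Centralisers are finitely generated. -/
theorem Hy.fg (h : Hy G) {a : G} (ha : a ≠ 1) :
    ∃ S : Set G, S.Finite ∧ Subgroup.closure S = Subgroup.centralizer ({a} : Set G) := by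
  have k : Group.FG (Subgroup.centralizer ({a} : Set G)) := by
    rcases h.cent a ha with k | ⟨⟨e⟩⟩
    · obtain ⟨g, hg⟩ := k.exists_generator
      refine Group.fg_iff.2 ⟨{g}, ?_, finite_singleton g⟩
      rw [← Subgroup.zpowers_eq_closure, eq_top_iff]
      exact fun x _ => hg x
    · exact Group.fg_of_surjective (f := e.symm.toMonoidHom) e.symm.surjective
  obtain ⟨S, h1, h2⟩ := (Subgroup.fg_iff _).1 ((Group.fg_iff_subgroup_fg _).1 k)
  exact ⟨S, h2, h1⟩

/-- Integer coordinates on a centraliser. -/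
theorem Hy.coord (h : Hy G) {a : G} (ha : a ≠ 1) : ∃ φ : G → ℤ × ℤ,
    (∀ x y, x * a = a * x → y * a = a * y → φ (x * y) = φ x + φ y) ∧
      ∀ x y, x * a = a * x → y * a = a * y → φ x = φ y → x = y := by
  classical
  obtain ⟨f, hf⟩ : ∃ f : Subgroup.centralizer ({a} : Set G) →* Multiplicative (ℤ × ℤ),
      Function.Injective f := by
    rcases h.cent a ha with k | ⟨⟨e⟩⟩
    · obtain ⟨g, hg⟩ := k.exists_generator
      have g1 : (g : G) ≠ 1 := fun e => by
        obtain ⟨n, hn⟩ := hg ⟨a, Subgroup.mem_centralizer_singleton_iff.2 rfl⟩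
        have := congrArg Subtype.val hn
        simp only [SubgroupClass.coe_zpow, e, one_zpow] at this
        exact ha this.symm
      have b : Function.Bijective (zpowersHom _ g) := by
        refine ⟨fun i j e => ?_, fun x => ?_⟩
        · have := congrArg Subtype.val e
          simp only [zpowersHom_apply, SubgroupClass.coe_zpow] at this
          exact Multiplicative.toAdd.injective (h.zinj g1 this)
        · obtain ⟨n, hn⟩ := hg x
          exact ⟨Multiplicative.ofAdd n, hn⟩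
      refine ⟨(AddMonoidHom.toMultiplicative (AddMonoidHom.inl ℤ ℤ)).comp
        (MulEquiv.ofBijective _ b).symm.toMonoidHom, fun x y e => ?_⟩
      refine (MulEquiv.ofBijective _ b).symm.injective ?_
      exact Multiplicative.toAdd.injective (congrArg (fun z => (Multiplicative.toAdd z).1) e)
    · exact ⟨e.toMonoidHom, e.injective⟩
  refine ⟨fun x => if k : x * a = a * x then
    (f ⟨x, Subgroup.mem_centralizer_singleton_iff.2 k⟩).toAdd else 0, fun x y hx hy => ?_,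
    fun x y hx hy e => ?_⟩
  · have hxy : x * y * a = a * (x * y) := by rw [mul_assoc, hy, ← mul_assoc, hx, mul_assoc]
    simp only [dif_pos hx, dif_pos hy, dif_pos hxy]
    rw [← toAdd_mul, ← map_mul]
    rfl
  · simp only [dif_pos hx, dif_pos hy] at e
    exact congrArg Subtype.val (hf (Multiplicative.toAdd.injective e))

theorem cm_zpow {a x : G} (hx : x * a = a * x) (n : ℤ) : x ^ n * a = a * x ^ n :=
  (Commute.zpow_left (show Commute x a from hx) n).eq

theorem cm_mul {a x y : G} (hx : x * a = a * x) (hy : y * a = a * y) :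
    x * y * a = a * (x * y) :=
  (Commute.mul_left (show Commute x a from hx) (show Commute y a from hy)).eq

theorem coord_zpow {A : Type*} [AddCommGroup A] {a : G} {φ : G → A}
    (h1 : ∀ x y, x * a = a * x → y * a = a * y → φ (x * y) = φ x + φ y) {x : G}
    (hx : x * a = a * x) (n : ℤ) : φ (x ^ n) = n • φ x := by
  have h0 : φ 1 = 0 := by
    have := h1 1 1 (by simp) (by simp)
    rw [mul_one] at this
    simpa using this
  have hi : φ x⁻¹ = -φ x := by
    have := h1 x x⁻¹ hx (by simpa using cm_zpow hx (-1))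
    rw [mul_inv_cancel, h0] at this
    exact eq_neg_of_add_eq_zero_right this.symm
  induction n using Int.induction_on with
  | zero => simp [h0]
  | succ n ih => rw [zpow_add_one, h1 _ _ (cm_zpow hx _) hx, ih, add_zsmul, one_zsmul]
  | pred n ih =>
    rw [zpow_sub_one, h1 _ _ (cm_zpow hx _) (by simpa using cm_zpow hx (-1)), ih, hi, sub_zsmul,
      one_zsmul]

/-- A subgroup of pairwise dependent elements is cyclic. -/
theorem Hy.cyc (h : Hy G) (K : Subgroup G) (k : ∀ a ∈ K, ∀ b ∈ K, Dep a b) :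
    ∃ τ ∈ K, ∀ γ ∈ K, ∃ n : ℤ, γ = τ ^ n := by
  by_cases e : ∀ a ∈ K, a = 1
  · exact ⟨1, K.one_mem, fun γ hγ => ⟨0, by rw [e γ hγ, zpow_zero]⟩⟩
  push Not at e
  obtain ⟨a, ha, a1⟩ := e
  obtain ⟨φ, h1, h2⟩ := h.coord a1
  have c : ∀ b ∈ K, b * a = a * b := fun b hb => h.dep_comm (k b hb a ha)
  have h0 : φ 1 = 0 := by simpa using coord_zpow h1 (x := 1) (by simp) 0
  obtain ⟨l, hl⟩ : ∃ l : ℤ × ℤ →+ ℤ, l (φ a) ≠ 0 := by
    by_contra n
    push Not at n
    exact a1 (h2 a 1 rfl (by simp)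
      (h0 ▸ Prod.ext (n (AddMonoidHom.fst ℤ ℤ)) (n (AddMonoidHom.snd ℤ ℤ))))
  let f : K →* Multiplicative ℤ := MonoidHom.mk' (fun x => Multiplicative.ofAdd (l (φ x)))
    fun x y => by rw [← ofAdd_add, ← map_add, ← h1 _ _ (c _ x.2) (c _ y.2)]; rfl
  have hf : Function.Injective f := by
    refine (injective_iff_map_eq_one f).2 fun b hb => ?_
    by_contra n
    obtain ⟨m, n, m0, -, e⟩ := h.dep_ne a1 (fun e => n (Subtype.ext e)) (k a ha b b.2)
    have e2 := congrArg (fun z => l (φ z)) e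
    have hb' : l (φ b) = 0 := congrArg Multiplicative.toAdd hb
    simp only [coord_zpow h1 (rfl : a * a = a * a), coord_zpow h1 (c _ b.2), map_zsmul, hb',
      smul_eq_mul, mul_zero] at e2
    exact mul_ne_zero m0 hl e2
  have : IsCyclic K := isCyclic_of_surjective (MonoidHom.ofInjective hf).symm
    (MonoidHom.ofInjective hf).symm.surjective
  obtain ⟨g, hg⟩ := this.exists_generator
  refine ⟨g, g.2, fun γ hγ => ?_⟩
  obtain ⟨n, hn⟩ := hg ⟨γ, hγ⟩
  exact ⟨n, (congrArg Subtype.val hn).symm⟩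

/-- Rank two: two independent elements generate a subgroup of finite index of the centraliser. -/
theorem Hy.rank (h : Hy G) {a b p : G} (hab : a * b = b * a) (k : ¬ Dep a b)
    (hp : p * a = a * p) : ∃ n i j : ℤ, 0 < n ∧ p ^ n = a ^ i * b ^ j := by
  have a1 := (ne_one_of_not_dep k).1
  obtain ⟨φ, h1, h2⟩ := h.coord a1
  have aa : a * a = a * a := rfl
  have h0 : φ 1 = 0 := by simpa using coord_zpow h1 (x := 1) (by simp) 0
  have d : (φ a).1 * (φ b).2 - (φ a).2 * (φ b).1 ≠ 0 := fun d => by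
    have q : ∀ m n : ℤ, m • φ a = n • φ b → m = 0 ∧ n = 0 := fun m n e => by
      by_contra c
      refine k ⟨m, n, c, h2 _ _ (cm_zpow aa m) (cm_zpow hab.symm n) ?_⟩
      rw [coord_zpow h1 aa, coord_zpow h1 hab.symm, e]
    have q1 := (q (φ b).1 (φ a).1 (Prod.ext (by simp [mul_comm]) (by simp; linarith))).2
    have q2 := (q (φ b).2 (φ a).2 (Prod.ext (by simp; linarith) (by simp [mul_comm]))).2
    exact a1 (h2 a 1 aa (by simp) (h0 ▸ Prod.ext q1 q2))
  refine ⟨((φ a).1 * (φ b).2 - (φ a).2 * (φ b).1) ^ 2,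
    ((φ a).1 * (φ b).2 - (φ a).2 * (φ b).1) * ((φ p).1 * (φ b).2 - (φ p).2 * (φ b).1),
    ((φ a).1 * (φ b).2 - (φ a).2 * (φ b).1) * ((φ a).1 * (φ p).2 - (φ a).2 * (φ p).1),
    by positivity, h2 _ _ (cm_zpow hp _) (cm_mul (cm_zpow aa _) (cm_zpow hab.symm _)) ?_⟩
  rw [h1 _ _ (cm_zpow aa _) (cm_zpow hab.symm _), coord_zpow h1 hp, coord_zpow h1 aa,
    coord_zpow h1 hab.symm]
  refine Prod.ext ?_ ?_ <;> simp only [Prod.smul_fst, Prod.smul_snd, Prod.fst_add, Prod.snd_add,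
    smul_eq_mul] <;> ring

/-- An injective real character of a centraliser. -/
theorem Hy.char (h : Hy G) {a : G} (ha : a ≠ 1) : ∃ ψ : G → ℝ,
    (∀ x y, x * a = a * x → y * a = a * y → ψ (x * y) = ψ x + ψ y) ∧
      ∀ x, x * a = a * x → ψ x = 0 → x = 1 := by
  obtain ⟨φ, h1, h2⟩ := h.coord ha
  have h0 : φ 1 = 0 := by simpa using coord_zpow h1 (x := 1) (by simp) 0
  refine ⟨fun x => (φ x).1 + (φ x).2 * √2, fun x y hx hy => ?_, fun x hx e => ?_⟩
  · simp only [h1 x y hx hy, Prod.fst_add, Prod.snd_add]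
    push_cast
    ring
  · have q : (φ x).2 = 0 := by
      by_contra n
      exact ((irrational_sqrt_two.intCast_mul n).intCast_add (φ x).1).ne_zero e
    have q1 : (φ x).1 = 0 := by simpa [q] using e
    exact h2 x 1 hx (by simp) (h0 ▸ Prod.ext q1 q)

/-- A class function without zeros. -/
theorem Hy.sj (h : Hy G) : ∃ S : G → ℝ, Sj S := by
  classical
  let R : G → G → Prop := fun a r => r ≠ 1 ∧ ∃ g, g * a * g⁻¹ * r = r * (g * a * g⁻¹)
  let ρ : G → G := fun a => Classical.epsilon (R a)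
  have hρ : ∀ a, a ≠ 1 → R a (ρ a) := fun a ha =>
    Classical.epsilon_spec (p := R a) ⟨a, ha, 1, by simp⟩
  have cj : ∀ g a : G, a ≠ 1 → g * a * g⁻¹ ≠ 1 := fun g a ha e => ha (by simpa using e)
  have cc : ∀ g a b : G, b * a = a * b →
      g * b * g⁻¹ * (g * a * g⁻¹) = g * a * g⁻¹ * (g * b * g⁻¹) := fun g a b e => by
    rw [conj_mul, conj_mul, e]
  have r1 : ∀ a b r, a ≠ 1 → b * a = a * b → R a r → R b r := fun a b r ha e k =>
    let ⟨k1, g, k2⟩ := k
    ⟨k1, g, h.ct (cj g a ha) (cc g a b e) k2.symm⟩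
  have e1 : ∀ a b, a ≠ 1 → b ≠ 1 → b * a = a * b → ρ b = ρ a := fun a b ha hb e =>
    congrArg Classical.epsilon
      (funext fun r => propext ⟨r1 b a r hb e.symm, r1 a b r ha e⟩)
  have r2 : ∀ a c r, R (c * a * c⁻¹) r → R a r := fun a c r k =>
    let ⟨k1, g, k2⟩ := k
    ⟨k1, g * c, by simpa [mul_assoc] using k2⟩
  have e2 : ∀ a c, ρ (c * a * c⁻¹) = ρ a := fun a c =>
    congrArg Classical.epsilon (funext fun r => propext
      ⟨r2 a c r, fun k => r2 _ c⁻¹ r (by simpa [mul_assoc] using k)⟩)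
  have hψ := fun (r : G) (hr : r ≠ 1) => h.char hr
  choose! ψ p1 p2 using hψ
  have hg := fun a ha => (hρ a ha).2
  choose! γ hγ using hg
  let S : G → ℝ := fun a => if a = 1 then 0 else ψ (ρ a) (γ a * a * (γ a)⁻¹)
  have u : ∀ a g, a ≠ 1 → g * a * g⁻¹ * ρ a = ρ a * (g * a * g⁻¹) →
      γ a * a * (γ a)⁻¹ = g * a * g⁻¹ := fun a g ha k => by
    have c := h.ct (hρ a ha).1 (hγ a ha) k
    have e : γ a * a * (γ a)⁻¹ = γ a * g⁻¹ * (g * a * g⁻¹) * (γ a * g⁻¹)⁻¹ := by group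
    have m := h.mn _ (γ a * g⁻¹) (cj g a ha) (by rw [← e]; exact c)
    rw [e, m, mul_inv_cancel_right]
  have key : ∀ a g b, a ≠ 1 → g * a * g⁻¹ * ρ a = ρ a * (g * a * g⁻¹) → b * a = a * b →
      g * b * g⁻¹ * ρ a = ρ a * (g * b * g⁻¹) ∧ S b = ψ (ρ a) (g * b * g⁻¹) := by
    intro a g b ha k e
    have c := h.ct (cj g a ha) (cc g a b e) k.symm
    refine ⟨c, ?_⟩
    by_cases hb : b = 1
    · have := p1 _ (hρ a ha).1 1 1 (by simp) (by simp)
      rw [mul_one] at this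
      simp only [S, hb, if_true, mul_one, mul_inv_cancel]
      linarith
    · simp only [S, if_neg hb]
      rw [u b g hb (by rw [e1 a b ha hb e]; exact c), e1 a b ha hb e]
  refine ⟨S, ⟨fun c a => ?_, fun a b e => ?_⟩, fun a e => ?_⟩
  · by_cases ha : a = 1
    · simp [ha]
    have k := key _ (γ a * c⁻¹) _ (cj c a ha) (by rw [e2]; simpa [mul_assoc] using hγ a ha) rfl
    rw [k.2, e2]
    simp only [S, if_neg ha]
    congr 1
    group
  · by_cases ha : a = 1
    · simp [ha, S]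
    have k1 := key a _ a ha (hγ a ha) rfl
    have k2 := key a _ b ha (hγ a ha) e.symm
    have k3 := key a _ (a * b) ha (hγ a ha) (cm_mul rfl e.symm)
    rw [k3.2, k1.2, k2.2, ← p1 _ (hρ a ha).1 _ _ k1.1 k2.1, conj_mul]
  · by_contra ha
    simp only [S, if_neg ha] at e
    exact cj _ a ha (p2 _ (hρ a ha).1 _ (hγ a ha) e)

/-- A class function without zeros that is positive on a finite set where `s` is positive. -/
theorem exists_S [Countable G] (h : Hy G) {s : G → ℝ} (hs : Cf s) (F : Finset G) :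
    ∃ S, Sj S ∧ ∀ a ∈ F, 0 < s a → 0 < S a := by
  obtain ⟨T, hT⟩ := h.sj
  have e1 : ∀ᶠ ε in 𝓝 (0 : ℝ), ∀ a ∈ F, 0 < s a → 0 < s a + ε * T a := by
    refine (eventually_all_finset F).2 fun a _ => ?_
    by_cases k : 0 < s a
    · have c : Continuous fun ε : ℝ => s a + ε * T a := by fun_prop
      exact (c.continuousAt.eventually (lt_mem_nhds (by simpa using k))).mono fun _ l _ => l
    · exact Eventually.of_forall fun _ l => absurd l k
  have d : Dense (range fun a => -s a / T a)ᶜ := (countable_range _).dense_compl ℝ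
  obtain ⟨ε, h1, h2⟩ := d.inter_nhds_nonempty e1
  refine ⟨fun a => s a + ε * T a, ⟨⟨fun g a => by rw [hs.conj, hT.cf.conj], fun a b e => ?_⟩,
    fun a e => hT.inj a ?_⟩, h2⟩
  · rw [hs.add a b e, hT.cf.add a b e]
    ring
  · by_contra n
    exact h1 ⟨a, by field_simp; linarith⟩

theorem lo_compact [Countable G] (h : Hy G) {s : G → ℝ} (hs : Cf s)
    (k : ∀ S, Sj S → LO (Pos s S)) : LO fun a => 0 < s a := by
  classical
  choose S h1 h2 using exists_S h hs
  choose r r1 r2 r3 using fun F => k _ (h1 F)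
  let U : Ultrafilter (Finset G) := Ultrafilter.of atTop
  have hU : ∀ a : G, ∀ᶠ F in (U : Filter (Finset G)), a ∈ F := fun a =>
    Ultrafilter.of_le atTop ((eventually_ge_atTop {a}).mono fun F l => l (by simp))
  refine ⟨fun x y => ∀ᶠ F in (U : Filter (Finset G)), r F x y, ?_, fun a b c => ?_,
    fun x a b ha hb e l => ?_⟩
  · refine { trichotomous := fun a b l1 l2 => ?_, irrefl := fun a l => ?_, trans := ?_ }
    · obtain ⟨F, q1, q2⟩ := ((Ultrafilter.eventually_not.2 l1).and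
        (Ultrafilter.eventually_not.2 l2)).exists
      exact (r1 F).trichotomous _ _ q1 q2
    · obtain ⟨F, q⟩ := l.exists
      exact (r1 F).irrefl _ q
    · exact fun a b c l1 l2 => (l1.and l2).mono fun F q => (r1 F).trans _ _ _ q.1 q.2
  · exact eventually_congr (Eventually.of_forall fun F => r2 F a b c)
  · exact (l.and ((hU a).and (hU b))).mono fun F q =>
      r3 F x a b ⟨ha, h2 F a q.2.1 ha⟩ ⟨hb, h2 F b q.2.2 hb⟩ e q.1

theorem lo_of_action2 {S : G → ℝ} (hS : Sj S) {Q : G → Prop} (hQ : ∀ a, Q a → 0 < S a)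
    (lt : X → X → Prop) (hlt : IsStrictTotalOrder X lt)
    (hinv : ∀ (g : G) x y, lt x y → lt (g • x) (g • y)) (x : X)
    (hab : ∀ a b : G, a • x = x → b • x = x → a * b = b * a)
    (hdet : ∀ y a b, Q a → Q b → a * b = b * a →
      (lt y (a • y) → lt y (b • y)) ∧ (lt (a • y) y → lt (b • y) y)) : LO Q := by
  have hc : ∀ a b c : G, (lt (a • x) (b • x) ∨ (a • x = b • x ∧ 0 < S (a⁻¹ * b))) →
      lt ((c * a) • x) ((c * b) • x) ∨
        ((c * a) • x = (c * b) • x ∧ 0 < S ((c * a)⁻¹ * (c * b))) := by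
    rintro a b c (h1 | ⟨h1, h2⟩)
    · rw [mul_smul, mul_smul]
      exact Or.inl (hinv c _ _ h1)
    · refine Or.inr ⟨by rw [mul_smul, mul_smul, h1], ?_⟩
      rwa [mul_inv_rev, mul_assoc, inv_mul_cancel_left]
  have fx : ∀ a b : G, a • x = b • x → (a⁻¹ * b) • x = x := fun a b e => by
    rw [mul_smul, ← e, inv_smul_smul]
  refine ⟨fun a b => lt (a • x) (b • x) ∨ (a • x = b • x ∧ 0 < S (a⁻¹ * b)), ?_, fun a b c =>
    ⟨hc a b c, fun h1 => by simpa using hc _ _ c⁻¹ h1⟩, fun g a b ha hb e l => ?_⟩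
  · refine { trichotomous := fun a b h1 h2 => ?_, irrefl := fun a => ?_, trans := ?_ }
    · have e : a • x = b • x :=
        hlt.trichotomous _ _ (fun h3 => h1 (Or.inl h3)) fun h3 => h2 (Or.inl h3)
      have q1 : S (a⁻¹ * b) ≤ 0 := not_lt.1 fun h3 => h1 (Or.inr ⟨e, h3⟩)
      have q2 : S (b⁻¹ * a) ≤ 0 := not_lt.1 fun h3 => h2 (Or.inr ⟨e.symm, h3⟩)
      have q3 := hS.cf.inv (a⁻¹ * b)
      rw [mul_inv_rev, inv_inv] at q3
      exact inv_mul_eq_one.mp (hS.inj _ (by linarith))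
    · rintro (h1 | ⟨-, h1⟩)
      · exact hlt.irrefl _ h1
      · simp [hS.cf.one] at h1
    · rintro a b c (h1 | ⟨h1, h2⟩) (h3 | ⟨h3, h4⟩)
      · exact Or.inl (hlt.trans _ _ _ h1 h3)
      · exact Or.inl (h3 ▸ h1)
      · exact Or.inl (h1 ▸ h3)
      · refine Or.inr ⟨h1.trans h3, ?_⟩
        have q := hS.cf.add _ _ (hab _ _ (fx a b h1) (fx b c h3))
        rw [mul_assoc, mul_inv_cancel_left] at q
        linarith
  · simp only [mul_smul] at l ⊢
    rcases l with l | ⟨l, -⟩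
    · exact Or.inl ((hdet _ a b ha hb e).1 l)
    · by_cases n : lt (g • x) (b • g • x)
      · exact Or.inl n
      refine Or.inr ⟨hlt.trichotomous _ _ n fun q => ?_, ?_⟩
      · have q2 := (hdet _ b a hb ha e.symm).2 q
        rw [← l] at q2
        exact hlt.irrefl _ q2
      · have q := hS.cf.conj g⁻¹ b
        rw [inv_inv, mul_assoc] at q
        exact q ▸ hQ b hb

theorem lo_abelian {S : G → ℝ} (hS : Sj S) (k : ∀ a b : G, a * b = b * a) :
    LO fun a => 0 < S a := by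
  refine ⟨fun x y => S x < S y, ?_, fun a b c => ?_, fun x a b _ hb _ _ => ?_⟩
  · refine { trichotomous := fun a b h1 h2 => ?_, irrefl := fun a => lt_irrefl _,
             trans := fun _ _ _ => lt_trans }
    refine inv_mul_eq_one.mp (hS.inj _ ?_)
    rw [hS.cf.add _ _ (k _ _), hS.cf.inv]
    linarith [not_lt.1 h1, not_lt.1 h2]
  · simp only [hS.cf.add _ _ (k c _), add_lt_add_iff_left]
  · simp only [hS.cf.add _ _ (k b _)]
    linarith

end Pool.Agent.Work.MP_3d425c_gt.To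
end

-- merged part: Pool.Agent.Work.MP_3d425c_gt.To.RZorn
section
/-! Quotients, duals and the maximal fold. -/

namespace Pool.Agent.Work.MP_3d425c_gt.To
open Set Filter Topology Pool.Agent.Work.MP_3d425c_gt.Cy

universe u
variable {G : Type*} {X : Type u} [Group G] [MulAction G X] {C : Set (ℝ → X)}
  {up : X → X → Prop} {s S : G → ℝ} {β : G → X}

theorem rz_good {r up' : X → X → Prop} (h : Gq G C r up')
    (ab : ∀ x (g k : G), r (g • x) x → r (k • x) x → g * k = k * g) (nf : Nf G C r) :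
    Good G C r up' :=
  ⟨h.eqv, h.rsm, h.opn, h.upl, h.upr, h.upc, h.upk, h.ups, ab, nf⟩

theorem exists_quot2 (h : Om G C up) {r up' : X → X → Prop} (hg : Good G C r up') :
    ∃ (Y : Type u) (_ : MulAction G Y) (π : X → Y) (C' : Set (ℝ → Y)) (U : Y → Y → Prop),
      Om G C' U ∧ Good G C' Eq U ∧ Function.Surjective π ∧ (∀ x y, π x = π y ↔ r x y) ∧
      (∀ (g : G) x, π (g • x) = g • π x) ∧ (∀ c ∈ C, (fun t => π (c t)) ∈ C') ∧
      ∀ x y, U (π x) (π y) ↔ up' x y := by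
  obtain ⟨Y, A, π, C', U, Q, hr, hu⟩ := (gq_of_good hg).exists_quot h
  refine ⟨Y, A, π, C', U, Q.om, rz_good Q.om.gq (fun y g k a b => ?_) (Q.nf ?_), Q.surj, hr,
    Q.smul, fun c hc => Q.mem hc, hu⟩
  · obtain ⟨x, rfl⟩ := Q.surj y
    rw [← Q.smul] at a b
    exact hg.ab x g k ((hr _ _).1 a) ((hr _ _).1 b)
  · intro g h1 c hc u v huv
    obtain ⟨t, ht, k⟩ := hg.nf g h1 c hc u v huv
    exact ⟨t, ht, fun e => k ((hr _ _).1 e)⟩

theorem rz_irr {D : Set (ℝ → X)} {r U : X → X → Prop} (hc : ∀ x, ∃ c ∈ D, ∃ t, c t = x)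
    (hg : Gq G D r U) {x y : X} (k : r x y) : ¬ U x y := fun a => by
  obtain ⟨c, hc, t, rfl⟩ := hc y
  exact lt_irrefl _ ((hg.upc c hc t t).1 (hg.upl _ _ _ k a))

theorem rz_lt_smul {D : Set (ℝ → X)} {r U : X → X → Prop} (hg : Gq G D r U) (g : G) {x y : X}
    (k : Lt U x y) : Lt U (g • x) (g • y) :=
  ⟨hg.ups g _ _ k.1, fun a => k.2 (by simpa only [inv_smul_smul] using hg.ups g⁻¹ _ _ a)⟩

theorem rz_lt_flip {D : Set (ℝ → X)} {r U : X → X → Prop} (hc : ∀ x, ∃ c ∈ D, ∃ t, c t = x)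
    (hg : Gq G D r U) (x y : X) : Lt (fun x y => ¬ U x y ∧ ¬ r x y) x y ↔ Lt U y x := by
  refine ⟨fun k => ⟨?_, k.1.1⟩, fun k => ⟨⟨k.2, fun e => ?_⟩, fun a => a.1 k.1⟩⟩
  · by_contra a
    exact k.2 ⟨a, fun e => k.1.2 (hg.eqv.symm e)⟩
  · exact rz_irr hc hg (hg.eqv.symm e) k.1

/-- The extra invariants under reversal of the orientation. -/
theorem rz_flip (hs : Cf s) (hS : Cf S) {D : Set (ℝ → X)} {r U : X → X → Prop}
    (hc : ∀ x, ∃ c ∈ D, ∃ t, c t = x) (hg : Gq G D r U) (he : Ex s S β r U) :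
    Ex (fun a => -s a) (fun a => -S a) (fun a => β a⁻¹) r fun x y => ¬ U x y ∧ ¬ r x y := by
  have i1 : ∀ (a : G) x, r (a • x) x → r (a⁻¹ • x) x := fun a x k =>
    hg.eqv.symm (by simpa only [inv_smul_smul] using hg.rsm a⁻¹ _ _ k)
  have i2 : ∀ (a : G) x, Lt U (a • x) x → Lt U x (a⁻¹ • x) := fun a x k => by
    simpa only [inv_smul_smul] using rz_lt_smul hg a⁻¹ k
  have i3 : ∀ (a : G) x, Lt U x (a • x) → Lt U (a⁻¹ • x) x := fun a x k => by
    simpa only [inv_smul_smul] using rz_lt_smul hg a⁻¹ k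
  refine ⟨he.z, fun a p ha hp hp' => ?_, fun a b x ha hb hab => ?_⟩
  · rw [rz_lt_flip hc hg]
    have k := he.d a⁻¹ p⁻¹ (by rwa [hs.inv]) (by rw [← mul_inv_rev, ← mul_inv_rev, hp])
      (by rwa [hs.inv])
    simpa only [smul_inv_smul] using rz_lt_smul hg p k
  · have k := he.sg a⁻¹ b⁻¹ x ⟨by rw [hs.inv]; exact ha.1, by rw [hS.inv]; exact ha.2⟩
      ⟨by rw [hs.inv]; exact hb.1, by rw [hS.inv]; exact hb.2⟩
      (by rw [← mul_inv_rev, ← mul_inv_rev, hab])
    simp only [rz_lt_flip hc hg]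
    exact ⟨fun l m => k.1 (l.imp (i1 a x) (i2 a x)) (i3 b x m),
      fun l m => k.2 (l.imp (i1 a x) (i3 a x)) (i2 b x m)⟩

theorem Ob.dual (hs : Cf s) (hS : Cf S) (h : Ob C up s S β) :
    Ob (dualC C) (dualU up) (fun a => -s a) (fun a => -S a) fun a => β a⁻¹ :=
  ⟨h.om.dual, rz_good h.om.dual.gq h.good.ab (Nf.dual h.good.nf),
    rz_flip hs hS h.om.cover h.om.gq h.ex⟩

theorem Ex.undual (hs : Cf s) (hS : Cf S) {r up' : X → X → Prop} (h : Om G C up)
    (hg : Good G (dualC C) r up')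
    (he : Ex (fun a => -s a) (fun a => -S a) (fun a => β a⁻¹) r up') :
    Ex s S β r fun x y => ¬ up' x y ∧ ¬ r x y := by
  simpa only [neg_neg, inv_inv] using rz_flip hs.neg hS.neg h.dual.cover (gq_of_good hg) he

section Chain
variable {K : Set (X → X → Prop)} {U : (X → X → Prop) → X → X → Prop}

theorem rz_ev_not (h : Om G C up) (hne : K.Nonempty) (hch : IsChain (· ≤ ·) K)
    (hU : ∀ r ∈ K, Gq G C r (U r)) {x y : X} (k : ¬ evU K U x y) :
    ∃ r ∈ K, ∀ r' ∈ K, r ≤ r' → ¬ U r' x y := by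
  have h1 := gq_chain hne hch hU
  have h2 := (gq_chain (U := fun r x y => ¬ U r x y ∧ ¬ r x y) hne hch
    fun r a => (hU r a).dual).undual
  rw [Gq.unique h h1 h2, not_and_or, not_not, not_not] at k
  rcases k with ⟨r, a, k⟩ | ⟨r, a, k⟩
  · exact ⟨r, a, fun r' b q => (k r' b q).1⟩
  · exact ⟨r, a, fun r' b q => rz_irr h.cover (hU r' b) (q _ _ k)⟩

theorem rz_ev_lt (h : Om G C up) (hne : K.Nonempty) (hch : IsChain (· ≤ ·) K)
    (hU : ∀ r ∈ K, Gq G C r (U r)) {x y : X} (k : Lt (evU K U) x y) :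
    ∃ r ∈ K, ∀ r' ∈ K, r ≤ r' → Lt (U r') x y := by
  obtain ⟨r1, a1, k1⟩ := k.1
  obtain ⟨r2, a2, k2⟩ := rz_ev_not h hne hch hU k.2
  obtain ⟨m, a, p1, p2⟩ := chain_max hch a1 a2
  exact ⟨m, a, fun r' b q => ⟨k1 r' b (p1.trans q), k2 r' b (p2.trans q)⟩⟩

theorem rz_ex_chain (h : Om G C up) (hne : K.Nonempty) (hch : IsChain (· ≤ ·) K)
    (hU : ∀ r ∈ K, Gq G C r (U r)) (hE : ∀ r ∈ K, Ex s S β r (U r)) :
    Ex s S β (unR K) (evU K U) := by
  have two : ∀ {x y x' y' z z' : X}, unR K x y ∨ Lt (evU K U) x' y' → Lt (evU K U) z z' →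
      ∃ m ∈ K, (m x y ∨ Lt (U m) x' y') ∧ Lt (U m) z z' := fun l k => by
    obtain ⟨r2, a2, k2⟩ := rz_ev_lt h hne hch hU k
    rcases l with ⟨r1, a1, k1⟩ | l
    · obtain ⟨m, a, p1, p2⟩ := chain_max hch a1 a2
      exact ⟨m, a, Or.inl (p1 _ _ k1), k2 m a p2⟩
    · obtain ⟨r1, a1, k1⟩ := rz_ev_lt h hne hch hU l
      obtain ⟨m, a, p1, p2⟩ := chain_max hch a1 a2
      exact ⟨m, a, Or.inr (k1 m a p1), k2 m a p2⟩
  refine ⟨?_, fun a p ha hp hp' => ⟨evU_of_all hne fun r k => ((hE r k).d a p ha hp hp').1,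
    fun k => ?_⟩, fun a b x ha hb hab => ⟨fun l k => ?_, fun l k => ?_⟩⟩
  · rintro x a b p ⟨r1, a1, k1⟩ ⟨r2, a2, k2⟩ hd hp
    obtain ⟨m, e, p1, p2⟩ := chain_max hch a1 a2
    exact ⟨m, e, (hE m e).z x a b p (p1 _ _ k1) (p2 _ _ k2) hd hp⟩
  · obtain ⟨r, e, k⟩ := k.ex
    exact ((hE r e).d a p ha hp hp').2 k
  · obtain ⟨m, e, l, k⟩ := two l k
    exact ((hE m e).sg a b x ha hb hab).1 l k
  · obtain ⟨m, e, l, k⟩ := two l k
    exact ((hE m e).sg a b x ha hb hab).2 l k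

end Chain

/-- The extra invariants pull back along an equivariant map. -/
theorem Ex.pull {Y : Type*} [MulAction G Y] (π : X → Y) (he : ∀ (g : G) x, π (g • x) = g • π x)
    {r U : Y → Y → Prop} (h : Ex s S (fun a => π (β a)) r U) :
    Ex s S β (fun x y => r (π x) (π y)) fun x y => U (π x) (π y) :=
  ⟨fun x a b p => by simpa only [he] using h.z (π x) a b p,
    fun a p ha hp hp' => by simpa only [Lt, he] using h.d a p ha hp hp',
    fun a b x ha hb hab => by simpa only [Lt, he] using h.sg a b (π x) ha hb hab⟩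

/-- The extra invariants descend along a surjective equivariant map. -/
theorem Ex.push {Y : Type*} [MulAction G Y] (π : X → Y) (he : ∀ (g : G) x, π (g • x) = g • π x)
    (hs : Function.Surjective π) {r U : Y → Y → Prop}
    (h : Ex s S β (fun x y => r (π x) (π y)) fun x y => U (π x) (π y)) :
    Ex s S (fun a => π (β a)) r U :=
  ⟨fun y a b p => by
      obtain ⟨x, rfl⟩ := hs y
      simpa only [he] using h.z x a b p,
    fun a p ha hp hp' => by simpa only [Lt, he] using h.d a p ha hp hp',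
    fun a b y ha hb hab => by
      obtain ⟨x, rfl⟩ := hs y
      simpa only [Lt, he] using h.sg a b x ha hb hab⟩

theorem Ob.exists_max (h : Ob C up s S β) :
    ∃ (Y : Type u) (_ : MulAction G Y) (C' : Set (ℝ → Y)) (U : Y → Y → Prop) (β' : G → Y),
      Ob C' U s S β' ∧ ∀ r U', Good G C' r U' → Ex s S β' r U' → ∀ x y, r x y → x = y := by
  obtain ⟨Y, A, π, C', U, Q, ⟨i1, i2, i3⟩, hm⟩ := To.exists_max h.om
    (fun r U => (∀ x (g k : G), r (g • x) x → r (k • x) x → g * k = k * g) ∧ Nf G C r ∧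
      Ex s S β r U) ⟨h.good.ab, h.good.nf, h.ex⟩ fun K U hne hch hU =>
      ⟨fun x g k ⟨r1, a1, k1⟩ ⟨r2, a2, k2⟩ =>
        let ⟨m, e, p1, p2⟩ := chain_max hch a1 a2
        (hU m e).2.1 x g k (p1 _ _ k1) (p2 _ _ k2),
      nf_chain h.om.smul hch (fun r a => (hU r a).1) fun r a => (hU r a).2.2.1,
      rz_ex_chain h.om hne hch (fun r a => (hU r a).1) fun r a => (hU r a).2.2.2⟩
  refine ⟨Y, A, C', U, fun a => π (β a), ⟨Q.om, rz_good Q.om.gq (fun y g k a b => ?_) (Q.nf i2),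
    Ex.push π Q.smul Q.surj i3⟩, fun r U' g1 g2 => hm r U' (gq_of_good g1)
      ⟨fun x g k a b => g1.ab (π x) g k (Q.smul g x ▸ a) (Q.smul k x ▸ b),
        Nf.pull g1.nf π Q.smul fun c hc => Q.mem hc, Ex.pull π Q.smul g2⟩⟩
  obtain ⟨x, rfl⟩ := Q.surj y
  rw [← Q.smul] at a b
  exact i1 x g k a b

end Pool.Agent.Work.MP_3d425c_gt.To
end

-- merged part: Pool.Agent.Work.MP_3d425c_gt.To.RFull
section
/-! Classes kept by a subgroup of rank two, and jumps on an axis. -/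

namespace Pool.Agent.Work.MP_3d425c_gt.To
open Set Filter Topology Pool.Agent.Work.MP_3d425c_gt.Cy

variable {G X : Type*} [Group G] [MulAction G X] {C : Set (ℝ → X)} {up : X → X → Prop}

theorem full (hG : Hy G) (h : Om G C up)
    (z : ∀ (x : X) (a b p : G), a • x = x → b • x = x → ¬ Dep a b → p * a = a * p → p • x = x)
    {μ : X} {a b p : G} (hab : a * b = b * a) (k : ¬ Dep a b) (ha : LG C (a • μ) μ)
    (hb : LG C (b • μ) μ) (hp : p * a = a * p) : LG C (p • μ) μ :=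
  Ax.full h ha hb hp.symm (hG.ct (ne_one_of_not_dep k).1 hab.symm hp) fun y k1 k2 =>
    z y a b p k1 k2 k hp

theorem jump (hG : Hy G) (h : Om G C up) {s : G → ℝ} (hs : Sp s) {a : G} (ha : 0 < s a) {y : X}
    (hd : ∀ p, p * a = a * p → 0 < s p → Lt up y (p • y)) {p : G} (hp : p * a = a * p)
    (hp' : 0 < s p) {m n : X} (hl : LG C m n) (hne : m ≠ n) (hm : up m y ∨ y = m)
    (hn : up n (p • y) ∨ p • y = n) :
    (∃ q : G, q ≠ 1 ∧ q * a = a * q ∧ q • n = n) ∧
      ∀ γ : G, γ * a = a * γ → LG C (γ • n) n → γ • n = n := by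
  have a1 : a ≠ 1 := fun e => by simp [e, hs.cf.one] at ha
  have ad : ∀ u v : G, Commute u a → Commute v a → s (u * v) = s u + s v := fun u v k l =>
    hs.cf.add u v (hG.ct a1 k l)
  have e0 := hd p hp hp'
  have n1 : ¬ up m (p • y) := fun k => hne (Ax.lg_disj h hl (.inl k) hn)
  have m1 : up m y := hm.resolve_right fun k => n1 (k ▸ e0.1)
  have m2 : up y m := (h.sep' m1 n1).1 e0.1
  have n2 : ¬ up (p • y) n := fun k =>
    n1 ((h.sep' (h.lg_up (Om.lg_symm hl) k) e0.2).1 m1)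
  have lo : ∀ q : G, Commute q a → s q < 0 → up m (q • y) := fun q k l => by
    have := Ax.Nest.smul h q (hd q⁻¹ k.inv_left (by rw [hs.cf.inv]; linarith))
    rw [smul_inv_smul] at this
    exact (h.sep' m2 this.2).2 m1
  have hi : ∀ q : G, Commute q a → s p < s q → up n (q • y) := fun q k l => by
    have := Ax.Nest.smul h p (hd (p⁻¹ * q) ((Commute.inv_left hp).mul_left k)
      (by rw [ad _ _ (Commute.inv_left hp) k, hs.cf.inv]; linarith))
    rw [mul_smul, smul_inv_smul] at this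
    exact hn.elim (fun e => h.sub e n2 this.1) fun e => e ▸ this.1
  have mv : ∀ (q u : G) (x : X), up x ((q⁻¹ * u) • y) → up (q • x) (u • y) := fun q u x k => by
    simpa only [mul_smul, smul_inv_smul] using h.ups q _ _ k
  have df : ∀ u v : G, Commute u a → Commute v a → s (u⁻¹ * v) = s v - s u := fun u v k l => by
    rw [ad _ _ k.inv_left l, hs.cf.inv]
    ring
  refine ⟨?_, fun γ k l => ?_⟩
  · obtain ⟨b, hb, nd⟩ := hs.two a ha.ne'
    have hb' : Commute b a := hb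
    let f : ℤ → G := fun j => a ^ (-⌊j * s b / s a⌋) * b ^ j
    have f1 : ∀ j, Commute (f j) a := fun j =>
      ((Commute.refl a).zpow_left _).mul_left (hb'.zpow_left j)
    have f2 : ∀ j, 0 ≤ s (f j) ∧ s (f j) < s a := fun j => by
      have k1 := (le_div_iff₀ ha).1 (Int.floor_le (j * s b / s a))
      have k2 := (div_lt_iff₀ ha).1 (Int.lt_floor_add_one (j * s b / s a))
      rw [ad _ _ ((Commute.refl a).zpow_left _) (hb'.zpow_left j), hs.cf.zpow, hs.cf.zpow]
      push_cast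
      constructor <;> linarith
    by_contra k
    push Not at k
    refine Ax.jump_fin h (fun j => f j • m) (fun j => f j • n) (fun j => h.lg_smul _ hl)
      (fun j e => hne (smul_left_cancel _ e)) (fun i j e => by_contra fun ne => ?_)
      (x := a⁻¹ • y) (y := (a * p) • y) (fun j => .inl (mv _ _ _ (lo _
        ((f1 j).inv_left.mul_left (Commute.refl a).inv_left) ?_)))
      fun j => .inl (mv _ _ _ (hi _ ((f1 j).inv_left.mul_left ((Commute.refl a).mul_left hp)) ?_))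
    · refine k ((f i)⁻¹ * f j) (fun q => nd ⟨⌊j * s b / s a⌋ - ⌊i * s b / s a⌋, j - i,
        fun z => sub_ne_zero.2 (Ne.symm ne) z.2, ?_⟩) ((f1 i).inv_left.mul_left (f1 j)) ?_
      · have q' : a ^ (-⌊i * s b / s a⌋) * b ^ i = a ^ (-⌊j * s b / s a⌋) * b ^ j :=
          inv_mul_eq_one.1 q
        calc _ = a ^ ⌊j * s b / s a⌋ * (a ^ (-⌊i * s b / s a⌋) * b ^ i) * b ^ (-i) := by group
          _ = _ := by rw [q']; group
      · rw [mul_smul, inv_smul_eq_iff]
        exact e.symm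
    · rw [df _ _ (f1 j) (Commute.refl a).inv_left, hs.cf.inv]
      linarith [f2 j]
    · rw [df _ _ (f1 j) ((Commute.refl a).mul_left hp), ad _ _ (Commute.refl a) hp]
      linarith [f2 j]
  · obtain ⟨K, hK⟩ := exists_int_gt ((s p + |s γ|) / s a)
    rw [div_lt_iff₀ ha, ← hs.cf.zpow] at hK
    have c : Commute (a ^ K) a := (Commute.refl a).zpow_left K
    refine Ax.lg_disj h l (.inl (mv _ _ _ (hi _ ((Commute.inv_left k).mul_left c) ?_)))
      (.inl (hi _ c (by linarith [abs_nonneg (s γ)])))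
    rw [df _ _ k c]
    linarith [le_abs_self (s γ)]

end Pool.Agent.Work.MP_3d425c_gt.To
end

-- merged part: Pool.Agent.Work.MP_3d425c_gt.To.RBad
section
/-! Bad points accumulate at a fixed point. -/

namespace Pool.Agent.Work.MP_3d425c_gt.To
open Set Filter Topology Pool.Agent.Work.MP_3d425c_gt.Cy

variable {G X : Type*} [Group G] [MulAction G X] {C : Set (ℝ → X)} {up : X → X → Prop}

theorem bad_germ (hG : Hy G) (h : Om G C up)
    (z : ∀ (x : X) (a b p : G), a • x = x → b • x = x → ¬ Dep a b → p * a = a * p → p • x = x)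
    {s : G → ℝ} (hs : Cf s) {a b : G} (ha : 0 < s a) (hb : 0 < s b) (hab : a * b = b * a) {y₀ : X}
    (hd : ∀ p, p * a = a * p → 0 < s p → Lt up y₀ (p • y₀)) {y : X} (k : Bad up a b y) :
    ¬ Dep a b ∧ ∃ c ∈ C, (∀ p : G, p * a = a * p → p • c 0 = c 0) ∧
      ((∃ᶠ u in 𝓝[<] (0 : ℝ), Bad up a b (c u)) ∨ ∃ᶠ u in 𝓝[>] (0 : ℝ), Bad up a b (c u)) := by
  have a1 : a ≠ 1 := fun e => ha.ne' (e ▸ hs.one)
  have mem : ∀ p : G, p ∈ Subgroup.centralizer ({a} : Set G) ↔ p * a = a * p := fun p =>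
    Subgroup.mem_centralizer_singleton_iff
  have hP : ∀ p ∈ Subgroup.centralizer ({a} : Set G), ∀ q ∈ Subgroup.centralizer ({a} : Set G),
      p * q = q * p := fun p hp q hq => hG.ct a1 ((mem p).1 hp) ((mem q).1 hq)
  have hZ : Cone (Subgroup.centralizer ({a} : Set G))
      {p | p ∈ Subgroup.centralizer ({a} : Set G) ∧ 0 < s p} := by
    refine ⟨fun p hp => hp.1, fun p hp q hq => ⟨mul_mem hp.1 hq.1, ?_⟩,
      fun e => e.2.ne' hs.one, fun p hp q hq => ?_⟩
    · rw [hs.add _ _ (hP p hp.1 q hq.1)]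
      exact add_pos hp.2 hq.2
    · obtain ⟨N, hN⟩ := exists_nat_gt (-s q / s p)
      refine ⟨N, mul_mem (pow_mem hp.1 N) hq, ?_⟩
      rw [hs.add _ _ (hP _ (pow_mem hp.1 N) q hq), ← zpow_natCast, hs.zpow]
      have := (div_lt_iff₀ hp.2).1 hN
      push_cast
      linarith
  have aZ : a ∈ {p | p ∈ Subgroup.centralizer ({a} : Set G) ∧ 0 < s p} := ⟨(mem a).2 rfl, ha⟩
  have bZ : b ∈ {p | p ∈ Subgroup.centralizer ({a} : Set G) ∧ 0 < s p} :=
    ⟨(mem b).2 hab.symm, hb⟩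
  refine ⟨h.bad_ind hZ aZ bZ k, ?_⟩
  obtain ⟨ν, n1, n2⟩ := h.lemB hP hZ
    (fun x u hu v _ fu fv n p hp => z x u v p fu fv n (hP p hp u hu))
    (Or.inl ⟨y₀, fun p hp => hd p ((mem p).1 hp.1) hp.2⟩) aZ bZ k
  obtain ⟨c, hc, t, rfl⟩ := h.cover ν
  have e : (fun u => c (t + u)) 0 = c t := by simp only [add_zero]
  refine ⟨fun u => c (t + u), h.objB_shift hc t, fun p hp => ?_, ?_⟩
  · rw [e]
    exact n1 p ((mem p).2 hp)
  · have := n2 _ (h.objB_shift hc t) 0 e
    rwa [← nhdsLT_sup_nhdsGT, frequently_sup] at this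

end Pool.Agent.Work.MP_3d425c_gt.To
end

-- merged part: Pool.Agent.Work.MP_3d425c_gt.To.Str2
section
/-! Invariant classes, jumps on an axis, and the behaviour of slopes under a fold. -/

namespace Pool.Agent.Work.MP_3d425c_gt.To
open Set Filter Topology Pool.Agent.Work.MP_3d425c_gt.Cy

variable {G X : Type*} [Group G] [MulAction G X] {C : Set (ℝ → X)} {up : X → X → Prop}

theorem Cone.inv {P : Subgroup G} {Z : Set G} (hP : ∀ p ∈ P, ∀ q ∈ P, p * q = q * p)
    (k : Cone P Z) : Cone P Z⁻¹ where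
  sub a ha := P.inv_mem_iff.1 (k.sub _ ha)
  mul a ha b hb := by
    rw [Set.mem_inv, mul_inv_rev]
    exact k.mul _ hb _ ha
  one a := k.one (by simpa using a)
  arch a ha p hp := by
    obtain ⟨N, l⟩ := k.arch _ ha p⁻¹ (P.inv_mem hp)
    refine ⟨N, ?_⟩
    rw [Set.mem_inv, mul_inv_rev, ← inv_pow, hP _ (P.inv_mem hp) _ (P.pow_mem (k.sub _ ha) N)]
    exact l

/-- Two independent elements generate a subgroup that contains a power of every element. -/
theorem pow_mem_pair {u v a b : G} (uv : u * v = v * u) (ha : a ∈ Subgroup.closure {u, v})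
    (hb : b ∈ Subgroup.closure {u, v}) (n : ¬ Dep a b) {p : G} (hp : p ∈ Subgroup.closure {u, v}) :
    ∃ N : ℕ, p ^ (N + 1) ∈ Subgroup.closure {a, b} := by
  have c : Commute u v := uv
  have pw : ∀ i j m : ℤ, (u ^ i * v ^ j) ^ m = u ^ (i * m) * v ^ (j * m) := fun i j m => by
    rw [(c.zpow_zpow i j).mul_zpow, zpow_mul, zpow_mul]
  have ml : ∀ i j k l : ℤ, u ^ i * v ^ j * (u ^ k * v ^ l) = u ^ (i + k) * v ^ (j + l) :=
    fun i j k l => by
      rw [zpow_add, zpow_add, mul_assoc, mul_assoc, ← mul_assoc (v ^ j),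
        (c.symm.zpow_zpow j k).eq, mul_assoc]
  obtain ⟨i, j, rfl⟩ := (Ax.mem_pair uv).1 ha
  obtain ⟨k, l, rfl⟩ := (Ax.mem_pair uv).1 hb
  obtain ⟨x, y, rfl⟩ := (Ax.mem_pair uv).1 hp
  have d : i * l - j * k ≠ 0 := fun d => n (by
    by_cases e : k = 0 ∧ i = 0
    · by_cases e' : l = 0 ∧ j = 0
      · exact ⟨1, 1, by simp, by simp [e.1, e.2, e'.1, e'.2]⟩
      · exact ⟨l, j, e', by rw [pw, pw, e.1, e.2, mul_comm j l]; simp⟩
    · exact ⟨k, i, e, by rw [pw, pw, mul_comm k i, show j * k = l * i by linarith]⟩)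
  have m : (u ^ x * v ^ y) ^ (i * l - j * k) ∈
      Subgroup.closure {u ^ i * v ^ j, u ^ k * v ^ l} := by
    have e : (u ^ x * v ^ y) ^ (i * l - j * k) =
        (u ^ i * v ^ j) ^ (x * l - y * k) * (u ^ k * v ^ l) ^ (y * i - x * j) := by
      rw [pw, pw, pw, ml]
      congr 2 <;> ring
    rw [e]
    exact Subgroup.mul_mem _ (Subgroup.zpow_mem _ (Subgroup.subset_closure (by simp)) _)
      (Subgroup.zpow_mem _ (Subgroup.subset_closure (by simp)) _)
  refine ⟨(i * l - j * k).natAbs - 1, ?_⟩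
  rw [show (i * l - j * k).natAbs - 1 + 1 = (i * l - j * k).natAbs by omega, ← zpow_natCast]
  rcases Int.natAbs_eq (i * l - j * k) with e | e
  · exact e ▸ m
  · rw [show (((i * l - j * k).natAbs : ℕ) : ℤ) = -(i * l - j * k) by omega, zpow_neg]
    exact inv_mem m

namespace Om
variable (h : Om G C up)
include h

theorem bad_inv (a b : G) (y : X) : Bad up a⁻¹ b⁻¹ y ↔ Bad up a b y := by
  simp only [Bad]
  rw [← h.le_smul a, ← h.lt_smul b, ← h.le_smul a (y := y), ← h.lt_smul b (x := y)]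
  simp only [smul_inv_smul, or_comm]

theorem up_inv {Z : Set G} {z : X} :
    (∀ a ∈ Z⁻¹, Lt up z (a • z)) ↔ ∀ a ∈ Z, Lt up (a • z) z := by
  refine ⟨fun k a ha => ?_, fun k a ha => ?_⟩
  · simpa using (h.lt_smul a).2 (k a⁻¹ (by simpa using ha))
  · simpa using (h.lt_smul a).2 (k a⁻¹ ha)

theorem bad_chart {c} (hc : c ∈ C) {a b : G} {u v w : ℝ} (ea : a • c u = c v)
    (eb : b • c u = c w) : Bad up a b (c u) ↔ (u ≤ v ∧ w < u) ∨ (v ≤ u ∧ u < w) := by
  have l1 : ∀ s t, Lt up (c s) (c t) ↔ s < t := fun s t =>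
    ⟨fun k => (h.upc hc s t).1 k.1, h.lt_chart hc⟩
  have l2 : ∀ s t, Le up (c s) (c t) ↔ s ≤ t := fun s t =>
    ⟨fun k => k.elim (fun e => (h.inj hc e).le) fun k => ((l1 s t).1 k).le, h.le_chart hc⟩
  simp only [Bad, ea, eb, l1, l2]

/-- the elements that keep a class -/
def cls (μ : X) : Subgroup G where
  carrier := {g | LG C (g • μ) μ}
  one_mem' := by simpa using h.lg_refl μ
  mul_mem' {a b} ha hb := by
    show LG C ((a * b) • μ) μ
    rw [mul_smul]
    exact h.lg_trans (h.lg_smul a hb) ha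
  inv_mem' {a} ha := lg_symm (by simpa using h.lg_smul a⁻¹ ha)

variable {P : Subgroup G} (hP : ∀ p ∈ P, ∀ q ∈ P, p * q = q * p)
include hP

/-- A class kept by a rank two subgroup of `P` is kept by `P`. -/
theorem full {S : Set G} (hS : Subgroup.closure S = P) (hf : S.Finite) (fx : FixAll X P)
    {a b : G} (ha : a ∈ P) (hb : b ∈ P) (n : ¬ Dep a b)
    (fi : ∀ p ∈ P, ∃ N : ℕ, p ^ (N + 1) ∈ Subgroup.closure {a, b}) {μ : X}
    (ka : LG C (a • μ) μ) (kb : LG C (b • μ) μ) : ∀ p ∈ P, LG C (p • μ) μ := by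
  have kq : ∀ q ∈ Subgroup.closure {a, b}, LG C (q • μ) μ := fun q hq =>
    (Subgroup.closure_le (h.cls μ)).2 (by
      rintro x (rfl | rfl)
      exacts [ka, kb]) hq
  rcases h.proj hP hS hf μ with k | ⟨y, p, hp, ay, l, y1, y2⟩ | ⟨ν, k, ⟨q, hq, mv⟩, l⟩ |
    ⟨ν, k, ⟨q, hq, mv⟩, l⟩
  · intro p hp
    rw [fx μ a ha b hb (h.sym ka (Or.inr rfl) (k a ha)) (h.sym kb (Or.inr rfl) (k b hb)) n p hp]
    exact h.lg_refl μ
  · obtain ⟨N, m⟩ := fi p hp
    have l1 : up (p ^ (N + 1) • y) μ := h.lg_up (kq _ m) (h.ups _ _ _ y1)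
    have l2 : Le up (p • y) (p ^ (N + 1) • y) := by
      rw [pow_succ', mul_smul, h.le_smul]
      exact h.le_pow (Or.inr l) N
    exact (y2.1 (h.le_up l2 l1)).elim
  · rcases l with l | rfl
    · have f : ∀ g ∈ P, LG C (g • μ) μ → g • ν = ν := fun g hg e =>
        h.windA_disj (k g hg) (Or.inl (h.lg_up e (h.ups g _ _ l))) (Or.inl l)
      exact (mv (fx ν a ha b hb (f a ha ka) (f b hb kb) n q hq)).elim
    · exact k
  · have l' : ¬ up ν μ := l.elim And.left fun e => e ▸ h.irr μ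
    have f : ∀ g ∈ P, LG C (g • μ) μ → g • ν = ν := fun g hg e => by
      have l1 : ¬ up ν (g • μ) := fun m => l' (h.lg_up e m)
      have l2 : ¬ up (g • ν) (g • μ) := fun m => l' ((h.ups_iff g _ _).1 m)
      exact h.dual.windA_disj (k g hg) ((h.windA_dual _ _).2 l2) ((h.windA_dual _ _).2 l1)
    exact (mv (fx ν a ha b hb (f a ha ka) (f b hb kb) n q hq)).elim

variable {Z : Set G} (hZ : Cone P Z)

omit hP in
theorem jump_side {z z' m n : X} (l : Lt up z z') (e : LG C m n) (ne : m ≠ n)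
    (hm : up m z ∨ z = m) (hn : up n z' ∨ z' = n) :
    (∀ w, Le up w z → up m w) ∧ ∀ w, Le up z' w → up n w ∨ w = n := by
  have o1 : ¬ up m z' := fun k => ne (h.windA_disj e (Or.inl k) hn)
  have o2 : z' ≠ m := fun k => ne (h.windA_disj e (Or.inr k) hn)
  have a1 : up m z := hm.resolve_right fun k => o1 (k ▸ l.1)
  have a2 : up z m := (h.sep' a1 o1).1 l.1
  have a3 : ¬ up z' n := fun k => l.2 ((h.sep o1 o2 hm).2 (h.lg_up (lg_symm e) k))
  refine ⟨fun w k => (h.sep' a2 (h.le_not k)).2 a1, fun w k => ?_⟩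
  have a4 : Le up n z' := hn.elim (fun k => Or.inr ⟨k, a3⟩) fun k => Or.inl k.symm
  exact (h.le_trans' a4 k).elim (fun k => Or.inr k.symm) fun k => Or.inl k.1

include hZ

/-- A jump on a good orbit is fixed by a nontrivial element. -/
theorem jump {z m n : X} (u : ∀ a ∈ Z, Lt up z (a • z)) {a b p : G} (ha : a ∈ Z) (hb : b ∈ P)
    (ind : ¬ Dep a b) (hp : p ∈ P) (l : Lt up z (p • z)) (e : LG C m n) (ne : m ≠ n)
    (hm : up m z ∨ z = m) (hn : up n (p • z) ∨ p • z = n) :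
    ∃ α ∈ P, α ≠ 1 ∧ α • m = m ∧ α • n = n := by
  classical
  obtain ⟨s1, s2⟩ := h.jump_side l e ne hm hn
  have aP := hZ.sub a ha
  have az := h.up_axial hP hZ u ⟨a, ha⟩
  have red : ∀ q ∈ P, ∃ i : ℤ, Le up z ((a ^ i * q) • z) ∧ Le up ((a ^ i * q) • z) (a • z) := by
    intro q hq
    obtain ⟨N, k1⟩ := h.up_far hP hZ u ha P.one_mem hq
    obtain ⟨M, k2⟩ := h.up_far hP hZ u ha hq P.one_mem
    rw [one_smul] at k1 k2
    have ex : ∃ j : ℕ, Le up (a ^ (M + 1) • q • z) (a ^ (j + 1) • z) := ⟨M + 1 + N, by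
      rw [show M + 1 + N + 1 = M + 1 + (N + 1) by ring, pow_add a (M + 1), mul_smul, h.le_smul]
      exact Or.inr k1⟩
    have j1 := Nat.find_spec ex
    have j2 : Le up (a ^ Nat.find ex • z) (a ^ (M + 1) • q • z) := by
      rcases e0 : Nat.find ex with _ | j
      · rw [pow_zero, one_smul]
        exact Or.inr k2
      · have := Nat.find_min ex (show j < Nat.find ex by omega)
        rw [← mul_smul] at this ⊢
        exact (h.ax_total az (P.pow_mem aP _) (P.mul_mem (P.pow_mem aP _) hq)).resolve_right this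
    generalize Nat.find ex = j at j1 j2
    have e1 : a ^ j • (a ^ (((M + 1 : ℕ) : ℤ) - (j : ℕ)) * q) • z = a ^ (M + 1) • q • z := by
      rw [← mul_smul, ← mul_assoc, ← zpow_natCast a j, ← zpow_add, add_sub_cancel, zpow_natCast,
        mul_smul]
    refine ⟨(M + 1 : ℕ) - (j : ℕ), ?_, ?_⟩
    · rw [← h.le_smul (a ^ j), e1]
      exact j2
    · rw [← h.le_smul (a ^ j), e1, ← mul_smul _ a, ← pow_succ]
      exact j1
  choose i i1 i2 using fun k : ℕ => red (b ^ k) (P.pow_mem hb k)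
  have qP : ∀ k : ℕ, a ^ i k * b ^ k ∈ P := fun k => P.mul_mem (P.zpow_mem aP _) (P.pow_mem hb k)
  have hx : ∀ k : ℕ, up ((a ^ i k * b ^ k) • m) z := fun k => by
    have := h.ups (a ^ i k * b ^ k) _ _ (s1 ((a ^ i k * b ^ k)⁻¹ • z)
      (by simpa only [inv_smul_smul] using (h.le_smul (a ^ i k * b ^ k)⁻¹).2 (i1 k)))
    rwa [smul_inv_smul] at this
  have hy : ∀ k : ℕ, up ((a ^ i k * b ^ k) • n) (p • a • z) ∨
      p • a • z = (a ^ i k * b ^ k) • n := fun k => by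
    have l1 : Le up (p • z) ((a ^ i k * b ^ k)⁻¹ • p • a • z) := by
      rw [← h.le_smul (a ^ i k * b ^ k), smul_inv_smul, ← mul_smul, hP _ (qP k) p hp, mul_smul,
        h.le_smul]
      exact i2 k
    rcases s2 _ l1 with l2 | l2
    · exact Or.inl (by simpa only [smul_inv_smul] using h.ups (a ^ i k * b ^ k) _ _ l2)
    · exact Or.inr (by rw [← l2, smul_inv_smul])
  have ni : ¬ Function.Injective fun k : ℕ => (a ^ i k * b ^ k) • n := fun inj =>
    Ax.jump_fin h (fun k : ℕ => (a ^ i k * b ^ k) • m) _ (fun k => h.lg_smul _ e)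
      (fun k e => ne (smul_left_cancel _ e)) inj (fun k => Or.inl (hx k)) hy
  obtain ⟨k, k', e1, e2⟩ := Function.not_injective_iff.1 ni
  have e3 : (a ^ i k * b ^ k) • m = (a ^ i k' * b ^ k') • m :=
    h.windA_disj (h.lg_trans (h.lg_smul _ e) (e1 ▸ lg_symm (h.lg_smul _ e))) (Or.inl (hx k))
      (Or.inl (hx k'))
  refine ⟨(a ^ i k' * b ^ k')⁻¹ * (a ^ i k * b ^ k), P.mul_mem (P.inv_mem (qP k')) (qP k),
    fun e0 => ind ⟨i k' - i k, k - k', fun l => e2 (by omega), ?_⟩,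
    by rw [mul_smul, e3, inv_smul_smul], by rw [mul_smul, e1, inv_smul_smul]⟩
  have e4 : a ^ i k' * b ^ k' = a ^ i k * b ^ k := inv_mul_eq_one.1 e0
  rw [zpow_sub, zpow_sub, zpow_natCast, zpow_natCast, ((Commute.refl a).zpow_zpow (i k') (i k)).inv_right.eq,
    inv_mul_eq_iff_eq_mul, ← mul_assoc, ← e4, mul_inv_cancel_right]

/-- No element of `P` carries one point of a jump to the other. -/
theorem no_swap {z z' m n : X} (u : ∀ a ∈ Z, Lt up z (a • z)) (nZ : Z.Nonempty)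
    (l : Lt up z z') (e : LG C m n) (ne : m ≠ n) (hm : up m z ∨ z = m)
    (hn : up n z' ∨ z' = n) {δ : G} (hδ : δ ∈ P) : δ • m ≠ n := by
  intro e0
  obtain ⟨a, ha⟩ := nZ
  obtain ⟨s1, -⟩ := h.jump_side l e ne hm hn
  obtain ⟨N, k⟩ := h.up_far hP hZ u ha P.one_mem hδ
  rw [one_smul] at k
  have aP := P.pow_mem (hZ.sub a ha) (N + 1)
  have w1 : Le up ((a ^ (N + 1))⁻¹ • z) z := by
    simpa only [inv_smul_smul] using (h.le_smul (a ^ (N + 1))⁻¹).2 (Or.inr (u _ (hZ.pow ha N)))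
  have w2 : Le up (δ • (a ^ (N + 1))⁻¹ • z) z := by
    rw [← mul_smul, hP δ hδ _ (P.inv_mem aP), mul_smul]
    simpa only [inv_smul_smul] using (h.le_smul (a ^ (N + 1))⁻¹).2 (Or.inr k)
  exact ne (h.windA_disj e (Or.inl (s1 _ w2)) (Or.inl (e0 ▸ h.ups δ _ _ (s1 _ w1))))

/-- Lemma B with a good point of either direction. -/
theorem lemB' (fx : FixAll X P) (g : (∃ z, ∀ a ∈ Z, Lt up z (a • z)) ∨
      (∃ z, ∀ a ∈ Z, Lt up (a • z) z) ∨ ∃ f : X, ∀ p ∈ P, p • f = f)
    {y : X} {a b : G} (ha : a ∈ Z) (hb : b ∈ Z) (k : Bad up a b y) :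
    ∃ ν : X, (∀ p ∈ P, p • ν = ν) ∧
      ∀ c ∈ C, ∀ s, c s = ν → ∃ᶠ u in 𝓝[≠] s, Bad up a b (c u) := by
  rcases g with g | ⟨z, g⟩ | g
  · exact h.lemB hP hZ fx (Or.inl g) ha hb k
  · simpa only [h.bad_inv] using h.lemB hP (hZ.inv hP) fx (Or.inl ⟨z, h.up_inv.2 g⟩)
      (a := a⁻¹) (b := b⁻¹) (by simpa using ha) (by simpa using hb) ((h.bad_inv a b y).2 k)
  · exact h.lemB hP hZ fx (Or.inr g) ha hb k

/-- Without bad points an axial point is fixed or good. -/
theorem ax_good {y : X} (nb : ∀ a ∈ Z, ∀ b ∈ Z, ¬ Bad up a b y) (nZ : Z.Nonempty)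
    (ay : Axial up P y) : (∀ p ∈ P, p • y = y) ∨ (∀ a ∈ Z, Lt up y (a • y)) ∨
      ∀ a ∈ Z, Lt up (a • y) y := by
  by_cases e : ∃ b ∈ Z, Lt up y (b • y)
  · obtain ⟨b, hb, e⟩ := e
    refine Or.inr (Or.inl fun a ha => ?_)
    rcases ay a (hZ.sub a ha) with (k | k) | k
    · exact (nb a ha b hb (Or.inr ⟨Or.inl k.symm, e⟩)).elim
    · exact k
    · exact (nb a ha b hb (Or.inr ⟨k, e⟩)).elim
  by_cases e' : ∃ b ∈ Z, Lt up (b • y) y
  · obtain ⟨b, hb, e'⟩ := e'
    refine Or.inr (Or.inr fun a ha => ?_)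
    rcases ay a (hZ.sub a ha) with k | k | k
    · exact (nb a ha b hb (Or.inl ⟨k, e'⟩)).elim
    · exact (nb a ha b hb (Or.inl ⟨Or.inl k.symm, e'⟩)).elim
    · exact k
  have f : ∀ a ∈ Z, a • y = y := fun a ha => by
    rcases ay a (hZ.sub a ha) with (k | k) | k | k
    exacts [k.symm, (e ⟨a, ha, k⟩).elim, k, (e' ⟨a, ha, k⟩).elim]
  obtain ⟨a, ha⟩ := nZ
  refine Or.inl fun p hp => ?_
  obtain ⟨N, k⟩ := hZ.arch a ha p hp
  have l := f _ k
  have l' : a ^ N • y = y := MulAction.mem_stabilizer_iff.1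
    (pow_mem (MulAction.mem_stabilizer_iff.2 (f a ha)) N)
  rw [hP _ (P.pow_mem (hZ.sub a ha) N) p hp, mul_smul, l'] at l
  exact l

end Om

/-- A good orbit stays nested after a fold. -/
theorem PF.keep {S : Type*} {arm : S → ℝ → X} {E : S → S → Prop} {θ : S → S → II ≃o II}
    (F : PF G C up arm E θ) {P : Subgroup G} (hP : ∀ p ∈ P, ∀ q ∈ P, p * q = q * p) {Z : Set G}
    (hZ : Cone P Z) {z : X} (u : ∀ a ∈ Z, Lt up z (a • z)) {a b : G} (ha : a ∈ Z) (hb : b ∈ P)
    (ind : ¬ Dep a b)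
    (star : ∀ p q, E p q → ∀ α ∈ P, α ≠ 1 → α • arm p 0 = arm p 0 → α • arm q 0 = arm q 0 →
      ∃ δ ∈ P, δ • arm p 0 = arm q 0) {g : G} (hg : g ∈ P) (l : Lt up z (g • z)) :
    Lt (fun x y => ∃ x', FR arm E θ x x' ∧ up x' y) z (g • z) := by
  refine ⟨⟨z, .refl, l.1⟩, ?_⟩
  rintro ⟨x, k1, k2⟩
  rcases F.sep_of_fr (F.fr_symm k1) with e | ⟨p, q, hE, ne, b1, b2, e, he, s₁, s₂, hs, e1, e2⟩
  · exact l.2 (e ▸ k2)
  have hm : up (arm p 0) z := b1.elim (fun b => F.om.sub b b2 k2) fun b => b ▸ k2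
  have hn := (F.seg_up he hs).1
  rw [e1, e2] at hn
  obtain ⟨α, hα, a1, a2, a3⟩ := F.om.jump hP hZ u ha hb ind hg l (F.lg p q hE) ne (Or.inl hm) hn
  obtain ⟨δ, hδ, d⟩ := star p q hE α hα a1 a2 a3
  exact F.om.no_swap hP hZ u ⟨a, ha⟩ l (F.lg p q hE) ne (Or.inl hm) hn hδ d

section Step
variable {Y : Type*} [MulAction G Y] {C' : Set (ℝ → Y)} {up' : Y → Y → Prop} {π : X → Y}
  (h : Om G C up) (h' : Om G C' up') (πs : ∀ (g : G) x, π (g • x) = g • π x)
  (πc : ∀ c ∈ C, (fun t => π (c t)) ∈ C')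
include h h' πs πc

theorem bad_push {c} (hc : c ∈ C) {a b : G} {u v w : ℝ} (ea : a • c u = c v)
    (eb : b • c u = c w) : Bad up' a b (π (c u)) ↔ Bad up a b (c u) := by
  rw [h.bad_chart hc ea eb]
  exact h'.bad_chart (πc c hc) (by rw [← πs, ea]) (by rw [← πs, eb])

/-- near an old fixed point -/
theorem germ_fix {c} (hc : c ∈ C) {a b : G} {s : ℝ} (nb : ∀ y, ¬ Bad up a b y)
    (fa : a • c s = c s) (fb : b • c s = c s) : ∀ᶠ u in 𝓝[≠] s, ¬ Bad up' a b (π (c u)) := by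
  refine Eventually.filter_mono nhdsWithin_le_nhds ?_
  filter_upwards [h.near (h.smul a c hc) hc fa univ_mem, h.near (h.smul b c hc) hc fb univ_mem]
    with u ⟨v, _, ea⟩ ⟨w, _, eb⟩
  rw [bad_push h h' πs πc hc ea eb]
  exact nb _

/-- below an old invariant class -/
theorem germ_low {c} (hc : c ∈ C) {a b : G} {s : ℝ} (nb : ∀ y, ¬ Bad up a b y)
    (fa : LG C (a • c s) (c s)) (fb : LG C (b • c s) (c s)) :
    ∀ᶠ u in 𝓝[<] s, ¬ Bad up' a b (π (c u)) := by
  filter_upwards [h.lg_near (h.smul a c hc) hc fa univ_mem,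
    h.lg_near (h.smul b c hc) hc fb univ_mem] with u ⟨v, _, _, ea⟩ ⟨w, _, _, eb⟩
  rw [bad_push h h' πs πc hc ea eb]
  exact nb _

/-- on a folded arm -/
theorem germ_arm {c} (hc : c ∈ C) {a b : G} (nb : ∀ y, ¬ Bad up a b y)
    (fa : LG C (a • c 0) (c 0)) (fb : LG C (b • c 0) (c 0)) {ρ σ : II → II}
    (ea : ∀ t < 1, ρ t < 1 ∧ π (a • c (io t)) = π (c (io (ρ t))))
    (eb : ∀ t < 1, σ t < 1 ∧ π (b • c (io t)) = π (c (io (σ t))))
    (sg : ∀ t < 1, ¬ ((t ≤ ρ t ∧ σ t < t) ∨ (ρ t ≤ t ∧ t < σ t))) {s : ℝ} (hs : 0 ≤ s) :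
    ∀ᶠ u in 𝓝[≠] s, ¬ Bad up' a b (π (c u)) := by
  have pos : ∀ u, 0 ≤ u → ¬ Bad up' a b (π (c u)) := fun u hu => by
    obtain ⟨t, ht, rfl⟩ := io_surj hu
    rw [h'.bad_chart (πc c hc) (by rw [← πs, (ea t ht).2]) (by rw [← πs, (eb t ht).2]),
      ← not_lt, ← not_lt (a := io t), io_lt (ea t ht).1 ht, io_lt (eb t ht).1 ht,
      io_lt ht (ea t ht).1, io_lt ht (eb t ht).1, not_lt, not_lt]
    exact sg t ht
  rcases hs.eq_or_lt with rfl | hs
  · rw [← nhdsLT_sup_nhdsGT, eventually_sup]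
    exact ⟨germ_low h h' πs πc hc nb fa fb,
      eventually_nhdsWithin_of_forall fun u hu => pos u (le_of_lt hu)⟩
  · refine Eventually.filter_mono nhdsWithin_le_nhds ?_
    filter_upwards [Ioi_mem_nhds hs] with u hu using pos u (le_of_lt hu)

end Step

/-- The slope of a rank two abelian group without common fixed point. -/
theorem Om.slope (h : Om G C up) {u v : G} (uv : u * v = v * u) (x : X)
    (nf : ∀ y : X, ¬ (u • y = y ∧ v • y = y)) :
    ∃ (s : G → ℝ) (y : X), (∀ p ∈ Subgroup.closure {u, v}, ∀ q ∈ Subgroup.closure {u, v},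
      s (p * q) = s p + s q) ∧ (∃ p ∈ Subgroup.closure {u, v}, 0 < s p) ∧
      Axial up (Subgroup.closure {u, v}) y ∧
      ∀ p ∈ Subgroup.closure {u, v}, 0 < s p → Lt up y (p • y) := by
  have hP : ∀ p ∈ Subgroup.closure {u, v}, ∀ q ∈ Subgroup.closure {u, v}, p * q = q * p :=
    Ax.pair_comm uv
  obtain ⟨y, ay⟩ := h.exists_axial hP rfl (toFinite _) x
  have mv : ∃ p ∈ Subgroup.closure {u, v}, p • y ≠ y := by
    by_contra n
    exact nf y ⟨by_contra fun l => n ⟨u, Subgroup.subset_closure (by simp), l⟩,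
      by_contra fun l => n ⟨v, Subgroup.subset_closure (by simp), l⟩⟩
  have iv : ∀ p : G, Le up y (p⁻¹ • y) ↔ Le up (p • y) y := fun p => by
    rw [← h.le_smul p, smul_inv_smul]
  obtain ⟨t, ht, ty⟩ := h.ax_move ay mv
  obtain ⟨s, s1, s2, s3⟩ := Ax.slope uv (fun p => Le up y (p • y))
    (fun p q a b => by
      rw [mul_smul]
      exact h.le_trans' a ((h.le_smul p).2 b))
    (fun p hp => (ay p hp).imp_right (iv p).2)
    ⟨t⁻¹, inv_mem ht, fun l => h.lt_irr y (h.lt_le ty ((iv t).1 l))⟩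
  refine ⟨s, y, s1, s2, ay, fun p hp k => ?_⟩
  have n : ¬ Le up (p • y) y := fun l => by
    have a := s3 _ (inv_mem hp) ((iv p).2 l)
    have b := s1 p hp _ (inv_mem hp)
    have c := s1 1 (one_mem _) 1 (one_mem _)
    rw [mul_inv_cancel] at b
    rw [mul_one] at c
    linarith
  exact ((ay p hp).resolve_right n).resolve_left fun e => n (Or.inl e.symm)

/-- The elements on which two characters are positive form a cone. -/
theorem cone_two {P : Subgroup G} {s t : G → ℝ}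
    (hs : ∀ p ∈ P, ∀ q ∈ P, s (p * q) = s p + s q) (ht : ∀ p ∈ P, ∀ q ∈ P, t (p * q) = t p + t q) :
    Cone P {p | p ∈ P ∧ 0 < s p ∧ 0 < t p} := by
  have z : ∀ s : G → ℝ, (∀ p ∈ P, ∀ q ∈ P, s (p * q) = s p + s q) → s 1 = 0 := fun s hs => by
    have := hs 1 P.one_mem 1 P.one_mem
    rw [mul_one] at this
    linarith
  have pw : ∀ s : G → ℝ, (∀ p ∈ P, ∀ q ∈ P, s (p * q) = s p + s q) → ∀ a ∈ P, ∀ n : ℕ,
      s (a ^ n) = n * s a := fun s hs a ha n => by
    induction n with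
    | zero => simpa using z s hs
    | succ n ih =>
      rw [pow_succ, hs _ (P.pow_mem ha n) a ha, ih]
      push_cast
      ring
  refine ⟨fun a ha => ha.1, fun a ha b hb => ⟨P.mul_mem ha.1 hb.1, ?_, ?_⟩,
    fun k => (z s hs).not_gt k.2.1, fun a ha p hp => ?_⟩
  · rw [hs a ha.1 b hb.1]
    exact add_pos ha.2.1 hb.2.1
  · rw [ht a ha.1 b hb.1]
    exact add_pos ha.2.2 hb.2.2
  · obtain ⟨N, k⟩ := exists_nat_gt (max (-s p / s a) (-t p / t a))
    have k1 := (div_lt_iff₀ ha.2.1).1 ((le_max_left _ _).trans_lt k)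
    have k2 := (div_lt_iff₀ ha.2.2).1 ((le_max_right _ _).trans_lt k)
    refine ⟨N, P.mul_mem (P.pow_mem ha.1 N) hp, ?_, ?_⟩
    · rw [hs _ (P.pow_mem ha.1 N) p hp, pw s hs a ha.1]
      linarith
    · rw [ht _ (P.pow_mem ha.1 N) p hp, pw t ht a ha.1]
      linarith

end Pool.Agent.Work.MP_3d425c_gt.To
end

-- merged part: Pool.Agent.Work.MP_3d425c_gt.To.Sign
section
/-! The sign of the winding number from a point to its translates by an abelian group. -/

namespace Pool.Agent.Work.MP_3d425c_gt.To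
open Set Filter Topology Pool.Agent.Work.MP_3d425c_gt.Cy

variable {G X : Type*} [Group G] [MulAction G X] {C : Set (ℝ → X)} {up : X → X → Prop}

/-- the powers of `a` push `y` upwards beyond every translate of `y` by `P` -/
def Cof (up : X → X → Prop) (P : Subgroup G) (a : G) (y : X) : Prop :=
  Lt up y (a • y) ∧ ∀ p ∈ P, ∃ k : ℕ, Le up (p • y) (a ^ k • y)

/-- `a` and `b` move `x` to the same side for the relation `r` -/
def Sd (r : X → X → Prop) (a b : G) (x : X) : Prop :=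
  (r x (a • x) ∧ r x (b • x)) ∨ (r (a • x) x ∧ r (b • x) x)

theorem jump_symm {j : X × Bool} {x y : X} (k : Jump C up j x y) : Jump C up j y x :=
  let ⟨a, b, ha, hb, n, hx, hy⟩ := k
  ⟨b, a, hb, ha, n.symm, hy, hx⟩

theorem jump_same {j : X × Bool} {x y w : X} (s : Same C up j x y) (k : Jump C up j x w) :
    Jump C up j y w :=
  let ⟨a, b, ha, hb, n, hx, hy⟩ := k
  ⟨a, b, ha, hb, n, (s a ha).1 hx, hy⟩

theorem same_symm {j : X × Bool} {x y : X} (s : Same C up j x y) : Same C up j y x :=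
  fun a ha => (s a ha).symm

namespace Om
section NoOrd
variable (h : Om G C up)
include h

theorem jump_irr (j : X × Bool) (x : X) : ¬ Jump C up j x x := by
  rintro ⟨a, b, ha, hb, n, hx, hy⟩
  exact n (h.hm_unique (h.hE_equiv.trans (h.hE_equiv.symm ha) hb) hx hy)

theorem jump_sep {j : X × Bool} {x y z : X} (k : Jump C up j y x) (s : Same C up j x z) :
    up y x ↔ up y z := by
  obtain ⟨a, b, ha, hb, n, hy, hx⟩ := k
  have q : ¬ hm up b y := fun q =>
    n (h.hm_unique (h.hE_equiv.trans (h.hE_equiv.symm ha) hb) hy q)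
  exact (h.windA_nest q hx).trans (h.windA_nest q ((s b hb).1 hx)).symm

theorem wdJ_self (x : X) : wdJ h x x = 0 := wdN_zero fun J => h.jump_irr J.out x

theorem wdJ_symm (x y : X) : wdJ h x y = wdJ h y x := by
  unfold wdJ
  congr 1
  funext J
  exact propext ⟨jump_symm, jump_symm⟩

theorem le_hm {x y : X} (k : Le up x y) : hm up (x, true) y := by
  simp only [hm, if_true]
  exact k.elim (fun e => Or.inr e.symm) fun e => Or.inl e.1

theorem lt_nhm {x y : X} (k : Lt up x y) : ¬ hm up (y, true) x := by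
  simp only [hm, if_true]
  rintro (a | rfl)
  · exact k.2 a
  · exact k.2 k.1

/-- The number of jumps is additive across a separating point. -/
theorem wdJ_add {x y z : X} (k : ¬ (up y x ↔ up y z)) : wdJ h x z = wdJ h x y + wdJ h y z := by
  have nc : ∀ j, Same C up j y x ∨ Same C up j x z ∨ Same C up j z y := fun j => by
    by_contra n
    exact k (h.centre_sep (j := j) ⟨fun a => n (.inl a), fun a => n (.inr (.inl a)),
      fun a => n (.inr (.inr a))⟩)
  refine wdN_or (wd_fin h x z) (fun J => ?_) fun J a b => ?_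
  · rcases nc J.out with s | s | s
    · exact ⟨fun a => .inr (jump_same (same_symm s) a), fun a => a.elim
        (fun a => absurd (jump_same (same_symm s) a) (h.jump_irr _ _)) (jump_same s)⟩
    · refine ⟨fun a => absurd (jump_same s a) (h.jump_irr _ _), fun a => (k ?_).elim⟩
      rcases a with a | a
      · exact h.jump_sep (jump_symm a) s
      · exact (h.jump_sep a (same_symm s)).symm
    · exact ⟨fun a => .inl (jump_symm (jump_same s (jump_symm a))), fun a => a.elim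
        (fun a => jump_symm (jump_same (same_symm s) (jump_symm a)))
        fun a => absurd (jump_same (same_symm s) a) (h.jump_irr _ _)⟩
  · rcases nc J.out with s | s | s
    · exact h.jump_irr _ _ (jump_same (same_symm s) a)
    · exact k (h.jump_sep (jump_symm a) s)
    · exact h.jump_irr _ _ (jump_same (same_symm s) b)

theorem wdJ_chain {x y z : X} (k : Le up x y) (l : Le up y z) :
    wdJ h x z = wdJ h x y + wdJ h y z := by
  rcases k with rfl | k
  · rw [h.wdJ_self, zero_add]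
  · rcases l with rfl | l
    · rw [h.wdJ_self, add_zero]
    · exact h.wdJ_add fun e => k.2 (e.2 l.1)

theorem cof_ge {P : Subgroup G} {a : G} {y : X} (k : Cof up P a y) {p : G} (hp : p ∈ P) :
    ∃ K : ℕ, ∀ n, K ≤ n → Le up (p • y) (a ^ n • y) := by
  obtain ⟨K, hK⟩ := k.2 p hp
  refine ⟨K, fun n hn => ?_⟩
  obtain ⟨m, rfl⟩ := Nat.exists_eq_add_of_le hn
  rw [pow_add, mul_smul]
  exact h.le_trans' hK ((h.le_smul _).2 (h.le_pow (Or.inr k.1) m))

/-- Cofinality is checked on generators. -/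
theorem cof_gen {P : Subgroup G} (hP : ∀ p ∈ P, ∀ q ∈ P, p * q = q * p) {S : Set G}
    (hS : Subgroup.closure S = P) {a : G} (ha : a ∈ P) {y : X} (k : Lt up y (a • y))
    (l : ∀ g ∈ S, (∃ n : ℕ, Le up y ((a ^ n * g) • y)) ∧ ∃ n : ℕ, Le up y ((a ^ n * g⁻¹) • y)) :
    Cof up P a y := by
  have key : ∀ p ∈ P, (∃ n : ℕ, Le up y ((a ^ n * p) • y)) ∧
      ∃ n : ℕ, Le up y ((a ^ n * p⁻¹) • y) := by
    have mul : ∀ u ∈ P, ∀ v ∈ P, (∃ n : ℕ, Le up y ((a ^ n * u) • y)) →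
        (∃ n : ℕ, Le up y ((a ^ n * v) • y)) → ∃ n : ℕ, Le up y ((a ^ n * (u * v)) • y) := by
      rintro u hu v hv ⟨m, hm⟩ ⟨n, hn⟩
      refine ⟨m + n, ?_⟩
      have e : a ^ (m + n) * (u * v) = a ^ m * u * (a ^ n * v) := by
        rw [pow_add, mul_assoc, mul_assoc, ← mul_assoc (a ^ n), ← mul_assoc u,
          hP u hu _ (P.pow_mem ha n)]
      rw [e, mul_smul]
      exact h.le_trans' hm ((h.le_smul _).2 hn)
    intro p hp
    rw [← hS] at hp
    induction hp using Subgroup.closure_induction with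
    | mem g hg => exact l g hg
    | one => exact ⟨⟨0, Or.inl (by simp)⟩, ⟨0, Or.inl (by simp)⟩⟩
    | mul u v hu hv iu iv =>
      rw [hS] at hu hv
      refine ⟨mul u hu v hv iu.1 iv.1, ?_⟩
      rw [mul_inv_rev]
      exact mul _ (P.inv_mem hv) _ (P.inv_mem hu) iv.2 iu.2
    | inv u _ iu => exact ⟨iu.2, by simpa using iu.1⟩
  refine ⟨k, fun p hp => ?_⟩
  obtain ⟨n, hn⟩ := (key p hp).2
  refine ⟨n, ?_⟩
  have := (h.le_smul p).2 hn
  rwa [← mul_smul, hP p hp _ (P.mul_mem (P.pow_mem ha n) (P.inv_mem hp)), inv_mul_cancel_right]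
    at this

/-- A point of the open side sees the other side like the boundary point. -/
theorem hm_see {e : X × Bool} {x z : X} (hx : hm up e x) (n : x ≠ e.1) (hz : ¬ hm up e z) :
    up x z ↔ up x e.1 :=
  h.windA_nest (b := (e.1, !e.2)) (windA_compl' hx n) (windA_compl hz)

end NoOrd

section Ord
variable (h : Om G C up) {lo hi : X → X → Prop} (hlo : ClassOrd G (LG C) lo)
  (hhi : ClassOrd G (LG (dualC C)) hi)
include hlo hhi

theorem wdJ_smul (g : G) (x y : X) : wdJ h (g • x) (g • y) = wdJ h x y := by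
  rw [wdJ_eq h hlo hhi, wdJ_eq h hlo hhi, wdP_smul h hlo hhi, wdP_smul h hlo hhi]

theorem wdW_chain {x y z : X} (k : Le up x y) (l : Le up y z) :
    wdW h lo hi x z = wdW h lo hi x y + wdW h lo hi y z := by
  rcases k with rfl | k
  · rw [wdW_self, zero_add]
  · exact wdW_add h hlo hhi (h.le_hm l) (h.lt_nhm k)

theorem wdW_pow {a : G} {y : X} (k : Le up y (a • y)) (n : ℕ) :
    wdW h lo hi y (a ^ n • y) = n * wdW h lo hi y (a • y) := by
  induction n with
  | zero => simp [wdW_self]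
  | succ n ih =>
    rw [pow_succ, mul_smul, wdW_chain h hlo hhi (h.le_pow k n) ((h.le_smul _).2 k), ih,
      wdW_smul h hlo hhi]
    push_cast
    ring

theorem wdJ_pow {a : G} {y : X} (k : Le up y (a • y)) (n : ℕ) :
    wdJ h y (a ^ n • y) = n * wdJ h y (a • y) := by
  induction n with
  | zero => simp [wdJ_self]
  | succ n ih =>
    rw [pow_succ, mul_smul, h.wdJ_chain (h.le_pow k n) ((h.le_smul _).2 k), ih,
      wdJ_smul h hlo hhi]
    push_cast
    ring

/-- On an axis the signed and the unsigned translation numbers are proportional. -/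
theorem wd_prop {P : Subgroup G} (hP : ∀ p ∈ P, ∀ q ∈ P, p * q = q * p) {a b : G} (ha : a ∈ P)
    (hb : b ∈ P) {y : X} (hy : Axial up P y) (ka : Le up y (a • y)) (kb : Le up y (b • y)) :
    wdJ h y (b • y) * wdW h lo hi y (a • y) = wdJ h y (a • y) * wdW h lo hi y (b • y) := by
  obtain ⟨A, hA⟩ := Int.eq_ofNat_of_zero_le (wdJ_nonneg h y (a • y))
  obtain ⟨B, hB⟩ := Int.eq_ofNat_of_zero_le (wdJ_nonneg h y (b • y))
  have key : ∀ u v : X, Le up y u → Le up u v → wdJ h y u = wdJ h y v →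
      wdW h lo hi y u = wdW h lo hi y v := by
    intro u v k l e
    have e1 := h.wdJ_chain k l
    have e2 := wdW_chain h hlo hhi k l
    have e3 := wdW_le h hlo hhi u v
    omega
  have e : wdJ h y (a ^ B • y) = wdJ h y (b ^ A • y) := by
    rw [wdJ_pow h hlo hhi ka, wdJ_pow h hlo hhi kb, hA, hB, mul_comm]
  have c := h.ax_smul hP (P.pow_mem ha B) hy (b ^ A * (a ^ B)⁻¹)
    (P.mul_mem (P.pow_mem hb A) (P.inv_mem (P.pow_mem ha B)))
  rw [← mul_smul, inv_mul_cancel_right] at c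
  rw [hA, hB, ← wdW_pow h hlo hhi ka, ← wdW_pow h hlo hhi kb]
  rcases c with c | c
  · exact key _ _ (h.le_pow ka B) c e
  · exact (key _ _ (h.le_pow kb A) c e.symm).symm

theorem cof_jump {P : Subgroup G} {a b : G} (ha : a ∈ P) {y : X} (ka : Le up y (a • y))
    (kb : Cof up P b y) (k : 0 < wdJ h y (a • y)) : 0 < wdJ h y (b • y) := by
  obtain ⟨n, hn⟩ := kb.2 a ha
  have e := h.wdJ_chain ka hn
  rw [wdJ_pow h hlo hhi (Or.inr kb.1)] at e
  have e1 := wdJ_nonneg h (a • y) (b ^ n • y)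
  have e2 := wdJ_nonneg h y (b • y)
  rcases e2.eq_or_lt with e3 | e3
  · rw [← e3, mul_zero] at e
    omega
  · exact e3

theorem cof_sign {P : Subgroup G} (hP : ∀ p ∈ P, ∀ q ∈ P, p * q = q * p) {a b : G} (ha : a ∈ P)
    (hb : b ∈ P) {y : X} (hy : Axial up P y) (ka : Cof up P a y) (kb : Cof up P b y) :
    (0 < wdW h lo hi y (a • y) → 0 < wdW h lo hi y (b • y)) ∧
      (wdW h lo hi y (a • y) < 0 → wdW h lo hi y (b • y) < 0) := by
  have e := wd_prop h hlo hhi hP ha hb hy (Or.inr ka.1) (Or.inr kb.1)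
  have l := wdW_le h hlo hhi y (a • y)
  constructor
  · intro k
    have k1 : 0 < wdJ h y (a • y) := by omega
    have k2 := cof_jump h hlo hhi ha (Or.inr ka.1) kb k1
    have k3 := mul_pos k2 k
    rw [e] at k3
    exact (pos_iff_pos_of_mul_pos k3).1 k1
  · intro k
    have k1 : 0 < wdJ h y (a • y) := by omega
    have k2 := cof_jump h hlo hhi ha (Or.inr ka.1) kb k1
    have k3 := mul_neg_of_pos_of_neg k2 k
    rw [e] at k3
    by_contra n
    exact absurd k3 (not_lt.2 (mul_nonneg k1.le (not_lt.1 n)))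

theorem phi_pow {a : G} {x : X} (k : 0 < phi h lo hi x (a • x)) (n : ℕ) :
    0 < phi h lo hi x (a ^ (n + 1) • x) := by
  induction n with
  | zero => simpa using k
  | succ n ih =>
    rw [pow_succ, mul_smul]
    exact phi_trans h hlo hhi ih (by rwa [phi_smul h hlo hhi])

theorem phi_inv (a : G) (x : X) : phi h lo hi x (a⁻¹ • x) = -phi h lo hi x (a • x) := by
  rw [← phi_smul h hlo hhi a, smul_inv_smul, phi_anti]

theorem phi_root {a : G} {x : X} {n : ℕ} (k : 0 < phi h lo hi x (a ^ n • x)) :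
    0 < phi h lo hi x (a • x) := by
  by_cases e : x = a • x
  · have : a ^ n • x = x :=
      (MulAction.stabilizer G x).pow_mem (MulAction.mem_stabilizer_iff.2 e.symm) n
    rw [this, phi_self] at k
    exact absurd k (lt_irrefl _)
  · by_contra l
    have l1 := phi_ne h hlo hhi e
    have l2 : 0 < phi h lo hi x (a⁻¹ • x) := by
      rw [phi_inv h hlo hhi]
      omega
    rcases n with _ | n
    · rw [pow_zero, one_smul, phi_self] at k
      exact lt_irrefl _ k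
    · have l3 := phi_pow h hlo hhi l2 n
      rw [inv_pow, phi_inv h hlo hhi] at l3
      omega

/-- The winding number from a point of a band to a far translate. -/
theorem phi_band {x y z : X} {g : G} (k1 : Le up y z) (k2 : Le up z (g • y)) (hx : up y x)
    (hz : dualU up z x) : phi h lo hi x (g • x) =
      2 * (wdW h lo hi y (g • y) + (wdW h lo hi x z + wdW h lo hi y x - wdW h lo hi y z)) +
        (wdI (up x z) - wdI (up x y)) := by
  have a1 : up (g • y) (g • x) := h.ups g _ _ hx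
  have a2 : ¬ up (g • y) x := fun a => hz.1 (h.le_up k2 a)
  have a3 : ¬ hm up (z, true) x := by
    simp only [hm, if_true]
    exact fun a => a.elim hz.1 fun e => hz.2 e.symm
  have a4 : ¬ hm up (g • y, true) x := by
    simp only [hm, if_true]
    rintro (a | a)
    · exact a2 a
    · rw [← a] at k2
      exact a3 (h.le_hm k2)
  have a5 : hm up (g • y, true) (g • x) := by
    simp only [hm, if_true]
    exact Or.inl a1
  have b1 := wdW_add h hlo hhi a5 a4
  have b2 := wdW_add h hlo hhi (h.le_hm k2) a3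
  have b3 := wdW_chain h hlo hhi k1 k2
  have b4 := wdW_smul h hlo hhi g y x
  have c1 : up x (g • x) ↔ up x z := h.sep hz.1 hz.2.symm (Or.inl (h.le_up k2 a1))
  have c2 : up (g • x) x ↔ up x y := (h.sep' a1 a2).trans (h.ups_iff g x y)
  unfold phi
  rw [wdI_iff c1, wdI_iff c2]
  omega

theorem sign_band {P : Subgroup G} (hP : ∀ p ∈ P, ∀ q ∈ P, p * q = q * p) {a b p : G}
    (ha : a ∈ P) (hb : b ∈ P) (hp : p ∈ P) {x y : X} (hy : Axial up P y) (k : Le up y (p • y))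
    (hx : up y x) (hz : dualU up (p • y) x) (ka : Cof up P a y) (kb : Cof up P b y) :
    (0 < phi h lo hi x (a • x) → 0 < phi h lo hi x (b • x)) ∧
      (phi h lo hi x (a • x) < 0 → phi h lo hi x (b • x) < 0) := by
  obtain ⟨A, hA⟩ := h.cof_ge ka hp
  obtain ⟨B, hB⟩ := h.cof_ge kb hp
  obtain ⟨d, hd⟩ : ∃ d : ℤ, ∀ g : G, Le up (p • y) (g • y) →
      phi h lo hi x (g • x) = 2 * wdW h lo hi y (g • y) + d :=
    ⟨2 * (wdW h lo hi x (p • y) + wdW h lo hi y x - wdW h lo hi y (p • y)) +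
      (wdI (up x (p • y)) - wdI (up x y)), fun g hg => by
      rw [phi_band h hlo hhi k hg hx hz]
      ring⟩
  obtain ⟨n, n1, n2, n3⟩ : ∃ n : ℕ, A ≤ n + 1 ∧ B ≤ n + 1 ∧ |d| ≤ n :=
    ⟨A + B + d.natAbs, by omega, by omega, by rw [Int.abs_eq_natAbs]; push_cast; omega⟩
  have ea := hd _ (hA _ n1)
  have eb := hd _ (hB _ n2)
  rw [wdW_pow h hlo hhi (Or.inr ka.1)] at ea
  rw [wdW_pow h hlo hhi (Or.inr kb.1)] at eb
  have s1 := cof_sign h hlo hhi hP ha hb hy ka kb
  have s2 := cof_sign h hlo hhi hP hb ha hy kb ka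
  obtain ⟨d1, d2⟩ := abs_le.1 n3
  have big : ∀ w : ℤ, (0 < w → 0 < 2 * (((n + 1 : ℕ) : ℤ) * w) + d) ∧
      (w < 0 → 2 * (((n + 1 : ℕ) : ℤ) * w) + d < 0) := by
    intro w
    have n0 : (0 : ℤ) ≤ n := Int.natCast_nonneg n
    push_cast
    constructor <;> intro k <;> nlinarith
  have same : (0 < phi h lo hi x (a ^ (n + 1) • x) → 0 < phi h lo hi x (b ^ (n + 1) • x)) ∧
      (phi h lo hi x (a ^ (n + 1) • x) < 0 → phi h lo hi x (b ^ (n + 1) • x) < 0) := by
    rw [ea, eb]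
    rcases lt_trichotomy (wdW h lo hi y (a • y)) 0 with w | w | w
    · exact ⟨fun k => absurd k (not_lt.2 ((big _).2 w).le), fun _ => (big _).2 (s1.2 w)⟩
    · have w' : wdW h lo hi y (b • y) = 0 := by
        rcases lt_trichotomy (wdW h lo hi y (b • y)) 0 with v | v | v
        · exact absurd (s2.2 v) w.not_lt
        · exact v
        · exact absurd (s2.1 v) w.not_gt
      rw [w, w']
      exact ⟨id, id⟩
    · exact ⟨fun _ => (big _).1 (s1.1 w), fun k => absurd k (not_lt.2 ((big _).1 w).le)⟩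
  refine ⟨fun k => phi_root h hlo hhi (same.1 (phi_pow h hlo hhi k n)), fun k => ?_⟩
  have k1 : 0 < phi h lo hi x (a⁻¹ • x) := by
    rw [phi_inv h hlo hhi]
    omega
  have k2 := phi_pow h hlo hhi k1 n
  rw [inv_pow, phi_inv h hlo hhi] at k2
  have k3 : 0 < phi h lo hi x (b⁻¹ ^ (n + 1) • x) := by
    rw [inv_pow, phi_inv h hlo hhi]
    have := same.2 (by omega)
    omega
  have k4 := phi_root h hlo hhi k3
  rw [phi_inv h hlo hhi] at k4
  omega

/-- Two points of one junction. -/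
theorem wdW_class {e e' : X × Bool} (E : hE C e e') (o : wdOrd lo hi e e') :
    0 < wdW h lo hi e.1 e'.1 := by
  have Q := h.hE_equiv
  have pos : wdPos C up lo hi e e.1 e'.1 :=
    ⟨e, e', Q.refl e, E, h.windA_self e, h.windA_self e', o⟩
  have z : wdP h lo hi e'.1 e.1 = 0 := wdN_zero fun J hJ => by
    by_cases q : hE C J.out e
    · exact wd_pos_asymm h hlo hhi pos (wd_pos_congr h q hJ)
    · obtain ⟨a, b, ha, hb, hx, hy, o'⟩ := hJ
      have q' : ¬ hE C b e := fun r => q (Q.trans hb r)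
      have := h.hm_unique (Q.trans (Q.symm ha) hb) hx (h.windA_side E q' hy)
      exact wdOrd_irr hlo hhi a (this ▸ o')
  have f : {J : Quotient (wdS h) | wdPos C up lo hi J.out e.1 e'.1}.Finite :=
    (wd_fin h e.1 e'.1).subset fun J hJ => (wd_jump_iff h hlo hhi _ _ _).2 (Or.inl hJ)
  have p : 0 < wdP h lo hi e.1 e'.1 := by
    have m : wdPos C up lo hi (Quotient.mk (wdS h) e).out e.1 e'.1 :=
      wd_pos_congr h (Q.symm (wd_out h e)) pos
    unfold wdP
    rw [wdN_sum (p := fun J : Quotient (wdS h) => wdPos C up lo hi J.out e.1 e'.1)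
      (T := f.toFinset) fun J hJ => f.mem_toFinset.2 hJ]
    refine Finset.sum_pos' (fun J _ => wdI_nonneg _) ⟨_, f.mem_toFinset.2 m, ?_⟩
    rw [wdI_pos m]
    exact one_pos
  unfold wdW
  omega

/-- Behind a point that moves inside its junction the class order decides. -/
theorem phi_end {ν x : X} {β : Bool} {g : G} (E : hE C (ν, β) (g • ν, β))
    (o : wdOrd lo hi (ν, β) (g • ν, β)) (hx : hm up (ν, β) x) : 0 < phi h lo hi x (g • x) := by
  have ne : (ν, β) ≠ (g • ν, β) := fun e => wdOrd_irr hlo hhi (ν, β) (e ▸ o)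
  have hx' : hm up (g • ν, β) (g • x) := wd_hm_smul h g hx
  have n1 : ¬ hm up (ν, β) (g • x) := fun a => ne (h.hm_unique E a hx')
  have n2 : ¬ hm up (g • ν, β) x := fun a => ne (h.hm_unique E hx a)
  have n3 : ¬ hm up (ν, β) (g • ν) := fun a => ne (h.hm_unique E a (h.windA_self (g • ν, β)))
  have b1 := wdW_add h hlo hhi hx' n2
  have b2 := wdW_add h hlo hhi hx n3
  have b3 := wdW_smul h hlo hhi g ν x
  have b4 := wdW_class h hlo hhi E o
  have b5 := wdW_anti h lo hi x (g • ν)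
  have b6 := wdW_anti h lo hi ν (g • ν)
  have c : up x (g • x) ↔ up (g • x) x := by
    by_cases e : x = ν
    · subst e
      cases β
      · simp only [hm, Bool.false_eq_true, if_false, not_not] at n1 n2
        exact iff_of_true n1 n2
      · simp only [hm, if_true, not_or] at n1 n2
        exact iff_of_false n1.1 n2.1
    · exact (h.hm_see hx e n1).trans ((h.hm_see hx' (fun a => e (smul_left_cancel g a)) n2).trans
        (h.ups_iff g x ν)).symm
  unfold phi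
  rw [wdI_iff c]
  dsimp only at b4
  omega

theorem sign_end {ν x : X} {β : Bool} {a b : G}
    (E : ∀ g, g = a ∨ g = b → hE C (g • ν, β) (ν, β))
    (o : Sd (fun u v => wdOrd lo hi (u, β) (v, β)) a b ν) (hx : hm up (ν, β) x) :
    Sd (fun u v => 0 < phi h lo hi u v) a b x := by
  have Q := h.hE_equiv
  have inv : ∀ g : G, hE C (g • ν, β) (ν, β) → wdOrd lo hi (g • ν, β) (ν, β) →
      0 < phi h lo hi (g • x) x := by
    intro g e k
    have e1 := wd_hE_smul h g⁻¹ e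
    have k1 := wdOrd_smul hlo hhi g⁻¹ k
    simp only [inv_smul_smul] at e1 k1
    have := phi_end h hlo hhi e1 k1 hx
    rwa [← phi_smul h hlo hhi g, smul_inv_smul] at this
  rcases o with o | o
  · exact .inl ⟨phi_end h hlo hhi (Q.symm (E a (.inl rfl))) o.1 hx,
      phi_end h hlo hhi (Q.symm (E b (.inr rfl))) o.2 hx⟩
  · exact .inr ⟨inv a (E a (.inl rfl)) o.1, inv b (E b (.inr rfl)) o.2⟩

/-- FINAL SIGN. If `a` and `b` push every axial point cofinally in the same direction, and move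
the moving points of every invariant class to the same side, then they move every point to the
same side for the winding order. -/
theorem sign {P : Subgroup G} (hP : ∀ p ∈ P, ∀ q ∈ P, p * q = q * p) {S : Set G}
    (hS : Subgroup.closure S = P) (hf : S.Finite) {a b : G} (ha : a ∈ P) (hb : b ∈ P)
    (hax : ∀ y, Axial up P y → (∀ p ∈ P, p • y = y) ∨ (Cof up P a y ∧ Cof up P b y) ∨
      (Cof up P a⁻¹ y ∧ Cof up P b⁻¹ y))
    (hlg : ∀ ν, (∀ p ∈ P, LG C (p • ν) ν) → (∃ p ∈ P, p • ν ≠ ν) → Sd lo a b ν)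
    (hug : ∀ ν, (∀ p ∈ P, LG (dualC C) (p • ν) ν) → (∃ p ∈ P, p • ν ≠ ν) → Sd hi a b ν)
    (x : X) : (∀ p ∈ P, p • x = x) ∨ Sd (fun u v => 0 < phi h lo hi u v) a b x := by
  have band : Band up P x → Sd (fun u v => 0 < phi h lo hi u v) a b x := by
    rintro ⟨y, p, hp, hy, k, hx, hz⟩
    have mv : ∀ g, Cof up P g y → x ≠ g • x := by
      intro g kg e
      obtain ⟨n, hn⟩ := kg.2 p hp
      have e1 : g ^ n • x = x :=
        (MulAction.stabilizer G x).pow_mem (MulAction.mem_stabilizer_iff.2 e.symm) n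
      exact hz.1 (h.le_up hn (e1 ▸ h.ups (g ^ n) _ _ hx))
    have a1 := phi_anti h lo hi x (a • x)
    have a2 := phi_anti h lo hi x (b • x)
    rcases hax y hy with f | ⟨ka, kb⟩ | ⟨ka, kb⟩
    · rw [f p hp] at k
      exact absurd k.1 k.2
    · have s := sign_band h hlo hhi hP ha hb hp hy (Or.inr k) hx hz ka kb
      rcases lt_or_gt_of_ne (phi_ne h hlo hhi (mv a ka)) with l | l
      · have := s.2 l
        exact .inr ⟨by omega, by omega⟩
      · exact .inl ⟨l, s.1 l⟩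
    · have s := sign_band h hlo hhi hP (P.inv_mem ha) (P.inv_mem hb) hp hy (Or.inr k) hx hz ka kb
      have n := phi_ne h hlo hhi (mv a⁻¹ ka)
      rw [phi_inv h hlo hhi] at n
      rw [phi_inv h hlo hhi, phi_inv h hlo hhi] at s
      rcases lt_or_gt_of_ne n with l | l
      · have := s.2 l
        exact .inl ⟨by omega, by omega⟩
      · have := s.1 l
        exact .inr ⟨by omega, by omega⟩
  have axb : ∀ g ∈ P, Axial up P x → Lt up x (g • x) → Band up P x := by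
    intro g hg hx k
    have k1 : Lt up (g⁻¹ • x) x := by simpa using (h.lt_smul g⁻¹).2 k
    refine ⟨g⁻¹ • x, g * g, P.mul_mem hg hg, h.ax_smul hP (P.inv_mem hg) hx, ?_, k1.1, ?_⟩
    · rw [mul_smul, smul_inv_smul]
      exact h.lt_trans' k1 k
    · rw [mul_smul, smul_inv_smul]
      exact ⟨k.2, fun e => h.irr x (by simpa only [e] using k.1)⟩
  rcases h.proj hP hS hf x with k | k | ⟨ν, k1, k2, k3⟩ | ⟨ν, k1, k2, k3⟩
  · rcases hax x k with f | ⟨ka, -⟩ | ⟨ka, -⟩
    · exact .inl f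
    · exact .inr (band (axb a ha k ka.1))
    · exact .inr (band (axb a⁻¹ (P.inv_mem ha) k ka.1))
  · exact .inr (band k)
  · refine .inr (sign_end h hlo hhi (β := true) (ν := ν) ?_ ?_ ?_)
    · rintro g (rfl | rfl)
      · simpa [hE] using k1 g ha
      · simpa [hE] using k1 g hb
    · simpa [wdOrd] using hlg ν k1 k2
    · simpa [hm] using k3
  · refine .inr (sign_end h hlo hhi (β := false) (ν := ν) ?_ ?_ ?_)
    · rintro g (rfl | rfl)
      · simpa [hE] using k1 g ha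
      · simpa [hE] using k1 g hb
    · simpa [wdOrd] using hug ν k1 k2
    · simpa [hm] using (h.windA_dual ν x).1 k3

end Ord
end Om

end Pool.Agent.Work.MP_3d425c_gt.To
end

-- merged part: Pool.Agent.Work.MP_3d425c_gt.To.Cv0
section
/-! Conversion of a zigzag into a line: the definitions. -/

namespace Pool.Agent.Work.MP_3d425c_gt.To.Cv
open Set Filter Topology Pool.Agent.Work.MP_3d425c_gt.Cy

universe u

/-- stabilisers lie in cyclic subgroups -/
def Cyc (G X : Type*) [Group G] [MulAction G X] : Prop :=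
  ∀ x : X, ∃ k : G, ∀ a : G, a • x = x → a ∈ Subgroup.zpowers k

/-- a countable set is dense in every chart -/
def Sep {X : Type*} (C : Set (ℝ → X)) : Prop :=
  ∃ D : Set X, D.Countable ∧ ∀ c ∈ C, ∀ u v : ℝ, u < v → ∃ t ∈ Ioo u v, c t ∈ D

/-- separable objects with cyclic stabilisers -/
structure Ob (G : Type*) {X : Type*} [Group G] [MulAction G X] (C : Set (ℝ → X))
    (up : X → X → Prop) : Prop where
  om : Om G C up
  cy : Cyc G X
  sp : Sep C

/-- the index set of the cells of a family of zigzags; `nx` is the next cell -/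
structure Ix (G : Type*) {I : Type*} [Group G] [MulAction G I] (nx : Equiv.Perm I) : Prop where
  cnt : Countable I
  eq : ∀ (g : G) i, nx (g • i) = g • nx i
  nt : ∀ i : I, ∃ g : G, g ≠ 1 ∧ g • i = i
  mal : ∀ (g : G) (i j : I), g ≠ 1 → g • i = i → g • j = j → ∃ k : ℤ, j = (nx ^ k) i

/-- a family of zigzags -/
structure ZZ (G : Type*) {X I : Type*} [Group G] [MulAction G X] [MulAction G I]
    (C : Set (ℝ → X)) (nx : Equiv.Perm I) (ν ν' ω ω' : I → X) : Prop where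
  e1 : ∀ (g : G) i, ν (g • i) = g • ν i
  e2 : ∀ (g : G) i, ν' (g • i) = g • ν' i
  e3 : ∀ (g : G) i, ω (g • i) = g • ω i
  e4 : ∀ (g : G) i, ω' (g • i) = g • ω' i
  lg : ∀ i, LG C (ν i) (ν' i)
  ne : ∀ i, ν i ≠ ν' i
  le : ∀ i, Ax.Le C (ν i) (ω i)
  le' : ∀ i, Ax.Le C (ν' i) (ω' i)
  ug : ∀ i, LG (dualC C) (ω' i) (ω (nx i))
  ne' : ∀ i, ω' i ≠ ω (nx i)

/-- one zigzag as four sequences on which `P` acts by the shifts `δ` -/
structure Sq {G X : Type*} [Group G] [MulAction G X] (C : Set (ℝ → X)) (P : Subgroup G)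
    (δ : G → ℤ) (ν ν' ω ω' : ℤ → X) : Prop where
  add : ∀ p ∈ P, ∀ q ∈ P, δ (p * q) = δ p + δ q
  e1 : ∀ p ∈ P, ∀ k, p • ν k = ν (k + δ p)
  e2 : ∀ p ∈ P, ∀ k, p • ν' k = ν' (k + δ p)
  e3 : ∀ p ∈ P, ∀ k, p • ω k = ω (k + δ p)
  e4 : ∀ p ∈ P, ∀ k, p • ω' k = ω' (k + δ p)
  lg : ∀ k, LG C (ν k) (ν' k)
  ne : ∀ k, ν k ≠ ν' k
  le : ∀ k, Ax.Le C (ν k) (ω k)
  le' : ∀ k, Ax.Le C (ν' k) (ω' k)
  ug : ∀ k, LG (dualC C) (ω' k) (ω (k + 1))
  ne' : ∀ k, ω' k ≠ ω (k + 1)

/-- a point fixed by an element no power of which fixes a cell -/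
def Fo (G I : Type*) {X : Type*} [Group G] [MulAction G X] [MulAction G I] (x : X) : Prop :=
  ∃ g : G, g • x = x ∧ ∀ (n : ℤ) (i : I), n ≠ 0 → g ^ n • i ≠ i

/-- a point fixed by a nontrivial element that fixes a cell -/
def Nat' (G I : Type*) {X : Type*} [Group G] [MulAction G X] [MulAction G I] (x : X) : Prop :=
  ∃ (g : G) (i : I), g ≠ 1 ∧ g • i = i ∧ g • x = x

/-- maps that keep ascending pairs and foreign junctions -/
structure Mor (G I : Type*) {X Y : Type*} [Group G] [MulAction G X] [MulAction G Y] [MulAction G I]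
    (C : Set (ℝ → X)) (C' : Set (ℝ → Y)) (j : X → Y) : Prop where
  eq : ∀ (g : G) x, j (g • x) = g • j x
  asc : ∀ x y, Asc C x y → Asc C' (j x) (j y)
  jl : ∀ x y, Fo G I x → Fo G I y → LG C x y → x ≠ y → LG C' (j x) (j y) ∧ j x ≠ j y
  ju : ∀ x y, Fo G I x → Fo G I y → LG (dualC C) x y → x ≠ y →
    LG (dualC C') (j x) (j y) ∧ j x ≠ j y

/-- a speed on the cells -/
structure Sp (G : Type*) {I : Type*} [Group G] [MulAction G I] (nx : Equiv.Perm I)
    (σ : G → I → ℝ) : Prop where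
  coc : ∀ (g h : G) i, σ (g * h) i = σ g (h • i) + σ h i
  nx : ∀ (g : G) i, σ g (nx i) = σ g i
  ker : ∀ (g : G) i, g • i = i → σ g i = 0 → g = 1

end Pool.Agent.Work.MP_3d425c_gt.To.Cv
end

-- merged part: Pool.Agent.Work.MP_3d425c_gt.To.CvS
section
/-! A zigzag as four sequences. -/

namespace Pool.Agent.Work.MP_3d425c_gt.To.Cv
open Set Filter Topology Pool.Agent.Work.MP_3d425c_gt.Cy Ax

universe u v w
variable {G : Type v} {X : Type u} [Group G] [MulAction G X] {C : Set (ℝ → X)} {up : X → X → Prop}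

theorem sq_le_dual {x y : X} : Ax.Le (dualC C) x y ↔ Ax.Le C y x := by
  simp only [Ax.Le, asc_dual, eq_comm]

/-- one step of a zigzag: up from `b` to `o'`, over to `o`, down to `a`, over to `b'` -/
structure St (C : Set (ℝ → X)) (b o' o a b' : X) : Prop where
  ug : LG (dualC C) o' o
  ne : o' ≠ o
  le : Ax.Le C b o'
  lg : LG C a b'
  ne' : a ≠ b'
  le' : Ax.Le C a o

section
variable (h : Om G C up)
include h

theorem sq_uc_dual {x y : X} : Uc (dualU up) x y ↔ ¬ up x y := by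
  refine ⟨fun k => k.elim And.left fun e => e ▸ h.irr y, fun k => ?_⟩
  by_cases e : y = x
  exacts [.inr e, .inl ⟨k, Ne.symm e⟩]

theorem sq_le_up {x y z : X} (a : Ax.Le C x y) (b : up y z) : up x z :=
  a.elim (fun e => e ▸ b) fun e => (asc_nest h e).sub h (.inl b)

theorem sq_ug {m n x : X} (l : LG (dualC C) m n) (ne : m ≠ n) (a : ¬ up m x) : up n x :=
  by_contra fun b => ne (lg_disj h.dual l ((sq_uc_dual h).2 a) ((sq_uc_dual h).2 b))

/-- the first jump of a path -/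
theorem sq_first {x y : X} (nc : ¬ Cmp C x y) :
    (∃ m n, LG C m n ∧ m ≠ n ∧ Ax.Le C m x ∧ Uc up n y) ∨
      ∃ m n, LG (dualC C) m n ∧ m ≠ n ∧ Ax.Le C x m ∧ ¬ up n y := by
  classical
  have ex := chn_univ h x y
  obtain ⟨N, e, hm⟩ : ∃ N, Chn (Cmp C) univ N x y ∧ ∀ j < N, ¬ Chn (Cmp C) univ j x y :=
    ⟨Nat.find ex, Nat.find_spec ex, fun j a => Nat.find_min ex a⟩
  rcases N with _ | _ | k
  · exact absurd (e.zero ▸ cmp_refl x) nc
  · obtain ⟨y, r, e'⟩ := e.succ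
    exact absurd (e'.zero ▸ r) nc
  obtain ⟨z, r, e⟩ := e.succ
  obtain ⟨w, r', e⟩ := e.succ
  rcases r with (r | r) | r | r
  · exact absurd (.cons trivial (r ▸ r') e) (hm (k + 1) (by omega))
  · have := valley h.dual (mem_univ x) (asc_dual.2 r) (k := k) (y := w) (x' := y)
    rw [cmp_dual] at this
    obtain ⟨m, n, l, ne, -, a2, -, -, a5⟩ := this r' e hm
    exact .inr ⟨m, n, l, ne, sq_le_dual.1 a2, (sq_uc_dual h).1 a5⟩
  · exact absurd (.cons trivial (r ▸ r') e) (hm (k + 1) (by omega))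
  · obtain ⟨m, n, l, ne, -, a2, -, -, a5⟩ := valley h (mem_univ x) r r' e hm
    exact .inl ⟨m, n, l, ne, a2, a5⟩

/-- the first jump is unique -/
theorem sq_uniq {m n m' n' x y : X} (l : LG C m n) (ne : m ≠ n) (a : Ax.Le C m x) (b : Uc up n y)
    (l' : LG C m' n') (ne' : m' ≠ n') (a' : Ax.Le C m' x) (b' : Uc up n' y) : m = m' ∧ n = n' := by
  have k : ∀ {m n m' n' : X}, LG C m n → m ≠ n → Uc up n y → LG C m' n' → Uc up n' y →
      ¬ Asc C m m' := fun l ne b l' b' e =>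
    ne (lg_disj h l (.inl ((asc_nest h (asc_lg h e l')).sub h b')) b)
  have e : m = m' := by
    by_contra q
    have nc : ¬ Cmp C m m' := by
      rintro ((e | e) | e | e)
      exacts [q e, k l ne b l' b' e, q e.symm, k l' ne' b' l b e]
    have a1 : Asc C m x := a.resolve_left fun e => nc (.inr (e ▸ a'))
    have a2 : Asc C m' x := a'.resolve_left fun e => nc (.inl (e ▸ a))
    obtain ⟨u, u', c1, c2, -, c3, -, c4⟩ := branch h.dual (asc_dual.2 a1) (asc_dual.2 a2)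
      (by rwa [cmp_dual])
    refine ne' (lg_disj h l' (.inl (sq_le_up h (sq_le_dual.1 c4) (sq_ug h c1 c2 fun z => ?_))) b')
    exact ne (lg_disj h l (.inl (sq_le_up h (sq_le_dual.1 c3) z)) b)
  exact ⟨e, lg_disj h (h.lg_trans (Om.lg_symm l) (e ▸ l')) b b'⟩

variable {b o' o a b' x y : X}

theorem St.back (s : St C b o' o a b') (k : ¬ up b x) : up a x :=
  sq_le_up h s.le' (sq_ug h s.ug s.ne fun z => k (sq_le_up h s.le z))

theorem St.out (s : St C b o' o a b') (k : ¬ up b x) : ¬ Uc up b' x := fun z =>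
  s.ne' (lg_disj h s.lg (.inl (s.back h k)) z)

theorem St.dn (s : St C b o' o a b') (k : Uc up b' y) : ¬ up o y := fun z =>
  s.ne' (lg_disj h s.lg (.inl (sq_le_up h s.le' z)) k)

theorem St.nest (s : St C b o' o a b') : Nest up b b' :=
  ⟨sq_le_up h s.le (sq_ug h (Om.lg_symm s.ug) s.ne.symm (s.dn h (.inr rfl))),
    fun z => s.out h (h.irr b) (.inl z)⟩

theorem St.smul (g : G) (s : St C b o' o a b') :
    St C (g • b) (g • o') (g • o) (g • a) (g • b') :=
  ⟨h.dual.lg_smul g s.ug, fun e => s.ne (smul_left_cancel g e), le_smul h g s.le,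
    h.lg_smul g s.lg, fun e => s.ne' (smul_left_cancel g e), le_smul h g s.le'⟩

theorem St.uniq {p' p c d : X} (s : St C b o' o a b') (r : St C b p' p c d) (k : Uc up b' y)
    (l : Uc up d y) : o' = p' ∧ o = p ∧ a = c ∧ b' = d := by
  obtain ⟨e1, e2⟩ := sq_uniq h.dual s.ug s.ne (sq_le_dual.2 s.le) ((sq_uc_dual h).2 (s.dn h k))
    r.ug r.ne (sq_le_dual.2 r.le) ((sq_uc_dual h).2 (r.dn h l))
  exact ⟨e1, e2, sq_uniq h s.lg s.ne' s.le' k r.lg r.ne' (e2 ▸ r.le') l⟩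

theorem St.next (s : St C b o' o a b') (k : Uc up b' y) (n : ¬ up y b) (e : b' ≠ y) :
    Nest up b' y := by
  refine ⟨k.resolve_right e.symm, fun z => n ?_⟩
  have na : ¬ Uc up a y := fun q => s.ne' (lg_disj h s.lg q k)
  exact (h.sep (fun q => na (.inl q)) (fun q => na (.inr q)) (.inl (s.back h (h.irr b)))).2
    (h.lg_up (Om.lg_symm s.lg) z)

theorem sq_step (k : Nest up b y) (nc : ¬ Cmp C b y) :
    ∃ o' o a b', St C b o' o a b' ∧ Uc up b' y := by
  rcases sq_first h nc with ⟨m, n, l, ne, a1, a2⟩ | ⟨o', o, l, ne, a1, a2⟩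
  · exact absurd (lg_disj h l (.inl (sq_le_up h a1 k.1)) a2) ne
  have ob : up o b := sq_ug h l ne fun z => h.irr b (sq_le_up h a1 z)
  have nc' : ¬ Cmp C o y := by
    rintro ((e | e) | e)
    exacts [k.2 (e ▸ ob), a2 (asc_nest h e).1, k.2 (sq_le_up h e ob)]
  rcases sq_first h nc' with ⟨m, n, l', ne', b1, b2⟩ | ⟨m, n, l', ne', b1, b2⟩
  · exact ⟨o', o, m, n, ⟨l, ne, a1, l', ne', b1⟩, b2⟩
  · exact absurd (sq_ug h l' ne' fun z => a2 (sq_le_up h b1 z)) b2

/-- the finite chain of steps from `n` to `t • n` -/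
theorem sq_chain {t : G} {m n : X} (sk : Skew C up t m n) :
    ∃ (N : ℕ) (β o' o a : ℕ → X), 0 < N ∧ β 0 = n ∧ β N = t • n ∧
      (∀ i < N, St C (β i) (o' i) (o i) (a i) (β (i + 1))) ∧
      ∀ τ : G, τ • n = n → τ • t • n = t • n → ∀ i < N,
        τ • β i = β i ∧ τ • o' i = o' i ∧ τ • o i = o i ∧ τ • a i = a i := by
  classical
  haveI : Nonempty X := ⟨n⟩
  have st : ∀ b, ¬ up b n ∧ Nest up b (t • n) →
      ∃ o' o a b', St C b o' o a b' ∧ Uc up b' (t • n) := fun b k => by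
    refine sq_step h k.2 ?_
    rintro ((e | e) | e | e)
    · exact k.2.2 (e ▸ e ▸ k.2.1)
    · exact k.1 ((asc_nest h (asc_lg h e (h.lg_smul t (Om.lg_symm sk.lg)))).sub h
        (.inl (h.lg_up sk.lg sk.um)))
    · exact k.2.2 (e ▸ e.symm ▸ k.2.1)
    · exact k.2.2 (asc_nest h e).1
  choose! o' o a f hf using st
  have ex : ∃ N, ¬ (¬ up (f^[N] n) n ∧ Nest up (f^[N] n) (t • n)) := by
    by_contra k
    have k : ∀ N, ¬ up (f^[N] n) n ∧ Nest up (f^[N] n) (t • n) := fun N =>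
      by_contra fun q => k ⟨N, q⟩
    have mo : ∀ i j : ℕ, Nest up (f (f^[i] n)) (f (f^[i + j + 1] n)) := fun i j => by
      induction j with
      | zero => simpa only [Function.iterate_succ_apply'] using (hf _ (k (i + 0 + 1))).1.nest h
      | succ j ih =>
        refine ih.trans h ?_
        simpa only [Function.iterate_succ_apply', ← add_assoc] using
          (hf _ (k (i + j + 1 + 1))).1.nest h
    have ne : ∀ i j : ℕ, i < j → f (f^[i] n) ≠ f (f^[j] n) := fun i j l e => by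
      obtain ⟨r, rfl⟩ := Nat.exists_eq_add_of_lt l
      exact h.irr _ (e ▸ (mo i r).1)
    refine jump_fin h (fun i : ℕ => a (f^[i] n)) (fun i => f (f^[i] n))
      (fun i => (hf _ (k i)).1.lg) (fun i => (hf _ (k i)).1.ne') (fun i j e => ?_) (x := n)
      (fun i => .inl ((hf _ (k i)).1.back h (k i).1)) fun i => (hf _ (k i)).2
    rcases lt_trichotomy i j with l | l | l
    exacts [absurd e (ne i j l), l, absurd e.symm (ne j i l)]
  have gd : ∀ i < Nat.find ex, ¬ up (f^[i] n) n ∧ Nest up (f^[i] n) (t • n) := fun i l =>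
    not_not.1 (Nat.find_min ex l)
  have bad := Nat.find_spec ex
  generalize Nat.find ex = N at gd bad
  rcases N with _ | N
  · exact absurd ⟨h.irr n, sk.nest h⟩ bad
  refine ⟨N + 1, fun i => f^[i] n, fun i => o' (f^[i] n), fun i => o (f^[i] n),
    fun i => a (f^[i] n), N.succ_pos, rfl, ?_, fun i l => ?_, fun τ e1 e2 => ?_⟩
  · by_contra q
    have k := gd N N.lt_succ_self
    simp only [Function.iterate_succ_apply'] at q bad
    exact bad ⟨fun z => (hf _ k).1.out h k.1 (.inl z), (hf _ k).1.next h (hf _ k).2 k.2.2 q⟩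
  · simpa only [Function.iterate_succ_apply'] using (hf _ (gd i l)).1
  · have one : ∀ i < N + 1, τ • f^[i] n = f^[i] n → τ • o' (f^[i] n) = o' (f^[i] n) ∧
        τ • o (f^[i] n) = o (f^[i] n) ∧ τ • a (f^[i] n) = a (f^[i] n) ∧
          τ • f (f^[i] n) = f (f^[i] n) := fun i l e => by
      have k := hf _ (gd i l)
      have k1 := k.1.smul h τ
      have k2 := uc_smul h τ k.2
      rw [e] at k1
      rw [e2] at k2
      exact k1.uniq h k.1 k2 k.2
    have all : ∀ i < N + 1, τ • f^[i] n = f^[i] n := fun i => by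
      induction i with
      | zero => exact fun _ => e1
      | succ i ih =>
        intro l
        rw [Function.iterate_succ_apply']
        exact (one i (by omega) (ih (by omega))).2.2.2
    exact fun i l => ⟨all i l, (one i l (all i l)).1, (one i l (all i l)).2.1,
      (one i l (all i l)).2.2.1⟩

end

/-- periodic extension -/
def sqE (t : G) (N : ℕ) (f : ℕ → X) (k : ℤ) : X := t ^ (k / N) • f (k % N).toNat

theorem sqE_lt {N : ℕ} (hN : 0 < N) (k : ℤ) : (k % N).toNat < N := by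
  have := Int.emod_lt_of_pos k (Int.natCast_pos.2 hN)
  omega

theorem sqE_shift {t τ : G} {N : ℕ} (hN : 0 < N) {f : ℕ → X} (c : τ * t = t * τ)
    (fx : ∀ i < N, τ • f i = f i) (j k : ℤ) :
    (t ^ j * τ) • sqE t N f k = sqE t N f (k + N * j) := by
  rw [sqE, sqE, Int.add_mul_ediv_left _ _ (Int.natCast_pos.2 hN).ne', Int.add_mul_emod_self_left,
    mul_smul, ← mul_smul τ, (Commute.zpow_right c _).eq, mul_smul, fx _ (sqE_lt hN k), ← mul_smul,
    ← zpow_add, add_comm]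

theorem sqE_succ {t : G} {N : ℕ} (hN : 0 < N) {f : ℕ → X} (e : f N = t • f 0) (k : ℤ) :
    sqE t N f (k + 1) = t ^ (k / N) • f ((k % N).toNat + 1) := by
  have hN' : (0 : ℤ) < N := Int.natCast_pos.2 hN
  obtain ⟨a1, a2, a3⟩ := (Int.ediv_emod_unique (a := k) hN').1 ⟨rfl, rfl⟩
  rcases (show k % N + 1 ≤ N from a3).eq_or_lt with q | q
  · obtain ⟨b1, b2⟩ := (Int.ediv_emod_unique (a := k + 1) (q := k / N + 1) (r := 0) hN').2
      ⟨by linarith, le_rfl, hN'⟩
    rw [sqE, b1, b2, show (k % N).toNat + 1 = N by omega, e, zpow_add_one, mul_smul]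
    rfl
  · obtain ⟨b1, b2⟩ := (Int.ediv_emod_unique (a := k + 1) (q := k / N) (r := k % N + 1) hN').2
      ⟨by linarith, by linarith, q⟩
    rw [sqE, b1, b2, show (k % N + 1).toNat = (k % N).toNat + 1 by omega]

theorem seq_of_skew (h : Om G C up) {P : Subgroup G} (hP : ∀ p ∈ P, ∀ q ∈ P, p * q = q * p)
    {s : G → ℝ} (hs : ∀ p ∈ P, ∀ q ∈ P, s (p * q) = s p + s q) {m n : X} (ht : ∃ t ∈ P, s t = 1)
    (hz : ∀ q ∈ P, (∃ k : ℤ, s q = k) ∧ (0 < s q ↔ Ax.Skew C up q m n) ∧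
      (s q = 0 ↔ q • m = m ∧ q • n = n)) :
    ∃ (δ : G → ℤ) (ν ν' ω ω' : ℤ → X), Sq C P δ ν ν' ω ω' ∧
      ∀ p ∈ P, (δ p = 0 ↔ s p = 0) ∧ (0 < δ p ↔ 0 < s p) := by
  obtain ⟨t, tP, t1⟩ := ht
  obtain ⟨N, β, o', o, a, hN, b0, bN, st, fx⟩ :=
    sq_chain h ((hz t tP).2.1.1 (by rw [t1]; exact one_pos))
  have fl : ∀ p ∈ P, s p = ⌊s p⌋ := fun p hp => by
    obtain ⟨k, e⟩ := (hz p hp).1
    rw [e, Int.floor_intCast]
  have sh : ∀ f : ℕ → X, (∀ τ : G, τ • n = n → τ • t • n = t • n → ∀ i < N, τ • f i = f i) →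
      ∀ p ∈ P, ∀ k, p • sqE t N f k = sqE t N f (k + N * ⌊s p⌋) := fun f hf p hp k => by
    have m1 := P.inv_mem (P.zpow_mem tP ⌊s p⌋)
    have m2 := P.mul_mem m1 hp
    have z : ((t ^ ⌊s p⌋)⁻¹ * p) • n = n := ((hz _ m2).2.2.1 (by
      rw [hs _ m1 p hp, add_inv hs (P.zpow_mem tP _), add_zpow hs tP, t1, ← fl p hp]
      ring)).2
    have := sqE_shift hN (hP _ m2 t tP) (hf _ z (by
      rw [← mul_smul, hP _ m2 t tP, mul_smul, z])) ⌊s p⌋ k
    rwa [mul_inv_cancel_left] at this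
  have S := fun k : ℤ => (st _ (sqE_lt hN k)).smul h (t ^ (k / N))
  have nx : ∀ k : ℤ, sqE t N β k = t ^ ((k - 1) / N) • β (((k - 1) % N).toNat + 1) := fun k => by
    rw [← sqE_succ hN (by rw [bN, b0]), sub_add_cancel]
  have hN' : (0 : ℤ) < N := Int.natCast_pos.2 hN
  refine ⟨fun p => N * ⌊s p⌋, fun k => sqE t N a (k - 1), sqE t N β, fun k => sqE t N o (k - 1),
    sqE t N o', ⟨fun p hp q hq => ?_, fun p hp k => ?_, sh β fun τ x y i l => (fx τ x y i l).1,
      fun p hp k => ?_, sh o' fun τ x y i l => (fx τ x y i l).2.1, fun k => ?_, fun k => ?_,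
      fun k => (S (k - 1)).le', fun k => (S k).le, fun k => ?_, fun k => ?_⟩, fun p hp => ?_⟩
  · rw [hs p hp q hq, fl q hq, Int.floor_add_intCast, Int.floor_intCast, mul_add]
  · rw [sh a (fun τ x y i l => (fx τ x y i l).2.2.2) p hp, sub_add_eq_add_sub]
  · rw [sh o (fun τ x y i l => (fx τ x y i l).2.2.1) p hp, sub_add_eq_add_sub]
  · rw [nx]
    exact (S (k - 1)).lg
  · rw [nx]
    exact (S (k - 1)).ne'
  · simp only [add_sub_cancel_right]
    exact (S k).ug
  · simp only [add_sub_cancel_right]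
    exact (S k).ne
  · obtain ⟨k, e⟩ := (hz p hp).1
    simp only [e, Int.floor_intCast, mul_eq_zero, hN'.ne', false_or, Int.cast_eq_zero,
      mul_pos_iff_of_pos_left hN', Int.cast_pos, and_self]

end Pool.Agent.Work.MP_3d425c_gt.To.Cv
end

-- merged part: Pool.Agent.Work.MP_3d425c_gt.To.CvB
section
/-! Conversion of a zigzag into a line: basic facts. -/

namespace Pool.Agent.Work.MP_3d425c_gt.To.Cv
open Set Filter Topology Pool.Agent.Work.MP_3d425c_gt.Cy

universe u v w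
variable {G : Type v} {X : Type u} [Group G] [MulAction G X] {C : Set (ℝ → X)} {up : X → X → Prop}

theorem ap_inv {I : Type*} (f : Equiv.Perm I) (i : I) : f (f⁻¹ i) = i := f.apply_symm_apply i

theorem sep_sat (a : Sep C) : Sep {a | LocChart C a} := by
  obtain ⟨D, hD, k⟩ := a
  refine ⟨D, hD, fun a ha u v uv => ?_⟩
  obtain ⟨d, hd, f, ε, hε, hm, hf, e⟩ := ha u
  obtain ⟨z, z1, z2⟩ := exists_between (lt_min uv (lt_add_of_pos_right u hε))
  have sb : Icc u z ⊆ Ioo (u - ε) (u + ε) :=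
    Icc_subset_Ioo (by linarith) (z2.trans_le (min_le_right _ _))
  obtain ⟨t, ht, q⟩ := k d hd _ _ (hm (sb ⟨le_rfl, z1.le⟩) (sb ⟨z1.le, le_rfl⟩) z1)
  obtain ⟨r, hr, rfl⟩ := intermediate_value_Ioo z1.le (hf.mono sb) ht
  exact ⟨r, ⟨hr.1, hr.2.trans (z2.trans_le (min_le_left _ _))⟩,
    by rwa [e r (sb (Ioo_subset_Icc_self hr))]⟩

theorem uc_sub (h : Om G C up) {a b x : X} (e : Ax.Le C a b) (k : Ax.Uc up b x) : Ax.Uc up a x :=
  e.elim (fun q => q ▸ k) fun q => .inl ((Ax.asc_nest h q).sub h k)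

theorem not_uc {a x : X} (k : ¬ Ax.Uc up a x) : dualU up a x :=
  ⟨fun q => k (.inl q), fun q => k (.inr q.symm)⟩

theorem not_dc {a x : X} (k : ¬ Ax.Uc (dualU up) a x) : up a x :=
  by_contra fun q => k (.inl ⟨q, fun e => k (.inr e.symm)⟩)

theorem le_dc (h : Om G C up) {a x : X} (e : Ax.Le C x a) : Ax.Uc (dualU up) a x :=
  Ax.le_uc h.dual (e.imp Eq.symm Ax.asc_dual.2)

/-- the upper side of one point of a lower junction lies below the top of the other segment -/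
theorem cross (h : Om G C up) {a a' b x : X} (l : LG C a a') (ne : a ≠ a') (e : Ax.Le C a b)
    (k : Ax.Uc up a' x) : dualU up b x :=
  not_uc fun q => ne (Ax.lg_disj h l (uc_sub h e q) k)

theorem cross' (h : Om G C up) {b b' a x : X} (l : LG (dualC C) b b') (ne : b ≠ b')
    (e : Ax.Le C a b) (k : Ax.Uc (dualU up) b' x) : up a x := by
  have q := not_dc fun q => ne (Ax.lg_disj h.dual l q k)
  exact e.elim (fun z => z ▸ q) fun z => (Ax.asc_nest h z).sub h (.inl q)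

section
variable {I : Type w} [MulAction G I] {nx : Equiv.Perm I} {ν ν' ω ω' : I → X}
  {Y Z : Type u} [MulAction G Y] [MulAction G Z] {C' : Set (ℝ → Y)} {C'' : Set (ℝ → Z)}

theorem Mor.fo {j : X → Y} (a : Mor G I C C' j) {x : X} (k : Fo G I x) : Fo G I (j x) :=
  k.imp fun g q => ⟨by rw [← a.eq, q.1], q.2⟩

theorem Mor.comp {j : X → Y} {j' : Y → Z} (a : Mor G I C C' j) (b : Mor G I C' C'' j') :
    Mor G I C C'' (fun x => j' (j x)) :=
  ⟨fun g x => by rw [a.eq, b.eq], fun x y e => b.asc _ _ (a.asc x y e),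
    fun x y k l e n => b.jl _ _ (a.fo k) (a.fo l) (a.jl x y k l e n).1 (a.jl x y k l e n).2,
    fun x y k l e n => b.ju _ _ (a.fo k) (a.fo l) (a.ju x y k l e n).1 (a.ju x y k l e n).2⟩

theorem Mor.dual {j : X → Y} (a : Mor G I C C' j) : Mor G I (dualC C) (dualC C') j :=
  ⟨a.eq, fun _ _ e => Ax.asc_dual.2 (a.asc _ _ (Ax.asc_dual.1 e)), a.ju,
    by simpa only [dualC_dualC] using a.jl⟩

theorem Ob.dual (O : Ob G C up) : Ob G (dualC C) (dualU up) := by
  obtain ⟨D, hD, k⟩ := O.sp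
  refine ⟨O.om.dual, O.cy, D, hD, fun c hc u v uv => ?_⟩
  obtain ⟨t, ht, q⟩ := k _ hc (-v) (-u) (neg_lt_neg uv)
  exact ⟨-t, ⟨by linarith [ht.2], by linarith [ht.1]⟩, q⟩

theorem fix_zpow {g : G} {i : I} (e : g • i = i) (n : ℤ) : g ^ n • i = i :=
  zpow_mem (MulAction.mem_stabilizer_iff.2 e) n

theorem fo_nat (tf : ∀ a : G, a ≠ 1 → ¬ IsOfFinOrder a) (cy : Cyc G X) {x : X} (a : Fo G I x) :
    ¬ Nat' G I x := by
  rintro ⟨g', i, g1, gi, gx⟩
  obtain ⟨g, e, k⟩ := a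
  obtain ⟨z, hz⟩ := cy x
  obtain ⟨m, rfl⟩ := hz g e
  obtain ⟨n, rfl⟩ := hz g' gx
  refine k n i (fun q => g1 (by simp [q])) ?_
  have := fix_zpow gi m
  simp only [← zpow_mul] at this ⊢
  rwa [mul_comm]

theorem sep_qt {π : X → Y} {up' : Y → Y → Prop} (Q : Qt G C π C' up') (a : Sep C) : Sep C' := by
  obtain ⟨D, hD, k⟩ := a
  rw [Q.eqC]
  refine sep_sat ⟨π '' D, hD.image _, ?_⟩
  rintro _ ⟨c, hc, rfl⟩ u v uv
  exact (k c hc u v uv).imp fun t q => ⟨q.1, mem_image_of_mem _ q.2⟩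

theorem Ix.swap (a : Ix G nx) : Ix G nx⁻¹ :=
  ⟨a.cnt, fun g i => by rw [Equiv.Perm.inv_eq_iff_eq, a.eq, ap_inv], a.nt,
    fun g i j g1 gi gj => by
      obtain ⟨k, e⟩ := a.mal g i j g1 gi gj
      exact ⟨-k, by rw [inv_zpow', neg_neg, e]⟩⟩

theorem ZZ.swap (a : Ix G nx) (z : ZZ G C nx ν ν' ω ω') : ZZ G C nx⁻¹ ν' ν ω' ω :=
  ⟨z.e2, z.e1, z.e4, z.e3, fun i => Om.lg_symm (z.lg i), fun i => (z.ne i).symm, z.le', z.le,
    fun i => by simpa only [ap_inv] using Om.lg_symm (z.ug (nx⁻¹ i)),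
    fun i => by simpa only [ap_inv] using (z.ne' (nx⁻¹ i)).symm⟩

/-- the two segments of a cell -/
def Cell (C : Set (ℝ → X)) (ν ν' ω ω' : I → X) (i : I) (x : X) : Prop :=
  (Ax.Le C (ν i) x ∧ Ax.Le C x (ω i)) ∨ (Ax.Le C (ν' i) x ∧ Ax.Le C x (ω' i))

theorem ZZ.side (h : Om G C up) (z : ZZ G C nx ν ν' ω ω') {i : I} {x : X} (a : Ax.Le C (ν i) x)
    (b : Ax.Le C (ν' i) x) : False :=
  z.ne i (Ax.lg_disj h (z.lg i) (Ax.le_uc h a) (Ax.le_uc h b))

theorem ZZ.far (h : Om G C up) (z : ZZ G C nx ν ν' ω ω') {i : I} {x : X} (k : ℕ)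
    (a : Cell C ν ν' ω ω' i x) (b : Cell C ν ν' ω ω' ((nx ^ (k + 1)) i) x) : False := by
  have s : ∀ (k : ℕ) (j : I), Ax.Uc (dualU up) (ω ((nx ^ k) j)) x → Ax.Uc (dualU up) (ω j) x := by
    intro k j
    induction k with
    | zero => exact id
    | succ k ih =>
      rw [pow_succ', Equiv.Perm.mul_apply]
      exact fun q => ih (.inl (cross h (z.lg _) (z.ne _) (z.le _)
        (.inl (cross' h (z.ug _) (z.ne' _) (z.le' _) q))))
  rw [pow_succ, Equiv.Perm.mul_apply] at b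
  refine z.ne' i (Ax.lg_disj h.dual (z.ug i) (x := x) ?_ (s k _ ?_))
  · exact a.elim (fun q => .inl (cross h (Om.lg_symm (z.lg i)) (z.ne i).symm (z.le' i)
      (Ax.le_uc h q.1))) fun q => le_dc h q.2
  · exact b.elim (fun q => le_dc h q.2) fun q => .inl (cross h (z.lg _) (z.ne _) (z.le _)
      (Ax.le_uc h q.1))

theorem ZZ.key (tf : ∀ a : G, a ≠ 1 → ¬ IsOfFinOrder a) (O : Ob G C up) (hI : Ix G nx)
    (z : ZZ G C nx ν ν' ω ω') {i j : I} {x : X} (a : Cell C ν ν' ω ω' i x)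
    (b : Cell C ν ν' ω ω' j x) {g g' : G} (g1 : g ≠ 1) (gi : g • i = i) (gx : g • x = x)
    (g1' : g' ≠ 1) (gj : g' • j = j) (gx' : g' • x = x) : i = j := by
  obtain ⟨w, hw⟩ := O.cy x
  obtain ⟨m, e⟩ := hw g gx
  obtain ⟨n, e'⟩ := hw g' gx'
  have n0 : n ≠ 0 := fun q => g1' (by simpa [q] using e'.symm)
  have q : g ^ n = g' ^ m := by
    simp only [← e, ← e', ← zpow_mul]
    rw [mul_comm]
  obtain ⟨k, rfl⟩ := hI.mal (g ^ n) i j (fun r => n0 (injective_zpow_iff_not_isOfFinOrder.2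
    (tf g g1) (r.trans (zpow_zero g).symm))) (fix_zpow gi n) (q ▸ fix_zpow gj m)
  rcases k with (_ | k) | k
  · rfl
  · exact (z.far O.om k a b).elim
  · refine (z.far O.om k b ?_).elim
    rwa [zpow_negSucc, ap_inv]

theorem push {K : Type*} [MulAction G K] (e : K → X) (inj : Function.Injective e)
    (he : ∀ (g : G) k, e (g • k) = g • e k) (W : G → K → II ≃o II)
    (hW : ∀ g g' k, W (g * g') k = W g (g' • k) * W g' k) :
    ∃ κ : G → X → II ≃o II, (∀ g g' x, κ (g * g') x = κ g (g' • x) * κ g' x) ∧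
      ∀ g k, κ g (e k) = W g k := by
  refine ⟨fun g => Function.extend e (W g) fun _ => 1, fun g g' x => ?_,
    fun g k => inj.extend_apply _ _ _⟩
  by_cases k : ∃ k, e k = x
  · obtain ⟨k, rfl⟩ := k
    simp only [← he, inj.extend_apply, hW]
  · have k' : ¬ ∃ k, e k = g' • x := fun ⟨j, q⟩ => k ⟨g'⁻¹ • j, by rw [he, q, inv_smul_smul]⟩
    simp only [Function.extend_apply' _ _ _ k, Function.extend_apply' _ _ _ k', mul_one]

theorem Mor.le {j : X → Y} (m : Mor G I C C' j) {x y : X} (e : Ax.Le C x y) :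
    Ax.Le C' (j x) (j y) := e.imp (congrArg j) (m.asc x y)

theorem Sq.mor {P : Subgroup G} {δ : G → ℤ} {a a' b b' : ℤ → X} (q : Sq C P δ a a' b b')
    {j : X → Y} (m : Mor G I C C' j) {τ : G} (h1 : τ ∈ P) (h2 : δ τ = 0)
    (h3 : ∀ (n : ℤ) (i : I), n ≠ 0 → τ ^ n • i ≠ i) :
    Sq C' P δ (fun k => j (a k)) (fun k => j (a' k)) (fun k => j (b k)) (fun k => j (b' k)) := by
  have f : ∀ {c : ℤ → X}, (∀ p ∈ P, ∀ k, p • c k = c (k + δ p)) → ∀ k, Fo G I (c k) :=
    fun e k => ⟨τ, by rw [e τ h1, h2, add_zero], h3⟩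
  have l := fun k => m.jl _ _ (f q.e1 k) (f q.e2 k) (q.lg k) (q.ne k)
  have u := fun k => m.ju _ _ (f q.e4 k) (f q.e3 (k + 1)) (q.ug k) (q.ne' k)
  exact ⟨q.add, fun p hp k => by rw [← m.eq, q.e1 p hp], fun p hp k => by rw [← m.eq, q.e2 p hp],
    fun p hp k => by rw [← m.eq, q.e3 p hp], fun p hp k => by rw [← m.eq, q.e4 p hp],
    fun k => (l k).1, fun k => (l k).2, fun k => m.le (q.le k), fun k => m.le (q.le' k),
    fun k => (u k).1, fun k => (u k).2⟩

theorem Sq.lt (h : Om G C up) {P : Subgroup G} {δ : G → ℤ} {a a' b b' : ℤ → X}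
    (q : Sq C P δ a a' b b') {p : G} (hp : p ∈ P) (h0 : 0 < δ p) : Lt up (a' 0) (p • a' 0) := by
  have s : ∀ k, Ax.Nest up (a' k) (a' (k + 1)) := fun k =>
    ⟨cross' h (q.ug k) (q.ne' k) (q.le' k) (.inl (cross h (q.lg _) (q.ne _) (q.le _) (.inr rfl))),
      fun z => q.ne _ (Ax.lg_disj h (q.lg _) (.inl (cross' h (Om.lg_symm (q.ug k)) (q.ne' k).symm
        (q.le _) (le_dc h (q.le' k)))) (.inl z))⟩
  have t : ∀ k : ℕ, Ax.Nest up (a' 0) (a' (k + 1)) := fun k => by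
    induction k with
    | zero => exact s 0
    | succ k ih => exact ih.trans h (s (k + 1))
  obtain ⟨k, e⟩ := Int.eq_ofNat_of_zero_le (show 0 ≤ δ p - 1 by omega)
  rw [q.e2 p hp, zero_add, show δ p = k + 1 by omega]
  exact t k

variable {D : Set X} {κ : G → X → II ≃o II} [MulAction G (Bl D)]

theorem Ob.blow (O : Ob G C up) (hD : D.Countable) (A : BlA D κ) :
    Ob G (blC C D) (blU up D) := by
  refine ⟨O.om.blow hD A, fun p => (O.cy p.1.1).imp fun k q a e => q a (by rw [← A.sm1, e]),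
    sep_sat ?_⟩
  obtain ⟨E, hE, k⟩ := O.sp
  obtain ⟨Q, hQ, dQ⟩ := TopologicalSpace.exists_countable_dense II
  refine ⟨Subtype.val ⁻¹' ((E ∪ D) ×ˢ (insert 0 Q)),
    ((hE.union hD).prod (hQ.insert 0)).preimage Subtype.val_injective, ?_⟩
  rintro a ⟨c, hc, τ, l⟩ u v uv
  rcases l.lex u v uv with e | ⟨e, e'⟩
  · obtain ⟨t, ht, q⟩ := k c hc _ _ e
    obtain ⟨r, rfl, r0⟩ := l.onto t 0 fun _ => rfl
    exact ⟨r, ⟨l.mono.reflect_lt ht.1, l.mono.reflect_lt ht.2⟩, .inl (l.base r ▸ q), .inl r0⟩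
  · have m : c (τ v) ∈ D := by_contra fun q => not_lt_bot (((a v).2 (l.base v ▸ q)) ▸ e')
    obtain ⟨s, s1, s2⟩ := dQ.exists_between e'
    obtain ⟨r, r1, r2⟩ := l.onto (τ v) s fun q => absurd m q
    exact ⟨r, ⟨(l.lex_iff _ _).1 (.inr ⟨e.trans r1.symm, r2 ▸ s2.1⟩),
      (l.lex_iff _ _).1 (.inr ⟨r1, r2 ▸ s2.2⟩)⟩, .inr (l.base r ▸ r1 ▸ m), .inr (r2 ▸ s1)⟩

omit [MulAction G (Bl D)] in
theorem bl_bt {x : X} (k : x ∉ D) : blB D x = blT D x := bl_ext rfl (if_neg k).symm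

theorem Mor.blow (tf : ∀ a : G, a ≠ 1 → ¬ IsOfFinOrder a) (O : Ob G C up) (hD : D.Countable)
    (A : BlA D κ) (hn : ∀ x ∈ D, Nat' G I x) : Mor G I C (blC C D) (blB D) :=
  ⟨fun g x => (A.bot g x).symm, fun _ _ e => (O.om.bl_cl hD).asc e,
    fun _ _ _ _ l n => ⟨(O.om.bl_lg hD A).2 (.inr ⟨rfl, rfl, l⟩), fun e => n (congrArg (·.1.1) e)⟩,
    fun x y a b l n => ⟨(O.om.bl_ug hD A).2 (.inr ⟨bl_bt fun q => fo_nat tf O.cy a (hn x q),
      bl_bt fun q => fo_nat tf O.cy b (hn y q), l⟩), fun e => n (congrArg (·.1.1) e)⟩⟩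

omit [MulAction G (Bl D)] in
theorem bl_asc (h : Om G C up) (hD : D.Countable) {p q : Bl D} (e : p.1.1 = q.1.1)
    (l : p.1.2 < q.1.2) : Asc (blC C D) p q := by
  obtain ⟨c, hc, t, ht⟩ := h.cover p.1.1
  obtain ⟨τ, a, k, ha⟩ := h.lifts hD hc
  obtain ⟨u, u1, rfl⟩ := k.hit ht.symm
  obtain ⟨v, v1, rfl⟩ := k.hit (e.symm.trans ht.symm)
  exact ⟨a, ha, u, v, (k.lex_iff _ _).1 (.inr ⟨u1.trans v1.symm, l⟩), rfl, rfl⟩

omit [MulAction G (Bl D)] in
theorem bl_le (h : Om G C up) (hD : D.Countable) {x y : X} (e : Ax.Le C x y) :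
    Ax.Le (blC C D) (blB D x) (blT D y) := by
  rcases e with rfl | e
  · by_cases k : x ∈ D
    · exact .inr (bl_asc h hD rfl (zero_lt_one.trans_eq (if_pos k).symm))
    · exact .inl (bl_bt k)
  · exact .inr ((h.bl_cl hD).asc e)

theorem ZZ.blow (h : Om G C up) (hD : D.Countable) (A : BlA D κ) (z : ZZ G C nx ν ν' ω ω') :
    ZZ G (blC C D) nx (fun i => blB D (ν i)) (fun i => blB D (ν' i)) (fun i => blT D (ω i))
      (fun i => blT D (ω' i)) :=
  ⟨fun g i => by rw [A.bot, z.e1], fun g i => by rw [A.bot, z.e2], fun g i => by rw [A.top, z.e3],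
    fun g i => by rw [A.top, z.e4], fun i => (h.bl_lg hD A).2 (.inr ⟨rfl, rfl, z.lg i⟩),
    fun i e => z.ne i (congrArg (·.1.1) e), fun i => bl_le h hD (z.le i),
    fun i => bl_le h hD (z.le' i), fun i => (h.bl_ug hD A).2 (.inr ⟨rfl, rfl, z.ug i⟩),
    fun i e => z.ne' i (congrArg (·.1.1) e)⟩

end

end Pool.Agent.Work.MP_3d425c_gt.To.Cv
end

-- merged part: Pool.Agent.Work.MP_3d425c_gt.To.CvG
section
/-! Gluing of pairs of arms, each point having at most one parent. -/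

namespace Pool.Agent.Work.MP_3d425c_gt.To.Cv
open Set Filter Topology Pool.Agent.Work.MP_3d425c_gt.Cy

universe u v w
variable {G : Type v} {X : Type u} [Group G] [MulAction G X] {C : Set (ℝ → X)} {up : X → X → Prop}
  {I : Type w} [MulAction G I]

/-- an equivariant self map with freely permuted infinite chains has classes with cyclic
stabilisers -/
theorem cyc_iter (cy : Cyc G X) (F : X → X) (hF : ∀ (g : G) x, F (g • x) = g • F x)
    (nc : ∀ (g : G) x, g • x = x → F x ≠ x → F (F x) ≠ F x → g = 1) (x : X) :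
    ∃ k : G, ∀ a : G, (∃ m n : ℕ, F^[m] (a • x) = F^[n] x) → a ∈ Subgroup.zpowers k := by
  have it : ∀ (g : G) (m : ℕ) x, F^[m] (g • x) = g • F^[m] x := fun g m => by
    induction m with
    | zero => exact fun _ => rfl
    | succ m ih => exact fun x => by rw [Function.iterate_succ_apply, hF, ih, Function.iterate_succ_apply]
  by_cases r : ∃ l, F (F^[l] x) = F^[l] x
  · obtain ⟨l, r⟩ := r
    obtain ⟨k, hk⟩ := cy (F^[l] x)
    refine ⟨k, fun a ⟨m, n, e⟩ => hk a ?_⟩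
    have e1 := congrArg F^[l] e
    rw [← Function.iterate_add_apply, ← Function.iterate_add_apply, add_comm l, add_comm l,
      Function.iterate_add_apply, Function.iterate_add_apply, it, it,
      Function.iterate_fixed r, Function.iterate_fixed r] at e1
    exact e1
  · push Not at r
    let L : Subgroup (G × Multiplicative ℤ) :=
      { carrier := {p | ∃ m n : ℕ, p.2.toAdd = n - m ∧ p.1 • F^[m] x = F^[n] x}
        one_mem' := ⟨0, 0, rfl, one_smul _ _⟩
        mul_mem' := by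
          rintro p q ⟨m, n, a1, a2⟩ ⟨m', n', b1, b2⟩
          refine ⟨m + m', n + n', ?_, ?_⟩
          · rw [Prod.snd_mul, toAdd_mul, a1, b1]
            push_cast
            ring
          · rw [Prod.fst_mul, mul_smul, Function.iterate_add_apply, ← it, b2,
              ← Function.iterate_add_apply, add_comm m, Function.iterate_add_apply, ← it, a2,
              ← Function.iterate_add_apply, add_comm]
        inv_mem' := by
          rintro p ⟨m, n, a1, a2⟩
          refine ⟨n, m, ?_, inv_smul_eq_iff.2 a2.symm⟩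
          rw [Prod.snd_inv, toAdd_inv, a1]
          ring }
    have cL : IsCyclic L := by
      refine isCyclic_of_injective ((MonoidHom.snd _ _).comp L.subtype)
        ((injective_iff_map_eq_one _).2 ?_)
      rintro ⟨⟨g, k⟩, m, n, a1, a2⟩ e
      have e' : k = 1 := e
      subst e'
      have : n = m := by
        have : (0 : ℤ) = n - m := a1
        omega
      subst this
      have := nc g _ a2 (r n) (by simpa only [Function.iterate_succ_apply'] using r (n + 1))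
      subst this
      rfl
    obtain ⟨k, hk⟩ := cL.exists_generator
    refine ⟨k.1.1, fun a ⟨m, n, e⟩ => ?_⟩
    obtain ⟨j, hj⟩ := hk ⟨(a, Multiplicative.ofAdd ((n : ℤ) - m)), m, n, rfl, it a m x ▸ e⟩
    exact ⟨j, congrArg (fun p : L => p.1.1) hj⟩

theorem sq_mono : StrictMono fun t : ℝ => t / (1 + |t|) := fun s t e => by
  have a := abs_nonneg s
  have b := abs_nonneg t
  show s / (1 + |s|) < t / (1 + |t|)
  rw [div_lt_div_iff₀ (by linarith) (by linarith)]
  rcases abs_cases s with ⟨a1, a2⟩ | ⟨a1, a2⟩ <;> rcases abs_cases t with ⟨b1, b2⟩ | ⟨b1, b2⟩ <;>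
    rw [a1, b1] <;> nlinarith

theorem sq_cont : Continuous fun t : ℝ => t / (1 + |t|) :=
  continuous_id.div (continuous_const.add continuous_abs) fun t => by positivity

theorem sq_io {s : II} (hs : s < 1) : io s / (1 + |io s|) = s := by
  have h1 : (s : ℝ) < 1 := hs
  have h2 : (1 : ℝ) - s ≠ 0 := by linarith
  rw [abs_of_nonneg (io_nonneg s), io]
  field_simp
  ring

/-- pairs of arms `a i`, `a' i` on the unit interval -/
structure Arms (G : Type*) {X I : Type*} [Group G] [MulAction G X] [MulAction G I]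
    (C : Set (ℝ → X)) (a a' : I → ℝ → X) : Prop where
  m1 : ∀ i, a i ∈ C
  m2 : ∀ i, a' i ∈ C
  sm : ∀ (g : G) i, ∃ W : II ≃o II, ∀ s : II,
    g • a i s = a (g • i) (W s) ∧ g • a' i s = a' (g • i) (W s)
  lg : ∀ i, LG C (a i 0) (a' i 0)
  nt : ∀ i : I, ∃ g : G, g ≠ 1 ∧ g • i = i
  i1 : ∀ i j, a i 0 = a j 0 → i = j
  ne : ∀ i j, a i 0 ≠ a' j 0
  fn : ∀ i j (s t : II), s < 1 → t < 1 → a' i s = a' j t → i = j
  nc : ∀ (g : G) i j (s t : II), s < 1 → t < 1 → g • i = i → g • j = j → g • a i s = a i s →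
    a i s = a' j t → g = 1

/-- child and parent -/
def Par (a a' : I → ℝ → X) (x y : X) : Prop := ∃ (i : I) (s : II), s < 1 ∧ x = a' i s ∧ y = a i s

theorem Arms.glue (tf : ∀ a : G, a ≠ 1 → ¬ IsOfFinOrder a) (O : Ob G C up) {a a' : I → ℝ → X}
    (A : Arms G C a a') :
    ∃ (Y : Type u) (_ : MulAction G Y) (π : X → Y) (C' : Set (ℝ → Y)) (up' : Y → Y → Prop),
      Ob G C' up' ∧ Mor G I C C' π ∧ (∀ c ∈ C, (fun t => π (c t)) ∈ C') ∧
      (∀ i (s : II), s < 1 → π (a i s) = π (a' i s)) ∧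
      (∀ i, LG C' (π (a i 1)) (π (a' i 1))) ∧
      (∀ x y, π x = π y → ∃ z, Relation.ReflTransGen (Par a a') x z ∧
        Relation.ReflTransGen (Par a a') y z) ∧
      ∀ x y, LG (dualC C) x y → π x = π y → x = y := by
  classical
  have h := O.om
  let B : Bool → I → ℝ → X := fun b => cond b a' a
  have Bm : ∀ b i, B b i ∈ C := fun b i => by cases b; exacts [A.m1 i, A.m2 i]
  let S := {p : I × Bool × (ℝ → X) × (II ≃o II) //
    p.2.2.1 ∈ C ∧ ∀ s : II, s < 1 → p.2.2.1 (io s) = B p.2.1 p.1 (p.2.2.2 s)}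
  let arm : S → ℝ → X := fun p => p.1.2.2.1
  let E : S → S → Prop := fun p q => p.1.1 = q.1.1
  let θ : S → S → II ≃o II := fun p q => p.1.2.2.2.trans q.1.2.2.2.symm
  have a0 : ∀ p : S, arm p 0 = B p.1.2.1 p.1.1 0 := fun p => by
    have := p.2.2 0 (zero_lt_one' II)
    rwa [io_zero, show p.1.2.2.2 0 = 0 from p.1.2.2.2.map_bot] at this
  have aθ : ∀ p q : S, ∀ s : II, s < 1 → arm q (io (θ p q s)) = B q.1.2.1 q.1.1 (p.1.2.2.2 s) :=
    fun p q s hs => (q.2.2 _ (iso_lt_one _ hs)).trans (by simp [θ])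
  have F : PF G C up arm E θ := by
    refine ⟨h, fun p => p.2.1, ⟨fun _ => rfl, Eq.symm, Eq.trans⟩, fun p q e => ?_,
      fun p q r _ _ s _ => by simp [θ], fun p q e => ?_, fun g p q e => ?_⟩
    · rw [a0, a0, show p.1.1 = q.1.1 from e]
      cases p.1.2.1 <;> cases q.1.2.1
      exacts [h.lg_refl _, A.lg _, Om.lg_symm (A.lg _), h.lg_refl _]
    · rw [a0, a0] at e
      have k : p.1.1 = q.1.1 ∧ p.1.2.1 = q.1.2.1 := by
        revert e
        cases p.1.2.1 <;> cases q.1.2.1 <;> intro e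
        exacts [⟨A.i1 _ _ e, rfl⟩, absurd e (A.ne _ _), absurd e.symm (A.ne _ _),
          ⟨A.fn _ _ 0 0 (zero_lt_one' II) (zero_lt_one' II) e, rfl⟩]
      exact ⟨k.1, fun s hs => by rw [aθ p q s hs, ← k.1, ← k.2]; exact p.2.2 s hs⟩
    · obtain ⟨W, hW⟩ := A.sm g p.1.1
      have hB : ∀ b (s : II), g • B b p.1.1 s = B b (g • p.1.1) (W s) := fun b s => by
        cases b; exacts [(hW s).1, (hW s).2]
      have e' : p.1.1 = q.1.1 := e
      refine ⟨⟨(g • p.1.1, p.1.2.1, fun t => g • arm p t, p.1.2.2.2.trans W), h.smul g _ p.2.1,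
        fun s hs => (congrArg (g • ·) (p.2.2 s hs)).trans (hB _ _)⟩,
        ⟨(g • p.1.1, q.1.2.1, fun t => g • arm q t, q.1.2.2.2.trans W), h.smul g _ q.2.1,
        fun s hs => (congrArg (g • ·) (q.2.2 s hs)).trans (e' ▸ hB _ _)⟩, rfl, fun s hs => ⟨rfl, ?_⟩⟩
      simp [θ, arm]
  let pr : Bool → I → S := fun b i => ⟨(i, b, fun t => B b i (t / (1 + |t|)), OrderIso.refl II),
    h.reparam (Bm b i) sq_mono sq_cont, fun s hs => congrArg (B b i) (sq_io hs)⟩
  have gl : ∀ i (s : II), s < 1 → FR arm E θ (a i s) (a' i s) := fun i s hs => by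
    have := fr_arm (arm := arm) (E := E) (θ := θ) (p := pr false i) (q := pr true i) rfl hs
    rwa [aθ _ _ s hs, show arm (pr false i) (io s) = a i s from (pr false i).2.2 s hs] at this
  have fu : ∀ x y z, Par a a' x y → Par a a' x z → y = z := by
    rintro _ _ _ ⟨i, s, hs, rfl, rfl⟩ ⟨j, t, ht, e, rfl⟩
    obtain rfl := A.fn _ _ _ _ hs ht e
    rw [h.inj (A.m2 i) e]
  have cr : ∀ x y, FR arm E θ x y → ∃ z, Relation.ReflTransGen (Par a a') x z ∧
      Relation.ReflTransGen (Par a a') y z := fun x y k => by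
    induction k with
    | refl => exact ⟨x, .refl, .refl⟩
    | @tail y y' _ k ih =>
      obtain ⟨z, z1, z2⟩ := ih
      obtain ⟨p, q, e, s, hs, e1, e2⟩ := k
      rw [aθ p q s hs, ← show p.1.1 = q.1.1 from e] at e2
      rw [show arm p (io s) = _ from p.2.2 s hs] at e1
      have hs' := iso_lt_one p.1.2.2.2 hs
      revert e1 e2
      cases p.1.2.1 <;> cases q.1.2.1 <;> intro e1 e2
      · exact ⟨z, z1, (e1.trans e2.symm) ▸ z2⟩
      · exact ⟨z, z1, .head ⟨_, _, hs', e2, e1⟩ z2⟩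
      · have k : Par a a' y y' := ⟨_, _, hs', e1, e2⟩
        rcases z2.cases_head with rfl | ⟨w, w1, w2⟩
        · exact ⟨y', z1.tail k, .refl⟩
        · exact ⟨z, z1, fu _ _ _ w1 k ▸ w2⟩
      · exact ⟨z, z1, (e1.trans e2.symm) ▸ z2⟩
  obtain ⟨Y, _, π, C', up', Q, hr, -⟩ := F.gq.exists_quot h
  have ug : ∀ x y, LG (dualC C) x y → π x = π y → x = y := fun x y l e => by
    rcases F.sep_of_fr ((hr _ _).1 e) with k | ⟨p, q, k1, k2, k3, k4, c, hc, s, t, st, k5, rfl⟩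
    · exact k
    exfalso
    obtain ⟨d, hd, d', hd', rfl, e2, e3⟩ := l
    have u1 : up (d 0) (d (-1)) := by simpa using (h.upc hd 0 1).2 one_pos
    have u2 : up (c t) (d (-1)) := by
      rw [← e2, e3 _ (by norm_num)]
      simpa using (h.upc hd' 0 1).2 one_pos
    refine F.lg_disj (F.lg _ _ k1) k2 (z := d (-1)) (.inl ?_) (.inl ?_)
    · exact k3.elim (fun k => h.sub k k4 u1) fun k => k ▸ u1
    · obtain ⟨b1, b2⟩ := F.seg_up hc st
      rw [← k5]
      exact b1.elim (fun k => h.sub k b2 u2) fun k => k ▸ u2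
  have gl' : ∀ i (s : II), s < 1 → π (a i s) = π (a' i s) := fun i s hs => (hr _ _).2 (gl i s hs)
  have psm : ∀ (g : G) x y, Par a a' x y → Par a a' (g • x) (g • y) := by
    rintro g _ _ ⟨i, s, hs, rfl, rfl⟩
    obtain ⟨W, hW⟩ := A.sm g i
    exact ⟨_, W s, iso_lt_one _ hs, (hW s).2, (hW s).1⟩
  refine ⟨Y, inferInstance, π, C', up', ⟨Q.om, fun y => ?_, sep_qt Q O.sp⟩,
    ⟨Q.smul, fun _ _ => Q.asc, fun x y fx _ l ne => ⟨Q.lg l, fun e => ?_⟩,
      fun x y _ _ l ne => ⟨?_, fun e => ne (ug x y l e)⟩⟩, fun c hc => Q.mem hc, gl', fun i => ?_,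
    fun x y e => cr x y ((hr _ _).1 e), ug⟩
  · obtain ⟨x, rfl⟩ := Q.surj y
    let P : X → X := fun x => if k : ∃ y, Par a a' x y then k.choose else x
    have p1 : ∀ x y, Par a a' x y → P x = y := fun x y k => by
      have k' : ∃ y, Par a a' x y := ⟨y, k⟩
      simp only [P, dif_pos k']
      exact fu _ _ _ k'.choose_spec k
    have p2 : ∀ x, P x ≠ x → Par a a' x (P x) := fun x k => by
      by_cases k' : ∃ y, Par a a' x y
      · exact (p1 x _ k'.choose_spec).symm ▸ k'.choose_spec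
      · exact absurd (dif_neg k') k
    have p3 : ∀ x z, Relation.ReflTransGen (Par a a') x z → ∃ m, P^[m] x = z := fun x z k => by
      induction k with
      | refl => exact ⟨0, rfl⟩
      | tail _ k ih =>
        obtain ⟨m, rfl⟩ := ih
        exact ⟨m + 1, by rw [Function.iterate_succ_apply', p1 _ _ k]⟩
    obtain ⟨k, hk⟩ := cyc_iter O.cy P (fun g x => by
      by_cases k' : ∃ y, Par a a' x y
      · obtain ⟨y, k'⟩ := k'
        rw [p1 _ _ k', p1 _ _ (psm g _ _ k')]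
      · have k2 : ¬ ∃ y, Par a a' (g • x) y := fun ⟨y, k⟩ =>
          k' ⟨_, by simpa only [inv_smul_smul] using psm g⁻¹ _ _ k⟩
        simp only [P, dif_neg k', dif_neg k2]) (fun g x e k1 k2 => by
      obtain ⟨i, s, hs, rfl, e2⟩ := p2 _ k1
      obtain ⟨j, t, ht, e3, -⟩ := p2 _ k2
      have e4 : g • a i s = a i s := fu _ _ _ (e ▸ psm g _ _ ⟨i, s, hs, rfl, rfl⟩) ⟨i, s, hs, rfl, rfl⟩
      have fi : ∀ i (s : II), s < 1 → g • a' i s = a' i s → g • i = i := fun i s hs e => by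
        obtain ⟨W, hW⟩ := A.sm g i
        exact A.fn _ _ _ _ (iso_lt_one W hs) hs ((hW s).2.symm.trans e)
      rw [e2] at e3
      exact A.nc g i j s t hs ht (fi i s hs e) (fi j t ht (e3 ▸ e4)) e4 e3) x
    refine ⟨k, fun g e => hk g ?_⟩
    obtain ⟨z, z1, z2⟩ := cr _ _ ((hr _ _).1 ((Q.smul g x).trans e))
    obtain ⟨m, hm⟩ := p3 _ _ z1
    obtain ⟨n, hn⟩ := p3 _ _ z2
    exact ⟨m, n, hm.trans hn.symm⟩
  · rcases F.lg_of_fr ((hr _ _).1 e) l with k | ⟨p, -, -, k, -⟩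
    · exact ne k
    · obtain ⟨g, g1, g2⟩ := A.nt p.1.1
      obtain ⟨W, hW⟩ := A.sm g p.1.1
      have := hW 0
      rw [show W 0 = 0 from W.map_bot, g2] at this
      refine fo_nat tf O.cy fx ⟨g, _, g1, g2, ?_⟩
      rw [k, a0]
      cases p.1.2.1
      exacts [this.1, this.2]
  · obtain ⟨c, hc, d, hd, rfl, rfl, k⟩ := l
    exact ⟨_, Q.mem hc, _, Q.mem hd, rfl, rfl, fun u hu => congrArg π (k u hu)⟩
  · refine Q.om.lg_of (Q.mem (A.m1 i)) (Q.mem (A.m2 i)) ⟨0, one_pos, fun u hu =>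
      ⟨u, hu.2, gl' i ⟨u, hu.1.le, hu.2.le⟩ hu.2⟩⟩ fun w hw => ?_
    obtain ⟨u, u1, u2⟩ := exists_between (max_lt hw one_pos)
    exact ⟨u, u2, u, (le_max_left _ _).trans_lt u1,
      gl' i ⟨u, (le_max_right _ _).trans u1.le, u2.le⟩ u2⟩

end Pool.Agent.Work.MP_3d425c_gt.To.Cv
end

-- merged part: Pool.Agent.Work.MP_3d425c_gt.To.CvA
section
/-! One segment of every cell is absorbed in a new interval. -/

namespace Pool.Agent.Work.MP_3d425c_gt.To.Cv
open Set Filter Topology Pool.Agent.Work.MP_3d425c_gt.Cy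

universe u v w
variable {G : Type v} {X : Type u} [Group G] [MulAction G X] {C : Set (ℝ → X)} {up : X → X → Prop}
  {I : Type w} [MulAction G I]

theorem seg_iso (h : Om G C up) {a b : ℝ → X} (ha : a ∈ C) (hb : b ∈ C) (e0 : a 0 = b 0)
    (e1 : a 1 = b 1) : ∃ W : II ≃o II, ∀ s : II, a s = b (W s) := by
  have k : ∀ s : II, ∃ t : II, a s = b t := fun s => by
    obtain ⟨z, z0, z1, e⟩ := h.conv ha hb e0 e1 s.2.1 s.2.2
    exact ⟨⟨z, z0, z1⟩, e⟩
  choose f hf using k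
  refine ⟨StrictMono.orderIsoOfSurjective f (fun s t st => ?_) fun t => ?_, hf⟩
  · have := (h.upc ha s t).2 st
    rw [hf, hf] at this
    exact (h.upc hb _ _).1 this
  · obtain ⟨z, z0, z1, e⟩ := h.conv hb ha e0.symm e1.symm t.2.1 t.2.2
    exact ⟨⟨z, z0, z1⟩, Subtype.ext (h.inj hb ((hf ⟨z, z0, z1⟩).symm.trans e.symm))⟩

theorem cob {K H : Type*} [MulAction G K] [Group H] (κ : G → K → H)
    (hκ : ∀ g g' k, κ (g * g') k = κ g (g' • k) * κ g' k) :
    ∃ γ : K → H, ∀ (g : G) k, (∀ u : G, u • k = k → u = 1) → γ (g • k) = κ g k * γ k := by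
  obtain ⟨p, hp1, hp2⟩ : ∃ p : K → K, (∀ (g : G) x, p (g • x) = p x) ∧
      ∀ x, ∃ s : G, s • p x = x := by
    refine ⟨fun x => (Quotient.mk (MulAction.orbitRel G K) x).out, fun g x => ?_, fun x => ?_⟩
    · have e : Quotient.mk (MulAction.orbitRel G K) (g • x) = Quotient.mk _ x :=
        Quotient.sound ⟨g, rfl⟩
      simp only [e]
    · obtain ⟨g, hg⟩ := Quotient.mk_out (s := MulAction.orbitRel G K) x
      exact ⟨g⁻¹, inv_smul_eq_iff.2 hg.symm⟩
  choose s hs using hp2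
  refine ⟨fun k => κ (s k) (p k), fun g k fr => ?_⟩
  have e : s (g • k) = g * s k := by
    have := fr (g⁻¹ * s (g • k) * (s k)⁻¹) (by
      rw [mul_smul, mul_smul, inv_smul_eq_iff.2 (hs k).symm, ← hp1 g k, hs, inv_smul_smul])
    rwa [mul_inv_eq_one, inv_mul_eq_iff_eq_mul] at this
  simp only [e, hp1, hκ, hs]

theorem le_chart {c : ℝ → X} (hc : c ∈ C) {s t : ℝ} (e : s ≤ t) : Ax.Le C (c s) (c t) :=
  e.eq_or_lt.imp (congrArg c) fun k => ⟨c, hc, s, t, k, rfl, rfl⟩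

theorem lg_map {Y : Type*} {C' : Set (ℝ → Y)} {π : X → Y} (k : ∀ c ∈ C, (fun t => π (c t)) ∈ C')
    {x y : X} (l : LG C x y) : LG C' (π x) (π y) := by
  obtain ⟨c, hc, d, hd, rfl, rfl, e⟩ := l
  exact ⟨_, k c hc, _, k d hd, rfl, rfl, fun u hu => congrArg π (e u hu)⟩

theorem ug_map {Y : Type*} {C' : Set (ℝ → Y)} {π : X → Y} (k : ∀ c ∈ C, (fun t => π (c t)) ∈ C')
    {x y : X} (l : LG (dualC C) x y) : LG (dualC C') (π x) (π y) :=
  lg_map (C := dualC C) (fun c hc => k (fun t => c (-t)) hc) l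

variable {D : Set X}

/-- a change of coordinates in the fibres -/
def gau (γ : X → II ≃o II) (p : Bl D) : Bl D :=
  ⟨(p.1.1, γ p.1.1 p.1.2), fun k => by rw [p.2 k]; exact (γ p.1.1).map_bot⟩

theorem lifts_gau {c : ℝ → X} {τ : ℝ → ℝ} {a : ℝ → Bl D} (l : Lifts D c τ a) (γ : X → II ≃o II) :
    Lifts D c τ fun u => gau γ (a u) := by
  refine ⟨l.base, fun u u' e => (l.lex u u' e).imp_right fun k => ⟨k.1, ?_⟩, fun t s k => ?_⟩
  · show γ _ _ < γ _ _
    rw [l.base, l.base, k.1]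
    exact (γ _).strictMono k.2
  · obtain ⟨u, e1, e2⟩ := l.onto t ((γ (c t)).symm s) fun k' => by
      rw [k k']
      exact (γ (c t)).symm.map_bot
    refine ⟨u, e1, ?_⟩
    show γ _ _ = s
    rw [l.base, e1, e2]
    simp

theorem lift_seg (h : Om G C up) (hD : D.Countable) {p q : Bl D}
    (e : Asc C p.1.1 q.1.1 ∨ (p.1.1 = q.1.1 ∧ p.1.2 < q.1.2)) :
    ∃ c ∈ C, ∃ τ a, Lifts D c τ a ∧ a 0 = p ∧ a 1 = q := by
  obtain ⟨c, hc, s, t, e1, e2, st⟩ : ∃ c ∈ C, ∃ s t, c s = p.1.1 ∧ c t = q.1.1 ∧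
      (s < t ∨ (s = t ∧ p.1.2 < q.1.2)) := by
    rcases e with ⟨c, hc, s, t, st, e1, e2⟩ | e
    · exact ⟨c, hc, s, t, e1, e2, .inl st⟩
    · obtain ⟨c, hc, t, e1⟩ := h.cover p.1.1
      exact ⟨c, hc, t, t, e1, e1.trans e.1, .inr ⟨rfl, e.2⟩⟩
  obtain ⟨τ, a, l, -⟩ := h.lifts hD hc
  obtain ⟨u, rfl, rfl⟩ := l.hit e1.symm
  obtain ⟨v, rfl, rfl⟩ := l.hit e2.symm
  have uv : 0 < v - u := sub_pos.2 ((l.lex_iff u v).1 st)
  refine ⟨c, hc, fun t => τ (u + (v - u) * t), fun t => a (u + (v - u) * t),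
    ⟨fun _ => l.base _, fun s t e => l.lex _ _ (by nlinarith), fun t s k => ?_⟩, by simp, by simp⟩
  obtain ⟨w, k1, k2⟩ := l.onto t s k
  have : u + (v - u) * ((w - u) / (v - u)) = w := by field_simp; ring
  exact ⟨(w - u) / (v - u), by rw [this, k1], by rw [this, k2]⟩

theorem gap_chart (h : Om G C up) (hD : D.Countable) {d : X} (hd : d ∈ D) :
    ∃ a ∈ blC C D, ∀ s : II, (a s).1 = (d, s) := by
  obtain ⟨c, hc, τ, a, l, a0, a1⟩ := lift_seg h hD (p := blB D d) (q := ⟨(d, 1), fun k => absurd hd k⟩)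
    (.inr ⟨rfl, zero_lt_one' II⟩)
  have b0 : c (τ 0) = d := by rw [← l.base, a0]; rfl
  have t1 : τ 1 = τ 0 := h.inj hc (by rw [b0, ← l.base, a1])
  have ts : ∀ s : II, τ s = τ 0 := fun s => le_antisymm (t1 ▸ l.mono s.2.2) (l.mono s.2.1)
  have m : StrictMono fun s : II => (a s).1.2 := fun s t e =>
    ((l.lex s t e).resolve_left (by rw [ts, ts]; exact lt_irrefl _)).2
  have sj : Function.Surjective fun s : II => (a s).1.2 := fun t => by
    obtain ⟨u, u1, u2⟩ := l.onto (τ 0) t fun k => absurd (b0 ▸ hd) k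
    refine ⟨⟨u, not_lt.1 fun e => ?_, not_lt.1 fun e => ?_⟩, u2⟩
    · rcases l.lex _ _ e with k | k
      · exact k.ne u1
      · rw [a0] at k
        exact not_lt_bot k.2
    · rcases l.lex _ _ e with k | k
      · exact k.ne (t1.trans u1.symm)
      · rw [a1] at k
        exact not_top_lt k.2
  refine ⟨_, Lifts_mem hc (lifts_gau l fun _ => (m.orderIsoOfSurjective _ sj).symm), fun s => ?_⟩
  exact Prod.ext ((l.base s).trans (ts s ▸ b0)) ((m.orderIsoOfSurjective _ sj).symm_apply_apply s)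

theorem bl_eq {p q : Bl D} (e : p.1.1 = q.1.1) (k : p.1.1 ∉ D) : p = q :=
  bl_ext e ((p.2 k).trans (q.2 (e ▸ k)).symm)

variable {nx : Equiv.Perm I} {ν ν' ω ω' : I → X}

theorem absorb (tf : ∀ a : G, a ≠ 1 → ¬ IsOfFinOrder a) (O : Ob G C up) (hI : Ix G nx)
    (z : ZZ G C nx ν ν' ω ω') (st : ∀ i, Asc C (ν i) (ω i)) :
    ∃ (Y : Type u) (_ : MulAction G Y) (C' : Set (ℝ → Y)) (up' : Y → Y → Prop) (j : X → Y)
      (μ μ' o' : I → Y), Ob G C' up' ∧ Mor G I C C' j ∧ ZZ G C' nx μ μ' μ o' ∧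
      ((∀ i, ν' i = ω' i) → ∀ i, μ' i = o' i) ∧
      ((∀ i, Asc C (ν' i) (ω' i)) → ∀ i, Asc C' (μ' i) (o' i)) := by
  have h := O.om
  have := hI.cnt
  have hD : (range ν').Countable := countable_range _
  have inv : ∀ (g : G) x, x ∈ range ν' → g • x ∈ range ν' := by
    rintro g _ ⟨i, rfl⟩
    exact ⟨g • i, z.e2 g i⟩
  have sep : ∀ (g : G) i j, g ≠ 1 → g • i = i → g • ν' j = ν' j → Ax.Le C (ν i) (ν' j) →
      Ax.Le C (ν' j) (ω i) → False := fun g i j g1 g2 g3 a b => by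
    obtain ⟨g', k1, k2⟩ := hI.nt j
    obtain rfl := z.key tf O hI (.inl ⟨a, b⟩) (.inr ⟨.inl rfl, z.le' j⟩) g1 g2 g3 k1 k2
      (by rw [← z.e2, k2])
    exact z.side h a (.inl rfl)
  have n1 : ∀ i, ν i ∉ range ν' := by
    rintro i ⟨j, e⟩
    obtain ⟨g, k1, k2⟩ := hI.nt i
    exact sep g i j k1 k2 (by rw [e, ← z.e1, k2]) (.inl e.symm) (e ▸ z.le i)
  have n2 : ∀ i, ω i ∉ range ν' := by
    rintro i ⟨j, e⟩
    obtain ⟨g, k1, k2⟩ := hI.nt i
    exact sep g i j k1 k2 (by rw [e, ← z.e3, k2]) (e ▸ z.le i) (.inl e)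
  have i1 : ∀ i j, ν i = ν j → i = j := fun i j e => by
    obtain ⟨g, k1, k2⟩ := hI.nt i
    obtain ⟨g', k3, k4⟩ := hI.nt j
    exact z.key tf O hI (.inl ⟨.inl rfl, z.le i⟩) (.inl ⟨.inl e.symm, e ▸ z.le j⟩) k1 k2
      (by rw [← z.e1, k2]) k3 k4 (by rw [e, ← z.e1, k4])
  have i2 : Function.Injective ν' := fun i j e => by
    obtain ⟨g, k1, k2⟩ := hI.nt i
    obtain ⟨g', k3, k4⟩ := hI.nt j
    exact z.key tf O hI (.inr ⟨.inl rfl, z.le' i⟩) (.inr ⟨.inl e.symm, e ▸ z.le' j⟩) k1 k2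
      (by rw [← z.e2, k2]) k3 k4 (by rw [e, ← z.e2, k4])
  choose c hc τ a l a0 a1 using fun i => lift_seg h hD (p := blB _ (ν i)) (q := blB _ (ω i))
    (.inl (st i))
  have am : ∀ i, a i ∈ blC C (range ν') := fun i => Lifts_mem (hc i) (l i)
  obtain ⟨W, hW, hW'⟩ : ∃ W : G → I → II ≃o II,
      (∀ g g' i, W (g * g') i = W g (g' • i) * W g' i) ∧
      ∀ g i (s : II), (a (g • i) (W g i s)).1 = (g • (a i s).1.1, (a i s).1.2) := by
    let _ := blAct2 (range ν') inv (fun _ _ => 1) fun _ _ _ => (one_mul _).symm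
    have A := blA_act (range ν') inv (fun _ _ => 1) fun _ _ _ => (one_mul _).symm
    have h1 := h.blow hD A
    choose W hW using fun (g : G) i => seg_iso h1 (h1.smul g _ (am i)) (am (g • i))
      (by rw [a0, a0, A.bot, z.e1]) (by rw [a1, a1, A.bot, z.e3])
    refine ⟨W, fun g g' i => OrderIso.ext (funext fun s => Subtype.ext (h1.inj (am ((g * g') • i)) ?_)),
      fun g i s => by rw [← hW]; rfl⟩
    rw [← hW, mul_smul, mul_smul, hW, hW]
    rfl
  obtain ⟨κ, hκ, hκ'⟩ := push ν' i2 z.e2 W hW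
  obtain ⟨γ, hγ⟩ := cob (K := I × X) (fun g k => κ g k.2) fun g g' k => hκ g g' k.2
  let _ := blAct2 (range ν') inv κ hκ
  have A := blA_act (range ν') inv κ hκ
  choose b hb hb' using fun i => gap_chart h hD (mem_range_self (f := ν') i)
  have on : ∀ i (s : II), Ax.Le C (ν i) (a i s).1.1 ∧ Ax.Le C (a i s).1.1 (ω i) := fun i s => by
    have e0 : ν i = c i (τ i 0) := by rw [← (l i).base, a0]; rfl
    have e1 : ω i = c i (τ i 1) := by rw [← (l i).base, a1]; rfl
    rw [e0, e1, (l i).base]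
    exact ⟨le_chart (hc i) ((l i).mono s.2.1), le_chart (hc i) ((l i).mono s.2.2)⟩
  have c0 : ∀ i, gau (fun x => γ (i, x)) (a i 0) = blB _ (ν i) := fun i => by
    rw [a0]
    exact bl_eq rfl (n1 i)
  have c1 : ∀ i, gau (fun x => γ (i, x)) (a i 1) = blT _ (ω i) := fun i => by
    rw [a1]
    exact bl_eq rfl (n2 i)
  have b0 : ∀ i, b i 0 = blB _ (ν' i) := fun i => Subtype.ext (hb' i 0)
  have b1 : ∀ i, b i 1 = blT _ (ν' i) := fun i =>
    Subtype.ext ((hb' i 1).trans (Prod.ext rfl (if_pos (mem_range_self i)).symm))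
  have z1 := z.blow h hD A
  have AR : Arms G (blC C (range ν')) (fun i u => gau (fun x => γ (i, x)) (a i u)) b := by
    refine ⟨fun i => Lifts_mem (hc i) (lifts_gau (l i) _), hb, fun g i => ⟨W g i, fun s => ⟨?_, ?_⟩⟩,
      fun i => ?_, hI.nt, fun i j e => ?_, fun i j e => ?_, fun i j s t _ _ e => ?_,
      fun g i j s t _ _ gi gj _ e => ?_⟩
    · have k := hW' g i s
      have k1 : (a (g • i) (W g i s)).1.1 = g • (a i s).1.1 := congrArg Prod.fst k
      have k2 : (a (g • i) (W g i s)).1.2 = (a i s).1.2 := by rw [k]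
      by_cases x : (a i s).1.1 ∈ range ν'
      · refine bl_ext k1.symm ?_
        show κ g (a i s).1.1 (γ (i, _) _) = γ (g • i, _) _
        rw [k1, k2]
        obtain ⟨j, x⟩ := x
        refine (congrArg (fun f : II ≃o II => f (a i s).1.2) (hγ g (i, (a i s).1.1) fun u hu =>
          by_contra fun u1 => ?_)).symm
        exact sep u i j u1 (congrArg Prod.fst hu) (x ▸ congrArg Prod.snd hu) (x ▸ (on i s).1)
          (x ▸ (on i s).2)
      · exact bl_eq k1.symm fun y => x ((A.inv_iff g _).1 y)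
    · refine Subtype.ext ?_
      rw [hb']
      refine Prod.ext ?_ ?_
      · rw [A.sm1, hb', z.e2]
      · rw [A.sm2, hb', hκ']
    · rw [c0, b0]
      exact z1.lg i
    · rw [c0, c0] at e
      exact i1 _ _ (congrArg (fun p => p.1.1) e)
    · rw [c0, b0] at e
      exact n1 i ⟨j, (congrArg (fun p => p.1.1) e).symm⟩
    · have := congrArg (fun p => p.1) e
      simp only [hb'] at this
      exact i2 (congrArg Prod.fst this)
    · have x : ν' j = (a i s).1.1 := by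
        have := congrArg (fun p => p.1) e
        simp only [hb'] at this
        exact (congrArg Prod.fst this).symm
      exact by_contra fun g1 => sep g i j g1 gi (by rw [← z.e2, gj]) (x ▸ (on i s).1) (x ▸ (on i s).2)
  obtain ⟨Y, _, π, C', up', O', M, ch, -, top, cr, ug⟩ := AR.glue tf (O.blow hD A)
  have tl : ∀ i, Asc C (ν' i) (ω' i) → Asc C' (π (blT _ (ν' i))) (π (blT _ (ω' i))) :=
    fun i k => M.asc _ _ ((h.bl_cl hD).asc k)
  refine ⟨Y, inferInstance, C', up', _, fun i => π (blT _ (ω i)), fun i => π (blT _ (ν' i)),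
    fun i => π (blT _ (ω' i)), O', (Mor.blow tf O hD A ?_).comp M,
    ⟨fun g i => by rw [z.e3, ← A.top, M.eq], fun g i => by rw [z.e2, ← A.top, M.eq],
      fun g i => by rw [z.e3, ← A.top, M.eq], fun g i => by rw [z.e4, ← A.top, M.eq],
      fun i => ?_, fun i e => ?_, fun _ => .inl rfl, fun i => (z.le' i).imp (fun e => by rw [e]) (tl i),
      fun i => ug_map ch (z1.ug i), fun i e => z1.ne' i (ug _ _ (z1.ug i) e)⟩,
    fun k i => by simp only [k], fun k i => tl i (k i)⟩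
  · rintro _ ⟨i, rfl⟩
    obtain ⟨g, k1, k2⟩ := hI.nt i
    exact ⟨g, i, k1, k2, by rw [← z.e2, k2]⟩
  · have := top i
    simp only [c1, b1] at this
    exact this
  · obtain ⟨w, w1, w2⟩ := cr _ _ e
    rcases w1.cases_head with rfl | ⟨_, ⟨j, s, -, k, -⟩, -⟩
    · rcases w2.cases_head with k | ⟨_, ⟨j, s, hs, k, -⟩, -⟩
      · exact n2 i ⟨i, congrArg (fun p => p.1.1) k⟩
      · have := congrArg (fun p => p.1) (b1 i ▸ k : b i 1 = b j s)
        rw [hb' j s] at this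
        exact hs.ne' (congrArg Prod.snd ((hb' i 1).symm.trans this))
    · have := congrArg (fun p => p.1) k
      rw [hb' j s] at this
      exact n2 i ⟨j, (congrArg Prod.fst this).symm⟩

end Pool.Agent.Work.MP_3d425c_gt.To.Cv
end
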