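import Pool.Agent.Work.MP_3d425c_gt.To.Axis
import Pool.Agent.Work.MP_3d425c_gt.To.Wind
import Pool.Agent.Work.MP_3d425c_gt.Gl.Mk

/-! Seifert pieces: shared definitions. -/

namespace Pool.Agent.Work.MP_3d425c_gt.To.Ph
open Set Pool.Agent.Work.MP_3d425c_gt.Cy Pool.Agent.Work.MP_3d425c_gt.To.Ax

variable {G X : Type*} [Group G] [MulAction G X]

/-- a common power -/
def Dp (a b : G) : Prop := ∃ m n : ℤ, ¬ (m = 0 ∧ n = 0) ∧ a ^ m = b ^ n

/-- point stabilisers have rank at most one -/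
def Rk (G X : Type*) [Group G] [MulAction G X] : Prop :=
  ∀ (y : X) (a b : G), a • y = y → b • y = y → Dp a b

/-- `x` commutes with `h` and nests no side of a fixed point of `h` -/
def Ell (up : X → X → Prop) (h x : G) : Prop :=
  h * x = x * h ∧ ∀ μ : X, h • μ = μ → ¬ Nest up μ (x • μ) ∧ ¬ Nest up (x • μ) μ

/-- the product of the first `n` terms -/
def pr (x : ℕ → G) : ℕ → G
  | 0 => 1
  | n + 1 => pr x n * x n

/-- labels: `Lab a K` means that `a` is a product of conjugates of the `x k`, `k ∈ K` -/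
structure Lb (h : G) (n : ℕ) (x : ℕ → G) (Lab : G → Finset ℕ → Prop) : Prop where
  l0 : Lab 1 ∅
  l1 : ∀ k < n, Lab (x k) {k}
  lm : ∀ a b K L, Lab a K → Lab b L → Disjoint K L → Lab (a * b) (K ∪ L)
  lc : ∀ k < n, ∀ a K, Lab a K → Lab (x k * a * (x k)⁻¹) K ∧ Lab ((x k)⁻¹ * a * x k) K
  lf : ∀ a K, Lab a K → 2 ≤ K.card → ¬ Dp a h

/-- between two translates of `o` -/
def Hull (C : Set (ℝ → X)) (h : G) (o p : X) : Prop :=
  ∃ j : ℕ, Le C ((h ^ j)⁻¹ • o) p ∧ Le C p (h ^ j • o)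

/-- the orbit of `y` lies on a line with slope `s` -/
structure Line (C : Set (ℝ → X)) (P : Subgroup G) (s : G → ℝ) (y : X) : Prop where
  cmp : ∀ p ∈ P, Cmp C y (p • y)
  asc : ∀ p ∈ P, 0 < s p → Asc C y (p • y)

/-- `P` translates a broken axis with slope `s` -/
def Zig (C : Set (ℝ → X)) (up : X → X → Prop) (P : Subgroup G) (s : G → ℝ) : Prop :=
  ∃ m n, ∀ q ∈ P, (0 < s q ↔ Skew C up q m n) ∧ (s q = 0 ↔ q • m = m ∧ q • n = n)

/-- a jump of the sequence of positions -/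
def Jp {Q H : Type*} (pos : Q → ℕ → Option H) (J : Q) (k l : ℕ) : Prop :=
  ∃ a b, a ≠ b ∧ pos J k = some a ∧ pos J l = some b

end Pool.Agent.Work.MP_3d425c_gt.To.Ph
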