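import Mathlib

-- merged part: Pool.Agent.Work.MP_3d425c_gt.To.SfCnt
section
/-! Counting walls fixed by the fibre: orbit counts are characters, alternating cycles. -/

namespace Pool.Agent.Work.MP_3d425c_gt.To.Sf
open Set Subgroup

variable {G X : Type*} [Group G] [MulAction G X]

/-- no point of `F` separates -/
def Eqv (up : X → X → Prop) (F : Set X) (z z' : X) : Prop := ∀ w ∈ F, (up w z ↔ up w z')

/-- a power lies in the group of `h` -/
def Tor (h c : G) : Prop := ∃ m : ℕ, 0 < m ∧ c ^ m ∈ zpowers h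

/-- keeps a class or is torsion modulo `h` -/
def Ell (up : X → X → Prop) (h : G) (F O : Set X) (c : G) : Prop :=
  (∃ z ∈ O, Eqv up F z (c • z)) ∨ Tor h c

/-- generated by elliptic elements -/
def Gen (up : X → X → Prop) (h : G) (F O : Set X) (A : Subgroup G) : Prop :=
  A ≤ closure {c | c ∈ A ∧ Ell up h F O c}

/-- a system of walls fixed by `h` whose orbits meet every path between points of `O` in a finite
set -/
structure Wl (up : X → X → Prop) (h : G) (F O : Set X) (V : Subgroup G) : Prop where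
  ups : ∀ (g : G) x y, up (g • x) (g • y) ↔ up x y
  fix : ∀ w ∈ F, h • w = w
  invF : ∀ g ∈ V, ∀ w ∈ F, g • w ∈ F
  invO : ∀ g ∈ V, ∀ z ∈ O, g • z ∈ O
  fin : ∀ w ∈ F, ∀ z ∈ O, ∀ z' ∈ O, {y | (∃ g ∈ V, g • w = y) ∧ ¬ (up y z ↔ up y z')}.Finite
  dep : ∀ g ∈ V, ∀ w ∈ F, g • w = w → Tor h g

/-- alternating products -/
inductive Alt (A B H : Subgroup G) : G → Prop
  | one (a b : G) : a ∈ A → a ∉ H → b ∈ B → b ∉ H → Alt A B H (b * a)
  | cons (a b g : G) : a ∈ A → a ∉ H → b ∈ B → b ∉ H → Alt A B H g → Alt A B H (b * a * g)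

variable {up : X → X → Prop} {h : G} {A B V H : Subgroup G} {F O : Set X}

theorem Alt.mul {g g' : G} (a : Alt A B H g) (a' : Alt A B H g') : Alt A B H (g * g') := by
  induction a with
  | one a b k1 k2 k3 k4 => exact .cons a b g' k1 k2 k3 k4 a'
  | cons a b g k1 k2 k3 k4 _ ih =>
    rw [mul_assoc]
    exact .cons a b _ k1 k2 k3 k4 ih

theorem Alt.pow {g : G} (a : Alt A B H g) (m : ℕ) : Alt A B H (g ^ (m + 1)) := by
  induction m with
  | zero => simpa using a
  | succ m ih => rw [pow_succ]; exact ih.mul a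

theorem Alt.mem {g : G} (a : Alt A B H g) : g ∈ A ⊔ B := by
  induction a with
  | one a b k1 _ k3 _ => exact mul_mem (mem_sup_right k3) (mem_sup_left k1)
  | cons a b g k1 _ k3 _ _ ih => exact mul_mem (mul_mem (mem_sup_right k3) (mem_sup_left k1)) ih

theorem Alt.not_tor (nf : ∀ g, Alt A B (zpowers h) g → g ∉ zpowers h) {g : G}
    (a : Alt A B (zpowers h) g) : ¬ Tor h g := fun ⟨p, p0, hp⟩ => by
  obtain ⟨p, rfl⟩ := Nat.exists_eq_succ_of_ne_zero p0.ne'
  exact nf _ (a.pow p) hp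

theorem Tor.of_pow {g : G} {m : ℕ} (m0 : 0 < m) (k : Tor h (g ^ m)) : Tor h g :=
  let ⟨p, p0, e⟩ := k
  ⟨m * p, Nat.mul_pos m0 p0, by rwa [pow_mul]⟩

theorem Eqv.refl (z : X) : Eqv up F z z := fun _ _ => .rfl

theorem Eqv.symm {z z' : X} (a : Eqv up F z z') : Eqv up F z' z := fun w k => (a w k).symm

theorem Eqv.trans {x y z : X} (a : Eqv up F x y) (b : Eqv up F y z) : Eqv up F x z :=
  fun w k => (a w k).trans (b w k)

theorem fix_zpowers {c : G} (k : c ∈ zpowers h) {w : X} (hw : h • w = w) : c • w = w := by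
  have : zpowers h ≤ MulAction.stabilizer G w := zpowers_le_of_mem hw
  exact this k

theorem Wl.mono (a : Wl up h F O V) (k : A ≤ V) : Wl up h F O A :=
  ⟨a.ups, a.fix, fun g hg => a.invF g (k hg), fun g hg => a.invO g (k hg), fun w hw z hz z' hz' =>
    (a.fin w hw z hz z' hz').subset fun _ ⟨⟨g, hg, e⟩, n⟩ => ⟨⟨g, k hg, e⟩, n⟩,
    fun g hg => a.dep g (k hg)⟩

theorem Wl.smul (a : Wl up h F O V) {g : G} (k : g ∈ V) {z z' : X} (e : Eqv up F z z') :
    Eqv up F (g • z) (g • z') := fun w hw => by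
  have := e _ (a.invF _ (V.inv_mem k) w hw)
  rwa [← a.ups g, ← a.ups g (g⁻¹ • w) z', smul_inv_smul] at this

theorem Wl.zp (a : Wl up h F O V) {c : G} (k : c ∈ zpowers h) (z : X) : Eqv up F z (c • z) :=
  fun w hw => by rw [← a.ups c w z, fix_zpowers k (a.fix w hw)]

/-- the elements of `V` that keep the class of `z` -/
def Wl.keep (a : Wl up h F O V) (z : X) : Subgroup G where
  carrier := {g | g ∈ V ∧ Eqv up F z (g • z)}
  one_mem' := ⟨V.one_mem, by rw [one_smul]; exact .refl z⟩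
  mul_mem' := fun {p q} hp hq => ⟨V.mul_mem hp.1 hq.1, by
    rw [mul_smul]; exact hp.2.trans (a.smul hp.1 hq.2)⟩
  inv_mem' := fun {p} hp => ⟨V.inv_mem hp.1, by
    have := a.smul (V.inv_mem hp.1) hp.2
    rw [inv_smul_smul] at this
    exact this.symm⟩

theorem Wl.mem_keep (a : Wl up h F O V) {z : X} {g : G} :
    g ∈ a.keep z ↔ g ∈ V ∧ Eqv up F z (g • z) := .rfl

open Classical in
/-- local crossing number -/
noncomputable def dd (up : X → X → Prop) (y z z' : X) : ℤ :=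
  (if up y z' then 1 else 0) - (if up y z then 1 else 0)

theorem dd_ne {y z z' : X} : dd up y z z' ≠ 0 ↔ ¬ (up y z ↔ up y z') := by
  unfold dd
  by_cases a : up y z <;> by_cases b : up y z' <;> simp [a, b]

/-- signed number of walls of one orbit that are crossed -/
noncomputable def NN (up : X → X → Prop) (A : Subgroup G) (w z z' : X) : ℤ :=
  ∑ᶠ y : MulAction.orbit A w, dd up y.1 z z'

theorem mem_orb {w y : X} : y ∈ MulAction.orbit A w ↔ ∃ g ∈ A, g • w = y :=
  ⟨fun ⟨g, e⟩ => ⟨g.1, g.2, e⟩, fun ⟨g, k, e⟩ => ⟨⟨g, k⟩, e⟩⟩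

namespace Wl
variable (a : Wl up h F O A) {w : X} (hw : w ∈ F)
include a hw

theorem supp {z z' : X} (hz : z ∈ O) (hz' : z' ∈ O) :
    (Function.support fun y : MulAction.orbit A w => dd up y.1 z z').Finite := by
  refine ((a.fin w hw z hz z' hz').preimage Subtype.val_injective.injOn).subset fun y hy => ?_
  exact ⟨mem_orb.1 y.2, dd_ne.1 hy⟩

theorem NN_add {x y z : X} (hx : x ∈ O) (hy : y ∈ O) (hz : z ∈ O) :
    NN up A w x z = NN up A w x y + NN up A w y z := by
  unfold NN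
  rw [← finsum_add_distrib (a.supp hw hx hy) (a.supp hw hy hz)]
  refine finsum_congr fun u => ?_
  unfold dd
  ring

omit hw in
theorem NN_smul {g : G} (k : g ∈ A) (w z z' : X) :
    NN up A w (g • z) (g • z') = NN up A w z z' := by
  unfold NN
  rw [← finsum_comp_equiv (MulAction.toPerm (⟨g, k⟩ : A))]
  refine finsum_congr fun u => ?_
  have e : ((MulAction.toPerm (⟨g, k⟩ : A) u : MulAction.orbit A w) : X) = g • (u : X) := rfl
  unfold dd
  rw [e, a.ups, a.ups]

theorem NN_eqv {z z' : X} (e : Eqv up F z z') : NN up A w z z' = 0 := by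
  unfold NN
  refine finsum_eq_zero_of_forall_eq_zero fun u => ?_
  obtain ⟨g, hg, k⟩ := mem_orb.1 u.2
  by_contra n
  exact dd_ne.1 n (e _ (k ▸ a.invF g hg w hw))

theorem NN_base {g : G} (k : g ∈ A) {z r : X} (hz : z ∈ O) (hr : r ∈ O) :
    NN up A w z (g • z) = NN up A w r (g • r) := by
  have e1 := a.NN_add hw hz hr (a.invO g k r hr)
  have e2 := a.NN_add hw hz (a.invO g k z hz) (a.invO g k r hr)
  rw [a.NN_smul k] at e2
  linarith

theorem NN_mul {c d : G} (hc : c ∈ A) (hd : d ∈ A) {z : X} (hz : z ∈ O) :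
    NN up A w z ((c * d) • z) = NN up A w z (c • z) + NN up A w z (d • z) := by
  rw [a.NN_add hw hz (a.invO c hc z hz) (a.invO _ (A.mul_mem hc hd) z hz), mul_smul, a.NN_smul hc]

theorem NN_pow {c : G} (hc : c ∈ A) {z : X} (hz : z ∈ O) (m : ℕ) :
    NN up A w z ((c ^ m) • z) = m * NN up A w z (c • z) := by
  induction m with
  | zero => simp [a.NN_eqv hw (.refl z)]
  | succ m ih => rw [pow_succ, a.NN_mul hw (A.pow_mem hc m) hc hz, ih]; push_cast; ring

/-- the count vanishes on groups generated by elliptic elements -/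
theorem NN_gen (hA : Gen up h F O A) {g : G} (k : g ∈ A) {z : X} (hz : z ∈ O) :
    NN up A w z (g • z) = 0 := by
  have key : ∀ g ∈ closure {c | c ∈ A ∧ Ell up h F O c}, g ∈ A ∧ NN up A w z (g • z) = 0 := by
    intro g hg
    induction hg using closure_induction with
    | mem c hc =>
      refine ⟨hc.1, ?_⟩
      rcases hc.2 with ⟨r, hr, e⟩ | ⟨m, m0, e⟩
      · exact (a.NN_base hw hc.1 hz hr).trans (a.NN_eqv hw e)
      · have := a.NN_pow hw hc.1 hz m
        rw [a.NN_eqv hw (a.zp e z)] at this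
        exact (mul_eq_zero.1 this.symm).resolve_left (by exact_mod_cast m0.ne')
    | one => exact ⟨A.one_mem, by rw [one_smul]; exact a.NN_eqv hw (.refl z)⟩
    | mul c d _ _ hc hd =>
      exact ⟨A.mul_mem hc.1 hd.1, by rw [a.NN_mul hw hc.1 hd.1 hz, hc.2, hd.2, add_zero]⟩
    | inv c _ hc =>
      refine ⟨A.inv_mem hc.1, ?_⟩
      have e1 := a.NN_mul hw hc.1 (A.inv_mem hc.1) hz
      rw [mul_inv_cancel, one_smul, a.NN_eqv hw (.refl z), hc.2] at e1
      linarith
  exact (key g (hA k)).2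

/-- a wall that is crossed upwards has a partner in its orbit that is crossed downwards -/
theorem bal {z z' : X} (hz : z ∈ O) (hz' : z' ∈ O) (e : NN up A w z z' = 0)
    (k1 : up w z') (k2 : ¬ up w z) : ∃ g ∈ A, up (g • w) z ∧ ¬ up (g • w) z' := by
  by_contra n
  push Not at n
  have pos : ∀ u : MulAction.orbit A w, 0 ≤ dd up u.1 z z' := fun u => by
    obtain ⟨g, hg, k⟩ := mem_orb.1 u.2
    have := n g hg
    rw [k] at this
    unfold dd
    by_cases b : up u.1 z
    · simp [b, this b]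
    · by_cases c : up u.1 z' <;> simp [b, c]
  have := single_le_finsum (⟨w, MulAction.mem_orbit_self w⟩ : MulAction.orbit A w)
    (a.supp hw hz hz') pos
  have e' : dd up w z z' = 1 := by simp [dd, k1, k2]
  unfold NN at e
  rw [e] at this
  simp only [e'] at this
  omega

theorem partner {z z' : X} (e : Even (NN up A w z z')) (k : ¬ (up w z ↔ up w z')) :
    ∃ g ∈ A, g ∉ zpowers h ∧ ¬ (up (g • w) z ↔ up (g • w) z') := by
  by_contra n
  push Not at n
  unfold NN at e
  rw [finsum_eq_single _ (⟨w, MulAction.mem_orbit_self w⟩ : MulAction.orbit A w)] at e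
  · unfold dd at e
    by_cases b : up w z <;> by_cases c : up w z' <;> simp [b, c] at e k
  · intro u hu
    obtain ⟨g, hg, k⟩ := mem_orb.1 u.2
    by_contra m
    refine dd_ne.1 m (k ▸ n g hg fun i => hu (Subtype.ext ?_))
    rw [← k]
    exact fix_zpowers i (a.fix w hw)

end Wl

/-- two families of orbits with even counts on one path give an alternating cycle -/
theorem Wl.cyc (a : Wl up h F O (A ⊔ B)) (nf : ∀ g, Alt A B (zpowers h) g → g ∉ zpowers h)
    {z z' : X} (hz : z ∈ O) (hz' : z' ∈ O) (eA : ∀ w ∈ F, Even (NN up A w z z'))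
    (eB : ∀ w ∈ F, Even (NN up B w z z')) : Eqv up F z z' := by
  intro w hw
  by_contra n
  let S := {y | (∃ g ∈ A ⊔ B, g • w = y) ∧ ¬ (up y z ↔ up y z')}
  have : Finite S := (a.fin w hw z hz z' hz').to_subtype
  have fx : ∀ y : S, (y : X) ∈ F := fun y => by
    obtain ⟨⟨g, hg, e⟩, -⟩ := y.2
    exact e ▸ a.invF g hg w hw
  have st : ∀ y : S, ∃ y' : S, ∃ g, Alt A B (zpowers h) g ∧ g • (y : X) = y' := fun y => by
    obtain ⟨p, hp, p1, p2⟩ := (a.mono le_sup_left).partner (fx y) (eA _ (fx y)) y.2.2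
    have f1 := a.invF p (mem_sup_left hp) _ (fx y)
    obtain ⟨q, hq, q1, q2⟩ := (a.mono le_sup_right).partner f1 (eB _ f1) p2
    obtain ⟨g, hg, e⟩ := y.2.1
    refine ⟨⟨q • p • (y : X), ⟨q * p * g, mul_mem (mul_mem (mem_sup_right hq) (mem_sup_left hp)) hg,
      ?_⟩, q2⟩, q * p, .one p q hp p1 hq q1, mul_smul _ _ _⟩
    rw [mul_smul, e, mul_smul]
  choose f hf using st
  have it : ∀ (m : ℕ) (y : S), ∃ g, Alt A B (zpowers h) g ∧ g • (y : X) = f^[m + 1] y := by
    intro m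
    induction m with
    | zero => exact hf
    | succ m ih =>
      intro y
      obtain ⟨g, k, e⟩ := ih y
      obtain ⟨g', k', e'⟩ := hf (f^[m + 1] y)
      exact ⟨g' * g, k'.mul k, by rw [mul_smul, e, e', ← Function.iterate_succ_apply' f]⟩
  let y₀ : S := ⟨w, ⟨1, one_mem _, one_smul _ _⟩, n⟩
  have two : ∀ i j : ℕ, i < j → f^[i] y₀ ≠ f^[j] y₀ := fun i j l e => by
    obtain ⟨m, rfl⟩ := Nat.exists_eq_add_of_lt l
    obtain ⟨g, k, e'⟩ := it m (f^[i] y₀)
    rw [← Function.iterate_add_apply, show m + 1 + i = i + m + 1 by ring, ← e] at e'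
    exact k.not_tor nf (a.dep g k.mem _ (fx _) e')
  obtain ⟨i, j, l, e⟩ := Finite.exists_ne_map_eq_of_infinite fun i : ℕ => f^[i] y₀
  exact (lt_or_gt_of_ne l).elim (fun k => two i j k e) fun k => two j i k e.symm

/-- if elements of the two factors move a class to the same place they keep it -/
theorem Wl.cnt (a : Wl up h F O (A ⊔ B)) (nf : ∀ g, Alt A B (zpowers h) g → g ∉ zpowers h)
    (hB : Gen up h F O B) {p q : G} (hp : p ∈ A) (hq : q ∈ B) {z : X} (hz : z ∈ O)
    (hA : ∀ w ∈ F, Even (NN up A w z (p • z))) (e : Eqv up F (p • z) (q • z)) :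
    Eqv up F z (p • z) := by
  have b := a.mono (le_sup_right : B ≤ A ⊔ B)
  have o := a.invO p (mem_sup_left hp) z hz
  refine a.cyc nf hz o hA fun w hw => ?_
  rw [b.NN_add hw hz (b.invO q hq z hz) o, b.NN_gen hw hB hq hz, b.NN_eqv hw e.symm]
  exact ⟨0, rfl⟩

/-- product form: if `p * q` keeps a class then both factors do -/
theorem Wl.cnt_mul (a : Wl up h F O (A ⊔ B)) (nf : ∀ g, Alt A B (zpowers h) g → g ∉ zpowers h)
    (hB : Gen up h F O B) {p q : G} (hp : p ∈ A) (hq : q ∈ B)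
    (hA : ∀ z ∈ O, ∀ w ∈ F, Even (NN up A w z (p • z))) {z : X} (hz : z ∈ O)
    (e : Eqv up F z ((p * q) • z)) : Eqv up F z (p • z) ∧ Eqv up F z (q • z) := by
  have e1 : Eqv up F (p • q • z) (q⁻¹ • q • z) := by
    rw [inv_smul_smul, ← mul_smul]
    exact e.symm
  have o := a.invO q (mem_sup_right hq) z hz
  have e2 := (a.cnt nf hB hp (B.inv_mem hq) o (hA _ o) e1).trans e1
  rw [inv_smul_smul] at e2
  refine ⟨?_, e2.symm⟩
  have e3 := a.smul (mem_sup_left hp) e2
  rw [← mul_smul] at e3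
  exact e.trans e3

/-- no element of a group generated by elliptic elements crosses walls in one direction only -/
theorem Wl.not_mono (a : Wl up h F O A) (hA : Gen up h F O A) {g : G} (hg : g ∈ A) {z : X}
    (hz : z ∈ O) (mono : ∀ w ∈ F, up w z → up w (g • z)) : Eqv up F z (g • z) := by
  intro w hw
  refine ⟨mono w hw, fun k => ?_⟩
  by_contra n
  obtain ⟨p, hp, k1, k2⟩ := a.bal hw hz (a.invO g hg z hz) (a.NN_gen hw hA hg hz) k n
  exact k2 (mono _ (a.invF p hp w hw) k1)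

/-- an element of infinite order modulo `h` keeps at most one class -/
theorem Wl.keep_two (a : Wl up h F O A) {g : G} (hg : g ∈ A) (n : ¬ Tor h g) {z z' : X}
    (hz : z ∈ O) (hz' : z' ∈ O) (e : Eqv up F z (g • z)) (e' : Eqv up F z' (g • z')) :
    Eqv up F z z' := by
  intro w hw
  by_contra k
  have hk : ∀ m : ℕ, (g ^ m) • w ∈ {y | (∃ g ∈ A, g • w = y) ∧ ¬ (up y z ↔ up y z')} := fun m => by
    have m1 := A.pow_mem hg m
    have f := a.invF _ m1 w hw
    have e1 := ((a.keep z).pow_mem ⟨hg, e⟩ m).2 _ f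
    have e2 := ((a.keep z').pow_mem ⟨hg, e'⟩ m).2 _ f
    rw [a.ups] at e1 e2
    exact ⟨⟨_, m1, rfl⟩, by rwa [e1, e2]⟩
  obtain ⟨i, j, l, q⟩ := (a.fin w hw z hz z' hz').exists_lt_map_eq_of_forall_mem hk
  obtain ⟨m, rfl⟩ := Nat.exists_eq_add_of_lt l
  rw [add_assoc, pow_add, mul_smul, smul_left_cancel_iff] at q
  exact n (Tor.of_pow m.succ_pos (a.dep _ (A.pow_mem hg _) w hw q.symm))

end Pool.Agent.Work.MP_3d425c_gt.To.Sf
end

-- merged part: Pool.Agent.Work.MP_3d425c_gt.To.SfAm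
section
/-! Seifert groups with boundary: normal forms, lifting of homomorphisms, classes of walls. -/

namespace Pool.Agent.Work.MP_3d425c_gt.To.Sf
open Set Subgroup

variable {G : Type*} [Group G]

/-- `V` is the group of a Seifert manifold with boundary over a planar base (`tw = false`) or a
base with one cross cap (`tw = true`): fibre `h`, `V / ⟨h⟩` is the free product of the cyclic
groups of the `c i`, `i < n`, and `c n` is the last boundary curve -/
structure Seif (V : Subgroup G) (h : G) (n : ℕ) (c : ℕ → G) (tw : Bool) : Prop where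
  inf : ¬ IsOfFinOrder h
  pos : 0 < n
  gen : V = closure (insert h (c '' Iio n))
  cj : ∀ i < n, c i * h * (c i)⁻¹ = if tw ∧ i = 0 then h⁻¹ else h
  twi : tw → ∀ k : ℤ, c 0 ^ k ∈ zpowers h → k = 0
  pr : (if tw then c 0 else 1) * ((List.range (n + 1)).map c).prod = 1
  nf : ∀ l : List (ℕ × ℤ), l ≠ [] → (∀ x ∈ l, x.1 < n ∧ c x.1 ^ x.2 ∉ zpowers h) →
    l.IsChain (fun x y => x.1 ≠ y.1) → (l.map fun x => c x.1 ^ x.2).prod ∉ zpowers h

/-- the group generated by the fibre and some of the curves -/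
def WW (h : G) (c : ℕ → G) (S : Set ℕ) : Subgroup G := closure (insert h (c '' S))

/-- reduced words with letters from the factors in `S` -/
inductive Rw (h : G) (c : ℕ → G) (S : Set ℕ) : Option ℕ → G → Prop
  | nil (x : G) : x ∈ zpowers h → Rw h c S none x
  | cons (i : ℕ) (o : Option ℕ) (g a : G) : Rw h c S o g → o ≠ some i → i ∈ S → a ∈ WW h c {i} →
      a ∉ zpowers h → Rw h c S (some i) (a * g)

variable {V : Subgroup G} {h : G} {n : ℕ} {c : ℕ → G} {tw : Bool} {S S' T : Set ℕ}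

theorem h_mem (S : Set ℕ) : h ∈ WW h c S := subset_closure (mem_insert _ _)

theorem c_mem {i : ℕ} (k : i ∈ S) : c i ∈ WW h c S := subset_closure (.inr ⟨i, k, rfl⟩)

theorem zp_le (S : Set ℕ) : zpowers h ≤ WW h c S := zpowers_le_of_mem (h_mem S)

theorem WW_le {E : Subgroup G} : WW h c S ≤ E ↔ h ∈ E ∧ ∀ i ∈ S, c i ∈ E := by
  unfold WW
  rw [closure_le, insert_subset_iff, image_subset_iff]
  rfl

theorem WW_mono (k : S ⊆ T) : WW h c S ≤ WW h c T := WW_le.2 ⟨h_mem T, fun _ i => c_mem (k i)⟩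

theorem WW_union : WW h c (S ∪ T) = WW h c S ⊔ WW h c T :=
  le_antisymm (WW_le.2 ⟨mem_sup_left (h_mem S), fun _ k =>
    k.elim (fun k => mem_sup_left (c_mem k)) fun k => mem_sup_right (c_mem k)⟩)
    (sup_le (WW_mono subset_union_left) (WW_mono subset_union_right))

theorem WW_one (i : ℕ) : WW h c {i} = closure {h, c i} := by simp [WW]

theorem Rw.idx {i : ℕ} {g : G} (a : Rw h c S (some i) g) : i ∈ S := by
  cases a
  assumption

theorem Rw.zp {g : G} (a : Rw h c S none g) : g ∈ zpowers h := by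
  cases a
  assumption

theorem Rw.mul {o : Option ℕ} {g x : G} (a : Rw h c S o g) (hx : x ∈ zpowers h) :
    Rw h c S o (x * g) := by
  cases a with
  | nil _ k => exact .nil _ (mul_mem hx k)
  | cons i o g a k m s p q =>
    rw [← mul_assoc]
    exact .cons i o g _ k m s (mul_mem (zp_le _ hx) p) fun r => q ((mul_mem_cancel_left hx).1 r)

theorem Rw.step {o : Option ℕ} {g x : G} {i : ℕ} (a : Rw h c S o g) (hi : i ∈ S)
    (hx : x ∈ WW h c {i}) : ∃ o', Rw h c S o' (x * g) := by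
  by_cases z : x ∈ zpowers h
  · exact ⟨o, a.mul z⟩
  by_cases e : o = some i
  · subst e
    cases a with
    | cons _ o g a k m s p q =>
      rw [← mul_assoc]
      by_cases z' : x * a ∈ zpowers h
      · exact ⟨o, k.mul z'⟩
      · exact ⟨_, .cons i o g _ k m s (mul_mem hx p) z'⟩
  · exact ⟨_, .cons i o g x a e hi hx z⟩

theorem Rw.ex {g : G} (k : g ∈ WW h c S) : ∃ o, Rw h c S o g := by
  induction k using closure_induction_left with
  | one => exact ⟨none, .nil 1 (one_mem _)⟩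
  | mul_left x hx y _ ih =>
    obtain ⟨o, a⟩ := ih
    rcases hx with rfl | ⟨i, hi, rfl⟩
    · exact ⟨o, a.mul (mem_zpowers _)⟩
    · exact a.step hi (c_mem rfl)
  | inv_mul_cancel x hx y _ ih =>
    obtain ⟨o, a⟩ := ih
    rcases hx with rfl | ⟨i, hi, rfl⟩
    · exact ⟨o, a.mul (inv_mem (mem_zpowers _))⟩
    · exact a.step hi (inv_mem (c_mem rfl))

theorem Rw.append {o o' : Option ℕ} {g x : G} (a : Rw h c S o g) (k : S ⊆ T) (b : Rw h c T o' x)
    (d : ∀ i ∈ S, o' ≠ some i) : Rw h c T (o.or o') (g * x) := by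
  induction a with
  | nil y hy => exact b.mul hy
  | cons i o g a r m s p q ih =>
    rw [mul_assoc]
    refine .cons i _ _ a ih ?_ (k s) p q
    cases o with
    | none => exact d i s
    | some j => exact m

theorem Rw.front {o' : Option ℕ} {g x : G} (a : g ∈ WW h c S) (z : g ∉ zpowers h) (k : S ⊆ T)
    (b : Rw h c T o' x) (d : ∀ i ∈ S, o' ≠ some i) : ∃ i ∈ S, Rw h c T (some i) (g * x) := by
  obtain ⟨_ | i, r⟩ := Rw.ex a
  · exact absurd r.zp z
  · exact ⟨i, r.idx, r.append k b d⟩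

theorem Alt.rw (d : Disjoint S S') (k : S ⊆ T) (k' : S' ⊆ T) {g : G}
    (a : Alt (WW h c S) (WW h c S') (zpowers h) g) : ∃ i ∈ S', Rw h c T (some i) g := by
  have key : ∀ a b x o, a ∈ WW h c S → a ∉ zpowers h → b ∈ WW h c S' → b ∉ zpowers h →
      Rw h c T o x → (∀ i ∈ S, o ≠ some i) → ∃ i ∈ S', Rw h c T (some i) (b * a * x) := by
    intro a b x o k1 k2 k3 k4 r m
    obtain ⟨i, hi, r'⟩ := Rw.front k1 k2 k r m
    rw [mul_assoc]
    exact Rw.front k3 k4 k' r' fun j hj e => disjoint_left.1 d hi (Option.some.inj e ▸ hj)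
  induction a with
  | one a b k1 k2 k3 k4 =>
    simpa using key a b 1 none k1 k2 k3 k4 (.nil 1 (one_mem _)) (by simp)
  | cons a b g k1 k2 k3 k4 _ ih =>
    obtain ⟨i, hi, r⟩ := ih
    exact key a b g _ k1 k2 k3 k4 r fun j hj e => disjoint_left.1 d hj (Option.some.inj e ▸ hi)

theorem norm_of {a : G} (k : a * h * a⁻¹ = h ∨ a * h * a⁻¹ = h⁻¹) :
    a ∈ normalizer (zpowers h : Set G) := by
  have e : (zpowers h).map (MulAut.conj a).toMonoidHom = zpowers h := by
    rw [MonoidHom.map_zpowers]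
    rcases k with k | k
    · exact congrArg zpowers k
    · exact (congrArg zpowers k).trans zpowers_inv
  exact mem_normalizer_iff_map_conj_eq.2 e

/-- normal form in one factor -/
theorem pair_form {i : ℕ} (k : c i ∈ normalizer (zpowers h : Set G)) {g : G}
    (hg : g ∈ WW h c {i}) : ∃ x ∈ zpowers h, ∃ m : ℤ, g = x * c i ^ m := by
  have cj : ∀ m : ℤ, ∀ x ∈ zpowers h, c i ^ m * x * (c i ^ m)⁻¹ ∈ zpowers h := fun m x hx =>
    (mem_normalizer_iff.1 (zpow_mem k m) x).1 hx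
  let K : Subgroup G := ⟨⟨⟨{g | ∃ x ∈ zpowers h, ∃ m : ℤ, g = x * c i ^ m}, by
      rintro _ _ ⟨x, hx, m, rfl⟩ ⟨y, hy, p, rfl⟩
      exact ⟨_, mul_mem hx (cj m y hy), m + p, by rw [zpow_add]; group⟩⟩, 1, one_mem _, 0, by simp⟩, by
      rintro _ ⟨x, hx, m, rfl⟩
      exact ⟨_, cj (-m) _ (inv_mem hx), -m, by group⟩⟩
  refine (WW_le (E := K)).2 ⟨⟨h, mem_zpowers h, 0, by simp⟩, ?_⟩ hg
  rintro _ rfl
  exact ⟨1, one_mem _, 1, by simp⟩

namespace Seif
variable (s : Seif V h n c tw)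
include s

theorem eq : V = WW h c (Iio n) := s.gen

theorem cj' {i : ℕ} (k : i < n) : c i * h * (c i)⁻¹ = h ∨ c i * h * (c i)⁻¹ = h⁻¹ := by
  rw [s.cj i k]
  split_ifs
  exacts [.inr rfl, .inl rfl]

theorem nm {i : ℕ} (k : i < n) : c i ∈ normalizer (zpowers h : Set G) := norm_of (s.cj' k)

theorem le_nm : V ≤ normalizer (zpowers h : Set G) :=
  s.eq ▸ WW_le.2 ⟨le_normalizer (mem_zpowers h), fun _ => s.nm⟩

theorem WW_le_V (k : S ⊆ Iio n) : WW h c S ≤ V := s.eq ▸ WW_mono k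

theorem h_V : h ∈ V := s.eq ▸ h_mem _

theorem word {o : Option ℕ} {g : G} (a : Rw h c (Iio n) o g) : ∃ l : List (ℕ × ℤ),
    (∀ x ∈ l, x.1 < n ∧ c x.1 ^ x.2 ∉ zpowers h) ∧ l.IsChain (fun x y => x.1 ≠ y.1) ∧
    l.head?.map Prod.fst = o ∧ ∃ x ∈ zpowers h, g = x * (l.map fun x => c x.1 ^ x.2).prod := by
  induction a with
  | nil x hx => exact ⟨[], by simp, .nil, rfl, x, hx, by simp⟩
  | cons i o g a _ m hi p q ih =>
    obtain ⟨l, l1, l2, l3, x, hx, rfl⟩ := ih
    obtain ⟨y, hy, k, rfl⟩ := pair_form (s.nm hi) p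
    refine ⟨(i, k) :: l, ?_, ?_, rfl, _, mul_mem hy
      ((mem_normalizer_iff.1 (zpow_mem (s.nm hi) k) x).1 hx), by simp [mul_assoc]⟩
    · intro z hz
      rcases List.mem_cons.1 hz with rfl | hz
      · exact ⟨hi, fun r => q (mul_mem hy r)⟩
      · exact l1 z hz
    · cases l with
      | nil => exact .singleton _
      | cons z l => exact .cons_cons (fun e => m (by rw [← l3]; exact congrArg some e.symm)) l2

/-- reduced words of positive length are not in the fibre group -/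
theorem nfw {i : ℕ} {g : G} (a : Rw h c (Iio n) (some i) g) : g ∉ zpowers h := fun k => by
  obtain ⟨l, l1, l2, l3, x, hx, rfl⟩ := s.word a
  exact s.nf l (by rintro rfl; simp at l3) l1 l2 ((mul_mem_cancel_left hx).1 k)

theorem nfa (d : Disjoint S S') (k : S ⊆ Iio n) (k' : S' ⊆ Iio n) (g : G)
    (a : Alt (WW h c S) (WW h c S') (zpowers h) g) : g ∉ zpowers h :=
  let ⟨_, _, r⟩ := a.rw d k k'
  s.nfw r

/-- homomorphisms are given by compatible values on the generators -/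
theorem lift {K : Type*} [Group K] (η : K) (γ : ℕ → K)
    (cj : ∀ i < n, γ i * η * (γ i)⁻¹ = if tw ∧ i = 0 then η⁻¹ else η)
    (rel : ∀ i < n, ∀ m k : ℤ, h ^ m * c i ^ k = 1 → η ^ m * γ i ^ k = 1) :
    ∃ f : G → K, (∀ a ∈ V, ∀ b ∈ V, f (a * b) = f a * f b) ∧ f h = η ∧ ∀ i < n, f (c i) = γ i := by
  classical
  let d : ℕ → G × K := fun i => (c i, γ i)
  have z0 : ∀ x ∈ zpowers (h, η), x.1 ∈ zpowers h ∧ (x.1 = 1 → x = 1) := by
    rintro _ ⟨m, rfl⟩
    refine ⟨⟨m, rfl⟩, fun e => ?_⟩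
    have : m = 0 := by
      by_contra m0
      exact s.inf (isOfFinOrder_iff_zpow_eq_one.2 ⟨m, m0, e⟩)
    simp [this]
  have nm : ∀ i < n, d i ∈ normalizer (zpowers (h, η) : Set (G × K)) := fun i hi => by
    refine norm_of ?_
    have e1 := s.cj i hi
    have e2 := cj i hi
    split_ifs at e1 e2
    exacts [.inr (Prod.ext e1 e2), .inl (Prod.ext e1 e2)]
  have pj : ∀ S, ∀ x ∈ WW (h, η) d S, x.1 ∈ WW h c S := fun S =>
    (WW_le (E := (WW h c S).comap (MonoidHom.fst G K))).2 ⟨h_mem S, fun _ => c_mem⟩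
  have fw : ∀ o x, Rw (h, η) d (Iio n) o x → Rw h c (Iio n) o x.1 := fun o x a => by
    induction a with
    | nil x hx => exact .nil _ (z0 x hx).1
    | cons i o g a _ m hi p q ih =>
      refine .cons i o g.1 a.1 ih m hi (pj _ a p) fun ⟨j, e⟩ => q ?_
      obtain ⟨_, ⟨u, rfl⟩, k, rfl⟩ := pair_form (nm i hi) p
      have e1 : h ^ j = h ^ u * c i ^ k := e
      have e2 := rel i hi (u - j) k (by rw [sub_eq_neg_add, zpow_add, mul_assoc, ← e1]; simp)
      refine ⟨j, Prod.ext e1 ?_⟩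
      rw [sub_eq_neg_add, zpow_add, mul_assoc, zpow_neg, inv_mul_eq_one] at e2
      exact e2
  have inj : ∀ x ∈ WW (h, η) d (Iio n), x.1 = 1 → x = 1 := fun x hx e => by
    obtain ⟨_ | i, r⟩ := Rw.ex hx
    · exact (z0 x r.zp).2 e
    · exact absurd (e ▸ one_mem _) (s.nfw (fw _ _ r))
  have uq : ∀ g k k', (g, k) ∈ WW (h, η) d (Iio n) → (g, k') ∈ WW (h, η) d (Iio n) → k = k' :=
    fun g k k' a b => inv_mul_eq_one.1
      (congrArg Prod.snd (inj _ (mul_mem (inv_mem a) b) (inv_mul_cancel g)))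
  have sj : ∀ g ∈ V, ∃ k, (g, k) ∈ WW (h, η) d (Iio n) := fun g hg => by
    obtain ⟨x, hx, rfl⟩ := (WW_le (E := (WW (h, η) d (Iio n)).map (MonoidHom.fst G K))).2
      ⟨⟨_, h_mem _, rfl⟩, fun i hi => ⟨_, c_mem hi, rfl⟩⟩ (s.eq ▸ hg)
    exact ⟨x.2, hx⟩
  choose! f hf using sj
  exact ⟨f, fun a ha b hb => uq _ _ _ (hf _ (mul_mem ha hb)) (mul_mem (hf a ha) (hf b hb)),
    uq _ _ _ (hf _ s.h_V) (h_mem _), fun i hi => uq _ _ _ (hf _ (s.eq ▸ c_mem hi)) (c_mem (c := d) hi)⟩

theorem last : (if tw then c 0 else 1) * ((List.range n).map c).prod = (c n)⁻¹ := by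
  have := s.pr
  rw [List.range_succ, List.map_append, List.prod_append, ← mul_assoc] at this
  simpa using eq_inv_of_mul_eq_one_left this

omit s in
theorem prod_mem {E : Subgroup G} (k : ∀ i < n, c i ∈ E) : ((List.range n).map c).prod ∈ E :=
  E.list_prod_mem fun x hx => by
    obtain ⟨i, hi, rfl⟩ := List.mem_map.1 hx
    exact k i (List.mem_range.1 hi)

theorem c_V {i : ℕ} (k : i ≤ n) : c i ∈ V := by
  have b : ∀ i < n, c i ∈ V := fun i hi => s.eq ▸ c_mem hi
  rcases k.lt_or_eq with k | rfl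
  · exact b i k
  · rw [← inv_mem_iff, ← s.last]
    refine mul_mem ?_ (prod_mem b)
    split_ifs
    exacts [b 0 s.pos, one_mem _]

theorem A_le {i : ℕ} (k : i ≤ n) : WW h c {i} ≤ V :=
  WW_le.2 ⟨s.h_V, by rintro _ rfl; exact s.c_V k⟩

/-- all curves but the cross cap commute with the fibre -/
theorem comm {i : ℕ} (k : i ≤ n) (t : ¬ (tw ∧ i = 0)) : c i * h = h * c i := by
  have b : ∀ i < n, ¬ (tw ∧ i = 0) → c i * h = h * c i := fun i hi t => by
    have := s.cj i hi
    rw [if_neg t] at this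
    exact mul_inv_eq_iff_eq_mul.1 this
  rcases k.lt_or_eq with k | rfl
  · exact b i k t
  rw [← mem_centralizer_singleton_iff, ← inv_mem_iff, ← s.last]
  by_cases w : tw
  · obtain ⟨m, rfl⟩ := Nat.exists_eq_succ_of_ne_zero s.pos.ne'
    rw [if_pos w, List.range_succ_eq_map, List.map_cons, List.prod_cons, ← mul_assoc, List.map_map]
    refine mul_mem (mem_centralizer_singleton_iff.2 ?_) (prod_mem (c := c ∘ Nat.succ) fun j hj =>
      mem_centralizer_singleton_iff.2 (b _ (Nat.succ_lt_succ hj) (by simp)))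
    have e := s.cj 0 s.pos
    rw [if_pos ⟨w, rfl⟩] at e
    have e2 : c 0 * h⁻¹ * (c 0)⁻¹ = h := by
      have := congrArg (·⁻¹) e
      simpa [mul_assoc] using this
    calc c 0 * c 0 * h = c 0 * (c 0 * h * (c 0)⁻¹) * (c 0)⁻¹ * (c 0 * c 0) := by group
      _ = h * (c 0 * c 0) := by rw [e, e2]
  · rw [if_neg w, one_mul]
    exact prod_mem fun j hj => mem_centralizer_singleton_iff.2 (b j hj fun t => w t.1)

end Seif

end Pool.Agent.Work.MP_3d425c_gt.To.Sf
end
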