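import Pool.Agent.Work.MP_3d425c_gt.To.SfDefs
import Pool.Agent.Work.MP_3d425c_gt.To.AxC

/-! Lines, hulls and elliptic elements. -/

namespace Pool.Agent.Work.MP_3d425c_gt.To.Ph
open Set Pool.Agent.Work.MP_3d425c_gt.Cy Pool.Agent.Work.MP_3d425c_gt.To.Ax
open Pool.Agent.Work.MP_3d425c_gt.Gl

variable {G X : Type*} [Group G] [MulAction G X] {C : Set (ℝ → X)} {up : X → X → Prop}
variable (H : Om G C up) {h x : G}
include H

omit H in
theorem geo_t {a p : X} : hm up (a, true) p ↔ Uc up a p := by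
  simp only [hm, Uc, if_true]

theorem geo_f {a p : X} : hm up (a, false) p ↔ Uc (dualU up) a p := by
  rw [Uc, H.windA_dual]
  simp only [hm, Bool.false_eq_true, if_false]

omit H in
theorem geo_et {a b : X} : hE C (a, true) (b, true) ↔ LG C a b := by
  simp only [hE, if_true, true_and]

omit H in
theorem geo_ef {a b : X} : hE C (a, false) (b, false) ↔ LG (dualC C) a b := by
  simp only [hE, Bool.false_eq_true, if_false, true_and]

omit H in
theorem geo_le {a b : X} : Le (dualC C) a b ↔ Le C b a := by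
  simp only [Le, asc_dual, eq_comm]

theorem geo_nest {a b : X} : Nest (dualU up) a b ↔ Nest up b a :=
  ⟨fun k => ⟨by_contra fun q => k.2 ⟨q, k.1.2.symm⟩, k.1.1⟩,
    fun k => ⟨⟨k.2, fun e => H.irr b (by simpa only [e] using k.1)⟩, fun q => q.1 k.1⟩⟩

theorem geo_smul (g : G) {a : X × Bool} {p : X} (f : g • a.1 = a.1) (k : hm up a p) :
    hm up a (g • p) := by
  obtain ⟨a, _ | _⟩ := a
  · have := uc_smul H.dual g ((geo_f H).1 k)
    rw [f] at this
    exact (geo_f H).2 this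
  · have := uc_smul H g (geo_t.1 k)
    rw [f] at this
    exact geo_t.2 this

omit H in
theorem geo_pow {g : G} {p : X} (f : g • p = p) (j : ℤ) : g ^ j • p = p :=
  (MulAction.stabilizer G p).zpow_mem f j

/-- Shortest chain of comparable points (`chn_univ`), `valley` or its dual gives a jump. -/
theorem nj_cmp {p q : X} (e : ∀ j, ¬ Jump C up j p q) : Cmp C p q := by
  by_contra nc
  rcases sep_pair H nc with ⟨m, n, l, ne, a1, a2⟩ | ⟨m, n, l, ne, a1, a2⟩
  · exact e (m, true) ⟨(m, true), (n, true), H.hE_equiv.refl _, geo_et.2 l,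
      fun k => ne (congrArg Prod.fst k), geo_t.2 a1, geo_t.2 a2⟩
  · exact e (m, false) ⟨(m, false), (n, false), H.hE_equiv.refl _, geo_ef.2 l,
      fun k => ne (congrArg Prod.fst k), (geo_f H).2 a1, (geo_f H).2 a2⟩

theorem cmp_nj {p q : X} (e : Cmp C p q) (j : X × Bool) : ¬ Jump C up j p q := by
  rcases e with (rfl | ⟨c, hc, s, t, -, rfl, rfl⟩) | rfl | ⟨c, hc, s, t, -, rfl, rfl⟩
  · obtain ⟨c, hc, s, rfl⟩ := H.cover p
    exact H.chart_in hc j s s
  · exact H.chart_in hc j s t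
  · obtain ⟨c, hc, s, rfl⟩ := H.cover q
    exact H.chart_in hc j s s
  · exact H.chart_in hc j t s

/-- `fix_pair` and its dual. -/
theorem jump_fix {a b : X × Bool} {p q : X} {g : G} (e : hE C a b) (ne : a ≠ b) (ha : hm up a p)
    (hb : hm up b q) (cp : Cmp C p (g • p)) (cq : Cmp C q (g • q)) :
    g • a.1 = a.1 ∧ g • b.1 = b.1 := by
  obtain ⟨a, α⟩ := a
  obtain ⟨b, β⟩ := b
  obtain rfl : α = β := e.1
  have ne' : a ≠ b := fun k => ne (by rw [k])
  cases α
  · exact fix_pair H.dual (geo_ef.1 e) ne' ((geo_f H).1 ha) ((geo_f H).1 hb)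
      (cmp_dual (C := C) ▸ cp) (cmp_dual (C := C) ▸ cq)
  · exact fix_pair H (geo_et.1 e) ne' (geo_t.1 ha) (geo_t.1 hb) cp cq

theorem geo_deg {o μ : X} (n1 : ¬ Asc C μ (x • μ)) (n2 : ¬ Asc C (x • μ) μ)
    (e : Cmp C o (x • o)) : Uc up μ o ↔ Uc up μ (x • o) := by
  rcases e with e | e
  · refine ⟨fun k => uc_le H k e, fun k => by_contra fun q => ?_⟩
    obtain ⟨a1, a2⟩ := enter H (e.resolve_left fun z => q (z ▸ k)) q k
    exact n1 (le_asc H a2 (asc_smul H x a1))
  · refine ⟨fun k => by_contra fun q => ?_, fun k => uc_le H k e⟩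
    obtain ⟨a1, a2⟩ := enter H (e.resolve_left fun z => q (z.symm ▸ k)) q k
    exact n2 (le_asc H (le_smul H x a2) a1)

/-- `enter`: if `o < μ ≤ x o` then `μ ≤ x o < x μ`; if `x o < μ ≤ o` then `x μ < μ`; dual. -/
theorem deg (hx : Ell up h x) {o : X} (e : Cmp C o (x • o)) {a : X × Bool} (ha : h • a.1 = a.1) :
    hm up a o ↔ hm up a (x • o) := by
  obtain ⟨n1, n2⟩ := hx.2 _ ha
  obtain ⟨a, _ | _⟩ := a
  · rw [geo_f H, geo_f H]
    exact geo_deg H.dual (fun k => n2 (asc_nest H (asc_dual.1 k)))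
      (fun k => n1 (asc_nest H (asc_dual.1 k))) (cmp_dual (C := C) ▸ e)
  · rw [geo_t, geo_t]
    exact geo_deg H (fun k => n1 (asc_nest H k)) (fun k => n2 (asc_nest H k)) e

theorem ell_tor (c : h * x = x * h) {i j : ℤ} (hi : i ≠ 0) (e : x ^ i = h ^ j) :
    Ell up h x := by
  refine ⟨c, fun μ f => ?_⟩
  have k : ∀ g : G, g ^ i • μ = μ → ¬ Nest up μ (g • μ) := fun g f n => by
    obtain ⟨m, hm⟩ := Nat.exists_eq_succ_of_ne_zero (Int.natAbs_ne_zero.2 hi)
    have a : g ^ (m + 1) • μ = μ := by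
      have b : g ^ i ∈ MulAction.stabilizer G μ := f
      rcases Int.natAbs_eq i with q | q <;> rw [q, hm] at b
      · exact zpow_natCast g _ ▸ b
      · rw [zpow_neg, inv_mem_iff] at b
        exact zpow_natCast g _ ▸ b
    have b := (n.pow H m).1
    rw [a] at b
    exact H.irr _ b
  have f1 : x ^ i • μ = μ := e ▸ geo_pow f j
  refine ⟨k x f1, fun n => k x⁻¹ ?_ (by simpa only [inv_smul_smul] using n.smul H x⁻¹)⟩
  rw [inv_zpow, inv_smul_eq_iff, f1]

theorem geo_asc {o : X} (ho : Asc C o (h • o)) (j : ℕ) : Asc C (h ^ j • o) (h ^ (j + 1) • o) := by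
  rw [pow_succ, mul_smul]
  exact asc_smul H _ ho

theorem geo_mono {o : X} (ho : Asc C o (h • o)) {i j : ℕ} (e : i ≤ j) :
    Le C (h ^ i • o) (h ^ j • o) := by
  obtain ⟨k, rfl⟩ := Nat.exists_eq_add_of_le e
  rw [pow_add, mul_smul]
  exact le_smul H _ (le_pow H (.inr ho) k)

theorem geo_inv {o : X} (ho : Asc C o (h • o)) : Asc (dualC C) o (h⁻¹ • o) :=
  asc_dual.2 (by simpa only [inv_smul_smul] using asc_smul H h⁻¹ ho)

theorem geo_anti {o : X} (ho : Asc C o (h • o)) {i j : ℕ} (e : i ≤ j) :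
    Le C ((h ^ j)⁻¹ • o) ((h ^ i)⁻¹ • o) := by
  simpa only [inv_pow, geo_le] using geo_mono H.dual (geo_inv H ho) e

/-- The limit of an increasing orbit below `p`: on a chart through `o` and `p` take the
supremum of the parameters; for the last clause use `germ`. -/
theorem lim {o p : X} (ho : Asc C o (h • o)) (hp : ∀ j : ℕ, Le C (h ^ j • o) p) :
    ∃ z, (∀ j : ℕ, Asc C (h ^ j • o) z) ∧ Le C z p ∧
      ∀ g : G, Cmp C p (g • p) → (∀ j : ℕ, ∃ i : ℕ, Le C (h ^ j • o) (g • h ^ i • o)) →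
        (∀ j : ℕ, ∃ i : ℕ, Le C (g • h ^ j • o) (h ^ i • o)) → g • z = z := by
  have hp' : ∀ j : ℕ, Asc C (h ^ j • o) p := fun j => asc_le H (geo_asc H ho j) (hp _)
  obtain ⟨c, hc, s, t, st, e1, rfl⟩ := hp' 0
  have on : ∀ w, Le C (c s) w → Le C w (c t) → ∃ u, u ≤ t ∧ w = c u := fun w a1 a2 => by
    rcases a1 with rfl | a1
    · exact ⟨s, st.le, rfl⟩
    rcases a2 with rfl | a2
    · exact ⟨t, le_rfl, rfl⟩
    obtain ⟨a, ha, s', t', s0, t0, b1, rfl, b2⟩ := asc_three H a1 a2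
    obtain ⟨u, -, b3, b4⟩ := H.conv ha hc b1 b2 s0.le t0.le
    exact ⟨u, b3, b4⟩
  choose u ut hu using fun j : ℕ => on (h ^ j • o) (e1 ▸ geo_mono H ho j.zero_le) (hp j)
  have bd : BddAbove (range u) := ⟨t, forall_mem_range.2 ut⟩
  have lt : ∀ {a b : ℝ}, Asc C (c a) (c b) → a < b := fun k => (H.upc hc _ _).1 (asc_nest H k).1
  have z1 : ∀ j : ℕ, Asc C (h ^ j • o) (c (sSup (range u))) := fun j =>
    ⟨c, hc, u j, _, (lt (hu j ▸ hu (j + 1) ▸ geo_asc H ho j)).trans_le (le_csSup bd ⟨_, rfl⟩),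
      (hu j).symm, rfl⟩
  have z2 : Le C (c (sSup (range u))) (c t) := by
    rcases (csSup_le (range_nonempty u) (forall_mem_range.2 ut)).eq_or_lt with q | q
    exacts [.inl (by rw [q]), .inr ⟨c, hc, _, _, q, rfl, rfl⟩]
  have z3 : ∀ y, Asc C y (c (sSup (range u))) → ∃ j : ℕ, Asc C y (h ^ j • o) := fun y k => by
    obtain ⟨w, a1, a2, a3⟩ := germ H (z1 0) k
    obtain ⟨v, -, rfl⟩ := on w (.inr (e1 ▸ a1)) (.inr (asc_le H a3 z2))
    obtain ⟨_, ⟨j, rfl⟩, b⟩ := exists_lt_of_lt_csSup (range_nonempty u) (lt a3)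
    exact ⟨j, asc_trans H a2 ⟨c, hc, _, _, b, rfl, (hu j).symm⟩⟩
  refine ⟨_, z1, z2, fun g cp k1 k2 => ?_⟩
  obtain ⟨i, hi⟩ := k1 0
  have a1 := le_asc H hi (asc_smul H g (z1 i))
  have a2 := le_smul H g z2
  have cm : Cmp C (c (sSup (range u))) (g • c (sSup (range u))) := cp.elim
    (fun q => seg H (.inr (z1 0)) (le_tr H z2 q) (.inr a1) a2)
    fun q => seg H (.inr (z1 0)) z2 (.inr a1) (le_tr H a2 q)
  rcases cm with (q | q) | q | q
  · exact q.symm
  · obtain ⟨j, b⟩ := z3 _ (by simpa only [inv_smul_smul] using asc_smul H g⁻¹ q)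
    obtain ⟨i, b'⟩ := k2 j
    have := asc_smul H g b
    rw [smul_inv_smul] at this
    exact absurd (asc_trans H (asc_le H this b') (z1 i)) (asc_irr H _)
  · exact q
  · obtain ⟨j, b⟩ := z3 _ q
    obtain ⟨i, b'⟩ := k1 j
    exact absurd (asc_trans H (asc_le H b b') (asc_smul H g (z1 i))) (asc_irr H _)

omit H in
theorem geo_sw {g : G} (c : h * g = g * h) (j : ℕ) (p : X) : g • h ^ j • p = h ^ j • g • p := by
  rw [← mul_smul, ← mul_smul, (Commute.pow_left c j).eq]

omit H in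
theorem geo_sw' {g : G} (c : h * g = g * h) (j : ℕ) (p : X) :
    g • (h ^ j)⁻¹ • p = (h ^ j)⁻¹ • g • p := by
  rw [← mul_smul, ← mul_smul, (Commute.pow_left c j).inv_left.eq]

omit H in
theorem geo_hd {o p : X} : Hull (dualC C) h⁻¹ o p ↔ Hull C h o p := by
  simp only [Hull, geo_le, inv_pow, inv_inv, and_comm]

theorem geo_top {o p : X} (ho : Asc C o (h • o)) (hp : ∀ j : ℕ, Le C (h ^ j • o) p) :
    ∃ z, ¬ Uc up z o ∧ Uc up z p ∧
      ∀ g : G, h * g = g * h → Hull C h o (g • o) → Cmp C p (g • p) → g • z = z := by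
  obtain ⟨z, a1, a2, a3⟩ := lim H ho hp
  refine ⟨z, by simpa using asc_not_uc H (a1 0), le_uc H a2, fun g c ⟨k, b1, b2⟩ cp =>
    a3 g cp (fun j => ⟨j + k, ?_⟩) fun j => ⟨j + k, ?_⟩⟩
  · simpa only [geo_sw c, pow_add, mul_smul, smul_inv_smul] using le_smul H (h ^ j * h ^ k) b1
  · simpa only [geo_sw c, pow_add, mul_smul] using le_smul H (h ^ j) b2

/-- a point comparable with the orbit and outside the hull lies behind a limit point -/
theorem geo_out {o p : X} (ho : Asc C o (h • o))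
    (cm : ∀ j : ℕ, Cmp C p (h ^ j • o) ∧ Cmp C p ((h ^ j)⁻¹ • o)) (n : ¬ Hull C h o p) :
    ∃ a : X × Bool, ¬ hm up a o ∧ hm up a p ∧
      ∀ g : G, h * g = g * h → Hull C h o (g • o) → Cmp C p (g • p) → g • a.1 = a.1 := by
  by_cases k : ∀ j : ℕ, Le C (h ^ j • o) p
  · obtain ⟨z, a1, a2, a3⟩ := geo_top H ho k
    exact ⟨(z, true), fun q => a1 (geo_t.1 q), geo_t.2 a2, a3⟩
  · obtain ⟨i, k⟩ := not_forall.1 k
    have k1 := (cm i).1.resolve_right k
    obtain ⟨z, a1, a2, a3⟩ := geo_top H.dual (geo_inv H ho) (p := p) fun j => by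
      rw [inv_pow, geo_le]
      exact le_tr H ((cm (i + j)).2.resolve_right fun q =>
        n ⟨i + j, q, le_tr H k1 (geo_mono H ho (Nat.le_add_right i j))⟩)
        (geo_anti H ho (Nat.le_add_left j i))
    exact ⟨(z, false), fun q => a1 ((geo_f H).1 q), (geo_f H).2 a2, fun g c b1 b2 =>
      a3 g (Commute.inv_left c).eq (geo_hd.2 b1) (cmp_dual (C := C) ▸ b2)⟩

omit H in
theorem geo_npow {P : Subgroup G} {s : G → ℝ} (sl : Sl P s) {p : G} (hp : p ∈ P) (k : ℕ) :
    s (p ^ k) = k * s p := by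
  simpa using add_zpow sl.add hp k

theorem geo_line {P : Subgroup G} {s : G → ℝ} {y : X} (sl : Sl P s) (L : Line C P s y) {p q : G}
    (hp : p ∈ P) (hq : q ∈ P) (k : s p < s q) : Asc C (p • y) (q • y) := by
  have := asc_smul H p (L.asc (p⁻¹ * q) (P.mul_mem (P.inv_mem hp) hq) (by
    rw [sl.add _ (P.inv_mem hp) _ hq, add_inv sl.add hp]
    linarith))
  rwa [mul_smul, smul_inv_smul] at this

theorem geo_lh {P : Subgroup G} {s : G → ℝ} {y : X} (sl : Sl P s) (L : Line C P s y)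
    (hh : h ∈ P) (hs : 0 < s h) {q : G} (hq : q ∈ P) : Hull C h y (q • y) := by
  obtain ⟨j, hj⟩ := exists_nat_gt (|s q| / s h)
  rw [div_lt_iff₀ hs, abs_lt] at hj
  have m := P.pow_mem hh j
  refine ⟨j, .inr (geo_line H sl L (P.inv_mem m) hq ?_), .inr (geo_line H sl L hq m ?_)⟩
  · rw [add_inv sl.add m, geo_npow sl hh]
    exact hj.1
  · rw [geo_npow sl hh]
    exact hj.2

theorem geo_self {o : X} (ho : Asc C o (h • o)) : Hull C h o (h • o) :=
  ⟨1, by simpa using le_tr H (geo_anti H ho (Nat.zero_le 1)) (by simpa using .inr ho),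
    .inl (by rw [pow_one])⟩

/-- Uniqueness of the line. A jump between `p` and `h ^ j y` is fixed by `h` and `x`; if `p` is
above (below) all `h ^ j y` the limit point is fixed by `h` and `x`. -/
theorem uni (rk : Rk G X) (c : h * x = x * h) (nd : ¬ Dp h x) {s : G → ℝ} {y : X}
    (sl : Sl (Subgroup.closure {h, x}) s) (L : Line C (Subgroup.closure {h, x}) s y)
    (hs : 0 < s h) {p : X} (c1 : Cmp C p (h • p)) (c2 : Cmp C p (x • p)) : Hull C h y p := by
  have mh : h ∈ Subgroup.closure {h, x} := Subgroup.subset_closure (by simp)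
  have mx : x ∈ Subgroup.closure {h, x} := Subgroup.subset_closure (by simp)
  have ho := L.asc h mh hs
  have cm : ∀ q ∈ Subgroup.closure {h, x}, Cmp C p (q • y) := fun q hq => by
    by_contra nc
    obtain ⟨m, f, -⟩ := sep_fix H nc
    have k : ∀ a ∈ Subgroup.closure {h, x}, Cmp C (q • y) (a • q • y) := fun a ha => by
      rw [← mul_smul, sl.comm a ha q hq, mul_smul]
      exact cmp_smul H q (L.cmp a ha)
    exact nd (rk m h x (f h c1 (k h mh)) (f x c2 (k x mx)))
  by_contra n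
  obtain ⟨a, -, -, f⟩ := geo_out H ho (fun j => ⟨cm _ (pow_mem mh j), cm _ (inv_mem (pow_mem mh j))⟩) n
  exact nd (rk a.1 h x (f h rfl (geo_self H ho) c1) (f x c (geo_lh H sl L mh hs mx) c2))

omit H in
theorem geo_cl (h x : G) : Subgroup.closure {h⁻¹, x} = Subgroup.closure {h, x} := by
  refine le_antisymm ((Subgroup.closure_le _).2 ?_) ((Subgroup.closure_le _).2 ?_)
  · rintro _ (rfl | rfl)
    exacts [inv_mem (Subgroup.subset_closure (by simp)), Subgroup.subset_closure (by simp)]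
  · rintro _ (rfl | rfl)
    exacts [inv_mem_iff.1 (Subgroup.subset_closure (by simp)), Subgroup.subset_closure (by simp)]

/-- `uni` for both signs -/
theorem geo_uni (rk : Rk G X) (c : h * x = x * h) (nd : ¬ Dp h x) {s : G → ℝ} {y : X}
    (sl : Sl (Subgroup.closure {h, x}) s) (L : Line C (Subgroup.closure {h, x}) s y)
    (hs : s h ≠ 0) {p : X} (c1 : Cmp C p (h • p)) (c2 : Cmp C p (x • p)) :
    ∃ k, (k = h ∨ k = h⁻¹) ∧ 0 < s k ∧ Hull C k y p := by
  rcases hs.lt_or_gt with q | q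
  · have mh : h ∈ Subgroup.closure {h, x} := Subgroup.subset_closure (by simp)
    have q' : 0 < s h⁻¹ := by
      rw [add_inv sl.add mh]
      linarith
    refine ⟨h⁻¹, .inr rfl, q', uni H rk (Commute.inv_left c).eq ?_ (geo_cl h x ▸ sl)
      (geo_cl h x ▸ L) q' (by simpa only [inv_smul_smul] using (cmp_smul H h⁻¹ c1).symm) c2⟩
    rintro ⟨m, n, a, b⟩
    exact nd ⟨-m, n, by omega, by rw [← b, inv_zpow']⟩
  · exact ⟨h, .inl rfl, q, uni H rk c nd sl L q c1 c2⟩

theorem geo_nj {μ y m n : X} (e : Nest up μ (x • μ)) (cy : Cmp C y (x • y)) (l : LG C m n)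
    (ne : m ≠ n) (a1 : Uc up m μ) (a2 : Uc up n (x • μ)) : False := by
  have o1 : ¬ up m (x • μ) := fun q => ne (lg_disj H l (.inl q) a2)
  have o2 : ¬ up n μ := fun q => ne (lg_disj H l a1 (.inl q))
  have b1 : up m μ := a1.resolve_right fun q => o1 (q ▸ e.1)
  have b2 : up (x • m) μ := by
    have k : up m (x⁻¹ • μ) := by_contra fun q => e.2 (by
      simpa only [smul_inv_smul] using H.ups x _ _ ((H.sep' b1 q).2 ((H.sep' b1 o1).1 e.1)))
    simpa only [smul_inv_smul] using H.ups x _ _ k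
  have b3 : up n (x • x • μ) := by
    have k := (e.smul H x).1
    rcases a2 with a2 | a2
    · exact by_contra fun q => e.2 ((H.sep' a2 o2).2 ((H.sep' a2 q).1 k))
    · exact a2 ▸ k
  rcases fix_or_skew H l ne a1 (.inl b2) (.inl b3) (uc_smul H x a2) with k | k | k
  · exact o1 (by simpa only [k.1] using H.ups x _ _ b1)
  · exact k.not_cmp H y cy
  · exact k.not_cmp H y cy

theorem geo_nc {μ y : X} (e : Nest up μ (x • μ)) (cy : Cmp C y (x • y)) : Cmp C μ (x • μ) := by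
  by_contra nc
  rcases sep_pair H nc with ⟨m, n, l, ne, a1, a2⟩ | ⟨m, n, l, ne, a1, a2⟩
  · exact geo_nj H e cy l ne a1 a2
  · refine geo_nj H.dual (x := x⁻¹) (μ := x • μ) (y := x • y) ?_ ?_ (Om.lg_symm l) ne.symm a2 ?_
    · rwa [inv_smul_smul, geo_nest H]
    · rw [inv_smul_smul, cmp_dual]
      exact cy.symm
    · rwa [inv_smul_smul]

/-- positive elements move every point of the hull upwards -/
theorem geo_up {P : Subgroup G} {s : G → ℝ} {y z : X} (sl : Sl P s) (L : Line C P s y) {k p : G}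
    (hk : k ∈ P) (e : Hull C k y z) (hp : p ∈ P) (sp : 0 < s p) : ¬ Le C (p • z) z := fun q => by
  obtain ⟨j, a1, a2⟩ := e
  have m := P.pow_mem hk j
  obtain ⟨i, hi⟩ := exists_nat_gt (2 * s (k ^ j) / s p)
  rw [div_lt_iff₀ sp] at hi
  have b1 : Le C (p ^ i • z) z := geo_le.1 (le_pow H.dual (geo_le.2 q) i)
  have b2 := geo_line H sl L m (P.mul_mem (P.pow_mem hp i) (P.inv_mem m)) (by
    rw [sl.add _ (P.pow_mem hp i) _ (P.inv_mem m), add_inv sl.add m, geo_npow sl hp]
    linarith)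
  rw [mul_smul] at b2
  exact asc_irr H _ (asc_le H b2 (le_tr H (le_smul H _ a1) (le_tr H b1 a2)))

/-- If `μ` nests `x μ` there is no jump between them (`windA_nest`, `fix_or_skew`,
`Skew.not_cmp` at `y`), so `uni` applies to `μ`, with `h` or its inverse. -/
theorem ell_line (rk : Rk G X) (c : h * x = x * h) (nd : ¬ Dp h x) {s : G → ℝ} {y : X}
    (sl : Sl (Subgroup.closure {h, x}) s) (L : Line C (Subgroup.closure {h, x}) s y)
    (hs : s h ≠ 0) : Ell up h x := by
  have mh : h ∈ Subgroup.closure {h, x} := Subgroup.subset_closure (by simp)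
  have cy := L.cmp x (Subgroup.subset_closure (by simp))
  have key : ∀ μ : X, h • μ = μ → ¬ Cmp C μ (x • μ) := fun μ f q => by
    obtain ⟨k, a1, a2, a3⟩ := geo_uni H rk c nd sl L hs (f.symm ▸ cmp_refl μ) q
    rcases a1 with rfl | rfl
    · exact geo_up H sl L mh a3 mh a2 (.inl f)
    · exact geo_up H sl L (inv_mem mh) a3 (inv_mem mh) a2 (.inl (inv_smul_eq_iff.2 f.symm))
  refine ⟨c, fun μ f => ⟨fun n => ?_, fun n => ?_⟩⟩
  · exact key μ f (geo_nc H n cy)
  · have := geo_nc H (x := x⁻¹) (μ := x • μ) (y := x • y) (by rwa [inv_smul_smul])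
      (by rw [inv_smul_smul]; exact cy.symm)
    rw [inv_smul_smul] at this
    exact key μ f this.symm

/-- A jump between `h ^ j o` and `x o` is fixed by `h`, so it is a jump between `o` and `x o`;
a limit point is fixed by `h` and contradicts `deg`. -/
theorem hull_ell (hx : Ell up h x) {o : X} (ho : Asc C o (h • o)) (e : Cmp C o (x • o)) :
    Hull C h o (x • o) := by
  have c1 : Cmp C (x • o) (h • x • o) := by
    rw [← mul_smul, hx.1, mul_smul]
    exact cmp_smul H x (.inl (.inr ho))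
  have cm : ∀ j : ℤ, Cmp C (x • o) (h ^ j • o) := fun j => nj_cmp H fun J ⟨a, b, e1, e2, ne, a1, a2⟩ => by
    have f := (jump_fix H (H.hE_equiv.trans (H.hE_equiv.symm e1) e2) ne a1 a2 c1 (by
      rw [← mul_smul, (Commute.self_zpow h j).eq, mul_smul]
      exact cmp_smul H _ (.inl (.inr ho)))).2
    have k := geo_smul H (h ^ (-j)) (geo_pow f _) a2
    rw [zpow_neg, inv_smul_smul] at k
    exact cmp_nj H e.symm J ⟨a, b, e1, e2, ne, a1, k⟩
  by_contra n
  obtain ⟨a, a1, a2, f⟩ := geo_out H ho (fun j => ⟨by simpa using cm j, by simpa using cm (-j)⟩) n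
  exact a1 ((deg H hx e (f h rfl (geo_self H ho) c1)).2 a2)

theorem hull_gen {S : Set G} (c : ∀ g ∈ S, h * g = g * h) {o : X} (ho : Asc C o (h • o))
    (e : ∀ g ∈ S, Hull C h o (g • o) ∧ Hull C h o (g⁻¹ • o)) :
    ∀ g ∈ Subgroup.closure S, Hull C h o (g • o) := by
  have st : ∀ g : G, h * g = g * h → Hull C h o (g • o) → ∀ p, Hull C h o p → Hull C h o (g • p) := by
    rintro g c ⟨i, a1, a2⟩ p ⟨j, b1, b2⟩
    refine ⟨i + j, le_tr H ?_ (le_smul H g b1), le_tr H (le_smul H g b2) ?_⟩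
    · simpa only [geo_sw' c, pow_add, mul_inv_rev, mul_smul] using le_smul H (h ^ j)⁻¹ a1
    · simpa only [geo_sw c, add_comm i, pow_add, mul_smul] using le_smul H (h ^ j) a2
  intro g hg
  induction hg using Subgroup.closure_induction_left with
  | one => exact ⟨0, .inl (by simp), .inl (by simp)⟩
  | mul_left a ha g _ ih =>
    rw [mul_smul]
    exact st a (c a ha) (e a ha).1 _ ih
  | inv_mul_cancel a ha g _ ih =>
    rw [mul_smul]
    exact st a⁻¹ (Commute.inv_right (c a ha)).eq (e a ha).2 _ ih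

theorem geo_tot {o p q : X} (ho : Asc C o (h • o)) (a : Hull C h o p) (b : Hull C h o q) :
    Cmp C p q := by
  obtain ⟨i, a1, a2⟩ := a
  obtain ⟨j, b1, b2⟩ := b
  exact seg H (le_tr H (geo_anti H ho (Nat.le_add_right i j)) a1)
    (le_tr H a2 (geo_mono H ho (Nat.le_add_right i j)))
    (le_tr H (geo_anti H ho (Nat.le_add_left j i)) b1)
    (le_tr H b2 (geo_mono H ho (Nat.le_add_left j i)))

/-- All tori are horizontal lines and the group keeps the hull of `o`: `ord_of_action` with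
`Asc`; `uni` puts `o` in the hull of the line of every torus. -/
theorem ord_hull (rk : Rk G X) {Γ : Subgroup G} (hh : h ∈ Γ) (c : ∀ g ∈ Γ, h * g = g * h)
    (lo : ∃ t, Lin Γ t ∧ Inv Γ Γ t) {o : X} (ho : Asc C o (h • o))
    (e : ∀ g ∈ Γ, Hull C h o (g • o)) {F : Set (Subgroup G × (G → ℝ))}
    (hF : ∀ f ∈ F, ∃ x ∈ Γ, ¬ Dp h x ∧ f.1 = Subgroup.closure {h, x} ∧ Sl f.1 f.2 ∧ f.2 h ≠ 0 ∧
      ∃ y, Line C f.1 f.2 y) : ∃ r, Ord Γ F r := by
  obtain ⟨t, l, i⟩ := lo
  have sub : ∀ f ∈ F, f.1 ≤ Γ := fun f hf => by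
    obtain ⟨x, hx, -, e1, -⟩ := hF f hf
    rw [e1, Subgroup.closure_le]
    rintro _ (rfl | rfl)
    exacts [hh, hx]
  have cm : ∀ a ∈ Γ, ∀ p ∈ Γ, Cmp C (a • o) (p • a • o) := fun a ha p hp => by
    rw [← mul_smul]
    exact geo_tot H ho (e a ha) (e _ (mul_mem hp ha))
  refine ord_of_action (t := t) (Asc C) o sub (fun a _ => asc_irr H _)
    (fun _ _ _ _ _ _ => asc_trans H) (fun a ha b hb n => ?_) (fun g _ _ _ _ _ => asc_smul H g)
    (l.mono fun _ k => k.1) (fun g hg a ha b hb => i g hg.1 a ha.1 b hb.1)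
    fun f hf a ha => .inl fun p hp sp => ?_
  · exact (geo_tot H ho (e a ha) (e b hb)).imp (fun k => k.resolve_left n)
      fun k => k.resolve_left n.symm
  · have pΓ := sub f hf hp
    obtain ⟨x, hx, nd, e1, sl, hs, y, L⟩ := hF f hf
    have mh : h ∈ f.1 := e1 ▸ Subgroup.subset_closure (by simp)
    obtain ⟨k, a1, -, a3⟩ := geo_uni H rk (c x hx) nd (e1 ▸ sl) (e1 ▸ L) hs (cm a ha h hh)
      (cm a ha x hx)
    have n := geo_up H sl L (k := k) (a1.elim (fun q => q ▸ mh) fun q => q ▸ inv_mem mh) a3 hp sp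
    exact ((cm a ha p pΓ).resolve_right n).resolve_left fun q => n (.inl q.symm)

/-- The fibre does not translate a broken axis: `zigzag` for the pairs `h, g` and `h, g'`. -/
theorem zz (rk : Rk G X) {m n : X} (e : Skew C up h m n) {g g' : G} (c : h * g = g * h)
    (c' : h * g' = g' * h) : ∃ i j k : ℤ, ¬ (i = 0 ∧ j = 0) ∧ g ^ i = g' ^ j * h ^ k := by
  have one : ∀ g : G, h * g = g * h → ∃ a b : ℤ, a ≠ 0 ∧ (g ^ a * h ^ b) • m = m := fun g c => by
    have mh : h ∈ Subgroup.closure {h, g} := Subgroup.subset_closure (by simp)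
    have mg : g ∈ Subgroup.closure {h, g} := Subgroup.subset_closure (by simp)
    obtain ⟨s, add, -, k⟩ := zigzag H c mh e
    obtain ⟨⟨a, ha⟩, k1, -⟩ := k h mh
    obtain ⟨⟨b, hb⟩, -⟩ := k g mg
    refine ⟨a, -b, fun q => ?_, ((k _ (mul_mem (zpow_mem mg a) (zpow_mem mh _))).2.2.1 ?_).1⟩
    · have := k1.2 e
      rw [ha, q] at this
      simp at this
    · rw [add _ (zpow_mem mg a) _ (zpow_mem mh _), add_zpow add mg, add_zpow add mh, ha, hb]
      push_cast
      ring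
  obtain ⟨a, b, a0, f⟩ := one g c
  obtain ⟨a', b', a0', f'⟩ := one g' c'
  obtain ⟨u, v, n, q⟩ := rk m _ _ f f'
  rw [((Commute.symm c).zpow_zpow a b).mul_zpow, ((Commute.symm c').zpow_zpow a' b').mul_zpow,
    ← zpow_mul, ← zpow_mul, ← zpow_mul, ← zpow_mul] at q
  refine ⟨a * u, a' * v, b' * v - b * u, fun z => n ⟨(mul_eq_zero.1 z.1).resolve_left a0,
    (mul_eq_zero.1 z.2).resolve_left a0'⟩, ?_⟩
  rw [zpow_sub, ← mul_assoc, ← q, mul_inv_cancel_right]

/-- An element that skewers a pair fixes no point; so the kernel of a broken axis is the set of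
elements with a fixed point. -/
theorem zig_ker {P : Subgroup G} {s : G → ℝ} (sl : Sl P s) (Z : Zig C up P s) {q : G}
    (hq : q ∈ P) : s q = 0 ↔ ∃ y : X, q • y = y := by
  obtain ⟨m, n, k⟩ := Z
  refine ⟨fun e => ⟨m, ((k q hq).2.1 e).1⟩, fun ⟨y, f⟩ => by_contra fun e => ?_⟩
  rcases lt_or_gt_of_ne e with l | l
  · refine ((k q⁻¹ (inv_mem hq)).1.1 ?_).not_cmp H y ((inv_smul_eq_iff.2 f.symm).symm ▸ cmp_refl y)
    rw [add_inv sl.add hq]
    linarith
  · exact ((k q hq).1.1 l).not_cmp H y (f.symm ▸ cmp_refl y)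

end Pool.Agent.Work.MP_3d425c_gt.To.Ph
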