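import Pool.Agent.Work.MP_3d425c_gt.To.SfQf
import Pool.Agent.Work.MP_3d425c_gt.To.SfAm
import Pool.Agent.Work.MP_3d425c_gt.To.SfGeo

/-! Seifert pieces with at most one vertical torus and no broken axis are horizontal. -/

namespace Pool.Agent.Work.MP_3d425c_gt.To.Sf
open Set Subgroup Pool.Agent.Work.MP_3d425c_gt.Cy Pool.Agent.Work.MP_3d425c_gt.To.Ax
open Pool.Agent.Work.MP_3d425c_gt.Gl

variable {G X : Type*} [Group G] [MulAction G X] {C : Set (ℝ → X)} {up : X → X → Prop}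
  {V A : Subgroup G} {h : G} {n : ℕ} {c : ℕ → G} {tw : Bool} {F O : Set X}

theorem Wl.kp_ell (a : Wl up h F O A) {w : X} (hw : w ∈ F) {g : G} (hg : g ∈ A)
    (e : Ell up h F O g) {z : X} (hz : z ∈ O) : NN up A w z (g • z) = 0 := by
  rcases e with ⟨r, hr, e⟩ | ⟨m, m0, e⟩
  · rw [a.NN_base hw hg hz hr, a.NN_eqv hw e]
  · have := a.NN_pow hw hg hz m
    rw [a.NN_eqv hw (a.zp e z)] at this
    exact (mul_eq_zero.1 this.symm).resolve_left (by exact_mod_cast m0.ne')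

theorem kp_tor : Tor h h := ⟨1, one_pos, by rw [pow_one]; exact mem_zpowers h⟩

/-- all generators keep the class kept by the last boundary curve -/
theorem Seif.keep (s : Seif V h n c tw) (a : Wl up h F O V)
    (e : ∀ i ≤ n, ¬ (tw ∧ i = 0) → Ell up h F O (c i)) {z : X} (hz : z ∈ O)
    (k : Eqv up F z (c n • z)) : ∀ g ∈ V, Eqv up F z (g • z) := by
  let π : ℕ → G := fun m => (if tw then c 0 else 1) * ((List.range m).map c).prod
  have p1 : ∀ m, π (m + 1) = π m * c m := fun m => by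
    simp only [π, List.range_succ, List.map_append, List.prod_append, List.map_cons, List.map_nil,
      List.prod_cons, List.prod_nil, mul_one, mul_assoc]
  have p2 : π 1 = (if tw then c 0 else 1) * c 0 := by simp [π]
  have ev : ∀ m ≤ n, ∀ j, j + 1 ≤ m → π (j + 1) ∈ WW h c (Iio m) ∧
      ∀ z ∈ O, ∀ w ∈ F, Even (NN up (WW h c (Iio m)) w z (π (j + 1) • z)) := by
    intro m hm j
    have b := a.mono (s.WW_le_V (S := Iio m) fun i hi => lt_of_lt_of_le hi hm)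
    induction j with
    | zero =>
      intro hj
      have c0 : c 0 ∈ WW h c (Iio m) := c_mem (show 0 < m by omega)
      rw [zero_add, p2]
      split_ifs with t
      · exact ⟨mul_mem c0 c0, fun z hz w hw => ⟨_, b.NN_mul hw c0 c0 hz⟩⟩
      · rw [one_mul]
        refine ⟨c0, fun z hz w hw => ?_⟩
        rw [b.kp_ell hw c0 (e 0 (Nat.zero_le n) fun q => t q.1) hz]
        exact Even.zero
    | succ j ih =>
      intro hj
      obtain ⟨i1, i2⟩ := ih (by omega)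
      have c0 : c (j + 1) ∈ WW h c (Iio m) := c_mem (show j + 1 < m by omega)
      rw [p1]
      refine ⟨mul_mem i1 c0, fun z hz w hw => ?_⟩
      rw [b.NN_mul hw i1 c0 hz, b.kp_ell hw c0 (e _ (by omega) fun q => by omega) hz, add_zero]
      exact i2 z hz w hw
  have dn : ∀ d j, j + 1 + d = n → Eqv up F z (π (j + 1) • z) ∧
      ∀ i, j + 1 ≤ i → i < n → Eqv up F z (c i • z) := by
    intro d
    induction d with
    | zero =>
      intro j hj
      refine ⟨?_, fun i a b => by omega⟩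
      have : π (j + 1) = (c n)⁻¹ := by
        rw [← s.last, ← hj]
      rw [this]
      exact ((a.keep z).inv_mem ⟨s.c_V le_rfl, k⟩).2
    | succ d ih =>
      intro j hj
      obtain ⟨i1, i2⟩ := ih (j + 1) (by omega)
      obtain ⟨e1, e2⟩ := ev (j + 1) (by omega) j le_rfl
      have s1 : Iio (j + 1) ⊆ Iio n := fun i (hi : i < j + 1) => show i < n by omega
      have s2 : {j + 1} ⊆ Iio n := by
        rintro _ rfl
        exact show j + 1 < n by omega
      have := (a.mono (sup_le (s.WW_le_V s1) (s.WW_le_V s2))).cnt_mul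
        (s.nfa (disjoint_singleton_right.2 (lt_irrefl (j + 1))) s1 s2)
        (WW_le.2 ⟨subset_closure ⟨h_mem _, .inr kp_tor⟩, by
          rintro _ rfl
          exact subset_closure ⟨c_mem rfl, e _ (by omega) fun q => by omega⟩⟩)
        e1 (c_mem rfl) e2 hz (p1 (j + 1) ▸ i1)
      refine ⟨this.1, fun i b1 b2 => ?_⟩
      rcases b1.eq_or_lt with rfl | b1
      · exact this.2
      · exact i2 i b1 b2
  obtain ⟨d1, d2⟩ := dn (n - 1) 0 (by have := s.pos; omega)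
  have c0 := s.c_V (Nat.zero_le n)
  have d0 : Eqv up F z (c 0 • z) := by
    rw [zero_add, p2] at d1
    split_ifs at d1 with t
    · refine a.keep_two (mul_mem c0 c0) ?_ hz (a.invO _ c0 z hz) d1 ?_
      · rintro ⟨m, m0, q⟩
        have := s.twi t ((2 * m : ℕ) : ℤ) (by rwa [zpow_natCast, pow_mul, sq])
        omega
      · have := a.smul c0 d1
        rwa [← mul_smul, ← mul_assoc, mul_smul] at this
    · rwa [one_mul] at d1
  have : V ≤ a.keep z := by
    refine s.eq.le.trans <| WW_le.2 ⟨⟨s.h_V, a.zp (mem_zpowers h) z⟩, fun i (hi : i < n) => ⟨s.c_V hi.le, ?_⟩⟩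
    rcases Nat.eq_zero_or_pos i with rfl | q
    · exact d0
    · exact d2 i q hi
  exact fun g hg => (this hg).2

theorem kp_dep (inf : ¬ IsOfFinOrder h) {g : G} (k : Ph.Dp g h) : Tor h g := by
  obtain ⟨a, b, k1, k2⟩ := k
  have a0 : a ≠ 0 := by
    rintro rfl
    refine inf (isOfFinOrder_iff_zpow_eq_one.2 ⟨b, fun e => k1 ⟨rfl, e⟩, ?_⟩)
    rw [← k2, zpow_zero]
  refine ⟨a.natAbs, Int.natAbs_pos.2 a0, ?_⟩
  have : g ^ a ∈ zpowers h := k2 ▸ zpow_mem (mem_zpowers h) b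
  rcases Int.natAbs_eq a with q | q <;> rw [q] at this
  · rwa [zpow_natCast] at this
  · rwa [zpow_neg, inv_mem_iff, zpow_natCast] at this

theorem kp_eqv (H : Om G C up) {o μ : X} {x : G} (n1 : ¬ Asc C μ (x • μ)) (n2 : ¬ Asc C (x • μ) μ)
    (e : Cmp C o (x • o)) : up μ o ↔ up μ (x • o) := by
  have := Ph.geo_deg H.dual (fun k => n2 (asc_dual.1 k)) (fun k => n1 (asc_dual.1 k))
    (cmp_dual (C := C) ▸ e)
  rw [Uc, Uc, H.windA_dual, H.windA_dual] at this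
  exact not_iff_not.1 this

/-- no character survives -/
theorem Seif.kp_nh (s : Seif V h n c tw) {k : ℕ} (hk : k ≤ n) (tk : tw → k = 0) (χ : G → ℝ)
    (ad : ∀ a ∈ V, ∀ b ∈ V, χ (a * b) = χ a + χ b) (h0 : χ h = 0)
    (hc : ∀ i ≤ n, i ≠ k → ¬ Tor h (c i) → χ (c i) = 0) : ∀ g ∈ V, χ g = 0 := by
  have z1 : χ 1 = 0 := by
    have := ad 1 V.one_mem 1 V.one_mem
    rw [mul_one] at this
    linarith
  let K : Subgroup G :=
    { carrier := {g | g ∈ V ∧ χ g = 0}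
      one_mem' := ⟨V.one_mem, z1⟩
      mul_mem' := fun {a b} p q => ⟨V.mul_mem p.1 q.1, by rw [ad a p.1 b q.1, p.2, q.2, add_zero]⟩
      inv_mem' := fun {a} p => ⟨V.inv_mem p.1, by
        have := ad a p.1 a⁻¹ (V.inv_mem p.1)
        rw [mul_inv_cancel, z1, p.2] at this
        linarith⟩ }
  have pw : ∀ g ∈ V, ∀ m : ℕ, χ (g ^ m) = m * χ g := fun g hg m => by
    induction m with
    | zero => simp [z1]
    | succ m ih => rw [pow_succ, ad _ (V.pow_mem hg m) _ hg, ih]; push_cast; ring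
  have hc' : ∀ i ≤ n, i ≠ k → χ (c i) = 0 := fun i hi ne => by
    by_cases t : Tor h (c i)
    · obtain ⟨m, m0, q⟩ := t
      have := ((zpowers_le_of_mem (H := K) ⟨s.h_V, h0⟩) q).2
      rw [pw _ (s.c_V hi)] at this
      exact (mul_eq_zero.1 this).resolve_left (by exact_mod_cast m0.ne')
    · exact hc i hi ne t
  have sm : ∀ m ≤ n + 1, ((List.range m).map c).prod ∈ V ∧
      χ ((List.range m).map c).prod = ∑ i ∈ Finset.range m, χ (c i) := fun m => by
    induction m with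
    | zero => exact fun _ => ⟨by simp, by simp [z1]⟩
    | succ m ih =>
      intro hm
      obtain ⟨i1, i2⟩ := ih (by omega)
      have c0 := s.c_V (show m ≤ n by omega)
      rw [List.range_succ, List.map_append, List.prod_append, Finset.sum_range_succ]
      simp only [List.map_cons, List.map_nil, List.prod_cons, List.prod_nil, mul_one]
      exact ⟨V.mul_mem i1 c0, by rw [ad _ i1 _ c0, i2]⟩
  obtain ⟨s1, s2⟩ := sm (n + 1) le_rfl
  rw [Finset.sum_eq_single k (fun i hi ne => hc' i (by simpa [Nat.lt_succ_iff] using hi) ne)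
    (fun q => absurd (Finset.mem_range.2 (by omega)) q)] at s2
  have ck : χ (c k) = 0 := by
    have := congrArg χ s.pr
    split_ifs at this with t
    · rw [ad _ (s.c_V (Nat.zero_le n)) _ s1, s2, z1, tk t] at this
      rw [tk t]
      linarith
    · rwa [one_mul, s2, z1] at this
  have : V ≤ K := by
    rw [s.eq]
    refine WW_le.2 ⟨⟨s.h_V, h0⟩, fun i (hi : i < n) => ⟨s.c_V hi.le, ?_⟩⟩
    by_cases q : i = k
    · rw [q, ck]
    · exact hc' i hi.le q
  exact fun g hg => (this hg).2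

theorem Seif.kp_nm (s : Seif V h n c tw) : ∀ g ∈ V, g * h * g⁻¹ = h ∨ g * h * g⁻¹ = h⁻¹ := by
  intro g hg
  rw [s.gen] at hg
  induction hg using closure_induction with
  | mem x hx =>
    rcases hx with rfl | ⟨i, hi, rfl⟩
    · exact .inl (by group)
    · exact s.cj' hi
  | one => exact .inl (by group)
  | mul a b _ _ ia ib =>
    have e : a * b * h * (a * b)⁻¹ = a * (b * h * b⁻¹) * a⁻¹ := by group
    have e' : a * h⁻¹ * a⁻¹ = (a * h * a⁻¹)⁻¹ := by group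
    rcases ib with q | q <;> rw [e, q]
    · exact ia
    · rw [e']
      exact ia.symm.imp (fun r => by rw [r, inv_inv]) fun r => by rw [r]
  | inv a _ ia =>
    refine ia.imp (fun r => ?_) fun r => ?_
    · conv_lhs => rw [← r]
      group
    · have : a * h⁻¹ * a⁻¹ = h := by
        have := congrArg (·⁻¹) r
        simpa [mul_assoc] using this
      conv_lhs => rw [← this]
      group

/-- No fixed point of the fibre lies between the lines of the tori. -/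
theorem Seif.nofix (s : Seif V h n c tw) (H : Om G C up) (rk : Ph.Rk G X) (y : ℕ → X) {k : ℕ}
    (hk : k ≤ n) (tk : tw → k = 0)
    (cm : ∀ i ≤ n, ¬ (tw ∧ i = 0) → ¬ Tor h (c i) →
      Cmp C (y i) (h • y i) ∧ Cmp C (y i) (c i • y i))
    (el : ∀ i ≤ n, i ≠ k → ¬ Tor h (c i) → Ph.Ell up h (c i)) (nt : ¬ Tor h (c n)) {w : X}
    (hw : h • w = w) {a b : G} (ha : a ∈ V) (hb : b ∈ V) {i j : ℕ}
    (hi : i ≤ n ∧ ¬ (tw ∧ i = 0) ∧ ¬ Tor h (c i)) (hj : j ≤ n ∧ ¬ (tw ∧ j = 0) ∧ ¬ Tor h (c j)) :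
    ¬ QSp up (a • y i) (b • y j) w := by
  intro hq
  let I : Set ℕ := {i | i ≤ n ∧ ¬ (tw ∧ i = 0) ∧ ¬ Tor h (c i)}
  have In : n ∈ I := ⟨le_rfl, fun q => s.pos.ne' q.2, nt⟩
  have dep : ∀ (x : X) (g : G), h • x = x → g • x = x → Tor h g := fun x g k1 k2 =>
    kp_dep s.inf (rk x g h k2 k1)
  obtain ⟨x, x1, ⟨a', ha', b', hb', _, ⟨i', hi', rfl⟩, _, ⟨j', hj', rfl⟩, x2⟩, x3, x4⟩ :=
    H.qm_sub s.h_V s.kp_nm (fun x g _ => dep x g)
      (((finite_Iio n).image c).insert h) s.gen (B := y '' I)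
      (((finite_Iic n).subset fun i hi => hi.1).image y)
      (by rintro _ ⟨i, hi, rfl⟩; exact (cm i hi.1 hi.2.1 hi.2.2).1)
      (fun χ ad k0 => s.kp_nh hk tk χ ad
        (k0 h s.h_V ⟨_, ⟨n, In, rfl⟩, fun w hw => by rw [← H.ups_iff h w, hw]⟩)
        fun i hi ne t => k0 _ (s.c_V hi) ⟨_, ⟨i, ⟨hi, fun q => ne (q.2.trans (tk q.1).symm), t⟩, rfl⟩,
          fun w hw => kp_eqv H (fun q => ((el i hi ne t).2 w hw).1 (asc_nest H q))
            (fun q => ((el i hi ne t).2 w hw).2 (asc_nest H q))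
            (cm i hi (fun q => ne (q.2.trans (tk q.1).symm)) t).2⟩)
      ⟨w, hw, a, ha, b, hb, _, ⟨i, hi, rfl⟩, _, ⟨j, hj, rfl⟩, hq⟩
  let F : Set X := {w | ∃ g ∈ V, g • x = w}
  let O : Set X := {z | ∃ g ∈ V, ∃ i ∈ I, g • y i = z}
  have f1 : ∀ w ∈ F, h • w = w := by
    rintro _ ⟨g, hg, rfl⟩
    exact Om.qf_inv (s.kp_nm _ (V.inv_mem hg)) x1
  have f2 : ∀ w ∈ F, ∀ g ∈ V, ¬ Asc C w (g • w) ∧ ¬ Asc C (g • w) w := by
    have f : ∀ w ∈ F, ∀ g ∈ V, ¬ Asc C w (g • w) := by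
      rintro _ ⟨a, ha, rfl⟩ g hg q
      refine x4 (a⁻¹ * g * a) (V.mul_mem (V.mul_mem (V.inv_mem ha) hg) ha) ?_
      simpa only [mul_smul, inv_smul_smul] using asc_smul H a⁻¹ q
    exact fun w hw g hg => ⟨f w hw g hg, fun q => f w hw g⁻¹ (V.inv_mem hg)
      (by simpa only [inv_smul_smul] using asc_smul H g⁻¹ q)⟩
  have W : Wl up h F O V := by
    refine ⟨H.ups_iff, f1, ?_, ?_, ?_, fun g _ w hw q => dep w g (f1 w hw) q⟩
    · rintro g hg _ ⟨a, ha, rfl⟩
      exact ⟨g * a, V.mul_mem hg ha, mul_smul _ _ _⟩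
    · rintro g hg _ ⟨a, ha, i, hi, rfl⟩
      exact ⟨g * a, V.mul_mem hg ha, i, hi, mul_smul _ _ _⟩
    · rintro _ ⟨g, hg, rfl⟩ _ ⟨a, ha, i, hi, rfl⟩ _ ⟨b, hb, j, hj, rfl⟩
      refine ((x3 a ha b hb _ (.inr ⟨i, hi, rfl⟩) _ (.inr ⟨j, hj, rfl⟩)).union
        (x3 b hb a ha _ (.inr ⟨j, hj, rfl⟩) _ (.inr ⟨i, hi, rfl⟩))).subset ?_
      rintro _ ⟨⟨g', hg', rfl⟩, q⟩
      have m : ∃ r ∈ V, r • x = g' • g • x := ⟨g' * g, V.mul_mem hg' hg, mul_smul _ _ _⟩
      by_cases u : up (g' • g • x) (a • y i)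
      · exact .inr ⟨m, .inl u, fun u' => q (iff_of_true u u')⟩
      · exact .inl ⟨m, .inl (by_contra fun u' => q (iff_of_false u u')), u⟩
  have o1 : ∀ i ∈ I, y i ∈ O := fun i hi => ⟨1, V.one_mem, i, hi, one_smul _ _⟩
  have e1 : ∀ i ∈ I, Eqv up F (y i) (c i • y i) := fun i hi w hw =>
    kp_eqv H (f2 w hw _ (s.c_V hi.1)).1 (f2 w hw _ (s.c_V hi.1)).2 (cm i hi.1 hi.2.1 hi.2.2).2
  have kp := s.keep W (fun i hi t => by
    by_cases q : Tor h (c i)
    · exact .inr q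
    · exact .inl ⟨_, o1 i ⟨hi, t, q⟩, e1 i ⟨hi, t, q⟩⟩) (o1 n In) (e1 n In)
  have e2 : ∀ g ∈ V, ∀ i ∈ I, Eqv up F (y n) (g • y i) := fun g hg i hi =>
    (kp g hg).trans (W.smul hg (W.keep_two (s.c_V hi.1) hi.2.2 (o1 n In) (o1 i hi)
      (kp _ (s.c_V hi.1)) (e1 i hi)))
  have xF : x ∈ F := ⟨1, V.one_mem, one_smul _ _⟩
  rcases x2.1 with q | q
  · exact x2.2 ((e2 a' ha' i' hi' x xF).1 ((e2 b' hb' j' hj' x xF).2 q))
  · have yF : y j' ∈ F := ⟨b'⁻¹, V.inv_mem hb', by rw [← q, inv_smul_smul]⟩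
    obtain ⟨n1, n2⟩ := f2 _ yF _ (s.c_V hj'.1)
    refine hj'.2.2 (dep _ _ (f1 _ yF) ?_)
    rcases (cm j' hj'.1 hj'.2.1 hj'.2.2).2 with (r | r) | r | r
    exacts [r.symm, absurd r n1, r, absurd r n2]

/-- the last curve is a boundary curve -/
theorem Seif.kp_last (s : Seif V h n c tw) (nd : ∀ i < n, c i ∉ zpowers h) {j : ℕ}
    (b : j ≤ n ∧ ¬ (tw ∧ j = 0) ∧ ¬ Tor h (c j)) : ¬ Tor h (c n) := by
  let π : ℕ → G := fun m => (if tw then c 0 else 1) * ((List.range m).map c).prod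
  have p1 : ∀ m, π (m + 1) = π m * c m := fun m => by
    simp only [π, List.range_succ, List.map_append, List.prod_append, List.map_cons, List.map_nil,
      List.prod_cons, List.prod_nil, mul_one, mul_assoc]
  have p2 : π 1 = (if tw then c 0 else 1) * c 0 := by simp [π]
  have t0 : ¬ Tor h (c 0 * c 0) ∨ ¬ tw := or_iff_not_imp_right.2 fun t ⟨m, m0, q⟩ => by
    have := s.twi (not_not.1 t) ((2 * m : ℕ) : ℤ) (by rwa [zpow_natCast, pow_mul, sq])
    omega
  have k : ∀ m, m + 1 ≤ n → π (m + 1) ∈ WW h c (Iio (m + 1)) ∧ π (m + 1) ∉ zpowers h ∧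
      (0 < m → ¬ Tor h (π (m + 1))) := by
    intro m
    induction m with
    | zero =>
      intro hm
      have c0 : c 0 ∈ WW h c (Iio (0 + 1)) := c_mem (show 0 < 0 + 1 by omega)
      rw [show π (0 + 1) = _ from p2]
      split_ifs with t
      · exact ⟨mul_mem c0 c0, fun q => t0.elim (fun e => e ⟨1, one_pos, by rwa [pow_one]⟩)
          fun e => e t, fun q => absurd q (lt_irrefl 0)⟩
      · rw [one_mul]
        exact ⟨c0, nd 0 s.pos, fun q => absurd q (lt_irrefl 0)⟩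
    | succ m ih =>
      intro hm
      obtain ⟨i1, i2, -⟩ := ih (by omega)
      have s1 : Iio (m + 1) ⊆ Iio n := fun i (hi : i < m + 1) => show i < n by omega
      have s2 : {m + 1} ⊆ Iio n := by
        rintro _ rfl
        exact show m + 1 < n by omega
      have nf := s.nfa (S' := Iio (m + 1)) (disjoint_singleton_left.2 (lt_irrefl (m + 1))) s2 s1
      have a := Alt.one (A := WW h c {m + 1}) (H := zpowers h) _ _ (c_mem rfl)
        (nd _ (by omega)) i1 i2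
      rw [p1]
      exact ⟨mul_mem (WW_mono (fun i (hi : i < m + 1) => show i < m + 1 + 1 by omega) i1)
        (c_mem (show m + 1 < m + 1 + 1 by omega)), nf _ a, fun _ => a.not_tor nf⟩
  obtain ⟨m, rfl⟩ := Nat.exists_eq_succ_of_ne_zero s.pos.ne'
  rintro ⟨p, p0, q⟩
  have e : Tor h (π (m + 1)) := ⟨p, p0, by
    rw [show π (m + 1) = _ from s.last, inv_pow]
    exact inv_mem q⟩
  rcases Nat.eq_zero_or_pos m with rfl | m0
  · rw [show π (0 + 1) = _ from p2] at e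
    split_ifs at e with t
    · exact t0.elim (fun a => a e) fun a => a t
    · rw [one_mul] at e
      obtain ⟨b1, -, b3⟩ := b
      rcases b1.eq_or_lt with rfl | b1
      · exact b3 ⟨p, p0, q⟩
      · obtain rfl : j = 0 := by omega
        exact b3 e
  · exact (k m le_rfl).2.2 m0 e

/-- points that are not separated by fixed points lie in one hull -/
theorem kp_hull (H : Om G C up) (hO : ∀ z ∈ O, h • z ∈ O ∧ h⁻¹ • z ∈ O)
    (cO : ∀ z ∈ O, Cmp C z (h • z))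
    (nf : ∀ w : X, h • w = w → ∀ p ∈ O, ∀ q ∈ O, ¬ QSp up p q w) {o p : X} (ho : o ∈ O)
    (hp : p ∈ O) (a : Asc C o (h • o)) : Ph.Hull C h o p := by
  have nh : ∀ p ∈ O, ∀ q ∈ O, ∀ b : X × Bool, h • b.1 = b.1 → hm up b p → hm up b q := by
    rintro p hp q hq ⟨b, _ | _⟩ e k
    · exact fun u => nf b e p hp q hq ⟨.inl u, k⟩
    · by_contra u
      refine nf b e q hq p hp ⟨Ph.geo_t.1 k, fun v => u (Ph.geo_t.2 (.inl v))⟩
  have cm : ∀ p ∈ O, ∀ q ∈ O, Cmp C p q := fun p hp q hq => Ph.nj_cmp H fun j => by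
    rintro ⟨a, b, e1, e2, ne, k1, k2⟩
    have e := H.hE_equiv.trans (H.hE_equiv.symm e1) e2
    exact ne (H.hm_unique e (nh p hp q hq a
      (Ph.jump_fix H e ne k1 k2 (cO p hp) (cO q hq)).1 k1) k2)
  have pw : ∀ j : ℕ, h ^ j • o ∈ O ∧ (h ^ j)⁻¹ • o ∈ O := fun j => by
    induction j with
    | zero => simpa using ho
    | succ j ih =>
      constructor
      · rw [pow_succ', mul_smul]
        exact (hO _ ih.1).1
      · rw [pow_succ, mul_inv_rev, mul_smul]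
        exact (hO _ ih.2).2
  by_contra k
  obtain ⟨b, b1, b2, b3⟩ := Ph.geo_out H a (fun j => ⟨cm _ hp _ (pw j).1, cm _ hp _ (pw j).2⟩) k
  exact b1 (nh p hp o ho b (b3 h rfl (Ph.geo_self H a) (cO p hp)) b2)

theorem kp_nd (inf : ¬ IsOfFinOrder h) {g : G} (k : ¬ Tor h g) : ¬ Ph.Dp h g :=
  fun ⟨a, b, k1, k2⟩ => k (kp_dep inf ⟨b, a, fun e => k1 e.symm, k2.symm⟩)

/-- All tori are lines and at most one is not known to be horizontal: the piece is horizontal. -/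
theorem Seif.ord_line (s : Seif V h n c tw) (H : Om G C up) (rk : Ph.Rk G X)
    (lo : ∃ t, Lin V t ∧ Inv V V t) (σ : ℕ → G → ℝ) (y : ℕ → X) {k : ℕ} (hk : k ≤ n)
    (tk : tw → k = 0)
    (hl : ∀ i ≤ n, ¬ (tw ∧ i = 0) → ¬ Tor h (c i) → Sl (closure {h, c i}) (σ i) ∧
      Ph.Line C (closure {h, c i}) (σ i) (y i) ∧ ∃ p ∈ closure {h, c i}, 0 < σ i p)
    (hz : ∀ i ≤ n, i ≠ k → ¬ Tor h (c i) → σ i h ≠ 0) (nt : ¬ Tor h (c n)) :
    ∃ r, Ord V {f | ∃ i ≤ n, ¬ (tw ∧ i = 0) ∧ ¬ Tor h (c i) ∧ f = (closure {h, c i}, σ i)} r := by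
  have m1 : ∀ i, h ∈ closure {h, c i} := fun i => subset_closure (by simp)
  have m2 : ∀ i, c i ∈ closure {h, c i} := fun i => subset_closure (by simp)
  have cm : ∀ i ≤ n, ¬ (tw ∧ i = 0) → ¬ Tor h (c i) →
      Cmp C (y i) (h • y i) ∧ Cmp C (y i) (c i • y i) := fun i hi t q =>
    ⟨(hl i hi t q).2.1.cmp _ (m1 i), (hl i hi t q).2.1.cmp _ (m2 i)⟩
  have nf0 := fun w hw a b ha hb i j => s.nofix H rk y hk tk cm (fun i hi ne q =>
    have t : ¬ (tw ∧ i = 0) := fun r => ne (r.2.trans (tk r.1).symm)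
    Ph.ell_line H rk (s.comm hi t).symm (kp_nd s.inf q) (hl i hi t q).1 (hl i hi t q).2.1
      (hz i hi ne q)) nt (w := w) hw (a := a) (b := b) ha hb (i := i) (j := j)
  let O : Set X := {z | ∃ g ∈ V, ∃ i, (i ≤ n ∧ ¬ (tw ∧ i = 0) ∧ ¬ Tor h (c i)) ∧ g • y i = z}
  have nf : ∀ w : X, h • w = w → ∀ p ∈ O, ∀ q ∈ O, ¬ QSp up p q w := by
    rintro w hw _ ⟨a, ha, i, hi, rfl⟩ _ ⟨b, hb, j, hj, rfl⟩
    exact nf0 w hw a b ha hb i j hi hj
  have iO : ∀ g ∈ V, ∀ z ∈ O, g • z ∈ O := by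
    rintro g hg _ ⟨a, ha, i, hi, rfl⟩
    exact ⟨g * a, V.mul_mem hg ha, i, hi, mul_smul _ _ _⟩
  have cO : ∀ z ∈ O, Cmp C z (h • z) := by
    rintro _ ⟨a, ha, i, hi, rfl⟩
    exact H.qf_cmp (s.kp_nm _ (V.inv_mem ha)) (cm i hi.1 hi.2.1 hi.2.2).1
  have o1 : ∀ i ≤ n, ¬ (tw ∧ i = 0) → ¬ Tor h (c i) → y i ∈ O := fun i a b d =>
    ⟨1, V.one_mem, i, ⟨a, b, d⟩, one_smul _ _⟩
  have dir : ∀ o ∈ O, ∃ f, (f = h ∨ f = h⁻¹) ∧ Asc C o (f • o) ∧ ∀ p ∈ O, Ph.Hull C f o p := by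
    intro o ho
    have ne : h • o ≠ o := fun e => nf o e o ho o ho ⟨.inr rfl, H.irr o⟩
    have hO : ∀ z ∈ O, h • z ∈ O ∧ h⁻¹ • z ∈ O := fun z hz =>
      ⟨iO _ s.h_V z hz, iO _ (V.inv_mem s.h_V) z hz⟩
    rcases cO o ho with (r | r) | r | r
    · exact absurd r.symm ne
    · exact ⟨h, .inl rfl, r, fun p hp => kp_hull H hO cO nf ho hp r⟩
    · exact absurd r ne
    · have r' : Asc C o (h⁻¹ • o) := by simpa only [inv_smul_smul] using asc_smul H h⁻¹ r
      refine ⟨h⁻¹, .inr rfl, r', fun p hp => kp_hull H (fun z hz => ?_) (fun z hz => ?_)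
        (fun w hw => nf w (inv_smul_eq_iff.1 hw).symm) ho hp r'⟩
      · rw [inv_inv]
        exact (hO z hz).symm
      · simpa only [inv_smul_smul] using (cmp_smul H h⁻¹ (cO z hz)).symm
  have hz' : ∀ i ≤ n, ¬ (tw ∧ i = 0) → ¬ Tor h (c i) → σ i h ≠ 0 := by
    intro i hi t q e
    obtain ⟨sl, L, p, p1, p2⟩ := hl i hi t q
    obtain ⟨f, f1, -, f3⟩ := dir _ (o1 i hi t q)
    have f4 : f ∈ closure {h, c i} ∧ σ i f = 0 := by
      rcases f1 with rfl | rfl
      · exact ⟨m1 i, e⟩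
      · exact ⟨inv_mem (m1 i), by rw [sl.inv (m1 i), e, neg_zero]⟩
    obtain ⟨j, -, b⟩ := f3 _ (iO p (s.A_le hi ((WW_one (h := h) (c := c) i).ge p1)) _ (o1 i hi t q))
    exact asc_irr H _ (asc_le H (Ph.geo_line H sl L (pow_mem f4.1 j) p1
      (by rw [Ph.geo_npow sl f4.1, f4.2, mul_zero]; exact p2)) b)
  have on := o1 n le_rfl (fun q => s.pos.ne' q.2) nt
  obtain ⟨f, f1, f2, f3⟩ := dir _ on
  have cf : ∀ g ∈ V, f * g = g * f := by
    intro g hg
    have e : g * f * g⁻¹ = f ∨ g * f * g⁻¹ = f⁻¹ := by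
      rcases f1 with rfl | rfl
      · exact s.kp_nm g hg
      · have e' : g * h⁻¹ * g⁻¹ = (g * h * g⁻¹)⁻¹ := by group
        rw [e']
        exact (s.kp_nm g hg).imp (fun r => by rw [r]) fun r => by rw [r]
    rcases e with e | e
    · exact (mul_inv_eq_iff_eq_mul.1 e).symm
    · exfalso
      obtain ⟨j, b1, b2⟩ := f3 _ (iO g hg _ on)
      have b3 : Ax.Le C (g • y n) (f⁻¹ • g • y n) := by
        rw [← e, mul_smul, mul_smul, inv_smul_smul]
        exact .inr (asc_smul H g f2)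
      have b4 := le_smul H (f ^ (j + 1 + j)) (le_pow H b3 (j + 1 + j))
      rw [inv_pow, smul_inv_smul] at b4
      have b5 := le_smul H (f ^ (j + 1 + j)) b1
      rw [← mul_smul, pow_add, mul_inv_cancel_right, ← pow_add] at b5
      exact asc_irr H _ (asc_le H (Ph.geo_asc H f2 j) (le_tr H b5 (le_tr H b4 b2)))
  refine Ph.ord_hull H rk (h := f) ?_ cf lo f2 (fun g hg => f3 _ (iO g hg _ on)) ?_
  · rcases f1 with rfl | rfl
    exacts [s.h_V, V.inv_mem s.h_V]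
  · rintro _ ⟨i, hi, t, q, rfl⟩
    obtain ⟨sl, L, -⟩ := hl i hi t q
    rcases f1 with rfl | rfl
    · exact ⟨c i, s.c_V hi, kp_nd s.inf q, rfl, sl, hz' i hi t q, _, L⟩
    · refine ⟨c i, s.c_V hi, fun ⟨a, b, k1, k2⟩ => kp_nd s.inf q
        ⟨-a, b, fun e => k1 ⟨neg_eq_zero.1 e.1, e.2⟩, by rw [← k2, inv_zpow']⟩, ?_, sl, ?_, _, L⟩
      · refine le_antisymm ((closure_le _).2 (insert_subset_iff.2 ⟨?_, ?_⟩))
          ((closure_le _).2 (insert_subset_iff.2 ⟨inv_mem (m1 i), ?_⟩))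
        · exact (inv_mem_iff (x := h)).1 (subset_closure (by simp))
        · exact singleton_subset_iff.2 (subset_closure (by simp))
        · exact singleton_subset_iff.2 (m2 i)
      · show σ i h⁻¹ ≠ 0
        rw [sl.inv (m1 i)]
        exact neg_ne_zero.2 (hz' i hi t q)

end Pool.Agent.Work.MP_3d425c_gt.To.Sf
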