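import Pool.Agent.Work.MP_3d425c_gt.Gl.Mk
import Pool.Agent.Work.MP_3d425c_gt.To.SfDefs
import Pool.Agent.Work.MP_3d425c_gt.To.SfAm
import Pool.Agent.Work.MP_3d425c_gt.To.SfKp
import Pool.Agent.Work.MP_3d425c_gt.To.AxC

-- merged part: Pool.Agent.Work.MP_3d425c_gt.To.SfTor
section
/-! Amalgams of a family of subgroups over a common subgroup: torsion modulo the common subgroup
and left orders. -/

namespace Pool.Agent.Work.MP_3d425c_gt.To.Tor
open Set Pool.Agent.Work.MP_3d425c_gt.Gl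

variable {G ι : Type*} [Group G]

/-- reduced words, with the factor of the first letter -/
inductive Rw (H : Subgroup G) (A : ι → Subgroup G) : Option ι → G → Prop
  | nil (c : G) : c ∈ H → Rw H A none c
  | cons (i : ι) (o : Option ι) (g a : G) :
      Rw H A o g → o ≠ some i → a ∈ A i → a ∉ H → Rw H A (some i) (a * g)

/-- the subgroups `A i` generate their amalgam over `H` -/
structure Nf (H : Subgroup G) (A : ι → Subgroup G) : Prop where
  le : ∀ i, H ≤ A i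
  nf : ∀ i g, Rw H A (some i) g → g ∉ H

/-- nonempty reduced words, with the length and the factors of the first and the last letter -/
inductive Tw (H : Subgroup G) (A : ι → Subgroup G) : ℕ → ι → ι → G → Prop
  | one (i : ι) (a : G) : a ∈ A i → a ∉ H → Tw H A 0 i i a
  | cons (n : ℕ) (i j k : ι) (a g : G) :
      a ∈ A i → a ∉ H → i ≠ j → Tw H A n j k g → Tw H A (n + 1) i k (a * g)

variable {H : Subgroup G} {A : ι → Subgroup G} {n : ℕ} {i k : ι} {w : G}

theorem Tw.map {κ : Type*} {f : κ → ι} (hf : Function.Injective f) {i k : κ}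
    (t : Tw H (fun j => A (f j)) n i k w) : Tw H A n (f i) (f k) w := by
  induction t with
  | one i a m m' => exact .one _ a m m'
  | cons n i j k a g m m' d _ ih => exact .cons n _ _ _ a g m m' (hf.ne d) ih

theorem Tw.app (t : Tw H A n i k w) {o : Option ι} {g : G} (r : Rw H A o g) (d : o ≠ some k) :
    Rw H A (some i) (w * g) := by
  induction t with
  | one i a m m' => exact .cons i o g a r d m m'
  | cons n i j k a g' m m' d' _ ih =>
    rw [mul_assoc]
    exact .cons i _ _ a (ih d) (fun e => d' (Option.some.inj e).symm) m m'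

theorem Tw.left (le : ∀ i, H ≤ A i) (t : Tw H A n i k w) {c : G} (hc : c ∈ H) :
    Tw H A n i k (c * w) := by
  cases t with
  | one _ _ m m' =>
    exact .one _ _ (mul_mem (le _ hc) m) fun e => m' ((H.mul_mem_cancel_left hc).1 e)
  | cons n _ j _ a g m m' d t =>
    rw [← mul_assoc]
    exact .cons n _ j _ _ g (mul_mem (le _ hc) m) (fun e => m' ((H.mul_mem_cancel_left hc).1 e)) d t

theorem Tw.step (le : ∀ i, H ≤ A i) {g a : G} {l : ι} (ha : a ∈ A l)
    (t : g ∈ H ∨ ∃ n i k, Tw H A n i k g) : a * g ∈ H ∨ ∃ n i k, Tw H A n i k (a * g) := by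
  have base : ∀ b ∈ A l, b ∈ H ∨ ∃ n i k, Tw H A n i k b := fun b hb =>
    (em _).imp_right fun m => ⟨0, l, l, .one l b hb m⟩
  rcases t with t | ⟨n, i, k, t⟩
  · exact base _ (mul_mem ha (le l t))
  by_cases m : a ∈ H
  · exact .inr ⟨n, i, k, t.left le m⟩
  by_cases e : l = i
  swap
  · exact .inr ⟨_, l, k, .cons n l i k a g ha m e t⟩
  subst e
  cases t with
  | one _ _ m1 _ => exact base _ (mul_mem ha m1)
  | cons n _ j _ b g m1 _ d t =>
    rw [← mul_assoc]
    by_cases m2 : a * b ∈ H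
    · exact .inr ⟨n, j, k, t.left le m2⟩
    · exact .inr ⟨_, l, k, .cons n l j k _ g (mul_mem ha m1) m2 d t⟩

theorem Tw.ex (le : ∀ i, H ≤ A i) {g : G} (hg : g ∈ H ⊔ ⨆ i, A i) :
    g ∈ H ∨ ∃ n i k, Tw H A n i k g := by
  have st : ∀ a ∈ (H : Set G) ∪ ⋃ i, (A i : Set G), ∀ g, (g ∈ H ∨ ∃ n i k, Tw H A n i k g) →
      (a * g ∈ H ∨ ∃ n i k, Tw H A n i k (a * g)) ∧
        (a⁻¹ * g ∈ H ∨ ∃ n i k, Tw H A n i k (a⁻¹ * g)) := by
    rintro a (ha | ha) g t
    · exact ⟨t.imp (mul_mem ha) fun ⟨n, i, k, t⟩ => ⟨n, i, k, t.left le ha⟩,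
        t.imp (mul_mem (inv_mem ha)) fun ⟨n, i, k, t⟩ => ⟨n, i, k, t.left le (inv_mem ha)⟩⟩
    · obtain ⟨l, ha⟩ := mem_iUnion.1 ha
      exact ⟨Tw.step le ha t, Tw.step le (inv_mem ha) t⟩
  have hg' : g ∈ Subgroup.closure ((H : Set G) ∪ ⋃ i, (A i : Set G)) := by
    rw [Subgroup.closure_union, Subgroup.closure_eq, ← Subgroup.iSup_eq_closure]
    exact hg
  clear hg
  induction hg' using Subgroup.closure_induction_left with
  | one => exact .inl H.one_mem
  | mul_left h hh g _ a => exact (st h hh g a).1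
  | inv_mul_cancel h hh g _ a => exact (st h hh g a).2

theorem Tw.right (le : ∀ i, H ≤ A i) (t : Tw H A n i k w) {a : G} (ha : a ∈ A k) :
    w * a ∈ H ∨ ∃ m ≤ n, ∃ k', Tw H A m i k' (w * a) := by
  induction t with
  | one i b m _ => exact (em _).imp_right fun m' => ⟨0, le_rfl, i, .one i _ (mul_mem m ha) m'⟩
  | cons n i j k b g m m' d _ ih =>
    rw [mul_assoc]
    rcases ih ha with c | ⟨l, hl, k', t⟩
    · exact .inr ⟨0, n.succ.zero_le, i, .one i _ (mul_mem m (le i c)) fun e =>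
        m' ((H.mul_mem_cancel_right c).1 e)⟩
    · exact .inr ⟨l + 1, Nat.succ_le_succ hl, k', .cons l i j k' b _ m m' d t⟩

theorem Tw.pow (t : Tw H A n i k w) (d : i ≠ k) (N : ℕ) : Rw H A (some i) (w ^ (N + 1)) := by
  induction N with
  | zero => simpa using t.app (.nil 1 H.one_mem) (by simp)
  | succ N ih =>
    rw [pow_succ']
    exact t.app ih fun e => d (Option.some.inj e)

theorem Tw.tor (h : Nf H A) (nm : ∀ i, ∀ a ∈ A i, ∀ c ∈ H, a * c * a⁻¹ ∈ H) {N : ℕ} (n : ℕ) :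
    ∀ {i k w}, Tw H A n i k w → w ^ (N + 1) ∈ H →
      ∃ c ∈ ⨆ i, A i, ∃ j, c * w * c⁻¹ ∈ A j := by
  induction n using Nat.strong_induction_on with
  | _ n ih =>
    intro i k w t hw
    by_cases d : i = k
    swap
    · exact absurd hw (h.nf i _ (t.pow d N))
    subst d
    cases t with
    | one _ _ m _ => exact ⟨1, one_mem _, i, by simpa using m⟩
    | cons n _ j _ a g m _ _ t =>
      have ma : a⁻¹ ∈ ⨆ i, A i := Subgroup.mem_iSup_of_mem i (inv_mem m)
      have e : g * a = a⁻¹ * (a * g) * a⁻¹⁻¹ := by group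
      rcases t.right h.le m with c | ⟨l, hl, k', t'⟩
      · exact ⟨a⁻¹, ma, i, e ▸ h.le i c⟩
      · obtain ⟨c, hc, j', r⟩ := ih l (Nat.lt_succ_of_le hl) t' (by
          rw [e, conj_pow]
          exact nm i _ (inv_mem m) _ hw)
        refine ⟨c * a⁻¹, mul_mem hc ma, j', ?_⟩
        rw [show c * a⁻¹ * (a * g) * (c * a⁻¹)⁻¹ = c * (g * a) * c⁻¹ by group]
        exact r

/-- TOR: an element with a power in the normal subgroup `H` is conjugate into a factor -/
theorem Nf.tor (h : Nf H A) (nm : ∀ i, ∀ a ∈ A i, ∀ c ∈ H, a * c * a⁻¹ ∈ H) {g : G}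
    (hg : g ∈ ⨆ i, A i) {N : ℤ} (hN : N ≠ 0) (p : g ^ N ∈ H) :
    g ∈ H ∨ ∃ c ∈ ⨆ i, A i, ∃ j, c * g * c⁻¹ ∈ A j := by
  refine (Tw.ex h.le (Subgroup.mem_sup_right hg)).imp_right fun ⟨n, i, k, t⟩ => ?_
  refine t.tor h nm (N := N.natAbs - 1) n ?_
  rw [Nat.sub_add_cancel (Int.natAbs_pos.2 hN), ← zpow_natCast]
  rcases Int.natAbs_eq N with e | e
  · exact e ▸ p
  · rw [e, zpow_neg] at p
    exact H.inv_mem_iff.1 p

theorem Nf.comp (h : Nf H A) {κ : Type*} {f : κ → ι} (hf : Function.Injective f) :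
    Nf H fun j => A (f j) := by
  refine ⟨fun j => h.le _, fun j g r => h.nf (f j) g ?_⟩
  suffices ∀ o g, Rw H (fun j => A (f j)) o g → Rw H A (o.map f) g from this _ _ r
  intro o g r
  induction r with
  | nil c hc => exact .nil c hc
  | cons i o g a _ d m m' ih =>
    exact .cons _ _ g a ih (fun e => d (Option.map_injective hf e)) m m'

/-- splitting off one factor -/
theorem Nf.two (h : Nf H A) {S : Set ι} {j : ι} (hj : j ∉ S) (b : Bool) (g : G)
    (r : Rd (fun b => bif b then H ⊔ ⨆ i : S, A i else A j) H (some b) g) : g ∉ H := by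
  classical
  suffices ∀ o g, Rd (fun b => bif b then H ⊔ ⨆ i : S, A i else A j) H o g →
      ∃ o', Rw H A o' g ∧ o'.map (fun i => decide (i ≠ j)) = o by
    obtain ⟨_ | i, r, e⟩ := this _ _ r
    · cases e
    · exact h.nf i g r
  intro o g r
  induction r with
  | nil c hc => exact ⟨none, .nil c hc, rfl⟩
  | cons b o g a _ d m m' ih =>
    obtain ⟨o', r, rfl⟩ := ih
    cases b with
    | false => exact ⟨some j, .cons j o' g a r (fun e => d (by simp [e])) m m', by simp⟩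
    | true =>
      obtain ⟨n, i, k, t⟩ := (Tw.ex (A := fun i : S => A i) (fun i => h.le i) m).resolve_left m'
      have ne : ∀ i : S, (i : ι) ≠ j := fun i e => hj (e ▸ i.2)
      exact ⟨some i, (t.map Subtype.val_injective).app r fun e => d (by simp [e, ne]),
        by simp [ne]⟩

theorem Nf.lo_fin (h : Nf H A) {α : G} (hα : α ∈ H) (cy : ∀ c ∈ H, ∃ n : ℤ, c = α ^ n)
    (o0 : ∃ t, Lin H t ∧ Inv H H t) (ord : ∀ i, ∃ t, Lin (A i) t ∧ Inv (A i) (A i) t)
    (S : Finset ι) : ∃ t, Lin (H ⊔ ⨆ i : (S : Set ι), A i : Subgroup G) t ∧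
      Inv (H ⊔ ⨆ i : (S : Set ι), A i) (H ⊔ ⨆ i : (S : Set ι), A i : Subgroup G) t := by
  classical
  induction S using Finset.induction_on with
  | empty => simpa using o0
  | insert j S hj ih =>
    have sl : Sl H 0 := ⟨fun p hp q hq => by
      obtain ⟨i, rfl⟩ := cy p hp
      obtain ⟨j, rfl⟩ := cy q hq
      exact zpow_mul_comm _ _ _, fun _ _ _ _ => by simp⟩
    have le : ∀ b, H ≤ bif b then H ⊔ ⨆ i : (S : Set ι), A i else A j := fun b => by
      cases b
      exacts [h.le j, le_sup_left]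
    obtain ⟨r, l, i, -⟩ := glue (F := fun _ => {(H, 0)}) (s := 0)
      (amal_of_nf le (h.two (S := (S : Set ι)) hj))
      (fun b f hf => by cases hf; exact ⟨le b, sl⟩) (fun _ => rfl) hα rfl (fun c hc _ => cy c hc)
      fun b => by
        have : ∃ t, Lin (bif b then H ⊔ ⨆ i : (S : Set ι), A i else A j : Subgroup G) t ∧
            Inv (bif b then H ⊔ ⨆ i : (S : Set ι), A i else A j)
              (bif b then H ⊔ ⨆ i : (S : Set ι), A i else A j : Subgroup G) t := by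
          cases b
          exacts [ord j, ih]
        obtain ⟨t, l, i⟩ := this
        exact ⟨t, l, i, fun f hf x _ p _ q _ sp => by cases hf; exact absurd sp (lt_irrefl _)⟩
    have e : (H ⊔ ⨆ i : ((insert j S : Finset ι) : Set ι), A i) ≤
        (H ⊔ ⨆ i : (S : Set ι), A i) ⊔ A j := by
      refine sup_le (le_sup_left.trans le_sup_left) (iSup_le fun ⟨i, hi⟩ => ?_)
      rcases Finset.mem_insert.1 hi with rfl | hi
      · exact le_sup_right
      · exact ((le_iSup (fun i : (S : Set ι) => A i) ⟨i, hi⟩).trans le_sup_right).trans le_sup_left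
    exact ⟨r, l.mono e, i.mono e e⟩

/-- LO: an amalgam of finitely many left ordered groups over a cyclic subgroup is left ordered -/
theorem Nf.lo [Finite ι] (h : Nf H A) {α : G} (hα : α ∈ H) (cy : ∀ c ∈ H, ∃ n : ℤ, c = α ^ n)
    (o0 : ∃ t, Lin H t ∧ Inv H H t) (ord : ∀ i, ∃ t, Lin (A i) t ∧ Inv (A i) (A i) t)
    {V : Subgroup G} (hV : V ≤ H ⊔ ⨆ i, A i) : ∃ t, Lin V t ∧ Inv V V t := by
  have := Fintype.ofFinite ι
  obtain ⟨t, l, i⟩ := h.lo_fin hα cy o0 ord Finset.univ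
  have e : V ≤ H ⊔ ⨆ i : ((Finset.univ : Finset ι) : Set ι), A i :=
    hV.trans (sup_le_sup_left (iSup_le fun i =>
      le_iSup (fun i : ((Finset.univ : Finset ι) : Set ι) => A i) ⟨i, by simp⟩) _)
  exact ⟨t, l.mono e, i.mono e e⟩

open Subgroup

theorem lin_zp (tf : ∀ a : G, a ≠ 1 → ¬ IsOfFinOrder a) (h : G) :
    ∃ t, Lin (zpowers h) t ∧ Inv (zpowers h) (zpowers h) t :=
  lin_of_cyclic (α := h) ((em _).imp_right (tf h)) fun _ ⟨n, e⟩ => ⟨n, e.symm⟩

theorem conj_zp {h c : G} (hc : c * h * c⁻¹ = h ∨ c * h * c⁻¹ = h⁻¹) (i : ℤ) {x : G}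
    (hx : x ∈ zpowers h) : c ^ i * x * (c ^ i)⁻¹ ∈ zpowers h := by
  have a1 : ∀ x ∈ zpowers h, c * x * c⁻¹ ∈ zpowers h := by
    rintro _ ⟨n, rfl⟩
    show c * h ^ n * c⁻¹ ∈ _
    rw [← conj_zpow]
    rcases hc with e | e <;> rw [e]
    · exact zpow_mem_zpowers h n
    · exact zpow_mem (inv_mem (mem_zpowers h)) n
  have a2 : ∀ x ∈ zpowers h, c⁻¹ * x * c ∈ zpowers h := by
    rintro _ ⟨n, rfl⟩
    show c⁻¹ * h ^ n * c ∈ _
    rw [show c⁻¹ * h ^ n * c = (c⁻¹ * h * c) ^ n by simpa using (conj_zpow (a := c⁻¹)).symm]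
    rcases hc with e | e
    · rw [show c⁻¹ * h * c = h by nth_rw 1 [← e]; group]
      exact zpow_mem_zpowers h n
    · rw [show c⁻¹ * h * c = h⁻¹ by rw [← inv_inj, inv_inv, mul_inv_rev, mul_inv_rev, ← e]; group]
      exact zpow_mem (inv_mem (mem_zpowers h)) n
  induction i using Int.induction_on with
  | zero => simpa using hx
  | succ i ih =>
    rw [show c ^ ((i : ℤ) + 1) * x * (c ^ ((i : ℤ) + 1))⁻¹ =
      c * (c ^ (i : ℤ) * x * (c ^ (i : ℤ))⁻¹) * c⁻¹ by group]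
    exact a1 _ ih
  | pred i ih =>
    rw [show c ^ (-(i : ℤ) - 1) * x * (c ^ (-(i : ℤ) - 1))⁻¹ =
      c⁻¹ * (c ^ (-(i : ℤ)) * x * (c ^ (-(i : ℤ)))⁻¹) * c by group]
    exact a2 _ ih

/-- elements of the group generated by `h` and `c` -/
theorem mem_pair {h c : G} (hc : c * h * c⁻¹ = h ∨ c * h * c⁻¹ = h⁻¹) {a : G}
    (ha : a ∈ closure ({h, c} : Set G)) : ∃ i : ℤ, (c ^ i)⁻¹ * a ∈ zpowers h := by
  induction ha using closure_induction with
  | mem x hx =>
    rcases hx with rfl | rfl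
    · exact ⟨0, by simp⟩
    · exact ⟨1, by simp⟩
  | one => exact ⟨0, by simp⟩
  | mul x y _ _ a b =>
    obtain ⟨i, a⟩ := a
    obtain ⟨j, b⟩ := b
    refine ⟨i + j, ?_⟩
    rw [show (c ^ (i + j))⁻¹ * (x * y) =
      c ^ (-j) * ((c ^ i)⁻¹ * x) * (c ^ (-j))⁻¹ * ((c ^ j)⁻¹ * y) by group]
    exact mul_mem (conj_zp hc _ a) b
  | inv x _ a =>
    obtain ⟨i, a⟩ := a
    refine ⟨-i, ?_⟩
    rw [show (c ^ (-i))⁻¹ * x⁻¹ = c ^ i * ((c ^ i)⁻¹ * x)⁻¹ * (c ^ i)⁻¹ by group]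
    exact conj_zp hc _ (inv_mem a)

theorem conj_pair {h c : G} (hc : c * h * c⁻¹ = h ∨ c * h * c⁻¹ = h⁻¹) {a : G}
    (ha : a ∈ closure ({h, c} : Set G)) {x : G} (hx : x ∈ zpowers h) :
    a * x * a⁻¹ ∈ zpowers h := by
  obtain ⟨i, k⟩ := mem_pair hc ha
  rw [show a * x * a⁻¹ = c ^ i * ((c ^ i)⁻¹ * a * x * ((c ^ i)⁻¹ * a)⁻¹) * (c ^ i)⁻¹ by group]
  exact conj_zp hc _ (mul_mem (mul_mem k hx) (inv_mem k))

/-- the group generated by `h` and an element that centralises or inverts it is left ordered -/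
theorem lin_pair (tf : ∀ a : G, a ≠ 1 → ¬ IsOfFinOrder a) {h c : G}
    (hc : c * h * c⁻¹ = h ∨ c * h * c⁻¹ = h⁻¹) :
    ∃ t, Lin (closure ({h, c} : Set G)) t ∧
      Inv (closure ({h, c} : Set G)) (closure ({h, c} : Set G)) t := by
  obtain ⟨t, l, iv⟩ := lin_zp tf h
  have tf' : ∀ (a : G) (m : ℤ), m ≠ 0 → a ^ m = 1 → a = 1 := fun a m hm e => by
    by_contra n
    exact tf a n (isOfFinOrder_iff_zpow_eq_one.2 ⟨m, hm, e⟩)
  by_cases k : ∃ m : ℤ, m ≠ 0 ∧ c ^ m ∈ zpowers h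
  · obtain ⟨m, m0, k⟩ := k
    have hc' : c * h * c⁻¹ = h := hc.elim id fun e => by
      obtain ⟨n, k⟩ := k
      have k : h ^ n = c ^ m := k
      have e1 : (h ^ n)⁻¹ = h ^ n := by
        rw [← inv_zpow, ← e, conj_zpow, k]
        group
      have e2 : h ^ n = 1 := tf' _ 2 two_ne_zero (by rw [zpow_two]; nth_rw 1 [← e1]; group)
      rw [tf' c m m0 (k ▸ e2)]
      group
    have cm : Commute h c := by
      show h * c = c * h
      nth_rw 1 [← hc']
      group
    have cc : ∀ x ∈ closure ({h, c} : Set G), ∀ y ∈ closure ({h, c} : Set G), Commute x y := by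
      intro x hx y hy
      obtain ⟨i, a, ea⟩ := mem_pair hc hx
      obtain ⟨j, b, eb⟩ := mem_pair hc hy
      rw [inv_mul_eq_iff_eq_mul.1 ea.symm, inv_mul_eq_iff_eq_mul.1 eb.symm]
      exact (((Commute.refl c).zpow_zpow _ _).mul_right (cm.symm.zpow_zpow _ _)).mul_left
        ((cm.zpow_zpow _ _).mul_right ((Commute.refl h).zpow_zpow _ _))
    have pw : ∀ x ∈ closure ({h, c} : Set G), x ^ m ∈ zpowers h := fun x hx => by
      obtain ⟨i, a, ea⟩ := mem_pair hc hx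
      rw [inv_mul_eq_iff_eq_mul.1 ea.symm, (cm.symm.zpow_zpow _ _).mul_zpow, ← zpow_mul,
        mul_comm i, zpow_mul]
      exact mul_mem (zpow_mem k _) (zpow_mem (zpow_mem_zpowers h a) _)
    refine ⟨fun x y => t (x ^ m) (y ^ m), ⟨fun x hx => l.irr _ (pw x hx),
      fun x hx y hy z hz => l.trans _ (pw x hx) _ (pw y hy) _ (pw z hz),
      fun x hx y hy n => l.tot _ (pw x hx) _ (pw y hy) fun e => n ?_⟩,
      fun g hg x hx y hy a => ?_⟩
    · have := tf' (x⁻¹ * y) m m0 (by rw [(cc x hx y hy).inv_left.mul_zpow, inv_zpow, e]; group)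
      exact inv_mul_eq_one.1 this
    · show t _ _
      rw [(cc g hg x hx).mul_zpow, (cc g hg y hy).mul_zpow]
      exact iv _ (pw g hg) _ (pw x hx) _ (pw y hy) a
  · obtain ⟨r, l, i, -⟩ := ord_of_quot (A := closure ({h, c} : Set G)) (F := ∅) (K := zpowers h)
      (fun a b => ∃ i : ℤ, 0 < i ∧ (c ^ i)⁻¹ * (a⁻¹ * b) ∈ zpowers h) (by simp)
      (fun a _ b _ m ⟨i, i0, e⟩ => k ⟨i, i0.ne', by
        simpa [mul_assoc] using inv_mem (mul_mem e (inv_mem m))⟩)
      (fun a _ b _ d _ ⟨i, i0, e⟩ ⟨j, j0, e'⟩ => ⟨i + j, add_pos i0 j0, by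
        rw [show (c ^ (i + j))⁻¹ * (a⁻¹ * d) = c ^ (-j) * ((c ^ i)⁻¹ * (a⁻¹ * b)) * (c ^ (-j))⁻¹ *
          ((c ^ j)⁻¹ * (b⁻¹ * d)) by group]
        exact mul_mem (conj_zp hc _ e) e'⟩)
      (fun a ha b hb n => by
        obtain ⟨i, e⟩ := mem_pair hc (mul_mem (inv_mem ha) hb)
        rcases lt_trichotomy i 0 with i0 | rfl | i0
        · refine .inr ⟨-i, by omega, ?_⟩
          rw [show (c ^ (-i))⁻¹ * (b⁻¹ * a) =
            c ^ i * ((c ^ i)⁻¹ * (a⁻¹ * b))⁻¹ * (c ^ i)⁻¹ by group]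
          exact conj_zp hc _ (inv_mem e)
        · exact absurd (by simpa using e) n
        · exact .inl ⟨i, i0, e⟩)
      (fun g _ x _ y _ ⟨i, i0, e⟩ => ⟨i, i0, by simpa [mul_assoc] using e⟩) l iv (by simp)
    exact ⟨r, l, i⟩

/-- LO for the group of a Seifert piece -/
theorem lo_sf [Finite ι] (tf : ∀ a : G, a ≠ 1 → ¬ IsOfFinOrder a) {h : G} {c : ι → G}
    (hc : ∀ i, c i * h * (c i)⁻¹ = h ∨ c i * h * (c i)⁻¹ = h⁻¹)
    (nf : Nf (zpowers h) fun i => closure ({h, c i} : Set G)) {V : Subgroup G}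
    (hV : V ≤ zpowers h ⊔ ⨆ i, closure ({h, c i} : Set G)) : ∃ t, Lin V t ∧ Inv V V t :=
  nf.lo (mem_zpowers h) (fun _ ⟨n, e⟩ => ⟨n, e.symm⟩) (lin_zp tf h) (fun i => lin_pair tf (hc i)) hV

/-- TOR for the group of a Seifert piece -/
theorem tor_sf {h : G} {c : ι → G} (hc : ∀ i, c i * h * (c i)⁻¹ = h ∨ c i * h * (c i)⁻¹ = h⁻¹)
    (nf : Nf (zpowers h) fun i => closure ({h, c i} : Set G)) {g : G}
    (hg : g ∈ ⨆ i, closure ({h, c i} : Set G)) {N : ℤ} (hN : N ≠ 0) (p : g ^ N ∈ zpowers h) :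
    g ∈ zpowers h ∨ ∃ d ∈ ⨆ i, closure ({h, c i} : Set G), ∃ j,
      d * g * d⁻¹ ∈ closure ({h, c j} : Set G) :=
  nf.tor (fun i _ ha _ hx => conj_pair (hc i) ha hx) hg hN p

end Pool.Agent.Work.MP_3d425c_gt.To.Tor
end

-- merged part: Pool.Agent.Work.MP_3d425c_gt.To.SfOrd
section
/-! Orders of Seifert groups that come from characters. -/

namespace Pool.Agent.Work.MP_3d425c_gt.To.Ph
open Set Subgroup Pool.Agent.Work.MP_3d425c_gt.Gl Pool.Agent.Work.MP_3d425c_gt.To.Sf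

variable {G : Type*} [Group G] {V : Subgroup G} {h : G} {n : ℕ} {c : ℕ → G} {tw : Bool}

/-- the indices of the boundary tori -/
def Bd (h : G) (n : ℕ) (c : ℕ → G) (tw : Bool) (i : ℕ) : Prop :=
  i ≤ n ∧ ¬ (tw ∧ i = 0) ∧ ¬ Dp h (c i)

/-- `Tor.lo_sf` -/
theorem seif_lo (tf : ∀ a : G, a ≠ 1 → ¬ IsOfFinOrder a) (S : Seif V h n c tw) :
    ∃ t, Lin V t ∧ Inv V V t := by
  refine Tor.lo_sf (ι := Fin n) tf (c := fun i => c i) (fun i => S.cj' i.2)
    ⟨fun i => zpowers_le_of_mem (subset_closure (by simp)), fun i g r => S.nfw (i := i) ?_⟩ ?_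
  · suffices ∀ o g, Tor.Rw (zpowers h) (fun i : Fin n => closure ({h, c i} : Set G)) o g →
        Rw h c (Iio n) (o.map Fin.val) g from this _ _ r
    intro o g r
    induction r with
    | nil x hx => exact .nil x hx
    | cons i o g a _ d m m' ih =>
      exact .cons _ _ g a ih (fun e => d (Option.map_injective Fin.val_injective e)) i.2
        (WW_one (h := h) (c := c) i ▸ m) m'
  · rw [S.eq]
    exact WW_le.2 ⟨mem_sup_left (mem_zpowers h), fun i hi =>
      mem_sup_right (mem_iSup_of_mem (⟨i, hi⟩ : Fin n) (subset_closure (by simp)))⟩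

/-- characters over a planar base -/
theorem ordB_chi (S : Seif V h n c false) (v : ℕ → ℝ)
    (hv : ∀ i < n, ∀ a b : ℤ, h ^ a = c i ^ b → (a : ℝ) = b * v i)
    (sum : ∑ i ∈ Finset.range (n + 1), v i = 0) :
    ∃ φ : G → ℝ, (∀ a ∈ V, ∀ b ∈ V, φ (a * b) = φ a + φ b) ∧ φ h = 1 ∧ ∀ i ≤ n, φ (c i) = v i := by
  obtain ⟨f, f1, f2, f3⟩ := S.lift (Multiplicative.ofAdd (1 : ℝ))
    (fun i => Multiplicative.ofAdd (v i)) (fun i _ => by simp) fun i hi m k e => by
      have := hv i hi m (-k) (by rw [zpow_neg]; exact eq_inv_of_mul_eq_one_left e)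
      rw [← ofAdd_zsmul, ← ofAdd_zsmul, ← ofAdd_add, ofAdd_eq_one, zsmul_eq_mul, zsmul_eq_mul, this]
      push_cast
      ring
  have add : ∀ a ∈ V, ∀ b ∈ V, (f (a * b)).toAdd = (f a).toAdd + (f b).toAdd := fun a ha b hb => by
    rw [f1 a ha b hb, toAdd_mul]
  have pr : ∀ k ≤ n, (f ((List.range k).map c).prod).toAdd = ∑ i ∈ Finset.range k, v i := by
    intro k hk
    induction k with
    | zero => simpa using Ax.add_one (s := fun a => (f a).toAdd) add
    | succ k ih =>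
      rw [List.range_succ, List.map_append, List.prod_append, List.map_singleton,
        List.prod_singleton, add _ (Seif.prod_mem fun i hi => S.c_V (by omega)) _ (S.c_V (by omega)),
        ih (by omega), f3 k hk, Finset.sum_range_succ, toAdd_ofAdd]
  refine ⟨fun a => (f a).toAdd, add, by simp [f2], fun i hi => ?_⟩
  rcases hi.lt_or_eq with hi | rfl
  · simp [f3 i hi]
  · have e := S.last
    rw [if_neg (by simp), one_mul] at e
    have k := pr i le_rfl
    rw [e, Ax.add_inv (s := fun a => (f a).toAdd) add (S.c_V le_rfl)] at k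
    rw [Finset.sum_range_succ] at sum
    linarith

/-- the group of pairs `(p, a)` with `(p, a) (q, b) = (p + q, a + (-1) ^ p b)` -/
structure Af where
  p : ℤ
  a : ℝ

theorem Af.eq {x y : Af} (e : x.p = y.p) (e' : x.a = y.a) : x = y := by
  cases x
  cases y
  simp_all

noncomputable instance : Mul Af := ⟨fun x y => ⟨x.p + y.p, x.a + (-1) ^ x.p * y.a⟩⟩
instance : One Af := ⟨⟨0, 0⟩⟩
noncomputable instance : _root_.Inv Af := ⟨fun x => ⟨-x.p, -((-1) ^ x.p * x.a)⟩⟩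

theorem Af.mul_p (x y : Af) : (x * y).p = x.p + y.p := rfl
theorem Af.mul_a (x y : Af) : (x * y).a = x.a + (-1) ^ x.p * y.a := rfl
theorem Af.inv_p (x : Af) : x⁻¹.p = -x.p := rfl
theorem Af.inv_a (x : Af) : x⁻¹.a = -((-1) ^ x.p * x.a) := rfl
theorem Af.one_p : (1 : Af).p = 0 := rfl
theorem Af.one_a : (1 : Af).a = 0 := rfl

theorem af_neg (p : ℤ) : (-1 : ℝ) ^ (-p) = (-1) ^ p := by
  rw [zpow_neg, ← inv_zpow, inv_neg_one]

noncomputable instance : Group Af := Group.ofLeftAxioms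
  (fun x y z => Af.eq (add_assoc _ _ _) (by
    simp only [Af.mul_a, Af.mul_p, zpow_add₀ (show (-1 : ℝ) ≠ 0 by norm_num)]
    ring))
  (fun x => Af.eq (zero_add _) (by simp [Af.mul_a, Af.one_a, Af.one_p]))
  fun x => Af.eq (neg_add_cancel _) (by
    simp only [Af.mul_a, Af.inv_a, Af.inv_p, Af.one_a, af_neg, neg_add_cancel])

/-- the abelian subgroup of index two -/
noncomputable def afEv : Multiplicative (ℤ × ℝ) →* Af where
  toFun v := ⟨2 * v.toAdd.1, v.toAdd.2⟩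
  map_one' := Af.eq (by simp [Af.one_p]) (by simp [Af.one_a])
  map_mul' v w := Af.eq (by simp [Af.mul_p, mul_add]) (by simp [Af.mul_a, zpow_mul])

/-- the positive cone -/
def Af.Pos (x : Af) : Prop := 0 < x.p ∨ (x.p = 0 ∧ 0 < x.a)

theorem Af.Pos.mul {x y : Af} (a : x.Pos) (b : y.Pos) : (x * y).Pos := by
  unfold Af.Pos at a b ⊢
  rw [Af.mul_p, Af.mul_a]
  rcases a with a | a <;> rcases b with b | b
  · exact .inl (by omega)
  · exact .inl (by omega)
  · exact .inl (by omega)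
  · exact .inr ⟨by omega, by rw [a.1, zpow_zero, one_mul]; linarith [a.2, b.2]⟩

theorem Af.tot {x : Af} (e : x ≠ 1) : x.Pos ∨ x⁻¹.Pos := by
  unfold Af.Pos
  rw [Af.inv_p, Af.inv_a]
  rcases lt_trichotomy 0 x.p with a | a | a
  · exact .inl (.inl a)
  · rcases lt_trichotomy 0 x.a with b | b | b
    · exact .inl (.inr ⟨a.symm, b⟩)
    · exact absurd (Af.eq a.symm b.symm) e
    · exact .inr (.inr ⟨by omega, by rw [← a, zpow_zero, one_mul]; linarith⟩)
  · exact .inr (.inl (by omega))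

/-- the crossed homomorphism -/
theorem af_lift (S : Seif V h n c tw) (W : Set ℕ) (hW : ∀ i ∈ W, Bd h n c tw i)
    (two : if tw then W.Nonempty else W.Nontrivial) (b : ℕ → ℝ) :
    ∃ f : G → Af, (∀ a ∈ V, ∀ b ∈ V, f (a * b) = f a * f b) ∧ f h = ⟨0, 1⟩ ∧
      (∀ i ∈ W, (f (c i)).p ≠ 0) ∧ ∀ i, Bd h n c tw i → i ∉ W → f (c i) = ⟨0, b i⟩ := by
  classical
  have z0 : ∀ m : ℤ, h ^ m = 1 → m = 0 := fun m e => by
    by_contra m0
    exact S.inf (isOfFinOrder_iff_zpow_eq_one.2 ⟨m, m0, e⟩)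
  have nd : ∀ i, ¬ Dp h (c i) → ∀ m k : ℤ, h ^ m * c i ^ k = 1 → m = 0 ∧ k = 0 := by
    intro i q m k e
    by_contra z
    exact q ⟨m, -k, fun y => z ⟨y.1, neg_eq_zero.1 y.2⟩, by
      rw [zpow_neg]
      exact eq_inv_of_mul_eq_one_left e⟩
  have ea : ∀ i, ∃ a : ℝ, (∀ m k : ℤ, h ^ m * c i ^ k = 1 → m + k * a = 0) ∧
      (¬ Dp h (c i) → a = b i) := fun i => by
    by_cases q : Dp h (c i)
    · obtain ⟨M, N, ne, e⟩ := id q
      have N0 : N ≠ 0 := fun z => ne ⟨z0 M (by rw [e, z, zpow_zero]), z⟩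
      refine ⟨M / N, fun m k e' => ?_, fun z => absurd q z⟩
      have e1 : c i ^ k = h ^ (-m) := by
        rw [zpow_neg]
        exact eq_inv_of_mul_eq_one_right e'
      have e2 : m * N + M * k = 0 := z0 _ (by
        rw [zpow_add, zpow_mul h M, e, ← zpow_mul, mul_comm N, zpow_mul (c i), e1, ← zpow_mul,
          ← zpow_add]
        simp)
      have e3 : (m : ℝ) * N + M * k = 0 := by exact_mod_cast e2
      have N1 : (N : ℝ) ≠ 0 := by exact_mod_cast N0
      field_simp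
      linarith
    · refine ⟨b i, fun m k e => ?_, fun _ => rfl⟩
      simp [(nd i q m k e).1, (nd i q m k e).2]
  choose a a1 a2 using ea
  obtain ⟨j, hj, i₀, i1, i2, i3⟩ : ∃ j ∈ W, ∃ i₀ ≤ n, i₀ ≠ j ∧ ((tw ∧ i₀ = 0) ∨ i₀ ∈ W) := by
    split_ifs at two with w
    · obtain ⟨j, hj⟩ := two
      exact ⟨j, hj, 0, Nat.zero_le _, fun e => (hW j hj).2.1 ⟨w, e.symm⟩, .inl ⟨w, rfl⟩⟩
    · obtain ⟨i, hi, j, hj, ne⟩ := two
      exact ⟨j, hj, i, (hW i hi).1, ne, .inr hi⟩
  let u : ℕ → ℤ × ℝ := fun i => if (tw ∧ i = 0) ∨ i ∈ W then (1, 0) else (0, a i)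
  let v : ℕ → ℤ × ℝ := fun i => if i = j then -∑ k ∈ (Finset.range (n + 1)).erase j, u k else u i
  have vs : ∑ k ∈ Finset.range (n + 1), v k = 0 := by
    rw [← Finset.add_sum_erase _ _ (Finset.mem_range.2 (Nat.lt_succ_of_le (hW j hj).1)),
      Finset.sum_congr rfl fun k hk => show v k = u k from if_neg (Finset.ne_of_mem_erase hk),
      show v j = _ from if_pos rfl, neg_add_cancel]
  have vW : ∀ i ∈ W, (v i).1 ≠ 0 := fun i hi => by
    by_cases e : i = j
    · have k := Finset.single_le_sum (f := fun k => (u k).1) (s := (Finset.range (n + 1)).erase j)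
        (fun k _ => by
          simp only [u]
          split_ifs <;> simp)
        (Finset.mem_erase.2 ⟨i2, Finset.mem_range.2 (Nat.lt_succ_of_le i1)⟩)
      rw [show u i₀ = _ from if_pos i3] at k
      rw [show v i = _ from if_pos e, Prod.fst_neg, Prod.fst_sum]
      omega
    · rw [show v i = u i from if_neg e, show u i = _ from if_pos (.inr hi)]
      exact one_ne_zero
  have vN : ∀ i, ¬ (tw ∧ i = 0) → i ∉ W → v i = (0, a i) := fun i t hi => by
    rw [show v i = u i from if_neg fun e : i = j => hi (e ▸ hj)]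
    exact if_neg fun e => e.elim t hi
  have η : (⟨0, 1⟩ : Af) = afEv (.ofAdd (0, 1)) := rfl
  obtain ⟨f, f1, f2, f3⟩ := S.lift (K := Af) ⟨0, 1⟩
    (fun i => if tw ∧ i = 0 then ⟨1, 0⟩ else afEv (.ofAdd (v i))) (fun i _ => by
      split_ifs
      · exact Af.eq (by simp [Af.mul_p, Af.inv_p]) (by simp [Af.mul_a, Af.inv_a])
      · rw [η, ← map_inv, ← map_mul, ← map_mul, mul_inv_cancel_comm]) (fun i _ m k e => by
      by_cases q : Dp h (c i)
      · have t : ¬ (tw ∧ i = 0) := by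
          rintro ⟨w, rfl⟩
          obtain ⟨M, N, ne, e⟩ := q
          have N0 := S.twi w N ⟨M, e⟩
          exact ne ⟨z0 M (by rw [e, N0, zpow_zero]), N0⟩
        rw [if_neg t, vN i t fun hi => (hW i hi).2.2 q, η, ← map_zpow afEv, ← map_zpow afEv,
          ← map_mul afEv, ← ofAdd_zsmul, ← ofAdd_zsmul, ← ofAdd_add, ← map_one afEv]
        congr 1
        refine congrArg Multiplicative.ofAdd (Prod.ext (by simp) ?_)
        simpa using a1 i m k e
      · rw [(nd i q m k e).1, (nd i q m k e).2, zpow_zero, zpow_zero, mul_one])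
  have o1 : f 1 = 1 := by
    have := f1 1 (one_mem _) 1 (one_mem _)
    rw [mul_one] at this
    exact left_eq_mul.1 this
  have tV : (if tw then c 0 else 1) ∈ V := by
    split_ifs
    exacts [S.c_V (Nat.zero_le _), one_mem _]
  have pr : ∀ m, m < n → f ((if tw then c 0 else 1) * ((List.range (m + 1)).map c).prod) =
      afEv (.ofAdd (∑ k ∈ Finset.range (m + 1), v k)) := by
    intro m
    induction m with
    | zero =>
      intro hm
      simp only [zero_add, List.range_one, List.map_cons, List.map_nil, List.prod_cons,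
        List.prod_nil, mul_one, Finset.sum_range_one]
      by_cases w : tw
      · have e : v 0 = (1, 0) := by
          rw [show v 0 = u 0 from if_neg fun e => (hW j hj).2.1 ⟨w, e.symm⟩]
          exact if_pos (.inl ⟨w, rfl⟩)
        rw [if_pos w, f1 _ (S.c_V hm.le) _ (S.c_V hm.le), f3 0 hm, if_pos ⟨w, rfl⟩, e]
        exact Af.eq rfl (by simp [Af.mul_a, afEv])
      · rw [if_neg w, one_mul, f3 0 hm, if_neg fun t => w t.1]
    | succ m ih =>
      intro hm
      rw [List.range_succ, List.map_append, List.prod_append, ← mul_assoc, Finset.sum_range_succ,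
        ofAdd_add, map_mul, ← ih (by omega), List.map_singleton, List.prod_singleton,
        f1 _ (mul_mem tV (Seif.prod_mem fun i hi => S.c_V (by omega))) _ (S.c_V hm.le), f3 _ hm,
        if_neg fun t : tw ∧ m + 1 = 0 => Nat.succ_ne_zero m t.2]
  have fv : ∀ i ≤ n, ¬ (tw ∧ i = 0) → f (c i) = afEv (.ofAdd (v i)) := fun i hi t => by
    rcases hi.lt_or_eq with k | rfl
    · rw [f3 i k, if_neg t]
    · obtain ⟨m, rfl⟩ := Nat.exists_eq_succ_of_ne_zero S.pos.ne'
      have e := pr m (Nat.lt_succ_self m)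
      rw [S.last] at e
      have e' := f1 _ (inv_mem (S.c_V hi)) _ (S.c_V hi)
      rw [inv_mul_cancel, o1, e] at e'
      rw [Finset.sum_range_succ] at vs
      rw [eq_inv_of_mul_eq_one_right e'.symm, ← map_inv, ← ofAdd_neg,
        eq_neg_of_add_eq_zero_right vs]
  refine ⟨f, f1, f2, fun i hi => ?_, fun i hi hi' => ?_⟩
  · rw [fv i (hW i hi).1 (hW i hi).2.1]
    exact mul_ne_zero two_ne_zero (vW i hi)
  · rw [fv i hi.1 hi.2.1, vN i hi.2.1 hi', a2 i hi.2.2]
    rfl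

/-- Two vertical slots (one over a base with a cross cap). `π` is integer valued, kills `h` and
the `c i`, `i ∉ W`, is even and nonzero on `W`, `π (c 0) = 1` if `tw`. `φ (a * b) = φ a +
(-1) ^ π a * φ b`, `φ h = 1`, `φ (c i) = s i (c i) / s i h` on the other tori, `= k / m` if
`c i ^ m = h ^ k`, and one slot of `W` absorbs the product relation (`Seif.lift` into a group of
affine maps). `ord_of_quot` with the cone `0 < π` or `π = 0`, `0 < φ`. -/
theorem ordA (tf : ∀ a : G, a ≠ 1 → ¬ IsOfFinOrder a) (S : Seif V h n c tw) (W : Set ℕ)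
    (hW : ∀ i ∈ W, Bd h n c tw i) (two : if tw then W.Nonempty else W.Nontrivial)
    (s : ℕ → G → ℝ)
    (hs : ∀ i, Bd h n c tw i → i ∉ W → Sl (closure {h, c i}) (s i) ∧ s i h ≠ 0) :
    ∃ π : G → ℝ, (∀ a ∈ V, ∀ b ∈ V, π (a * b) = π a + π b) ∧ π h = 0 ∧ (∀ i ∈ W, π (c i) ≠ 0) ∧
      ∃ r, Ord V {f | ∃ i, Bd h n c tw i ∧ ((i ∈ W ∧ f = (closure {h, c i}, π)) ∨
        (i ∉ W ∧ f = (closure {h, c i}, s i)))} r := by
  obtain ⟨f, f1, f2, f3, f4⟩ := af_lift S W hW two fun i => s i (c i) / s i h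
  have o1 : f 1 = 1 := by
    have := f1 1 (one_mem _) 1 (one_mem _)
    rw [mul_one] at this
    exact left_eq_mul.1 this
  have iv : ∀ a ∈ V, f a⁻¹ = (f a)⁻¹ := fun a ha =>
    eq_inv_of_mul_eq_one_left (by rw [← f1 _ (inv_mem ha) _ ha, inv_mul_cancel, o1])
  have le : ∀ i, Bd h n c tw i → closure {h, c i} ≤ V := fun i hi => WW_one (h := h) i ▸ S.A_le hi.1
  have cj : ∀ x ∈ V, ∀ p ∈ V, f (x⁻¹ * (p * x)) = (f x)⁻¹ * (f p * f x) := fun x hx p hp => by
    rw [f1 _ (inv_mem hx) _ (mul_mem hp hx), f1 _ hp _ hx, iv x hx]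
  let K : Subgroup G := ⟨⟨⟨{a | a ∈ V ∧ f a = 1}, fun {a b} ha hb =>
    ⟨mul_mem ha.1 hb.1, by rw [f1 a ha.1 b hb.1, ha.2, hb.2, mul_one]⟩⟩, one_mem _, o1⟩,
    fun {a} ha => ⟨inv_mem ha.1, by rw [iv a ha.1, ha.2, inv_one]⟩⟩
  have KV : K ≤ V := fun _ ha => ha.1
  obtain ⟨t, t1, t2⟩ := seif_lo tf S
  refine ⟨fun g => (f g).p, fun a ha b hb => by simp only [f1 a ha b hb, Af.mul_p, Int.cast_add],
    by simp only [f2, Int.cast_zero], fun i hi => Int.cast_ne_zero.2 (f3 i hi),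
    ord_of_quot (K := K) (fun a b => (f (a⁻¹ * b)).Pos) ?_ ?_ ?_ ?_ ?_ (t1.mono KV)
      (t2.mono KV KV) ?_⟩
  · rintro _ ⟨i, hi, ⟨-, rfl⟩ | ⟨-, rfl⟩⟩ <;> exact le i hi
  · intro a _ b _ e q
    rw [e.2] at q
    exact q.elim (lt_irrefl _) fun q => lt_irrefl _ q.2
  · intro a ha b hb d hd q q'
    have := q.mul q'
    rwa [← f1 _ (mul_mem (inv_mem ha) hb) _ (mul_mem (inv_mem hb) hd), mul_assoc,
      mul_inv_cancel_left] at this
  · intro a ha b hb e
    have m := mul_mem (inv_mem ha) hb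
    have := Af.tot (x := f (a⁻¹ * b)) fun q => e ⟨m, q⟩
    rwa [← iv _ m, mul_inv_rev, inv_inv] at this
  · intro g _ a _ b _ q
    simpa only [mul_inv_rev, mul_assoc, inv_mul_cancel_left] using q
  rintro _ ⟨i, hi, ⟨-, rfl⟩ | ⟨w, rfl⟩⟩ x hx
  · refine .inl fun p hp q => .inl ?_
    rw [cj x hx p (le i hi hp), Af.mul_p, Af.mul_p, Af.inv_p]
    have : 0 < (f p).p := Int.cast_pos.1 q
    omega
  obtain ⟨sl, s0⟩ := hs i hi w
  have val : ∀ p ∈ closure {h, c i}, f p = ⟨0, s i p / s i h⟩ := fun p hp => by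
    induction hp using closure_induction with
    | mem y hy =>
      rcases hy with rfl | rfl
      · rw [f2, div_self s0]
      · exact f4 i hi w
    | one =>
      rw [o1, sl.one, zero_div]
      rfl
    | mul y z hy hz k1 k2 =>
      rw [f1 y (le i hi hy) z (le i hi hz), k1, k2, sl.add y hy z hz]
      exact Af.eq rfl (by simp [Af.mul_a, add_div])
    | inv y hy k =>
      rw [iv y (le i hi hy), k, sl.inv hy]
      exact Af.eq rfl (by simp [Af.inv_a, neg_div])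
  have key : ∀ p ∈ closure {h, c i}, 0 < (-1) ^ (f x).p / s i h * s i p →
      (f (x⁻¹ * (p * x))).Pos := fun p hp q => by
    rw [cj x hx p (le i hi hp), val p hp]
    refine .inr ⟨by simp [Af.mul_p, Af.inv_p], q.trans_eq ?_⟩
    simp only [Af.mul_a, Af.inv_a, Af.inv_p, af_neg, zpow_zero]
    ring
  have ne : (-1 : ℝ) ^ (f x).p / s i h ≠ 0 := div_ne_zero (zpow_ne_zero _ (by norm_num)) s0
  rcases ne.lt_or_gt with q | q
  · refine .inr (.inl fun p hp k => ?_)
    have := key p⁻¹ (inv_mem hp) (by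
      rw [sl.inv hp]
      exact mul_pos_of_neg_of_neg q (neg_neg_of_pos k))
    simpa only [mul_inv_rev, mul_assoc] using this
  · exact .inl fun p hp k => key p hp (mul_pos q k)

/-- One free slot over a planar base: `ord_of_hom` with the character `φ`. -/
theorem ordB (tf : ∀ a : G, a ≠ 1 → ¬ IsOfFinOrder a) (S : Seif V h n c false) (j : ℕ)
    (hj : Bd h n c false j) (s : ℕ → G → ℝ)
    (hs : ∀ i, Bd h n c false i → i ≠ j → Sl (closure {h, c i}) (s i) ∧ s i h ≠ 0) :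
    ∃ φ : G → ℝ, (∀ a ∈ V, ∀ b ∈ V, φ (a * b) = φ a + φ b) ∧ φ h = 1 ∧
      ∃ r, Ord V {f | ∃ i, Bd h n c false i ∧ ((i = j ∧ f = (closure {h, c i}, φ)) ∨
        (i ≠ j ∧ f = (closure {h, c i}, s i)))} r := by
  classical
  have one : ∀ i, ∃ u : ℝ, (∀ a b : ℤ, h ^ a = c i ^ b → (a : ℝ) = b * u) ∧
      (¬ Dp h (c i) → u = s i (c i) / s i h) := fun i => by
    by_cases d : Dp h (c i)
    · obtain ⟨a, b, ne, e⟩ := d
      have inj := injective_zpow_iff_not_isOfFinOrder.2 S.inf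
      have b0 : b ≠ 0 := fun q => ne ⟨inj (by simpa [q] using e), q⟩
      refine ⟨a / b, fun a' b' e' => ?_, fun q => absurd ⟨a, b, ne, e⟩ q⟩
      have k : a' * b = a * b' := inj (by
        show h ^ _ = h ^ _
        rw [zpow_mul, zpow_mul, e, e', ← zpow_mul, ← zpow_mul, mul_comm])
      have k' : (a' : ℝ) * b = a * b' := by exact_mod_cast k
      have b1 : (b : ℝ) ≠ 0 := Int.cast_ne_zero.2 b0
      field_simp
      linarith
    · refine ⟨_, fun a b e => ?_, fun _ => rfl⟩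
      obtain ⟨rfl, rfl⟩ : a = 0 ∧ b = 0 := by_contra fun q => d ⟨a, b, q, e⟩
      simp
  choose u u1 u2 using one
  obtain ⟨φ, add, f1, f2⟩ := ordB_chi S
    (Function.update u j (-∑ i ∈ Finset.range (n + 1) \ {j}, u i)) (fun i _ a b e => by
      by_cases q : i = j
      · obtain ⟨rfl, rfl⟩ : a = 0 ∧ b = 0 := by_contra fun z => hj.2.2 ⟨a, b, z, q ▸ e⟩
        simp
      · rw [Function.update_of_ne q]
        exact u1 i a b e) (by
      rw [Finset.sum_update_of_mem (Finset.mem_range.2 (Nat.lt_succ_of_le hj.1)), neg_add_cancel])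
  have le : ∀ i ≤ n, closure {h, c i} ≤ V := fun i hi => WW_one (h := h) (c := c) i ▸ S.A_le hi
  let K : Subgroup G := ⟨⟨⟨{a | a ∈ V ∧ φ a = 0}, fun a b =>
    ⟨mul_mem a.1 b.1, by rw [add _ a.1 _ b.1, a.2, b.2, add_zero]⟩⟩, one_mem _, Ax.add_one add⟩,
    fun a => ⟨inv_mem a.1, by rw [Ax.add_inv add a.1, a.2, neg_zero]⟩⟩
  obtain ⟨t, l, iv⟩ := seif_lo tf S
  refine ⟨φ, add, f1, ord_of_hom (K := K) (t := t) φ add (fun _ => Iff.rfl) ?_
    (l.mono fun _ k => k.1) (fun g hg a ha b hb => iv g hg.1 a ha.1 b hb.1) ?_⟩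
  · rintro _ ⟨i, b, ⟨-, rfl⟩ | ⟨-, rfl⟩⟩ <;> exact le i b.1
  · rintro _ ⟨i, b, ⟨-, rfl⟩ | ⟨ne, rfl⟩⟩
    · exact .inl fun _ _ k => k
    · obtain ⟨sl, s0⟩ := hs i b ne
      have e : ∀ p ∈ closure {h, c i}, φ p = s i p / s i h := fun p hp => by
        induction hp using closure_induction with
        | mem x hx =>
          rcases hx with rfl | rfl
          · rw [f1, div_self s0]
          · rw [f2 i b.1, Function.update_of_ne ne, u2 i b.2.2]
        | one => rw [Ax.add_one add, Ax.add_one sl.add, zero_div]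
        | mul x y hx hy a a' =>
          rw [add _ (le i b.1 hx) _ (le i b.1 hy), sl.add _ hx _ hy, a, a', add_div]
        | inv x hx a => rw [Ax.add_inv add (le i b.1 hx), Ax.add_inv sl.add hx, a, neg_div]
      rcases s0.lt_or_gt with q | q
      · exact .inr fun p hp k => (e p hp).trans_lt (div_neg_of_pos_of_neg k q)
      · exact .inl fun p hp k => (div_pos k q).trans_eq (e p hp).symm

end Pool.Agent.Work.MP_3d425c_gt.To.Ph
end

-- merged part: Pool.Agent.Work.MP_3d425c_gt.To.SfMain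
section
/-! Orders of Seifert pieces that detect the slopes of the boundary tori. -/

namespace Pool.Agent.Work.MP_3d425c_gt.To.Ph
open Set Subgroup Pool.Agent.Work.MP_3d425c_gt.Cy Pool.Agent.Work.MP_3d425c_gt.To.Ax
open Pool.Agent.Work.MP_3d425c_gt.Gl Pool.Agent.Work.MP_3d425c_gt.To.Sf

variable {G X : Type*} [Group G] [MulAction G X] {C : Set (ℝ → X)} {up : X → X → Prop}
  {V : Subgroup G} {h : G} {n : ℕ} {c : ℕ → G} {tw : Bool}

theorem dp_tor (hi : ¬ IsOfFinOrder h) {x : G} : Dp h x ↔ Tor h x := by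
  constructor
  · rintro ⟨a, b, k, e⟩
    have b0 : b ≠ 0 := fun q => by
      rw [q, zpow_zero] at e
      exact k ⟨by_contra fun z => hi (isOfFinOrder_iff_zpow_eq_one.2 ⟨a, z, e⟩), q⟩
    have m : x ^ b ∈ zpowers h := e ▸ zpow_mem (mem_zpowers h) a
    refine ⟨b.natAbs, Int.natAbs_pos.2 b0, ?_⟩
    rw [← zpow_natCast]
    rcases Int.natAbs_eq b with q | q
    · rwa [← q]
    · rw [← inv_mem_iff, ← zpow_neg, ← q]
      exact m
  · rintro ⟨m, m0, a, e⟩
    exact ⟨a, m, fun q => m0.ne' (by exact_mod_cast q.2), by simpa using e⟩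

theorem mem_l (a b : G) : a ∈ closure {a, b} := subset_closure (.inl rfl)

theorem mem_r (a b : G) : b ∈ closure {a, b} := subset_closure (.inr rfl)

theorem seif_cj (S : Seif V h n c tw) {g : G} (hg : g ∈ V) :
    g * h * g⁻¹ = h ∨ g * h * g⁻¹ = h⁻¹ := by
  rw [S.gen] at hg
  induction hg using closure_induction with
  | mem g hg =>
    rcases hg with rfl | ⟨i, hi, rfl⟩
    exacts [.inl (by group), S.cj' hi]
  | one => exact .inl (by group)
  | mul a b _ _ ha hb =>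
    have e : a * b * h * (a * b)⁻¹ = a * (b * h * b⁻¹) * a⁻¹ := by group
    have e' : a * h⁻¹ * a⁻¹ = (a * h * a⁻¹)⁻¹ := by group
    rcases hb with q | q <;> rw [e, q]
    · exact ha
    · rw [e']
      rcases ha with r | r <;> rw [r]
      exacts [.inr rfl, .inl (inv_inv _)]
  | inv a _ ha =>
    rcases ha with r | r
    · exact .inl (by nth_rewrite 1 [← r]; group)
    · refine .inr ?_
      calc a⁻¹ * h * a⁻¹⁻¹ = a⁻¹ * (a * h * a⁻¹)⁻¹ * a := by rw [r, inv_inv, inv_inv]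
        _ = h⁻¹ := by group

theorem pair_le (S : Seif V h n c tw) {i : ℕ} (hi : i ≤ n) : closure {h, c i} ≤ V :=
  WW_one (h := h) (c := c) i ▸ S.A_le hi

theorem det_vert {x : G} (cm : h * x = x * h) (le : closure {h, x} ≤ V) {π s : G → ℝ}
    {r : G → G → Prop} (l : Lin V r) (i : Inv V V r) (sp : Sl (closure {h, x}) π)
    (ss : Sl (closure {h, x}) s) (p0 : π h = 0) (s0 : s h = 0) (px : π x ≠ 0)
    (d : Det (closure {h, x}) π V r) : Det (closure {h, x}) s V r := by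
  have f : ∀ t : G → ℝ, Sl (closure {h, x}) t → t h = 0 → ∀ a b : ℤ, t (h ^ a * x ^ b) = b * t x :=
    fun t st t0 a b => by
      rw [st.add _ (zpow_mem (mem_l h x) a) _ (zpow_mem (mem_r h x) b), st.zpow (mem_l h x),
        st.zpow (mem_r h x), t0]
      ring
  have d' := d.neg l ((Cl.self V).mono le) (i.mono le le_rfl) sp
  by_cases q : 0 < π x * s x
  · have k : ∀ p ∈ closure {h, x}, 0 < s p → 0 < π p := fun p hp e => by
      obtain ⟨a, b, rfl⟩ := (mem_pair cm).1 hp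
      rw [f s ss s0] at e
      rw [f π sp p0]
      by_contra z
      nlinarith [mul_pos q e, mul_nonneg (neg_nonneg.2 (not_lt.1 z)) (mul_self_nonneg (s x))]
    exact fun y hy p hp q hq a b => d y hy p hp q hq (k p hp a) (k q hq b)
  · have k : ∀ p ∈ closure {h, x}, 0 < s p → 0 < -π p := fun p hp e => by
      obtain ⟨a, b, rfl⟩ := (mem_pair cm).1 hp
      rw [f s ss s0] at e
      rw [f π sp p0]
      have s1 : s x ≠ 0 := fun z => by simp [z] at e
      have q' : π x * s x < 0 := lt_of_le_of_ne (not_lt.1 q) (mul_ne_zero px s1)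
      by_contra z
      nlinarith [mul_pos (neg_pos.2 q') e,
        mul_nonneg (neg_nonneg.2 (not_lt.1 z)) (mul_self_nonneg (s x))]
    exact fun y hy p hp q hq a b => d' y hy p hp q hq (k p hp a) (k q hq b)

theorem det_prop {P : Subgroup G} (le : P ≤ V) {π s : G → ℝ} {r : G → G → Prop} (l : Lin V r)
    (i : Inv V V r) (sp : Sl P π) {t : ℝ} (t0 : t ≠ 0) (e : ∀ p ∈ P, π p = t * s p)
    (d : Det P π V r) : Det P s V r := by
  rcases t0.lt_or_gt with q | q
  · exact fun y hy p hp p' hp' a b => d.neg l ((Cl.self V).mono le) (i.mono le le_rfl) sp y hy p hp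
      p' hp' (by beta_reduce; rw [e p hp]; nlinarith) (by beta_reduce; rw [e p' hp']; nlinarith)
  · exact fun y hy p hp p' hp' a b => d y hy p hp p' hp' (by rw [e p hp]; positivity)
      (by rw [e p' hp']; positivity)

variable (H : Om G C up)
include H

omit H in
theorem line_sgn {P : Subgroup G} {s : G → ℝ} (sl : Sl P s) (hh : h ∈ P) (s0 : s h ≠ 0) :
    ∃ k, (k = h ∨ k = h⁻¹) ∧ k ∈ P ∧ 0 < s k := by
  rcases s0.lt_or_gt with q | q
  · exact ⟨h⁻¹, .inr rfl, inv_mem hh, by rw [sl.inv hh]; linarith⟩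
  · exact ⟨h, .inl rfl, hh, q⟩

/-- The kernel of a broken axis contains a fibre. -/
theorem zig_normal (cy : ∀ y : X, ∃ z : G, ∀ a : G, a • y = y → a ∈ zpowers z)
    (S : Seif V h n c tw) {P : Subgroup G} (hh : h ∈ P) {s : G → ℝ} (sl : Sl P s)
    (Z : Zig C up P s) (nt : ∃ τ ∈ P, τ ≠ 1 ∧ s τ = 0) :
    ∃ τ ∈ P, τ ≠ 1 ∧ s τ = 0 ∧ V ≤ normalizer (zpowers τ : Set G) := by
  by_cases s0 : s h = 0
  · exact ⟨h, hh, fun e => S.inf (e ▸ IsOfFinOrder.one), s0, S.le_nm⟩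
  obtain ⟨τ, t1, t2, t3⟩ := nt
  obtain ⟨k, hk, kP, sk⟩ := line_sgn sl hh s0
  obtain ⟨m, ν, Z⟩ := Z
  have e := (Z k kP).1.1 sk
  have cj : ∀ g ∈ V, g * k * g⁻¹ = k ∨ g * k * g⁻¹ = k⁻¹ := fun g hg => by
    rcases hk with rfl | rfl
    · exact seif_cj S hg
    · rw [show g * h⁻¹ * g⁻¹ = (g * h * g⁻¹)⁻¹ by group]
      exact (seif_cj S hg).imp (congrArg _) (congrArg _)
  obtain ⟨z, hz⟩ := cy ν
  let K : Subgroup G := centralizer {k} ⊓ MulAction.stabilizer G ν
  have mk : ∀ a : G, a ∈ K ↔ k * a = a * k ∧ a • ν = ν := fun a => by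
    simp only [K, Subgroup.mem_inf, Subgroup.mem_centralizer_iff, mem_singleton_iff, forall_eq,
      MulAction.mem_stabilizer_iff]
  have : IsCyclic K := isCyclic_of_le (H' := zpowers z) fun a ha => hz a ((mk a).1 ha).2
  obtain ⟨⟨w, hw⟩, e1⟩ := IsCyclic.exists_generator (α := K)
  have e2 : ∀ a ∈ K, ∃ j : ℤ, w ^ j = a := fun a ha =>
    (e1 ⟨a, ha⟩).imp fun j q => congrArg Subtype.val q
  obtain ⟨i, rfl⟩ := e2 τ ((mk τ).2 ⟨sl.comm k kP τ t1, ((Z τ t1).2.1 t3).2⟩)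
  have key : ∀ g ∈ V, ∀ a ∈ zpowers (w ^ i), g * a * g⁻¹ ∈ zpowers (w ^ i) := by
    rintro g hg _ ⟨l, rfl⟩
    obtain ⟨j, q⟩ := e2 _ ((mk _).2 (e.normal H ((mk w).1 hw).1 ((mk w).1 hw).2
      (cj _ (inv_mem hg))))
    rw [inv_inv] at q
    refine ⟨j * l, ?_⟩
    simp only [← conj_zpow, ← q, ← zpow_mul]
    congr 1
    ring
  refine ⟨_, t1, t2, t3, fun g hg => mem_normalizer_iff.2 fun a => ⟨key g hg a, fun q => ?_⟩⟩
  simpa [mul_assoc] using key _ (inv_mem hg) _ q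

/-- A Seifert piece has an order that detects the slopes of the lines and some slopes on the
other tori. -/
theorem piece (rk : Rk G X) (tf : ∀ a : G, a ≠ 1 → ¬ IsOfFinOrder a) (S : Seif V h n c tw)
    (last : ¬ Dp h (c n)) (s : ℕ → G → ℝ)
    (hs : ∀ i, Bd h n c tw i →
      Sl (closure {h, c i}) (s i) ∧ ∃ p ∈ closure {h, c i}, 0 < s i p) :
    ∃ s' : ℕ → G → ℝ, (∀ i, Bd h n c tw i → Sl (closure {h, c i}) (s' i) ∧
        (∃ p ∈ closure {h, c i}, 0 < s' i p) ∧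
        ((∃ y, Line C (closure {h, c i}) (s i) y) → s' i = s i)) ∧
      ∃ r, Ord V {f | ∃ i, Bd h n c tw i ∧ f = (closure {h, c i}, s' i)} r := by
  classical
  let Z : ℕ → Prop := fun i => ¬ ∃ y, Line C (closure {h, c i}) (s i) y
  let W : Set ℕ := {i | Bd h n c tw i ∧ (Z i ∨ s i h = 0)}
  have out : ∀ i, Bd h n c tw i → i ∉ W → s i h ≠ 0 ∧ ¬ Z i := fun i b w =>
    ⟨fun q => w ⟨b, .inr q⟩, fun q => w ⟨b, .inl q⟩⟩
  have slV : ∀ φ : G → ℝ, (∀ a ∈ V, ∀ b ∈ V, φ (a * b) = φ a + φ b) → ∀ i, Bd h n c tw i →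
      Sl (closure {h, c i}) φ := fun φ ad i b =>
    ⟨(hs i b).1.comm, fun p hp q hq => ad p (pair_le S b.1 hp) q (pair_le S b.1 hq)⟩
  by_cases two : if tw then W.Nonempty else W.Nontrivial
  · obtain ⟨π, ad, p0, pW, r, l, iv, d⟩ := ordA tf S W (fun _ w => w.1) two s
      fun i b w => ⟨(hs i b).1, (out i b w).1⟩
    refine ⟨fun i => if Z i then π else s i, fun i b => ?_, r, l, iv, ?_⟩
    · beta_reduce
      split_ifs with z
      · refine ⟨slV π ad i b, ?_, fun q => absurd q z⟩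
        rcases (pW i ⟨b, .inl z⟩).lt_or_gt with q | q
        · exact ⟨_, inv_mem (mem_r _ _), by rw [(slV π ad i b).inv (mem_r _ _)]; linarith⟩
        · exact ⟨_, mem_r _ _, q⟩
      · exact ⟨(hs i b).1, (hs i b).2, fun _ => rfl⟩
    · rintro _ ⟨i, b, rfl⟩
      by_cases w : i ∈ W
      · have d' := d _ ⟨i, b, .inl ⟨w, rfl⟩⟩
        by_cases z : Z i
        · simpa only [if_pos z] using d'
        · simpa only [if_neg z] using det_vert (S.comm b.1 b.2.1).symm (pair_le S b.1) l iv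
            (slV π ad i b) (hs i b).1 p0 (w.2.resolve_left z) (pW i w) d'
      · simpa only [if_neg (out i b w).2] using d _ ⟨i, b, .inr ⟨w, rfl⟩⟩
  have line : ∀ k ≤ n, (tw → k = 0) → (∀ i, Bd h n c tw i → ¬ Z i) → (∀ i, i ≠ k → i ∉ W) →
      ∃ r, Ord V {f | ∃ i, Bd h n c tw i ∧ f = (closure {h, c i}, s i)} r := by
    intro k hk tk nz w0
    have bn : Bd h n c tw n := ⟨le_rfl, fun q => S.pos.ne' q.2, last⟩
    obtain ⟨y0, -⟩ := not_not.1 (nz n bn)
    have : Nonempty X := ⟨y0⟩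
    choose! y hy using fun i b => not_not.1 (nz i b)
    have bd : ∀ i ≤ n, ¬ (tw ∧ i = 0) → ¬ Tor h (c i) → Bd h n c tw i := fun i a b q =>
      ⟨a, b, fun e => q ((dp_tor S.inf).1 e)⟩
    obtain ⟨r, l, iv, d⟩ := S.ord_line H rk (seif_lo tf S) s y hk tk
      (fun i a b q => ⟨(hs i (bd i a b q)).1, hy i (bd i a b q), (hs i (bd i a b q)).2⟩)
      (fun i a ne q => (out i (bd i a (fun r => ne (r.2.trans (tk r.1).symm)) q) (w0 i ne)).1)
      fun q => last ((dp_tor S.inf).2 q)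
    exact ⟨r, l, iv, fun f ⟨i, b, e⟩ =>
      d f ⟨i, b.1, b.2.1, fun q => b.2.2 ((dp_tor S.inf).2 q), e⟩⟩
  by_cases ne : W.Nonempty
  swap
  · have w0 : ∀ i, i ∉ W := fun i w => ne ⟨i, w⟩
    exact ⟨s, fun i b => ⟨(hs i b).1, (hs i b).2, fun _ => rfl⟩,
      line 0 n.zero_le (fun _ => rfl) (fun i b => (out i b (w0 i)).2) fun i _ => w0 i⟩
  cases tw with
  | true => exact absurd ne two
  | false =>
    have two' : W.Subsingleton := not_nontrivial_iff.1 two
    obtain ⟨j, w⟩ := ne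
    have oj : ∀ i, i ≠ j → i ∉ W := fun i q v => q (two' v w)
    by_cases z : Z j
    · obtain ⟨φ, ad, p1, r, l, iv, d⟩ := ordB tf S j w.1 s
        fun i b q => ⟨(hs i b).1, (out i b (oj i q)).1⟩
      refine ⟨fun i => if i = j then φ else s i, fun i b => ?_, r, l, iv, ?_⟩
      · beta_reduce
        split_ifs with q
        · exact ⟨slV φ ad i b, ⟨h, mem_l _ _, by rw [p1]; exact one_pos⟩,
            fun v => absurd (q ▸ v) z⟩
        · exact ⟨(hs i b).1, (hs i b).2, fun _ => rfl⟩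
      · rintro _ ⟨i, b, rfl⟩
        by_cases q : i = j
        · simpa only [if_pos q] using d _ ⟨i, b, .inl ⟨q, rfl⟩⟩
        · simpa only [if_neg q] using d _ ⟨i, b, .inr ⟨q, rfl⟩⟩
    · refine ⟨s, fun i b => ⟨(hs i b).1, (hs i b).2, fun _ => rfl⟩,
        line j w.1.1 (by simp) (fun i b => ?_) oj⟩
      by_cases q : i = j
      · exact q ▸ z
      · exact (out i b (oj i q)).2

omit H in
/-- A slope that kills a nontrivial element of the kernel of a broken axis is a multiple of the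
slope of the axis. -/
theorem zig_prop (rk : Rk G X) (tf : ∀ a : G, a ≠ 1 → ¬ IsOfFinOrder a) {P : Subgroup G}
    {s s' : G → ℝ} (sl : Sl P s) (sl' : Sl P s') (pos : ∃ p ∈ P, 0 < s' p)
    (one : ∃ t ∈ P, s t = 1) (int : ∀ q ∈ P, ∃ k : ℤ, s q = k) (Z : Zig C up P s) {τ : G}
    (t1 : τ ∈ P) (t2 : τ ≠ 1) (t3 : s τ = 0) (t4 : s' τ = 0) :
    ∃ t : ℝ, t ≠ 0 ∧ ∀ p ∈ P, s' p = t * s p := by
  obtain ⟨m, ν, Z⟩ := Z
  obtain ⟨u, u1, u2⟩ := one
  have ker : ∀ p ∈ P, s p = 0 → s' p = 0 := fun p hp e => by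
    obtain ⟨a, b, k, q⟩ := rk ν p τ ((Z p hp).2.1 e).2 ((Z τ t1).2.1 t3).2
    have a0 : a ≠ 0 := fun z => by
      rw [z, zpow_zero] at q
      exact tf τ t2 (isOfFinOrder_iff_zpow_eq_one.2 ⟨b, fun y => k ⟨z, y⟩, q.symm⟩)
    have := sl'.zpow hp a
    rw [q, sl'.zpow t1, t4, mul_zero] at this
    exact (mul_eq_zero.1 this.symm).resolve_left (by exact_mod_cast a0)
  have all : ∀ p ∈ P, s' p = s' u * s p := fun p hp => by
    obtain ⟨k, e⟩ := int p hp
    have := ker _ (mul_mem hp (zpow_mem u1 (-k))) (by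
      rw [sl.add _ hp _ (zpow_mem u1 _), sl.zpow u1, u2, e]
      push_cast
      ring)
    rw [sl'.add _ hp _ (zpow_mem u1 _), sl'.zpow u1] at this
    rw [e]
    push_cast at this
    linarith
  obtain ⟨p, hp, e⟩ := pos
  exact ⟨s' u, fun z => by simp [all p hp, z] at e, all⟩

end Pool.Agent.Work.MP_3d425c_gt.To.Ph
end
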