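import Pool.Agent.Work.MP_3d425c_gt.To.CvB

/-! Parent chains, and changes of gauge in a blow-up. -/

namespace Pool.Agent.Work.MP_3d425c_gt.To.Cv
open Set Filter Topology Pool.Agent.Work.MP_3d425c_gt.Cy

universe u v
variable {G : Type v} {X : Type u} [Group G] [MulAction G X] {C : Set (ℝ → X)} {up : X → X → Prop}

/-- a group of pairs whose second coordinate determines the first -/
theorem cyc_shift (R : G → ℤ → Prop) (h1 : R 1 0)
    (mul : ∀ a b m n, R a m → R b n → R (a * b) (m + n)) (inv : ∀ a m, R a m → R a⁻¹ (-m))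
    (ker : ∀ a, R a 0 → a = 1) : ∃ k : G, ∀ a m, R a m → a ∈ Subgroup.zpowers k := by
  let K : AddSubgroup ℤ :=
    { carrier := {m | ∃ a, R a m}
      add_mem' := fun ⟨a, k⟩ ⟨b, l⟩ => ⟨_, mul a b _ _ k l⟩
      zero_mem' := ⟨1, h1⟩
      neg_mem' := fun ⟨a, k⟩ => ⟨_, inv a _ k⟩ }
  obtain ⟨d, hd⟩ := Int.subgroup_cyclic K
  obtain ⟨k, hk⟩ : d ∈ K := hd ▸ AddSubgroup.subset_closure rfl
  have p : ∀ n : ℤ, R (k ^ n) (n * d) := fun n => by
    induction n using Int.induction_on with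
    | zero => simpa using h1
    | succ n ih => simpa only [zpow_add_one, add_mul, one_mul] using mul _ _ _ _ ih hk
    | pred n ih =>
      simpa only [zpow_sub_one, sub_mul, one_mul, sub_eq_add_neg, add_mul, neg_one_mul,
        zpow_add, zpow_neg_one] using mul _ _ _ _ ih (inv _ _ hk)
  refine ⟨k, fun a m e => ?_⟩
  obtain ⟨n, rfl⟩ := AddSubgroup.mem_closure_singleton.1 (hd.le (⟨a, e⟩ : m ∈ K))
  have := ker _ (by simpa using mul _ _ _ _ (inv _ _ (p n)) e)
  exact ⟨n, inv_mul_eq_one.1 this⟩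

theorem iter_smul {f : X → X} (hf : ∀ (g : G) x, f (g • x) = g • f x) (g : G) (n : ℕ) (x : X) :
    f^[n] (g • x) = g • f^[n] x := by
  induction n with
  | zero => rfl
  | succ n ih => rw [Function.iterate_succ_apply', Function.iterate_succ_apply', ih, hf]

/-- classes of a parent map have cyclic stabilisers -/
theorem cyc_par {Y : Type*} [MulAction G Y] (cy : Cyc G X) {f : X → X}
    (hf : ∀ (g : G) x, f (g • x) = g • f x)
    (fr : ∀ x, f (f x) ≠ f x → ∀ g : G, g • x = x → g = 1) {π : X → Y}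
    (sj : Function.Surjective π) (sm : ∀ (g : G) x, π (g • x) = g • π x)
    (hr : ∀ x y, π x = π y → ∃ a b : ℕ, f^[a] x = f^[b] y) : Cyc G Y := by
  intro y
  obtain ⟨x, rfl⟩ := sj y
  have ad : ∀ (a b : ℕ) (x : X), f^[a + b] x = f^[a] (f^[b] x) := fun a b x =>
    Function.iterate_add_apply f a b x
  by_cases k : ∃ n, f (f^[n] x) = f^[n] x
  · obtain ⟨n, hn⟩ := k
    refine (cy (f^[n] x)).imp fun z q g e => q g ?_
    obtain ⟨a, b, e'⟩ := hr _ _ ((sm g x).trans e)
    have := congrArg f^[n] e'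
    rwa [← ad, ← ad, add_comm n, add_comm n, ad, ad, Function.iterate_fixed hn, iter_smul hf g n,
      Function.iterate_fixed (by rw [hf, hn])] at this
  push Not at k
  obtain ⟨z, hz⟩ := cyc_shift (fun (g : G) m => ∃ a b : ℕ, f^[a] (g • x) = f^[b] x ∧ m = b - a)
    ⟨0, 0, one_smul _ _, rfl⟩ (by
      rintro g g' _ _ ⟨a, b, e, rfl⟩ ⟨a', b', e', rfl⟩
      refine ⟨a + a', b' + b, ?_, by push_cast; ring⟩
      rw [ad, mul_smul, iter_smul hf g a', e', ← iter_smul hf, ← ad, add_comm, ad, e, ad]) (by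
      rintro g _ ⟨a, b, e, rfl⟩
      exact ⟨b, a, by rw [iter_smul hf, ← e, iter_smul hf, inv_smul_smul], by ring⟩) (by
      rintro g ⟨a, b, e, q⟩
      obtain rfl : a = b := by omega
      refine fr (f^[a] x) ?_ g (by rw [← iter_smul hf, e])
      simpa only [Function.iterate_succ_apply'] using k (a + 1))
  refine ⟨z, fun g e => ?_⟩
  obtain ⟨a, b, e'⟩ := hr _ _ ((sm g x).trans e)
  exact hz g _ ⟨a, b, e', rfl⟩

variable {D : Set X}

/-- a change of gauge -/
def gauge (D : Set X) (φ : X → II ≃o II) (p : Bl D) : Bl D :=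
  ⟨(p.1.1, φ p.1.1 p.1.2), fun k => by rw [p.2 k]; exact (φ _).map_bot⟩

theorem lifts_gauge (φ : X → II ≃o II) {c τ} {a : ℝ → Bl D} (l : Lifts D c τ a) :
    Lifts D c τ fun u => gauge D φ (a u) := by
  refine ⟨l.base, fun u u' e => (l.lex u u' e).imp_right fun k => ⟨k.1, ?_⟩, fun t s k => ?_⟩
  · change φ (a u).1.1 _ < φ (a u').1.1 _
    rw [l.base, l.base, k.1]
    exact (φ _).strictMono k.2
  · obtain ⟨u, e1, e2⟩ := l.onto t ((φ (c t)).symm s) fun q => by
      rw [k q]; exact (φ _).symm.map_bot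
    refine ⟨u, e1, ?_⟩
    change φ (a u).1.1 _ = _
    rw [l.base, e1, e2, OrderIso.apply_symm_apply]

theorem gauge_mem (φ : X → II ≃o II) {a : ℝ → Bl D} (ha : a ∈ blC C D) :
    (fun u => gauge D φ (a u)) ∈ blC C D := fun t => by
  obtain ⟨_, ⟨c, hc, τ, l⟩, f, ε, hε, hm, hf, e⟩ := ha t
  exact ⟨_, ⟨c, hc, τ, lifts_gauge φ l⟩, f, ε, hε, hm, hf, fun u hu => congrArg _ (e u hu)⟩

/-- two cocycles agree up to gauge where a subgroup acts freely -/
theorem cohom {A : Type*} [Group A] (H : Subgroup G) (κ κ' : G → X → A)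
    (hκ : ∀ g g' x, κ (g * g') x = κ g (g' • x) * κ g' x)
    (hκ' : ∀ g g' x, κ' (g * g') x = κ' g (g' • x) * κ' g' x) :
    ∃ φ : X → A, ∀ x, (∀ g ∈ H, g • x = x → g = 1) →
      ∀ g ∈ H, φ (g • x) * κ g x = κ' g x * φ x := by
  have ex : ∀ x : X, ∃ r : H, (r : G) • (Quotient.mk (MulAction.orbitRel H X) x).out = x :=
    fun x => (MulAction.orbitRel H X).symm (Quotient.mk_out (s := MulAction.orbitRel H X) x)
  choose r hr using ex
  refine ⟨fun x => κ' (r x) (Quotient.mk (MulAction.orbitRel H X) x).out *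
    (κ (r x) (Quotient.mk (MulAction.orbitRel H X) x).out)⁻¹, fun x fr g hg => ?_⟩
  have q : Quotient.mk (MulAction.orbitRel H X) (g • x) = Quotient.mk _ x :=
    Quotient.sound ⟨⟨g, hg⟩, rfl⟩
  have e : (r (g • x) : G) = g * r x := by
    have k := hr (g • x)
    rw [q, ← inv_smul_eq_iff.2 (hr x).symm] at k
    have := fr (g⁻¹ * r (g • x) * (r x : G)⁻¹)
      (mul_mem (mul_mem (inv_mem hg) (r _).2) (inv_mem (r _).2))
      (by rw [mul_smul, mul_smul, k, inv_smul_smul])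
    rw [mul_inv_eq_one, inv_mul_eq_iff_eq_mul] at this
    exact this
  simp only [q, e, hκ, hκ', hr]
  group

end Pool.Agent.Work.MP_3d425c_gt.To.Cv
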