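import Pool.Agent.Work.MP_3d425c_gt.Cy.U2

/-! Chains of arrows and moves for an arbitrary group of moves. -/

namespace Pool.Agent.Work.MP_3d425c_gt.To.Tg
open Set Pool.Agent.Work.MP_3d425c_gt.Cy

variable {G : Type*} [Group G] {A : Type*} [Group A]

/-- Two elements of one cyclic subgroup. -/
def Cyc2 (a b : G) : Prop := ∃ (z : G) (m n : ℤ), a = z ^ m ∧ b = z ^ n

/-- The groupoid generated by the arrows `O` and the moves `ρ p` with label `lab p`. -/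
inductive Rl (O : G → II → II → Prop) (lab : A →* G) (ρ : A →* (II ≃o II)) :
    G → II → II → Prop
  | arr {b s t} : O b s t → Rl O lab ρ b s t
  | mv (p : A) {s} : s < 1 → Rl O lab ρ (lab p) s (ρ p s)
  | comp {a b s t u} : Rl O lab ρ a s t → Rl O lab ρ b t u → Rl O lab ρ (b * a) s u

/-- Chains with `n` moves, all of whose ends avoid `P`. -/
def Cn (O : G → II → II → Prop) (lab : A →* G) (ρ : A →* (II ≃o II)) (P : Set II) :
    ℕ → G → II → II → Prop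
  | 0, γ, s, s' => O γ s s'
  | n + 1, γ, s, s' => ∃ (b : G) (t : II) (p : A) (γ' : G), O b s t ∧ t ∉ P ∧ ρ p t ∉ P ∧
      Cn O lab ρ P n γ' (ρ p t) s' ∧ γ = γ' * lab p * b

/-- The action of the moves: `τ` acts as the arrow `T`, and the action is free off the fixed
points of `T`, which are fixed by all moves. -/
structure Mv (O : G → II → II → Prop) (lab : A →* G) (τ : A) (T : II ≃o II)
    (ρ : A →* (II ≃o II)) : Prop where
  ne : lab τ ≠ 1
  arr : ∀ s, s < 1 → O (lab τ) s (T s)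
  eq : ρ τ = T
  fix : ∀ p t, T t = t → ρ p t = t
  free : ∀ p t, ρ p t = t → p = 1 ∨ T t = t

variable {O : G → II → II → Prop} {lab : A →* G} {ρ : A →* (II ≃o II)} {τ : A} {T : II ≃o II}

theorem Cyc2.comm {a b : G} (h : Cyc2 a b) : a * b = b * a := by
  obtain ⟨z, m, n, rfl, rfl⟩ := h
  exact (Commute.zpow_zpow_self z m n).eq

theorem Cyc2.conj {a b : G} (c : G) (h : Cyc2 (c * a * c⁻¹) (c * b * c⁻¹)) : Cyc2 a b := by
  obtain ⟨z, m, n, h1, h2⟩ := h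
  refine ⟨c⁻¹ * z * c⁻¹⁻¹, m, n, ?_, ?_⟩
  · rw [conj_zpow, ← h1]; group
  · rw [conj_zpow, ← h2]; group

theorem tg_mul (ρ : A →* (II ≃o II)) (p q : A) (x : II) : ρ p (ρ q x) = ρ (p * q) x := by
  rw [map_mul]; rfl

theorem tg_one (ρ : A →* (II ≃o II)) (x : II) : ρ 1 x = x := by
  rw [map_one]; rfl

theorem tg_lt1 (φ : II ≃o II) {s : II} (hs : s < 1) : φ s < 1 :=
  (φ.strictMono hs).trans_le unitInterval.le_one'

theorem Mv.pow (M : Mv O lab τ T ρ) (m : ℤ) : T ^ m = ρ (τ ^ m) := by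
  rw [map_zpow, M.eq]

theorem Cn.anti {P Q : Set II} (hPQ : P ⊆ Q) {n γ s s'} (h : Cn O lab ρ Q n γ s s') :
    Cn O lab ρ P n γ s s' := by
  induction n generalizing γ s with
  | zero => exact h
  | succ n ih =>
    obtain ⟨b, t, i, γ', h1, h2, h3, h4, h5⟩ := h
    exact ⟨b, t, i, γ', h1, fun e => h2 (hPQ e), fun e => h3 (hPQ e), ih h4, h5⟩

theorem tg_lt (hO : Grpd O) {P : Set II} {n a s t} (h : Cn O lab ρ P n a s t) : s < 1 := by
  cases n with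
  | zero => exact hO.lt1 _ _ _ h
  | succ n =>
    obtain ⟨b, t, -, -, h1, -⟩ := h
    exact hO.lt1 _ _ _ h1

theorem tg_mv (hO : Grpd O) {P : Set II} (p : A) {s : II} (hs : s < 1) (h1 : s ∉ P)
    (h2 : ρ p s ∉ P) : Cn O lab ρ P 1 (lab p) s (ρ p s) :=
  ⟨1, s, p, 1, hO.one s hs, h1, h2, hO.one _ (tg_lt1 _ hs), by rw [one_mul, mul_one]⟩

theorem Cn.comp (hO : Grpd O) {P : Set II} {n m a b s t u} (h1 : Cn O lab ρ P n a s t)
    (h2 : Cn O lab ρ P m b t u) : Cn O lab ρ P (n + m) (b * a) s u := by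
  induction n generalizing a s with
  | zero =>
    rw [Nat.zero_add]
    cases m with
    | zero => exact hO.mul _ _ _ _ _ h1 h2
    | succ m =>
      obtain ⟨c, t', i, γ', k1, k2, k3, k4, rfl⟩ := h2
      exact ⟨c * a, t', i, γ', hO.mul _ _ _ _ _ h1 k1, k2, k3, k4, mul_assoc _ _ _⟩
  | succ n ih =>
    obtain ⟨c, t', i, γ', k1, k2, k3, k4, rfl⟩ := h1
    rw [Nat.add_right_comm]
    exact ⟨c, t', i, b * γ', k1, k2, k3, ih k4, by simp only [mul_assoc]⟩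

theorem Cn.symm (hO : Grpd O) {P : Set II} {n a s t} (h1 : Cn O lab ρ P n a s t) :
    Cn O lab ρ P n a⁻¹ t s := by
  induction n generalizing a s with
  | zero => exact hO.inv _ _ _ h1
  | succ n ih =>
    obtain ⟨c, t', i, γ', k1, k2, k3, k4, rfl⟩ := h1
    have e : ρ i⁻¹ (ρ i t') = t' := by rw [tg_mul, inv_mul_cancel, tg_one]
    have k5 := tg_mv (lab := lab) (ρ := ρ) hO i⁻¹ (tg_lt hO k4) k3 (by rwa [e])
    rw [e] at k5
    have k6 := ((ih k4).comp hO k5).comp hO (m := 0) (hO.inv _ _ _ k1)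
    rw [mul_inv_rev, mul_inv_rev, ← map_inv]
    exact k6

theorem rl_iff (hO : Grpd O) {a s t} : Rl O lab ρ a s t ↔ ∃ n, Cn O lab ρ ∅ n a s t := by
  constructor
  · intro h
    induction h with
    | arr h => exact ⟨0, h⟩
    | mv i h => exact ⟨1, tg_mv hO i h id id⟩
    | comp _ _ h1 h2 =>
      obtain ⟨n, h1⟩ := h1
      obtain ⟨m, h2⟩ := h2
      exact ⟨_, h1.comp hO h2⟩
  · rintro ⟨n, h⟩
    induction n generalizing a s with
    | zero => exact .arr h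
    | succ n ih =>
      obtain ⟨c, t', i, γ', k1, -, -, k4, rfl⟩ := h
      rw [mul_assoc]
      exact ((Rl.arr k1).comp (.mv i (hO.lt1 _ _ _ (hO.inv _ _ _ k1)))).comp (ih k4)

theorem Cn.rl (hO : Grpd O) {P : Set II} {n a s t} (h : Cn O lab ρ P n a s t) :
    Rl O lab ρ a s t := (rl_iff hO).2 ⟨n, h.anti (empty_subset _)⟩

theorem Rl.symm (hO : Grpd O) {a s t} (h : Rl O lab ρ a s t) : Rl O lab ρ a⁻¹ t s := by
  obtain ⟨n, h⟩ := (rl_iff hO).1 h
  exact (h.symm hO).rl hO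

theorem Rl.lt1 (hO : Grpd O) {a s t} (h : Rl O lab ρ a s t) : s < 1 := by
  obtain ⟨n, h⟩ := (rl_iff hO).1 h
  exact tg_lt hO h

/-- Powers of `T` are arrows. -/
theorem Mv.arrs (M : Mv O lab τ T ρ) (hO : Grpd O) (m : ℤ) :
    ∀ t, t < 1 → O (lab (τ ^ m)) t (ρ (τ ^ m) t) := by
  rw [← M.pow, map_zpow]
  induction m using Int.induction_on with
  | zero =>
    rw [zpow_zero, zpow_zero]
    exact hO.one
  | succ n ih =>
    intro t ht
    rw [zpow_add_one, zpow_add_one]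
    exact hO.mul _ _ _ _ _ (M.arr t ht) (ih _ (tg_lt1 _ ht))
  | pred n ih =>
    intro t ht
    rw [zpow_sub_one, zpow_sub_one]
    have h1 : T⁻¹ t < 1 := tg_lt1 _ ht
    have h2 := hO.inv _ _ _ (M.arr _ h1)
    rw [RelIso.apply_inv_self] at h2
    exact hO.mul _ _ _ _ _ h2 (ih _ h1)

theorem Mv.ob (M : Mv O lab τ T ρ) {x t : II} (h : x ∈ orb T t) : ∃ m : ℤ, x = ρ (τ ^ m) t := by
  obtain ⟨m, e⟩ := h
  exact ⟨m, by rw [e, M.pow]⟩

/-- In a shortest nontrivial loop the orbit of the first incidence is not met again. -/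
theorem tg_short (M : Mv O lab τ T ρ) (hO : Grpd O) {n : ℕ} {s t : II} {b γ' : G} {i : A}
    (hsh : ∀ s' δ n', Cn O lab ρ ∅ n' δ s s' → ∀ m ≤ n, ∀ a, Cn O lab ρ ∅ m a s' s' → a = 1)
    (hb : O b s t) (hc : Cn O lab ρ ∅ n γ' (ρ i t) s) (hne : γ' * lab i * b ≠ 1) :
    T t ≠ t ∧ ρ i t ∉ orb T t ∧
      ¬ ∃ (n₁ n₂ : ℕ) (γ₁ γ₂ : G) (j : A) (y : II), n₁ + n₂ + 1 = n ∧
        Cn O lab ρ ∅ n₁ γ₁ (ρ i t) y ∧ Cn O lab ρ ∅ n₂ γ₂ (ρ j y) s ∧
        γ' = γ₂ * lab j * γ₁ ∧ (y ∈ orb T t ∨ ρ j y ∈ orb T t) := by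
  have t1 : t < 1 := hO.lt1 _ _ _ (hO.inv _ _ _ hb)
  have h1 : T t ≠ t := fun e => by
    have a := M.arr t t1
    rw [e] at a
    exact M.ne (hsh t b 0 hb 0 n.zero_le _ a)
  have mv : ∀ (j : A) {x : II}, x < 1 → Cn O lab ρ ∅ 1 (lab j) x (ρ j x) := fun j _ hx =>
    tg_mv hO j hx id id
  have c0 : Cn O lab ρ ∅ 0 b s t := hb
  have s0 : Cn O lab ρ ∅ 0 1 s s := hO.one s (hO.lt1 _ _ _ hb)
  have ar : ∀ m : ℤ, Cn O lab ρ ∅ 0 (lab (τ ^ m)) t (ρ (τ ^ m) t) := fun m => M.arrs hO m t t1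
  refine ⟨h1, fun h => ?_, ?_⟩
  · obtain ⟨m, e⟩ := M.ob h
    have e2 : ρ ((τ ^ m)⁻¹ * i) t = t := by
      rw [← tg_mul, e, tg_mul, inv_mul_cancel, tg_one]
    have him : i = τ ^ m := (inv_mul_eq_one.1 ((M.free _ _ e2).resolve_right h1)).symm
    subst him
    refine hne ?_
    rw [mul_assoc]
    exact hsh s 1 0 s0 _ (by omega) _ ((c0.comp hO (ar m)).comp hO hc)
  · rintro ⟨n₁, n₂, γ₁, γ₂, j, y, hn, c1, c2, rfl, h | h⟩
    · obtain ⟨m, rfl⟩ := M.ob h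
      have a := hsh t b 0 hb _ (by omega) _ (((mv i t1).comp hO c1).comp hO ((ar m).symm hO))
      have a' := hsh s 1 0 s0 _ (by omega) _
        (((c0.comp hO (ar m)).comp hO (mv j (tg_lt1 _ t1))).comp hO c2)
      rw [inv_mul_eq_one] at a
      refine hne ?_
      rw [a] at a'
      simpa only [mul_assoc] using a'
    · obtain ⟨m, e⟩ := M.ob h
      have e2 : ρ (i * (τ ^ m)⁻¹ * j) y = ρ i t := by
        rw [← tg_mul, e, tg_mul, inv_mul_cancel_right]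
      have c3 := mv (i * (τ ^ m)⁻¹ * j) (tg_lt hO (c1.symm hO))
      rw [e2] at c3
      rw [e] at c2
      have a := hsh _ _ _ (c0.comp hO (mv i t1)) _ (by omega) _ (c1.comp hO c3)
      have a' := hsh s 1 0 s0 _ (by omega) _ ((c0.comp hO (ar m)).comp hO c2)
      refine hne ?_
      rw [eq_inv_of_mul_eq_one_right a, ← a', map_mul, map_mul, map_inv]
      group

/-- Two loops lie in a cyclic group or are carried by `Q` to a pair with property `B`. -/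
def Sm {α : Type*} (Q : G → α → α → Prop) (B : G → G → α → Prop) (a b : G) (s : α) : Prop :=
  Cyc2 a b ∨ ∃ c u, Q c s u ∧ B (c * a * c⁻¹) (c * b * c⁻¹) u

theorem Sm.pull {α : Type*} {Q : G → α → α → Prop} {B : G → G → α → Prop}
    (hQ : ∀ a b s t u, Q a s t → Q b t u → Q (b * a) s u) {a b l : G} {s q : α} (hl : Q l s q)
    (h : Sm Q B (l * a * l⁻¹) (l * b * l⁻¹) q) : Sm Q B a b s := by
  rcases h with h | ⟨c, u, h1, h2⟩
  · exact Or.inl (h.conj l)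
  · refine Or.inr ⟨c * l, u, hQ _ _ _ _ _ hl h1, ?_⟩
    rwa [show c * l * a * (c * l)⁻¹ = c * (l * a * l⁻¹) * c⁻¹ by group,
      show c * l * b * (c * l)⁻¹ = c * (l * b * l⁻¹) * c⁻¹ by group]

/-- The case of a trivial vertex group at the source. -/
theorem tg_arrow {α : Type*} (R Q : G → α → α → Prop) (B : G → G → α → Prop)
    (hmul : ∀ a b s t u, R a s t → R b t u → R (b * a) s u)
    (hinv : ∀ a s t, R a s t → R a⁻¹ t s)
    (hQ : ∀ a b s t u, Q a s t → Q b t u → Q (b * a) s u) (hRQ : ∀ a s t, R a s t → Q a s t)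
    (hab : ∀ a b s, R a s s → R b s s → Sm Q B a b s) {p q : α} (w : G) (hw : Q w p q)
    (hp1 : R 1 p p) (hq1 : R 1 q q) (hp : ∀ a, R a p p → a = 1) :
    ∃ J : G → α → α → Prop, (∀ a s t, R a s t → J a s t) ∧ J w p q ∧ J w⁻¹ q p ∧
      (∀ a b s t u, J a s t → J b t u → J (b * a) s u) ∧
      ∀ a b s, J a s s → J b s s → Sm Q B a b s := by
  obtain ⟨H, hc, h1, h2⟩ : ∃ H : Subgroup G, (∀ x ∈ H, ∀ y ∈ H, Sm Q B x y q) ∧
      (∀ a, R a q q → a ∈ H) ∧ ∀ d, R d q p → w * d ∈ H := by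
    by_cases h : ∃ d, R d q p
    · obtain ⟨d, hd⟩ := h
      refine ⟨Subgroup.zpowers (w * d), ?_, fun a ha => ?_, fun d' hd' => ?_⟩
      · rintro _ ⟨i, rfl⟩ _ ⟨j, rfl⟩
        exact Or.inl ⟨_, i, j, rfl, rfl⟩
      · have h3 := hp _ (hmul _ _ _ _ _ (hmul _ _ _ _ _ (hinv _ _ _ hd) ha) hd)
        have h4 : a = 1 := by
          calc a = d⁻¹ * (d * (a * d⁻¹)) * d := by group
            _ = 1 := by rw [h3]; group
        rw [h4]
        exact one_mem _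
      · rw [mul_inv_eq_one.1 (hp _ (hmul _ _ _ _ _ (hinv _ _ _ hd) hd'))]
        exact Subgroup.mem_zpowers _
    · exact ⟨{ carrier := {a | R a q q}
               mul_mem' := fun ha hb => hmul _ _ _ _ _ hb ha
               one_mem' := hq1
               inv_mem' := fun ha => hinv _ _ _ ha },
        fun x hx y hy => hab x y q hx hy, fun a ha => ha, fun d hd => absurd ⟨d, hd⟩ h⟩
  let C : α → G → Prop := fun s l => R l s q ∨ ∃ a, R a s p ∧ l = w * a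
  have K0 : ∀ s l, C s l → Q l s q := by
    rintro s l (hl | ⟨a, ha, rfl⟩)
    · exact hRQ _ _ _ hl
    · exact hQ _ _ _ _ _ (hRQ _ _ _ ha) hw
  have K1 : ∀ s l l', C s l → C s l' → l' * l⁻¹ ∈ H := by
    have m : ∀ s l a, R l s q → R a s p → w * a * l⁻¹ ∈ H := fun s l a hl ha => by
      rw [mul_assoc]
      exact h2 _ (hmul _ _ _ _ _ (hinv _ _ _ hl) ha)
    rintro s l l' (hl | ⟨a, ha, rfl⟩) (hl' | ⟨a', ha', rfl⟩)
    · exact h1 _ (hmul _ _ _ _ _ (hinv _ _ _ hl) hl')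
    · exact m _ _ _ hl ha'
    · have := inv_mem (m _ _ _ hl' ha)
      rwa [mul_inv_rev, inv_inv] at this
    · rw [mul_inv_eq_one.1 (hp _ (hmul _ _ _ _ _ (hinv _ _ _ ha) ha')), mul_inv_cancel]
      exact one_mem _
  have K2 : ∀ g s t l, R g s t → C t l → C s (l * g) := by
    rintro g s t l hg (hl | ⟨a, ha, rfl⟩)
    · exact Or.inl (hmul _ _ _ _ _ hg hl)
    · exact Or.inr ⟨a * g, hmul _ _ _ _ _ hg ha, mul_assoc _ _ _⟩
  have Cp : C p w := Or.inr ⟨1, hp1, (mul_one w).symm⟩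
  have Cq : C q 1 := Or.inl hq1
  have K3 : ∀ s l₀ g, C s l₀ → (R g s s ∨ ∃ l l₂, C s l ∧ C s l₂ ∧ l₂ * g * l⁻¹ ∈ H) →
      l₀ * g * l₀⁻¹ ∈ H := by
    rintro s l₀ g h0 (hg | ⟨l, l₂, hl, hl₂, hm⟩)
    · exact K1 _ _ _ h0 (K2 _ _ _ _ hg h0)
    · have := mul_mem (mul_mem (K1 _ _ _ hl₂ h0) hm) (K1 _ _ _ h0 hl)
      rwa [show l₀ * l₂⁻¹ * (l₂ * g * l⁻¹) * (l * l₀⁻¹) = l₀ * g * l₀⁻¹ by group] at this
  have K4 : ∀ s l₀ a b, C s l₀ → (R a s s ∨ ∃ l l₂, C s l ∧ C s l₂ ∧ l₂ * a * l⁻¹ ∈ H) →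
      (R b s s ∨ ∃ l l₂, C s l ∧ C s l₂ ∧ l₂ * b * l⁻¹ ∈ H) → Sm Q B a b s :=
    fun s l₀ a b h0 ha hb => Sm.pull hQ (K0 _ _ h0) (hc _ (K3 _ _ _ h0 ha) _ (K3 _ _ _ h0 hb))
  refine ⟨fun g s t => R g s t ∨ ∃ l l₂, C s l ∧ C t l₂ ∧ l₂ * g * l⁻¹ ∈ H,
    fun a s t h => Or.inl h, Or.inr ⟨w, 1, Cp, Cq, ?_⟩, Or.inr ⟨1, w, Cq, Cp, ?_⟩, ?_, ?_⟩
  · rw [one_mul, mul_inv_cancel]
    exact one_mem _
  · rw [mul_inv_cancel, inv_one, mul_one]
    exact one_mem _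
  · rintro a b s t u (ha | ⟨l, l₂, hl, hl₂, hm⟩) (hb | ⟨m, m₂, hk, hk₂, hn⟩)
    · exact Or.inl (hmul _ _ _ _ _ ha hb)
    · refine Or.inr ⟨m * a, m₂, K2 _ _ _ _ ha hk, hk₂, ?_⟩
      rwa [show m₂ * (b * a) * (m * a)⁻¹ = m₂ * b * m⁻¹ by group]
    · refine Or.inr ⟨l, l₂ * b⁻¹, hl, K2 _ _ _ _ (hinv _ _ _ hb) hl₂, ?_⟩
      rwa [show l₂ * b⁻¹ * (b * a) * l⁻¹ = l₂ * a * l⁻¹ by group]
    · refine Or.inr ⟨l, m₂, hl, hk₂, ?_⟩
      have := mul_mem (mul_mem hn (K1 _ _ _ hl₂ hk)) hm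
      rwa [show m₂ * b * m⁻¹ * (m * l₂⁻¹) * (l₂ * a * l⁻¹) = m₂ * (b * a) * l⁻¹ by group] at this
  · rintro a b s (ha | ⟨l, l₂, hl, h⟩) hb
    · rcases hb with hb | ⟨l, l₂, hl, h⟩
      · exact hab _ _ _ ha hb
      · exact K4 s l a b hl (Or.inl ha) (Or.inr ⟨l, l₂, hl, h⟩)
    · exact K4 s l a b hl (Or.inr ⟨l, l₂, hl, h⟩) hb

/-- Adding one arrow to a groupoid, the vertex group being trivial at one of its ends. -/
theorem tg_one_arrow {α : Type*} (R Q : G → α → α → Prop) (B : G → G → α → Prop)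
    (hmul : ∀ a b s t u, R a s t → R b t u → R (b * a) s u)
    (hinv : ∀ a s t, R a s t → R a⁻¹ t s)
    (hQ : ∀ a b s t u, Q a s t → Q b t u → Q (b * a) s u) (hRQ : ∀ a s t, R a s t → Q a s t)
    (hab : ∀ a b s, R a s s → R b s s → Sm Q B a b s) {p q : α} (w : G) (hw : Q w p q)
    (hw' : Q w⁻¹ q p) (hp1 : R 1 p p) (hq1 : R 1 q q)
    (hp : (∀ a, R a p p → a = 1) ∨ ∀ a, R a q q → a = 1) :
    ∃ J : G → α → α → Prop, (∀ a s t, R a s t → J a s t) ∧ J w p q ∧ J w⁻¹ q p ∧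
      (∀ a b s t u, J a s t → J b t u → J (b * a) s u) ∧
      ∀ a b s, J a s s → J b s s → Sm Q B a b s := by
  rcases hp with hp | hq
  · exact tg_arrow R Q B hmul hinv hQ hRQ hab w hw hp1 hq1 hp
  · obtain ⟨J, h1, h2, h3, h4⟩ := tg_arrow R Q B hmul hinv hQ hRQ hab w⁻¹ hw' hq1 hp1 hq
    exact ⟨J, h1, inv_inv w ▸ h3, h2, h4⟩

/-- A relation that is closed under products and contains arrows and moves contains chains. -/
theorem tg_sub (hO : Grpd O) {P : Set II} (J : G → II → II → Prop)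
    (hmul : ∀ a b s t u, J a s t → J b t u → J (b * a) s u) (h0 : ∀ b s t, O b s t → J b s t)
    (hmv : ∀ t (i : A), t < 1 → t ∉ P → ρ i t ∉ P → J (lab i) t (ρ i t)) (n : ℕ) :
    ∀ γ s s', Cn O lab ρ P n γ s s' → J γ s s' := by
  induction n with
  | zero => exact h0
  | succ n ih =>
    rintro γ s s' ⟨b, t, i, γ', h1, h2, h3, h4, rfl⟩
    rw [mul_assoc]
    exact hmul _ _ _ _ _ (hmul _ _ _ _ _ (h0 _ _ _ h1)
      (hmv t i (hO.lt1 _ _ _ (hO.inv _ _ _ h1)) h2 h3)) (ih _ _ _ h4)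

theorem tg_fin (T : II ≃o II) (n : ℕ) : ∀ γ s s', Cn O lab ρ ∅ n γ s s' →
    ∃ E : List II, Cn O lab ρ (ccP T E) n γ s s' := by
  induction n with
  | zero => exact fun γ s s' h => ⟨[], h⟩
  | succ n ih =>
    rintro γ s s' ⟨b, t, i, γ', h1, -, -, h4, rfl⟩
    obtain ⟨E, hE⟩ := ih _ _ _ h4
    refine ⟨t :: ρ i t :: E, b, t, i, γ', h1, ccP_cons.2 (Or.inr ⟨0, rfl⟩),
      ccP_cons.2 (Or.inl (ccP_cons.2 (Or.inr ⟨0, rfl⟩))), hE.anti fun x hx => ?_, rfl⟩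
    by_contra h
    exact ccP_cons.2 (Or.inl (ccP_cons.2 (Or.inl h))) hx

/-- The label of `τ` has an abelian malnormal centraliser, which contains all moves. -/
structure Cs (lab : A →* G) (τ : A) : Prop where
  cm : ∀ p, lab p * lab τ = lab τ * lab p
  ct : ∀ a c : G, a * lab τ = lab τ * a → c * lab τ = lab τ * c → a * c = c * a
  mn : ∀ γ : G, γ * lab τ * γ⁻¹ * lab τ = lab τ * (γ * lab τ * γ⁻¹) → γ * lab τ = lab τ * γ

/-- Two old loops, or old loops times moves at a fixed point of `T`. -/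
def Bs (O : G → II → II → Prop) (lab : A →* G) (T : II ≃o II) (a b : G) (u : II) : Prop :=
  ∃ p q x y, O x u u ∧ O y u u ∧ a = lab p * x ∧ b = lab q * y ∧ (T u = u ∨ p = 1 ∧ q = 1)

/-- Moves only at fixed points. -/
theorem tg_base (M : Mv O lab τ T ρ) (S : Cs lab τ) (hO : Grpd O) {a b : G} {s : II} {n m : ℕ}
    (ha : Cn O lab ρ (ccP T []) n a s s) (hb : Cn O lab ρ (ccP T []) m b s s) :
    Sm (Rl O lab ρ) (Bs O lab T) a b s := by
  have cj : ∀ c x s t, O c s t → O x s s → O (c * x * c⁻¹) t t := fun c x s t hc hx => by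
    rw [mul_assoc]
    exact hO.mul _ _ _ _ _ (hO.mul _ _ _ _ _ (hO.inv _ _ _ hc) hx) hc
  have lp : ∀ u, u < 1 → T u = u → O (lab τ) u u := fun u h1 h2 => by
    have := M.arr u h1
    rwa [h2] at this
  have cm : ∀ c u v p, O c u v → T u = u → T v = v → c * lab p = lab p * c := by
    intro c u v p hc hu hv
    have k1 := lp u (hO.lt1 _ _ _ hc) hu
    have k2 := lp v (hO.lt1 _ _ _ (hO.inv _ _ _ hc)) hv
    exact S.ct _ _ (S.mn c (hO.ab _ _ _ (cj _ _ _ _ hc k1) k2)) (S.cm p)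
  let J : G → II → II → Prop := fun γ s t => O γ s t ∨
    ∃ u c d p, T u = u ∧ O c s u ∧ O d u t ∧ γ = d * lab p * c
  have key := tg_sub (lab := lab) (ρ := ρ) (P := ccP T []) hO J (by
    rintro a b s t u (ha | ⟨v, c, d, p, h1, h2, h3, rfl⟩) (hb | ⟨v', c', d', p', h4, h5, h6, rfl⟩)
    · exact Or.inl (hO.mul _ _ _ _ _ ha hb)
    · exact Or.inr ⟨v', c' * a, d', p', h4, hO.mul _ _ _ _ _ ha h5, h6, by group⟩
    · exact Or.inr ⟨v, c, b * d, p, h1, h2, hO.mul _ _ _ _ _ h3 hb, by group⟩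
    · have k := hO.mul _ _ _ _ _ h3 h5
      refine Or.inr ⟨v, c, d' * (c' * d), p' * p, h1, h2, hO.mul _ _ _ _ _ k h6, ?_⟩
      calc d' * lab p' * c' * (d * lab p * c) = d' * (lab p' * (c' * d)) * lab p * c := by group
        _ = _ := by rw [← cm _ _ _ p' k h1 h4, map_mul]; group)
    (fun b s t h => Or.inl h) (by
    intro t i ht h1 _
    have h2 : T t = t := (not_not.1 h1).resolve_right fun ⟨e, he, _⟩ => List.not_mem_nil he
    rw [M.fix i t h2]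
    exact Or.inr ⟨t, 1, 1, i, h2, hO.one t ht, hO.one t ht, by group⟩)
  have fin : ∀ u c γ, T u = u → O c s u → J γ s s → ∃ p x, O x u u ∧ c * γ * c⁻¹ = lab p * x := by
    rintro u c γ hu hc (h | ⟨v, c', d, p, h1, h2, h3, rfl⟩)
    · exact ⟨1, _, cj _ _ _ _ hc h, by rw [map_one, one_mul]⟩
    · have k1 := hO.mul _ _ _ _ _ h3 hc
      have k2 := hO.mul _ _ _ _ _ (hO.inv _ _ _ hc) h2
      refine ⟨p, _, hO.mul _ _ _ _ _ k2 k1, ?_⟩
      calc c * (d * lab p * c') * c⁻¹ = c * d * lab p * (c' * c⁻¹) := by group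
        _ = _ := by rw [cm _ _ _ p k1 h1 hu]; group
  have two : ∀ u c, T u = u → O c s u → Sm (Rl O lab ρ) (Bs O lab T) a b s := by
    intro u c hu hc
    obtain ⟨p, x, h1, h2⟩ := fin u c a hu hc (key _ _ _ _ ha)
    obtain ⟨q, y, h3, h4⟩ := fin u c b hu hc (key _ _ _ _ hb)
    exact Or.inr ⟨c, u, .arr hc, p, q, x, y, h1, h3, h2, h4, Or.inl hu⟩
  rcases key _ _ _ _ ha with h | ⟨u, c, -, -, h1, h2, -⟩
  · rcases key _ _ _ _ hb with h' | ⟨u, c, -, -, h1, h2, -⟩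
    · exact Or.inr ⟨1, s, .arr (hO.one s (hO.lt1 _ _ _ h)), 1, 1, a, b, h, h', by simp, by simp,
        Or.inr ⟨rfl, rfl⟩⟩
    · exact two u c h1 h2
  · exact two u c h1 h2

/-- The star condition determines all vertex groups. -/
theorem tg_star (M : Mv O lab τ T ρ) (S : Cs lab τ) (hO : Grpd O)
    (hstar : ∀ (e : II) (i : A), T e ≠ e → ρ i e ∉ orb T e →
      ∀ n a n' a', Cn O lab ρ (orb T e) n a e e →
        Cn O lab ρ (orb T e) n' a' (ρ i e) (ρ i e) → a = 1 ∨ a' = 1)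
    {s : II} {a b : G} (ha : Rl O lab ρ a s s) (hb : Rl O lab ρ b s s) :
    Sm (Rl O lab ρ) (Bs O lab T) a b s := by
  have main : ∀ (E : List II) (a b : G) (s : II), (∃ n, Cn O lab ρ (ccP T E) n a s s) →
      (∃ n, Cn O lab ρ (ccP T E) n b s s) → Sm (Rl O lab ρ) (Bs O lab T) a b s := by
    intro E
    induction E with
    | nil => exact fun a b s ⟨n, ha⟩ ⟨m, hb⟩ => tg_base M S hO ha hb
    | cons e E ih =>
      by_cases he : e ∈ ccP T E
      swap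
      · have sub : ccP T E ⊆ ccP T (e :: E) := fun x hx => by
          by_contra h
          rcases ccP_cons.1 h with h | ⟨m, rfl⟩
          exacts [h hx, ccP_zpow he m hx]
        exact fun a b s ⟨n, ha⟩ ⟨m, hb⟩ => ih a b s ⟨n, ha.anti sub⟩ ⟨m, hb.anti sub⟩
      have sub : orb T e ⊆ ccP T E := by
        rintro _ ⟨m, rfl⟩
        by_contra h
        have := ccP_zpow h (-m)
        rw [cc_add, neg_add_cancel] at this
        exact this he
      have hne : T e ≠ e := fun h => he (Or.inl h)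
      have he1 : e < 1 := lt_top_iff_ne_top.2 fun h => hne (by rw [h]; exact map_top _)
      have Rm : ∀ a b s t u, (∃ n, Cn O lab ρ (ccP T E) n a s t) →
          (∃ n, Cn O lab ρ (ccP T E) n b t u) → ∃ n, Cn O lab ρ (ccP T E) n (b * a) s u :=
        fun a b s t u ⟨n, h⟩ ⟨m, h'⟩ => ⟨n + m, h.comp hO h'⟩
      obtain ⟨J, J1, J2, J3, J4⟩ : ∃ J : G → II → II → Prop,
          (∀ a s t, (∃ n, Cn O lab ρ (ccP T E) n a s t) → J a s t) ∧
          (∀ a b s t u, J a s t → J b t u → J (b * a) s u) ∧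
          (∀ a b s, J a s s → J b s s → Sm (Rl O lab ρ) (Bs O lab T) a b s) ∧
          ∀ j : A, ρ j e ∉ ccP T E → J (lab j) e (ρ j e) ∧ J (lab j⁻¹) (ρ j e) e := by
        by_cases h : ∃ i : A, ρ i e ∉ ccP T E
        swap
        · exact ⟨_, fun _ _ _ h => h, Rm, ih, fun j hj => absurd ⟨j, hj⟩ h⟩
        obtain ⟨i, hi⟩ := h
        obtain ⟨J, J1, J2, J3, J4, J5⟩ := tg_one_arrow
          (fun a s t => ∃ n, Cn O lab ρ (ccP T E) n a s t) (Rl O lab ρ) (Bs O lab T) Rm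
          (fun a s t ⟨n, h⟩ => ⟨n, h.symm hO⟩) (fun _ _ _ _ _ => Rl.comp)
          (fun a s t ⟨n, h⟩ => h.rl hO) ih (p := e) (q := ρ i e) (lab i) (.mv i he1)
          ((Rl.mv i he1).symm hO) ⟨0, hO.one _ he1⟩ ⟨0, hO.one _ (tg_lt1 _ he1)⟩ (by
            by_contra hc
            rw [not_or, not_forall, not_forall] at hc
            obtain ⟨⟨a, ha⟩, a', ha'⟩ := hc
            rw [Classical.not_imp] at ha ha'
            obtain ⟨⟨n, h1⟩, h2⟩ := ha
            obtain ⟨⟨n', h3⟩, h4⟩ := ha'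
            exact (hstar e i hne (fun h => hi (sub h)) n a n' a' (h1.anti sub)
              (h3.anti sub)).elim h2 h4)
        refine ⟨J, J1, J4, J5, fun j hj => ⟨?_, ?_⟩⟩
        · have h1 : ρ (j * i⁻¹) (ρ i e) = ρ j e := by rw [tg_mul, inv_mul_cancel_right]
          have h2 := tg_mv (lab := lab) hO (j * i⁻¹) (tg_lt1 _ he1) hi (h1 ▸ hj)
          rw [h1] at h2
          have := J4 _ _ _ _ _ J2 (J1 _ _ _ ⟨1, h2⟩)
          rwa [← map_mul, inv_mul_cancel_right] at this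
        · have h1 : ρ (i * j⁻¹) (ρ j e) = ρ i e := by rw [tg_mul, inv_mul_cancel_right]
          have h2 := tg_mv (lab := lab) hO (i * j⁻¹) (tg_lt1 _ he1) hj (h1 ▸ hi)
          rw [h1] at h2
          have := J4 _ _ _ _ _ (J1 _ _ _ ⟨1, h2⟩) J3
          rwa [← map_inv, ← map_mul, inv_mul_cancel_left] at this
      have J0 : ∀ b s t, O b s t → J b s t := fun b s t h => J1 _ _ _ ⟨0, h⟩
      have key := tg_sub (lab := lab) (ρ := ρ) (P := ccP T (e :: E)) hO J J2 J0 (by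
        intro t i ht h1 h2
        rcases ccP_cons.1 h1 with h1 | hx <;> rcases ccP_cons.1 h2 with h2 | hy
        · exact J1 _ _ _ ⟨1, tg_mv hO i ht h1 h2⟩
        · obtain ⟨y, hy⟩ := M.ob hy
          have h3 : t = ρ (i⁻¹ * τ ^ y) e := by
            rw [← tg_mul, ← hy, tg_mul, inv_mul_cancel, tg_one]
          have := J2 _ _ _ _ _ (J4 _ (h3 ▸ h1)).2 (J0 _ _ _ (M.arrs hO y e he1))
          rwa [← h3, ← hy, ← map_mul, mul_inv_rev, inv_inv, mul_inv_cancel_left] at this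
        · obtain ⟨x, hx⟩ := M.ob hx
          have h3 : ρ i t = ρ (i * τ ^ x) e := by rw [hx, tg_mul]
          have h4 := hO.inv _ _ _ (M.arrs hO x e he1)
          have := J2 _ _ _ _ _ (J0 _ _ _ h4) (J4 _ (h3 ▸ h2)).1
          rwa [← h3, ← hx, ← map_inv, ← map_mul, mul_inv_cancel_right] at this
        · obtain ⟨x, hx⟩ := M.ob hx
          obtain ⟨y, hy⟩ := M.ob hy
          have h4 : ρ ((τ ^ y)⁻¹ * (i * τ ^ x)) e = e := by
            rw [← tg_mul, ← tg_mul, ← hx, hy, tg_mul, inv_mul_cancel, tg_one]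
          have h5 := inv_mul_eq_one.1 ((M.free _ _ h4).resolve_right hne)
          have h3 : i = τ ^ (y - x) := by rw [zpow_sub, h5, mul_inv_cancel_right]
          rw [h3]
          exact J0 _ _ _ (M.arrs hO _ t ht))
      exact fun a b s ⟨n, ha⟩ ⟨m, hb⟩ => J3 a b s (key _ _ _ _ ha) (key _ _ _ _ hb)
  obtain ⟨n, ha⟩ := (rl_iff hO).1 ha
  obtain ⟨m, hb⟩ := (rl_iff hO).1 hb
  obtain ⟨E, hE⟩ := tg_fin T n _ _ _ ha
  obtain ⟨E', hE'⟩ := tg_fin T m _ _ _ hb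
  have sub : ∀ E F : List II, E ⊆ F → ccP T F ⊆ ccP T E := fun E F hs x hx h =>
    hx (h.imp_right fun ⟨e, h1, h2⟩ => ⟨e, hs h1, h2⟩)
  exact main (E ++ E') a b s ⟨n, hE.anti (sub _ _ (List.subset_append_left _ _))⟩
    ⟨m, hE'.anti (sub _ _ (List.subset_append_right _ _))⟩

end Pool.Agent.Work.MP_3d425c_gt.To.Tg
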