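import Pool.Agent.Work.MP_3d425c_gt.To.SfGeo

/-! The jumps between a point and its image under an elliptic element. -/

namespace Pool.Agent.Work.MP_3d425c_gt.To.Ph
open Set Pool.Agent.Work.MP_3d425c_gt.Cy Pool.Agent.Work.MP_3d425c_gt.To.Ax

variable {G X : Type*} [Group G] [MulAction G X] {C : Set (ℝ → X)} {up : X → X → Prop}

/-- the image of a half-space -/
def hs (g : G) (a : X × Bool) : X × Bool := (g • a.1, a.2)

/-- `a` lies strictly inside `b` -/
def Ns (up : X → X → Prop) (a b : X × Bool) : Prop :=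
  if a.2 = true then Nest up b.1 a.1 else Nest up a.1 b.1

/-- `y` nests no side of `μ` -/
def Nn (up : X → X → Prop) (y : G) (μ : X) : Prop := ¬ Nest up μ (y • μ) ∧ ¬ Nest up (y • μ) μ

theorem hs_mul (g g' : G) (a : X × Bool) : hs (g * g') a = hs g (hs g' a) := by
  simp [hs, mul_smul]

theorem hs_one (a : X × Bool) : hs (1 : G) a = a := by simp [hs]

theorem hs_inv (g : G) (a : X × Bool) : hs g⁻¹ (hs g a) = a := by simp [hs]

theorem hs_inv' (g : G) (a : X × Bool) : hs g (hs g⁻¹ a) = a := by simp [hs]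

theorem hs_ne (g : G) {a b : X × Bool} (ne : a ≠ b) : hs g a ≠ hs g b := fun e =>
  ne (by rw [← hs_inv g a, e, hs_inv])

theorem Ns.asymm {a b : X × Bool} (e : Ns up a b) (t : a.2 = b.2) : ¬ Ns up b a := by
  obtain ⟨a, _ | _⟩ := a <;> obtain ⟨b, _ | _⟩ := b <;> simp [Ns, Nest] at t e ⊢ <;> tauto

variable (H : Om G C up)
include H

theorem nest_dual {p q : X} : Nest (dualU up) p q ↔ Nest up q p := by
  constructor
  · rintro ⟨⟨h1, h2⟩, h3⟩
    exact ⟨by_contra fun k => h3 ⟨k, h2.symm⟩, h1⟩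
  · rintro ⟨h1, h2⟩
    exact ⟨⟨h2, fun e => H.irr p (by rw [← e] at h1; exact h1)⟩, fun k => k.1 h1⟩

theorem uc_dual {n p : X} : Uc (dualU up) n p ↔ ¬ up n p := H.windA_dual n p

theorem Nn.inv {y : G} {μ : X} (e : Nn up y μ) : Nn up y⁻¹ μ :=
  ⟨fun k => e.2 (by simpa using k.smul H y), fun k => e.1 (by simpa using k.smul H y)⟩

theorem Nn.dual {y : G} {μ : X} (e : Nn up y μ) : Nn (dualU up) y μ :=
  ⟨fun k => e.2 ((nest_dual H).1 k), fun k => e.1 ((nest_dual H).1 k)⟩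

theorem Ns.smul (g : G) {a b : X × Bool} (e : Ns up a b) : Ns up (hs g a) (hs g b) := by
  obtain ⟨a, _ | _⟩ := a
  · exact Nest.smul H g (show Nest up a b.1 from e)
  · exact Nest.smul H g (show Nest up b.1 a from e)

theorem Ns.irr (a : X × Bool) : ¬ Ns up a a := fun e => e.asymm rfl e

theorem Ns.sub {a b : X × Bool} (e : Ns up a b) (t : a.2 = b.2) {p : X} (hp : hm up a p) :
    hm up b p := by
  obtain ⟨a, _ | _⟩ := a <;> obtain ⟨b, _ | _⟩ := b <;> simp [Ns, hm] at t e hp ⊢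
  · exact fun k => hp (e.sub H (.inl k))
  · exact .inl (e.sub H hp)

theorem tri0 {y : G} {m n p : X} (l : LG C m n) (ne : m ≠ n) (h1 : Uc up (y • m) p)
    (h2 : Uc up n p) (k : Nn up y m) : y • m = n ∨ Nest up n (y • m) ∨ Nest up (y • m) n := by
  by_cases e : y • m = n
  · exact .inl e
  by_cases a : up n (y • m) <;> by_cases b : up (y • m) n
  · exact absurd ⟨H.lg_up (Om.lg_symm l) b, fun c => ne (lg_disj H l (.inl c) (.inl a))⟩ k.2
  · exact .inr (.inl ⟨a, b⟩)
  · exact .inr (.inr ⟨b, a⟩)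
  · exact (H.disj b a e h1 h2).elim

theorem fs0 {y : G} {m n : X} (l : LG C m n) (ne : m ≠ n) (k : Nn up y n)
    (e : Nest up n (y • m)) : Nest up (y • n) m := by
  have a : up n (y • n) := H.lg_up (H.lg_smul y l) e.1
  have b : up (y • n) n := by_contra fun b => k.1 ⟨a, b⟩
  exact ⟨H.lg_up (Om.lg_symm l) b, fun c => ne (lg_disj H l (.inl c) (.inl a))⟩

theorem tri {y : G} {a b : X × Bool} {p : X} (l : hE C a b) (ne : a ≠ b) (h1 : hm up (hs y a) p)
    (h2 : hm up b p) (k : Nn up y a.1) : hs y a = b ∨ Ns up (hs y a) b ∨ Ns up b (hs y a) := by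
  obtain ⟨a, _ | _⟩ := a <;> obtain ⟨b, _ | _⟩ := b <;> simp [hE, hm, hs, Ns] at l ne h1 h2 k ⊢
  · simpa only [nest_dual H] using
      tri0 H.dual l ne ((uc_dual H).2 h1) ((uc_dual H).2 h2) (k.dual H)
  · exact tri0 H l ne h1 h2 k

theorem fs {y : G} {a b : X × Bool} (l : hE C a b) (ne : a ≠ b) (k : Nn up y b.1)
    (e : Ns up (hs y a) b) : Ns up a (hs y b) := by
  obtain ⟨a, _ | _⟩ := a <;> obtain ⟨b, _ | _⟩ := b <;> simp [hE, hs, Ns] at l ne k e ⊢
  · exact (nest_dual H).1 (fs0 H.dual l ne (k.dual H) ((nest_dual H).2 e))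
  · exact fs0 H l ne k e

theorem sep_out {d : X × Bool} {p q r : X} (hq : ¬ hm up d q) (hp : hm up d p) (hr : hm up d r) :
    up q p ↔ up q r := (H.windA_nest hq hp).trans (H.windA_nest hq hr).symm

theorem sep_in {d : X × Bool} {p q r : X} (hq : hm up d q) (hp : ¬ hm up d p)
    (hr : ¬ hm up d r) : up q p ↔ up q r := by
  obtain ⟨d, β⟩ := d
  by_cases e : q = d
  · subst e
    cases β <;> simp [hm] at hp hr <;> tauto
  · exact sep_out H (Om.windA_compl' hq e) (Om.windA_compl hp) (Om.windA_compl hr)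

theorem hm_hs (g : G) {a : X × Bool} {p : X} (e : hm up a p) : hm up (hs g a) (g • p) :=
  Om.wd_hm_smul H g e

theorem hE_hs (g : G) {a b : X × Bool} (e : hE C a b) : hE C (hs g a) (hs g b) :=
  Om.wd_hE_smul H g e

section Side
variable {y : G} {o : X} {a b : X × Bool} (l : hE C a b) (ne : a ≠ b) (h1 : hm up a o)
  (h2 : hm up b (y • o)) (ka : Nn up y a.1) (kb : Nn up y b.1)
include l ne h1 h2 ka kb

theorem first (e : Ns up (hs y a) b) : hm up (hs y b) o ∧ Ns up (hs y a) (hs y (hs y b)) :=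
  ⟨(fs H l ne kb e).sub H l.1 h1, (fs H l ne kb e).smul H y⟩

theorem second (e : Ns up b (hs y a)) :
    hm up (hs y⁻¹ a) (y • o) ∧ Ns up (hs y (hs y⁻¹ b)) (hs y⁻¹ a) := by
  have e1 : Ns up (hs y⁻¹ b) a := by simpa only [hs_inv] using e.smul H y⁻¹
  have e2 := fs H (H.hE_equiv.symm l) ne.symm (ka.inv H) e1
  exact ⟨e2.sub H l.1.symm h2, by rwa [hs_inv']⟩

theorem face : up (y • o) o ↔ up o (y • o) := by
  have E := H.hE_equiv
  rcases tri H l ne (hm_hs H y h1) h2 ka with e | e | e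
  · have l' : hE C b (hs y b) := by simpa only [e] using hE_hs H y l
    have n' : b ≠ hs y b := by simpa only [e] using hs_ne y ne
    rw [← H.ups_iff y o]
    exact sep_in H h2 (fun k => ne (H.hm_unique l h1 k))
      fun k => n' (H.hm_unique l' k (hm_hs H y h2))
  · rw [← H.ups_iff y o]
    exact sep_out H (fun k => hs_ne y ne (H.hm_unique (hE_hs H y l) (hm_hs H y h1) k))
      (first H l ne h1 h2 ka kb e).1 (hm_hs H y h2)
  · have k2 : hm up (hs y⁻¹ b) o := by simpa using hm_hs H y⁻¹ h2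
    have := sep_out H (fun k => hs_ne y⁻¹ ne (H.hm_unique (hE_hs H y⁻¹ l) k k2))
      (hm_hs H y⁻¹ h1) (second H l ne h1 h2 ka kb e).1
    rw [← this, ← H.ups_iff y o, smul_inv_smul]

end Side

theorem centre_one {y : G} {o : X} {a a' : X × Bool} (l : hE C a (hs y a)) (ne : a ≠ hs y a)
    (h1 : hm up a o) (l' : hE C a' (hs y a')) (ne' : a' ≠ hs y a') (h1' : hm up a' o) :
    hE C a a' := by
  have E := H.hE_equiv
  by_contra q
  have q1 : ¬ hE C a' a := fun k => q (E.symm k)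
  have q2 : ¬ hE C (hs y a') a := fun k => q1 (E.trans l' k)
  have s1 : Same C up a o a'.1 := H.windA_pos q fun s => by
    have k : hm up a' a.1 := (s a' (E.refl _)).1 h1'
    exact ne' (H.hm_unique l' (H.windA_side l q1 k) (hm_hs H y k))
  have s2 : Same C up a (y • o) a'.1 := H.windA_pos q fun s => by
    have k : hm up (hs y a') a.1 := (s _ l').1 (hm_hs H y h1')
    have k' : hm up a' a.1 := by simpa [hs] using hm_hs H y⁻¹ (H.windA_side l q2 k)
    exact ne' (H.hm_unique l' k' k)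
  exact ne (H.hm_unique l ((s2 a (E.refl _)).2 ((s1 a (E.refl _)).1 h1)) (hm_hs H y h1))

open Classical in
/-- the half-space of a junction that contains a point -/
noncomputable def pos (J : Quotient (Om.wdS H)) (p : X) : Option (X × Bool) :=
  if e : ∃ a, hE C J.out a ∧ hm up a p then some e.choose else none

theorem pos_some {J : Quotient (Om.wdS H)} {p : X} {a : X × Bool} :
    pos H J p = some a ↔ hE C J.out a ∧ hm up a p := by
  have E := H.hE_equiv
  unfold pos
  split_ifs with e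
  · rw [Option.some_inj]
    exact ⟨fun k => k ▸ e.choose_spec, fun k =>
      H.hm_unique (E.trans (E.symm e.choose_spec.1) k.1) e.choose_spec.2 k.2⟩
  · exact ⟨fun k => by simp at k, fun k => absurd ⟨a, k⟩ e⟩

theorem pos_eq {J : Quotient (Om.wdS H)} {p q : X} :
    pos H J p = pos H J q ↔ Same C up J.out p q := by
  constructor
  · intro e a ha
    exact ⟨fun k => ((pos_some H).1 (e ▸ (pos_some H).2 ⟨ha, k⟩)).2,
      fun k => ((pos_some H).1 (e.symm ▸ (pos_some H).2 ⟨ha, k⟩)).2⟩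
  · intro s
    refine Option.ext fun a => ?_
    simp only [pos_some H]
    exact and_congr_right (s a)

theorem pos_jump {J : Quotient (Om.wdS H)} {p q : X} : Jump C up J.out p q ↔
    ∃ a b, a ≠ b ∧ pos H J p = some a ∧ pos H J q = some b := by
  simp only [pos_some H]
  exact ⟨fun ⟨a, b, h1, h2, h3, h4, h5⟩ => ⟨a, b, h3, ⟨h1, h4⟩, h2, h5⟩,
    fun ⟨a, b, h3, ⟨h1, h4⟩, h2, h5⟩ => ⟨a, b, h1, h2, h3, h4, h5⟩⟩

theorem quot_eq {J J' : Quotient (Om.wdS H)} (e : hE C J.out J'.out) : J = J' := by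
  rw [← Quotient.out_eq J, ← Quotient.out_eq J']
  exact Quotient.sound (s := Om.wdS H) e

theorem wdA_hE (g : G) {J : Quotient (Om.wdS H)} {a : X × Bool} (e : hE C J.out a) :
    hE C (Om.wdA H g J).out (hs g a) :=
  H.hE_equiv.trans (Om.wdA_out H g J) (hE_hs H g e)

/-- One centre, the other jumps are paired. -/
theorem side {y : G} {o : X}
    (k : ∀ a b, hE C a b → a ≠ b → hm up a o → hm up b (y • o) → Nn up y a.1 ∧ Nn up y b.1) :
    ∃ (c : Option (Quotient (Om.wdS H))) (ι : Quotient (Om.wdS H) → Quotient (Om.wdS H)),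
      ((∃ J : Quotient (Om.wdS H), Jump C up J.out o (y • o)) → ∃ J a, c = some J ∧ a ≠ hs y a ∧
        pos H J o = some a ∧ pos H J (y • o) = some (hs y a)) ∧
      ∀ J a b, a ≠ b → pos H J o = some a → pos H J (y • o) = some b → some J ≠ c →
        ι J ≠ J ∧ some (ι J) ≠ c ∧ ι (ι J) = J ∧ ∃ g, (g = y ∨ g = y⁻¹) ∧
          pos H (ι J) o = some (hs g b) ∧ pos H (ι J) (y • o) = some (hs g a) := by
  classical
  have E := H.hE_equiv
  let F : Quotient (Om.wdS H) → Prop := fun J =>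
    ∃ a b, pos H J o = some a ∧ pos H J (y • o) = some b ∧ Ns up (hs y a) b
  let ι : Quotient (Om.wdS H) → Quotient (Om.wdS H) := fun J =>
    if F J then Om.wdA H y J else Om.wdA H y⁻¹ J
  have hF : ∀ {J a b}, pos H J o = some a → pos H J (y • o) = some b →
      (F J ↔ Ns up (hs y a) b) := fun {J a b} h1 h2 =>
    ⟨fun ⟨a', b', k1, k2, k3⟩ => by
      rw [h1, Option.some_inj] at k1
      rw [h2, Option.some_inj] at k2
      rw [k1, k2]
      exact k3, fun e => ⟨a, b, h1, h2, e⟩⟩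
  have main : ∀ J a b, a ≠ b → pos H J o = some a → pos H J (y • o) = some b → hs y a ≠ b →
      ι J ≠ J ∧ ι (ι J) = J ∧ ∃ g, (g = y ∨ g = y⁻¹) ∧ pos H (ι J) o = some (hs g b) ∧
        pos H (ι J) (y • o) = some (hs g a) ∧ hs y (hs g b) ≠ hs g a := by
    intro J a b ne h1 h2 nc
    obtain ⟨a1, a2⟩ := (pos_some H).1 h1
    obtain ⟨b1, b2⟩ := (pos_some H).1 h2
    have l := E.trans (E.symm a1) b1
    obtain ⟨ka, kb⟩ := k a b l ne a2 b2
    rcases tri H l ne (hm_hs H y a2) b2 ka with e | e | e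
    · exact absurd e nc
    · have i1 : ι J = Om.wdA H y J := if_pos ((hF h1 h2).2 e)
      obtain ⟨f1, f2⟩ := first H l ne a2 b2 ka kb e
      have p1 : pos H (ι J) o = some (hs y b) := i1 ▸ (pos_some H).2 ⟨wdA_hE H y b1, f1⟩
      have p2 : pos H (ι J) (y • o) = some (hs y a) :=
        i1 ▸ (pos_some H).2 ⟨wdA_hE H y a1, hm_hs H y a2⟩
      have nF : ¬ F (ι J) := fun q => f2.asymm l.1 ((hF p1 p2).1 q)
      refine ⟨fun q => nF (q.symm ▸ (hF h1 h2).2 e), ?_, y, .inl rfl, p1, p2, fun q => ?_⟩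
      · have : ι (ι J) = Om.wdA H y⁻¹ (ι J) := if_neg nF
        rw [this, i1, Om.wdA_inv]
      · exact Ns.irr H _ (q ▸ f2)
    · have nF : ¬ F J := fun q => e.asymm l.1.symm ((hF h1 h2).1 q)
      have i1 : ι J = Om.wdA H y⁻¹ J := if_neg nF
      obtain ⟨f1, f2⟩ := second H l ne a2 b2 ka kb e
      have p1 : pos H (ι J) o = some (hs y⁻¹ b) :=
        i1 ▸ (pos_some H).2 ⟨wdA_hE H y⁻¹ b1, by simpa using hm_hs H y⁻¹ b2⟩
      have p2 : pos H (ι J) (y • o) = some (hs y⁻¹ a) :=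
        i1 ▸ (pos_some H).2 ⟨wdA_hE H y⁻¹ a1, f1⟩
      have yF : F (ι J) := (hF p1 p2).2 f2
      refine ⟨fun q => nF (q ▸ yF), ?_, y⁻¹, .inr rfl, p1, p2, fun q => ?_⟩
      · have : ι (ι J) = Om.wdA H y (ι J) := if_pos yF
        rw [this, i1]
        simpa using Om.wdA_inv H y⁻¹ J
      · exact Ns.irr H _ (q ▸ f2)
  by_cases ex : ∃ J a, a ≠ hs y a ∧ pos H J o = some a ∧ pos H J (y • o) = some (hs y a)
  · obtain ⟨c, a0, c1, c2, c3⟩ := ex
    refine ⟨some c, ι, fun _ => ⟨c, a0, rfl, c1, c2, c3⟩, fun J a b ne h1 h2 nc => ?_⟩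
    have nc' : hs y a ≠ b := fun q => nc (by
      obtain ⟨a1, a2⟩ := (pos_some H).1 h1
      obtain ⟨b1, -⟩ := (pos_some H).1 h2
      obtain ⟨d1, d2⟩ := (pos_some H).1 c2
      obtain ⟨d3, -⟩ := (pos_some H).1 c3
      have := centre_one H (q ▸ E.trans (E.symm a1) b1) (q ▸ ne) a2 (E.trans (E.symm d1) d3) c1 d2
      rw [quot_eq H (E.trans a1 (E.trans this (E.symm d1)))])
    obtain ⟨m1, m2, g, m3, m4, m5, m6⟩ := main J a b ne h1 h2 nc'
    refine ⟨m1, fun q => m6 ?_, m2, g, m3, m4, m5⟩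
    rw [Option.some_inj] at q
    rw [q, c2, Option.some_inj] at m4
    rw [q, c3, Option.some_inj] at m5
    rw [← m4, m5]
  · have nc' : ∀ J a b, a ≠ b → pos H J o = some a → pos H J (y • o) = some b → hs y a ≠ b :=
      fun J a b ne h1 h2 q => ex ⟨J, a, q ▸ ne, h1, q ▸ h2⟩
    refine ⟨none, ι, fun ⟨J0, j0⟩ => ?_, fun J a b ne h1 h2 _ => ?_⟩
    · exfalso
      obtain ⟨a, b, a1, b1, ne, a2, b2⟩ := j0
      have l := E.trans (E.symm a1) b1
      obtain ⟨ka, kb⟩ := k a b l ne a2 b2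
      have f := face H l ne a2 b2 ka kb
      have o1 : o ≠ y • o := fun q => ne (H.hm_unique l a2 (q ▸ b2))
      have od := Om.wd_odd H o1
      have fin := Om.wd_fin H o (y • o)
      rw [wdN_sum (p := fun J : Quotient (Om.wdS H) => Jump C up J.out o (y • o))
        (T := fin.toFinset) fun J hJ => fin.mem_toFinset.2 hJ, wdI_iff f] at od
      have c1 : ∑ J ∈ fin.toFinset, wdI (Jump C up J.out o (y • o)) = fin.toFinset.card := by
        rw [Finset.card_eq_sum_ones, Nat.cast_sum]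
        exact Finset.sum_congr rfl fun J hJ => wdI_pos (fin.mem_toFinset.1 hJ)
      have c2 : ∑ J ∈ fin.toFinset, (1 : ZMod 2) = 0 := by
        refine Finset.sum_involution (fun J _ => ι J) (fun _ _ => by decide) (fun J hJ _ => ?_)
          (fun J hJ => ?_) fun J hJ => ?_ <;>
          obtain ⟨a, b, ne, h1, h2⟩ := (pos_jump H).1 (fin.mem_toFinset.1 hJ) <;>
          obtain ⟨m1, m2, g, -, m4, m5, -⟩ := main J a b ne h1 h2 (nc' J a b ne h1 h2)
        · exact m1
        · exact fin.mem_toFinset.2 ((pos_jump H).2 ⟨_, _, hs_ne g ne.symm, m4, m5⟩)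
        · exact m2
      rw [Finset.sum_const, nsmul_one, ZMod.natCast_eq_zero_iff] at c2
      omega
    · obtain ⟨m1, m2, g, m3, m4, m5, -⟩ := main J a b ne h1 h2 (nc' J a b ne h1 h2)
      exact ⟨m1, by simp, m2, g, m3, m4, m5⟩

end Pool.Agent.Work.MP_3d425c_gt.To.Ph
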