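import Pool.Agent.Work.MP_3d425c_gt.To.SfDefs

/-! The finite count behind the index formula. -/

namespace Pool.Agent.Work.MP_3d425c_gt.To.Ph

/-- PEEL, abstract form. -/
theorem peel_abs {E I : Type*} [DecidableEq E] [DecidableEq I] (F B : E → Finset ℕ → Prop)
    (S : I → Finset E) (ι : E → E) (N : ℕ) :
    ∀ (C : Finset I) (O : Finset E) (K : E → Finset ℕ), C.card = N →
    (∀ i ∈ C, ∀ e ∈ S i, ∀ K L, F e K → B e L → Disjoint K L → K.Nonempty → L.Nonempty → False) →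
    (∀ i ∈ C, (S i).Nonempty) →
    (∀ i ∈ C, ∀ e ∈ S i, ∀ K : E → Finset ℕ,
      (∀ e' ∈ S i, e' ≠ e → F e' (K e') ∧ (K e').Nonempty) →
      (∀ e' ∈ S i, ∀ e'' ∈ S i, e' ≠ e → e'' ≠ e → e' ≠ e'' → Disjoint (K e') (K e'')) →
      ∃ L, B e L ∧ L.Nonempty ∧ ∀ x ∈ L, ∃ e' ∈ S i, e' ≠ e ∧ x ∈ K e') →
    (∀ i ∈ C, ∀ j ∈ C, i ≠ j → Disjoint (S i) (S j)) →
    (∀ e ∈ O, ι e ∈ O ∧ ι e ≠ e ∧ ι (ι e) = e ∧ ∀ K, B e K → F (ι e) K) →
    (∀ i ∈ C, ∀ e ∈ S i, e ∉ O → F e (K e) ∧ (K e).Nonempty) →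
    (∀ i ∈ C, ∀ e ∈ S i, ∀ j ∈ C, ∀ e' ∈ S j, e ∉ O → e' ∉ O → e ≠ e' →
      Disjoint (K e) (K e')) →
    O.card < 2 * C.card → False := by
  induction N with
  | zero => intro C O K hN _ _ _ _ _ _ _ h; omega
  | succ N ih =>
    intro C O K hN bad ne cyc dj hι lab ld cnt
    have ex : ∃ i ∈ C, (S i ∩ O).card ≤ 1 := by
      by_contra hno
      push Not at hno
      have h1 : (C.biUnion fun i => S i ∩ O).card = ∑ i ∈ C, (S i ∩ O).card :=
        Finset.card_biUnion fun i hi j hj hij =>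
          (dj i hi j hj hij).mono Finset.inter_subset_left Finset.inter_subset_left
      have h2 : (C.biUnion fun i => S i ∩ O).card ≤ O.card :=
        Finset.card_le_card (Finset.biUnion_subset.2 fun i _ => Finset.inter_subset_right)
      have h3 : C.card • 2 ≤ ∑ i ∈ C, (S i ∩ O).card :=
        Finset.card_nsmul_le_sum _ _ _ fun i hi => hno i hi
      rw [smul_eq_mul] at h3
      omega
    obtain ⟨i, hi, h1⟩ := ex
    have ex2 : ∃ e ∈ S i, ∀ e' ∈ S i, e' ≠ e → e' ∉ O := by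
      by_cases h : ∃ e ∈ S i, e ∈ O
      · obtain ⟨e, he, heO⟩ := h
        refine ⟨e, he, fun e' he' hne h' => hne ?_⟩
        exact Finset.card_le_one.1 h1 _ (Finset.mem_inter.2 ⟨he', h'⟩) _
          (Finset.mem_inter.2 ⟨he, heO⟩)
      · obtain ⟨e, he⟩ := ne i hi
        exact ⟨e, he, fun e' he' _ h' => h ⟨e', he', h'⟩⟩
    obtain ⟨e, he, hO⟩ := ex2
    obtain ⟨L, hB, hL, hs⟩ := cyc i hi e he K (fun e' he' hne => lab i hi e' he' (hO e' he' hne))
      (fun e' he' e'' he'' h' h'' hne => ld i hi e' he' i hi e'' he'' (hO e' he' h')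
        (hO e'' he'' h'') hne)
    have dL : ∀ j ∈ C, ∀ f ∈ S j, f ∉ O → (f ∈ S i → f = e) → Disjoint L (K f) := by
      intro j hj f hf hfO hfe
      rw [Finset.disjoint_left]
      intro x hx hx'
      obtain ⟨e', he', hne, hx''⟩ := hs x hx
      have : e' ≠ f := fun h => hne (h ▸ hfe (h ▸ he'))
      exact Finset.disjoint_left.1 (ld i hi e' he' j hj f hf (hO e' he' hne) hfO this) hx'' hx'
    by_cases heO : e ∈ O
    · obtain ⟨i1, i2, i3, i4⟩ := hι e heO
      have mem : ∀ f, f ∈ (O.erase e).erase (ι e) ↔ f ≠ ι e ∧ f ≠ e ∧ f ∈ O := by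
        intro f; simp only [Finset.mem_erase]
      have out : ∀ j ∈ C.erase i, ∀ f ∈ S j, f ∉ S i := fun j hj f hf h =>
        Finset.disjoint_left.1 (dj j (Finset.mem_of_mem_erase hj) i hi
          (Finset.ne_of_mem_erase hj)) hf h
      have nO : ∀ j ∈ C.erase i, ∀ f ∈ S j, f ∉ (O.erase e).erase (ι e) → f ≠ ι e → f ∉ O :=
        fun j hj f hf h h' hfO => h ((mem f).2 ⟨h', fun h'' => out j hj f hf (h'' ▸ he), hfO⟩)
      have cO : ((O.erase e).erase (ι e)).card + 2 = O.card := by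
        have a := Finset.card_erase_add_one (Finset.mem_erase.2 ⟨i2, i1⟩ : ι e ∈ O.erase e)
        have b := Finset.card_erase_add_one heO
        omega
      have cC := Finset.card_erase_add_one hi
      refine ih (C.erase i) ((O.erase e).erase (ι e)) (Function.update K (ι e) L) (by omega)
        (fun j hj => bad j (Finset.mem_of_mem_erase hj))
        (fun j hj => ne j (Finset.mem_of_mem_erase hj))
        (fun j hj => cyc j (Finset.mem_of_mem_erase hj))
        (fun j hj l hl => dj j (Finset.mem_of_mem_erase hj) l (Finset.mem_of_mem_erase hl))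
        ?_ ?_ ?_ (by omega)
      · intro f hf
        obtain ⟨f1, f2, f3⟩ := (mem f).1 hf
        obtain ⟨j1, j2, j3, j4⟩ := hι f f3
        refine ⟨(mem _).2 ⟨fun h => f2 ?_, fun h => f1 ?_, j1⟩, j2, j3, j4⟩
        · rw [← j3, h, i3]
        · rw [← j3, h]
      · intro j hj f hf hfO
        by_cases h : f = ι e
        · rw [h, Function.update_self]; exact ⟨i4 L hB, hL⟩
        · rw [Function.update_of_ne h]
          exact lab j (Finset.mem_of_mem_erase hj) f hf (nO j hj f hf hfO h)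
      · intro j hj f hf l hl g hg hfO hgO hne
        by_cases h : f = ι e
        · have h' : g ≠ ι e := fun h' => hne (h.trans h'.symm)
          rw [h, Function.update_self, Function.update_of_ne h']
          exact dL l (Finset.mem_of_mem_erase hl) g hg (nO l hl g hg hgO h')
            fun h'' => (out l hl g hg h'').elim
        · by_cases h' : g = ι e
          · rw [h', Function.update_self, Function.update_of_ne h]
            exact (dL j (Finset.mem_of_mem_erase hj) f hf (nO j hj f hf hfO h)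
              fun h'' => (out j hj f hf h'').elim).symm
          · rw [Function.update_of_ne h, Function.update_of_ne h']
            exact ld j (Finset.mem_of_mem_erase hj) f hf l (Finset.mem_of_mem_erase hl) g hg
              (nO j hj f hf hfO h) (nO l hl g hg hgO h') hne
    · obtain ⟨a, b⟩ := lab i hi e he heO
      exact bad i hi e he _ _ a hB (dL i hi e he heO fun _ => rfl).symm b hL

/-- a jump of a sequence -/
def Jq {H : Type*} (f : ℕ → Option H) (k : ℕ) : Prop :=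
  ∃ a b, a ≠ b ∧ f k = some a ∧ f (k + 1) = some b

/-- inside a visit -/
def Vis {H : Type*} (f : ℕ → Option H) (m : ℕ) : Prop :=
  ∃ s < m, f s = f 0 ∧ ∀ i, s < i → i ≤ m → f i ≠ f 0 ∧ f i ≠ none

/-- the end of a good visit -/
def Ret {H : Type*} (f : ℕ → Option H) (k : ℕ) : Prop := f 0 ≠ none ∧ f (k + 1) = f 0 ∧ Vis f k

/-- a centre -/
def Cen {H : Type*} (f : ℕ → Option H) (k : ℕ) : Prop :=
  f 0 ≠ f k ∧ f k ≠ f (k + 1) ∧ f (k + 1) ≠ f 0

theorem jq_iff {H : Type*} {f : ℕ → Option H} {k : ℕ} :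
    Jq f k ↔ f k ≠ none ∧ f (k + 1) ≠ none ∧ f k ≠ f (k + 1) := by
  constructor
  · rintro ⟨a, b, h, h1, h2⟩
    rw [h1, h2]
    exact ⟨Option.some_ne_none _, Option.some_ne_none _, fun h' => h (Option.some.inj h')⟩
  · rintro ⟨h1, h2, h⟩
    obtain ⟨a, ha⟩ := Option.ne_none_iff_exists'.1 h1
    obtain ⟨b, hb⟩ := Option.ne_none_iff_exists'.1 h2
    exact ⟨a, b, fun h' => h (by rw [ha, hb, h']), ha, hb⟩

open Classical in
/-- indicator sums -/
noncomputable def ct (p : ℕ → Prop) (m : ℕ) : ℕ := ∑ k ∈ Finset.range m, if p k then 1 else 0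

theorem ct_pos {p : ℕ → Prop} {m : ℕ} (h : p m) : ct p (m + 1) = ct p m + 1 := by
  unfold ct; rw [Finset.sum_range_succ, if_pos h]

theorem ct_neg {p : ℕ → Prop} {m : ℕ} (h : ¬ p m) : ct p (m + 1) = ct p m := by
  unfold ct; rw [Finset.sum_range_succ, if_neg h, add_zero]

theorem ct_le (p : ℕ → Prop) (m : ℕ) : ct p m ≤ ct p (m + 1) ∧ ct p (m + 1) ≤ ct p m + 1 := by
  by_cases h : p m
  · rw [ct_pos h]; omega
  · rw [ct_neg h]; omega

theorem count_inv {H : Type*} (f : ℕ → Option H) (h0 : f 0 ≠ none) (m : ℕ) :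
    ((f m = f 0 ∨ f m = none) ∧ ct (Jq f) m ≤ 2 * ct (Ret f) m + ct (Cen f) m) ∨
    ct (Jq f) m + 1 ≤ 2 * ct (Ret f) m + ct (Cen f) m ∨
    (Vis f m ∧ ct (Jq f) m ≤ 2 * ct (Ret f) m + ct (Cen f) m + 1) := by
  induction m with
  | zero => exact Or.inl ⟨Or.inl rfl, by simp [ct]⟩
  | succ m ih =>
    have a := ct_le (Jq f) m
    have b := ct_le (Ret f) m
    have c := ct_le (Cen f) m
    have st : f m = f 0 → f (m + 1) ≠ f 0 → f (m + 1) ≠ none → Vis f (m + 1) := fun h h1 h2 =>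
      ⟨m, Nat.lt_succ_self m, h, fun i hi hi' => by
        obtain rfl : i = m + 1 := by omega
        exact ⟨h1, h2⟩⟩
    by_cases h1 : f (m + 1) = f 0
    · refine Or.inl ⟨Or.inl h1, ?_⟩
      rcases ih with ⟨h | h, hc⟩ | hc | ⟨hv, hc⟩
      · rw [ct_neg fun h' => (jq_iff.1 h').2.2 (h.trans h1.symm)]; omega
      · rw [ct_neg fun h' => (jq_iff.1 h').1 h]; omega
      · omega
      · rw [ct_pos (p := Ret f) ⟨h0, h1, hv⟩]; omega
    by_cases h2 : f (m + 1) = none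
    · refine Or.inl ⟨Or.inr h2, ?_⟩
      rw [ct_neg fun h' => (jq_iff.1 h').2.1 h2]
      rcases ih with ⟨_, hc⟩ | hc | ⟨⟨s, hs, _, hv⟩, hc⟩
      · omega
      · omega
      · obtain ⟨v1, v2⟩ := hv m hs le_rfl
        rw [ct_pos (p := Cen f) ⟨v1.symm, fun h => v2 (h.trans h2), h1⟩]; omega
    rcases ih with ⟨h | h, hc⟩ | hc | ⟨⟨s, hs, hs0, hv⟩, hc⟩
    · exact Or.inr (Or.inr ⟨st h h1 h2, by omega⟩)
    · refine Or.inr (Or.inl ?_)
      rw [ct_neg fun h' => (jq_iff.1 h').1 h,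
        ct_pos (p := Cen f) ⟨fun h' => h0 (h'.trans h), fun h' => h2 (h'.symm.trans h), h1⟩]
      omega
    · by_cases h : f m = f 0
      · exact Or.inr (Or.inr ⟨st h h1 h2, by omega⟩)
      · refine Or.inr (Or.inl ?_)
        by_cases h' : f m = f (m + 1)
        · rw [ct_neg fun h'' => (jq_iff.1 h'').2.2 h']; omega
        · rw [ct_pos (p := Cen f) ⟨fun h'' => h h''.symm, h', h1⟩]; omega
    · refine Or.inr (Or.inr ⟨⟨s, by omega, hs0, fun i hi hi' => ?_⟩, ?_⟩)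
      · rcases Nat.lt_or_eq_of_le hi' with h | rfl
        · exact hv i hi (by omega)
        · exact ⟨h1, h2⟩
      · by_cases h' : f m = f (m + 1)
        · rw [ct_neg fun h'' => (jq_iff.1 h'').2.2 h']; omega
        · rw [ct_pos (p := Cen f) ⟨(hv m hs le_rfl).1.symm, h', h1⟩]; omega

/-- COUNT for one sequence -/
theorem count_one {H : Type*} (f : ℕ → Option H) (n : ℕ)
    (cl : ¬ ∃ a b, a ≠ b ∧ f n = some a ∧ f 0 = some b) :
    ct (Jq f) n ≤ 2 * ct (Ret f) n + ct (Cen f) n := by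
  by_cases h0 : f 0 = none
  · have : ∀ m, ct (Jq f) m ≤ ct (Cen f) m := by
      intro m
      induction m with
      | zero => simp [ct]
      | succ m ih =>
        have c := ct_le (Cen f) m
        by_cases h : Jq f m
        · obtain ⟨j1, j2, j3⟩ := jq_iff.1 h
          rw [ct_pos h, ct_pos (p := Cen f) ⟨fun h' => j1 (h'.symm.trans h0), j3,
            fun h' => j2 (h'.trans h0)⟩]
          omega
        · rw [ct_neg h]; omega
    have := this n
    omega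
  · rcases count_inv f h0 n with ⟨_, h⟩ | h | ⟨⟨s, hs, _, hv⟩, _⟩
    · exact h
    · omega
    · obtain ⟨v1, v2⟩ := hv n hs le_rfl
      obtain ⟨a, ha⟩ := Option.ne_none_iff_exists'.1 v2
      obtain ⟨b, hb⟩ := Option.ne_none_iff_exists'.1 h0
      exact (cl ⟨a, b, fun h => v1 (by rw [ha, hb, h]), ha, hb⟩).elim

/-- labels compose along a path -/
theorem path_lab {H : Type*} (f : ℕ → Option H) (R : H → H → Finset ℕ → Prop)
    (r0 : ∀ a, R a a ∅)
    (rt : ∀ a b c K L, R a b K → R b c L → Disjoint K L → R a c (K ∪ L))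
    (K : ℕ → Finset ℕ) (u v : ℕ) (huv : u ≤ v) :
    (∀ j, u ≤ j → j ≤ v → f j ≠ none) →
    (∀ j, u ≤ j → j < v → Jq f j →
      (∃ a b, f j = some a ∧ f (j + 1) = some b ∧ R a b (K j)) ∧ (K j).Nonempty) →
    (∀ j l, u ≤ j → j < l → l < v → Jq f j → Jq f l → Disjoint (K j) (K l)) →
    ∃ L, (∃ a b, f u = some a ∧ f v = some b ∧ R a b L) ∧ (f u ≠ f v → L.Nonempty) ∧
      ∀ x ∈ L, ∃ j, u ≤ j ∧ j < v ∧ Jq f j ∧ x ∈ K j := by
  induction v, huv using Nat.le_induction with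
  | base =>
    intro h _ _
    obtain ⟨a, ha⟩ := Option.ne_none_iff_exists'.1 (h u le_rfl le_rfl)
    exact ⟨∅, ⟨a, a, ha, ha, r0 a⟩, fun h' => (h' rfl).elim, fun x hx => absurd hx (by simp)⟩
  | succ v huv ih =>
    intro h1 h2 h3
    obtain ⟨L, ⟨a, b, ha, hb, hR⟩, hn, hs⟩ := ih (fun j x y => h1 j x (by omega))
      (fun j x y => h2 j x (by omega)) (fun j l x y z => h3 j l x y (by omega))
    by_cases h : Jq f v
    · obtain ⟨⟨b', c, hb', hc, hR'⟩, hne⟩ := h2 v huv (Nat.lt_succ_self v) h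
      obtain rfl : b = b' := Option.some.inj (hb.symm.trans hb')
      have dj : Disjoint L (K v) := by
        rw [Finset.disjoint_left]
        intro x hx hx'
        obtain ⟨j, j1, j2, j3, j4⟩ := hs x hx
        exact Finset.disjoint_left.1 (h3 j v j1 j2 (Nat.lt_succ_self v) j3 h) j4 hx'
      refine ⟨L ∪ K v, ⟨a, c, ha, hc, rt _ _ _ _ _ hR hR' dj⟩,
        fun _ => hne.mono Finset.subset_union_right, fun x hx => ?_⟩
      rcases Finset.mem_union.1 hx with hx | hx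
      · obtain ⟨j, j1, j2, j3, j4⟩ := hs x hx
        exact ⟨j, j1, by omega, j3, j4⟩
      · exact ⟨v, huv, Nat.lt_succ_self v, h, hx⟩
    · have e : f v = f (v + 1) := by
        by_contra h'
        exact h (jq_iff.2 ⟨h1 v huv (Nat.le_succ v), h1 (v + 1) (by omega) le_rfl, h'⟩)
      refine ⟨L, ⟨a, b, ha, e ▸ hb, hR⟩, fun h' => hn (e ▸ h'), fun x hx => ?_⟩
      obtain ⟨j, j1, j2, j3, j4⟩ := hs x hx
      exact ⟨j, j1, by omega, j3, j4⟩

/-- the jumps of a good visit form a cycle -/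
theorem cyc_lab {H : Type*} (f : ℕ → Option H) (R : H → H → Finset ℕ → Prop)
    (r0 : ∀ a, R a a ∅)
    (rt : ∀ a b c K L, R a b K → R b c L → Disjoint K L → R a c (K ∪ L))
    (K : ℕ → Finset ℕ) (k i : ℕ) (hk : Ret f k) (P : ℕ → Prop)
    (hP : ∀ j, P j ↔ j ≤ k ∧ Jq f j ∧ ∀ l, j < l → l ≤ k → f l ≠ f 0) (hi : P i)
    (h2 : ∀ j, P j → j ≠ i →
      (∃ a b, f j = some a ∧ f (j + 1) = some b ∧ R a b (K j)) ∧ (K j).Nonempty)
    (h3 : ∀ j l, P j → P l → j ≠ i → l ≠ i → j ≠ l → Disjoint (K j) (K l)) :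
    ∃ L, (∃ a b, f i = some a ∧ f (i + 1) = some b ∧ R b a L) ∧ L.Nonempty ∧
      ∀ x ∈ L, ∃ j, P j ∧ j ≠ i ∧ x ∈ K j := by
  obtain ⟨h0, hr, s, hs, hs0, hv⟩ := hk
  obtain ⟨i1, i2, i3⟩ := (hP i).1 hi
  have si : s ≤ i := by
    by_contra h
    exact i3 s (by omega) hs.le hs0
  have sm : ∀ j, s ≤ j → j ≤ k + 1 → f j ≠ none := by
    intro j j1 j2
    rcases Nat.lt_or_eq_of_le j1 with h | rfl
    · rcases Nat.lt_or_eq_of_le j2 with h' | rfl
      · exact (hv j h (by omega)).2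
      · rw [hr]; exact h0
    · rw [hs0]; exact h0
  have pp : ∀ j, s ≤ j → j ≤ k → Jq f j → P j := fun j j1 j2 j3 =>
    (hP j).2 ⟨j2, j3, fun l l1 l2 => (hv l (by omega) l2).1⟩
  obtain ⟨L1, ⟨b, c, hb, hc, R1⟩, n1, s1⟩ := path_lab f R r0 rt K (i + 1) (k + 1) (by omega)
    (fun j x y => sm j (by omega) y)
    (fun j x y z => h2 j (pp j (by omega) (by omega) z) (by omega))
    (fun j l x y z p q => h3 j l (pp j (by omega) (by omega) p) (pp l (by omega) (by omega) q)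
      (by omega) (by omega) (by omega))
  obtain ⟨L2, ⟨c', a, hc', ha, R2⟩, n2, s2⟩ := path_lab f R r0 rt K s i si
    (fun j x y => sm j x (by omega))
    (fun j x y z => h2 j (pp j x (by omega) z) (by omega))
    (fun j l x y z p q => h3 j l (pp j x (by omega) p) (pp l (by omega) (by omega) q)
      (by omega) (by omega) (by omega))
  obtain rfl : c = c' := Option.some.inj (hc.symm.trans ((hr.trans hs0.symm).trans hc'))
  have dj : Disjoint L1 L2 := by
    rw [Finset.disjoint_left]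
    intro x hx hx'
    obtain ⟨j, j1, j2, j3, j4⟩ := s1 x hx
    obtain ⟨l, l1, l2, l3, l4⟩ := s2 x hx'
    exact Finset.disjoint_left.1 (h3 j l (pp j (by omega) (by omega) j3)
      (pp l l1 (by omega) l3) (by omega) (by omega) (by omega)) j4 l4
  refine ⟨L1 ∪ L2, ⟨a, b, ha, hb, rt _ _ _ _ _ R1 R2 dj⟩, ?_, fun x hx => ?_⟩
  · by_cases h : f (i + 1) = f (k + 1)
    · refine (n2 fun h' => (jq_iff.1 i2).2.2 ?_).mono Finset.subset_union_right
      rw [← h', h, hr, hs0]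
    · exact (n1 h).mono Finset.subset_union_left
  · rcases Finset.mem_union.1 hx with hx | hx
    · obtain ⟨j, j1, j2, j3, j4⟩ := s1 x hx
      exact ⟨j, pp j (by omega) (by omega) j3, by omega, j4⟩
    · obtain ⟨j, j1, j2, j3, j4⟩ := s2 x hx
      exact ⟨j, pp j j1 (by omega) j3, by omega, j4⟩

open Classical in
theorem card_ct {Q : Type*} (T : Finset Q) (n : ℕ) (p : Q → ℕ → Prop) :
    ((T ×ˢ Finset.range n).filter fun e => p e.1 e.2).card = ∑ J ∈ T, ct (p J) n := by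
  rw [Finset.card_filter, Finset.sum_product]
  rfl

/-- COUNT and PEEL.
Edges are the pairs `(J, k)`, `J ∈ T`, `k < n`, with `Jp pos J k (k+1)`; `n'` is the number of
`k` that carry an edge, each such `k` has one centre edge `(c k, k)`, the other (open) edges `O`
are paired by `ι`.
COUNT. Fix `J`, `p = pos J 0`. A visit is a maximal interval of indices with `pos J ≠ p`; it is
good if it returns to `p` and all its positions and `p` are `some`. The edges of a good visit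
form a cycle with at least two edges. By induction on the prefix: edges of `J` ≤ 2 * (good visits)
+ (number of `k` with `pos 0, pos k, pos (k+1)` pairwise different). The last number summed over
`J` is at most `n' - 1` (`cu`, `dg`, the first `k` with an edge has `pos J k = pos J 0`).
So `O.card < 2 * (number of cycles)`.
PEEL. Induction on the number of cycles: disjoint cycles, open edges `O` closed under `ι`, every
other edge of a cycle has a label `K e ≠ ∅` with `R (src e) (tgt e) (K e)`, labels disjoint. Some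
cycle has at most one open edge. None: `R a a K`, `2 ≤ K.card`. One, `e`: the rest gives
`R (tgt e) (src e) K`, label `ι e` by `K`, delete the cycle and `e`, `ι e` from `O`. -/
theorem peel {Q H : Type*} (T : Finset Q) (n : ℕ) (pos : Q → ℕ → Option H)
    (R : H → H → Finset ℕ → Prop) (r0 : ∀ a, R a a ∅)
    (rt : ∀ a b c K L, R a b K → R b c L → Disjoint K L → R a c (K ∪ L))
    (cl : ∀ J ∈ T, ¬ Jp pos J n 0)
    (cu : ∀ k < n, ∀ J ∈ T, ∀ J' ∈ T,
      (pos J 0 ≠ pos J k ∧ pos J k ≠ pos J (k + 1) ∧ pos J (k + 1) ≠ pos J 0) →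
      (pos J' 0 ≠ pos J' k ∧ pos J' k ≠ pos J' (k + 1) ∧ pos J' (k + 1) ≠ pos J' 0) → J = J')
    (dg : ∀ k < n, (∀ J ∈ T, ¬ Jp pos J k (k + 1)) → ∀ J ∈ T, pos J k = pos J (k + 1))
    (c : ℕ → Q) (ι : ℕ → Q → Q)
    (hc : ∀ k < n, (∃ J ∈ T, Jp pos J k (k + 1)) → c k ∈ T ∧
      ∃ a b, a ≠ b ∧ pos (c k) k = some a ∧ pos (c k) (k + 1) = some b ∧ R a b {k})
    (hι : ∀ k < n, ∀ J ∈ T, ∀ a b, a ≠ b → pos J k = some a → pos J (k + 1) = some b → J ≠ c k →
      ι k J ∈ T ∧ ι k J ≠ J ∧ ι k J ≠ c k ∧ ι k (ι k J) = J ∧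
      ∃ a' b', a' ≠ b' ∧ pos (ι k J) k = some a' ∧ pos (ι k J) (k + 1) = some b' ∧
        ∀ K, R b a K → R a' b' K)
    (bad : ∀ J ∈ T, ∀ k ≤ n, ∀ a K, pos J k = some a → 2 ≤ K.card → ¬ R a a K) :
    ∀ k < n, ∀ J ∈ T, ¬ Jp pos J k (k + 1) := by
  classical
  intro k0 hk0 J0 hJ0 hj0
  have ex : ∃ k, k < n ∧ ∃ J ∈ T, Jp pos J k (k + 1) := ⟨k0, hk0, J0, hJ0, hj0⟩
  obtain ⟨m1, m2⟩ := Nat.find_spec ex
  have m3 : ∀ k ≤ Nat.find ex, ∀ J ∈ T, pos J k = pos J 0 := by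
    intro k
    induction k with
    | zero => intro _ _ _; rfl
    | succ k ih =>
      intro hk J hJ
      rw [← ih (by omega) J hJ]
      exact (dg k (by omega) (fun J' hJ' h =>
        Nat.find_min ex (by omega : k < Nat.find ex) ⟨by omega, J', hJ', h⟩) J hJ).symm
  generalize Nat.find ex = m at m1 m2 m3
  obtain ⟨E, hE⟩ : ∃ E, E = (T ×ˢ Finset.range n).filter fun e => Jq (pos e.1) e.2 := ⟨_, rfl⟩
  obtain ⟨C, hC⟩ : ∃ C, C = (T ×ˢ Finset.range n).filter fun e => Ret (pos e.1) e.2 := ⟨_, rfl⟩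
  obtain ⟨Z, hZ⟩ : ∃ Z, Z = (T ×ˢ Finset.range n).filter fun e => Cen (pos e.1) e.2 := ⟨_, rfl⟩
  obtain ⟨N, hN⟩ : ∃ N, N = (Finset.range n).filter fun k => ∃ J ∈ T, Jp pos J k (k + 1) :=
    ⟨_, rfl⟩
  have mE : ∀ e : Q × ℕ, e ∈ E ↔ (e.1 ∈ T ∧ e.2 < n) ∧ Jq (pos e.1) e.2 := by
    intro e; rw [hE, Finset.mem_filter, Finset.mem_product, Finset.mem_range]
  have mC : ∀ e : Q × ℕ, e ∈ C ↔ (e.1 ∈ T ∧ e.2 < n) ∧ Ret (pos e.1) e.2 := by
    intro e; rw [hC, Finset.mem_filter, Finset.mem_product, Finset.mem_range]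
  have mZ : ∀ e : Q × ℕ, e ∈ Z ↔ (e.1 ∈ T ∧ e.2 < n) ∧ Cen (pos e.1) e.2 := by
    intro e; rw [hZ, Finset.mem_filter, Finset.mem_product, Finset.mem_range]
  have mN : ∀ k, k ∈ N ↔ k < n ∧ ∃ J ∈ T, Jp pos J k (k + 1) := by
    intro e; rw [hN, Finset.mem_filter, Finset.mem_range]
  have c1 : E.card ≤ 2 * C.card + Z.card := by
    have e1 : E.card = ∑ J ∈ T, ct (Jq (pos J)) n := by
      rw [hE]; convert card_ct T n fun J => Jq (pos J)
    have e2 : C.card = ∑ J ∈ T, ct (Ret (pos J)) n := by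
      rw [hC]; convert card_ct T n fun J => Ret (pos J)
    have e3 : Z.card = ∑ J ∈ T, ct (Cen (pos J)) n := by
      rw [hZ]; convert card_ct T n fun J => Cen (pos J)
    rw [e1, e2, e3, Finset.mul_sum, ← Finset.sum_add_distrib]
    exact Finset.sum_le_sum fun J hJ => count_one (pos J) n (cl J hJ)
  have c2 : Z.card ≤ (N.erase m).card := by
    refine Finset.card_le_card_of_injOn (fun e => e.2) (fun e he => ?_) (fun e he e' he' h => ?_)
    · obtain ⟨⟨e1, e2⟩, e3⟩ := (mZ e).1 he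
      refine Finset.mem_coe.2 (Finset.mem_erase.2 ⟨fun h => e3.1 ?_, (mN _).2 ⟨e2, ?_⟩⟩)
      · exact (m3 e.2 (le_of_eq h) e.1 e1).symm
      · by_contra h
        exact e3.2.1 (dg e.2 e2 (fun J hJ h' => h ⟨J, hJ, h'⟩) e.1 e1)
    · obtain ⟨⟨e1, e2⟩, e3⟩ := (mZ e).1 he
      obtain ⟨⟨f1, f2⟩, f3⟩ := (mZ e').1 he'
      have h' : e.2 = e'.2 := h
      rw [← h'] at f3
      exact Prod.ext (cu e.2 e2 e.1 e1 e'.1 f1 e3 f3) h'
  have c3 := Finset.card_erase_add_one ((mN m).2 ⟨m1, m2⟩)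
  have c4 : N.card ≤ (E.filter fun e => e.1 = c e.2).card := by
    refine Finset.card_le_card_of_injOn (fun k => (c k, k)) (fun k hk => ?_)
      (fun k _ l _ h => congrArg Prod.snd h)
    obtain ⟨k1, k2⟩ := (mN k).1 hk
    obtain ⟨k3, a, b, k4, k5, k6, _⟩ := hc k k1 k2
    exact Finset.mem_coe.2 (Finset.mem_filter.2 ⟨(mE _).2 ⟨⟨k3, k1⟩, a, b, k4, k5, k6⟩, rfl⟩)
  have c5 := Finset.card_filter_add_card_filter_not (s := E) fun e => e.1 = c e.2
  obtain ⟨S, hS⟩ : ∃ S : Q × ℕ → Finset (Q × ℕ), ∀ i e, e ∈ S i ↔ e ∈ E ∧ e.1 = i.1 ∧ e.2 ≤ i.2 ∧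
      ∀ l, e.2 < l → l ≤ i.2 → pos i.1 l ≠ pos i.1 0 :=
    ⟨fun i => E.filter fun e => e.1 = i.1 ∧ e.2 ≤ i.2 ∧
      ∀ l, e.2 < l → l ≤ i.2 → pos i.1 l ≠ pos i.1 0, fun i e => Finset.mem_filter⟩
  have cen : ∀ e ∈ E, e ∉ E.filter (fun e => ¬ e.1 = c e.2) → e.1 = c e.2 := fun e he h => by
    by_contra h'
    exact h (Finset.mem_filter.2 ⟨he, h'⟩)
  refine peel_abs
    (fun e K => ∃ a b, pos e.1 e.2 = some a ∧ pos e.1 (e.2 + 1) = some b ∧ R a b K)
    (fun e K => ∃ a b, pos e.1 e.2 = some a ∧ pos e.1 (e.2 + 1) = some b ∧ R b a K)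
    S (fun e => (ι e.2 e.1, e.2)) _ C (E.filter fun e => ¬ e.1 = c e.2) (fun e => {e.2}) rfl
    ?_ ?_ ?_ ?_ ?_ ?_ ?_ (by omega)
  · rintro i _ e he K L ⟨a, b, ha, hb, h1⟩ ⟨a', b', ha', hb', h2⟩ dj nK nL
    obtain rfl : a = a' := Option.some.inj (ha.symm.trans ha')
    obtain rfl : b = b' := Option.some.inj (hb.symm.trans hb')
    obtain ⟨⟨e1, e2⟩, _⟩ := (mE e).1 ((hS i e).1 he).1
    refine bad e.1 e1 e.2 e2.le a (K ∪ L) ha ?_ (rt _ _ _ _ _ h1 h2 dj)
    have := nK.card_pos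
    have := nL.card_pos
    rw [Finset.card_union_of_disjoint dj]
    omega
  · intro i hi
    obtain ⟨i1, h0, hr, s, hs, _, hv⟩ := (mC i).1 hi
    obtain ⟨v1, v2⟩ := hv i.2 hs le_rfl
    refine ⟨i, (hS i i).2 ⟨(mE i).2 ⟨i1, jq_iff.2 ⟨v2, ?_, ?_⟩⟩, rfl, le_rfl, fun l x y => ?_⟩⟩
    · rw [hr]; exact h0
    · rw [hr]; exact v1
    · omega
  · rintro ⟨J, k⟩ hi ⟨J', i⟩ he K h2 h3
    obtain ⟨⟨i1, i2⟩, hr⟩ := (mC _).1 hi
    obtain rfl : J' = J := ((hS _ _).1 he).2.1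
    obtain ⟨L, hL, nL, sL⟩ := cyc_lab (pos J') R r0 rt (fun j => K (J', j)) k i hr
      (fun j => (J', j) ∈ S (J', k))
      (fun j => by
        rw [hS, mE]
        exact ⟨fun h => ⟨h.2.2.1, h.1.2, h.2.2.2⟩,
          fun h => ⟨⟨⟨i1, lt_of_le_of_lt h.1 i2⟩, h.2.1⟩, rfl, h.1, h.2.2⟩⟩) he
      (fun j hj hne => h2 (J', j) hj fun h => hne (congrArg Prod.snd h))
      (fun j l hj hl x y z => h3 (J', j) hj (J', l) hl (fun h => x (congrArg Prod.snd h))
        (fun h => y (congrArg Prod.snd h)) fun h => z (congrArg Prod.snd h))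
    refine ⟨L, hL, nL, fun x hx => ?_⟩
    obtain ⟨j, j1, j2, j3⟩ := sL x hx
    exact ⟨(J', j), j1, fun h => j2 (congrArg Prod.snd h), j3⟩
  · intro i hi j hj hne
    rw [Finset.disjoint_left]
    intro e he he'
    obtain ⟨_, a1, a2, a3⟩ := (hS _ _).1 he
    obtain ⟨_, b1, b2, b3⟩ := (hS _ _).1 he'
    have e1 : i.1 = j.1 := a1.symm.trans b1
    have r1 := ((mC i).1 hi).2.2.1
    have r2 := ((mC j).1 hj).2.2.1
    rcases lt_trichotomy i.2 j.2 with h | h | h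
    · exact b3 (i.2 + 1) (by omega) h (e1 ▸ r1)
    · exact hne (Prod.ext e1 h)
    · exact a3 (j.2 + 1) (by omega) h (e1 ▸ r2)
  · intro e he
    obtain ⟨e0, e4⟩ := Finset.mem_filter.1 he
    obtain ⟨⟨e1, e2⟩, a, b, hab, ha, hb⟩ := (mE e).1 e0
    obtain ⟨j1, j2, j3, j4, a', b', hab', ha', hb', j5⟩ := hι e.2 e2 e.1 e1 a b hab ha hb e4
    refine ⟨Finset.mem_filter.2 ⟨(mE _).2 ⟨⟨j1, e2⟩, a', b', hab', ha', hb'⟩, j3⟩,
      fun h => j2 (congrArg Prod.fst h), Prod.ext j4 rfl, ?_⟩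
    rintro K ⟨x, y, hx, hy, h⟩
    obtain rfl : a = x := Option.some.inj (ha.symm.trans hx)
    obtain rfl : b = y := Option.some.inj (hb.symm.trans hy)
    exact ⟨a', b', ha', hb', j5 K h⟩
  · intro i _ e he hO
    have e0 := ((hS i e).1 he).1
    have e4 := cen e e0 hO
    obtain ⟨⟨e1, e2⟩, e3⟩ := (mE e).1 e0
    obtain ⟨_, a, b, _, ha, hb, h⟩ := hc e.2 e2 ⟨e.1, e1, e3⟩
    rw [← e4] at ha hb
    exact ⟨⟨a, b, ha, hb, h⟩, Finset.singleton_nonempty _⟩
  · intro i _ e he j _ e' he' hO hO' hne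
    have e4 := cen e ((hS i e).1 he).1 hO
    have e5 := cen e' ((hS j e').1 he').1 hO'
    refine Finset.disjoint_singleton.2 fun h => hne (Prod.ext ?_ h)
    rw [e4, e5, h]

end Pool.Agent.Work.MP_3d425c_gt.To.Ph
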