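import Pool.Agent.Work.MP_3d425c_gt.To.SfEll
import Pool.Agent.Work.MP_3d425c_gt.To.SfPeel

/-! The index lemma for a product of elliptic elements. -/

namespace Pool.Agent.Work.MP_3d425c_gt.To.Ph
open Set Pool.Agent.Work.MP_3d425c_gt.Cy Pool.Agent.Work.MP_3d425c_gt.To.Ax

variable {G X : Type*} [Group G] [MulAction G X] {C : Set (ℝ → X)} {up : X → X → Prop}
  {h : G} {n : ℕ} {x : ℕ → G} {Lab : G → Finset ℕ → Prop}

theorem Lb.conj (L : Lb h n x Lab) {k : ℕ} (hk : k ≤ n) {a : G} {K : Finset ℕ} (e : Lab a K) :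
    Lab (pr x k * a * (pr x k)⁻¹) K ∧ Lab ((pr x k)⁻¹ * a * pr x k) K := by
  induction k generalizing a with
  | zero => simpa [pr] using e
  | succ k ih =>
    have h1 := (ih (by omega) (L.lc k hk a K e).1).1
    have h2 := (L.lc k hk _ K (ih (by omega) e).2).2
    simp only [pr, mul_inv_rev, mul_assoc] at h1 h2 ⊢
    exact ⟨h1, h2⟩

theorem pr_comm (c : ∀ k < n, h * x k = x k * h) {k : ℕ} (hk : k ≤ n) :
    h * pr x k = pr x k * h := by
  induction k with
  | zero => simp [pr]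
  | succ k ih => rw [pr, ← mul_assoc, ih (by omega), mul_assoc, c k hk, mul_assoc]

variable (H : Om G C up)
include H

theorem Ell.conj {y g : G} (e : Ell up h y) (c : h * g = g * h) : Ell up h (g * y * g⁻¹) := by
  have c' : h * g⁻¹ = g⁻¹ * h := (Commute.inv_right c).eq
  refine ⟨((Commute.mul_right c e.1).mul_right c').eq, fun μ hμ => ?_⟩
  have k := e.2 (g⁻¹ • μ) (by rw [← mul_smul, c', mul_smul, hμ])
  exact ⟨fun q => k.1 (by simpa [mul_smul] using q.smul H g⁻¹),
    fun q => k.2 (by simpa [mul_smul] using q.smul H g⁻¹)⟩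

theorem Ell.inv {y : G} (e : Ell up h y) : Ell up h y⁻¹ :=
  ⟨(Commute.inv_right e.1).eq, fun μ hμ => Nn.inv H (e.2 μ hμ)⟩

theorem cmp_comm {g : G} (c : h * g = g * h) {o : X} (e : Cmp C o (h • o)) :
    Cmp C (g • o) (h • g • o) := by
  rw [← mul_smul, c, mul_smul]
  exact cmp_smul H g e

theorem fix_of_class {a b : X × Bool} (l : hE C a b) (hb : h • b.1 = b.1) {p : X}
    (ha : hm up a p) (e : Cmp C p (h • p)) : h • a.1 = a.1 := by
  have E := H.hE_equiv
  have l' : hE C a (hs h a) := by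
    have := hE_hs H h l
    rw [show hs h b = b from Prod.ext hb rfl] at this
    exact E.trans l (E.symm this)
  by_contra q
  exact cmp_nj H e a ⟨a, hs h a, E.refl _, l', fun k => q (congrArg Prod.fst k).symm, ha,
    hm_hs H h ha⟩

/-- If no junction separates `o` from its image under a product of elliptic elements with
independent labels then none separates it from its image under a factor. -/
theorem ph (rk : Rk G X) (hx : ∀ k < n, Ell up h (x k)) (L : Lb h n x Lab) {o : X}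
    (ho : Cmp C o (h • o)) (hw : Cmp C o (pr x n • o)) : ∀ k < n, Cmp C o (x k • o) := by
  classical
  have E := H.hE_equiv
  have cm : ∀ k ≤ n, h * pr x k = pr x k * h := fun k hk => pr_comm (fun k hk => (hx k hk).1) hk
  have co : ∀ k ≤ n, Cmp C (pr x k • o) (h • pr x k • o) := fun k hk => cmp_comm H (cm k hk) ho
  have ey : ∀ k < n, Ell up h (pr x k * x k * (pr x k)⁻¹) := fun k hk =>
    (hx k hk).conj H (cm k hk.le)
  have st : ∀ k, (pr x k * x k * (pr x k)⁻¹) • pr x k • o = pr x (k + 1) • o := fun k => by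
    rw [← mul_smul, inv_mul_cancel_right, pr]
  have fx : ∀ k < n, ∀ a b, hE C a b → a ≠ b → hm up a (pr x k • o) →
      hm up b (pr x (k + 1) • o) → h • a.1 = a.1 ∧ h • b.1 = b.1 := fun k hk a b l ne h1 h2 =>
    jump_fix H l ne h1 h2 (co k hk.le) (co _ hk)
  have sd := fun (k : ℕ) (hk : k < n) => side H (y := pr x k * x k * (pr x k)⁻¹) (o := pr x k • o)
    fun a b l ne h1 h2 => by
      obtain ⟨f1, f2⟩ := fx k hk a b l ne h1 (st k ▸ h2)
      exact ⟨(ey k hk).2 _ f1, (ey k hk).2 _ f2⟩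
  simp only [st] at sd
  have : Nonempty (Quotient (Om.wdS H) → Quotient (Om.wdS H)) := ⟨id⟩
  choose! c ι hc hι using sd
  let T : Finset (Quotient (Om.wdS H)) := (Finset.range n).biUnion fun k =>
    (Om.wd_fin H (pr x k • o) (pr x (k + 1) • o)).toFinset
  have mT : ∀ J, J ∈ T ↔ ∃ k < n, Jump C up J.out (pr x k • o) (pr x (k + 1) • o) := fun J => by
    simp [T]
  have fT : ∀ J ∈ T, ∀ k ≤ n, ∀ a, hE C J.out a → hm up a (pr x k • o) → h • a.1 = a.1 := by
    intro J hJ k hk a l ha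
    obtain ⟨i, hi, a', b', l1, l2, ne, h1, h2⟩ := (mT J).1 hJ
    exact fix_of_class H (E.trans (E.symm l) l1)
      (fx i hi a' b' (E.trans (E.symm l1) l2) ne h1 h2).1 ha (co k hk)
  have key := peel T n (fun J k => pos H J (pr x k • o))
    (fun a b K => ∃ W, Lab W K ∧ hs W a = b) (fun a => ⟨1, L.l0, hs_one a⟩)
    (fun a b c K K' ⟨W, w1, w2⟩ ⟨W', w3, w4⟩ d => ⟨W' * W, by
      rw [Finset.union_comm]
      exact L.lm _ _ _ _ w3 w1 d.symm, by rw [hs_mul, w2, w4]⟩)
    (fun J _ j => cmp_nj H hw.symm J.out (by simpa [pr] using (pos_jump H).2 j))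
    (fun k _ J _ J' _ a b => by
      simp only [ne_eq, pos_eq H] at a b
      exact quot_eq H (H.centre_unique a b))
    (fun k hk e J hJ => by
      have c1 : Cmp C (pr x k • o) ((pr x k * x k * (pr x k)⁻¹) • pr x k • o) := by
        rw [st]
        refine nj_cmp H fun j q => ?_
        have q' := Om.wd_jump_congr H (E.symm (Om.wd_out H j)) q
        exact e _ ((mT _).2 ⟨k, hk, q'⟩) ((pos_jump H).1 q')
      refine (pos_eq H).2 fun a l => ?_
      rw [← st]
      exact ⟨fun q => (deg H (ey k hk) c1 (fT J hJ k hk.le a l q)).1 q,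
        fun q => (deg H (ey k hk) c1 (fT J hJ (k + 1) hk a l (st k ▸ q))).2 q⟩)
    (fun k => (c k).getD (Quotient.mk _ (o, true))) ι
    (fun k hk ⟨J, _, j⟩ => by
      obtain ⟨J', a, e1, e2, e3, e4⟩ := hc k hk ⟨J, (pos_jump H).2 j⟩
      simp only [e1, Option.getD_some]
      exact ⟨(mT _).2 ⟨k, hk, (pos_jump H).2 ⟨_, _, e2, e3, e4⟩⟩, a, _, e2, e3, e4, _,
        (L.conj hk.le (L.l1 k hk)).1, rfl⟩)
    (fun k hk J _ a b ne h1 h2 nc => by
      obtain ⟨J', -, e1, -⟩ := hc k hk ⟨J, (pos_jump H).2 ⟨a, b, ne, h1, h2⟩⟩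
      simp only [e1, Option.getD_some] at nc ⊢
      obtain ⟨m1, m2, m3, g, m4, m5, m6⟩ := hι k hk J a b ne h1 h2 (by simpa [e1] using nc)
      refine ⟨(mT _).2 ⟨k, hk, (pos_jump H).2 ⟨_, _, hs_ne g ne.symm, m5, m6⟩⟩, m1,
        by simpa [e1] using m2, m3, _, _, hs_ne g ne.symm, m5, m6, fun K ⟨W, w1, w2⟩ =>
          ⟨g * W * g⁻¹, ?_, by rw [hs_mul, hs_mul, hs_inv, w2]⟩⟩
      have z := L.lc k hk _ K (L.conj hk.le w1).2
      rcases m4 with rfl | rfl
      · simpa only [mul_inv_rev, inv_inv, mul_assoc] using (L.conj hk.le z.1).1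
      · simpa only [mul_inv_rev, inv_inv, mul_assoc] using (L.conj hk.le z.2).1)
    (fun J hJ k hk a K h1 h2 ⟨W, w1, w2⟩ => by
      obtain ⟨a1, a2⟩ := (pos_some H).1 h1
      exact L.lf W K w1 h2 (rk a.1 W h (congrArg Prod.fst w2) (fT J hJ k hk a a1 a2)))
  intro k hk
  have c1 : Cmp C (pr x k • o) (pr x (k + 1) • o) := nj_cmp H fun j q => by
    have q' := Om.wd_jump_congr H (E.symm (Om.wd_out H j)) q
    exact key k hk _ ((mT _).2 ⟨k, hk, q'⟩) ((pos_jump H).1 q')
  simpa [pr, mul_smul] using cmp_smul H (pr x k)⁻¹ c1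

/-- A fixed point of the fibre is not moved along a line by the product. -/
theorem ph_fix (rk : Rk G X) (hx : ∀ k < n, Ell up h (x k)) (L : Lb h n x Lab) {o : X}
    (ho : h • o = o) (hw : Cmp C o (pr x n • o)) : pr x n • o = o := by
  have a : ∀ k < n, x k • o = o := fun k hk => by
    rcases ph H rk hx L (ho.symm ▸ cmp_refl o) hw k hk with (e | e) | e | e
    · exact e.symm
    · exact absurd (asc_nest H e) ((hx k hk).2 o ho).1
    · exact e
    · exact absurd (asc_nest H e) ((hx k hk).2 o ho).2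
  have b : ∀ k ≤ n, pr x k • o = o := fun k hk => by
    induction k with
    | zero => simp [pr]
    | succ k ih => rw [pr, mul_smul, a k hk, ih (by omega)]
  exact b n le_rfl

/-- A line of the fibre that the product keeps is kept by every factor. -/
theorem ph_hull (rk : Rk G X) (hx : ∀ k < n, Ell up h (x k)) (L : Lb h n x Lab) {o : X}
    (ho : Asc C o (h • o)) (hw : Cmp C o (pr x n • o)) :
    ∀ g ∈ Subgroup.closure ({h} ∪ x '' Iio n), Hull C h o (g • o) := by
  refine hull_gen H ?_ ho ?_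
  · rintro g (rfl | ⟨k, hk, rfl⟩)
    exacts [rfl, (hx k hk).1]
  · rintro g (e | ⟨k, hk, rfl⟩)
    · obtain rfl : g = h := e
      have i : Le C (g⁻¹ • o) o := by simpa using le_smul H g⁻¹ (.inr ho : Le C o (g • o))
      exact ⟨⟨1, by simpa using le_tr H i (.inr ho), by simpa using .inl rfl⟩,
        ⟨1, by simpa using .inl rfl, by simpa using le_tr H i (.inr ho)⟩⟩
    · have c := ph H rk hx L (.inl (.inr ho)) hw k hk
      exact ⟨hull_ell H (hx k hk) ho c, hull_ell H ((hx k hk).inv H) ho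
        (by simpa using (cmp_smul H (x k)⁻¹ c).symm)⟩

end Pool.Agent.Work.MP_3d425c_gt.To.Ph
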