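import Pool.Agent.Work.MP_3d425c_gt.To.SfOrd

/-! Two slopes with a common kernel element are detected together. -/

namespace Pool.Agent.Work.MP_3d425c_gt.To.Ph
open Set Subgroup Pool.Agent.Work.MP_3d425c_gt.Gl Pool.Agent.Work.MP_3d425c_gt.To.Ax

variable {G : Type*} [Group G] {V : Subgroup G}

theorem det_par {h x : G} (cm : h * x = x * h) (le : closure {h, x} ≤ V) {π s : G → ℝ}
    {r : G → G → Prop} (l : Lin V r) (i : Inv V V r) (sp : Sl (closure {h, x}) π)
    (ss : Sl (closure {h, x}) s) {τ : G} (t1 : τ ∈ closure {h, x}) (t2 : τ ≠ 1) (p0 : π τ = 0)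
    (s0 : s τ = 0) (px : ∃ p ∈ closure {h, x}, 0 < π p) (d : Det (closure {h, x}) π V r) :
    Det (closure {h, x}) s V r := by
  have m1 : h ∈ closure {h, x} := subset_closure (.inl rfl)
  have m2 : x ∈ closure {h, x} := subset_closure (.inr rfl)
  have f : ∀ t : G → ℝ, Sl (closure {h, x}) t → ∀ a b : ℤ, t (h ^ a * x ^ b) = a * t h + b * t x :=
    fun t st a b => by rw [st.add _ (zpow_mem m1 a) _ (zpow_mem m2 b), st.zpow m1, st.zpow m2]
  obtain ⟨a, b, rfl⟩ := (mem_pair cm).1 t1
  obtain ⟨p, hp, p1⟩ := px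
  rw [f π sp] at p0
  rw [f s ss] at s0
  have dt : π h * s x = π x * s h := by
    by_cases a0 : (a : ℝ) = 0
    · have b0 : (b : ℝ) ≠ 0 := fun e => t2 (by
        rw [show a = 0 by exact_mod_cast a0, show b = 0 by exact_mod_cast e]
        simp)
      refine mul_left_cancel₀ b0 ?_
      linear_combination π h * s0 - s h * p0
    · refine mul_left_cancel₀ a0 ?_
      linear_combination s x * p0 - π x * s0
  have e : ∀ q ∈ closure {h, x}, s q * π p = s p * π q := fun q hq => by
    obtain ⟨a, b, rfl⟩ := (mem_pair cm).1 hq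
    obtain ⟨a', b', rfl⟩ := (mem_pair cm).1 hp
    rw [f s ss, f s ss, f π sp, f π sp]
    linear_combination ((b : ℝ) * a' - a * b') * dt
  have d' := d.neg l ((Cl.self V).mono le) (i.mono le le_rfl) sp
  by_cases q : 0 < s p
  · have k : ∀ u ∈ closure {h, x}, 0 < s u → 0 < π u := fun u hu a =>
      (mul_pos_iff_of_pos_left q).1 (e u hu ▸ mul_pos a p1)
    exact fun y hy u hu v hv a b => d y hy u hu v hv (k u hu a) (k v hv b)
  · have k : ∀ u ∈ closure {h, x}, 0 < s u → 0 < -π u := fun u hu a => by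
      have := e u hu ▸ mul_pos a p1
      by_contra z
      nlinarith [mul_nonneg (neg_nonneg.2 (not_lt.1 q)) (neg_nonpos.1 (not_lt.1 z))]
    exact fun y hy u hu v hv a b => d' y hy u hu v hv (k u hu a) (k v hv b)

end Pool.Agent.Work.MP_3d425c_gt.To.Ph
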