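import Mathlib

/-! A product of elliptic elements that makes no jump. -/

namespace Pool.Agent.Work.MP_3d425c_gt.To
open Set

/-- two different proper labels -/
def Dp {Y : Type*} (p q : Option Y) : Prop := ∃ y y', y ≠ y' ∧ p = some y ∧ q = some y'

theorem Dp.ne {Y : Type*} {p q : Option Y} (h : Dp p q) : p ≠ q := by
  obtain ⟨y, y', hn, rfl, rfl⟩ := h
  simpa using hn

theorem Dp.symm {Y : Type*} {p q : Option Y} (h : Dp p q) : Dp q p := by
  obtain ⟨y, y', hn, a, b⟩ := h
  exact ⟨y', y, hn.symm, b, a⟩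

/-- junctions `Jn`, labels `pos`, the label `ps J J'` of a junction, elliptic elements `El` -/
structure PH {G X Jn Y : Type*} [Group G] [MulAction G X] [MulAction G Jn] [MulAction G Y]
    (pos : Jn → X → Option Y) (ps : Jn → Jn → Option Y) (El Bad : G → Prop) (o : X) : Prop where
  pos_smul : ∀ (g : G) J a, pos (g • J) (g • a) = (pos J a).map (g • ·)
  ps_smul : ∀ (g : G) J J', J ≠ J' → ps (g • J) (g • J') = (ps J J').map (g • ·)
  sep : ∀ J J', J ≠ J' → ∀ a, pos J' a = ps J' J ∨ pos J a = ps J J'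
  sep2 : ∀ J J' K, J ≠ J' → K ≠ J → K ≠ J' → ps J' K = ps J' J ∨ ps J K = ps J J'
  fin : ∀ a b, {J | Dp (pos J a) (pos J b)}.Finite
  conj : ∀ g x, El x → El (g * x * g⁻¹)
  cen : ∀ x, El x → (∀ J, pos J (x • o) = pos J o) ∨ ∃ J, x • J = J ∧ Dp (pos J o) (pos J (x • o))
  fx : ∀ J y (z : G), pos J o = some y → z • y = y → Bad z
  mrg : ∀ x x' (J : Jn) y, pos J o = some y → El x → El x' → x • J = J → x' • J = J →
    ¬ Bad (x * x') → El (x * x')

/-- number of jumps -/
noncomputable def phD {X Jn Y : Type*} (pos : Jn → X → Option Y) (a b : X) : ℕ :=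
  {J | Dp (pos J a) (pos J b)}.ncard

/-- jumps between a point and a junction -/
def phF {X Jn Y : Type*} (pos : Jn → X → Option Y) (ps : Jn → Jn → Option Y) (J : Jn) (a : X) :
    Set Jn := {K | K ≠ J ∧ Dp (pos K a) (ps K J)}

namespace PH

variable {G X Jn Y : Type*} [Group G] [MulAction G X] [MulAction G Jn] [MulAction G Y]
  {pos : Jn → X → Option Y} {ps : Jn → Jn → Option Y} {El Bad : G → Prop} {o : X}
  (h : PH pos ps El Bad o)

omit [MulAction G X] [MulAction G Jn] in
theorem dp_map (g : G) {p q : Option Y} : Dp (p.map (g • ·)) (q.map (g • ·)) ↔ Dp p q := by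
  cases p <;> cases q <;> simp [Dp]

include h

theorem d_smul (g : G) (a b : X) : phD pos (g • a) (g • b) = phD pos a b := by
  have : {J | Dp (pos J (g • a)) (pos J (g • b))} = (g • ·) '' {J | Dp (pos J a) (pos J b)} := by
    ext J
    constructor
    · intro hJ
      refine ⟨g⁻¹ • J, ?_, smul_inv_smul g J⟩
      have : Dp (pos (g • g⁻¹ • J) (g • a)) (pos (g • g⁻¹ • J) (g • b)) := by
        rw [smul_inv_smul]; exact hJ
      rwa [h.pos_smul, h.pos_smul, dp_map] at this
    · rintro ⟨K, hK, rfl⟩
      show Dp (pos (g • K) (g • a)) (pos (g • K) (g • b))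
      rwa [h.pos_smul, h.pos_smul, dp_map]
  unfold phD
  rw [this, ncard_image_of_injective _ (MulAction.injective g)]

theorem f_smul (g : G) (J : Jn) (a : X) :
    (phF pos ps (g • J) (g • a)).ncard = (phF pos ps J a).ncard := by
  have : phF pos ps (g • J) (g • a) = (g • ·) '' phF pos ps J a := by
    ext K
    constructor
    · rintro ⟨h1, h2⟩
      have h3 : g⁻¹ • K ≠ J := fun e => h1 (by rw [← e, smul_inv_smul])
      refine ⟨g⁻¹ • K, ⟨h3, ?_⟩, smul_inv_smul g K⟩
      have : Dp (pos (g • g⁻¹ • K) (g • a)) (ps (g • g⁻¹ • K) (g • J)) := by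
        rw [smul_inv_smul]; exact h2
      rwa [h.pos_smul, h.ps_smul _ _ _ h3, dp_map] at this
    · rintro ⟨K, ⟨h1, h2⟩, rfl⟩
      refine ⟨fun e => h1 (MulAction.injective g e), ?_⟩
      show Dp (pos (g • K) (g • a)) (ps (g • K) (g • J))
      rwa [h.pos_smul, h.ps_smul _ _ _ h1, dp_map]
  rw [this, ncard_image_of_injective _ (MulAction.injective g)]

theorem f_sub {J : Jn} {a b : X} (hab : pos J a ≠ pos J b) {K : Jn} (hK : K ∈ phF pos ps J a) :
    Dp (pos K a) (pos K b) ∧ ps J K = pos J a := by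
  obtain ⟨h1, h2⟩ := hK
  have a1 : pos J a = ps J K := (h.sep J K h1.symm a).resolve_left h2.ne
  have a2 : pos K b = ps K J := (h.sep J K h1.symm b).resolve_right fun e => hab (a1.trans e.symm)
  exact ⟨a2 ▸ h2, a1.symm⟩

theorem f_fin {J : Jn} {a b : X} (hab : pos J a ≠ pos J b) : (phF pos ps J a).Finite :=
  (h.fin a b).subset fun _ hK => (h.f_sub hab hK).1

theorem lower {J : Jn} {a b : X} (hab : pos J a ≠ pos J b) :
    (phF pos ps J a).ncard + (phF pos ps J b).ncard ≤ phD pos a b ∧
    (Dp (pos J a) (pos J b) →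
      (phF pos ps J a).ncard + (phF pos ps J b).ncard + 1 ≤ phD pos a b) := by
  have fa := h.f_fin hab
  have fb := h.f_fin hab.symm
  have hd : Disjoint (phF pos ps J a) (phF pos ps J b) := disjoint_left.2 fun K h1 h2 =>
    hab ((h.f_sub hab h1).2.symm.trans (h.f_sub hab.symm h2).2)
  have hs : phF pos ps J a ∪ phF pos ps J b ⊆ {J | Dp (pos J a) (pos J b)} := by
    rintro K (h1 | h1)
    · exact (h.f_sub hab h1).1
    · exact (h.f_sub hab.symm h1).1.symm
  rw [← ncard_union_eq hd fa fb]
  refine ⟨ncard_le_ncard hs (h.fin a b), fun hJ => ?_⟩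
  have hn : J ∉ phF pos ps J a ∪ phF pos ps J b := by
    rintro (h1 | h1) <;> exact h1.1 rfl
  rw [← ncard_insert_of_notMem hn (fa.union fb)]
  exact ncard_le_ncard (insert_subset hJ hs) (h.fin a b)

theorem cu {J K : Jn} {a b c : X} (h1 : pos J a ≠ pos J b) (h2 : pos J b ≠ pos J c)
    (h3 : pos J a ≠ pos J c) (k1 : pos K a ≠ pos K b) (k2 : pos K b ≠ pos K c)
    (k3 : pos K a ≠ pos K c) : J = K := by
  by_contra hn
  rcases h.sep J K hn a with x | x <;> rcases h.sep J K hn b with y | y <;>
    rcases h.sep J K hn c with z | z <;> simp_all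

theorem upper {J : Jn} {x : G} (hx : x • J = J) {b b' : X} (hb : pos J b ≠ pos J b') (a : X) :
    phD pos a (x • a) ≤ 2 * (phF pos ps J a).ncard + 1 := by
  have ex : ∀ a', ∃ c, pos J a' ≠ pos J c := fun a' => by
    by_cases e : pos J a' = pos J b
    · exact ⟨b', e ▸ hb⟩
    · exact ⟨b, e⟩
  have ff : ∀ a', (phF pos ps J a').Finite := fun a' => h.f_fin (ex a').choose_spec
  have e1 : (phF pos ps J (x • a)).ncard = (phF pos ps J a).ncard := by
    have := h.f_smul x J a
    rwa [hx] at this
  set R : Set Jn := {K | Dp (pos K a) (pos K (x • a)) ∧ (K = J ∨ ps K J = none)} with hR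
  have key : ∀ K, K ≠ J → Dp (pos K a) (pos K (x • a)) → ps K J = none →
      pos J a = ps J K ∧ pos J (x • a) = ps J K := fun K hK hd hp => by
    obtain ⟨y, y', -, e, e'⟩ := hd
    exact ⟨(h.sep J K hK.symm a).resolve_left (by simp [e, hp]),
      (h.sep J K hK.symm _).resolve_left (by simp [e', hp])⟩
  have hR1 : R.Subsingleton := by
    rintro K ⟨d1, h1⟩ K' ⟨d2, h2⟩
    by_cases e : K = J <;> by_cases e' : K' = J
    · rw [e, e']
    · obtain ⟨u, v⟩ := key K' e' d2 (h2.resolve_left e')
      exact absurd (u.trans v.symm) (e ▸ d1).ne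
    · obtain ⟨u, v⟩ := key K e d1 (h1.resolve_left e)
      exact absurd (u.trans v.symm) (e' ▸ d2).ne
    · obtain ⟨c, hc⟩ := ex a
      have p1 := h1.resolve_left e
      have p2 := h2.resolve_left e'
      have q1 : pos K c = none := ((h.sep J K (Ne.symm e) c).resolve_right fun w =>
        hc ((key K e d1 p1).1.trans w.symm)).trans p1
      have q2 : pos K' c = none := ((h.sep J K' (Ne.symm e') c).resolve_right fun w =>
        hc ((key K' e' d2 p2).1.trans w.symm)).trans p2
      have n1 := d1.ne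
      have n2 := d2.ne
      obtain ⟨y, y', -, s, s'⟩ := d1
      obtain ⟨z, z', -, t, t'⟩ := d2
      exact h.cu (c := c) n1 (by simp [s', q1]) (by simp [s, q1]) n2 (by simp [t', q2])
        (by simp [t, q2])
  have hs : {K | Dp (pos K a) (pos K (x • a))} ⊆
      (phF pos ps J a ∪ phF pos ps J (x • a)) ∪ R := by
    intro K hK
    by_cases e : K = J
    · exact Or.inr ⟨hK, Or.inl e⟩
    cases hp : ps K J with
    | none => exact Or.inr ⟨hK, Or.inr hp⟩
    | some w =>
      obtain ⟨y, y', hn, s, s'⟩ := hK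
      by_cases e2 : y = w
      · exact Or.inl (Or.inr ⟨e, y', w, fun t => hn (e2.trans t.symm), s', hp⟩)
      · exact Or.inl (Or.inl ⟨e, y, w, e2, s, hp⟩)
  have b1 := ncard_le_ncard hs (((ff a).union (ff _)).union hR1.finite)
  have b2 := ncard_union_le (phF pos ps J a ∪ phF pos ps J (x • a)) R
  have b3 := ncard_union_le (phF pos ps J a) (phF pos ps J (x • a))
  have b4 : R.ncard ≤ 1 := (ncard_le_one hR1.finite).2 fun _ u _ v => hR1 u v
  unfold phD
  omega

theorem side {J K : Jn} {a b : X} (hn : J ≠ K) (h1 : pos J a ≠ pos J b) (h2 : pos K a ≠ pos K b) :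
    (pos K a = ps K J ∧ pos J b = ps J K) ∨ (pos J a = ps J K ∧ pos K b = ps K J) := by
  rcases h.sep J K hn a with x | x <;> rcases h.sep J K hn b with y | y
  · exact absurd (x.trans y.symm) h2
  · exact Or.inl ⟨x, y⟩
  · exact Or.inr ⟨x, y⟩
  · exact absurd (x.trans y.symm) h1

theorem lt_of_before {J K : Jn} {a b : X} (hn : J ≠ K) (h1 : Dp (pos J a) (pos J b))
    (h2 : Dp (pos K a) (pos K b)) (x : pos K a = ps K J) (y : pos J b = ps J K) :
    (phF pos ps J a).ncard < (phF pos ps K a).ncard := by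
  refine ncard_lt_ncard ⟨fun L hL => ?_, fun hs => (hs ⟨hn, y ▸ h1⟩).1 rfl⟩ (h.f_fin h2.ne)
  obtain ⟨d, e⟩ := h.f_sub h1.ne hL
  have hLK : L ≠ K := fun e' => hL.2.ne (e' ▸ x)
  refine ⟨hLK, ?_⟩
  rcases h.side hLK d.ne h2.ne with ⟨-, v⟩ | ⟨u, v⟩
  · exact v ▸ d
  · rcases h.sep2 L K J hLK hL.1.symm hn with t | t
    · exact absurd (x.trans (t.trans v.symm)) h2.ne
    · exact absurd (u.trans t.symm) hL.2.ne

theorem mid {J K : Jn} {a b : X} (h1 : Dp (pos J a) (pos J b)) (h2 : Dp (pos K a) (pos K b))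
    (e : (phF pos ps J a).ncard = (phF pos ps K a).ncard) : J = K := by
  by_contra hn
  rcases h.side hn h1.ne h2.ne with ⟨x, y⟩ | ⟨x, y⟩
  · exact (h.lt_of_before hn h1 h2 x y).ne e
  · exact (h.lt_of_before (Ne.symm hn) h2 h1 x y).ne e.symm

omit h in
theorem step {Q : ℕ → Prop} {s t : ℕ} (hst : s ≤ t) (hs : Q s) (ht : ¬ Q t) :
    ∃ i, s ≤ i ∧ i < t ∧ Q i ∧ ¬ Q (i + 1) := by
  induction t, hst using Nat.le_induction with
  | base => exact absurd hs ht
  | succ t hst ih =>
    by_cases q : Q t
    · exact ⟨t, hst, by omega, q, ht⟩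
    · obtain ⟨i, a, b, c⟩ := ih q
      exact ⟨i, a, by omega, c⟩

theorem core {n : ℕ} (hn : 0 < n) (p : ℕ → X) (x : ℕ → G) (J : ℕ → Jn)
    (hp : ∀ k < n, p (k + 1) = x k • p k) (hJ : ∀ k < n, x k • J k = J k)
    (hd : ∀ k < n, Dp (pos (J k) (p k)) (pos (J k) (p (k + 1))))
    (hm : ∀ k < n, ∀ j ≤ n, phD pos (p k) (p (k + 1)) ≤ phD pos (p j) (x k • p j))
    (h0 : ∀ K, ¬ Dp (pos K (p 0)) (pos K (p n))) :
    ∃ k < n, ∃ i < n, k ≠ i ∧ J k = J i := by
  classical
  by_contra hno
  have inj : ∀ k < n, ∀ i < n, J k = J i → k = i := fun k hk i hi e => by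
    by_contra c
    exact hno ⟨k, hk, i, hi, c, e⟩
  have odd : ∀ k < n, phD pos (p k) (p (k + 1)) = 2 * (phF pos ps (J k) (p k)).ncard + 1 :=
    fun k hk => by
      have a1 := (h.lower (hd k hk).ne).2 (hd k hk)
      have a2 := h.upper (hJ k hk) (hd k hk).ne (p k)
      have a3 := h.f_smul (x k) (J k) (p k)
      rw [hJ k hk, ← hp k hk] at a3
      rw [← hp k hk] at a2
      omega
  obtain ⟨k0, hk0, hmax⟩ := (Finset.range n).exists_max_image
    (fun k => phD pos (p k) (p (k + 1))) ⟨0, Finset.mem_range.2 hn⟩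
  set c := (phF pos ps (J k0) (p k0)).ncard with hc
  have hD := odd k0 (Finset.mem_range.1 hk0)
  set M := (Finset.range n).filter fun k => phD pos (p k) (p (k + 1)) = 2 * c + 1 with hM
  have mem : ∀ k, k ∈ M ↔ k < n ∧ phD pos (p k) (p (k + 1)) = 2 * c + 1 := fun k => by
    simp [hM]
  have far : ∀ k ∈ M, ∀ j ≤ n, c ≤ (phF pos ps (J k) (p j)).ncard := fun k hk j hj => by
    obtain ⟨a, b⟩ := (mem k).1 hk
    have a1 := hm k a j hj
    have a2 := h.upper (hJ k a) (hd k a).ne (p j)
    omega
  have chg : ∀ k ∈ M, ∀ i < n, pos (J k) (p i) ≠ pos (J k) (p (i + 1)) →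
      i ∈ M ∧ (Dp (pos (J k) (p i)) (pos (J k) (p (i + 1))) → k = i) := fun k hk i hi hne => by
    have a1 := h.lower hne
    have a2 := far k hk i hi.le
    have a3 := far k hk (i + 1) hi
    have a4 := odd i hi
    have a5 := hmax i (Finset.mem_range.2 hi)
    refine ⟨(mem i).2 ⟨hi, by omega⟩, fun hdp => ?_⟩
    have a6 := a1.2 hdp
    exact inj k ((mem k).1 hk).1 i hi (h.mid hdp (hd i hi) (by omega))
  have hne : M.Nonempty := ⟨k0, (mem k0).2 ⟨Finset.mem_range.1 hk0, hD⟩⟩
  set b := M.min' hne with hb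
  have hbn : b < n := ((mem b).1 (M.min'_mem hne)).1
  have rain : ∀ k ∈ M, ∃ i ∈ M.erase b, pos (J k) (p b) ≠ pos (J k) (p i) ∧
      pos (J k) (p i) ≠ pos (J k) (p (i + 1)) ∧ pos (J k) (p b) ≠ pos (J k) (p (i + 1)) := by
    intro k hk
    have hkn := ((mem k).1 hk).1
    have base : pos (J k) (p b) = pos (J k) (p 0) := by
      by_contra hc'
      obtain ⟨i, -, a2, a3, a4⟩ := step (Q := fun j => pos (J k) (p j) = pos (J k) (p 0))
        (Nat.zero_le b) rfl hc'
      have := M.min'_le i (chg k hk i (by omega) fun e => a4 (e ▸ a3)).1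
      omega
    have fin : ∀ i ∈ M, pos (J k) (p b) ≠ pos (J k) (p i) → i ∈ M.erase b := fun i hi e =>
      Finset.mem_erase.2 ⟨fun e' => e (by rw [e']), hi⟩
    obtain ⟨y, y', hy, e1, e2⟩ := hd k hkn
    by_cases c1 : pos (J k) (p b) = some y
    · have a0 : ¬ pos (J k) (p n) = some y' := fun e => h0 (J k) ⟨y, y', hy, base ▸ c1, e⟩
      obtain ⟨i, a1, a2, a3, a4⟩ := step (Q := fun j => pos (J k) (p j) = some y') hkn e2 a0
      obtain ⟨b1, b2⟩ := chg k hk i a2 fun e => a4 (e ▸ a3)
      have b3 : pos (J k) (p b) ≠ pos (J k) (p i) := by rw [c1, a3]; simpa using hy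
      refine ⟨i, fin i b1 b3, b3, fun e => a4 (e ▸ a3), fun e => ?_⟩
      have := b2 ⟨y', y, hy.symm, a3, e ▸ c1⟩
      omega
    by_cases c2 : pos (J k) (p b) = some y'
    · obtain ⟨i, a1, a2, a3, a4⟩ := step (Q := fun j => ¬ pos (J k) (p j) = some y)
        (M.min'_le k hk) c1 (not_not.2 e1)
      have a5 := not_not.1 a4
      obtain ⟨b1, b2⟩ := chg k hk i (by omega) fun e => a3 (e ▸ a5)
      have b3 : pos (J k) (p b) ≠ pos (J k) (p i) := fun e => by
        have := b2 ⟨y', y, hy.symm, e ▸ c2, a5⟩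
        omega
      exact ⟨i, fin i b1 b3, b3, fun e => a3 (e ▸ a5), fun e => c1 (e ▸ a5)⟩
    · have b3 : pos (J k) (p b) ≠ pos (J k) (p k) := fun e => c1 (e.trans e1)
      exact ⟨k, fin k hk b3, b3, (hd k hkn).ne, fun e => c2 (e.trans e2)⟩
  choose! f hf using rain
  have := Finset.card_le_card_of_injOn (s := M) (t := M.erase b) f (fun k hk => (hf k hk).1)
    fun k hk k' hk' e => by
      obtain ⟨-, u1, u2, u3⟩ := hf k hk
      obtain ⟨-, v1, v2, v3⟩ := hf k' hk'
      rw [← e] at v1 v2 v3
      exact inj k ((mem k).1 hk).1 k' ((mem k').1 hk').1 (h.cu u1 u2 u3 v1 v2 v3)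
  have := Finset.card_erase_lt_of_mem (M.min'_mem hne)
  rw [← hb] at this
  omega

theorem pos_mul {x : G} (hx : ∀ J, pos J (x • o) = pos J o) (g : G) (J : Jn) :
    pos J ((g * x) • o) = pos J (g • o) := by
  have a := h.pos_smul g (g⁻¹ • J) (x • o)
  have b := h.pos_smul g (g⁻¹ • J) o
  rw [smul_inv_smul] at a b
  rw [mul_smul, a, b, hx]

/-- the elements that keep all labels of the base point -/
def keep : Subgroup G where
  carrier := {x | ∀ J, pos J (x • o) = pos J o}
  one_mem' := fun J => by rw [one_smul]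
  mul_mem' := fun {a b} ha hb J => (h.pos_mul hb a J).trans (ha J)
  inv_mem' := fun {a} ha J => by
    have := h.pos_mul ha a⁻¹ J
    rw [inv_mul_cancel, one_smul] at this
    exact this.symm

omit h in
theorem move (A B : List G) (x : G) (j : ℕ) : ∃ A' B' : List G, A' ++ B' = A ++ B ∧
    (A' ++ (((A ++ x :: B).take j).prod⁻¹ * (A.prod * x * A.prod⁻¹) *
      ((A ++ x :: B).take j).prod) :: B').prod = (A ++ x :: B).prod := by
  by_cases hj : j ≤ A.length
  · refine ⟨A.take j, A.drop j ++ B, by rw [← List.append_assoc, List.take_append_drop], ?_⟩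
    rw [List.take_append_of_le_length hj]
    have e : A.prod = (A.take j).prod * (A.drop j).prod := by
      rw [← List.prod_append, List.take_append_drop]
    simp only [List.prod_append, List.prod_cons]
    generalize (A.take j).prod = u at *
    generalize (A.drop j).prod = v at *
    rw [e]; group
  · obtain ⟨i, rfl⟩ : ∃ i, j = A.length + (i + 1) := ⟨j - A.length - 1, by omega⟩
    refine ⟨A ++ B.take i, B.drop i, by rw [List.append_assoc, List.take_append_drop], ?_⟩
    rw [List.take_length_add_append, List.take_succ_cons]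
    have e : B.prod = (B.take i).prod * (B.drop i).prod := by
      rw [← List.prod_append, List.take_append_drop]
    simp only [List.prod_append, List.prod_cons]
    generalize (B.take i).prod = u at *
    generalize (B.drop i).prod = v at *
    rw [e]; group

omit h in
theorem prod_conj (x : G) (B : List G) :
    (B.map fun b => x * b * x⁻¹).prod = x * B.prod * x⁻¹ := by
  induction B with
  | nil => simp
  | cons b B ih => rw [List.map_cons, List.prod_cons, ih, List.prod_cons]; group

omit h in
theorem split {l : List G} {k : ℕ} (hk : k < l.length) :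
    l = l.take k ++ l.getD k 1 :: l.drop (k + 1) := by
  rw [List.getD_eq_getElem _ _ hk, ← List.drop_eq_getElem_cons hk, List.take_append_drop]

theorem ph (Adm : Multiset G → Prop) (B1 : ∀ x s, Adm (x ::ₘ s) → Adm s)
    (B2 : ∀ g x s, Adm (x ::ₘ s) → Adm ((g * x * g⁻¹) ::ₘ s))
    (B3 : ∀ x y s, Adm (x ::ₘ y ::ₘ s) → ¬ Bad (x * y) ∧ Adm ((x * y) ::ₘ s))
    (l : List G) (hl : ∀ x ∈ l, El x) (hw : Adm l)
    (h0 : ∀ J, ¬ Dp (pos J o) (pos J (l.prod • o))) : ∀ x ∈ l, x ∈ h.keep := by
  classical
  have B4 : ∀ (g : G) (t : List G) s, Adm (↑t + s) →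
      Adm (↑(t.map fun b => g * b * g⁻¹) + s) := fun g t => by
    induction t with
    | nil => exact fun s e => e
    | cons a t ih =>
      intro s e
      rw [← Multiset.cons_coe, Multiset.cons_add] at e
      have := ih ((g * a * g⁻¹) ::ₘ s) (by rw [Multiset.add_cons]; exact B2 g a _ e)
      rwa [Multiset.add_cons, ← Multiset.cons_add, Multiset.cons_coe] at this
  induction hn : l.length using Nat.strong_induction_on generalizing l with
  | _ n ih =>
  induction hN : (l.map fun x => phD pos o (x • o)).sum using Nat.strong_induction_on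
    generalizing l with
  | _ N ih2 =>
  by_cases hk : ∃ x ∈ l, x ∈ h.keep
  · obtain ⟨x, hx, hk⟩ := hk
    obtain ⟨P, Q, rfl⟩ := List.append_of_mem hx
    have := ih _ (by simp [← hn]) (P ++ Q.map fun b => x * b * x⁻¹) (fun y hy => by
        rcases List.mem_append.1 hy with hy | hy
        · exact hl y (by simp [hy])
        · obtain ⟨b, hb, rfl⟩ := List.mem_map.1 hy
          exact h.conj _ _ (hl b (by simp [hb])))
      (by
        rw [← Multiset.coe_add, ← Multiset.cons_coe, Multiset.add_cons, add_comm] at hw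
        rw [← Multiset.coe_add, add_comm]
        exact B4 x Q _ (B1 _ _ hw))
      (fun J => by
        have e : (P ++ x :: Q).prod = (P ++ Q.map fun b => x * b * x⁻¹).prod * x := by
          rw [List.prod_append, List.prod_append, prod_conj, List.prod_cons]; group
        have := h0 J
        rwa [e, h.pos_mul hk] at this) rfl
    intro y hy
    rcases List.mem_append.1 hy with hy | hy
    · exact this y (List.mem_append_left _ hy)
    rcases List.mem_cons.1 hy with rfl | hy
    · exact hk
    · have a := this _ (List.mem_append_right _ (List.mem_map_of_mem hy))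
      have e : y = x⁻¹ * (x * y * x⁻¹) * x := by group
      rw [e]
      exact mul_mem (mul_mem (inv_mem hk) a) hk
  intro x0 hx0
  exfalso
  have hn0 : 0 < n := hn ▸ List.length_pos_of_mem hx0
  have nk : ∀ x ∈ l, x ∉ h.keep := fun x hx c => hk ⟨x, hx, c⟩
  have mem : ∀ k < n, l.getD k 1 ∈ l := fun k hk => by
    rw [List.getD_eq_getElem _ _ (hn ▸ hk)]; exact List.getElem_mem _
  have succ : ∀ k < n, (l.take (k + 1)).prod = (l.take k).prod * l.getD k 1 := fun k hk => by
    rw [List.getD_eq_getElem _ _ (hn ▸ hk)]; exact List.prod_take_succ _ _ _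
  have cen : ∀ k, ∃ J : Jn, k < n → l.getD k 1 • J = J ∧ Dp (pos J o) (pos J (l.getD k 1 • o)) := by
    obtain ⟨J0, -⟩ := (h.cen _ (hl _ hx0)).resolve_left (nk _ hx0)
    intro k
    by_cases hk : k < n
    · obtain ⟨J, hJ⟩ := (h.cen _ (hl _ (mem k hk))).resolve_left (nk _ (mem k hk))
      exact ⟨J, fun _ => hJ⟩
    · exact ⟨J0, fun c => absurd c hk⟩
  choose J hJ using cen
  have merge : ∀ k i, k < i → i < n → (l.take k).prod • J k ≠ (l.take i).prod • J i := by
    intro k i hki hi e
    have hlen : (l.take i).length = i := List.length_take_of_le (by omega)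
    have s1 := split (l := l) (k := i) (by omega)
    have s2 := split (l := l.take i) (k := k) (by omega)
    have e1 : (l.take i).take k = l.take k := by rw [List.take_take, min_eq_left hki.le]
    have e2 : (l.take i).getD k 1 = l.getD k 1 := by
      rw [List.getD_eq_getElem _ _ (by omega), List.getD_eq_getElem _ _ (by omega),
        List.getElem_take]
    rw [e1, e2] at s2
    obtain ⟨a1, a2⟩ := hJ k (by omega)
    have a3 := (hJ i hi).1
    have m1 := mem k (by omega)
    have m2 := mem i hi
    generalize l.getD k 1 = x at *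
    generalize l.getD i 1 = x' at *
    generalize (l.take i).drop (k + 1) = Q at *
    generalize l.drop (i + 1) = R at *
    generalize l.take k = P at *
    rw [s2] at s1 e
    have e3 : J k = Q.prod • J i := by
      rw [List.prod_append, List.prod_cons, mul_smul, mul_smul] at e
      have := MulAction.injective _ e
      rw [← a1] at this
      exact MulAction.injective _ this
    have a4 : (Q.prod * x' * Q.prod⁻¹) • J k = J k := by
      rw [e3, mul_smul, mul_smul, inv_smul_smul, a3]
    have e4 : (l : Multiset G) = x' ::ₘ x ::ₘ ((P ++ Q ++ R : List G) : Multiset G) := by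
      rw [s1]
      simp only [← Multiset.coe_add, ← Multiset.cons_coe, ← Multiset.singleton_add]
      abel
    have e5 := B2 Q.prod _ _ (e4 ▸ hw)
    rw [Multiset.cons_swap] at e5
    obtain ⟨nb, e6⟩ := B3 _ _ _ e5
    obtain ⟨y, y', -, b1, -⟩ := a2
    have el := h.mrg x _ (J k) y b1 (hl x m1) (h.conj Q.prod x' (hl x' m2)) a1 a4 nb
    have := ih _ (by rw [← hn, s1]; simp) (P ++ (x * (Q.prod * x' * Q.prod⁻¹)) :: (Q ++ R))
      (fun y hy => by
        simp only [List.mem_append, List.mem_cons] at hy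
        rcases hy with hy | rfl | hy | hy
        · exact hl y (by rw [s1]; simp [hy])
        · exact el
        · exact hl y (by rw [s1]; simp [hy])
        · exact hl y (by rw [s1]; simp [hy]))
      (by
        have e8 : ((P ++ (x * (Q.prod * x' * Q.prod⁻¹)) :: (Q ++ R) : List G) : Multiset G) =
            (x * (Q.prod * x' * Q.prod⁻¹)) ::ₘ ((P ++ Q ++ R : List G) : Multiset G) := by
          simp only [← Multiset.coe_add, ← Multiset.cons_coe, ← Multiset.singleton_add]
          abel
        rw [e8]; exact e6)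
      (fun K => by
        have e7 : (P ++ (x * (Q.prod * x' * Q.prod⁻¹)) :: (Q ++ R)).prod = l.prod := by
          rw [s1]; simp only [List.prod_append, List.prod_cons]; group
        rw [e7]; exact h0 K) rfl _ (List.mem_append_right _ List.mem_cons_self)
    have b2 := h.pos_smul (x * (Q.prod * x' * Q.prod⁻¹)) (J k) o
    rw [mul_smul x _ (J k), a4, a1, this (J k), b1] at b2
    exact nb (h.fx (J k) y _ b1 (by simpa using b2.symm))
  obtain ⟨k, hk, i, hi, hne, e⟩ := h.core hn0 (fun j => (l.take j).prod • o)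
    (fun k => (l.take k).prod * l.getD k 1 * (l.take k).prod⁻¹) (fun k => (l.take k).prod • J k)
    (fun k hk => by simp only [succ k hk, mul_smul, inv_smul_smul])
    (fun k hk => by simp only [mul_smul, inv_smul_smul, (hJ k hk).1])
    (fun k hk => by
      simp only [succ k hk, mul_smul]
      rw [h.pos_smul, h.pos_smul, dp_map]; exact (hJ k hk).2)
    (fun k hk j _ => by
      by_contra hlt
      have s1 := split (l := l) (k := k) (by omega)
      obtain ⟨P', Q', e1, e2⟩ := move (l.take k) (l.drop (k + 1)) (l.getD k 1) j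
      rw [← s1] at e2
      have m1 := mem k hk
      simp only [succ k hk, mul_smul (l.take k).prod (l.getD k 1) o, h.d_smul] at hlt
      generalize l.getD k 1 = x at *
      generalize l.drop (k + 1) = Q at *
      generalize l.take k = P at *
      generalize (l.take j).prod = g at *
      have e3 : g⁻¹ * (P.prod * x * P.prod⁻¹) * g = (g⁻¹ * P.prod) * x * (g⁻¹ * P.prod)⁻¹ := by
        group
      have e4 : phD pos o ((g⁻¹ * (P.prod * x * P.prod⁻¹) * g) • o) =
          phD pos (g • o) ((P.prod * x * P.prod⁻¹) • g • o) := by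
        rw [← h.d_smul g, ← mul_smul, ← mul_smul]; congr 2; group
      have sub : ∀ y, y ∈ P' ∨ y ∈ Q' ↔ y ∈ P ∨ y ∈ Q := fun y => by
        rw [← List.mem_append, e1, List.mem_append]
      have := ih2 _ (by
          have a1 := congrArg (fun t : List G => (t.map fun x => phD pos o (x • o)).sum) e1
          rw [← hN, s1]
          simp only [List.map_append, List.map_cons, List.sum_append, List.sum_cons] at a1 ⊢
          omega) (P' ++ (g⁻¹ * (P.prod * x * P.prod⁻¹) * g) :: Q')
        (fun y hy => by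
          simp only [List.mem_append, List.mem_cons] at hy
          rcases hy with hy | rfl | hy
          · exact hl y (by have := (sub y).1 (Or.inl hy); rw [s1]; simp; tauto)
          · rw [e3]; exact h.conj _ _ (hl x m1)
          · exact hl y (by have := (sub y).1 (Or.inr hy); rw [s1]; simp; tauto))
        (by
          rw [s1, ← Multiset.coe_add, ← Multiset.cons_coe, Multiset.add_cons, Multiset.coe_add,
            ← e1] at hw
          rw [e3, ← Multiset.coe_add, ← Multiset.cons_coe, Multiset.add_cons, Multiset.coe_add]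
          exact B2 _ _ _ hw)
        (fun K => by rw [e2]; exact h0 K)
        (by
          have a1 := congrArg List.length e1
          rw [← hn, s1]
          simp only [List.length_append, List.length_cons] at a1 ⊢
          omega) rfl
      have a1 : l.prod ∈ h.keep := e2 ▸ list_prod_mem this
      have a2 : ∀ y, y ∈ P ∨ y ∈ Q → y ∈ h.keep := fun y hy => this y (by
        have := (sub y).2 hy; simp; tauto)
      have a3 : P.prod ∈ h.keep := list_prod_mem fun y hy => a2 y (Or.inl hy)
      have a4 : Q.prod ∈ h.keep := list_prod_mem fun y hy => a2 y (Or.inr hy)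
      have a5 : x = P.prod⁻¹ * l.prod * Q.prod⁻¹ := by
        rw [s1, List.prod_append, List.prod_cons]; group
      exact nk x m1 (a5 ▸ mul_mem (mul_mem (inv_mem a3) a1) (inv_mem a4)))
    (fun K => by simpa [← hn] using h0 K)
  rcases lt_or_gt_of_ne hne with c | c
  · exact merge k i c hi e
  · exact merge i k c hk e.symm

end PH

end Pool.Agent.Work.MP_3d425c_gt.To
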