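import Pool.Agent.Work.MP_3d425c_gt.To.SfGeo
import Pool.Agent.Work.MP_3d425c_gt.To.SfPh
import Pool.Agent.Work.MP_3d425c_gt.To.AxC

/-! A product of elliptic elements that moves a point along a chart. -/

namespace Pool.Agent.Work.MP_3d425c_gt.To.Ph
open Set Filter Topology Pool.Agent.Work.MP_3d425c_gt.Cy Pool.Agent.Work.MP_3d425c_gt.To.Ax
open Pool.Agent.Work.MP_3d425c_gt.Gl

variable {G X : Type*} [Group G] [MulAction G X] {C : Set (ℝ → X)} {up : X → X → Prop} {h x : G}

theorem p2_nest {a b : X} (e : Nest (dualU up) a b) : Nest up b a :=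
  ⟨by_contra fun q => e.2 ⟨q, fun r => e.1.2 r.symm⟩, e.1.1⟩

theorem p2_dual (e : Ell up h x) : Ell (dualU up) h x :=
  ⟨e.1, fun μ q => ⟨fun r => (e.2 μ q).2 (p2_nest r), fun r => (e.2 μ q).1 (p2_nest r)⟩⟩

theorem p2_le {a b : X} : Le (dualC C) a b ↔ Le C b a :=
  ⟨Or.imp Eq.symm asc_dual.1, Or.imp Eq.symm asc_dual.2⟩

theorem p2_cc : dualC (dualC C) = C := by
  ext a
  simp [dualC]

theorem p2_hinv (e : Ell up h x) : Ell up h⁻¹ x :=
  ⟨(Commute.inv_left e.1).eq, fun μ q => e.2 μ (inv_smul_eq_iff.1 q).symm⟩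

theorem p2_symm {a b : G} (e : Dp a b) : Dp b a := by
  obtain ⟨m, n, q, e⟩ := e
  exact ⟨n, m, fun r => q r.symm, e.symm⟩

theorem p2_dinv {a b : G} (e : Dp a b⁻¹) : Dp a b := by
  obtain ⟨m, n, q, e⟩ := e
  exact ⟨m, -n, fun r => q ⟨r.1, neg_eq_zero.1 r.2⟩, by rw [e, inv_zpow']⟩

/-- `x` moves a fixed point of `h` below `o` inside its class -/
def P2Cn (C : Set (ℝ → X)) (up : X → X → Prop) (h x : G) (o : X) : Prop :=
  ∃ m, h • m = m ∧ x • m ≠ m ∧ LG C m (x • m) ∧ Uc up m o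

variable (H : Om G C up)
include H

theorem p2_uu : dualU (dualU up) = up := by
  funext a b
  refine propext ⟨fun e => by_contra fun q => e.1 ⟨q, e.2⟩, fun e => ⟨fun q => q.1 e, ?_⟩⟩
  rintro rfl
  exact H.irr _ e

theorem p2_fix (e : Ell up h x) {m : X} (f : h • m = m) (c : Cmp C m (x • m)) : x • m = m := by
  rcases c with (c | c) | c | c
  exacts [c.symm, absurd (asc_nest H c) (e.2 m f).1, c, absurd (asc_nest H c) (e.2 m f).2]

theorem p2_comm {g : G} (c : h * g = g * h) {o : X} (e : Cmp C o (h • o)) :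
    Cmp C (g • o) (h • g • o) := by
  rw [← mul_smul, c, mul_smul]
  exact cmp_smul H g e

theorem p2_cen1 (e : Ell up h x) {o y : X} (ho : Cmp C o (h • o)) (l : Le C y o)
    (cy : Cmp C y (x • y)) (nc : ¬ Cmp C o (x • o)) :
    ∃ m, h • m = m ∧ x • m ≠ m ∧ LG C m (x • m) ∧ Le C m o := by
  have l' : Asc C y o := l.resolve_left fun q => nc (q ▸ cy)
  obtain ⟨v, v1, v2, v3⟩ : ∃ v, Asc C v o ∧ Asc C v (x • o) ∧ Cmp C v (x • v) := by
    rcases cy with q | q
    · exact ⟨y, l', le_asc H q (asc_smul H x l'), .inl q⟩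
    · exact ⟨x • y, le_asc H q l', asc_smul H x l', .inr (le_smul H x q)⟩
  obtain ⟨m, n, lg, ne, a1, a2, a3, a4⟩ := branch H v1 v2 nc
  have f := fix_pair H lg ne (le_uc H a2) (le_uc H a4) ho (p2_comm H e.1 ho)
  have a5 : Le C (x • v) (x • m) := .inr (asc_smul H x a1)
  have c : Cmp C n (x • m) := by
    rcases v3 with q | q
    · exact seg H (.inr a3) a4 (le_tr H q a5) (le_smul H x a2)
    · exact seg H (le_tr H q (.inr a3)) a4 a5 (le_smul H x a2)
  have k : n = x • m := by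
    rcases c with (c | c) | c | c
    · exact c
    · have := asc_smul H x (asc_lg H (by simpa only [inv_smul_smul] using asc_smul H x⁻¹ c) lg)
      rw [smul_inv_smul] at this
      exact absurd (asc_nest H this) (e.2 n f.2).1
    · exact c.symm
    · exact absurd (asc_nest H (asc_lg H c (Om.lg_symm lg))) (e.2 m f.1).2
  exact ⟨m, f.1, k ▸ ne.symm, k ▸ lg, a2⟩

theorem p2_cen2 (e : Ell up h x) {o y z w : X} {k : ℕ} (ho : Cmp C o (h • o)) (hy : Cmp C y (h • y))
    (cy : Cmp C y (x • y)) (h1 : Asc C z y) (h2 : Cmp C z w) (ch : Chn (Cmp C) univ k w o)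
    (hm : ∀ j < k + 2, ¬ Chn (Cmp C) univ j y o) :
    (P2Cn C up h x o ∨ P2Cn (dualC C) (dualU up) h x o) ∨
      ∃ n, Cmp C n (h • n) ∧ Cmp C n (x • n) ∧ Chn (Cmp C) univ (k + 1) n o := by
  obtain ⟨m, n, lg, ne, -, a2, -, a4, a5⟩ := valley H (mem_univ y) h1 h2 ch hm
  have f := fix_pair H lg ne (le_uc H a2) a5 hy ho
  by_cases c : Cmp C m (x • m)
  · have f1 := p2_fix H e f.1 c
    by_cases q : x • n = n
    · exact .inr ⟨n, f.2.symm ▸ cmp_refl n, q.symm ▸ cmp_refl n, .cons trivial (.inl a4) ch⟩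
    · refine .inl (.inl ⟨n, f.2, q, H.lg_trans (Om.lg_symm lg) ?_, a5⟩)
      simpa only [f1] using H.lg_smul x lg
  · obtain ⟨m', b1, b2, b3, b4⟩ := p2_cen1 H.dual (p2_dual e) (o := m) (y := y)
      (f.1.symm ▸ cmp_refl m) (p2_le.2 a2) (cmp_dual (C := C) ▸ cy) (cmp_dual (C := C) ▸ c)
    refine .inl (.inr ⟨m', b1, b2, b3, (H.windA_dual m' o).2 fun q => ne (lg_disj H lg ?_ a5)⟩)
    rcases p2_le.1 b4 with r | r
    · exact .inl (r ▸ q)
    · exact .inl ((asc_nest H r).sub H (.inl q))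

/-- the centre of an elliptic element -/
theorem p2_cen (e : Ell up h x) {o : X} (ho : Cmp C o (h • o)) (nc : ¬ Cmp C o (x • o)) :
    P2Cn C up h x o ∨ P2Cn (dualC C) (dualU up) h x o := by
  obtain ⟨y, hy, cy⟩ : ∃ y, Cmp C y (h • y) ∧ Cmp C y (x • y) := by
    rcases cmp_two H e.1 o with q | ⟨m, n, s⟩ | ⟨m, n, s⟩
    · exact q
    · exact absurd ho (s.not_cmp H o)
    · rcases s.tri H e.1.symm with q | q | q
      · exact absurd (s.nest H) (e.2 n q.2).1
      · exact absurd ho (q.not_cmp H o)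
      · exact absurd (by simpa only [inv_smul_smul] using ho.symm) (q.not_cmp H (h • o))
  obtain ⟨k, ch⟩ := chn_univ H y o
  induction k using Nat.strong_induction_on generalizing y with
  | _ k ih =>
    by_cases hm : ∃ j < k, Chn (Cmp C) univ j y o
    · obtain ⟨j, a, b⟩ := hm
      exact ih j a y hy cy b
    have hm' : ∀ j < k, ¬ Chn (Cmp C) univ j y o := fun j a b => hm ⟨j, a, b⟩
    rcases k with _ | k
    · exact absurd (ch.zero ▸ cy) nc
    obtain ⟨z, r, ch⟩ := ch.succ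
    rcases k with _ | k
    · obtain rfl := ch.zero
      rcases r with r | r
      · obtain ⟨m, b1, b2, b3, b4⟩ := p2_cen1 H e ho r cy nc
        exact .inl ⟨m, b1, b2, b3, le_uc H b4⟩
      · obtain ⟨m, b1, b2, b3, b4⟩ := p2_cen1 H.dual (p2_dual e) (cmp_dual (C := C) ▸ ho) (p2_le.2 r)
          (cmp_dual (C := C) ▸ cy) (cmp_dual (C := C) ▸ nc)
        exact .inr ⟨m, b1, b2, b3, le_uc H.dual b4⟩
    obtain ⟨w, r', ch⟩ := ch.succ
    have key : (P2Cn C up h x o ∨ P2Cn (dualC C) (dualU up) h x o) ∨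
        ∃ n, Cmp C n (h • n) ∧ Cmp C n (x • n) ∧ Chn (Cmp C) univ (k + 1) n o := by
      rcases r with (r | r) | r | r
      · exact absurd (.cons trivial (r ▸ r') ch) (hm' _ (by omega))
      · have := p2_cen2 H.dual (p2_dual e) (o := o) (y := y) (z := z) (w := w) (k := k)
        rw [cmp_dual, p2_cc, p2_uu H] at this
        exact (this ho hy cy (asc_dual.2 r) r' ch hm').imp_left Or.symm
      · exact absurd (.cons trivial (r ▸ r') ch) (hm' _ (by omega))
      · exact p2_cen2 H e ho hy cy r r' ch hm'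
    rcases key with q | ⟨n, b1, b2, b3⟩
    · exact q
    · exact ih (k + 1) (by omega) n b1 b2 b3

theorem p2_germ {a b c : G} {y : X} (ha : LG C (a • y) y) (hb : LG C (b • y) y)
    (hc : LG C (c • y) y) : ∃ p, Cmp C p (a • p) ∧ Cmp C p (b • p) ∧ Cmp C p (c • p) := by
  obtain ⟨d, hd, rfl⟩ := chart0 H y
  obtain ⟨u, q⟩ := ((germ_cmp H hd ha).and ((germ_cmp H hd hb).and (germ_cmp H hd hc))).exists
  exact ⟨_, q⟩

theorem p2_mrg1 (rk : Rk G X) {x' : G} (e : Ell up h x) (e' : Ell up h x') (nd : ¬ Dp (x * x') h)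
    {p : X} (ho : Asc C p (h • p)) (c1 : Cmp C p (x • p)) (c2 : Cmp C p (x' • p)) :
    Ell up h (x * x') := by
  obtain ⟨j, a1, a2⟩ := hull_ell H e ho c1
  obtain ⟨i, b1, b2⟩ := hull_ell H e' ho c2
  have cx : Commute h x := e.1
  have cm : Commute h (x * x') := cx.mul_right e'.1
  have u1 : Le C ((h ^ (j + i))⁻¹ • p) ((x * x') • p) := by
    have k1 := le_smul H x b1
    have k2 := le_smul H (h ^ i)⁻¹ a1
    rw [← mul_smul, ← mul_smul, ← (cx.pow_left i).inv_left.eq] at k1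
    rw [← mul_smul, ← mul_smul, ← mul_inv_rev, ← pow_add] at k2
    exact le_tr H k2 k1
  have u2 : Le C ((x * x') • p) (h ^ (i + j) • p) := by
    have k1 := le_smul H x b2
    have k2 := le_smul H (h ^ i) a2
    rw [← mul_smul, ← mul_smul, ← (cx.pow_left i).eq] at k1
    rw [← mul_smul, ← mul_smul, ← pow_add] at k2
    exact le_tr H k1 k2
  have ca : Cmp C p (h • p) := .inl (.inr ho)
  have cb : Cmp C p ((x * x') • p) := by
    refine seg H ?_ (le_pow H (.inr ho) (i + j)) u1 u2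
    simpa only [inv_smul_smul] using le_smul H (h ^ (j + i))⁻¹ (le_pow H (.inr ho) (j + i))
  obtain ⟨s, hs, ⟨q, hq, h0⟩, pos⟩ := line H cm.eq ca cb fun q => asc_irr H p (by
    rwa [q.1] at ho)
  have hh : h ∈ Subgroup.closure ({h, x * x'} : Set G) := Subgroup.subset_closure (.inl rfl)
  have hz : x * x' ∈ Subgroup.closure ({h, x * x'} : Set G) := Subgroup.subset_closure (.inr rfl)
  refine ell_line H rk cm.eq (fun q => nd (p2_symm q)) ⟨pair_comm cm.eq, hs⟩
    ⟨orbit_cmp H cm.eq ca cb, pos⟩ fun s0 => ?_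
  have sp : ∀ k : ℕ, s (h ^ k)⁻¹ = 0 := fun k => by
    rw [add_inv hs (pow_mem hh k), ← zpow_natCast, add_zpow hs hh, s0, mul_zero, neg_zero]
  rcases lt_trichotomy (s (x * x')) 0 with l | l | l
  · have := asc_smul H (x * x') (pos _ (mul_mem (inv_mem hz) (inv_mem (pow_mem hh (j + i)))) (by
      rw [hs _ (inv_mem hz) _ (inv_mem (pow_mem hh _)), sp, add_inv hs hz]
      linarith))
    rw [mul_smul (x * x')⁻¹, smul_inv_smul] at this
    exact asc_irr H _ (asc_le H this u1)
  · obtain ⟨a, b, rfl⟩ := (mem_pair cm.eq).1 hq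
    rw [hs _ (zpow_mem hh a) _ (zpow_mem hz b), add_zpow hs hh, add_zpow hs hz, s0, l] at h0
    simp at h0
  · have := asc_smul H (h ^ (i + j)) (pos _ (mul_mem (inv_mem (pow_mem hh (i + j))) hz) (by
      rw [hs _ (inv_mem (pow_mem hh _)) _ hz, sp]
      linarith))
    rw [mul_smul (h ^ (i + j))⁻¹, smul_inv_smul] at this
    exact asc_irr H _ (asc_le H this u2)

theorem p2_mrg2 (rk : Rk G X) {x' : G} (e : Ell up h x) (e' : Ell up h x') (nd : ¬ Dp (x * x') h)
    {p : X} (c0 : Cmp C p (h • p)) (c1 : Cmp C p (x • p)) (c2 : Cmp C p (x' • p)) :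
    Ell up h (x * x') := by
  by_cases f : h • p = p
  · exact absurd (rk p _ _ (by rw [mul_smul, p2_fix H e' f c2, p2_fix H e f c1]) f) nd
  rcases c0 with (c | c) | c | c
  · exact absurd c.symm f
  · exact p2_mrg1 H rk e e' nd c c1 c2
  · exact absurd c f
  · simpa only [inv_inv] using p2_hinv (p2_mrg1 H rk (p2_hinv e) (p2_hinv e') (fun q => nd (p2_dinv q))
      (by simpa only [inv_smul_smul] using asc_smul H h⁻¹ c) c1 c2)

/-- two elliptic elements that keep the class of a fixed point -/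
theorem p2_mrg (rk : Rk G X) {x' : G} (e : Ell up h x) (e' : Ell up h x') (nd : ¬ Dp (x * x') h)
    {a : X × Bool} (f : h • a.1 = a.1) (c1 : hE C (x • a.1, a.2) a) (c2 : hE C (x' • a.1, a.2) a) :
    Ell up h (x * x') := by
  obtain ⟨a, _ | _⟩ := a
  · obtain ⟨p, q⟩ := p2_germ H.dual (a := h) (b := x) (c := x') (y := a)
      (f.symm ▸ H.dual.lg_refl a) (by simpa [hE] using c1) (by simpa [hE] using c2)
    rw [cmp_dual] at q
    exact p2_mrg2 H rk e e' nd q.1 q.2.1 q.2.2
  · obtain ⟨p, q⟩ := p2_germ H (a := h) (b := x) (c := x') (y := a)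
      (f.symm ▸ H.lg_refl a) (by simpa [hE] using c1) (by simpa [hE] using c2)
    exact p2_mrg2 H rk e e' nd q.1 q.2.1 q.2.2

/-- the action on junctions -/
@[reducible] def p2Act : MulAction G (Quotient H.wdS) where
  smul := H.wdA
  one_smul J := by
    obtain ⟨j, rfl⟩ := Quotient.exists_rep J
    change Quotient.mk H.wdS ((1 : G) • j.1, j.2) = _
    rw [one_smul]
  mul_smul a b J := by
    obtain ⟨j, rfl⟩ := Quotient.exists_rep J
    change Quotient.mk H.wdS ((a * b) • j.1, j.2) = Quotient.mk H.wdS (a • b • j.1, j.2)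
    rw [mul_smul]

open Classical in
/-- the fixed point of `h` in a junction whose side contains a given point -/
noncomputable def p2Pos (h : G) (J : Quotient H.wdS) (p : X) : Option X :=
  if e : ∃ a, hE C J.out a ∧ h • a.1 = a.1 ∧ hm up a p then some e.choose.1 else none

theorem p2_pos {J : Quotient H.wdS} {p y : X} : p2Pos H h J p = some y ↔
    ∃ β, hE C J.out (y, β) ∧ h • y = y ∧ hm up (y, β) p := by
  unfold p2Pos
  split_ifs with e
  · obtain ⟨a1, a2, a3⟩ := e.choose_spec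
    rw [Option.some.injEq]
    refine ⟨fun q => q ▸ ⟨e.choose.2, a1, a2, a3⟩, fun ⟨β, b1, _, b3⟩ => ?_⟩
    rw [H.hm_unique (H.hE_equiv.trans (H.hE_equiv.symm a1) b1) a3 b3]
  · exact ⟨fun q => absurd q (by simp), fun ⟨β, q⟩ => absurd ⟨(y, β), q⟩ e⟩

theorem p2_congr {J : Quotient H.wdS} {p q : X}
    (e : ∀ a, hE C J.out a → h • a.1 = a.1 → (hm up a p ↔ hm up a q)) :
    p2Pos H h J p = p2Pos H h J q := by
  refine Option.ext fun y => ?_
  rw [p2_pos, p2_pos]
  exact ⟨fun ⟨β, a, b, c⟩ => ⟨β, a, b, (e _ a b).1 c⟩, fun ⟨β, a, b, c⟩ => ⟨β, a, b, (e _ a b).2 c⟩⟩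

theorem p2_smul1 {g : G} (c : h * g = g * h) {J : Quotient H.wdS} {p y : X}
    (e : p2Pos H h J p = some y) : p2Pos H h (H.wdA g J) (g • p) = some (g • y) := by
  obtain ⟨β, a, b, d⟩ := (p2_pos H).1 e
  exact (p2_pos H).2 ⟨β, H.hE_equiv.trans (H.wdA_out g J) (H.wd_hE_smul g a),
    by rw [← mul_smul, c, mul_smul, b], H.wd_hm_smul g d⟩

theorem p2_smul {g : G} (c : h * g = g * h) (J : Quotient H.wdS) (p : X) :
    p2Pos H h (H.wdA g J) (g • p) = (p2Pos H h J p).map (g • ·) := by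
  cases e : p2Pos H h J p with
  | some y => exact p2_smul1 H c e
  | none =>
    refine Option.eq_none_iff_forall_ne_some.2 fun y q => ?_
    have := p2_smul1 H (Commute.inv_right c).eq q
    rw [H.wdA_inv, inv_smul_smul, e] at this
    exact absurd this (by simp)

theorem p2_ne {J J' : Quotient H.wdS} (ne : J ≠ J') : ¬ hE C J.out J'.out :=
  H.wd_ne (by rwa [Quotient.out_eq])

theorem p2_sep {J J' : Quotient H.wdS} (ne : J ≠ J') (a : X) :
    p2Pos H h J' a = p2Pos H h J' J.out.1 ∨ p2Pos H h J a = p2Pos H h J J'.out.1 := by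
  by_cases q : Same C up J'.out a J.out.1
  · exact .inl (p2_congr H fun b e _ => q b e)
  · exact .inr (p2_congr H fun b e _ => H.windA_pos (p2_ne H ne) q b e)

theorem p2_jump {J : Quotient H.wdS} {p q : X} (e : To.Dp (p2Pos H h J p) (p2Pos H h J q)) :
    Jump C up J.out p q := by
  obtain ⟨y, y', ne, a, b⟩ := e
  obtain ⟨β, a1, -, a3⟩ := (p2_pos H).1 a
  obtain ⟨β', b1, -, b3⟩ := (p2_pos H).1 b
  exact ⟨_, _, a1, b1, fun r => ne (Prod.mk.inj r).1, a3, b3⟩

theorem p2_mk {a : X × Bool} (c : h * x = x * h) {o : X} (f : h • a.1 = a.1) (ne : x • a.1 ≠ a.1)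
    (e : hE C a (x • a.1, a.2)) (ha : hm up a o) : ∃ J : Quotient H.wdS, H.wdA x J = J ∧
      To.Dp (p2Pos H h J o) (p2Pos H h J (x • o)) := by
  have k : H.wdA x (Quotient.mk H.wdS a) = Quotient.mk H.wdS a :=
    Quotient.sound (s := H.wdS) (H.hE_equiv.symm e)
  have k1 : p2Pos H h (Quotient.mk H.wdS a) o = some a.1 := (p2_pos H).2 ⟨a.2, H.wd_out a, f, ha⟩
  have k2 := p2_smul1 H c k1
  rw [k] at k2
  exact ⟨_, k, _, _, ne.symm, k1, k2⟩

theorem p2_PH (rk : Rk G X) (Γ : Subgroup G) (hΓ : ∀ g ∈ Γ, h * g = g * h) {o : X}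
    (ho : Cmp C o (h • o)) :
    letI := p2Act H
    PH (G := Γ) (p2Pos H h) (fun J J' => p2Pos H h J J'.out.1) (fun g => Ell up h g)
      (fun g => Dp (g : G) h) o := by
  let _ := p2Act H
  refine ⟨fun g J a => p2_smul H (hΓ g g.2) J a, fun g J J' ne => ?_, fun J J' ne a => p2_sep H ne a,
    fun J J' K ne _ _ => p2_sep H ne _, fun a b => (H.wd_fin a b).subset fun J e => p2_jump H e,
    fun g x e => ⟨hΓ _ (g * x * g⁻¹).2, fun μ f => ?_⟩, fun x e => ?_, fun J y z a b => ?_,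
    fun x x' J y a e e' b b' nd => ?_⟩
  · refine Eq.trans (p2_congr H fun a e _ => ?_) (p2_smul H (hΓ g g.2) J J'.out.1)
    have n1 : ¬ hE C a (H.wdA g J').out := fun r => p2_ne H
      (fun z => ne (MulAction.injective g z) : g • J ≠ g • J') (H.hE_equiv.trans e r)
    have o1 := H.wdA_out g J'
    exact ⟨H.windA_side o1 n1,
      H.windA_side (H.hE_equiv.symm o1) fun r => n1 (H.hE_equiv.trans r (H.hE_equiv.symm o1))⟩
  · have f' : h • (g : G)⁻¹ • μ = (g : G)⁻¹ • μ := by
      rw [← mul_smul, hΓ _ (inv_mem g.2), mul_smul, f]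
    have k : (g : G)⁻¹ • ((g * x * g⁻¹ : Γ) : G) • μ = (x : G) • (g : G)⁻¹ • μ := by
      rw [Subgroup.coe_mul, Subgroup.coe_mul, Subgroup.coe_inv, mul_smul, mul_smul, inv_smul_smul]
    exact ⟨fun q => (e.2 _ f').1 (k ▸ q.smul H (g : G)⁻¹),
      fun q => (e.2 _ f').2 (k ▸ q.smul H (g : G)⁻¹)⟩
  · by_cases c : Cmp C o ((x : G) • o)
    · exact .inl fun J => p2_congr H fun a _ f => (deg H e c f).symm
    · refine .inr ?_
      rcases p2_cen H e ho c with ⟨m, b1, b2, b3, b4⟩ | ⟨m, b1, b2, b3, b4⟩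
      · exact p2_mk H (a := (m, true)) e.1 b1 b2 (by simpa [hE] using b3)
          (by simpa [hm, Uc] using b4)
      · exact p2_mk H (a := (m, false)) e.1 b1 b2 (by simpa [hE] using b3)
          (by simpa [hm] using (H.windA_dual m o).1 b4)
  · obtain ⟨-, -, f, -⟩ := (p2_pos H).1 a
    exact rk y _ _ b f
  · obtain ⟨β, a1, f, -⟩ := (p2_pos H).1 a
    have k : ∀ g : G, H.wdA g J = J → hE C (g • y, β) (y, β) := fun g q => by
      have := H.wdA_out g J
      rw [q] at this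
      exact H.hE_equiv.trans (H.hE_equiv.symm (H.wd_hE_smul g a1))
        (H.hE_equiv.trans (H.hE_equiv.symm this) a1)
    exact p2_mrg H rk e e' nd (a := (y, β)) f (k _ b) (k _ b')

/-- If a product of elliptic elements moves `o` along a chart, every factor does. -/
theorem ph2 (rk : Rk G X) {n : ℕ} {x : ℕ → G} {Lab : G → Finset ℕ → Prop}
    (hx : ∀ k < n, Ell up h (x k)) (L : Lb h n x Lab) {o : X} (ho : Cmp C o (h • o))
    (hp : Cmp C o (pr x n • o)) : ∀ k < n, Cmp C o (x k • o) := by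
  classical
  let _ := p2Act H
  let Γ := Subgroup.closure {g | ∃ k < n, g = x k}
  have hΓ : ∀ g ∈ Γ, h * g = g * h := fun g hg => by
    induction hg using Subgroup.closure_induction with
    | mem g e =>
      obtain ⟨k, hk, rfl⟩ := e
      exact (hx k hk).1
    | one => simp
    | mul a b _ _ e e' => exact (Commute.mul_right e e').eq
    | inv a _ e => exact (Commute.inv_right e).eq
  have lc : ∀ g ∈ Γ, ∀ a K, Lab a K → Lab (g * a * g⁻¹) K ∧ Lab (g⁻¹ * a * g) K := fun g hg => by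
    induction hg using Subgroup.closure_induction with
    | mem g e =>
      obtain ⟨k, hk, rfl⟩ := e
      exact L.lc k hk
    | one => simp
    | mul a b _ _ e e' =>
      intro c K q
      refine ⟨?_, ?_⟩
      · simpa only [mul_inv_rev, mul_assoc] using (e _ K (e' c K q).1).1
      · simpa only [mul_inv_rev, mul_assoc] using (e' _ K (e c K q).2).2
    | inv a _ e => exact fun c K q => by simpa only [inv_inv] using (e c K q).symm
  let x' : ℕ → Γ := fun k => if hk : k < n then ⟨x k, Subgroup.subset_closure ⟨k, hk, rfl⟩⟩ else 1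
  have xe : ∀ k < n, (x' k : G) = x k := fun k hk => by simp only [x', dif_pos hk]
  have pe : ∀ m ≤ n, ((((List.range m).map x').prod : Γ) : G) = pr x m := fun m hm => by
    induction m with
    | zero => rfl
    | succ m ih =>
      rw [List.range_succ, List.map_append, List.prod_append, Subgroup.coe_mul, ih (by omega)]
      simp [pr, xe m hm]
  have P := p2_PH H rk Γ hΓ ho
  have cons : ∀ (t : Multiset (Γ × Finset ℕ)) a s, t.map Prod.fst = a ::ₘ s →
      ∃ K t', t = (a, K) ::ₘ t' ∧ t'.map Prod.fst = s := fun t a s e => by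
    obtain ⟨⟨a', K⟩, q, rfl⟩ := Multiset.mem_map.1 (e ▸ Multiset.mem_cons_self a s)
    obtain ⟨t', rfl⟩ := Multiset.exists_cons_of_mem q
    exact ⟨K, t', rfl, by simpa using e⟩
  have := P.ph (fun s => ∃ t : Multiset (Γ × Finset ℕ), t.map Prod.fst = s ∧
      (∀ e ∈ t, Lab e.1 e.2 ∧ e.2.Nonempty) ∧ (t.bind fun e => e.2.1).Nodup)
    (fun a s ⟨t, t1, t2, t3⟩ => by
      obtain ⟨K, t', rfl, q⟩ := cons t a s t1
      rw [Multiset.cons_bind] at t3
      exact ⟨t', q, fun b hb => t2 b (Multiset.mem_cons_of_mem hb), (Multiset.nodup_add.1 t3).2.1⟩)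
    (fun g a s ⟨t, t1, t2, t3⟩ => by
      obtain ⟨K, t', rfl, q⟩ := cons t a s t1
      have k := t2 _ (Multiset.mem_cons_self _ _)
      refine ⟨(g * a * g⁻¹, K) ::ₘ t', by simp [q], fun b hb => ?_, by simpa using t3⟩
      rcases Multiset.mem_cons.1 hb with rfl | hb
      · exact ⟨(lc g g.2 a K k.1).1, k.2⟩
      · exact t2 b (Multiset.mem_cons_of_mem hb))
    (fun a b s ⟨t, t1, t2, t3⟩ => by
      obtain ⟨K, t', rfl, q⟩ := cons t a _ t1
      obtain ⟨K', t', rfl, q'⟩ := cons t' b s q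
      have k := t2 _ (Multiset.mem_cons_self _ _)
      have k' := t2 _ (Multiset.mem_cons_of_mem (Multiset.mem_cons_self _ _))
      rw [Multiset.cons_bind, Multiset.cons_bind, ← add_assoc] at t3
      have d : Disjoint K K' :=
        Finset.disjoint_val.1 (Multiset.nodup_add.1 (Multiset.nodup_add.1 t3).1).2.2
      have l := L.lm _ _ K K' k.1 k'.1 d
      refine ⟨L.lf _ _ l ?_, (a * b, K ∪ K') ::ₘ t', by simp [q'], fun c hc => ?_, ?_⟩
      · rw [Finset.card_union_of_disjoint d]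
        exact Nat.add_le_add k.2.card_pos k'.2.card_pos
      · rcases Multiset.mem_cons.1 hc with rfl | hc
        · exact ⟨l, k.2.mono Finset.subset_union_left⟩
        · exact t2 c (Multiset.mem_cons_of_mem (Multiset.mem_cons_of_mem hc))
      · rw [Multiset.cons_bind, ← Finset.disjUnion_eq_union K K' d]
        exact t3)
    ((List.range n).map x') (fun a ha => by
      obtain ⟨k, hk, rfl⟩ := List.mem_map.1 ha
      rw [xe k (List.mem_range.1 hk)]
      exact hx k (List.mem_range.1 hk))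
    ⟨(Multiset.range n).map fun k => (x' k, {k}), by rw [Multiset.map_map]; rfl, fun e he => by
      obtain ⟨k, hk, rfl⟩ := Multiset.mem_map.1 he
      rw [xe k (Multiset.mem_range.1 hk)]
      exact ⟨L.l1 k (Multiset.mem_range.1 hk), Finset.singleton_nonempty k⟩, by
      rw [Multiset.bind_map]
      exact (Multiset.bind_singleton (Multiset.range n) id).symm ▸
        (Multiset.map_id _).symm ▸ Multiset.nodup_range n⟩
    (fun J e => cmp_nj H (by rw [← pe n le_rfl] at hp; exact hp) _ (p2_jump H e))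
  intro k hk
  have kp := this (x' k) (List.mem_map_of_mem (List.mem_range.2 hk))
  refine nj_cmp H fun j ⟨a, b, ea, eb, ne, ha, hb⟩ => ?_
  have ab := H.hE_equiv.trans (H.hE_equiv.symm ea) eb
  have f := jump_fix H ab ne ha hb ho (p2_comm H (hx k hk).1 ho)
  have k1 : p2Pos H h (Quotient.mk H.wdS a) o = some a.1 :=
    (p2_pos H).2 ⟨a.2, H.wd_out a, f.1, ha⟩
  have k2 : p2Pos H h (Quotient.mk H.wdS a) (x k • o) = some b.1 :=
    (p2_pos H).2 ⟨b.2, H.hE_equiv.trans (H.wd_out a) ab, f.2, hb⟩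
  have k3 : p2Pos H h (Quotient.mk H.wdS a) ((x' k : G) • o) = _ := kp (Quotient.mk H.wdS a)
  rw [xe k hk, k1, k2, Option.some.injEq] at k3
  exact ne (Prod.ext k3.symm ab.1)

end Pool.Agent.Work.MP_3d425c_gt.To.Ph
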