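import Pool.Agent.Work.MP_3d425c_gt.To.Top
import Pool.Agent.Work.MP_3d425c_gt.To.TopSf
import Pool.Agent.Work.MP_3d425c_gt.To.SfCl
import Pool.Agent.Work.MP_3d425c_gt.Bq.Main
import Pool.Agent.Work.MP_3d425c_gt.Js.Br
import Pool.Agent.Work.MP_3d425c_gt.Sm.Main3

/-! Taut foliations on rational homology spheres with a geometric decomposition. -/

namespace Pool.Agent.Work.MP_3d425c_gt.To.Top
open Set MulAction Pool.Agent.Work.MP_3d425c_gt.Cy

theorem Dec.lo {G V X : Type} [Group G] [MulAction G V] [MulAction G X] {T : SimpleGraph V}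
    {C : Set (ℝ → X)} {up : X → X → Prop} [Countable G]
    (tf : ∀ a : G, a ≠ 1 → ¬ IsOfFinOrder a) (D : Dec G T)
    (big : ∀ v, Hp G T v → Bg2 (stabilizer G v)) (O : Cv.Ob G C up) (x₀ : X) : Md.LO G :=
  phase2 tf D.jsj D.nm O x₀ fun _ S N v => (D.pc v).imp
    (fun k => ⟨let ⟨_, d⟩ := k.rep; d.hy_sub tf, big v k, k.mal⟩)
    fun ⟨_, _, _, _, _, _, k⟩ => sf_out tf D.jsj O.om O.cy (dep_of_cyc O.cy) S N k

/-- foliated triangulations -/
theorem main_tri {G X0 X1 X2 X3 : Type} [Group G] [MulAction G X0] [MulAction G X1]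
    [MulAction G X2] [MulAction G X3] (T : Md.Tri G X0 X1 X2 X3) (h0 : Md.NoHom G)
    (hD : Nv.Disc T) (mid : ∀ v, ∃ f, T.d1 (T.d2 f 2) 0 = v) (φ : X2 → ℝ ≃o ℝ) (hf : T.Fol φ)
    (ht : T.Taut φ) (g : Js.Geo G) : Nontrivial G ∧ Md.LO G := by
  obtain ⟨ρ, hρ, hb⟩ := Md.Tri.ball h0 hf ht mid
  obtain ⟨y, hy⟩ := hb φ hf fun f t => by rw [sub_self, abs_zero]; exact hρ.le
  have : Infinite G := Bg.inf_of_nc (Nv.fw_nov hD hy hf.1) (hy.inf hf)
  have hM := Bg.mfd_taut hD mid (Or.inr h0) hf ht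
  have tf := Bg.tf_disc hM hD
  refine ⟨inferInstance, ?_⟩
  rcases g.top tf with ⟨a, h1, hn⟩ | ⟨V, _, Γ, D⟩
  · exact T.lo_inv tf h0 hD mid φ hf ht h1 hn
  · obtain ⟨Y, _, y₀, C, up, O, cy, S, s1, -, s2⟩ := T.model_taut tf h0 hD mid φ hf ht
    have := Md.objB_countG T
    refine D.lo tf (fun v k => Bq.bg2_of hM hD h0 tf D.jsj D.prop k)
      ⟨om_of_OM O, fun x => ?_, S, s1, s2⟩ y₀
    obtain ⟨z, hz⟩ := (cy x).exists_zpow_surjective
    refine ⟨z.1, fun a ha => ?_⟩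
    obtain ⟨n, hn⟩ := hz ⟨a, ha⟩
    exact ⟨n, congrArg Subtype.val hn⟩

open scoped Manifold ContDiff in
/-- smooth manifolds -/
theorem main {M : Type} [TopologicalSpace M] [ChartedSpace Sm.E3 M]
    [IsManifold 𝓘(ℝ, Sm.E3) ∞ M] [CompactSpace M] [T2Space M] [ConnectedSpace M] (m : M)
    {G : Type} [Group G] (i : G ≃* FundamentalGroup M m)
    (h0 : ∀ χ : G →* Multiplicative ℝ, χ = 1) (g : Js.Geo G)
    {A : Set (OpenPartialHomeomorph M ((ℝ × ℝ) × ℝ))} (hA : Sm.Foliation A) (hT : Sm.Taut A) :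
    Nontrivial G ∧ ∃ r : G → G → Prop,
      IsStrictTotalOrder G r ∧ ∀ a b c, r a b ↔ r (c * a) (c * b) := by
  obtain ⟨X0, X1, X2, X3, _, _, _, _, T, φ, a, b, c, d⟩ := Sm.normal_form' m i hA hT
  exact main_tri T h0 a b φ c d g

end Pool.Agent.Work.MP_3d425c_gt.To.Top
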